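import Pool.Agent.H99.SC.Defs

/-!
# GRN: integral of a closed 1-form over the unit circle

`ω` C^1 at the points of the closed unit disc, `fderiv ω u a b` symmetric for `‖u‖ < 1`.  Then the
integral of `ω` along the unit circle is 0.
Proof.  `exists_forall_hasFDerivAt_of_fderiv_symmetric` (Mathlib,
MeasureTheory/Integral/CurveIntegral/Poincare.lean) on `ball 0 1`: `φ` with
`HasFDerivAt φ (ω u) u` for `‖u‖ < 1`.  For `0 < r < 1`: `ψ ↦ φ (r • cu ψ)` has derivative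
`ω (r • cu ψ) (r • rot (cu ψ))`, so by the fundamental theorem `∫ ω (r cu ψ) (r rot (cu ψ)) = φ(r cu 2π) -
φ(r cu 0) = 0`.  Let `r → 1`: the integrand is continuous in `(r, ψ)`, with `r` replaced by its projection
to `[0,1]`.
-/

set_option autoImplicit false

open scoped RealInnerProductSpace Topology
open Metric Filter Set

noncomputable section

namespace Pool.Agent.H99.SC

theorem GRN_cu_eq (ψ : ℝ) : cu ψ = Real.cos ψ • e0 + Real.sin ψ • e1 := by
  apply ext2 <;> simp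

theorem hasDerivAt_cu (ψ : ℝ) : HasDerivAt cu (rot (cu ψ)) ψ := by
  have h1 : HasDerivAt (fun x : ℝ => Real.cos x • e0 + Real.sin x • e1)
      ((-Real.sin ψ) • e0 + Real.cos ψ • e1) ψ :=
    ((Real.hasDerivAt_cos ψ).smul_const e0).add ((Real.hasDerivAt_sin ψ).smul_const e1)
  have h2 : (fun x : ℝ => Real.cos x • e0 + Real.sin x • e1) = cu := by
    funext x
    exact (GRN_cu_eq x).symm
  have h3 : (-Real.sin ψ) • e0 + Real.cos ψ • e1 = rot (cu ψ) := by
    apply ext2 <;> simp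
  rw [h2, h3] at h1
  exact h1

theorem GRN_cont_cu : Continuous cu :=
  continuous_iff_continuousAt.2 fun ψ => (hasDerivAt_cu ψ).continuousAt

theorem GRN_cont_rot : Continuous (fun ψ : ℝ => rot (cu ψ)) := by
  have h : (fun ψ : ℝ => rot (cu ψ)) = fun ψ : ℝ => (-Real.sin ψ) • e0 + Real.cos ψ • e1 := by
    funext ψ
    apply ext2 <;> simp
  rw [h]
  fun_prop

theorem GRN_norm_cu (ψ : ℝ) : ‖cu ψ‖ = 1 := by
  have h : ‖cu ψ‖ ^ 2 = 1 := by
    rw [nsq2]; simp
  nlinarith [norm_nonneg (cu ψ)]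

theorem GRN_radius {ω : V2 → V2 →L[ℝ] ℝ} (h1 : ∀ u : V2, ‖u‖ ≤ 1 → ContDiffAt ℝ 1 ω u)
    (hs : ∀ u : V2, ‖u‖ < 1 → ∀ a b : V2, fderiv ℝ ω u a b = fderiv ℝ ω u b a) {r : ℝ}
    (h0 : 0 ≤ r) (hr : r < 1) :
    ∫ ψ in (0 : ℝ)..(2 * Real.pi), ω (r • cu ψ) (r • rot (cu ψ)) = 0 := by
  obtain ⟨φ, hφ⟩ := (convex_ball (0 : V2) 1).exists_forall_hasFDerivAt_of_fderiv_symmetric
    (ω := ω) isOpen_ball
    (fun u hu => ((h1 u (mem_ball_zero_iff.1 hu).le).differentiableAt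
      (by norm_num)).differentiableWithinAt)
    (fun u hu a b => hs u (mem_ball_zero_iff.1 hu) a b)
  have hn : ∀ ψ : ℝ, ‖r • cu ψ‖ < 1 := by
    intro ψ
    rw [norm_smul, GRN_norm_cu, mul_one, Real.norm_eq_abs, abs_of_nonneg h0]
    exact hr
  have hd : ∀ ψ : ℝ, HasDerivAt (fun ψ => φ (r • cu ψ)) (ω (r • cu ψ) (r • rot (cu ψ))) ψ :=
    fun ψ => (hφ _ (mem_ball_zero_iff.2 (hn ψ))).comp_hasDerivAt ψ ((hasDerivAt_cu ψ).const_smul r)
  have hcr : Continuous (fun ψ : ℝ => r • cu ψ) := GRN_cont_cu.const_smul r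
  have hcw : Continuous (fun ψ : ℝ => ω (r • cu ψ)) := by
    rw [continuous_iff_continuousAt]
    intro ψ
    exact ContinuousAt.comp (f := fun ψ : ℝ => r • cu ψ) (h1 _ (hn ψ).le).continuousAt
      hcr.continuousAt
  have hc : Continuous (fun ψ : ℝ => ω (r • cu ψ) (r • rot (cu ψ))) :=
    hcw.clm_apply (GRN_cont_rot.const_smul r)
  rw [intervalIntegral.integral_eq_sub_of_hasDerivAt (fun ψ _ => hd ψ)
    (hc.intervalIntegrable _ _)]
  have h2 : cu (2 * Real.pi) = cu 0 := by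
    apply ext2 <;> simp
  rw [h2, sub_self]

theorem closed_circle {ω : V2 → V2 →L[ℝ] ℝ} (h1 : ∀ u : V2, ‖u‖ ≤ 1 → ContDiffAt ℝ 1 ω u)
    (hs : ∀ u : V2, ‖u‖ < 1 → ∀ a b : V2, fderiv ℝ ω u a b = fderiv ℝ ω u b a) :
    ∫ ψ in (0 : ℝ)..(2 * Real.pi), ω (cu ψ) (rot (cu ψ)) = 0 := by
  set c : ℝ → ℝ := fun r => max 0 (min r 1) with hc
  have hcc : Continuous c := by fun_prop
  have hc0 : ∀ r, 0 ≤ c r := fun r => le_max_left _ _
  have hc1 : ∀ r, c r ≤ 1 := fun r => max_le zero_le_one (min_le_right _ _)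
  set G : ℝ → ℝ := fun r => ∫ ψ in (0 : ℝ)..(2 * Real.pi), ω (c r • cu ψ) (c r • rot (cu ψ)) with hG
  have hcr : Continuous (fun q : ℝ × ℝ => c q.1 • cu q.2) :=
    (hcc.comp continuous_fst).smul (GRN_cont_cu.comp continuous_snd)
  have hcr' : Continuous (fun q : ℝ × ℝ => c q.1 • rot (cu q.2)) :=
    (hcc.comp continuous_fst).smul (GRN_cont_rot.comp continuous_snd)
  have hn : ∀ q : ℝ × ℝ, ‖c q.1 • cu q.2‖ ≤ 1 := by
    intro q
    rw [norm_smul, GRN_norm_cu, mul_one, Real.norm_eq_abs, abs_of_nonneg (hc0 _)]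
    exact hc1 _
  have hcw : Continuous (fun q : ℝ × ℝ => ω (c q.1 • cu q.2)) := by
    rw [continuous_iff_continuousAt]
    intro q
    exact ContinuousAt.comp (f := fun q : ℝ × ℝ => c q.1 • cu q.2) (h1 _ (hn q)).continuousAt
      hcr.continuousAt
  have hcF : Continuous (fun q : ℝ × ℝ => ω (c q.1 • cu q.2) (c q.1 • rot (cu q.2))) :=
    hcw.clm_apply hcr'
  have hGc : Continuous G := by
    apply intervalIntegral.continuous_parametric_intervalIntegral_of_continuous'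
    exact hcF
  have hG0 : ∀ r : ℝ, r < 1 → G r = 0 := by
    intro r hr
    rw [hG]
    apply GRN_radius h1 hs (hc0 r)
    rw [hc]
    exact max_lt one_pos (lt_of_le_of_lt (min_le_left _ _) hr)
  have hG1 : G 1 = 0 := by
    have h2 : Tendsto G (𝓝[<] 1) (𝓝 (G 1)) := hGc.continuousAt.tendsto.mono_left nhdsWithin_le_nhds
    have h3 : Tendsto G (𝓝[<] 1) (𝓝 0) := by
      apply tendsto_const_nhds.congr'
      filter_upwards [self_mem_nhdsWithin] with r (hr : r < 1)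
      exact (hG0 r hr).symm
    exact tendsto_nhds_unique h2 h3
  rw [hG] at hG1
  simpa [hc] using hG1

end Pool.Agent.H99.SC
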