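import Pool.Agent.H99.SC.SF
import Pool.Agent.H99.SC.GRN

/-!
# GC1: geometry along the circle

For `‖u‖ = 1`, `p = S.X u` is a point of the unit circle of the horizontal plane.
`rot_deriv`: `ψ ↦ S.X (cu ψ)` takes values in the circle, so its derivative
`fderiv ℝ S.X u (rot u)` at `u = cu ψ` is orthogonal to `E3` and to `p` (differentiate `y 2 = 0` and
`‖y‖^2 = 1`): it is `S.lam u • TT p`; nonzero by `fderiv_inj` (`rot u ≠ 0`).
`N_TT`, `N_decomp`, `Nr_sq`: `N` is orthogonal to `TT p`; `p, TT p, E3` is an orthonormal basis.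
`nu = N_3 p - N_r E3` is a unit vector orthogonal to `N` and `TT p`, so
`fderiv X u u = beta nu + gamma TT` with `beta = ⟪fderiv X u u, nu⟫ ≠ 0` (else `fderiv X u u` is a
multiple of `fderiv X u (rot u)`, against `fderiv_inj`).
`lam_sign`: `ψ ↦ S.lam (cu ψ)` is continuous and never 0.
-/

set_option autoImplicit false

open scoped RealInnerProductSpace Topology
open Metric Filter Set

noncomputable section

namespace Pool.Agent.H99.SC

/-- speed of the boundary parametrisation -/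
def Surf.lam (S : Surf) (u : V2) : ℝ := ⟪fderiv ℝ S.X u (rot u), TT (S.X u)⟫

theorem GC1_cu_eq (ψ : ℝ) : cu ψ = Real.cos ψ • e0 + Real.sin ψ • e1 := by
  apply ext2 <;> simp

theorem GC1_cu_deriv (ψ : ℝ) : HasDerivAt cu (rot (cu ψ)) ψ := by
  have h : cu = fun ψ => Real.cos ψ • e0 + Real.sin ψ • e1 := funext GC1_cu_eq
  have h1 : rot (cu ψ) = (-Real.sin ψ) • e0 + Real.cos ψ • e1 := by
    apply ext2 <;> simp
  rw [h1, h]
  exact ((Real.hasDerivAt_cos ψ).smul_const e0).add ((Real.hasDerivAt_sin ψ).smul_const e1)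

theorem GC1_cu_cont : Continuous cu := by
  rw [continuous_iff_continuousAt]
  exact fun ψ => (GC1_cu_deriv ψ).continuousAt

theorem GC1_coord (i : Fin 3) {c : ℝ → V3} {c' : V3} {ψ : ℝ} (h : HasDerivAt c c' ψ) :
    HasDerivAt (fun t => (c t) i) (c' i) ψ := by
  exact (EuclideanSpace.proj i : V3 →L[ℝ] ℝ).hasFDerivAt.comp_hasDerivAt ψ h

theorem GC1_rot_cont : Continuous rot := by
  have : rot = fun u : V2 => (-(u 1)) • e0 + (u 0) • e1 := by
    funext u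
    apply ext2 <;> simp
  rw [this]
  fun_prop

theorem GC1_TT_cont : Continuous TT := by
  have : TT = fun p : V3 => (-(p 1)) • (EuclideanSpace.single 0 1 : V3) +
      (p 0) • (EuclideanSpace.single 1 1 : V3) := by
    funext u
    apply ext3 <;> simp
  rw [this]
  fun_prop

theorem GC1_rot_ne {u : V2} (hu : ‖u‖ = 1) : rot u ≠ 0 := by
  intro h
  have h0 : (rot u) 0 = 0 := by rw [h]; simp
  have h1 : (rot u) 1 = 0 := by rw [h]; simp
  rw [rot_0] at h0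
  rw [rot_1] at h1
  have := nsq2 u
  rw [hu, h1, neg_eq_zero.1 h0] at this
  norm_num at this

namespace Surf
variable (S : Surf)

theorem GC1_w {u : V2} (hu : ‖u‖ = 1) : (fderiv ℝ S.X u (rot u)) 2 = 0 ∧
    (S.X u) 0 * (fderiv ℝ S.X u (rot u)) 0 + (S.X u) 1 * (fderiv ℝ S.X u (rot u)) 1 = 0 := by
  obtain ⟨ψ, rfl⟩ := exists_cu hu
  have hd : HasDerivAt (fun t => S.X (cu t)) (fderiv ℝ S.X (cu ψ) (rot (cu ψ))) ψ := by
    have h1 : HasFDerivAt S.X (fderiv ℝ S.X (cu ψ)) (cu ψ) :=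
      ((S.smooth.differentiable (by norm_num)) _).hasFDerivAt
    exact h1.comp_hasDerivAt ψ (GC1_cu_deriv ψ)
  have h0 := GC1_coord 0 hd
  have h1 := GC1_coord 1 hd
  have h2 := GC1_coord 2 hd
  constructor
  · have hc : (fun t => (S.X (cu t)) 2) = fun _ => (0 : ℝ) := by
      funext t
      exact (S.bd1 (norm_cu t)).1
    rw [hc] at h2
    exact h2.unique (hasDerivAt_const ψ 0)
  · have hc : (fun t => (S.X (cu t)) 0 ^ 2 + (S.X (cu t)) 1 ^ 2) = fun _ => (1 : ℝ) := by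
      funext t
      exact (S.bd1 (norm_cu t)).2
    have h3 := (h0.pow 2).add (h1.pow 2)
    have h4 : HasDerivAt (fun t => (S.X (cu t)) 0 ^ 2 + (S.X (cu t)) 1 ^ 2) _ ψ := h3
    rw [hc] at h4
    have h5 := h4.unique (hasDerivAt_const ψ 1)
    norm_num at h5
    linarith

theorem rot_deriv {u : V2} (hu : ‖u‖ = 1) : fderiv ℝ S.X u (rot u) = S.lam u • TT (S.X u) := by
  obtain ⟨h1, h2⟩ := S.GC1_w hu
  obtain ⟨h3, h4⟩ := S.bd1 hu
  unfold Surf.lam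
  apply ext3
  · simp only [PiLp.smul_apply, smul_eq_mul, TT_0, ip, TT_1, TT_2]
    linear_combination (-(fderiv ℝ S.X u (rot u)) 0) * h4 + (S.X u) 0 * h2
  · simp only [PiLp.smul_apply, smul_eq_mul, TT_0, ip, TT_1, TT_2]
    linear_combination (-(fderiv ℝ S.X u (rot u)) 1) * h4 + (S.X u) 1 * h2
  · simp only [PiLp.smul_apply, smul_eq_mul, TT_2, mul_zero]
    exact h1

theorem lam_ne {u : V2} (hu : ‖u‖ = 1) : S.lam u ≠ 0 := by
  intro h
  have h1 := S.rot_deriv hu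
  rw [h, zero_smul] at h1
  exact GC1_rot_ne hu (S.fderiv_inj hu.le h1)

theorem lam_cont : Continuous fun ψ : ℝ => S.lam (cu ψ) := by
  unfold Surf.lam
  have h1 : Continuous (fderiv ℝ S.X) := S.smooth.continuous_fderiv (by norm_num)
  have h2 : Continuous fun ψ : ℝ => fderiv ℝ S.X (cu ψ) (rot (cu ψ)) :=
    (h1.comp GC1_cu_cont).clm_apply (GC1_rot_cont.comp GC1_cu_cont)
  have h3 : Continuous fun ψ : ℝ => TT (S.X (cu ψ)) :=
    GC1_TT_cont.comp (S.smooth.continuous.comp GC1_cu_cont)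
  exact h2.inner h3

theorem lam_sign : (∀ u : V2, ‖u‖ = 1 → 0 < S.lam u) ∨ (∀ u : V2, ‖u‖ = 1 → S.lam u < 0) := by
  by_contra hcon
  push Not at hcon
  obtain ⟨⟨u, hu, hu1⟩, ⟨v, hv, hv1⟩⟩ := hcon
  obtain ⟨a, rfl⟩ := exists_cu hu
  obtain ⟨b, rfl⟩ := exists_cu hv
  obtain ⟨c, hc⟩ := mem_range_of_exists_le_of_exists_ge S.lam_cont ⟨a, hu1⟩ ⟨b, hv1⟩
  exact S.lam_ne (norm_cu c) hc

theorem N_TT {u : V2} (hu : ‖u‖ = 1) : ⟪S.N u, TT (S.X u)⟫ = 0 := by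
  have h1 := S.N_orth u (rot u)
  rw [S.rot_deriv hu, inner_smul_right] at h1
  exact (mul_eq_zero.1 h1).resolve_left (S.lam_ne hu)

theorem GC1_NTT {u : V2} (hu : ‖u‖ = 1) :
    -((S.N u) 0 * (S.X u) 1) + (S.N u) 1 * (S.X u) 0 = 0 := by
  have h := S.N_TT hu
  rw [ip, TT_0, TT_1, TT_2] at h
  linarith

theorem GC1_Nr {u : V2} (hu : ‖u‖ = 1) :
    S.Nr u = (S.N u) 0 * (S.X u) 0 + (S.N u) 1 * (S.X u) 1 := by
  unfold Surf.Nr
  rw [ip, (S.bd1 hu).1]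
  ring

theorem N_decomp {u : V2} (hu : ‖u‖ = 1) : S.N u = S.Nr u • S.X u + (S.N u 2) • E3 := by
  have h1 := S.GC1_NTT hu
  obtain ⟨h3, h4⟩ := S.bd1 hu
  rw [S.GC1_Nr hu]
  apply ext3
  · simp only [PiLp.smul_apply, PiLp.add_apply, smul_eq_mul, E3_0]
    linear_combination (-(S.N u) 0) * h4 - (S.X u) 1 * h1
  · simp only [PiLp.smul_apply, PiLp.add_apply, smul_eq_mul, E3_1]
    linear_combination (-(S.N u) 1) * h4 + (S.X u) 0 * h1
  · simp only [PiLp.smul_apply, PiLp.add_apply, smul_eq_mul, E3_2, h3]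
    ring

theorem Nr_sq {u : V2} (hu : ‖u‖ = 1) : S.Nr u ^ 2 + (S.N u 2) ^ 2 = 1 := by
  have h1 := S.GC1_NTT hu
  obtain ⟨h3, h4⟩ := S.bd1 hu
  have h5 := nsq (S.N u)
  rw [S.N_norm hu.le] at h5
  rw [S.GC1_Nr hu]
  linear_combination ((S.N u) 0 ^ 2 + (S.N u) 1 ^ 2) * h4 - h5 -
    (-((S.N u) 0 * (S.X u) 1) + (S.N u) 1 * (S.X u) 0) * h1

theorem GC1_nu {u : V2} (hu : ‖u‖ = 1) : (S.nu u) 0 = (S.N u) 2 * (S.X u) 0 ∧
    (S.nu u) 1 = (S.N u) 2 * (S.X u) 1 ∧ (S.nu u) 2 = -(S.Nr u) := by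
  unfold Surf.nu
  refine ⟨?_, ?_, ?_⟩
  · simp only [PiLp.smul_apply, PiLp.sub_apply, smul_eq_mul, E3_0]
    ring
  · simp only [PiLp.smul_apply, PiLp.sub_apply, smul_eq_mul, E3_1]
    ring
  · simp only [PiLp.smul_apply, PiLp.sub_apply, smul_eq_mul, E3_2, (S.bd1 hu).1]
    ring

theorem nu_norm {u : V2} (hu : ‖u‖ = 1) : ‖S.nu u‖ = 1 := by
  obtain ⟨h0, h1, h2⟩ := S.GC1_nu hu
  obtain ⟨h3, h4⟩ := S.bd1 hu
  have h5 := S.Nr_sq hu
  have h6 : ‖S.nu u‖ ^ 2 = 1 := by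
    rw [nsq, h0, h1, h2]
    linear_combination (S.N u) 2 ^ 2 * h4 + h5
  nlinarith [norm_nonneg (S.nu u)]

theorem nu_N {u : V2} (hu : ‖u‖ = 1) : ⟪S.nu u, S.N u⟫ = 0 := by
  obtain ⟨h0, h1, h2⟩ := S.GC1_nu hu
  rw [ip, h0, h1, h2, S.GC1_Nr hu]
  ring

theorem nu_TT {u : V2} (hu : ‖u‖ = 1) : ⟪S.nu u, TT (S.X u)⟫ = 0 := by
  obtain ⟨h0, h1, h2⟩ := S.GC1_nu hu
  rw [ip, h0, h1, h2, TT_0, TT_1, TT_2]
  ring

theorem Xr_decomp {u : V2} (hu : ‖u‖ = 1) : fderiv ℝ S.X u u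
    = ⟪fderiv ℝ S.X u u, S.nu u⟫ • S.nu u + ⟪fderiv ℝ S.X u u, TT (S.X u)⟫ • TT (S.X u) := by
  obtain ⟨h0, h1, h2⟩ := S.GC1_nu hu
  obtain ⟨h3, h4⟩ := S.bd1 hu
  have h5 := S.Nr_sq hu
  have h6 := S.N_orth u u
  rw [S.N_decomp hu, inner_add_left, inner_smul_left, inner_smul_left] at h6
  simp only [RCLike.conj_to_real] at h6
  rw [ip, ip, E3_0, E3_1, E3_2, h3] at h6
  generalize fderiv ℝ S.X u u = w at *
  generalize S.Nr u = c at *
  generalize (S.N u) 2 = s at *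
  apply ext3
  · simp only [PiLp.smul_apply, PiLp.add_apply, smul_eq_mul, TT_0, ip, TT_1, TT_2, h0, h1, h2]
    linear_combination (-(w 0)) * h4 - (S.X u) 0 * (w 0 * (S.X u) 0 + w 1 * (S.X u) 1) * h5 +
      (S.X u) 0 * c * h6
  · simp only [PiLp.smul_apply, PiLp.add_apply, smul_eq_mul, TT_0, ip, TT_1, TT_2, h0, h1, h2]
    linear_combination (-(w 1)) * h4 - (S.X u) 1 * (w 0 * (S.X u) 0 + w 1 * (S.X u) 1) * h5 +
      (S.X u) 1 * c * h6
  · simp only [PiLp.smul_apply, PiLp.add_apply, smul_eq_mul, TT_0, ip, TT_1, TT_2, h0, h1, h2]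
    linear_combination (-(w 2)) * h5 + s * h6

theorem beta_ne {u : V2} (hu : ‖u‖ = 1) : ⟪fderiv ℝ S.X u u, S.nu u⟫ ≠ 0 := by
  intro h
  have h1 := S.Xr_decomp hu
  rw [h, zero_smul, zero_add] at h1
  have h2 := S.rot_deriv hu
  have h3 := S.lam_ne hu
  set γ := ⟪fderiv ℝ S.X u u, TT (S.X u)⟫ with hγ
  have h4 : fderiv ℝ S.X u (S.lam u • u - γ • rot u) = 0 := by
    rw [map_sub, map_smul, map_smul, h2, h1, smul_smul, smul_smul, mul_comm, sub_self]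
  have h5 := S.fderiv_inj hu.le h4
  have h6 : ⟪S.lam u • u - γ • rot u, u⟫ = 0 := by rw [h5, inner_zero_left]
  rw [inner_sub_left, inner_smul_left, inner_smul_left, real_inner_self_eq_norm_sq, hu, ip2,
    rot_0, rot_1] at h6
  simp only [RCLike.conj_to_real] at h6
  apply h3
  linarith

/-- third component of the radial derivative -/
theorem Xr_2 {u : V2} (hu : ‖u‖ = 1) :
    (fderiv ℝ S.X u u) 2 = -(S.Nr u) * ⟪fderiv ℝ S.X u u, S.nu u⟫ := by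
  have h1 := congrArg (fun v : V3 => v 2) (S.Xr_decomp hu)
  simp only [PiLp.smul_apply, PiLp.add_apply, smul_eq_mul, TT_2, (S.GC1_nu hu).2.2] at h1
  linarith

/-- radial component of the radial derivative -/
theorem Xr_p {u : V2} (hu : ‖u‖ = 1) :
    ⟪fderiv ℝ S.X u u, S.X u⟫ = (S.N u 2) * ⟪fderiv ℝ S.X u u, S.nu u⟫ := by
  have h1 := congrArg (fun v : V3 => ⟪v, S.X u⟫) (S.Xr_decomp hu)
  simp only [inner_add_left, inner_smul_left, RCLike.conj_to_real] at h1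
  obtain ⟨h3, h4⟩ := S.bd1 hu
  obtain ⟨h5, h6, h7⟩ := S.GC1_nu hu
  have h8 : ⟪S.nu u, S.X u⟫ = (S.N u) 2 := by
    rw [ip, h5, h6, h3]
    linear_combination (S.N u) 2 * h4
  have h9 : ⟪TT (S.X u), S.X u⟫ = 0 := by
    rw [ip, TT_0, TT_1, TT_2]
    ring
  rw [h8, h9] at h1
  linarith

/-- if the radial component of the normal vanishes the normal is vertical -/
theorem N_vert {u : V2} (hu : ‖u‖ = 1) (h : S.Nr u = 0) : S.N u = E3 ∨ S.N u = -E3 := by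
  have h1 := S.N_decomp hu
  have h2 := S.Nr_sq hu
  rw [h, zero_smul, zero_add] at h1
  rw [h] at h2
  have h3 : ((S.N u) 2 - 1) * ((S.N u) 2 + 1) = 0 := by linarith
  rcases mul_eq_zero.1 h3 with h4 | h4
  · left
    rw [h1, sub_eq_zero.1 h4, one_smul]
  · right
    rw [h1, eq_neg_of_add_eq_zero_left h4, neg_one_smul]

end Surf

end Pool.Agent.H99.SC
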