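import Pool.Agent.H99.SC.WGT
import Pool.Agent.H99.SC.GC1

/-!
# BAL: force and torque balance along the circle

For a constant vector `c` consider the 1-forms
`ω₁ u a = ⟪c, cr (N u) (DX a) + H cr (X u) (DX a)⟫`,
`ω₂ u a = ⟪c, cr (X u) (cr (N u) (DX a)) + (2H/3) cr (X u) (cr (X u) (DX a))⟫`, `DX a = fderiv X u a`.
They are C^1 on the closed disc.  Closed: `fderiv ω u b a` is the derivative in the direction `b` of
`u ↦ ω u a`; the terms with `D2 X u b a` are symmetric.  For `a = e1`, `b = e0` (this suffices, both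
sides are bilinear, use `V2_decomp`) the difference for `ω₁` is
`⟪c, cr N_u X_v - cr N_v X_u + 2 H cr X_u X_v⟫ = 0` (`wg3`).
For `ω₂`: `cr X_u (cr N X_v) - cr X_v (cr N X_u) = 0` (`cr_cr`, `N` orthogonal to `X_u, X_v`), plus
`cr X (cr N_u X_v - cr N_v X_u) = -2H cr X nn`, and `(2H/3)` times
`cr X_u (cr X X_v) - cr X_v (cr X X_u) + 2 cr X nn = 3 cr X nn` (`cr_cr`).
`closed_circle` applies.  On the circle `DX (rot u) = lam TT p`, `N = N_r p + N_3 E3`,
`cr p TT = E3`, `cr E3 TT = -p`, `cr p E3 = -TT` (`p = X u`, unit horizontal), so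
`ω₁ = lam ⟪c, N_r E3 - N_3 p + H E3⟫`, `ω₂ = -lam (N_r + 2H/3) ⟪c, TT⟫`, and
`∫ lam ⟪c, TT⟫ = 0` because `lam TT` is the derivative of `ψ ↦ X (cu ψ)`.
`c = E3` gives the first identity; horizontal `c` the others (`⟪c, TT p⟫ = ⟪c', p⟫` with
`c' = (c 1, -c 0, 0)`).
-/

set_option autoImplicit false

open scoped RealInnerProductSpace Topology
open Metric Filter Set

noncomputable section

namespace Pool.Agent.H99.SC

/-- the cross product as a continuous bilinear map -/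
def BAL_B : V3 →L[ℝ] V3 →L[ℝ] V3 :=
  LinearMap.mkContinuous₂ (LinearMap.mk₂ ℝ cr cr_add_left cr_smul_left cr_add_right cr_smul_right) 1
    (fun a b => by
      have h := cr_norm_sq a b
      have h2 : ‖cr a b‖ ^ 2 ≤ (‖a‖ * ‖b‖) ^ 2 := by nlinarith [sq_nonneg ⟪a, b⟫]
      have h3 := (pow_le_pow_iff_left₀ (norm_nonneg _) (by positivity) (by norm_num)).1 h2
      simpa using h3)

theorem BAL_B_apply (a b : V3) : BAL_B a b = cr a b := rfl

theorem BAL_hasFDerivAt_cr {f g : V2 → V3} {u : V2} (hf : DifferentiableAt ℝ f u)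
    (hg : DifferentiableAt ℝ g u) (a : V2) :
    DifferentiableAt ℝ (fun x => cr (f x) (g x)) u ∧
    fderiv ℝ (fun x => cr (f x) (g x)) u a =
      cr (f u) (fderiv ℝ g u a) + cr (fderiv ℝ f u a) (g u) := by
  have h := BAL_B.hasFDerivAt_of_bilinear hf.hasFDerivAt hg.hasFDerivAt
  refine ⟨h.differentiableAt, ?_⟩
  have h2 : fderiv ℝ (fun x => cr (f x) (g x)) u = _ := h.fderiv
  rw [h2]
  rfl

theorem BAL_contDiffAt_cr {f g : V2 → V3} {u : V2} (hf : ContDiffAt ℝ 1 f u)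
    (hg : ContDiffAt ℝ 1 g u) : ContDiffAt ℝ 1 (fun x => cr (f x) (g x)) u := by
  have h : ContDiffAt ℝ 1 (fun x => BAL_B (f x) (g x)) u := by
    exact (BAL_B.contDiff.contDiffAt.comp u hf).clm_apply hg
  exact h

/-- the 1-form `a ↦ ⟪G, DX a⟫` -/
theorem BAL_closed (S : Surf) (G : V2 → V3) (hG : ∀ u, ‖u‖ ≤ 1 → ContDiffAt ℝ 1 G u)
    (hs : ∀ u, ‖u‖ < 1 → ⟪fderiv ℝ G u e0, fderiv ℝ S.X u e1⟫ =
      ⟪fderiv ℝ G u e1, fderiv ℝ S.X u e0⟫) :
    ∫ ψ in (0 : ℝ)..(2 * Real.pi), S.lam (cu ψ) * ⟪G (cu ψ), TT (S.X (cu ψ))⟫ = 0 := by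
  set ω : V2 → V2 →L[ℝ] ℝ := fun u => (innerSL ℝ (G u)).comp (fderiv ℝ S.X u) with hω
  have hX1 : ∀ u : V2, ContDiffAt ℝ 1 (fderiv ℝ S.X) u := fun u =>
    contDiffAt_fderiv S.smooth.contDiffAt
  have h1 : ∀ u : V2, ‖u‖ ≤ 1 → ContDiffAt ℝ 1 ω u := by
    intro u hu
    have h2 : ContDiffAt ℝ 1 (fun u => innerSL ℝ (G u)) u :=
      (innerSL ℝ (E := V3)).contDiff.contDiffAt.comp u (hG u hu)
    exact h2.clm_comp (hX1 u)
  have hder : ∀ u : V2, ‖u‖ ≤ 1 → ∀ a b : V2, fderiv ℝ ω u a b =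
      ⟪fderiv ℝ G u a, fderiv ℝ S.X u b⟫ + ⟪G u, D2 S.X u a b⟫ := by
    intro u hu a b
    have hG' := ((hG u hu).differentiableAt one_ne_zero).hasFDerivAt
    have hX' := ((hX1 u).differentiableAt one_ne_zero).hasFDerivAt
    have h3 : HasFDerivAt (fun u => innerSL ℝ (G u)) ((innerSL ℝ (E := V3)).comp (fderiv ℝ G u)) u :=
      ((innerSL ℝ (E := V3)).hasFDerivAt (x := G u)).comp u hG'
    have h4 := h3.clm_comp hX'
    rw [h4.fderiv]
    simp only [D2]
    simp
    ring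
  have h5 := closed_circle h1 (by
    intro u hu a b
    rw [hder u hu.le, hder u hu.le, D2_symm S.smooth.contDiffAt a b]
    congr 1
    have ha : a = a 0 • e0 + a 1 • e1 := V2_decomp a
    have hb : b = b 0 • e0 + b 1 • e1 := V2_decomp b
    rw [ha, hb]
    simp only [map_add, map_smul, inner_add_left, inner_add_right, real_inner_smul_left,
      real_inner_smul_right]
    have := hs u hu
    linear_combination (a 0 * b 1 - a 1 * b 0) * this)
  refine (intervalIntegral.integral_congr fun ψ _ => ?_).trans h5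
  simp only [hω]
  rw [ContinuousLinearMap.comp_apply, S.rot_deriv (norm_cu ψ), innerSL_apply_apply,
    real_inner_smul_right]

/-- first form -/
theorem BAL_one (S : Surf) (c : V3) :
    ∫ ψ in (0 : ℝ)..(2 * Real.pi), S.lam (cu ψ) * ((S.Nr (cu ψ) + S.H) * c 2 -
      S.N (cu ψ) 2 * ⟪S.X (cu ψ), c⟫) = 0 := by
  have hX : ∀ u : V2, ContDiffAt ℝ 1 S.X u := fun u => (S.smooth.of_le (by norm_num)).contDiffAt
  have hXd : ∀ u : V2, DifferentiableAt ℝ S.X u := fun u => (hX u).differentiableAt one_ne_zero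
  have hNd : ∀ u : V2, ‖u‖ ≤ 1 → DifferentiableAt ℝ S.N u := fun u hu =>
    (S.smoothN hu).differentiableAt one_ne_zero
  have hg : ∀ u : V2, ‖u‖ ≤ 1 → ContDiffAt ℝ 1 (fun x => S.N x + S.H • S.X x) u := fun u hu =>
    (S.smoothN hu).add ((hX u).const_smul _)
  have hgd : ∀ u : V2, ‖u‖ ≤ 1 → DifferentiableAt ℝ (fun x => S.N x + S.H • S.X x) u :=
    fun u hu => (hg u hu).differentiableAt one_ne_zero
  have hgf : ∀ u : V2, ‖u‖ ≤ 1 → ∀ a : V2, fderiv ℝ (fun x => S.N x + S.H • S.X x) u a =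
      fderiv ℝ S.N u a + S.H • fderiv ℝ S.X u a := by
    intro u hu a
    have h1 := (hNd u hu).hasFDerivAt.add ((hXd u).hasFDerivAt.const_smul S.H)
    exact congrArg (fun L : V2 →L[ℝ] V3 => L a) h1.fderiv
  have h := BAL_closed S (fun x => cr c (S.N x + S.H • S.X x))
    (fun u hu => BAL_contDiffAt_cr contDiffAt_const (hg u hu)) (by
      intro u hu
      rw [(BAL_hasFDerivAt_cr (differentiableAt_const c) (hgd u hu.le) e0).2,
        (BAL_hasFDerivAt_cr (differentiableAt_const c) (hgd u hu.le) e1).2,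
        hgf u hu.le, hgf u hu.le]
      have hw := S.wg3 hu.le
      have w0 := congrArg (fun v : V3 => v 0) hw
      have w1 := congrArg (fun v : V3 => v 1) hw
      have w2 := congrArg (fun v : V3 => v 2) hw
      simp only [nn, PiLp.sub_apply, PiLp.smul_apply, smul_eq_mul, cr_0, cr_1, cr_2] at w0 w1 w2
      simp only [ip, fderiv_fun_const, Pi.zero_apply, zero_apply, PiLp.add_apply,
        PiLp.smul_apply, smul_eq_mul, cr_0, cr_1, cr_2, PiLp.zero_apply]
      linear_combination c 0 * w0 + c 1 * w1 + c 2 * w2)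
  refine (intervalIntegral.integral_congr fun ψ _ => ?_).trans h
  have hu := norm_cu ψ
  obtain ⟨p2, p1⟩ := S.bd1 hu
  have hN := S.N_decomp hu
  simp only
  congr 1
  have n0 : S.N (cu ψ) 0 = S.Nr (cu ψ) * S.X (cu ψ) 0 := by
    have := congrArg (fun v : V3 => v 0) hN
    simpa using this
  have n1 : S.N (cu ψ) 1 = S.Nr (cu ψ) * S.X (cu ψ) 1 := by
    have := congrArg (fun v : V3 => v 1) hN
    simpa using this
  simp only [ip, PiLp.add_apply, PiLp.smul_apply, smul_eq_mul, cr_0, cr_1, cr_2, TT_0, TT_1, TT_2,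
    n0, n1, p2]
  linear_combination (-(S.Nr (cu ψ) + S.H) * c 2) * p1

/-- second form -/
theorem BAL_two (S : Surf) (c : V3) :
    ∫ ψ in (0 : ℝ)..(2 * Real.pi), S.lam (cu ψ) * ((S.Nr (cu ψ) + 2 * S.H / 3) *
      (c 0 * S.X (cu ψ) 1 - c 1 * S.X (cu ψ) 0)) = 0 := by
  have hX : ∀ u : V2, ContDiffAt ℝ 1 S.X u := fun u => (S.smooth.of_le (by norm_num)).contDiffAt
  have hXd : ∀ u : V2, DifferentiableAt ℝ S.X u := fun u => (hX u).differentiableAt one_ne_zero
  have hNd : ∀ u : V2, ‖u‖ ≤ 1 → DifferentiableAt ℝ S.N u := fun u hu =>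
    (S.smoothN hu).differentiableAt one_ne_zero
  have hg : ∀ u : V2, ‖u‖ ≤ 1 → ContDiffAt ℝ 1 (fun x => S.N x + (2 * S.H / 3) • S.X x) u :=
    fun u hu => (S.smoothN hu).add ((hX u).const_smul _)
  have hgd : ∀ u : V2, ‖u‖ ≤ 1 → DifferentiableAt ℝ (fun x => S.N x + (2 * S.H / 3) • S.X x) u :=
    fun u hu => (hg u hu).differentiableAt one_ne_zero
  have hgf : ∀ u : V2, ‖u‖ ≤ 1 → ∀ a : V2, fderiv ℝ (fun x => S.N x + (2 * S.H / 3) • S.X x) u a =
      fderiv ℝ S.N u a + (2 * S.H / 3) • fderiv ℝ S.X u a := by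
    intro u hu a
    have h1 := (hNd u hu).hasFDerivAt.add ((hXd u).hasFDerivAt.const_smul (2 * S.H / 3))
    exact congrArg (fun L : V2 →L[ℝ] V3 => L a) h1.fderiv
  have hcX : ∀ u : V2, ∀ a : V2, DifferentiableAt ℝ (fun x => cr c (S.X x)) u ∧
      fderiv ℝ (fun x => cr c (S.X x)) u a = cr c (fderiv ℝ S.X u a) := by
    intro u a
    have h1 := BAL_hasFDerivAt_cr (differentiableAt_const c) (hXd u) a
    refine ⟨h1.1, ?_⟩
    rw [h1.2]
    apply ext3 <;> simp
  have h := BAL_closed S (fun x => cr (cr c (S.X x)) (S.N x + (2 * S.H / 3) • S.X x))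
    (fun u hu => BAL_contDiffAt_cr (BAL_contDiffAt_cr contDiffAt_const (hX u)) (hg u hu)) (by
      intro u hu
      rw [(BAL_hasFDerivAt_cr (hcX u e0).1 (hgd u hu.le) e0).2,
        (BAL_hasFDerivAt_cr (hcX u e1).1 (hgd u hu.le) e1).2,
        hgf u hu.le, hgf u hu.le, (hcX u e0).2, (hcX u e1).2]
      have hw := S.wg3 hu.le
      have w0 := congrArg (fun v : V3 => v 0) hw
      have w1 := congrArg (fun v : V3 => v 1) hw
      have w2 := congrArg (fun v : V3 => v 2) hw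
      have o0 := S.N_orth u e0
      have o1 := S.N_orth u e1
      simp only [nn, PiLp.sub_apply, PiLp.smul_apply, smul_eq_mul, cr_0, cr_1, cr_2] at w0 w1 w2
      simp only [ip] at o0 o1
      simp only [ip, PiLp.add_apply, PiLp.smul_apply, smul_eq_mul, cr_0, cr_1, cr_2]
      linear_combination (c 1 * S.X u 2 - c 2 * S.X u 1) * w0 + (c 2 * S.X u 0 - c 0 * S.X u 2) * w1 +
        (c 0 * S.X u 1 - c 1 * S.X u 0) * w2 -
        (c 0 * fderiv ℝ S.X u e1 0 + c 1 * fderiv ℝ S.X u e1 1 + c 2 * fderiv ℝ S.X u e1 2) * o0 +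
        (c 0 * fderiv ℝ S.X u e0 0 + c 1 * fderiv ℝ S.X u e0 1 + c 2 * fderiv ℝ S.X u e0 2) * o1)
  refine (intervalIntegral.integral_congr fun ψ _ => ?_).trans h
  have hu := norm_cu ψ
  obtain ⟨p2, p1⟩ := S.bd1 hu
  have hN := S.N_decomp hu
  simp only
  congr 1
  have n0 : S.N (cu ψ) 0 = S.Nr (cu ψ) * S.X (cu ψ) 0 := by
    have := congrArg (fun v : V3 => v 0) hN
    simpa using this
  have n1 : S.N (cu ψ) 1 = S.Nr (cu ψ) * S.X (cu ψ) 1 := by
    have := congrArg (fun v : V3 => v 1) hN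
    simpa using this
  simp only [ip, PiLp.add_apply, PiLp.smul_apply, smul_eq_mul, cr_0, cr_1, cr_2, TT_0, TT_1, TT_2,
    n0, n1, p2]
  linear_combination (-(S.Nr (cu ψ) + 2 * S.H / 3) * (c 0 * S.X (cu ψ) 1 - c 1 * S.X (cu ψ) 0)) * p1

theorem bal_flux (S : Surf) :
    ∫ ψ in (0 : ℝ)..(2 * Real.pi), S.lam (cu ψ) * (S.Nr (cu ψ) + S.H) = 0 := by
  refine (intervalIntegral.integral_congr fun ψ _ => ?_).trans (BAL_one S E3)
  obtain ⟨p2, p1⟩ := S.bd1 (norm_cu ψ)
  simp only [ip, E3_0, E3_1, E3_2, p2]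
  ring

theorem bal_force (S : Surf) (c : V3) (hc : c 2 = 0) :
    ∫ ψ in (0 : ℝ)..(2 * Real.pi), S.lam (cu ψ) * (S.N (cu ψ) 2 * ⟪S.X (cu ψ), c⟫) = 0 := by
  have h := BAL_one S c
  rw [← neg_eq_zero, ← intervalIntegral.integral_neg]
  refine (intervalIntegral.integral_congr fun ψ _ => ?_).trans h
  simp only [hc]
  ring

theorem bal_center (S : Surf) (c : V3) (hc : c 2 = 0) :
    ∫ ψ in (0 : ℝ)..(2 * Real.pi), S.lam (cu ψ) * ⟪S.X (cu ψ), c⟫ = 0 := by
  have h := BAL_closed S (fun _ => (!₂[-(c 1), c 0, 0] : V3)) (fun u _ => contDiffAt_const) (by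
    intro u hu
    simp)
  refine (intervalIntegral.integral_congr fun ψ _ => ?_).trans h
  simp only [ip, TT_0, TT_1, TT_2, hc]
  simp
  left
  ring

theorem BAL_contN (S : Surf) : Continuous fun ψ : ℝ => S.N (cu ψ) := by
  rw [continuous_iff_continuousAt]
  intro ψ
  exact ContinuousAt.comp (g := S.N) (f := cu) (S.N_cont (norm_cu ψ).le)
    (hasDerivAt_cu ψ).continuousAt

theorem BAL_contX (S : Surf) : Continuous fun ψ : ℝ => S.X (cu ψ) := by
  refine S.smooth.continuous.comp ?_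
  rw [continuous_iff_continuousAt]
  exact fun ψ => (hasDerivAt_cu ψ).continuousAt

theorem BAL_contNr (S : Surf) : Continuous fun ψ : ℝ => S.Nr (cu ψ) := by
  unfold Surf.Nr
  exact (BAL_contN S).inner (BAL_contX S)

theorem bal_torque (S : Surf) (c : V3) (hc : c 2 = 0) :
    ∫ ψ in (0 : ℝ)..(2 * Real.pi), S.lam (cu ψ) * (S.Nr (cu ψ) * ⟪S.X (cu ψ), c⟫) = 0 := by
  have h1 := BAL_two S (!₂[c 1, -(c 0), 0] : V3)
  have h2 := bal_center S c hc
  have i1 : IntervalIntegrable (fun ψ => S.lam (cu ψ) * (S.Nr (cu ψ) * ⟪S.X (cu ψ), c⟫))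
      MeasureTheory.volume 0 (2 * Real.pi) :=
    (S.lam_cont.mul ((BAL_contNr S).mul ((BAL_contX S).inner continuous_const))).intervalIntegrable _ _
  have i2 : IntervalIntegrable (fun ψ => (2 * S.H / 3) * (S.lam (cu ψ) * ⟪S.X (cu ψ), c⟫))
      MeasureTheory.volume 0 (2 * Real.pi) :=
    (continuous_const.mul (S.lam_cont.mul ((BAL_contX S).inner continuous_const))).intervalIntegrable _ _
  have h3 := intervalIntegral.integral_add i1 i2
  rw [intervalIntegral.integral_const_mul, h2, mul_zero, add_zero] at h3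
  rw [← h3]
  refine (intervalIntegral.integral_congr fun ψ _ => ?_).trans h1
  obtain ⟨p2, p1⟩ := S.bd1 (norm_cu ψ)
  simp only [ip, hc]
  simp
  ring

/-- some boundary point has `N_r < 0` -/
theorem exists_Nr_neg (S : Surf) : ∃ u : V2, ‖u‖ = 1 ∧ S.Nr u < 0 := by
  by_contra hcon
  push Not at hcon
  have h0 := bal_flux S
  have hpi : (0 : ℝ) < 2 * Real.pi := by positivity
  have hcont : Continuous fun ψ : ℝ => S.lam (cu ψ) * (S.Nr (cu ψ) + S.H) :=
    S.lam_cont.mul ((BAL_contNr S).add continuous_const)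
  have hcont' : Continuous fun ψ : ℝ => -(S.lam (cu ψ) * (S.Nr (cu ψ) + S.H)) := hcont.neg
  have hH := S.Hpos
  rcases S.lam_sign with h | h
  · have := intervalIntegral.intervalIntegral_pos_of_pos_on (hcont.intervalIntegrable 0 (2 * Real.pi))
      (fun ψ _ => mul_pos (h _ (norm_cu ψ)) (by linarith [hcon _ (norm_cu ψ)])) hpi
    linarith
  · have := intervalIntegral.intervalIntegral_pos_of_pos_on
      (hcont'.intervalIntegrable 0 (2 * Real.pi))
      (fun ψ _ => by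
        have h1 := h _ (norm_cu ψ)
        have h2 : 0 < S.Nr (cu ψ) + S.H := by linarith [hcon _ (norm_cu ψ)]
        linarith [mul_neg_of_neg_of_pos h1 h2]) hpi
    rw [intervalIntegral.integral_neg] at this
    linarith

end Pool.Agent.H99.SC
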