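import Pool.Agent.H99.SC.GC2
import Pool.Agent.H99.SC.BAL

/-!
# ORI: orientation along the circle

`⟪fderiv X u u, S.nu u⟫ > 0` for `‖u‖ = 1`.
Proof.  The function is continuous on the parameter circle (connected) and never 0 (`beta_ne`), so
it is enough to find one point where it is positive.  Let `u₀` with `S.Nr u₀ < 0` (`exists_Nr_neg`) and
suppose `β = ⟪..⟫ < 0` there.  Then `(fderiv X u₀ u₀) 2 = - N_r β < 0` (`Xr_2`), so `(X u) 2 > 0` inside near
`u₀` (`h3_pos`).  Box at `u₀` with `e = S.N u₀`; `ε` small such that on `B.U ε`: `box_sig`,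
`plane_neg`, and the statement on `(X u) 2` holds for the parameters concerned.
 * `A = {y ∈ B.U ε, B.f y < 0}` is preconnected and disjoint from `S.Sig` and `Disc`, hence from the
   frontier: `A ⊆ W` or `A ⊆ (closure W)ᶜ` (`sep`).
 * `H = {y ∈ ball p δ, y 2 < 0}` (convex), `δ` with `ball p δ ⊆ B.U ε`: disjoint from `Disc`, and from
   `S.Sig` (points of `S.Sig` in the box are `X v`, `v` near `u₀`, `‖v‖ ≤ 1`, so `(X v) 2 ≥ 0`).  It
   contains points `d - s E3` with `d = (1 - η) p` (`D.inD`), so `H ⊆ W`.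
 * `A ∩ H` contains `p + s (M p - E3)` for `M` large, `s` small: `B.f` has derivative
   `⟪g, M p - E3⟫ = ‖g‖ (M N_r - N_3) < 0` in this direction.  So `A ⊆ W`.
 * But for `‖u‖ < 1` near `u₀`, `X u - s N u ∉ closure W` for small `s` (`D.inS`) and it is in `A`
   (derivative of `f` along `N` is `⟪g,N⟫ > 0`, `f (X u) = 0`): contradiction.
-/

set_option autoImplicit false

open scoped RealInnerProductSpace Topology
open Metric Filter Set

noncomputable section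

namespace Pool.Agent.H99.SC

theorem ORI_dir {h : ℝ → ℝ} {d : ℝ} (hd : HasDerivAt h d 0) (h0 : h 0 = 0) (hp : 0 < d) :
    ∀ᶠ s in 𝓝[>] (0 : ℝ), 0 < h s ∧ h (-s) < 0 := by
  have h1 : Tendsto (slope h 0) (𝓝[≠] 0) (𝓝 d) := hasDerivAt_iff_tendsto_slope.1 hd
  have h2 : ∀ᶠ s in 𝓝[≠] (0 : ℝ), 0 < slope h 0 s := h1.eventually (lt_mem_nhds hp)
  have h3 : ∀ᶠ s in 𝓝[>] (0 : ℝ), 0 < slope h 0 s :=
    h2.filter_mono (nhdsWithin_mono _ (fun s hs => ne_of_gt hs))
  have h4 : Tendsto (fun s : ℝ => -s) (𝓝[>] (0 : ℝ)) (𝓝[≠] 0) := by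
    apply tendsto_nhdsWithin_iff.mpr
    constructor
    · have : Tendsto (fun s : ℝ => -s) (𝓝 (0 : ℝ)) (𝓝 (-0)) := continuous_neg.continuousAt.tendsto
      rw [neg_zero] at this
      exact this.mono_left nhdsWithin_le_nhds
    · filter_upwards [self_mem_nhdsWithin] with s hs
      exact neg_ne_zero.mpr (ne_of_gt hs)
  have h5 : ∀ᶠ s in 𝓝[>] (0 : ℝ), 0 < slope h 0 (-s) := h4.eventually h2
  filter_upwards [h3, h5, self_mem_nhdsWithin] with s hs1 hs2 hs3
  have hs : (0:ℝ) < s := hs3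
  rw [slope_def_field, h0] at hs1 hs2
  simp only [sub_zero] at hs1 hs2
  constructor
  · by_contra hcon
    push Not at hcon
    exact absurd (div_nonpos_of_nonpos_of_nonneg hcon hs.le) (not_le.mpr hs1)
  · by_contra hcon
    push Not at hcon
    exact absurd (div_nonpos_of_nonneg_of_nonpos hcon (by linarith)) (not_le.mpr hs2)

/-- derivative of the box function along a line -/
theorem ORI_hasDeriv (S : Surf) {u₀ : V2} {e : V3} (B : Box S.X u₀ e) {y : V3} (v : V3) (s : ℝ)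
    (hy : y + s • v ∈ B.U B.r) :
    HasDerivAt (fun s : ℝ => B.f (y + s • v)) ⟪B.g (y + s • v), v⟫ s := by
  have h1 : HasFDerivAt B.f (fderiv ℝ B.f (y + s • v)) (y + s • v) :=
    ((B.smooth_f hy).differentiableAt (by norm_num)).hasFDerivAt
  have h2 : HasDerivAt (fun s : ℝ => y + s • v) v s := by
    have := ((hasDerivAt_id s).smul_const v).const_add y
    simpa using this
  have h3 := h1.comp_hasDerivAt s h2
  rw [B.fd S.smooth hy v] at h3
  exact h3

theorem ORI_side (S : Surf) {u₀ : V2} {e : V3} (B : Box S.X u₀ e) {u : V2} (hu1 : ‖u‖ ≤ 1)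
    (hu : ‖u - u₀‖ < B.r) :
    ∀ᶠ s in 𝓝[>] (0 : ℝ), 0 < B.f (S.X u + s • S.N u) ∧ B.f (S.X u - s • S.N u) < 0 := by
  have hU : S.X u ∈ B.U B.r := ⟨u, 0, hu, by simpa using B.hr, by simp⟩
  have h1 := ORI_hasDeriv S B (y := S.X u) (S.N u) 0 (by simpa using hU)
  have h2 : 0 < ⟪B.g (S.X u + (0:ℝ) • S.N u), S.N u⟫ := by
    rw [zero_smul, add_zero, B.g_eq hU, B.b_X hu, inner_smul_left]
    have h3 : ⟪NN S.X u, S.N u⟫ = 1 := by
      change ⟪S.N u, S.N u⟫ = 1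
      rw [real_inner_self_eq_norm_sq, S.N_norm hu1]; norm_num
    rw [h3]
    simpa using B.g_pos hU
  have h3 := ORI_dir h1 (by simpa using B.f_X hu) h2
  filter_upwards [h3] with s hs
  refine ⟨hs.1, ?_⟩
  have h4 := hs.2
  rw [neg_smul, ← sub_eq_add_neg] at h4
  exact h4

theorem ORI_inside {u₀ : V2} (hu₀ : ‖u₀‖ = 1) {ε : ℝ} (hε : 0 < ε) :
    ∃ u : V2, ‖u - u₀‖ < ε ∧ ‖u‖ < 1 := by
  set η : ℝ := min (ε / 2) (1 / 2) with hη
  have h1 : 0 < η := lt_min (by linarith) (by norm_num)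
  have h2 : η ≤ ε / 2 := min_le_left _ _
  have h3 : η ≤ 1 / 2 := min_le_right _ _
  refine ⟨(1 - η) • u₀, ?_, ?_⟩
  · have : (1 - η) • u₀ - u₀ = (-η) • u₀ := by module
    rw [this, norm_smul, hu₀, Real.norm_eq_abs, abs_neg, abs_of_pos h1]
    linarith
  · rw [norm_smul, hu₀, Real.norm_eq_abs, abs_of_pos (by linarith)]
    linarith

theorem ORI_sign (S : Surf) {ψ₀ : ℝ}
    (h : 0 < ⟪fderiv ℝ S.X (cu ψ₀) (cu ψ₀), S.nu (cu ψ₀)⟫) (ψ : ℝ) :
    0 < ⟪fderiv ℝ S.X (cu ψ) (cu ψ), S.nu (cu ψ)⟫ := by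
  have hcu : Continuous cu := by
    unfold cu
    have h1 : Continuous (fun ψ : ℝ => (![Real.cos ψ, Real.sin ψ] : Fin 2 → ℝ)) := by
      apply continuous_pi
      intro i
      fin_cases i
      · exact Real.continuous_cos
      · exact Real.continuous_sin
    exact (PiLp.continuous_toLp 2 (fun _ : Fin 2 => ℝ)).comp h1
  have hN : Continuous (fun ψ => S.N (cu ψ)) := by
    rw [continuous_iff_continuousAt]
    intro x
    exact (S.N_cont (norm_cu x).le).comp hcu.continuousAt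
  have hX : Continuous (fun ψ => S.X (cu ψ)) := S.smooth.continuous.comp hcu
  have hD : Continuous (fun ψ => fderiv ℝ S.X (cu ψ) (cu ψ)) :=
    ((S.smooth.continuous_fderiv (by norm_num)).comp hcu).clm_apply hcu
  have hN2 : Continuous (fun ψ => S.N (cu ψ) 2) :=
    (EuclideanSpace.proj (𝕜 := ℝ) (2 : Fin 3)).continuous.comp hN
  have hF : Continuous (fun ψ => ⟪fderiv ℝ S.X (cu ψ) (cu ψ), S.nu (cu ψ)⟫) := by
    unfold Surf.nu Surf.Nr
    have hc : Continuous (fun ψ => ⟪S.N (cu ψ), S.X (cu ψ)⟫) := hN.inner hX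
    have hc2 : Continuous (fun ψ => ⟪S.N (cu ψ), S.X (cu ψ)⟫ • E3) := hc.smul continuous_const
    exact hD.inner ((hN2.smul hX).sub hc2)
  by_contra hcon
  push Not at hcon
  obtain ⟨x, hx⟩ := mem_range_of_exists_le_of_exists_ge hF ⟨ψ, hcon⟩ ⟨ψ₀, h.le⟩
  exact S.beta_ne (norm_cu x) hx

theorem ORI_neg {S : Surf} (D : PreDom S) {u₀ : V2} (hu₀ : ‖u₀‖ = 1) (h : S.Nr u₀ < 0) :
    0 < ⟪fderiv ℝ S.X u₀ u₀, S.nu u₀⟫ := by
  by_contra hβ
  have hβ' : ⟪fderiv ℝ S.X u₀ u₀, S.nu u₀⟫ < 0 :=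
    lt_of_le_of_ne (not_lt.mp hβ) (S.beta_ne hu₀)
  have hbd := S.bd1 hu₀
  set p := S.X u₀ with hp
  have hpn : ‖p‖ = 1 := by
    have h1 : ‖p‖ ^ 2 = 1 := by rw [nsq, hbd.1]; linarith [hbd.2]
    nlinarith [norm_nonneg p]
  have hder : (fderiv ℝ S.X u₀ u₀) 2 < 0 := by
    rw [S.Xr_2 hu₀]
    nlinarith
  have h3 := h3_pos S hu₀ hder
  obtain ⟨ρ, hρ, h3⟩ := Metric.eventually_nhds_iff.mp h3
  have h3' : ∀ u : V2, ‖u - u₀‖ < ρ → (‖u‖ ≤ 1 → 0 ≤ (S.X u) 2) := by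
    intro u hu h5
    have h4 := h3 (y := u) (by rwa [dist_eq_norm])
    rcases h5.lt_or_eq with h6 | h6
    · exact (h4.1 h6).le
    · exact (S.bd1 h6).1.ge
  have hpos : 0 < ⟪nn S.X u₀, S.N u₀⟫ := by
    have h4 : ⟪S.N u₀, S.N u₀⟫ = 1 := by
      rw [real_inner_self_eq_norm_sq, S.N_norm hu₀.le]; norm_num
    rw [S.nn_eq hu₀.le, inner_smul_left, h4]
    simpa using S.nn_pos hu₀.le
  obtain ⟨B⟩ := exists_box S.smooth hpos
  have hV := (plane_neg S hu₀ h B).and (box_sig' S hu₀ B)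
  obtain ⟨ε₀, hε₀, hε₀r, hε₀V⟩ := B.small S.smooth.continuous hV
  set ε := min ε₀ ρ with hε
  have hε0 : 0 < ε := lt_min hε₀ hρ
  have hεr : ε ≤ B.r := (min_le_left _ _).trans hε₀r
  have hερ : ε ≤ ρ := min_le_right _ _
  have hεV : ∀ y ∈ B.U ε, _ := fun y hy => hε₀V (B.U_mono (min_le_left _ _) hy)
  -- the set A
  have hpre := B.preconn_neg S.smooth.continuous hε0 hεr
  have hdis : Disjoint {y | y ∈ B.U ε ∧ B.f y < 0} (frontier D.W) := by
    rw [Set.disjoint_left]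
    rintro y ⟨hy1, hy2⟩ hy3
    obtain ⟨h4, h5⟩ := hεV y hy1
    rcases D.fr hy3 with h6 | h6
    · have := (h5.1 h6).1
      linarith
    · have h7 := h4 h6.1
      rcases h6.2.lt_or_eq with h8 | h8
      · linarith [h7.2.1 h8]
      · linarith [h7.1 h8]
  -- A is outside the closure
  have hA : {y | y ∈ B.U ε ∧ B.f y < 0} ⊆ (closure D.W)ᶜ := by
    obtain ⟨u, hu1, hu2⟩ := ORI_inside hu₀ hε0
    obtain ⟨ε₁, hε₁, hin⟩ := D.inS u hu2
    have hside := ORI_side S B hu2.le (hu1.trans_le hεr)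
    have hUe : S.X u ∈ B.U ε := ⟨u, 0, hu1, by simpa using hε0, by simp⟩
    have hcont : Tendsto (fun s : ℝ => S.X u - s • S.N u) (𝓝[>] 0) (𝓝 (S.X u)) := by
      have : Tendsto (fun s : ℝ => S.X u - s • S.N u) (𝓝 0) (𝓝 (S.X u - (0:ℝ) • S.N u)) :=
        (continuous_const.sub (continuous_id.smul continuous_const)).continuousAt.tendsto
      rw [zero_smul, sub_zero] at this
      exact this.mono_left nhdsWithin_le_nhds
    have hev := (hside.and (hcont.eventually ((B.U_open hε0 hεr).mem_nhds hUe))).and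
      (Ioo_mem_nhdsGT hε₁ : Ioo 0 ε₁ ∈ 𝓝[>] (0:ℝ))
    obtain ⟨s, ⟨⟨_, hs1⟩, hs2⟩, hs3⟩ := hev.exists
    rcases sep D.isOpen hpre hdis with h4 | h4
    · exfalso
      exact (hin s hs3.1 hs3.2).2 (subset_closure (h4 ⟨hs2, hs1⟩))
    · exact h4
  -- the half ball
  obtain ⟨δ, hδ, hball⟩ := Metric.mem_nhds_iff.mp (B.U_nhds hε0 hεr)
  have hconv : Convex ℝ ({y : V3 | y ∈ ball p δ ∧ y 2 < 0}) := by
    have h4 : Convex ℝ {y : V3 | y 2 < 0} := by
      intro x hx y hy a b ha hb hab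
      simp only [mem_ofPred_eq] at hx hy ⊢
      simp only [PiLp.add_apply, PiLp.smul_apply, smul_eq_mul]
      rcases ha.lt_or_eq with ha' | ha'
      · nlinarith
      · rw [← ha'] at hab ⊢
        have : b = 1 := by linarith
        rw [this]; linarith
    exact (convex_ball p δ).inter h4
  have hdis2 : Disjoint {y : V3 | y ∈ ball p δ ∧ y 2 < 0} (frontier D.W) := by
    rw [Set.disjoint_left]
    rintro y ⟨hy1, hy2⟩ hy3
    have hyU := hball hy1
    obtain ⟨h4, h5⟩ := hεV y hyU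
    rcases D.fr hy3 with h6 | h6
    · obtain ⟨h7, h8⟩ := h5.1 h6
      obtain ⟨h9, h10, h11⟩ := B.coord hεr hyU
      rw [h7, zero_smul, add_zero] at h11
      have h12 := h3' (B.b y) (h9.trans_le hερ) h8
      rw [h11] at h12
      linarith
    · linarith [h6.1]
  have hH : {y : V3 | y ∈ ball p δ ∧ y 2 < 0} ⊆ D.W := by
    set η : ℝ := min (δ / 2) (1 / 2) with hη
    have hη0 : 0 < η := lt_min (by linarith) (by norm_num)
    have hη1 : η ≤ δ / 2 := min_le_left _ _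
    have hη2 : η ≤ 1 / 2 := min_le_right _ _
    obtain ⟨ε₁, hε₁, hin⟩ := D.inD ((1 - η) • p) (by simp [hbd.1]) (by
      simp only [PiLp.smul_apply, smul_eq_mul]
      have : ((1 - η) * p 0) ^ 2 + ((1 - η) * p 1) ^ 2 = (1 - η) ^ 2 * (p 0 ^ 2 + p 1 ^ 2) := by ring
      rw [this, hbd.2]
      nlinarith)
    set s : ℝ := min (ε₁ / 2) (δ / 4) with hs
    have hs0 : 0 < s := lt_min (by linarith) (by linarith)
    have hs1 : s < ε₁ := lt_of_le_of_lt (min_le_left _ _) (by linarith)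
    have hs2 : s ≤ δ / 4 := min_le_right _ _
    have hE : ‖E3‖ = 1 := by
      have h1 : ‖E3‖ ^ 2 = 1 := by rw [nsq]; simp
      nlinarith [norm_nonneg E3]
    have hmem : (1 - η) • p - s • E3 ∈ {y : V3 | y ∈ ball p δ ∧ y 2 < 0} := by
      constructor
      · rw [mem_ball, dist_eq_norm]
        have h4 : (1 - η) • p - s • E3 - p = -(η • p + s • E3) := by module
        rw [h4, norm_neg]
        calc ‖η • p + s • E3‖ ≤ ‖η • p‖ + ‖s • E3‖ := norm_add_le _ _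
          _ = η + s := by
              rw [norm_smul, norm_smul, hpn, hE, Real.norm_eq_abs, Real.norm_eq_abs,
                abs_of_pos hη0, abs_of_pos hs0]
              ring
          _ < δ := by linarith
      · simp only [PiLp.sub_apply, PiLp.smul_apply, smul_eq_mul, hbd.1, E3_2]
        linarith
    rcases sep D.isOpen hconv.isPreconnected hdis2 with h4 | h4
    · exact h4
    · exfalso
      exact h4 hmem (subset_closure (hin s hs0 hs1).1)
  -- a common point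
  have hN2 : |S.N u₀ 2| ≤ 1 := by
    have h4 := S.N_norm hu₀.le
    have h5 : ‖S.N u₀‖ ^ 2 = 1 := by rw [h4]; norm_num
    rw [nsq] at h5
    rw [abs_le]
    constructor <;> nlinarith [sq_nonneg (S.N u₀ 0), sq_nonneg (S.N u₀ 1)]
  set M : ℝ := -2 / S.Nr u₀ with hM
  set v : V3 := E3 - M • p with hv
  have hv2 : v 2 = 1 := by simp [hv, hbd.1]
  have hpU : S.X u₀ ∈ B.U B.r := B.mem_U B.hr
  have hd := ORI_hasDeriv S B (y := S.X u₀) v 0 (by simpa using hpU)
  have hdpos : 0 < ⟪B.g (S.X u₀ + (0:ℝ) • v), v⟫ := by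
    rw [zero_smul, add_zero, B.g_eq hpU, B.b_X (by simpa using B.hr), inner_smul_left]
    have h4 : ⟪NN S.X u₀, v⟫ = S.N u₀ 2 + 2 := by
      have h5 : ⟪NN S.X u₀, E3⟫ = S.N u₀ 2 := by rw [ip]; simp [Surf.N]
      have h6 : ⟪NN S.X u₀, p⟫ = S.Nr u₀ := rfl
      rw [hv, inner_sub_right, inner_smul_right, h5, h6, hM, div_mul_cancel₀ _ h.ne]
      ring
    rw [h4]
    have h7 := (abs_le.mp hN2).1
    simp only [RCLike.conj_to_real]
    apply mul_pos (B.g_pos hpU)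
    linarith
  have hside := ORI_dir hd (by simpa using B.f_X (u := u₀) (by simpa using B.hr)) hdpos
  have hcont : Tendsto (fun s : ℝ => S.X u₀ + (-s) • v) (𝓝[>] 0) (𝓝 (S.X u₀)) := by
    have : Tendsto (fun s : ℝ => S.X u₀ + (-s) • v) (𝓝 0) (𝓝 (S.X u₀ + (-(0:ℝ)) • v)) :=
      (continuous_const.add (continuous_neg.smul continuous_const)).continuousAt.tendsto
    rw [neg_zero, zero_smul, add_zero] at this
    exact this.mono_left nhdsWithin_le_nhds
  have hev := (hside.and (hcont.eventually (ball_mem_nhds (S.X u₀) hδ))).and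
    (self_mem_nhdsWithin : Ioi 0 ∈ 𝓝[>] (0:ℝ))
  obtain ⟨s, ⟨⟨_, hs1⟩, hs2⟩, hs3⟩ := hev.exists
  have hs0 : 0 < s := hs3
  have hy2 : (S.X u₀ + (-s) • v) 2 < 0 := by
    have := hbd.1
    rw [hp] at this
    simp only [PiLp.add_apply, PiLp.smul_apply, smul_eq_mul, hv2, this]
    linarith
  have h4 : S.X u₀ + (-s) • v ∈ D.W := hH ⟨hs2, hy2⟩
  exact hA ⟨hball hs2, hs1⟩ (subset_closure h4)

theorem ori {S : Surf} (D : PreDom S) {u : V2} (hu : ‖u‖ = 1) :
    0 < ⟪fderiv ℝ S.X u u, S.nu u⟫ := by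
  obtain ⟨u₀, hu₀, hneg⟩ := exists_Nr_neg S
  have h1 := ORI_neg D hu₀ hneg
  obtain ⟨ψ₀, hψ₀⟩ := exists_cu hu₀
  obtain ⟨ψ, hψ⟩ := exists_cu hu
  rw [← hψ₀] at h1
  rw [← hψ]
  exact ORI_sign S h1 ψ

end Pool.Agent.H99.SC
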