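import Pool.Agent.H99.SC.RTZ
import Pool.Agent.H99.SC.ORI

/-!
# BIN: at a boundary contact the reflected interior points have interior parameters

`‖u₁‖ = ‖v₁‖ = 1`, `R = refl (nh φ) 0`, `X v₁ = R (X u₁)`, `R (N u₁) = N v₁`, `B` a box at `v₁`.  Then
for `u` near `u₁` with `‖u‖ < 1`: `‖B.b (R (X u))‖ < 1`.
Proof.  `F u = 1 - ‖B.b (R (X u))‖^2` is C^1 near `u₁` and vanishes for `‖u‖ = 1` near `u₁`
(`circ_zero`).  Radial derivative at `u₁`: `-2 ⟪v₁, a⟫`, `a = Db (R Xr)`, `Xr = fderiv X u₁ u₁`.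
`R Xr` is orthogonal to `N v₁ = R (N u₁)` (`rl_inner`), so it is `fderiv X v₁ a'` for some `a'` (`tangent`), and `a = a'`
(`db` with `s = 0`, `b (X v₁) = v₁`).  `V2` has the orthonormal basis `v₁, rot v₁`:
`a = ⟪v₁,a⟫ v₁ + c rot v₁`.  Inner product with `nu v₁` (orthogonal to `TT`, and
`fderiv X v₁ (rot v₁) = lam TT`): `⟪R Xr, nu v₁⟫ = ⟪v₁,a⟫ β(v₁)`, `β(v) = ⟪fderiv X v v, nu v⟫ > 0` (`ori`).
And `R (nu u₁) = nu v₁` (`nu = N_3 X - N_r E3`; `N_3`, `N_r` agree because `R` preserves inner products,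
the third coordinate and `E3`), so `⟪R Xr, nu v₁⟫ = ⟪Xr, nu u₁⟫ = β(u₁) > 0`.  So `⟪v₁,a⟫ > 0` and `rad1` applies.
-/

set_option autoImplicit false

open scoped RealInnerProductSpace Topology
open Metric Filter Set

noncomputable section

namespace Pool.Agent.H99.SC

theorem Nr_partner {S : Surf} {φ : ℝ} {u₁ v₁ : V2}
    (hx : S.X v₁ = refl (nh φ) 0 (S.X u₁)) (hN : rl (nh φ) (S.N u₁) = S.N v₁) :
    S.Nr v₁ = S.Nr u₁ ∧ S.N v₁ 2 = S.N u₁ 2 ∧ rl (nh φ) (S.nu u₁) = S.nu v₁ := by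
  have h1 : S.Nr v₁ = S.Nr u₁ := by
    unfold Surf.Nr
    rw [← hN, hx, refl0_eq, rl_inner _ (norm_nh φ)]
  have h2 : S.N v₁ 2 = S.N u₁ 2 := by
    rw [← hN, ← refl0_eq, refl0_2]
  refine ⟨h1, h2, ?_⟩
  have hE : rl (nh φ) E3 = E3 := by rw [← refl0_eq, refl0_E3]
  have h3 : rl (nh φ) (S.nu u₁) = (S.N u₁ 2) • rl (nh φ) (S.X u₁) - (S.Nr u₁) • rl (nh φ) E3 := by
    unfold Surf.nu
    rw [sub_eq_add_neg, rl_add, rl_neg, rl_smul, rl_smul, ← sub_eq_add_neg]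
  rw [h3, hE, ← refl0_eq, ← hx]
  unfold Surf.nu
  rw [h1, h2]

theorem BIN_v2 {v a : V2} (hv : ‖v‖ = 1) : a = ⟪v, a⟫ • v + ⟪rot v, a⟫ • rot v := by
  have h1 : v 0 ^ 2 + v 1 ^ 2 = 1 := by rw [← nsq2, hv]; norm_num
  apply ext2
  · simp only [PiLp.add_apply, PiLp.smul_apply, smul_eq_mul, ip2, rot_0, rot_1]
    linear_combination (-(a 0)) * h1
  · simp only [PiLp.add_apply, PiLp.smul_apply, smul_eq_mul, ip2, rot_0, rot_1]
    linear_combination (-(a 1)) * h1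

theorem bin {S : Surf} (D : PreDom S) {φ : ℝ} {u₁ v₁ : V2} (hu₁ : ‖u₁‖ = 1) (hv₁ : ‖v₁‖ = 1)
    (hx : S.X v₁ = refl (nh φ) 0 (S.X u₁)) (hN : rl (nh φ) (S.N u₁) = S.N v₁) {e : V3}
    (B : Box S.X v₁ e) :
    ∀ᶠ u in 𝓝 u₁, ‖u‖ < 1 → ‖B.b (refl (nh φ) 0 (S.X u))‖ < 1 := by
  obtain ⟨hNr, hN2, hnu⟩ := Nr_partner hx hN
  have hXd : Differentiable ℝ S.X := S.smooth.differentiable (by norm_num)
  have hU : S.X v₁ ∈ B.U B.r := B.mem_U B.hr
  have hbv : B.b (S.X v₁) = v₁ := B.b_X (by simpa using B.hr)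
  -- the tangent vector
  have horth : ⟪rl (nh φ) (fderiv ℝ S.X u₁ u₁), S.N v₁⟫ = 0 := by
    rw [← hN, rl_inner _ (norm_nh φ), real_inner_comm]
    exact S.N_orth u₁ u₁
  obtain ⟨a, ha⟩ := S.tangent hv₁.le horth
  have hpos : 0 < ⟪v₁, a⟫ := by
    have h1 : ⟪fderiv ℝ S.X v₁ a, S.nu v₁⟫ = ⟪v₁, a⟫ * ⟪fderiv ℝ S.X v₁ v₁, S.nu v₁⟫ := by
      have h2 : fderiv ℝ S.X v₁ a
          = ⟪v₁, a⟫ • fderiv ℝ S.X v₁ v₁ + (⟪rot v₁, a⟫ * S.lam v₁) • TT (S.X v₁) := by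
        conv_lhs => rw [BIN_v2 (a := a) hv₁]
        rw [map_add, map_smul, map_smul, S.rot_deriv hv₁, smul_smul]
      have h3 : ⟪TT (S.X v₁), S.nu v₁⟫ = 0 := by
        rw [real_inner_comm]; exact S.nu_TT hv₁
      rw [h2, inner_add_left, real_inner_smul_left, real_inner_smul_left, h3]
      ring
    have h4 : ⟪fderiv ℝ S.X v₁ a, S.nu v₁⟫ = ⟪fderiv ℝ S.X u₁ u₁, S.nu u₁⟫ := by
      rw [ha, ← hnu, rl_inner _ (norm_nh φ)]
    have h5 := ori D hu₁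
    have h6 := ori D hv₁
    rw [← h4, h1] at h5
    exact (pos_iff_pos_of_mul_pos h5).2 h6
  -- the function
  have hcR : ContDiff ℝ 2 (fun u => refl (nh φ) 0 (S.X u)) :=
    ((contDiff_refl (nh φ) 0).of_le le_top).comp S.smooth
  have hbC : ContDiffAt ℝ 2 B.b (refl (nh φ) 0 (S.X u₁)) := by
    rw [← hx]; exact B.smooth_b hU
  have hG : ContDiffAt ℝ 2 (fun u => B.b (refl (nh φ) 0 (S.X u))) u₁ :=
    ContDiffAt.comp (f := fun u => refl (nh φ) 0 (S.X u)) (g := B.b) u₁ hbC hcR.contDiffAt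
  have hGd : HasFDerivAt (fun u => B.b (refl (nh φ) 0 (S.X u)))
      ((fderiv ℝ B.b (refl (nh φ) 0 (S.X u₁))).comp
        (fderiv ℝ (fun u => refl (nh φ) 0 (S.X u)) u₁)) u₁ := by
    exact HasFDerivAt.comp (f := fun u => refl (nh φ) 0 (S.X u)) (g := B.b) u₁
      (hbC.differentiableAt (by norm_num)).hasFDerivAt
      ((hcR.differentiable (by norm_num)) u₁).hasFDerivAt
  have hval : fderiv ℝ (fun u => B.b (refl (nh φ) 0 (S.X u))) u₁ u₁ = a := by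
    rw [hGd.fderiv, ContinuousLinearMap.comp_apply, fderiv_refl_comp (nh φ) 0 (hXd u₁), ← hx, ← ha]
    have h7 := B.db S.smooth hU a 0
    rw [hbv, zero_smul, add_zero] at h7
    exact h7
  have hF : ContDiffAt ℝ 1 (fun u => 1 - ‖B.b (refl (nh φ) 0 (S.X u))‖ ^ 2) u₁ := by
    exact contDiffAt_const.sub ((hG.of_le (by norm_num)).norm_sq ℝ)
  have hder : fderiv ℝ (fun u => 1 - ‖B.b (refl (nh φ) 0 (S.X u))‖ ^ 2) u₁ u₁ < 0 := by
    have h8 := (hG.differentiableAt (by norm_num)).hasFDerivAt.norm_sq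
    have h9 := (h8.const_sub 1).fderiv
    rw [h9]
    simp only [ContinuousLinearMap.neg_apply, ContinuousLinearMap.smul_apply,
      ContinuousLinearMap.comp_apply, innerSL_apply_apply, hval, ← hx, hbv]
    simp only [nsmul_eq_mul, Nat.cast_ofNat]
    linarith
  have h0 : ∀ᶠ u in 𝓝 u₁, ‖u‖ = 1 → (fun u => 1 - ‖B.b (refl (nh φ) 0 (S.X u))‖ ^ 2) u = 0 := by
    have hc := circ_zero S hv₁ B
    rw [hx] at hc
    have ht : Tendsto (fun u => refl (nh φ) 0 (S.X u)) (𝓝 u₁) (𝓝 (refl (nh φ) 0 (S.X u₁))) :=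
      hcR.continuous.continuousAt
    filter_upwards [ht.eventually hc] with u hu h10
    have h11 := S.bd1 h10
    have h12 := (hu (by rw [refl0_2]; exact h11.1) (by rw [refl0_r]; exact h11.2)).2
    simp only [h12]
    norm_num
  have key := rad1 hu₁ hF h0 hder
  filter_upwards [key] with u hu h13
  have h14 := hu.1 h13
  have h15 := norm_nonneg (B.b (refl (nh φ) 0 (S.X u)))
  by_contra hcon
  push Not at hcon
  nlinarith

end Pool.Agent.H99.SC
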