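import Pool.Agent.H99.SC.GC1

/-!
# KK: algebra of `kk = -N_r/(1 - N_3)` (cotangent of half the angle)

`N_r^2 + N_3^2 = 1` (`Nr_sq`), `N ≠ E3` (`D.nE`) so `N_3 < 1`: `N_3 = 1` would give `N_r = 0` and
`N = E3` (`N_decomp`).
`kk_id`: with `x = N_r`, `y = N_3`, `x' , y'` at the other point: multiply out and use
`x^2 + y^2 = 1`, `x'^2 + y'^2 = 1` (`field_simp`, then `linear_combination`; note
`(1 - y)(1 + y) = x^2`).
`kk_inj`: from `kk_id` type formulas or: `k^2 = (1+y)/(1-y)` so `y = (k^2-1)/(k^2+1)`, `x = -k (1 - y)`.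
-/

set_option autoImplicit false

open scoped RealInnerProductSpace Topology
open Metric Filter Set

noncomputable section

namespace Pool.Agent.H99.SC

namespace Surf
variable {S : Surf}

theorem N3_lt (D : Dom S) {u : V2} (hu : ‖u‖ = 1) : S.N u 2 < 1 := by
  have h1 := S.Nr_sq hu
  have h2 : S.N u 2 ≤ 1 := by nlinarith [sq_nonneg (S.Nr u)]
  rcases lt_or_eq_of_le h2 with h3 | h3
  · exact h3
  · exfalso
    have h4 : S.Nr u = 0 := by
      rw [h3] at h1
      have : S.Nr u ^ 2 = 0 := by linarith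
      exact pow_eq_zero_iff (by norm_num) |>.mp this
    have h5 := S.N_decomp hu
    rw [h4, h3, zero_smul, one_smul, zero_add] at h5
    exact D.nE u hu h5

theorem kk_pos (D : Dom S) {u : V2} (hu : ‖u‖ = 1) : 0 < S.kk u ↔ S.Nr u < 0 := by
  have h := N3_lt D hu
  unfold Surf.kk
  rw [div_pos_iff_of_pos_right (by linarith)]
  exact neg_pos

theorem kk_neg (D : Dom S) {u : V2} (hu : ‖u‖ = 1) : S.kk u < 0 ↔ 0 < S.Nr u := by
  have h := N3_lt D hu
  unfold Surf.kk
  rw [div_neg_iff]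
  constructor
  · rintro (⟨h1, h2⟩ | ⟨h1, h2⟩)
    · linarith
    · linarith
  · intro h1
    right
    exact ⟨by linarith, by linarith⟩

theorem kk_mul (D : Dom S) {u : V2} (hu : ‖u‖ = 1) : S.kk u * (1 - S.N u 2) = -S.Nr u := by
  have h := N3_lt D hu
  unfold Surf.kk
  rw [div_mul_cancel₀]
  linarith

theorem kk_zero (D : Dom S) {u : V2} (hu : ‖u‖ = 1) : S.kk u = 0 ↔ S.N u = -E3 := by
  have h := N3_lt D hu
  have h1 := S.Nr_sq hu
  have h2 := S.N_decomp hu
  have h3 := kk_mul D hu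
  constructor
  · intro h4
    have h5 : S.Nr u = 0 := by rw [h4, zero_mul] at h3; linarith
    have h6 : S.N u 2 = -1 := by
      rw [h5] at h1
      have h7 : (S.N u 2 - 1) * (S.N u 2 + 1) = 0 := by linarith
      rcases mul_eq_zero.mp h7 with h8 | h8
      · linarith
      · linarith
    rw [h5, h6, zero_smul, zero_add, neg_smul, one_smul] at h2
    exact h2
  · intro h4
    have h6 : S.N u 2 = -1 := by rw [h4]; simp
    have h5 : S.Nr u ^ 2 = 0 := by rw [h6] at h1; linarith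
    have h7 : S.Nr u = 0 := pow_eq_zero_iff (by norm_num) |>.mp h5
    unfold Surf.kk
    rw [h7, neg_zero, zero_div]

theorem kk_id (D : Dom S) {u v : V2} (hu : ‖u‖ = 1) (hv : ‖v‖ = 1) :
    S.N v 2 * S.Nr u - S.Nr v * S.N u 2
      = (S.kk u - S.kk v) * (1 + S.kk u * S.kk v) * (1 - S.N u 2) * (1 - S.N v 2) / 2 := by
  have h1 := N3_lt D hu
  have h2 := N3_lt D hv
  have h3 := S.Nr_sq hu
  have h4 := S.Nr_sq hv
  have h5 := kk_mul D hu
  have h6 := kk_mul D hv
  have hne : (1 - S.N u 2) * (1 - S.N v 2) ≠ 0 := by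
    apply mul_ne_zero <;> linarith
  refine mul_left_cancel₀ hne ?_
  have e1 : (1 - S.N u 2) * (1 - S.N v 2) * ((S.kk u - S.kk v) * (1 + S.kk u * S.kk v) *
      (1 - S.N u 2) * (1 - S.N v 2) / 2) =
      ((S.kk u * (1 - S.N u 2)) * (1 - S.N v 2) - (S.kk v * (1 - S.N v 2)) * (1 - S.N u 2)) *
      ((1 - S.N u 2) * (1 - S.N v 2) +
        (S.kk u * (1 - S.N u 2)) * (S.kk v * (1 - S.N v 2))) / 2 := by ring
  rw [e1, h5, h6]
  linear_combination (S.Nr v * (1 - S.N v 2) / 2) * h3 - (S.Nr u * (1 - S.N u 2) / 2) * h4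

theorem kk_inj (D : Dom S) {u v : V2} (hu : ‖u‖ = 1) (hv : ‖v‖ = 1) (h : S.kk u = S.kk v) :
    S.Nr u = S.Nr v ∧ S.N u 2 = S.N v 2 := by
  have h1 := N3_lt D hu
  have h2 := N3_lt D hv
  have h3 := S.Nr_sq hu
  have h4 := S.Nr_sq hv
  have h5 := kk_mul D hu
  have h6 := kk_mul D hv
  have e : ∀ (x y k : ℝ), y < 1 → x ^ 2 + y ^ 2 = 1 → k * (1 - y) = -x →
      (k ^ 2 + 1) * y = k ^ 2 - 1 := by
    intro x y k hy hxy hk
    have h7 : (k ^ 2 * (1 - y) - (1 + y)) * (1 - y) = 0 := by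
      have : (k * (1 - y)) ^ 2 = x ^ 2 := by rw [hk]; ring
      linear_combination this + hxy
    have h8 := (mul_eq_zero.mp h7).resolve_right (by linarith)
    linarith
  have h7 := e _ _ _ h1 h3 h5
  have h8 := e _ _ _ h2 h4 h6
  rw [h] at h7 h5
  have h9 : S.N u 2 = S.N v 2 := by
    have hk : S.kk v ^ 2 + 1 ≠ 0 := by positivity
    exact mul_left_cancel₀ hk (h7.trans h8.symm)
  refine ⟨?_, h9⟩
  rw [h9] at h5
  linarith

theorem kk_cont (D : Dom S) : Continuous fun ψ : ℝ => S.kk (cu ψ) := by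
  have hN : Continuous fun ψ : ℝ => S.N (cu ψ) := by
    rw [continuous_iff_continuousAt]
    intro ψ
    exact ContinuousAt.comp (f := cu) (S.N_cont (norm_cu ψ).le) GC1_cu_cont.continuousAt
  have hX : Continuous fun ψ : ℝ => S.X (cu ψ) := S.smooth.continuous.comp GC1_cu_cont
  have hNr : Continuous fun ψ : ℝ => S.Nr (cu ψ) := hN.inner hX
  have h2 : Continuous fun ψ : ℝ => S.N (cu ψ) 2 :=
    (EuclideanSpace.proj (2 : Fin 3) : V3 →L[ℝ] ℝ).continuous.comp hN
  unfold Surf.kk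
  refine hNr.neg.div (continuous_const.sub h2) ?_
  intro ψ
  have := N3_lt D (norm_cu ψ)
  linarith

end Surf

end Pool.Agent.H99.SC
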