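import Pool.Agent.H99.SC.BAL
import Pool.Agent.H99.SC.KK

/-!
# BLK: the balancing argument

`e` horizontal.  Hypothesis: `kk v ≤ kk u` for boundary points with `⟪X v, e⟫ < ⟪X u, e⟫`.  Then `kk` is constant on
the boundary points with `⟪X u, e⟫ ≠ 0`.
Proof.  Let `k0 = inf {kk u : ‖u‖ = 1, 0 < ⟪X u, e⟫}` (nonempty: `X u = e`; bounded below by `kk v`, `X v = -e`).
For `⟪X u,e⟫ > 0`: `kk u ≥ k0`; for `⟪X v,e⟫ < 0`: `kk v ≤ kk u` for all these `u`, so `kk v ≤ k0`.  So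
`(k0 - kk u) ⟪X u, e⟫ ≤ 0` for all `‖u‖ = 1`.  The function
`g ψ = lam (1 - N_3)(k0 - kk) ⟪X, e⟫` at `cu ψ` is continuous, has constant sign (`lam_sign`, `N3_lt`), and
`(1 - N_3)(k0 - kk) = (1 - N_3) k0 + N_r` (`kk_mul`), so its integral over `[0, 2π]` is
`k0 ∫ lam ⟪X,e⟫ - k0 ∫ lam N_3 ⟪X,e⟫ + ∫ lam N_r ⟪X,e⟫ = 0` (`bal_center`, `bal_force`, `bal_torque`).
A continuous function of constant sign with integral 0 over `[0,2π]` vanishes there
(`intervalIntegral.integral_pos_iff_support_of_nonneg_ae` or `Continuous.integral_pos_of_hasCompactSupport..`; e.g.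
`intervalIntegral_pos_of_pos_on` near a point), so `kk u = k0` where `⟪X u,e⟫ ≠ 0`
(every `‖u‖ = 1` is `cu ψ` with `ψ ∈ [0,2π)`: `exists_cu` and periodicity).
-/

set_option autoImplicit false

open scoped RealInnerProductSpace Topology
open Metric Filter Set

noncomputable section

namespace Pool.Agent.H99.SC

theorem BLK_periodic : Function.Periodic cu (2 * Real.pi) := by
  intro ψ
  apply ext2 <;> simp

theorem BLK_zero {g : ℝ → ℝ} (hc : Continuous g) (h0 : ∀ ψ, 0 ≤ g ψ)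
    (hi : ∫ ψ in (0 : ℝ)..(2 * Real.pi), g ψ = 0) : ∀ ψ ∈ Icc (0 : ℝ) (2 * Real.pi), g ψ = 0 := by
  have hpi : (0 : ℝ) < 2 * Real.pi := by positivity
  have h1 := (intervalIntegral.integral_eq_zero_iff_of_le_of_nonneg_ae hpi.le
    (Filter.Eventually.of_forall h0) (hc.intervalIntegrable 0 (2 * Real.pi))).1 hi
  have h2 := MeasureTheory.Measure.eqOn_Ioc_of_ae_eq (μ := MeasureTheory.volume) h1
    hc.continuousOn continuousOn_const
  have hcl : closure (Ioc (0 : ℝ) (2 * Real.pi)) = Icc 0 (2 * Real.pi) := closure_Ioc hpi.ne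
  have hclosed : IsClosed {ψ : ℝ | g ψ = 0} := isClosed_eq hc continuous_const
  intro ψ hψ
  rw [← hcl] at hψ
  exact closure_minimal (fun x hx => h2 hx) hclosed hψ

theorem blk {S : Surf} (D : Dom S) {e : V3} (he : ‖e‖ = 1) (he2 : e 2 = 0)
    (hmon : ∀ u v : V2, ‖u‖ = 1 → ‖v‖ = 1 → ⟪S.X v, e⟫ < ⟪S.X u, e⟫ → S.kk v ≤ S.kk u) :
    ∃ k0 : ℝ, ∀ u : V2, ‖u‖ = 1 → ⟪S.X u, e⟫ ≠ 0 → S.kk u = k0 := by
  have he01 : e 0 ^ 2 + e 1 ^ 2 = 1 := by
    have h := nsq e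
    rw [he, he2] at h
    linarith
  obtain ⟨up, hup, hXup⟩ := (S.bd e).2 ⟨he2, he01⟩
  obtain ⟨um, hum, hXum⟩ := (S.bd (-e)).2 ⟨by simp [he2], by simpa using he01⟩
  have hee : ⟪e, e⟫ = 1 := by
    rw [real_inner_self_eq_norm_sq, he]
    norm_num
  have hpp : 0 < ⟪S.X up, e⟫ := by
    rw [hXup, hee]
    norm_num
  have hmm : ⟪S.X um, e⟫ < 0 := by
    rw [hXum, inner_neg_left, hee]
    norm_num
  set K : Set ℝ := {k | ∃ u : V2, ‖u‖ = 1 ∧ 0 < ⟪S.X u, e⟫ ∧ S.kk u = k} with hK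
  have hKne : K.Nonempty := ⟨S.kk up, up, hup, hpp, rfl⟩
  have hKbd : ∀ v : V2, ‖v‖ = 1 → ⟪S.X v, e⟫ < 0 → ∀ k ∈ K, S.kk v ≤ k := by
    rintro v hv hv0 k ⟨u, hu, hu0, rfl⟩
    exact hmon u v hu hv (hv0.trans hu0)
  have hKB : BddBelow K := ⟨S.kk um, fun k hk => hKbd um hum hmm k hk⟩
  set k0 : ℝ := sInf K with hk0
  have hsign : ∀ u : V2, ‖u‖ = 1 → (k0 - S.kk u) * ⟪S.X u, e⟫ ≤ 0 := by
    intro u hu
    rcases lt_trichotomy ⟪S.X u, e⟫ 0 with h | h | h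
    · have h1 : S.kk u ≤ k0 := le_csInf hKne (hKbd u hu h)
      exact mul_nonpos_of_nonneg_of_nonpos (by linarith) h.le
    · rw [h, mul_zero]
    · have h1 : k0 ≤ S.kk u := csInf_le hKB ⟨u, hu, h, rfl⟩
      exact mul_nonpos_of_nonpos_of_nonneg (by linarith) h.le
  set F : ℝ → ℝ := fun ψ => (k0 - S.N (cu ψ) 2 * k0 + S.Nr (cu ψ)) * ⟪S.X (cu ψ), e⟫ with hF
  have hF1 : ∀ ψ, F ψ = (1 - S.N (cu ψ) 2) * ((k0 - S.kk (cu ψ)) * ⟪S.X (cu ψ), e⟫) := by
    intro ψ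
    have h := Surf.kk_mul D (norm_cu ψ)
    simp only [hF]
    linear_combination ⟪S.X (cu ψ), e⟫ * h
  have hF0 : ∀ ψ, F ψ ≤ 0 := by
    intro ψ
    rw [hF1]
    have h := Surf.N3_lt D (norm_cu ψ)
    exact mul_nonpos_of_nonneg_of_nonpos (by linarith) (hsign _ (norm_cu ψ))
  have hXc : Continuous fun ψ : ℝ => ⟪S.X (cu ψ), e⟫ := (BAL_contX S).inner continuous_const
  have hN2c : Continuous fun ψ : ℝ => S.N (cu ψ) 2 := by
    have h : (fun ψ : ℝ => S.N (cu ψ) 2) = fun ψ : ℝ => ⟪S.N (cu ψ), E3⟫ := by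
      funext ψ
      rw [ip]
      simp
    rw [h]
    exact (BAL_contN S).inner continuous_const
  have hFc : Continuous F :=
    ((continuous_const.sub (hN2c.mul continuous_const)).add (BAL_contNr S)).mul hXc
  have hlam : Continuous fun ψ : ℝ => S.lam (cu ψ) := S.lam_cont
  have hint : ∫ ψ in (0 : ℝ)..(2 * Real.pi), S.lam (cu ψ) * F ψ = 0 := by
    have b1 := bal_center S e he2
    have b2 := bal_force S e he2
    have b3 := bal_torque S e he2
    have i1 : IntervalIntegrable (fun ψ => k0 * (S.lam (cu ψ) * ⟪S.X (cu ψ), e⟫))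
        MeasureTheory.volume 0 (2 * Real.pi) :=
      (continuous_const.mul (hlam.mul hXc)).intervalIntegrable _ _
    have i2 : IntervalIntegrable (fun ψ => k0 * (S.lam (cu ψ) * (S.N (cu ψ) 2 * ⟪S.X (cu ψ), e⟫)))
        MeasureTheory.volume 0 (2 * Real.pi) :=
      (continuous_const.mul (hlam.mul (hN2c.mul hXc))).intervalIntegrable _ _
    have i3 : IntervalIntegrable (fun ψ => S.lam (cu ψ) * (S.Nr (cu ψ) * ⟪S.X (cu ψ), e⟫))
        MeasureTheory.volume 0 (2 * Real.pi) :=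
      (hlam.mul ((BAL_contNr S).mul hXc)).intervalIntegrable _ _
    have h1 : ∀ ψ, S.lam (cu ψ) * F ψ = k0 * (S.lam (cu ψ) * ⟪S.X (cu ψ), e⟫) -
        k0 * (S.lam (cu ψ) * (S.N (cu ψ) 2 * ⟪S.X (cu ψ), e⟫)) +
        S.lam (cu ψ) * (S.Nr (cu ψ) * ⟪S.X (cu ψ), e⟫) := by
      intro ψ
      simp only [hF]
      ring
    simp only [h1]
    rw [intervalIntegral.integral_add (i1.sub i2) i3, intervalIntegral.integral_sub i1 i2,
      intervalIntegral.integral_const_mul, intervalIntegral.integral_const_mul, b1, b2, b3]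
    ring
  have hzero : ∀ ψ ∈ Icc (0 : ℝ) (2 * Real.pi), F ψ = 0 := by
    intro ψ hψ
    rcases S.lam_sign with hs | hs
    · have hneg : ∫ ψ in (0 : ℝ)..(2 * Real.pi), -(S.lam (cu ψ) * F ψ) = 0 := by
        rw [intervalIntegral.integral_neg, hint, neg_zero]
      have h := BLK_zero (hlam.mul hFc).neg (fun ψ => by
        have h1 := hs _ (norm_cu ψ)
        have h2 := hF0 ψ
        have h3 := mul_nonpos_of_nonneg_of_nonpos h1.le h2
        simp only [Pi.neg_apply, Pi.mul_apply]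
        linarith) hneg ψ hψ
      have h4 : S.lam (cu ψ) * F ψ = 0 := by
        simpa using h
      exact (mul_eq_zero.1 h4).resolve_left (hs _ (norm_cu ψ)).ne'
    · have h := BLK_zero (hlam.mul hFc) (fun ψ => by
        have h1 := hs _ (norm_cu ψ)
        have h2 := hF0 ψ
        exact mul_nonneg_of_nonpos_of_nonpos h1.le h2) hint ψ hψ
      exact (mul_eq_zero.1 h).resolve_left (hs _ (norm_cu ψ)).ne
  refine ⟨k0, fun u hu hne => ?_⟩
  obtain ⟨ψ, rfl⟩ := exists_cu hu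
  obtain ⟨ψ', hψ', heq⟩ := BLK_periodic.exists_mem_Ico₀ (by positivity) ψ
  rw [heq] at hne ⊢
  have h := hzero ψ' ⟨hψ'.1, hψ'.2.le⟩
  rw [hF1] at h
  have h3 := Surf.N3_lt D (norm_cu ψ')
  have h4 := (mul_eq_zero.1 h).resolve_left (by linarith)
  have h5 := (mul_eq_zero.1 h4).resolve_right hne
  linarith

end Pool.Agent.H99.SC
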