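import Pool.Agent.H99.SC.SF

/-!
# BOX: the local inverse of `(u,s) ↦ X u + s e`

`Φ (u,s) = X u + s e` is C^2; its derivative at `(u₀,0)` is `(a,s) ↦ fderiv X u₀ a + s e`, injective
because `⟪nn X u₀, e⟫ ≠ 0` (take the inner product with `nn`: `s = 0`, then `fderiv X u₀ a = 0` and
`nn X u₀ ≠ 0` gives `a = 0`), hence bijective (dimension 3 = 2 + 1).  Inverse function theorem
(`ContDiffAt.toOpenPartialHomeomorph` or `HasStrictFDerivAt.toOpenPartialHomeomorph`, and
`ContDiffAt.to_localInverse`/`OpenPartialHomeomorph.contDiffAt_symm`): an `OpenPartialHomeomorph`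
`P` with `P = Φ`; on a neighbourhood of `(u₀,0)` in the source everything is C^2 with invertible
derivative.  Take `r` with `ball u₀ r ×ˢ Ioo (-r) r` inside that neighbourhood (norm on `V2 × ℝ` is the
sup norm) and with `0 < ⟪nn X u, e⟫` on `ball u₀ r` (continuity of `nn`), `b = fst ∘ P.symm`,
`f = snd ∘ P.symm`.  `isOpen`: image of an open subset of the source under `P`.

`small`, `mem_nhds`, `U_mono` are the facts used later.
-/

set_option autoImplicit false

open scoped RealInnerProductSpace Topology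
open Metric Filter Set

noncomputable section

namespace Pool.Agent.H99.SC

/-- the box map -/
def BOX_Phi (X : V2 → V3) (e : V3) (p : V2 × ℝ) : V3 := X p.1 + p.2 • e

theorem BOX_contDiff {X : V2 → V3} (hX : ContDiff ℝ 2 X) (e : V3) :
    ContDiff ℝ 2 (BOX_Phi X e) :=
  (hX.comp contDiff_fst).add (contDiff_snd.smul contDiff_const)

/-- the derivative of the box map -/
def BOX_D (X : V2 → V3) (e : V3) (u : V2) : V2 × ℝ →L[ℝ] V3 :=
  (fderiv ℝ X u).comp (ContinuousLinearMap.fst ℝ V2 ℝ)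
    + (ContinuousLinearMap.snd ℝ V2 ℝ).smulRight e

theorem BOX_D_apply (X : V2 → V3) (e : V3) (u : V2) (p : V2 × ℝ) :
    BOX_D X e u p = fderiv ℝ X u p.1 + p.2 • e := by
  simp [BOX_D]

theorem BOX_hasFDerivAt {X : V2 → V3} (hX : ContDiff ℝ 2 X) (e : V3) (p : V2 × ℝ) :
    HasFDerivAt (BOX_Phi X e) (BOX_D X e p.1) p := by
  have h1 : HasFDerivAt X (fderiv ℝ X p.1) p.1 :=
    (hX.differentiable (by norm_num)).differentiableAt.hasFDerivAt
  have h2 : HasFDerivAt (fun q : V2 × ℝ => X q.1)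
      ((fderiv ℝ X p.1).comp (ContinuousLinearMap.fst ℝ V2 ℝ)) p :=
    h1.comp p hasFDerivAt_fst
  have h3 : HasFDerivAt (fun q : V2 × ℝ => q.2 • e)
      ((ContinuousLinearMap.snd ℝ V2 ℝ).smulRight e) p :=
    (hasFDerivAt_snd (p := p)).smul_const e
  exact h2.add h3

theorem BOX_inj {X : V2 → V3} {e : V3} {u : V2} (h : 0 < ⟪nn X u, e⟫) :
    Function.Injective (BOX_D X e u) := by
  rw [injective_iff_map_eq_zero]
  rintro ⟨a, s⟩ hp
  rw [BOX_D_apply] at hp
  simp only at hp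
  have hlin : fderiv ℝ X u a = a 0 • fderiv ℝ X u e0 + a 1 • fderiv ℝ X u e1 := by
    conv_lhs => rw [V2_decomp a]
    rw [map_add, map_smul, map_smul]
  have horth : ⟪nn X u, fderiv ℝ X u a⟫ = 0 := by
    rw [hlin, inner_add_right, inner_smul_right, inner_smul_right]
    unfold nn
    rw [cr_inner_left, cr_inner_right]
    ring
  have hs : s = 0 := by
    have h1 : ⟪nn X u, fderiv ℝ X u a + s • e⟫ = 0 := by rw [hp, inner_zero_right]
    rw [inner_add_right, horth, inner_smul_right, zero_add] at h1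
    exact (mul_eq_zero.1 h1).resolve_right h.ne'
  rw [hs, zero_smul, add_zero] at hp
  have hnn : nn X u ≠ 0 := by
    intro h0
    rw [h0, inner_zero_left] at h
    exact lt_irrefl _ h
  have h0 : a 0 = 0 := by
    have h1 : cr (fderiv ℝ X u a) (fderiv ℝ X u e1) = a 0 • nn X u := by
      rw [hlin, cr_add_left, cr_smul_left, cr_smul_left, cr_self]
      simp [nn]
    rw [hp] at h1
    have h2 : cr (0 : V3) (fderiv ℝ X u e1) = 0 := by
      apply ext3 <;> simp
    rw [h2] at h1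
    exact (smul_eq_zero.1 h1.symm).resolve_right hnn
  have h1 : a 1 = 0 := by
    have h1 : cr (fderiv ℝ X u e0) (fderiv ℝ X u a) = a 1 • nn X u := by
      rw [hlin, cr_add_right, cr_smul_right, cr_smul_right, cr_self]
      simp [nn]
    rw [hp] at h1
    have h2 : cr (fderiv ℝ X u e0) (0 : V3) = 0 := by
      apply ext3 <;> simp
    rw [h2] at h1
    exact (smul_eq_zero.1 h1.symm).resolve_right hnn
  have ha : a = 0 := ext2 a 0 (by simpa using h0) (by simpa using h1)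
  rw [ha, hs]
  rfl

/-- the derivative as an equivalence -/
theorem BOX_equiv {X : V2 → V3} {e : V3} {u : V2} (h : 0 < ⟪nn X u, e⟫) :
    ∃ L : (V2 × ℝ) ≃L[ℝ] V3, (L : V2 × ℝ →L[ℝ] V3) = BOX_D X e u := by
  have hd : Module.finrank ℝ (V2 × ℝ) = Module.finrank ℝ V3 := by
    rw [Module.finrank_prod]
    simp
  have hsurj : Function.Surjective (BOX_D X e u) :=
    (LinearMap.injective_iff_surjective_of_finrank_eq_finrank
      (f := (BOX_D X e u : V2 × ℝ →ₗ[ℝ] V3)) hd).1 (BOX_inj h)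
  refine ⟨ContinuousLinearEquiv.ofBijective (BOX_D X e u)
    (LinearMap.ker_eq_bot.2 (BOX_inj h)) (LinearMap.range_eq_top.2 hsurj), ?_⟩
  exact ContinuousLinearEquiv.coe_ofBijective _ _ _

theorem BOX_mem {X : V2 → V3} {e : V3} {ρ : ℝ} (S : Set (V2 × ℝ)) {u₀ : V2}
    (hS : ball (u₀, (0 : ℝ)) ρ ⊆ S) {u : V2} {s : ℝ} (hu : ‖u - u₀‖ < ρ) (hs : |s| < ρ) :
    (u, s) ∈ S := by
  apply hS
  rw [mem_ball, Prod.dist_eq, max_lt_iff]
  exact ⟨by rw [dist_eq_norm]; exact hu, by simpa using hs⟩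

theorem exists_box {X : V2 → V3} (hX : ContDiff ℝ 2 X) {u₀ : V2} {e : V3}
    (h : 0 < ⟪nn X u₀, e⟫) : Nonempty (Box X u₀ e) := by
  obtain ⟨L, hL⟩ := BOX_equiv h
  have hC := BOX_contDiff hX e
  have hd0 : HasFDerivAt (BOX_Phi X e) (L : V2 × ℝ →L[ℝ] V3) (u₀, (0 : ℝ)) := by
    rw [hL]
    exact BOX_hasFDerivAt hX e (u₀, (0 : ℝ))
  have h2 : (2 : WithTop ℕ∞) ≠ 0 := by norm_num
  have hCa : ContDiffAt ℝ 2 (BOX_Phi X e) (u₀, (0 : ℝ)) := hC.contDiffAt
  set P : OpenPartialHomeomorph (V2 × ℝ) V3 :=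
    hCa.toOpenPartialHomeomorph (BOX_Phi X e) hd0 h2 with hP
  have hPc : (P : V2 × ℝ → V3) = BOX_Phi X e := rfl
  have hmem : (u₀, (0 : ℝ)) ∈ P.source := hCa.mem_toOpenPartialHomeomorph_source hd0 h2
  have hcn : Continuous (fun p : V2 × ℝ => ⟪nn X p.1, e⟫) :=
    ((contDiff_nn hX).continuous.comp continuous_fst).inner continuous_const
  have hO : IsOpen (P.source ∩ {p : V2 × ℝ | 0 < ⟪nn X p.1, e⟫}) :=
    P.open_source.inter (isOpen_lt continuous_const hcn)
  obtain ⟨r, hr, hball⟩ := Metric.isOpen_iff.1 hO (u₀, (0 : ℝ)) ⟨hmem, h⟩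
  have hin : ∀ (u : V2) (s : ℝ), ‖u - u₀‖ < r → |s| < r →
      (u, s) ∈ P.source ∩ {p : V2 × ℝ | 0 < ⟪nn X p.1, e⟫} := fun u s hu hs =>
    BOX_mem (X := X) (e := e) _ hball hu hs
  have hsm : ∀ (u : V2) (s : ℝ), ‖u - u₀‖ < r → |s| < r →
      ContDiffAt ℝ 2 P.symm (X u + s • e) := by
    intro u s hu hs
    obtain ⟨h3, h4⟩ := hin u s hu hs
    obtain ⟨L', hL'⟩ := BOX_equiv (X := X) (e := e) (u := u) h4
    have hy : X u + s • e = P (u, s) := rfl
    have hsy : P.symm (X u + s • e) = (u, s) := by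
      rw [hy]; exact P.left_inv h3
    refine P.contDiffAt_symm (f₀' := L') (by rw [hy]; exact P.map_source h3) ?_ ?_
    · rw [hsy, hL']
      exact BOX_hasFDerivAt hX e (u, s)
    · rw [hsy]
      exact hC.contDiffAt
  exact ⟨{
    b := fun y => (P.symm y).1
    f := fun y => (P.symm y).2
    r := r
    hr := hr
    pos := fun u hu => (hin u 0 hu (by simpa using hr)).2
    left := by
      intro u s hu hs
      have hsy : P.symm (X u + s • e) = (u, s) := P.left_inv (hin u s hu hs).1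
      rw [hsy]
      exact ⟨rfl, rfl⟩
    isOpen := by
      intro ε hε hεr
      have h5 : {y : V3 | ∃ (u : V2) (s : ℝ), ‖u - u₀‖ < ε ∧ |s| < ε ∧ X u + s • e = y}
          = P '' (ball (u₀, (0 : ℝ)) ε) := by
        ext y
        simp only [mem_setOf_eq, mem_image]
        constructor
        · rintro ⟨u, s, hu, hs, rfl⟩
          exact ⟨(u, s), BOX_mem (X := X) (e := e) _ subset_rfl hu hs, rfl⟩
        · rintro ⟨⟨u, s⟩, hp, rfl⟩
          rw [mem_ball, Prod.dist_eq, max_lt_iff] at hp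
          refine ⟨u, s, ?_, ?_, rfl⟩
          · rw [← dist_eq_norm]; exact hp.1
          · simpa using hp.2
      rw [h5]
      refine P.isOpen_image_of_subset_source isOpen_ball fun p hp => ?_
      exact (hball (ball_subset_ball hεr hp)).1
    sb := fun u s hu hs => contDiff_fst.contDiffAt.comp _ (hsm u s hu hs)
    sf := fun u s hu hs => contDiff_snd.contDiffAt.comp _ (hsm u s hu hs) }⟩

namespace Box
variable {X : V2 → V3} {u₀ : V2} {e : V3} (B : Box X u₀ e)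

theorem U_open {ε : ℝ} (h : 0 < ε) (h' : ε ≤ B.r) : IsOpen (B.U ε) := B.isOpen ε h h'

theorem U_mono {ε δ : ℝ} (h : ε ≤ δ) : B.U ε ⊆ B.U δ := by
  rintro y ⟨u, s, h1, h2, h3⟩
  exact ⟨u, s, h1.trans_le h, h2.trans_le h, h3⟩

theorem mem_U {ε : ℝ} (h : 0 < ε) : X u₀ ∈ B.U ε := ⟨u₀, 0, by simpa using h, by simpa using h, by simp⟩

theorem U_nhds {ε : ℝ} (h : 0 < ε) (h' : ε ≤ B.r) : B.U ε ∈ 𝓝 (X u₀) :=
  (B.U_open h h').mem_nhds (B.mem_U h)

/-- coordinates of a point of the box neighbourhood -/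
theorem coord {ε : ℝ} (h' : ε ≤ B.r) {y : V3} (hy : y ∈ B.U ε) :
    ‖B.b y - u₀‖ < ε ∧ |B.f y| < ε ∧ X (B.b y) + B.f y • e = y := by
  obtain ⟨u, s, h1, h2, h3⟩ := hy
  obtain ⟨h4, h5⟩ := B.left u s (h1.trans_le h') (h2.trans_le h')
  rw [← h3, h4, h5]
  exact ⟨h1, h2, rfl⟩

theorem mk_mem {ε : ℝ} {u : V2} {s : ℝ} (h1 : ‖u - u₀‖ < ε) (h2 : |s| < ε) :
    X u + s • e ∈ B.U ε := ⟨u, s, h1, h2, rfl⟩

theorem b_X {u : V2} (h : ‖u - u₀‖ < B.r) : B.b (X u) = u := by
  have := (B.left u 0 h (by simpa using B.hr)).1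
  simpa using this

theorem f_X {u : V2} (h : ‖u - u₀‖ < B.r) : B.f (X u) = 0 := by
  have := (B.left u 0 h (by simpa using B.hr)).2
  simpa using this

theorem smooth_b {y : V3} (hy : y ∈ B.U B.r) : ContDiffAt ℝ 2 B.b y := by
  obtain ⟨u, s, h1, h2, h3⟩ := hy
  rw [← h3]; exact B.sb u s h1 h2

theorem smooth_f {y : V3} (hy : y ∈ B.U B.r) : ContDiffAt ℝ 2 B.f y := by
  obtain ⟨u, s, h1, h2, h3⟩ := hy
  rw [← h3]; exact B.sf u s h1 h2

/-- box neighbourhoods are arbitrarily small -/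
theorem small (hX : Continuous X) {V : Set V3} (hV : V ∈ 𝓝 (X u₀)) :
    ∃ ε : ℝ, 0 < ε ∧ ε ≤ B.r ∧ B.U ε ⊆ V := by
  have hc : Continuous (fun p : V2 × ℝ => X p.1 + p.2 • e) :=
    (hX.comp continuous_fst).add (continuous_snd.smul continuous_const)
  have h1 : (fun p : V2 × ℝ => X p.1 + p.2 • e) ⁻¹' V ∈ 𝓝 (u₀, (0 : ℝ)) := by
    apply hc.continuousAt
    simpa using hV
  obtain ⟨ε, hε, hball⟩ := Metric.mem_nhds_iff.1 h1
  refine ⟨min ε B.r, lt_min hε B.hr, min_le_right _ _, ?_⟩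
  rintro y ⟨u, s, hu, hs, rfl⟩
  exact BOX_mem (X := X) (e := e) _ hball (hu.trans_le (min_le_left _ _))
    (hs.trans_le (min_le_left _ _))

/-- the upper half of a box neighbourhood is preconnected -/
theorem preconn_pos (hX : Continuous X) {ε : ℝ} (h : 0 < ε) (h' : ε ≤ B.r) :
    IsPreconnected {y | y ∈ B.U ε ∧ 0 < B.f y} := by
  have hc : Continuous (fun p : V2 × ℝ => X p.1 + p.2 • e) :=
    (hX.comp continuous_fst).add (continuous_snd.smul continuous_const)
  have h1 : {y | y ∈ B.U ε ∧ 0 < B.f y}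
      = (fun p : V2 × ℝ => X p.1 + p.2 • e) '' (ball u₀ ε ×ˢ Ioo 0 ε) := by
    ext y
    constructor
    · rintro ⟨⟨u, s, hu, hs, rfl⟩, h3⟩
      rw [(B.left u s (hu.trans_le h') (hs.trans_le h')).2] at h3
      refine ⟨(u, s), ⟨?_, h3, (le_abs_self s).trans_lt hs⟩, rfl⟩
      rw [mem_ball, dist_eq_norm]; exact hu
    · rintro ⟨⟨u, s⟩, ⟨h2, h3, h4⟩, rfl⟩
      simp only [mem_ball, dist_eq_norm] at h2 h3 h4
      have hs : |s| < ε := by rw [abs_of_pos h3]; exact h4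
      refine ⟨⟨u, s, h2, hs, rfl⟩, ?_⟩
      simp only
      rw [(B.left u s (h2.trans_le h') (hs.trans_le h')).2]
      exact h3
  rw [h1]
  exact (((convex_ball u₀ ε).prod (convex_Ioo 0 ε)).isPreconnected).image _ hc.continuousOn

/-- the lower half of a box neighbourhood is preconnected -/
theorem preconn_neg (hX : Continuous X) {ε : ℝ} (h : 0 < ε) (h' : ε ≤ B.r) :
    IsPreconnected {y | y ∈ B.U ε ∧ B.f y < 0} := by
  have hc : Continuous (fun p : V2 × ℝ => X p.1 + p.2 • e) :=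
    (hX.comp continuous_fst).add (continuous_snd.smul continuous_const)
  have h1 : {y | y ∈ B.U ε ∧ B.f y < 0}
      = (fun p : V2 × ℝ => X p.1 + p.2 • e) '' (ball u₀ ε ×ˢ Ioo (-ε) 0) := by
    ext y
    constructor
    · rintro ⟨⟨u, s, hu, hs, rfl⟩, h3⟩
      rw [(B.left u s (hu.trans_le h') (hs.trans_le h')).2] at h3
      refine ⟨(u, s), ⟨?_, ?_, h3⟩, rfl⟩
      · rw [mem_ball, dist_eq_norm]; exact hu
      · exact (abs_lt.1 hs).1
    · rintro ⟨⟨u, s⟩, ⟨h2, h3, h4⟩, rfl⟩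
      simp only [mem_ball, dist_eq_norm] at h2 h3 h4
      have hs : |s| < ε := by rw [abs_of_neg h4]; linarith
      refine ⟨⟨u, s, h2, hs, rfl⟩, ?_⟩
      simp only
      rw [(B.left u s (h2.trans_le h') (hs.trans_le h')).2]
      exact h4
  rw [h1]
  exact (((convex_ball u₀ ε).prod (convex_Ioo (-ε) 0)).isPreconnected).image _ hc.continuousOn

end Box

end Pool.Agent.H99.SC
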