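import Pool.Agent.H99.SC.LA

/-!
# CAL: second derivatives

All statements are elementary calculus.  `D2 f x a b = fderiv (fderiv f) x a b`.
* `D2_symm`: `ContDiffAt.isSymmSndFDerivAt` (or `second_derivative_symmetric`).
* `D2_comp`: near `u` the derivative of `f o Y` is `x ↦ (fderiv f (Y x)).comp (fderiv Y x)`;
  differentiate (`HasFDerivAt.clm_comp`).
* `D2_nonneg_of_isLocalMin`: restrict to the line `s ↦ w (x + s a)`; its second derivative at 0 is
  `D2 w x a a`, the first is 0.  If it were negative, `isLocalMax_of_deriv_deriv_neg` gives a local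
  maximum, so the restriction is locally constant and the second derivative is 0.
* `Ell_nonneg`: Q e0 e0 = p, Q e0 e1 = q, Q e1 e1 = s with p, s >= 0 and q^2 <= p s (from
  Q (x,y) (x,y) >= 0 for all x, y), and A p + C s >= 2 sqrt(A C p s) >= 2 |B q|.
-/

set_option autoImplicit false

open scoped RealInnerProductSpace Topology
open Metric Filter Set

noncomputable section

namespace Pool.Agent.H99.SC

section gen
variable {E F : Type*} [NormedAddCommGroup E] [NormedSpace ℝ E] [NormedAddCommGroup F]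
  [NormedSpace ℝ F]

theorem D2_symm {f : E → F} {x : E} (hf : ContDiffAt ℝ 2 f x) (a b : E) :
    D2 f x a b = D2 f x b a := by
  have h := hf.isSymmSndFDerivAt (by simp)
  exact h a b

theorem D2_add {f : E → F} {x : E} (a a' b : E) : D2 f x (a + a') b = D2 f x a b + D2 f x a' b := by
  simp [D2]

theorem D2_add' {f : E → F} {x : E} (a b b' : E) : D2 f x a (b + b') = D2 f x a b + D2 f x a b' := by
  simp [D2]

theorem D2_smul {f : E → F} {x : E} (c : ℝ) (a b : E) : D2 f x (c • a) b = c • D2 f x a b := by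
  simp [D2]

theorem D2_smul' {f : E → F} {x : E} (c : ℝ) (a b : E) : D2 f x a (c • b) = c • D2 f x a b := by
  simp [D2]

/-- the first derivative is continuously differentiable -/
theorem contDiffAt_fderiv {f : E → F} {x : E} (hf : ContDiffAt ℝ 2 f x) :
    ContDiffAt ℝ 1 (fderiv ℝ f) x :=
  hf.fderiv_right (by norm_num)

theorem CAL_diffAt_nhds {f : E → F} {x : E} (hf : ContDiffAt ℝ 2 f x) :
    ∀ᶠ y in 𝓝 x, DifferentiableAt ℝ f y := by
  have h := hf.eventually (by simp)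
  filter_upwards [h] with y hy
  exact hy.differentiableAt (by norm_num)

theorem CAL_diff_fderiv {f : E → F} {x : E} (hf : ContDiffAt ℝ 2 f x) :
    DifferentiableAt ℝ (fderiv ℝ f) x :=
  (contDiffAt_fderiv hf).differentiableAt (by norm_num)

/-- second derivatives of a linear combination of real functions -/
theorem D2_sub_smul {w v : E → ℝ} {x : E} (hw : ContDiffAt ℝ 2 w x) (hv : ContDiffAt ℝ 2 v x)
    (c : ℝ) (a b : E) : D2 (fun y => w y - c * v y) x a b = D2 w x a b - c * D2 v x a b := by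
  have h1 : (fderiv ℝ fun y => w y - c * v y) =ᶠ[𝓝 x]
      fun y => fderiv ℝ w y - c • fderiv ℝ v y := by
    filter_upwards [CAL_diffAt_nhds hw, CAL_diffAt_nhds hv] with y hy1 hy2
    rw [fderiv_fun_sub hy1 (hy2.const_mul c), fderiv_const_mul hy2]
  have h2 : HasFDerivAt (fun y => fderiv ℝ w y - c • fderiv ℝ v y)
      (fderiv ℝ (fderiv ℝ w) x - c • fderiv ℝ (fderiv ℝ v) x) x :=
    (CAL_diff_fderiv hw).hasFDerivAt.sub ((CAL_diff_fderiv hv).hasFDerivAt.const_smul c)
  unfold D2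
  rw [h1.fderiv_eq, h2.fderiv]
  simp

/-- second derivative along a line -/
theorem deriv_deriv_line {w : E → ℝ} {x : E} (hw : ContDiffAt ℝ 2 w x) (a : E) :
    deriv (deriv fun s : ℝ => w (x + s • a)) 0 = D2 w x a a := by
  have hl : ∀ s : ℝ, HasDerivAt (fun s : ℝ => x + s • a) a s := by
    intro s
    simpa using ((hasDerivAt_id s).smul_const a).const_add x
  have hc : Tendsto (fun s : ℝ => x + s • a) (𝓝 0) (𝓝 x) := by
    have := (hl 0).continuousAt.tendsto
    simpa using this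
  have h1 : (deriv fun s : ℝ => w (x + s • a)) =ᶠ[𝓝 0] fun s => fderiv ℝ w (x + s • a) a := by
    filter_upwards [hc.eventually (CAL_diffAt_nhds hw)] with s hs
    exact (hs.hasFDerivAt.comp_hasDerivAt s (hl s)).deriv
  rw [h1.deriv_eq]
  have h2 : HasFDerivAt (fderiv ℝ w) (fderiv ℝ (fderiv ℝ w) x) (x + (0 : ℝ) • a) := by
    simpa using (CAL_diff_fderiv hw).hasFDerivAt
  have h3 : HasDerivAt (fun s : ℝ => fderiv ℝ w (x + s • a)) (fderiv ℝ (fderiv ℝ w) x a) 0 :=
    h2.comp_hasDerivAt (0 : ℝ) (hl 0)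
  have h4 := h3.clm_apply (hasDerivAt_const (0 : ℝ) a)
  unfold D2
  simpa using h4.deriv

theorem D2_nonneg_of_isLocalMin {w : E → ℝ} {x : E} (hw : ContDiffAt ℝ 2 w x)
    (h : IsLocalMin w x) (a : E) : 0 ≤ D2 w x a a := by
  by_contra hneg
  push Not at hneg
  set φ : ℝ → ℝ := fun s => w (x + s • a) with hφ
  have hcont : ContinuousAt (fun s : ℝ => x + s • a) 0 := by fun_prop
  have h0 : x + (0 : ℝ) • a = x := by simp
  have hmin : IsLocalMin φ 0 := by
    have : Tendsto (fun s : ℝ => x + s • a) (𝓝 0) (𝓝 x) := by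
      have := hcont.tendsto
      simpa using this
    have h2 := this.eventually h
    filter_upwards [h2] with s hs
    simpa [hφ] using hs
  have hd0 : deriv φ 0 = 0 := hmin.deriv_eq_zero
  have hdd : deriv (deriv φ) 0 < 0 := by
    rw [hφ, deriv_deriv_line hw a]; exact hneg
  have hcφ : ContinuousAt φ 0 := by
    have : ContinuousAt w (x + (0 : ℝ) • a) := by rw [h0]; exact hw.continuousAt
    exact ContinuousAt.comp (f := fun s : ℝ => x + s • a) this hcont
  have hmax : IsLocalMax φ 0 := isLocalMax_of_deriv_deriv_neg hdd hd0 hcφ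
  have hconst : φ =ᶠ[𝓝 0] fun _ => φ 0 := by
    filter_upwards [hmin, hmax] with s h1 h2
    exact le_antisymm h2 h1
  have h1 : deriv φ =ᶠ[𝓝 0] fun _ => (0 : ℝ) := by
    have := hconst.deriv
    filter_upwards [this] with s hs
    simpa using hs
  have h2 : deriv (deriv φ) 0 = 0 := by
    rw [h1.deriv_eq]; simp
  linarith

end gen

theorem D2_comp {f : V3 → ℝ} {Y : V2 → V3} {u : V2} (hf : ContDiffAt ℝ 2 f (Y u))
    (hY : ContDiffAt ℝ 2 Y u) (a b : V2) :
    D2 (fun x => f (Y x)) u a b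
      = D2 f (Y u) (fderiv ℝ Y u a) (fderiv ℝ Y u b) + fderiv ℝ f (Y u) (D2 Y u a b) := by
  have hYd : DifferentiableAt ℝ Y u := hY.differentiableAt (by norm_num)
  have h1 : (fderiv ℝ fun x => f (Y x)) =ᶠ[𝓝 u]
      fun x => (fderiv ℝ f (Y x)).comp (fderiv ℝ Y x) := by
    filter_upwards [hY.continuousAt.tendsto.eventually (CAL_diffAt_nhds hf),
      CAL_diffAt_nhds hY] with x hx1 hx2
    exact (hx1.hasFDerivAt.comp x hx2.hasFDerivAt).fderiv
  have h2 : HasFDerivAt (fun x => fderiv ℝ f (Y x))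
      ((fderiv ℝ (fderiv ℝ f) (Y u)).comp (fderiv ℝ Y u)) u :=
    (CAL_diff_fderiv hf).hasFDerivAt.comp u hYd.hasFDerivAt
  have h3 : HasFDerivAt (fderiv ℝ Y) (fderiv ℝ (fderiv ℝ Y) u) u :=
    (CAL_diff_fderiv hY).hasFDerivAt
  have h4 := h2.clm_comp h3
  unfold D2
  rw [h1.fderiv_eq, h4.fderiv]
  simp [add_comm]

/-- the reflection is smooth -/
theorem contDiff_refl (n : V3) (t : ℝ) : ContDiff ℝ ⊤ (refl n t) := by
  unfold refl
  have h : ContDiff ℝ ⊤ fun y : V3 => ⟪n, y⟫ := contDiff_const.inner ℝ contDiff_id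
  exact contDiff_id.sub ((contDiff_const.mul (h.sub contDiff_const)).smul contDiff_const)

/-- the linear part of the reflection as a continuous linear map -/
theorem CAL_rl_clm (n : V3) : ∃ R : V3 →L[ℝ] V3, ∀ v, R v = rl n v := by
  refine ⟨ContinuousLinearMap.id ℝ V3 - ((2 : ℝ) • innerSL ℝ n).smulRight n, ?_⟩
  intro v
  simp [rl, innerSL_apply_apply]

theorem CAL_refl_eq (n : V3) (t : ℝ) (y : V3) : refl n t y = rl n y + (2 * t) • n := by
  unfold refl rl
  rw [show 2 * (⟪n, y⟫ - t) = 2 * ⟪n, y⟫ - 2 * t by ring, sub_smul]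
  abel

theorem fderiv_refl_comp (n : V3) (t : ℝ) {X : V2 → V3} {u : V2} (hX : DifferentiableAt ℝ X u)
    (a : V2) : fderiv ℝ (fun x => refl n t (X x)) u a = rl n (fderiv ℝ X u a) := by
  obtain ⟨R, hR⟩ := CAL_rl_clm n
  have h1 : (fun x => refl n t (X x)) = fun x => R (X x) + (2 * t) • n := by
    funext x; rw [CAL_refl_eq, hR]
  rw [h1, fderiv_add_const]
  have h2 : HasFDerivAt (fun x => R (X x)) (R.comp (fderiv ℝ X u)) u :=
    R.hasFDerivAt.comp u hX.hasFDerivAt
  rw [h2.fderiv]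
  simp [hR]

theorem D2_refl_comp (n : V3) (t : ℝ) {X : V2 → V3} {u : V2} (hX : ContDiffAt ℝ 2 X u)
    (a b : V2) : D2 (fun x => refl n t (X x)) u a b = rl n (D2 X u a b) := by
  obtain ⟨R, hR⟩ := CAL_rl_clm n
  have h1 : (fderiv ℝ fun x => refl n t (X x)) =ᶠ[𝓝 u] fun x => R.comp (fderiv ℝ X x) := by
    filter_upwards [CAL_diffAt_nhds hX] with x hx
    ext1 c
    rw [fderiv_refl_comp n t hx c]
    simp [hR]
  have h2 : HasFDerivAt (fun x => R.comp (fderiv ℝ X x))
      (((ContinuousLinearMap.compL ℝ V2 V3 V3) R).comp (fderiv ℝ (fderiv ℝ X) u)) u :=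
    ((ContinuousLinearMap.compL ℝ V2 V3 V3) R).hasFDerivAt.comp u
      (CAL_diff_fderiv hX).hasFDerivAt
  unfold D2
  rw [h1.fderiv_eq, h2.fderiv]
  simp [hR]

/-- positive definite coefficients against a positive semidefinite form -/
theorem psd {A B C p q s : ℝ} (hA : 0 < A) (hABC : B ^ 2 < A * C)
    (hQ : ∀ x y : ℝ, 0 ≤ x ^ 2 * p + 2 * x * y * q + y ^ 2 * s) :
    0 ≤ A * p + 2 * B * q + C * s := by
  have h1 : A * (A * p + 2 * B * q + C * s)
      = (A ^ 2 * p + 2 * A * B * q + B ^ 2 * s) + (A * C - B ^ 2) * s := by ring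
  have h2 := hQ A B
  have h3 := hQ 0 1
  have h4 : 0 ≤ s := by linarith
  have h5 : 0 ≤ (A * C - B ^ 2) * s := mul_nonneg (by linarith) h4
  have h6 : 0 ≤ A * (A * p + 2 * B * q + C * s) := by
    rw [h1]; nlinarith [h2]
  by_contra hcon
  push Not at hcon
  nlinarith

theorem Ell_nonneg_of_isLocalMin {A B C : V2 → ℝ} {w : V2 → ℝ} {x : V2} (hA : 0 < A x)
    (hABC : B x ^ 2 < A x * C x) (hw : ContDiffAt ℝ 2 w x) (h : IsLocalMin w x) :
    0 ≤ Ell A B C w x := by
  unfold Ell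
  apply psd hA hABC
  intro a b
  have h1 := D2_nonneg_of_isLocalMin hw h (a • e0 + b • e1)
  have h2 : D2 w x (a • e0 + b • e1) (a • e0 + b • e1)
      = a ^ 2 * D2 w x e0 e0 + 2 * a * b * D2 w x e0 e1 + b ^ 2 * D2 w x e1 e1 := by
    rw [D2_add, D2_add', D2_add', D2_smul, D2_smul, D2_smul, D2_smul, D2_smul', D2_smul',
      D2_smul', D2_smul', D2_symm hw e1 e0]
    simp only [smul_eq_mul]
    ring
  rwa [h2] at h1

theorem Lop_eq_Ell (X : V2 → V3) (w : V2 → ℝ) (u : V2) :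
    Lop X w u = Ell (cA X) (cB X) (cC X) w u := by
  simp [Lop, Ell]

theorem cACB (X : V2 → V3) (u : V2) : cA X u * cC X u - cB X u ^ 2 = ‖nn X u‖ ^ 2 := by
  unfold nn cA cB cC
  rw [cr_norm_sq, real_inner_self_eq_norm_sq, real_inner_self_eq_norm_sq]
  ring

theorem cA_pos {X : V2 → V3} {u : V2} (h : nn X u ≠ 0) : 0 < cA X u := by
  unfold cA
  rw [real_inner_self_eq_norm_sq]
  have : fderiv ℝ X u e1 ≠ 0 := by
    intro h0
    apply h
    unfold nn
    rw [h0]
    apply ext3 <;> simp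
  positivity

theorem cC_pos {X : V2 → V3} {u : V2} (h : nn X u ≠ 0) : 0 < cC X u := by
  unfold cC
  rw [real_inner_self_eq_norm_sq]
  have : fderiv ℝ X u e0 ≠ 0 := by
    intro h0
    apply h
    unfold nn
    rw [h0]
    apply ext3 <;> simp
  positivity

theorem cB_sq_lt {X : V2 → V3} {u : V2} (h : nn X u ≠ 0) : cB X u ^ 2 < cA X u * cC X u := by
  have h1 := cACB X u
  have h2 : 0 < ‖nn X u‖ ^ 2 := by positivity
  linarith

theorem Lop_nonneg_of_isLocalMin {X : V2 → V3} {w : V2 → ℝ} {u : V2} (hn : nn X u ≠ 0)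
    (hw : ContDiffAt ℝ 2 w u) (h : IsLocalMin w u) : 0 ≤ Lop X w u := by
  rw [Lop_eq_Ell]
  exact Ell_nonneg_of_isLocalMin (cA_pos hn) (cB_sq_lt hn) hw h

theorem CAL_contDiff_fd {X : V2 → V3} (hX : ContDiff ℝ 2 X) (a : V2) :
    ContDiff ℝ 1 fun u => fderiv ℝ X u a :=
  (hX.fderiv_right (m := 1) (by norm_num)).clm_apply contDiff_const

theorem contDiff_cA {X : V2 → V3} (hX : ContDiff ℝ 2 X) : ContDiff ℝ 1 (cA X) :=
  (CAL_contDiff_fd hX e1).inner ℝ (CAL_contDiff_fd hX e1)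
theorem contDiff_cB {X : V2 → V3} (hX : ContDiff ℝ 2 X) : ContDiff ℝ 1 (cB X) :=
  ((CAL_contDiff_fd hX e0).inner ℝ (CAL_contDiff_fd hX e1)).neg
theorem contDiff_cC {X : V2 → V3} (hX : ContDiff ℝ 2 X) : ContDiff ℝ 1 (cC X) :=
  (CAL_contDiff_fd hX e0).inner ℝ (CAL_contDiff_fd hX e0)
theorem contDiff_nn {X : V2 → V3} (hX : ContDiff ℝ 2 X) : ContDiff ℝ 1 (nn X) := by
  have hc : ∀ (a : V2) (i : Fin 3), ContDiff ℝ 1 fun u => (fderiv ℝ X u a) i := by
    intro a i
    exact (contDiff_euclidean.1 (CAL_contDiff_fd hX a)) i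
  rw [contDiff_euclidean]
  intro i
  fin_cases i
  · exact ((hc e0 1).mul (hc e1 2)).sub ((hc e0 2).mul (hc e1 1))
  · exact ((hc e0 2).mul (hc e1 0)).sub ((hc e0 0).mul (hc e1 2))
  · exact ((hc e0 0).mul (hc e1 1)).sub ((hc e0 1).mul (hc e1 0))
theorem contDiffAt_NN {X : V2 → V3} (hX : ContDiff ℝ 2 X) {u : V2} (h : nn X u ≠ 0) :
    ContDiffAt ℝ 1 (NN X) u := by
  have h1 : ContDiffAt ℝ 1 (nn X) u := (contDiff_nn hX).contDiffAt
  exact ((h1.norm ℝ h).inv (norm_ne_zero_iff.2 h)).smul h1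
/-- `u ↦ D2 X u a b` is continuous -/
theorem continuous_D2 {X : V2 → V3} (hX : ContDiff ℝ 2 X) (a b : V2) :
    Continuous fun u => D2 X u a b := by
  have h1 : ContDiff ℝ 1 (fderiv ℝ X) := hX.fderiv_right (m := 1) (by norm_num)
  have h2 : Continuous (fderiv ℝ (fderiv ℝ X)) := h1.continuous_fderiv (by norm_num)
  unfold D2
  exact (h2.clm_apply continuous_const).clm_apply continuous_const

end Pool.Agent.H99.SC
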