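import Pool.Agent.H99.SC.CAL

/-!
# SF: first facts about surfaces

* `nn` is orthogonal to the two coordinate derivatives, hence to every `fderiv X u a`
  (`V2_decomp`, `cr_inner_left`, `cr_inner_right`).
* `cmcN`: divide `cmc` by the norm.
* `tangent`: `decomp` with `a = X_u`, `b = X_v`: if `v` is orthogonal to `nn` then
  `|nn|^2 v = (..) X_u + (..) X_v`.
* `fderiv_inj`: if `x X_u + y X_v = 0` then `cr` with `X_v` (resp. `X_u`) gives `x nn = 0`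
  (`y nn = 0`).
* `emb`: the closed disc minus the open ball is compact and `X` does not take the value `X u₀`
  there.
* `isCompact_Sig`, `isCompact_Disc`.
* `cmcN'` (closed disc) by continuity.
-/

set_option autoImplicit false

open scoped RealInnerProductSpace Topology
open Metric Filter Set

noncomputable section

namespace Pool.Agent.H99.SC

namespace Surf
variable (S : Surf)

theorem inner_nn_fderiv (u a : V2) : ⟪nn S.X u, fderiv ℝ S.X u a⟫ = 0 := by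
  rw [V2_decomp a, map_add, map_smul, map_smul, inner_add_right, real_inner_smul_right,
    real_inner_smul_right]
  unfold nn
  rw [cr_inner_left, cr_inner_right]
  ring

theorem N_norm {u : V2} (hu : ‖u‖ ≤ 1) : ‖S.N u‖ = 1 := by
  have h := norm_pos_iff.2 (S.imm u hu)
  unfold Surf.N NN
  rw [norm_smul, norm_inv, norm_norm, inv_mul_cancel₀ h.ne']

theorem N_orth (u a : V2) : ⟪S.N u, fderiv ℝ S.X u a⟫ = 0 := by
  unfold Surf.N NN
  rw [real_inner_smul_left, S.inner_nn_fderiv, mul_zero]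

theorem nn_eq {u : V2} (hu : ‖u‖ ≤ 1) : nn S.X u = ‖nn S.X u‖ • S.N u := by
  have h := norm_pos_iff.2 (S.imm u hu)
  unfold Surf.N NN
  rw [smul_smul, mul_inv_cancel₀ h.ne', one_smul]

theorem nn_pos {u : V2} (hu : ‖u‖ ≤ 1) : 0 < ‖nn S.X u‖ := norm_pos_iff.2 (S.imm u hu)

theorem SF_cmc {u : V2} (hu : ‖u‖ ≤ 1)
    (h : ⟪Lop S.X S.X u, nn S.X u⟫ = 2 * S.H * ‖nn S.X u‖ ^ 3) :
    ⟪Lop S.X S.X u, S.N u⟫ = 2 * S.H * ‖nn S.X u‖ ^ 2 := by
  have h0 := S.nn_pos hu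
  unfold Surf.N NN
  rw [real_inner_smul_right, h]
  field_simp

theorem SF_Lop_cont : Continuous (Lop S.X S.X) := by
  unfold Lop
  have h1 := (contDiff_cA S.smooth).continuous
  have h2 := (contDiff_cB S.smooth).continuous
  have h3 := (contDiff_cC S.smooth).continuous
  exact ((h1.smul (continuous_D2 S.smooth e0 e0)).add
    ((continuous_const.mul h2).smul (continuous_D2 S.smooth e0 e1))).add
    (h3.smul (continuous_D2 S.smooth e1 e1))

/-- mean curvature equation with the unit normal -/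
theorem cmcN {u : V2} (hu : ‖u‖ < 1) : ⟪Lop S.X S.X u, S.N u⟫ = 2 * S.H * ‖nn S.X u‖ ^ 2 := by
  exact S.SF_cmc hu.le (S.cmc u hu)

/-- the same on the closed disc -/
theorem cmcN' {u : V2} (hu : ‖u‖ ≤ 1) : ⟪Lop S.X S.X u, S.N u⟫ = 2 * S.H * ‖nn S.X u‖ ^ 2 := by
  apply S.SF_cmc hu
  have hcl : IsClosed {u : V2 | ⟪Lop S.X S.X u, nn S.X u⟫ = 2 * S.H * ‖nn S.X u‖ ^ 3} := by
    apply isClosed_eq
    · exact S.SF_Lop_cont.inner (contDiff_nn S.smooth).continuous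
    · exact continuous_const.mul ((contDiff_nn S.smooth).continuous.norm.pow 3)
  have hb : ball (0 : V2) 1 ⊆ {u : V2 | ⟪Lop S.X S.X u, nn S.X u⟫ = 2 * S.H * ‖nn S.X u‖ ^ 3} :=
    fun x hx => S.cmc x (by simpa using hx)
  have hc := closure_minimal hb hcl
  rw [closure_ball (0 : V2) one_ne_zero] at hc
  exact hc (by simpa using hu)

theorem tangent {u : V2} (hu : ‖u‖ ≤ 1) {v : V3} (hv : ⟪v, S.N u⟫ = 0) :
    ∃ a : V2, fderiv ℝ S.X u a = v := by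
  have h0 := S.nn_pos hu
  have hd := decomp (fderiv ℝ S.X u e0) (fderiv ℝ S.X u e1) v
  have hn : cr (fderiv ℝ S.X u e0) (fderiv ℝ S.X u e1) = nn S.X u := rfl
  rw [hn] at hd
  have hv' : ⟪v, nn S.X u⟫ = 0 := by
    rw [S.nn_eq hu, real_inner_smul_right, hv, mul_zero]
  rw [hv', zero_smul, zero_add, ← map_smul, ← map_smul, ← map_add] at hd
  refine ⟨(‖nn S.X u‖ ^ 2)⁻¹ • ((‖fderiv ℝ S.X u e1‖ ^ 2 * ⟪v, fderiv ℝ S.X u e0⟫
    - ⟪fderiv ℝ S.X u e0, fderiv ℝ S.X u e1⟫ * ⟪v, fderiv ℝ S.X u e1⟫) • e0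
    + (‖fderiv ℝ S.X u e0‖ ^ 2 * ⟪v, fderiv ℝ S.X u e1⟫
    - ⟪fderiv ℝ S.X u e0, fderiv ℝ S.X u e1⟫ * ⟪v, fderiv ℝ S.X u e0⟫) • e1), ?_⟩
  rw [map_smul, ← hd, smul_smul, inv_mul_cancel₀ (by positivity), one_smul]

theorem fderiv_inj {u : V2} (hu : ‖u‖ ≤ 1) {a : V2} (ha : fderiv ℝ S.X u a = 0) : a = 0 := by
  have hn : cr (fderiv ℝ S.X u e0) (fderiv ℝ S.X u e1) = nn S.X u := rfl
  have h1 : a 0 • fderiv ℝ S.X u e0 + a 1 • fderiv ℝ S.X u e1 = 0 := by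
    rw [← map_smul, ← map_smul, ← map_add, ← V2_decomp a]
    exact ha
  have h2 : a 0 = 0 := by
    have h3 := congrArg (fun w => cr w (fderiv ℝ S.X u e1)) h1
    simp only [cr_add_left, cr_smul_left, cr_self, smul_zero, add_zero, hn] at h3
    have h4 : cr (0 : V3) (fderiv ℝ S.X u e1) = 0 := by
      apply ext3 <;> simp
    rw [h4] at h3
    rcases smul_eq_zero.mp h3 with h5 | h5
    · exact h5
    · exact absurd h5 (S.imm u hu)
  have h6 : a 1 = 0 := by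
    have h3 := congrArg (fun w => cr (fderiv ℝ S.X u e0) w) h1
    simp only [cr_add_right, cr_smul_right, cr_self, smul_zero, zero_add, hn] at h3
    have h4 : cr (fderiv ℝ S.X u e0) (0 : V3) = 0 := by
      apply ext3 <;> simp
    rw [h4] at h3
    rcases smul_eq_zero.mp h3 with h5 | h5
    · exact h5
    · exact absurd h5 (S.imm u hu)
  apply ext2
  · simpa using h2
  · simpa using h6

theorem N_cont {u : V2} (hu : ‖u‖ ≤ 1) : ContinuousAt S.N u :=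
  (contDiffAt_NN S.smooth (S.imm u hu)).continuousAt

/-- a unit vector orthogonal to the tangent plane is `± N` -/
theorem unit_eq {u : V2} (hu : ‖u‖ ≤ 1) {m : V3} (hm : ‖m‖ = 1)
    (h : ∀ a : V2, ⟪m, fderiv ℝ S.X u a⟫ = 0) : m = S.N u ∨ m = -S.N u := by
  exact unit_normal (S.imm u hu) hm (h e0) (h e1)

theorem emb {u₀ : V2} (hu : ‖u₀‖ ≤ 1) {ρ : ℝ} (hρ : 0 < ρ) :
    ∃ δ : ℝ, 0 < δ ∧ ∀ v : V2, ‖v‖ ≤ 1 → ‖S.X v - S.X u₀‖ < δ → ‖v - u₀‖ < ρ := by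
  have hK : IsCompact (closedBall (0 : V2) 1 \ ball u₀ ρ) :=
    (isCompact_closedBall _ _).diff isOpen_ball
  have hK2 : IsClosed (S.X '' (closedBall (0 : V2) 1 \ ball u₀ ρ)) :=
    (hK.image S.smooth.continuous).isClosed
  have hx : S.X u₀ ∈ (S.X '' (closedBall (0 : V2) 1 \ ball u₀ ρ))ᶜ := by
    rintro ⟨v, hv, hv2⟩
    have h1 : ‖v‖ ≤ 1 := by simpa using hv.1
    have h2 := S.inj v u₀ h1 hu hv2
    apply hv.2
    rw [h2]
    exact mem_ball_self hρ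
  obtain ⟨δ, hδ, hδ2⟩ := Metric.isOpen_iff.mp hK2.isOpen_compl _ hx
  refine ⟨δ, hδ, fun v hv hv2 => ?_⟩
  by_contra hcon
  have h3 : S.X v ∈ ball (S.X u₀) δ := by
    rw [mem_ball, dist_eq_norm]
    exact hv2
  apply hδ2 h3
  refine ⟨v, ⟨by simpa using hv, ?_⟩, rfl⟩
  rw [mem_ball, dist_eq_norm]
  exact hcon

/-- sequential form of `emb` -/
theorem emb_seq {u₀ : V2} (hu : ‖u₀‖ ≤ 1) {v : ℕ → V2} (hv : ∀ k, ‖v k‖ ≤ 1)
    (h : Tendsto (fun k => S.X (v k)) atTop (𝓝 (S.X u₀))) : Tendsto v atTop (𝓝 u₀) := by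
  rw [Metric.tendsto_atTop]
  intro ρ hρ
  obtain ⟨δ, hδ, hδ2⟩ := S.emb hu hρ
  obtain ⟨K, hK⟩ := Metric.tendsto_atTop.mp h δ hδ
  refine ⟨K, fun k hk => ?_⟩
  rw [dist_eq_norm]
  apply hδ2 (v k) (hv k)
  rw [← dist_eq_norm]
  exact hK k hk

theorem isCompact_Sig : IsCompact S.Sig := by
  have h : S.Sig = S.X '' closedBall (0 : V2) 1 := by
    ext y
    constructor
    · rintro ⟨u, hu, h⟩
      exact ⟨u, by simpa using hu, h⟩
    · rintro ⟨u, hu, h⟩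
      exact ⟨u, by simpa using hu, h⟩
  rw [h]
  exact (isCompact_closedBall _ _).image S.smooth.continuous

theorem mem_Sig {u : V2} (hu : ‖u‖ ≤ 1) : S.X u ∈ S.Sig := ⟨u, hu, rfl⟩

/-- image of the parameter circle -/
theorem bd1 {u : V2} (hu : ‖u‖ = 1) : (S.X u) 2 = 0 ∧ (S.X u) 0 ^ 2 + (S.X u) 1 ^ 2 = 1 :=
  (S.bd _).1 ⟨u, hu, rfl⟩

/-- `X u` in the disc boundary forces `u` to be on the parameter circle -/
theorem bd2 {u : V2} (hu : ‖u‖ ≤ 1) (h2 : (S.X u) 2 = 0)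
    (h : (S.X u) 0 ^ 2 + (S.X u) 1 ^ 2 = 1) : ‖u‖ = 1 := by
  obtain ⟨v, hv, hvu⟩ := (S.bd _).2 ⟨h2, h⟩
  rw [← S.inj v u hv.le hu hvu]; exact hv

end Surf

theorem isCompact_Disc : IsCompact Disc := by
  apply Metric.isCompact_of_isClosed_isBounded
  · have h : Disc = {y : V3 | y 2 = 0} ∩ {y : V3 | y 0 ^ 2 + y 1 ^ 2 ≤ 1} := rfl
    rw [h]
    apply IsClosed.inter
    · exact isClosed_eq (by fun_prop) (by fun_prop)
    · exact isClosed_le (by fun_prop) (by fun_prop)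
  · apply (isBounded_closedBall (x := (0 : V3)) (r := 1)).subset
    rintro y ⟨h2, h1⟩
    rw [mem_closedBall, dist_zero_right]
    have h3 := nsq y
    rw [h2] at h3
    nlinarith [norm_nonneg y]

theorem SF_angle {x y : ℝ} (h : x ^ 2 + y ^ 2 = 1) :
    ∃ ψ : ℝ, Real.cos ψ = x ∧ Real.sin ψ = y := by
  have h1 : ‖(⟨x, y⟩ : ℂ)‖ = 1 := by
    rw [Complex.norm_eq_sqrt_sq_add_sq]
    simp [h]
  have h2 : (⟨x, y⟩ : ℂ) ≠ 0 := by
    intro h3
    rw [h3] at h1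
    simp at h1
  refine ⟨Complex.arg ⟨x, y⟩, ?_, ?_⟩
  · rw [Complex.cos_arg h2, h1, div_one]
  · rw [Complex.sin_arg, h1, div_one]

/-- parameters of the circle -/
theorem norm_cu (ψ : ℝ) : ‖cu ψ‖ = 1 := by
  have h : ‖cu ψ‖ ^ 2 = 1 := by
    rw [nsq2]; simp
  nlinarith [norm_nonneg (cu ψ)]

theorem exists_cu {u : V2} (hu : ‖u‖ = 1) : ∃ ψ : ℝ, cu ψ = u := by
  have h1 : u 0 ^ 2 + u 1 ^ 2 = 1 := by
    rw [← nsq2, hu]
    norm_num
  obtain ⟨ψ, h2, h3⟩ := SF_angle h1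
  refine ⟨ψ, ext2 _ _ ?_ ?_⟩
  · rw [cu_0, h2]
  · rw [cu_1, h3]

theorem norm_nh (φ : ℝ) : ‖nh φ‖ = 1 := by
  have h : ‖nh φ‖ ^ 2 = 1 := by
    rw [nsq]; simp
  nlinarith [norm_nonneg (nh φ)]

theorem exists_nh {e : V3} (he : ‖e‖ = 1) (h2 : e 2 = 0) : ∃ φ : ℝ, nh φ = e := by
  have h1 : e 0 ^ 2 + e 1 ^ 2 = 1 := by
    have h := nsq e
    rw [he, h2] at h
    linarith
  obtain ⟨ψ, h4, h3⟩ := SF_angle h1
  refine ⟨ψ, ext3 _ _ ?_ ?_ ?_⟩
  · rw [nh_0, h4]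
  · rw [nh_1, h3]
  · rw [nh_2, h2]

end Pool.Agent.H99.SC
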