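import Pool.Agent.H99.SC.PLN
import Pool.Agent.H99.SC.SF

/-!
# EXT: normals at highest and lowest interior points

`h u = ⟪E3, X u⟫ = (X u) 2` has a local extremum at `u₁` (interior), so `⟪E3, DX a⟫ = 0` for all `a` and `N u₁ = ± E3`
(`unit_eq`).  Maximum: `0 ≤ Lop X (-h) u₁ = -⟪E3, Lop X X u₁⟫` (`Lop_nonneg_of_isLocalMin`, `lop_height` with `c = -E3`);
`cmcN`: `⟪Lop X X, N⟫ = 2 H ‖nn‖^2 > 0`, so `N = E3` is impossible.  Minimum: same with sign.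
-/

set_option autoImplicit false

open scoped RealInnerProductSpace Topology
open Metric Filter Set

noncomputable section

namespace Pool.Agent.H99.SC

theorem EXT_aux (S : Surf) {u₁ : V2} (hu₁ : ‖u₁‖ < 1) {c : V3} (hc : ‖c‖ = 1)
    (h : ∀ u : V2, ‖u‖ < 1 → ⟪c, S.X u₁⟫ ≤ ⟪c, S.X u⟫) : S.N u₁ = c := by
  have hmin : IsLocalMin (fun u => ⟪c, S.X u⟫) u₁ := by
    have hball : ball (0 : V2) 1 ∈ 𝓝 u₁ := isOpen_ball.mem_nhds (by simpa using hu₁)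
    filter_upwards [hball] with u hu
    exact h u (by simpa using hu)
  have hD : ∀ a : V2, ⟪c, fderiv ℝ S.X u₁ a⟫ = 0 := by
    intro a
    rw [← fderiv_height S.smooth, hmin.fderiv_eq_zero]
    rfl
  have hL : 0 ≤ ⟪c, Lop S.X S.X u₁⟫ := by
    rw [← lop_height S.smooth]
    exact Lop_nonneg_of_isLocalMin (S.imm u₁ hu₁.le)
      (contDiff_height S.smooth c).contDiffAt hmin
  have hcm := S.cmcN hu₁
  have hpos : 0 < 2 * S.H * ‖nn S.X u₁‖ ^ 2 := by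
    have := S.nn_pos hu₁.le
    have := S.Hpos
    positivity
  rcases S.unit_eq hu₁.le hc hD with h1 | h1
  · exact h1.symm
  · exfalso
    rw [h1, inner_neg_left, real_inner_comm, hcm] at hL
    linarith

theorem max_N (S : Surf) {u₁ : V2} (hu₁ : ‖u₁‖ < 1)
    (h : ∀ u : V2, ‖u‖ < 1 → (S.X u) 2 ≤ (S.X u₁) 2) : S.N u₁ = -E3 := by
  have hE : ‖(E3 : V3)‖ = 1 := by
    have h0 : ‖(E3 : V3)‖ ^ 2 = 1 := by rw [nsq]; simp
    nlinarith [norm_nonneg (E3 : V3)]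
  refine EXT_aux S hu₁ (by rw [norm_neg, hE]) fun u hu => ?_
  have := h u hu
  simp only [ip, PiLp.neg_apply, E3_0, E3_1, E3_2]
  linarith

theorem min_N (S : Surf) {u₁ : V2} (hu₁ : ‖u₁‖ < 1)
    (h : ∀ u : V2, ‖u‖ < 1 → (S.X u₁) 2 ≤ (S.X u) 2) : S.N u₁ = E3 := by
  have hE : ‖(E3 : V3)‖ = 1 := by
    have h0 : ‖(E3 : V3)‖ ^ 2 = 1 := by rw [nsq]; simp
    nlinarith [norm_nonneg (E3 : V3)]
  refine EXT_aux S hu₁ hE fun u hu => ?_
  have := h u hu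
  simp only [ip, E3_0, E3_1, E3_2]
  linarith

end Pool.Agent.H99.SC
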