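import Pool.Agent.H99.SC.WQS
import Pool.Agent.H99.SC.EXT

/-!
# CAS: position of the star centre

`q0`: `q 2 = 0`.  `q ∉ S.Sig` (`star_not_mem`), so `q 0^2 + q 1^2 ≠ 1` (`S.bd`).  If `> 1`: with `v = -q`, the points
`q + s v` with `s = 1 - 1/|q|` and `s = 1 + 1/|q|` are both on the circle: contradiction.  So `q` is in the open disc.  If
`‖u‖ < 1` and `(X u) 2 = 0`: `v = X u - q ≠ 0` horizontal; the ray from the point `q` inside the disc meets the circle:
`q + t v`, `t > 0` (quadratic equation / intermediate value), and `q + 1 v = X u`: so `t = 1`, `X u` on the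
circle, `‖u‖ = 1` (`bd2`): contradiction.  So `(X u) 2 ≠ 0` on the open disc (connected): constant sign.
`dich`: `q 2 ≠ 0`, `q ∉ Disc`.  For `‖u‖ < 1`: if `q + τ (X u - q) ∈ Disc` for some `τ > 0`, it is not on the circle (else
`τ = 1` by `star_unique` and `‖u‖ = 1` by `bd2`), so it is in the open disc.  `{u : ∃ τ > 0, q + τ (X u - q) in the open disc}` is
open (`τ = q 2/(q 2 - (X u) 2)` is determined by the third coordinate, continuous in `u`), and
`{u : ∀ τ > 0, q + τ (X u - q) ∉ Disc}` is open (complement closed: `Disc` compact, `X u ≠ q`, the limit of `τ_k` is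
positive as `q ∉ Disc`).  The open disc is connected.
`oneI`: `q 2 < 0` and all interior points are in the open cone: then `(X u) 2 > q 2`:
`0 = q 2 + τ ((X u) 2 - q 2)`.  Suppose some interior `u` has `(X u) 2 ≥ 0` and some interior `v` has `(X v) 2 ≤ 0`.  The maximum
of `(X u) 2` over the closed disc is `≥ 0` and attained at an interior point `u₁` (boundary values are 0; if the maximum is 0
take the given `u`); same for the minimum, `u₂`.  `max_N`: `N u₁ = -E3`, so
`⟪q - X u₁, N u₁⟫ = (X u₁) 2 - q 2 > 0`; `min_N`: `⟪q - X u₂, N u₂⟫ = q 2 - (X u₂) 2 < 0`: contradicts `wq_sign`.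
-/

set_option autoImplicit false

open scoped RealInnerProductSpace Topology
open Metric Filter Set

noncomputable section

namespace Pool.Agent.H99.SC

/-- circle points are on the surface -/
private lemma CAS_circ (S : Surf) {y : V3} (h2 : y 2 = 0) (h : y 0 ^ 2 + y 1 ^ 2 = 1) :
    ∃ u : V2, ‖u‖ = 1 ∧ S.X u = y := (S.bd y).2 ⟨h2, h⟩

private lemma CAS_circ_mem (S : Surf) {y : V3} (h2 : y 2 = 0) (h : y 0 ^ 2 + y 1 ^ 2 = 1) :
    y ∈ S.Sig := by
  obtain ⟨u, hu, hy⟩ := CAS_circ S h2 h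
  exact ⟨u, hu.le, hy⟩

private lemma CAS_ball : IsPreconnected {u : V2 | ‖u‖ < 1} := by
  have h : {u : V2 | ‖u‖ < 1} = ball (0 : V2) 1 := by
    ext u; simp
  rw [h]
  exact (convex_ball _ _).isPreconnected

private lemma CAS_cont (S : Surf) (i : Fin 3) : Continuous (fun u : V2 => (S.X u) i) := by
  have h : Continuous S.X := S.smooth.continuous
  fun_prop

/-- a horizontal ray from inside the unit circle meets it -/
private lemma CAS_ray {q0 q1 v0 v1 : ℝ} (hq : q0 ^ 2 + q1 ^ 2 < 1) (hv : 0 < v0 ^ 2 + v1 ^ 2) :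
    ∃ t : ℝ, 0 < t ∧ (q0 + t * v0) ^ 2 + (q1 + t * v1) ^ 2 = 1 := by
  have hcont : Continuous (fun t : ℝ => (q0 + t * v0) ^ 2 + (q1 + t * v1) ^ 2) := by fun_prop
  obtain ⟨T, hT, hT1⟩ : ∃ T : ℝ, 0 ≤ T ∧ 1 ≤ (q0 + T * v0) ^ 2 + (q1 + T * v1) ^ 2 := by
    refine ⟨(2 + 2 * |q0 * v0 + q1 * v1|) / (v0 ^ 2 + v1 ^ 2) + 1, by positivity, ?_⟩
    set a := v0 ^ 2 + v1 ^ 2 with ha
    set b := q0 * v0 + q1 * v1 with hb
    set T := (2 + 2 * |b|) / a + 1 with hT
    have h1 : a * T = 2 + 2 * |b| + a := by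
      rw [hT]; field_simp
    have h2 : (q0 + T * v0) ^ 2 + (q1 + T * v1) ^ 2
        = (q0 ^ 2 + q1 ^ 2) + 2 * T * b + T * (a * T) := by rw [ha, hb]; ring
    have h3 : 0 ≤ q0 ^ 2 + q1 ^ 2 := by positivity
    have h4 : 1 ≤ T := by
      rw [hT]
      have : 0 ≤ (2 + 2 * |b|) / a := by positivity
      linarith
    have h5 : -|b| ≤ b := neg_abs_le b
    rw [h2, h1]
    nlinarith [abs_nonneg b]
  have h0 : (fun t : ℝ => (q0 + t * v0) ^ 2 + (q1 + t * v1) ^ 2) 0 ≤ 1 := by
    simp only [zero_mul, add_zero]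
    exact hq.le
  obtain ⟨t, ht, hte⟩ := intermediate_value_Icc hT hcont.continuousOn ⟨h0, hT1⟩
  refine ⟨t, lt_of_le_of_ne ht.1 ?_, hte⟩
  rintro rfl
  simp only [zero_mul, add_zero] at hte
  linarith

theorem q0 {S : Surf} {q : V3} (hq : StarAt S q) (hq2 : q 2 = 0) : q 0 ^ 2 + q 1 ^ 2 < 1 ∧
    ((∀ u : V2, ‖u‖ < 1 → (S.X u) 2 < 0) ∨ (∀ u : V2, ‖u‖ < 1 → 0 < (S.X u) 2)) := by
  have hnm := star_not_mem hq
  have hlt : q 0 ^ 2 + q 1 ^ 2 < 1 := by
    by_contra hge
    push Not at hge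
    rcases hge.eq_or_lt with h1 | h1
    · exact hnm (CAS_circ_mem S hq2 h1.symm)
    · set r := Real.sqrt (q 0 ^ 2 + q 1 ^ 2) with hr
      have hr2 : r ^ 2 = q 0 ^ 2 + q 1 ^ 2 := Real.sq_sqrt (by positivity)
      have hr0 : 0 ≤ r := Real.sqrt_nonneg _
      have hr1 : 1 < r := by nlinarith
      have hri : 0 < r⁻¹ := by positivity
      have hri1 : r⁻¹ < 1 := inv_lt_one_of_one_lt₀ hr1
      have hrr : r⁻¹ ^ 2 * (q 0 ^ 2 + q 1 ^ 2) = 1 := by
        rw [← hr2]; field_simp
      have hqne : -q ≠ 0 := by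
        intro h
        have h' : q = 0 := neg_eq_zero.1 h
        rw [h'] at h1
        simp at h1
        linarith
      have hp : q + (1 - r⁻¹) • (-q) = r⁻¹ • q := by
        module
      have hm : q + (1 + r⁻¹) • (-q) = (-r⁻¹) • q := by
        module
      have h1s : q + (1 - r⁻¹) • (-q) ∈ S.Sig := by
        rw [hp]
        apply CAS_circ_mem S
        · simp [hq2]
        · simp only [PiLp.smul_apply, smul_eq_mul]
          rw [← hrr]; ring
      have h2s : q + (1 + r⁻¹) • (-q) ∈ S.Sig := by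
        rw [hm]
        apply CAS_circ_mem S
        · simp [hq2]
        · simp only [PiLp.smul_apply, smul_eq_mul]
          rw [← hrr]; ring
      have := hq (-q) hqne (1 - r⁻¹) (1 + r⁻¹) (by linarith) (by linarith) h1s h2s
      linarith
  refine ⟨hlt, ?_⟩
  have hne : ∀ u : V2, ‖u‖ < 1 → (S.X u) 2 ≠ 0 := by
    intro u hu h2
    set v := S.X u - q with hv
    have hv0 : v ≠ 0 := by
      intro h
      apply hnm
      refine ⟨u, hu.le, ?_⟩
      exact sub_eq_zero.1 h
    have hv2 : v 2 = 0 := by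
      rw [hv]; simp [h2, hq2]
    have hvp : 0 < v 0 ^ 2 + v 1 ^ 2 := by
      rcases lt_or_eq_of_le (show 0 ≤ v 0 ^ 2 + v 1 ^ 2 by positivity) with h | h
      · exact h
      · exfalso
        apply hv0
        apply ext3
        · simp; nlinarith
        · simp; nlinarith
        · simpa using hv2
    obtain ⟨t, ht, htc⟩ := CAS_ray hlt hvp
    have hmem : q + t • v ∈ S.Sig := by
      apply CAS_circ_mem S
      · simp [hq2, hv2]
      · simpa using htc
    have hmem1 : q + (1 : ℝ) • v ∈ S.Sig := by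
      rw [hv, one_smul, add_sub_cancel]
      exact S.mem_Sig hu.le
    have ht1 := hq v hv0 t 1 ht.le zero_le_one hmem hmem1
    rw [ht1] at htc
    have hX0 : (S.X u) 0 = q 0 + 1 * v 0 := by rw [hv]; simp
    have hX1 : (S.X u) 1 = q 1 + 1 * v 1 := by rw [hv]; simp
    have := S.bd2 hu.le h2 (by rw [hX0, hX1]; exact htc)
    linarith
  by_contra hcon
  push Not at hcon
  obtain ⟨⟨u, hu, hu2⟩, ⟨v, hv, hv2⟩⟩ := hcon
  obtain ⟨w, hw, hw2⟩ := CAS_ball.intermediate_value (a := v) (b := u) hv hu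
    (CAS_cont S 2).continuousOn ⟨hv2, hu2⟩
  exact hne w hw hw2

/-- all interior points are in the open cone over the open unit disc with apex `q` -/
def InC (S : Surf) (q : V3) : Prop := ∀ u : V2, ‖u‖ < 1 → ∃ τ : ℝ, 0 < τ ∧
  (q + τ • (S.X u - q)) 2 = 0 ∧ (q + τ • (S.X u - q)) 0 ^ 2 + (q + τ • (S.X u - q)) 1 ^ 2 < 1

theorem dich {S : Surf} {q : V3} (hq : StarAt S q) (hq2 : q 2 ≠ 0) :
    InC S q ∨ (∀ u : V2, ‖u‖ < 1 → ∀ τ : ℝ, 0 < τ → q + τ • (S.X u - q) ∉ Disc) := by
  have hnm := star_not_mem hq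
  set d : V2 → ℝ := fun u => q 2 - (S.X u) 2 with hd
  set P0 : V2 → ℝ := fun u => q 0 * d u + q 2 * ((S.X u) 0 - q 0) with hP0
  set P1 : V2 → ℝ := fun u => q 1 * d u + q 2 * ((S.X u) 1 - q 1) with hP1
  have c0 := CAS_cont S 0
  have c1 := CAS_cont S 1
  have c2 := CAS_cont S 2
  have cd : Continuous d := continuous_const.sub c2
  have cP0 : Continuous P0 := (continuous_const.mul cd).add (continuous_const.mul (c0.sub continuous_const))
  have cP1 : Continuous P1 := (continuous_const.mul cd).add (continuous_const.mul (c1.sub continuous_const))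
  set O : Set V2 := {u | 0 < q 2 * d u ∧ P0 u ^ 2 + P1 u ^ 2 < d u ^ 2} with hO
  set F : Set V2 := {u | 0 ≤ q 2 * d u ∧ P0 u ^ 2 + P1 u ^ 2 ≤ d u ^ 2} with hF
  have hOo : IsOpen O := by
    rw [hO]
    exact (isOpen_lt continuous_const (continuous_const.mul cd)).inter
      (isOpen_lt ((cP0.pow 2).add (cP1.pow 2)) (cd.pow 2))
  have hFc : IsClosed F := by
    rw [hF]
    exact (isClosed_le continuous_const (continuous_const.mul cd)).inter
      (isClosed_le ((cP0.pow 2).add (cP1.pow 2)) (cd.pow 2))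
  have hdisj : Disjoint O Fᶜ := by
    rw [Set.disjoint_compl_right_iff_subset]
    rintro u ⟨h1, h2⟩
    exact ⟨h1.le, h2.le⟩
  have hcov : {u : V2 | ‖u‖ < 1} ⊆ O ∪ Fᶜ := by
    intro u hu
    by_cases huF : u ∈ F
    · left
      obtain ⟨h1, h2⟩ := huF
      have hd0 : d u ≠ 0 := by
        intro h0
        rw [h0] at h2
        have e0 : P0 u = 0 := by nlinarith [sq_nonneg (P0 u), sq_nonneg (P1 u)]
        have e1 : P1 u = 0 := by nlinarith [sq_nonneg (P0 u), sq_nonneg (P1 u)]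
        rw [hP0] at e0
        rw [hP1] at e1
        simp only [h0, mul_zero, zero_add, mul_eq_zero, hq2, false_or] at e0 e1
        apply hnm
        refine ⟨u, (le_of_lt hu), ?_⟩
        apply ext3
        · linarith
        · linarith
        · have : q 2 - (S.X u) 2 = 0 := h0
          linarith
      have hpos : 0 < q 2 * d u := lt_of_le_of_ne h1 (Ne.symm (mul_ne_zero hq2 hd0))
      refine ⟨hpos, lt_of_le_of_ne h2 ?_⟩
      intro he
      have hτ : 0 < q 2 / d u := by
        have : q 2 / d u = (q 2 * d u) / (d u) ^ 2 := by field_simp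
        rw [this]; positivity
      have hy2 : (q + (q 2 / d u) • (S.X u - q)) 2 = 0 := by
        simp only [PiLp.add_apply, PiLp.smul_apply, PiLp.sub_apply, smul_eq_mul]
        have : (S.X u) 2 - q 2 = - d u := by rw [hd]; ring
        rw [this]; field_simp; ring
      have hy0 : (q + (q 2 / d u) • (S.X u - q)) 0 = P0 u / d u := by
        simp only [PiLp.add_apply, PiLp.smul_apply, PiLp.sub_apply, smul_eq_mul]
        rw [hP0]; field_simp
      have hy1 : (q + (q 2 / d u) • (S.X u - q)) 1 = P1 u / d u := by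
        simp only [PiLp.add_apply, PiLp.smul_apply, PiLp.sub_apply, smul_eq_mul]
        rw [hP1]; field_simp
      obtain ⟨u', hu', hX⟩ := CAS_circ S hy2 (by
        rw [hy0, hy1, div_pow, div_pow, ← add_div, he]
        exact div_self (pow_ne_zero 2 hd0))
      have := star_unique hq (u := u') (v := u) (w := S.X u - q) (τ := q 2 / d u) (σ := 1)
        hu'.le (le_of_lt hu) hτ one_pos hX.symm (by rw [one_smul, add_sub_cancel])
      have hh := this.2
      rw [hh] at hu'
      have hu1 : ‖u‖ < 1 := hu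
      linarith
    · right
      exact huF
  rcases CAS_ball.subset_or_subset hOo hFc.isOpen_compl hdisj hcov with h | h
  · left
    intro u hu
    obtain ⟨h1, h2⟩ := h hu
    have hd0 : d u ≠ 0 := by
      intro h0; rw [h0] at h1; simp at h1
    have hτ : 0 < q 2 / d u := by
      have : q 2 / d u = (q 2 * d u) / (d u) ^ 2 := by field_simp
      rw [this]; positivity
    refine ⟨q 2 / d u, hτ, ?_, ?_⟩
    · simp only [PiLp.add_apply, PiLp.smul_apply, PiLp.sub_apply, smul_eq_mul]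
      have : (S.X u) 2 - q 2 = - d u := by rw [hd]; ring
      rw [this]; field_simp; ring
    · have hy0 : (q + (q 2 / d u) • (S.X u - q)) 0 = P0 u / d u := by
        simp only [PiLp.add_apply, PiLp.smul_apply, PiLp.sub_apply, smul_eq_mul]
        rw [hP0]; field_simp
      have hy1 : (q + (q 2 / d u) • (S.X u - q)) 1 = P1 u / d u := by
        simp only [PiLp.add_apply, PiLp.smul_apply, PiLp.sub_apply, smul_eq_mul]
        rw [hP1]; field_simp
      rw [hy0, hy1, div_pow, div_pow, ← add_div, div_lt_one (by positivity)]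
      exact h2
  · right
    intro u hu τ hτ hD
    apply h hu
    obtain ⟨h2, h1⟩ := hD
    simp only [PiLp.add_apply, PiLp.smul_apply, PiLp.sub_apply, smul_eq_mul] at h2 h1
    have e : q 2 = τ * d u := by rw [hd]; linarith
    have e0 : P0 u = d u * (q 0 + τ * ((S.X u) 0 - q 0)) := by
      show q 0 * d u + q 2 * ((S.X u) 0 - q 0) = _
      rw [e]; ring
    have e1 : P1 u = d u * (q 1 + τ * ((S.X u) 1 - q 1)) := by
      show q 1 * d u + q 2 * ((S.X u) 1 - q 1) = _
      rw [e]; ring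
    refine ⟨?_, ?_⟩
    · rw [e]
      have : τ * d u * d u = τ * (d u) ^ 2 := by ring
      rw [this]; positivity
    · rw [e0, e1]
      nlinarith [sq_nonneg (d u)]

theorem oneI {S : Surf} {q : V3} (hq : StarAt S q) (hq2 : q 2 < 0) (hI : InC S q) :
    (∀ u : V2, ‖u‖ < 1 → (S.X u) 2 < 0) ∨ (∀ u : V2, ‖u‖ < 1 → 0 < (S.X u) 2) := by
  have hgt : ∀ u : V2, ‖u‖ < 1 → q 2 < (S.X u) 2 := by
    intro u hu
    obtain ⟨τ, hτ, h2, _⟩ := hI u hu
    simp only [PiLp.add_apply, PiLp.smul_apply, PiLp.sub_apply, smul_eq_mul] at h2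
    by_contra hle
    push Not at hle
    nlinarith
  have hcpt : IsCompact (closedBall (0 : V2) 1) := isCompact_closedBall _ _
  have hne : (closedBall (0 : V2) 1).Nonempty := ⟨0, by simp⟩
  have hc := (CAS_cont S 2).continuousOn (s := closedBall (0 : V2) 1)
  by_contra hcon
  push Not at hcon
  obtain ⟨⟨u, hu, hu2⟩, ⟨v, hv, hv2⟩⟩ := hcon
  have hcb : ∀ w : V2, ‖w‖ < 1 → w ∈ closedBall (0 : V2) 1 := by
    intro w hw
    simpa using hw.le
  obtain ⟨u₁, hu₁, hmax⟩ : ∃ u₁ : V2, ‖u₁‖ < 1 ∧ ∀ w : V2, ‖w‖ < 1 → (S.X w) 2 ≤ (S.X u₁) 2 := by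
    obtain ⟨us, hus, hm⟩ := hcpt.exists_isMaxOn hne hc
    have hus1 : ‖us‖ ≤ 1 := by simpa using hus
    rcases hus1.lt_or_eq with h | h
    · exact ⟨us, h, fun w hw => hm (hcb w hw)⟩
    · refine ⟨u, hu, fun w hw => le_trans (hm (hcb w hw)) ?_⟩
      have := (S.bd1 h).1
      show (S.X us) 2 ≤ (S.X u) 2
      rw [this]; exact hu2
  obtain ⟨u₂, hu₂, hmin⟩ : ∃ u₂ : V2, ‖u₂‖ < 1 ∧ ∀ w : V2, ‖w‖ < 1 → (S.X u₂) 2 ≤ (S.X w) 2 := by
    obtain ⟨us, hus, hm⟩ := hcpt.exists_isMinOn hne hc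
    have hus1 : ‖us‖ ≤ 1 := by simpa using hus
    rcases hus1.lt_or_eq with h | h
    · exact ⟨us, h, fun w hw => hm (hcb w hw)⟩
    · refine ⟨v, hv, fun w hw => le_trans ?_ (hm (hcb w hw))⟩
      have := (S.bd1 h).1
      show (S.X v) 2 ≤ (S.X us) 2
      rw [this]; exact hv2
  have hN1 := max_N S hu₁ hmax
  have hN2 := min_N S hu₂ hmin
  have g1 := hgt u₁ hu₁
  have g2 := hgt u₂ hu₂
  rcases wq_sign hq with h | h
  · have := h u₂ hu₂
    rw [hN2, ip] at this
    simp at this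
    linarith
  · have := h u₁ hu₁
    rw [hN1, ip] at this
    simp at this
    linarith

end Pool.Agent.H99.SC
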