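import Pool.Agent.H99.SC.SMP

/-!
# CNA: the side estimate

`side`.  `η` C^2 near `x₀`, `η x₀ = 0`, `Dη(x₀) ≠ 0`; `w` C^2 near `x₀`, `w = 0` on
`{η = 0}` near `x₀`, `w > 0` on `{η > 0}` near `x₀`, inequality on `{η > 0}` near `x₀`.  Then
`w >= c η` on `{η >= 0}` near `x₀` for some `c > 0`.
Proof.  Interior ball (`iball`) and `hopf`: `Dw(x₀) ν > 0`.  Let `c = Dw(x₀) ν / (2 Dη(x₀) ν)` and
`φ = w - c η`: `Dφ(x₀) ν > 0`, so `Dφ(x) ν > 0` near `x₀`, and `Dη(x) ν > 0` near `x₀`.  Let `x` be near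
`x₀` with `η x >= 0`.  Along `s ↦ x - s ν` the function `η` decreases at rate >= some `g' > 0` and `η x`
is small, so there is a small `s >= 0` with `η (x - s ν) = 0`, where `φ = 0`; `φ` is increasing along
`ν`, so `φ x >= 0`.
-/

set_option autoImplicit false

open scoped RealInnerProductSpace Topology
open Metric Filter Set

noncomputable section

namespace Pool.Agent.H99.SC

private theorem CNA_ball_sub {x₀ ν : V2} {R R' : ℝ} (hν : ‖ν‖ = 1) (h : R' ≤ R) :
    ball (x₀ + R' • ν) R' ⊆ ball (x₀ + R • ν) R := by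
  intro x hx
  rw [mem_ball, dist_eq_norm] at hx ⊢
  have e : x - (x₀ + R • ν) = (x - (x₀ + R' • ν)) - (R - R') • ν := by module
  rw [e]
  refine (norm_sub_le _ _).trans_lt ?_
  rw [norm_smul, hν, Real.norm_eq_abs, abs_of_nonneg (by linarith)]
  linarith

private theorem CNA_mono {F : V2 → ℝ} {x ν : V2} {m s₁ : ℝ} (hs : 0 ≤ s₁)
    (hd : ∀ s ∈ Icc (0 : ℝ) s₁, DifferentiableAt ℝ F (x - s • ν))
    (hm : ∀ s ∈ Icc (0 : ℝ) s₁, m ≤ fderiv ℝ F (x - s • ν) ν) :
    F (x - s₁ • ν) ≤ F x - m * s₁ := by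
  have hder : ∀ s ∈ Icc (0 : ℝ) s₁, HasDerivAt (fun s : ℝ => F (x - s • ν) + m * s)
      (-(fderiv ℝ F (x - s • ν) ν) + m) s := by
    intro s hs
    have h1 : HasDerivAt (fun s : ℝ => x - s • ν) (-ν) s := by
      have := ((hasDerivAt_id s).smul_const ν).const_sub x
      simpa using this
    have h2 := (hd s hs).hasFDerivAt.comp_hasDerivAt s h1
    have h3 : HasDerivAt (fun s : ℝ => m * s) m s := by
      simpa using (hasDerivAt_id s).const_mul m
    have h4 := h2.add h3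
    rw [map_neg] at h4
    exact h4
  have hanti : AntitoneOn (fun s : ℝ => F (x - s • ν) + m * s) (Icc 0 s₁) := by
    apply antitoneOn_of_deriv_nonpos (convex_Icc 0 s₁)
    · intro s hs
      exact (hder s hs).continuousAt.continuousWithinAt
    · intro s hs
      exact (hder s (interior_subset hs)).differentiableAt.differentiableWithinAt
    · intro s hs
      rw [(hder s (interior_subset hs)).deriv]
      have := hm s (interior_subset hs)
      linarith
  have h := hanti (left_mem_Icc.2 hs) (right_mem_Icc.2 hs) hs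
  simp only [zero_smul, sub_zero, mul_zero, add_zero] at h
  linarith

theorem side {A B C w η : V2 → ℝ} {x₀ : V2} {K : ℝ}
    (hη : ContDiffAt ℝ 2 η x₀) (hη0 : η x₀ = 0) (hηD : fderiv ℝ η x₀ ≠ 0)
    (hw : ContDiffAt ℝ 2 w x₀) (hw0 : ∀ᶠ x in 𝓝 x₀, η x = 0 → w x = 0)
    (hwp : ∀ᶠ x in 𝓝 x₀, 0 < η x → 0 < w x)
    (hA : ContinuousAt A x₀) (hB : ContinuousAt B x₀) (hC : ContinuousAt C x₀)
    (hAp : 0 < A x₀) (hABC : B x₀ ^ 2 < A x₀ * C x₀)
    (hdi : ∀ᶠ x in 𝓝 x₀, 0 < η x → Ell A B C w x ≤ K * ‖fderiv ℝ w x‖) :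
    ∃ c : ℝ, 0 < c ∧ ∀ᶠ x in 𝓝 x₀, 0 ≤ η x → c * η x ≤ w x := by
  obtain ⟨ν, R, hR, hν, hην, -, hball⟩ := iball hη hη0 hηD
  -- Hopf
  have hwν : 0 < fderiv ℝ w x₀ ν := by
    obtain ⟨ρ, hρ, hρb⟩ := Metric.eventually_nhds_iff_ball.1 hwp
    have hR' : 0 < min R (ρ / 2) := lt_min hR (by positivity)
    have hsub := CNA_ball_sub (x₀ := x₀) hν (min_le_left R (ρ / 2))
    refine hopf hR' hν hw (hw0.self_of_nhds hη0) hA hB hC hAp hABC ?_ ?_ (K := K)
    · intro x hx
      refine hρb x ?_ (hball (hsub hx))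
      rw [mem_ball, dist_eq_norm] at hx ⊢
      have e : x - x₀ = (x - (x₀ + min R (ρ / 2) • ν)) + min R (ρ / 2) • ν := by module
      rw [e]
      refine (norm_add_le _ _).trans_lt ?_
      rw [norm_smul, hν, Real.norm_eq_abs, abs_of_pos hR']
      have := min_le_right R (ρ / 2)
      linarith
    · filter_upwards [hdi] with x hx hxb
      exact hx (hball (hsub hxb))
  set a := fderiv ℝ w x₀ ν with ha
  set g := fderiv ℝ η x₀ ν with hg
  set c := a / (2 * g) with hc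
  have hcpos : 0 < c := by positivity
  refine ⟨c, hcpos, ?_⟩
  have hcw : ContinuousAt (fun x => fderiv ℝ w x ν) x₀ :=
    ((contDiffAt_fderiv hw).continuousAt).clm_apply continuousAt_const
  have hcη : ContinuousAt (fun x => fderiv ℝ η x ν) x₀ :=
    ((contDiffAt_fderiv hη).continuousAt).clm_apply continuousAt_const
  have hcg : c * g = a / 2 := by
    rw [hc]; field_simp
  have e1 : ∀ᶠ x in 𝓝 x₀, 0 < fderiv ℝ w x ν - c * fderiv ℝ η x ν := by
    have h1 : ContinuousAt (fun x => fderiv ℝ w x ν - c * fderiv ℝ η x ν) x₀ :=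
      hcw.sub (continuousAt_const.mul hcη)
    refine h1.eventually (lt_mem_nhds ?_)
    change 0 < a - c * g
    rw [hcg]; linarith
  have e2 : ∀ᶠ x in 𝓝 x₀, g / 2 < fderiv ℝ η x ν := by
    refine hcη.eventually (lt_mem_nhds ?_)
    change g / 2 < g
    linarith
  have e3 : ∀ᶠ x in 𝓝 x₀, DifferentiableAt ℝ w x :=
    (hw.eventually (by simp)).mono fun x hx => hx.differentiableAt (by norm_num)
  have e4 : ∀ᶠ x in 𝓝 x₀, DifferentiableAt ℝ η x :=
    (hη.eventually (by simp)).mono fun x hx => hx.differentiableAt (by norm_num)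
  obtain ⟨ρ, hρ, hall⟩ := Metric.eventually_nhds_iff_ball.1 (e1.and (e2.and (e3.and (e4.and hw0))))
  have e5 : ∀ᶠ x in 𝓝 x₀, η x < g / 2 * (ρ / 2) := by
    refine hη.continuousAt.eventually (gt_mem_nhds ?_)
    rw [hη0]; positivity
  filter_upwards [e5, ball_mem_nhds x₀ (show 0 < ρ / 2 by positivity)] with x hx5 hxb hx0
  rw [mem_ball, dist_eq_norm] at hxb
  have hin : ∀ s : ℝ, 0 ≤ s → s < ρ / 2 → x - s • ν ∈ ball x₀ ρ := by
    intro s hs0 hs
    rw [mem_ball, dist_eq_norm]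
    have e : x - s • ν - x₀ = (x - x₀) - s • ν := by module
    rw [e]
    refine (norm_sub_le _ _).trans_lt ?_
    rw [norm_smul, hν, Real.norm_eq_abs, abs_of_nonneg hs0]
    linarith
  set s₁ := η x / (g / 2) with hs₁
  have hs₁0 : 0 ≤ s₁ := by positivity
  have hs₁ρ : s₁ < ρ / 2 := by
    rw [hs₁, div_lt_iff₀ (by positivity)]
    linarith
  have hlow : η (x - s₁ • ν) ≤ 0 := by
    have h1 := CNA_mono (F := η) (x := x) (ν := ν) (m := g / 2) hs₁0
      (fun s hs => (hall _ (hin s hs.1 (hs.2.trans_lt hs₁ρ))).2.2.2.1)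
      (fun s hs => (hall _ (hin s hs.1 (hs.2.trans_lt hs₁ρ))).2.1.le)
    have h2 : g / 2 * s₁ = η x := by
      rw [hs₁]; field_simp
    linarith
  have hcont : ContinuousOn (fun s : ℝ => η (x - s • ν)) (Icc 0 s₁) := by
    intro s hs
    have h1 : ContinuousAt η (x - s • ν) :=
      (hall _ (hin s hs.1 (hs.2.trans_lt hs₁ρ))).2.2.2.1.continuousAt
    have h2 : ContinuousAt (fun s : ℝ => x - s • ν) s := by fun_prop
    exact (ContinuousAt.comp (f := fun s : ℝ => x - s • ν) h1 h2).continuousWithinAt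
  obtain ⟨s, hs, hs0⟩ := intermediate_value_Icc' hs₁0 hcont
    (show (0 : ℝ) ∈ Icc (η (x - s₁ • ν)) (η (x - (0 : ℝ) • ν)) from
      ⟨hlow, by simpa using hx0⟩)
  have hsρ : ∀ t ∈ Icc (0 : ℝ) s, x - t • ν ∈ ball x₀ ρ := fun t ht =>
    hin t ht.1 ((ht.2.trans hs.2).trans_lt hs₁ρ)
  have h1 := CNA_mono (F := fun x => w x - c * η x) (x := x) (ν := ν) (m := 0) hs.1
    (fun t ht => ((hall _ (hsρ t ht)).2.2.1).sub (((hall _ (hsρ t ht)).2.2.2.1).const_mul c))
    (fun t ht => by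
      have h2 := (hall _ (hsρ t ht)).2.2.1
      have h3 := (hall _ (hsρ t ht)).2.2.2.1
      have h4 : fderiv ℝ (fun x => w x - c * η x) (x - t • ν)
          = fderiv ℝ w (x - t • ν) - c • fderiv ℝ η (x - t • ν) :=
        (h2.hasFDerivAt.sub (h3.hasFDerivAt.const_mul c)).fderiv
      rw [h4]
      simp only [sub_apply, smul_apply, smul_eq_mul]
      exact (hall _ (hsρ t ht)).1.le)
  have h5 := (hall _ (hsρ s (right_mem_Icc.2 hs.1))).2.2.2.2 hs0
  simp only at h1 hs0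
  rw [h5, hs0] at h1
  linarith

end Pool.Agent.H99.SC
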