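import Pool.Agent.H99.SC.CAL

/-!
# CNB: the barrier of the corner lemma

`ξ, η` C^2 near `x₀`, both 0 at `x₀`; vectors `p, q` with `Dξ p > 0 = Dη p`,
`Dη q > 0 = Dξ q` at `x₀`; coefficients differentiable at `x₀`, positive definite at `x₀`, with
`A ξ_0 η_0 + B (ξ_0 η_1 + ξ_1 η_0) + C ξ_1 η_1 = 0` at `x₀` (`ξ_0 = Dξ(x₀) e0` etc.).

`lin`: near `x₀`: `|x - x₀| <= M (|ξ x| + |η x|)`  (`v ↦ (Dξ v, Dη v)` is injective on V2, so
`|Dξ v| + |Dη v| >= c |v|`, and `ξ x = Dξ (x-x₀) + o(|x-x₀|)`).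
`barrier`: `v = (ξ + a ξ^2)(η + a η^2)` satisfies `Ell v > K |Dv|` on `{ξ > 0, η > 0}` near `x₀` for a
suitable `a > 0`.
Proof.  `β = A ξ_0 η_0 + B (..) + C ξ_1 η_1` (with `ξ_i = Dξ(x) e_i`) vanishes at `x₀`, `A, B, C` are
differentiable at `x₀` and `Dξ, Dη` are C^1, so `|β x| <= M1 |x - x₀| <= M' (ξ + η)` where `ξ, η >= 0`.
`Ell v = (1+2aξ)(η+aη^2) Ell ξ + 2a(η+aη^2)[A ξ_0^2+2B ξ_0 ξ_1+C ξ_1^2] + 2(1+2aξ)(1+2aη) β
 + (ξ+aξ^2)(1+2aη) Ell η + 2a(ξ+aξ^2)[A η_0^2+2B η_0 η_1+C η_1^2]`.  The brackets are `>= l > 0` near `x₀`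
(`Dξ, Dη ≠ 0`, positive definite), `Ell ξ, Ell η` are bounded near `x₀` (`D2 ξ` continuous, coefficients
bounded).  If `aξ, aη <= 1` (true near `x₀`, the neighbourhood depending on `a`) then
`Ell v >= (2 a l - C1)(ξ + η)` and `|K| |Dv| <= C1 (ξ + η)` (`Dv = (1+2aξ)(η+aη^2) Dξ + (1+2aη)(ξ+aξ^2) Dη`)
with `C1` independent of `a`.  Take `a > C1 / l`.
(The formula for `Ell v` comes from `D2 (fun x => P x * Q x) x b c = D2 P x b c * Q x + DP b * DQ c +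
DP c * DQ b + P x * D2 Q x b c` with `P = ξ + a ξ^2`, `DP = (1+2aξ) Dξ`,
`D2 P b c = (1+2aξ) D2 ξ b c + 2 a Dξ b * Dξ c`.)
-/

set_option autoImplicit false

open scoped RealInnerProductSpace Topology
open Metric Filter Set

noncomputable section

namespace Pool.Agent.H99.SC

theorem D2_mul {P Q : V2 → ℝ} {x : V2} (hP : ContDiffAt ℝ 2 P x) (hQ : ContDiffAt ℝ 2 Q x)
    (b c : V2) : D2 (fun y => P y * Q y) x b c
      = D2 P x b c * Q x + fderiv ℝ P x b * fderiv ℝ Q x c + fderiv ℝ P x c * fderiv ℝ Q x b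
        + P x * D2 Q x b c := by
  have eP : ∀ᶠ y in 𝓝 x, DifferentiableAt ℝ P y :=
    (hP.eventually (by simp)).mono fun y hy => hy.differentiableAt (by norm_num)
  have eQ : ∀ᶠ y in 𝓝 x, DifferentiableAt ℝ Q y :=
    (hQ.eventually (by simp)).mono fun y hy => hy.differentiableAt (by norm_num)
  have h1 : fderiv ℝ (fun y => P y * Q y) =ᶠ[𝓝 x]
      fun y => P y • fderiv ℝ Q y + Q y • fderiv ℝ P y := by
    filter_upwards [eP, eQ] with y h1 h2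
    exact fderiv_fun_mul h1 h2
  have dP : HasFDerivAt P (fderiv ℝ P x) x := (hP.differentiableAt (by norm_num)).hasFDerivAt
  have dQ : HasFDerivAt Q (fderiv ℝ Q x) x := (hQ.differentiableAt (by norm_num)).hasFDerivAt
  have dP' : HasFDerivAt (fderiv ℝ P) (fderiv ℝ (fderiv ℝ P) x) x :=
    ((contDiffAt_fderiv hP).differentiableAt (by norm_num)).hasFDerivAt
  have dQ' : HasFDerivAt (fderiv ℝ Q) (fderiv ℝ (fderiv ℝ Q) x) x :=
    ((contDiffAt_fderiv hQ).differentiableAt (by norm_num)).hasFDerivAt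
  have h2 := ((dP.smul dQ').add (dQ.smul dP')).fderiv
  unfold D2
  rw [h1.fderiv_eq]
  change fderiv ℝ (fun y => P y • fderiv ℝ Q y + Q y • fderiv ℝ P y) x b c = _
  have h3 : fderiv ℝ (fun y => P y • fderiv ℝ Q y + Q y • fderiv ℝ P y) x = _ := h2
  rw [h3]
  simp only [_root_.add_apply, _root_.smul_apply,
    ContinuousLinearMap.smulRight_apply, smul_eq_mul]
  ring

theorem CNB_sq {ξ : V2 → ℝ} {x : V2} (hξ : ContDiffAt ℝ 2 ξ x) (a : ℝ) :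
    ContDiffAt ℝ 2 (fun y => ξ y + a * ξ y ^ 2) x ∧
      fderiv ℝ (fun y => ξ y + a * ξ y ^ 2) x = (1 + 2 * a * ξ x) • fderiv ℝ ξ x ∧
      ∀ b c : V2, D2 (fun y => ξ y + a * ξ y ^ 2) x b c =
        (1 + 2 * a * ξ x) * D2 ξ x b c + 2 * a * (fderiv ℝ ξ x b * fderiv ℝ ξ x c) := by
  have hd : ∀ y, DifferentiableAt ℝ ξ y →
      fderiv ℝ (fun y => ξ y + a * ξ y ^ 2) y = (1 + 2 * a * ξ y) • fderiv ℝ ξ y := by
    intro y hy
    have h := (hy.hasFDerivAt.add ((hy.hasFDerivAt.pow 2).const_mul a)).fderiv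
    have h' : fderiv ℝ (fun y => ξ y + a * ξ y ^ 2) y = _ := h
    rw [h']
    ext v
    simp
    ring
  have eξ : ∀ᶠ y in 𝓝 x, DifferentiableAt ℝ ξ y :=
    (hξ.eventually (by simp)).mono fun y hy => hy.differentiableAt (by norm_num)
  have dx : HasFDerivAt ξ (fderiv ℝ ξ x) x := (hξ.differentiableAt (by norm_num)).hasFDerivAt
  have dx' : HasFDerivAt (fderiv ℝ ξ) (fderiv ℝ (fderiv ℝ ξ) x) x :=
    ((contDiffAt_fderiv hξ).differentiableAt (by norm_num)).hasFDerivAt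
  refine ⟨hξ.add (contDiffAt_const.mul (hξ.pow 2)), hd x dx.differentiableAt, fun b c => ?_⟩
  have h1 : fderiv ℝ (fun y => ξ y + a * ξ y ^ 2) =ᶠ[𝓝 x]
      fun y => (1 + 2 * a * ξ y) • fderiv ℝ ξ y := eξ.mono hd
  have h2 := (((dx.const_mul (2 * a)).const_add 1).smul dx').fderiv
  have h3 : fderiv ℝ (fun y => (1 + 2 * a * ξ y) • fderiv ℝ ξ y) x = _ := h2
  unfold D2
  rw [h1.fderiv_eq, h3]
  simp only [_root_.add_apply, _root_.smul_apply,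
    ContinuousLinearMap.smulRight_apply, smul_eq_mul]
  ring

theorem lin {ξ η : V2 → ℝ} {x₀ p q : V2}
    (hξ : ContDiffAt ℝ 1 ξ x₀) (hη : ContDiffAt ℝ 1 η x₀) (hξ0 : ξ x₀ = 0) (hη0 : η x₀ = 0)
    (hξp : 0 < fderiv ℝ ξ x₀ p) (hξq : fderiv ℝ ξ x₀ q = 0)
    (hηp : fderiv ℝ η x₀ p = 0) (hηq : 0 < fderiv ℝ η x₀ q) :
    ∃ M : ℝ, 0 < M ∧ ∀ᶠ x in 𝓝 x₀, ‖x - x₀‖ ≤ M * (|ξ x| + |η x|) := by
  set T : V2 →L[ℝ] ℝ × ℝ := (fderiv ℝ ξ x₀).prod (fderiv ℝ η x₀) with hT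
  have hsurj : Function.Surjective (T : V2 →ₗ[ℝ] ℝ × ℝ) := by
    rintro ⟨s, t⟩
    refine ⟨(s / fderiv ℝ ξ x₀ p) • p + (t / fderiv ℝ η x₀ q) • q, ?_⟩
    have h1 := hξp.ne'
    have h2 := hηq.ne'
    ext
    · simp [hT, hξq]
      field_simp
    · simp [hT, hηp]
      field_simp
  have hinj : Function.Injective (T : V2 →ₗ[ℝ] ℝ × ℝ) := by
    rw [LinearMap.injective_iff_surjective_of_finrank_eq_finrank (by simp)]
    exact hsurj
  obtain ⟨K, hK, hKT⟩ := LinearMap.exists_antilipschitzWith (T : V2 →ₗ[ℝ] ℝ × ℝ)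
    (LinearMap.ker_eq_bot.2 hinj)
  have hKr : (0:ℝ) < K := hK
  have hle : ∀ v : V2, ‖v‖ ≤ K * (|fderiv ℝ ξ x₀ v| + |fderiv ℝ η x₀ v|) := by
    intro v
    have h1 := hKT.le_mul_dist v 0
    rw [dist_zero_right, map_zero, dist_zero_right] at h1
    refine h1.trans (mul_le_mul_of_nonneg_left ?_ hKr.le)
    have h2 : (T : V2 →ₗ[ℝ] ℝ × ℝ) v = (fderiv ℝ ξ x₀ v, fderiv ℝ η x₀ v) := rfl
    rw [h2, Prod.norm_def]
    simp only [Real.norm_eq_abs]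
    exact max_le (by linarith [abs_nonneg (fderiv ℝ η x₀ v)])
      (by linarith [abs_nonneg (fderiv ℝ ξ x₀ v)])
  have hε : (0:ℝ) < 1 / (4 * K) := by positivity
  have d1 := (hξ.differentiableAt (by norm_num)).hasFDerivAt.isLittleO.def hε
  have d2 := (hη.differentiableAt (by norm_num)).hasFDerivAt.isLittleO.def hε
  refine ⟨2 * K, by positivity, ?_⟩
  filter_upwards [d1, d2] with x h1 h2
  rw [hξ0, sub_zero, Real.norm_eq_abs] at h1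
  rw [hη0, sub_zero, Real.norm_eq_abs] at h2
  have h3 := hle (x - x₀)
  have h4 : |fderiv ℝ ξ x₀ (x - x₀)| ≤ |ξ x| + 1 / (4 * K) * ‖x - x₀‖ := by
    have := abs_sub_abs_le_abs_sub (fderiv ℝ ξ x₀ (x - x₀)) (ξ x)
    rw [abs_sub_comm] at this
    linarith
  have h5 : |fderiv ℝ η x₀ (x - x₀)| ≤ |η x| + 1 / (4 * K) * ‖x - x₀‖ := by
    have := abs_sub_abs_le_abs_sub (fderiv ℝ η x₀ (x - x₀)) (η x)
    rw [abs_sub_comm] at this
    linarith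
  have h6 : K * (|fderiv ℝ ξ x₀ (x - x₀)| + |fderiv ℝ η x₀ (x - x₀)|) ≤
      K * (|ξ x| + |η x| + 1 / (2 * K) * ‖x - x₀‖) := by
    apply mul_le_mul_of_nonneg_left _ hKr.le
    have : 1 / (4 * (K:ℝ)) * ‖x - x₀‖ + 1 / (4 * K) * ‖x - x₀‖ = 1 / (2 * K) * ‖x - x₀‖ := by
      field_simp
      ring
    linarith
  have h7 : K * (|ξ x| + |η x| + 1 / (2 * K) * ‖x - x₀‖) =
      K * (|ξ x| + |η x|) + ‖x - x₀‖ / 2 := by
    field_simp
  linarith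

/-- positivity of the quadratic form of positive definite coefficients -/
theorem CNB_pos {A B C s t : ℝ} (hA : 0 < A) (hABC : B ^ 2 < A * C) (h : s ≠ 0 ∨ t ≠ 0) :
    0 < A * s ^ 2 + 2 * B * (s * t) + C * t ^ 2 := by
  have h1 : A * (A * s ^ 2 + 2 * B * (s * t) + C * t ^ 2) =
      (A * s + B * t) ^ 2 + (A * C - B ^ 2) * t ^ 2 := by ring
  have h2 : 0 < A * (A * s ^ 2 + 2 * B * (s * t) + C * t ^ 2) := by
    rw [h1]
    by_cases ht : t = 0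
    · have hs : s ≠ 0 := by
        rcases h with h | h
        · exact h
        · exact absurd ht h
      subst ht
      have : 0 < (A * s) ^ 2 := by positivity
      nlinarith
    · have h3 : 0 < (A * C - B ^ 2) * t ^ 2 := mul_pos (by linarith) (by positivity)
      have h4 := sq_nonneg (A * s + B * t)
      linarith
  exact (mul_pos_iff_of_pos_left hA).1 h2

/-- the form near the point, and a bound for `Ell` and the derivative -/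
theorem CNB_local {A B C ξ : V2 → ℝ} {x₀ p : V2} (hξ : ContDiffAt ℝ 2 ξ x₀)
    (hξp : 0 < fderiv ℝ ξ x₀ p)
    (hA : ContinuousAt A x₀) (hB : ContinuousAt B x₀) (hC : ContinuousAt C x₀)
    (hAp : 0 < A x₀) (hABC : B x₀ ^ 2 < A x₀ * C x₀) :
    ∃ l C0 : ℝ, 0 < l ∧ 0 < C0 ∧ ∀ᶠ x in 𝓝 x₀,
      l ≤ A x * fderiv ℝ ξ x e0 ^ 2 + 2 * B x * (fderiv ℝ ξ x e0 * fderiv ℝ ξ x e1)
        + C x * fderiv ℝ ξ x e1 ^ 2 ∧ |Ell A B C ξ x| ≤ C0 ∧ ‖fderiv ℝ ξ x‖ ≤ C0 := by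
  have c1 : ContinuousAt (fderiv ℝ ξ) x₀ := (contDiffAt_fderiv hξ).continuousAt
  have c2 : ContinuousAt (fderiv ℝ (fderiv ℝ ξ)) x₀ :=
    ((contDiffAt_fderiv hξ).fderiv_right (m := 0) (by norm_num)).continuousAt
  have c3 : ∀ v : V2, ContinuousAt (fun x => fderiv ℝ ξ x v) x₀ := fun v =>
    c1.clm_apply continuousAt_const
  have c4 : ∀ v w : V2, ContinuousAt (fun x => D2 ξ x v w) x₀ := fun v w =>
    (c2.clm_apply continuousAt_const).clm_apply continuousAt_const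
  have cF : ContinuousAt (fun x => A x * fderiv ℝ ξ x e0 ^ 2
      + 2 * B x * (fderiv ℝ ξ x e0 * fderiv ℝ ξ x e1) + C x * fderiv ℝ ξ x e1 ^ 2) x₀ :=
    ((hA.mul ((c3 e0).pow 2)).add ((hB.const_mul 2).mul ((c3 e0).mul (c3 e1)))).add
      (hC.mul ((c3 e1).pow 2))
  have cE : ContinuousAt (fun x => Ell A B C ξ x) x₀ := by
    unfold Ell
    exact ((hA.mul (c4 e0 e0)).add ((hB.const_mul 2).mul (c4 e0 e1))).add (hC.mul (c4 e1 e1))
  have hpos := CNB_pos (s := fderiv ℝ ξ x₀ e0) (t := fderiv ℝ ξ x₀ e1) hAp hABC (by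
    by_contra hcon
    push Not at hcon
    have h1 : fderiv ℝ ξ x₀ p = 0 := by
      rw [V2_decomp p, map_add, map_smul, map_smul, hcon.1, hcon.2]
      simp
    linarith)
  set l0 := A x₀ * fderiv ℝ ξ x₀ e0 ^ 2 + 2 * B x₀ * (fderiv ℝ ξ x₀ e0 * fderiv ℝ ξ x₀ e1)
    + C x₀ * fderiv ℝ ξ x₀ e1 ^ 2 with hl0
  refine ⟨l0 / 2, |Ell A B C ξ x₀| + ‖fderiv ℝ ξ x₀‖ + 1, by linarith, by positivity, ?_⟩
  have h1 := cF.eventually (lt_mem_nhds (show l0 / 2 < l0 by linarith))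
  have h2 := cE.abs.eventually (gt_mem_nhds
    (show |Ell A B C ξ x₀| < |Ell A B C ξ x₀| + 1 by linarith))
  have h3 := c1.norm.eventually (gt_mem_nhds
    (show ‖fderiv ℝ ξ x₀‖ < ‖fderiv ℝ ξ x₀‖ + 1 by linarith))
  filter_upwards [h1, h2, h3] with x h1 h2 h3
  refine ⟨h1.le, ?_, ?_⟩
  · have := norm_nonneg (fderiv ℝ ξ x₀)
    linarith
  · have := abs_nonneg (Ell A B C ξ x₀)
    linarith

/-- the mixed form is Lipschitz -/
theorem CNB_beta {A B C ξ η : V2 → ℝ} {x₀ : V2}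
    (hξ : ContDiffAt ℝ 2 ξ x₀) (hη : ContDiffAt ℝ 2 η x₀)
    (hA : DifferentiableAt ℝ A x₀) (hB : DifferentiableAt ℝ B x₀) (hC : DifferentiableAt ℝ C x₀)
    (horth : A x₀ * (fderiv ℝ ξ x₀ e0 * fderiv ℝ η x₀ e0)
      + B x₀ * (fderiv ℝ ξ x₀ e0 * fderiv ℝ η x₀ e1 + fderiv ℝ ξ x₀ e1 * fderiv ℝ η x₀ e0)
      + C x₀ * (fderiv ℝ ξ x₀ e1 * fderiv ℝ η x₀ e1) = 0) :
    ∃ M : ℝ, 0 < M ∧ ∀ᶠ x in 𝓝 x₀, |A x * (fderiv ℝ ξ x e0 * fderiv ℝ η x e0)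
      + B x * (fderiv ℝ ξ x e0 * fderiv ℝ η x e1 + fderiv ℝ ξ x e1 * fderiv ℝ η x e0)
      + C x * (fderiv ℝ ξ x e1 * fderiv ℝ η x e1)| ≤ M * ‖x - x₀‖ := by
  have d1 : DifferentiableAt ℝ (fderiv ℝ ξ) x₀ :=
    (contDiffAt_fderiv hξ).differentiableAt (by norm_num)
  have d2 : DifferentiableAt ℝ (fderiv ℝ η) x₀ :=
    (contDiffAt_fderiv hη).differentiableAt (by norm_num)
  have d3 : ∀ v : V2, DifferentiableAt ℝ (fun x => fderiv ℝ ξ x v) x₀ := fun v =>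
    d1.clm_apply (differentiableAt_const v)
  have d4 : ∀ v : V2, DifferentiableAt ℝ (fun x => fderiv ℝ η x v) x₀ := fun v =>
    d2.clm_apply (differentiableAt_const v)
  have dβ : DifferentiableAt ℝ (fun x => A x * (fderiv ℝ ξ x e0 * fderiv ℝ η x e0)
      + B x * (fderiv ℝ ξ x e0 * fderiv ℝ η x e1 + fderiv ℝ ξ x e1 * fderiv ℝ η x e0)
      + C x * (fderiv ℝ ξ x e1 * fderiv ℝ η x e1)) x₀ :=
    ((hA.mul ((d3 e0).mul (d4 e0))).add (hB.mul (((d3 e0).mul (d4 e1)).add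
      ((d3 e1).mul (d4 e0))))).add (hC.mul ((d3 e1).mul (d4 e1)))
  obtain ⟨c, hc, h⟩ := dβ.isBigO_sub.exists_pos
  refine ⟨c, hc, h.bound.mono fun x hx => ?_⟩
  rw [horth, sub_zero, Real.norm_eq_abs] at hx
  exact hx

theorem CNB_PQ {a X : ℝ} (ha : 0 < a) (hX : 0 < X) (h : a * X < 1) :
    X ≤ X + a * X ^ 2 ∧ X + a * X ^ 2 ≤ 2 * X := by
  have h1 : a * X ^ 2 = (a * X) * X := by ring
  have h2 : 0 < (a * X) * X := mul_pos (mul_pos ha hX) hX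
  have h3 : (a * X) * X ≤ 1 * X := mul_le_mul_of_nonneg_right h.le hX.le
  constructor
  · rw [h1]; linarith
  · rw [h1]; linarith

/-- the arithmetic of the barrier -/
theorem CNB_arith {a l C0 M2 K X Y P Q F1 F2 E1 E2 β nD : ℝ} (ha : 0 < a) (hC0 : 0 < C0)
    (hM2 : 0 < M2) (hal : 2 * a * l = 3 * C0 + 18 * M2 + 6 * (|K| * C0) + 1)
    (hX : 0 < X) (hY : 0 < Y) (hX1 : a * X < 1) (hY1 : a * Y < 1)
    (hP : X ≤ P) (hQ : Y ≤ Q) (hβ : |β| ≤ M2 * (X + Y)) (hE1 : -C0 ≤ E1) (hE2 : -C0 ≤ E2)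
    (hF1 : l ≤ F1) (hF2 : l ≤ F2) (hn : 0 ≤ nD) (hnD : nD ≤ 6 * C0 * (X + Y)) :
    K * nD < Q * ((1 + 2 * a * X) * E1 + 2 * a * F1)
        + 2 * ((1 + 2 * a * X) * (1 + 2 * a * Y)) * β
        + P * ((1 + 2 * a * Y) * E2 + 2 * a * F2) := by
  have aX : 0 < a * X := mul_pos ha hX
  have aY : 0 < a * Y := mul_pos ha hY
  have b1 : 2 * a * l - 3 * C0 ≤ (1 + 2 * a * X) * E1 + 2 * a * F1 := by
    have t1 : (1 + 2 * a * X) * (-C0) ≤ (1 + 2 * a * X) * E1 :=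
      mul_le_mul_of_nonneg_left hE1 (by linarith)
    have t2 : (2 * a) * l ≤ (2 * a) * F1 := mul_le_mul_of_nonneg_left hF1 (by linarith)
    have t3 : (1 + 2 * a * X) * C0 ≤ 3 * C0 := mul_le_mul_of_nonneg_right (by linarith) hC0.le
    linarith
  have b2 : 2 * a * l - 3 * C0 ≤ (1 + 2 * a * Y) * E2 + 2 * a * F2 := by
    have t1 : (1 + 2 * a * Y) * (-C0) ≤ (1 + 2 * a * Y) * E2 :=
      mul_le_mul_of_nonneg_left hE2 (by linarith)
    have t2 : (2 * a) * l ≤ (2 * a) * F2 := mul_le_mul_of_nonneg_left hF2 (by linarith)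
    have t3 : (1 + 2 * a * Y) * C0 ≤ 3 * C0 := mul_le_mul_of_nonneg_right (by linarith) hC0.le
    linarith
  have hK : 0 ≤ |K| * C0 := mul_nonneg (abs_nonneg _) hC0.le
  obtain ⟨G, hG⟩ : ∃ G : ℝ, G = 2 * a * l - 3 * C0 := ⟨_, rfl⟩
  rw [← hG] at b1 b2
  have hGpos : 0 < G := by rw [hG, hal]; linarith
  have c1 : Y * G ≤ Q * ((1 + 2 * a * X) * E1 + 2 * a * F1) :=
    mul_le_mul hQ b1 hGpos.le (by linarith)
  have c2 : X * G ≤ P * ((1 + 2 * a * Y) * E2 + 2 * a * F2) :=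
    mul_le_mul hP b2 hGpos.le (by linarith)
  have c3 : -(18 * (M2 * (X + Y))) ≤ 2 * ((1 + 2 * a * X) * (1 + 2 * a * Y)) * β := by
    have t0 : 0 < 2 * ((1 + 2 * a * X) * (1 + 2 * a * Y)) :=
      mul_pos two_pos (mul_pos (by linarith) (by linarith))
    have t1 : |2 * ((1 + 2 * a * X) * (1 + 2 * a * Y)) * β| ≤ 18 * (M2 * (X + Y)) := by
      rw [abs_mul, abs_of_pos t0]
      have t2 : (1 + 2 * a * X) * (1 + 2 * a * Y) ≤ 3 * 3 :=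
        mul_le_mul (by linarith) (by linarith) (by linarith) (by norm_num)
      exact mul_le_mul (by linarith) hβ (abs_nonneg _) (by norm_num)
    exact (abs_le.1 t1).1
  have c4 : K * nD ≤ |K| * (6 * C0 * (X + Y)) :=
    (mul_le_mul_of_nonneg_right (le_abs_self K) hn).trans
      (mul_le_mul_of_nonneg_left hnD (abs_nonneg K))
  have c5 : |K| * (6 * C0 * (X + Y)) = (X + Y) * (6 * (|K| * C0)) := by ring
  have c6 : G - 18 * M2 = 6 * (|K| * C0) + 1 := by rw [hG, hal]; ring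
  have c7 : (X + Y) * (G - 18 * M2) = Y * G + -(18 * (M2 * (X + Y))) + X * G := by ring
  have c8 : (X + Y) * (G - 18 * M2) = (X + Y) * (6 * (|K| * C0)) + (X + Y) := by
    rw [c6]; ring
  linarith

/-- the formula for `Ell` of the barrier -/
theorem CNB_ell {A B C ξ η : V2 → ℝ} {x : V2} (h5 : ContDiffAt ℝ 2 ξ x) (h6 : ContDiffAt ℝ 2 η x)
    (a : ℝ) : Ell A B C (fun y => (ξ y + a * ξ y ^ 2) * (η y + a * η y ^ 2)) x =
      (η x + a * η x ^ 2) * ((1 + 2 * a * ξ x) * Ell A B C ξ x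
          + 2 * a * (A x * fderiv ℝ ξ x e0 ^ 2 + 2 * B x * (fderiv ℝ ξ x e0 * fderiv ℝ ξ x e1)
        + C x * fderiv ℝ ξ x e1 ^ 2))
        + 2 * ((1 + 2 * a * ξ x) * (1 + 2 * a * η x)) * (A x * (fderiv ℝ ξ x e0 * fderiv ℝ η x e0)
      + B x * (fderiv ℝ ξ x e0 * fderiv ℝ η x e1 + fderiv ℝ ξ x e1 * fderiv ℝ η x e0)
      + C x * (fderiv ℝ ξ x e1 * fderiv ℝ η x e1))
        + (ξ x + a * ξ x ^ 2) * ((1 + 2 * a * η x) * Ell A B C η x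
          + 2 * a * (A x * fderiv ℝ η x e0 ^ 2 + 2 * B x * (fderiv ℝ η x e0 * fderiv ℝ η x e1)
        + C x * fderiv ℝ η x e1 ^ 2)) := by
  obtain ⟨sP, fP, dP⟩ := CNB_sq h5 a
  obtain ⟨sQ, fQ, dQ⟩ := CNB_sq h6 a
  have t1 : ∀ b c : V2, D2 (fun y => (ξ y + a * ξ y ^ 2) * (η y + a * η y ^ 2)) x b c =
      ((1 + 2 * a * ξ x) * D2 ξ x b c + 2 * a * (fderiv ℝ ξ x b * fderiv ℝ ξ x c))
          * (η x + a * η x ^ 2)
      + ((1 + 2 * a * ξ x) * fderiv ℝ ξ x b) * ((1 + 2 * a * η x) * fderiv ℝ η x c)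
      + ((1 + 2 * a * ξ x) * fderiv ℝ ξ x c) * ((1 + 2 * a * η x) * fderiv ℝ η x b)
      + (ξ x + a * ξ x ^ 2) * ((1 + 2 * a * η x) * D2 η x b c
          + 2 * a * (fderiv ℝ η x b * fderiv ℝ η x c)) := by
    intro b c
    rw [D2_mul sP sQ, dP, dQ, fP, fQ]
    rfl
  unfold Ell
  rw [t1, t1, t1]
  ring

/-- bound of the derivative of the barrier -/
theorem CNB_nD {ξ η : V2 → ℝ} {x : V2} (h5 : ContDiffAt ℝ 2 ξ x) (h6 : ContDiffAt ℝ 2 η x)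
    {a C0 : ℝ} (ha : 0 < a) (hC0 : 0 < C0) (hx : 0 < ξ x) (hy : 0 < η x) (h3 : a * ξ x < 1)
    (h4 : a * η x < 1) (n5 : ‖fderiv ℝ ξ x‖ ≤ C0) (n6 : ‖fderiv ℝ η x‖ ≤ C0) :
    ‖fderiv ℝ (fun y => (ξ y + a * ξ y ^ 2) * (η y + a * η y ^ 2)) x‖
      ≤ 6 * C0 * (ξ x + η x) := by
  obtain ⟨sP, fP, dP⟩ := CNB_sq h5 a
  obtain ⟨sQ, fQ, dQ⟩ := CNB_sq h6 a
  have aX : 0 < a * ξ x := mul_pos ha hx
  have aY : 0 < a * η x := mul_pos ha hy
  obtain ⟨P1, P2⟩ := CNB_PQ ha hx h3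
  obtain ⟨Q1, Q2⟩ := CNB_PQ ha hy h4
  rw [fderiv_fun_mul (sP.differentiableAt (by norm_num)) (sQ.differentiableAt (by norm_num)),
    fP, fQ]
  refine (norm_add_le _ _).trans ?_
  rw [norm_smul, norm_smul, norm_smul, norm_smul, Real.norm_eq_abs, Real.norm_eq_abs,
    Real.norm_eq_abs, Real.norm_eq_abs]
  have n1 : |1 + 2 * a * η x| ≤ 3 := by rw [abs_of_pos (by linarith)]; linarith
  have n2 : |1 + 2 * a * ξ x| ≤ 3 := by rw [abs_of_pos (by linarith)]; linarith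
  have n3 : |ξ x + a * ξ x ^ 2| ≤ 2 * ξ x := by
    rw [abs_of_pos (by linarith)]
    exact P2
  have n4 : |η x + a * η x ^ 2| ≤ 2 * η x := by
    rw [abs_of_pos (by linarith)]
    exact Q2
  have m1 : |ξ x + a * ξ x ^ 2| * (|1 + 2 * a * η x| * ‖fderiv ℝ η x‖) ≤ (2 * ξ x) * (3 * C0) :=
    mul_le_mul n3 (mul_le_mul n1 n6 (norm_nonneg _) (by norm_num))
      (mul_nonneg (abs_nonneg _) (norm_nonneg _)) (by linarith)
  have m2 : |η x + a * η x ^ 2| * (|1 + 2 * a * ξ x| * ‖fderiv ℝ ξ x‖) ≤ (2 * η x) * (3 * C0) :=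
    mul_le_mul n4 (mul_le_mul n2 n5 (norm_nonneg _) (by norm_num))
      (mul_nonneg (abs_nonneg _) (norm_nonneg _)) (by linarith)
  linarith

theorem barrier {A B C ξ η : V2 → ℝ} {x₀ p q : V2} (K : ℝ)
    (hξ : ContDiffAt ℝ 2 ξ x₀) (hη : ContDiffAt ℝ 2 η x₀) (hξ0 : ξ x₀ = 0) (hη0 : η x₀ = 0)
    (hξp : 0 < fderiv ℝ ξ x₀ p) (hξq : fderiv ℝ ξ x₀ q = 0)
    (hηp : fderiv ℝ η x₀ p = 0) (hηq : 0 < fderiv ℝ η x₀ q)
    (hA : DifferentiableAt ℝ A x₀) (hB : DifferentiableAt ℝ B x₀) (hC : DifferentiableAt ℝ C x₀)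
    (hAp : 0 < A x₀) (hABC : B x₀ ^ 2 < A x₀ * C x₀)
    (horth : A x₀ * (fderiv ℝ ξ x₀ e0 * fderiv ℝ η x₀ e0)
      + B x₀ * (fderiv ℝ ξ x₀ e0 * fderiv ℝ η x₀ e1 + fderiv ℝ ξ x₀ e1 * fderiv ℝ η x₀ e0)
      + C x₀ * (fderiv ℝ ξ x₀ e1 * fderiv ℝ η x₀ e1) = 0) :
    ∃ a : ℝ, 0 < a ∧ ∀ᶠ x in 𝓝 x₀, 0 < ξ x → 0 < η x →
      K * ‖fderiv ℝ (fun y => (ξ y + a * ξ y ^ 2) * (η y + a * η y ^ 2)) x‖
        < Ell A B C (fun y => (ξ y + a * ξ y ^ 2) * (η y + a * η y ^ 2)) x := by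
  obtain ⟨M, hM, eM⟩ := lin (hξ.of_le (by norm_num)) (hη.of_le (by norm_num)) hξ0 hη0
    hξp hξq hηp hηq
  obtain ⟨M1, hM1, eβ⟩ := CNB_beta hξ hη hA hB hC horth
  obtain ⟨l1, C1, hl1, hC1, ev1⟩ := CNB_local (p := p) hξ hξp hA.continuousAt hB.continuousAt
    hC.continuousAt hAp hABC
  obtain ⟨l2, C2, hl2, hC2, ev2⟩ := CNB_local (p := q) hη hηq hA.continuousAt hB.continuousAt
    hC.continuousAt hAp hABC
  set l := min l1 l2 with hl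
  set C0 := max C1 C2 with hC0
  have hlpos : 0 < l := lt_min hl1 hl2
  have hC0pos : 0 < C0 := lt_max_of_lt_left hC1
  set a := (3 * C0 + 18 * (M1 * M) + 6 * (|K| * C0) + 1) / (2 * l) with ha
  have hapos : 0 < a := by positivity
  have hal : 2 * a * l = 3 * C0 + 18 * (M1 * M) + 6 * (|K| * C0) + 1 := by
    rw [ha]
    field_simp
  refine ⟨a, hapos, ?_⟩
  have ev3 : ∀ᶠ x in 𝓝 x₀, a * ξ x < 1 := by
    have h : ContinuousAt (fun x => a * ξ x) x₀ := hξ.continuousAt.const_mul a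
    refine h.eventually (gt_mem_nhds ?_)
    simp only [hξ0]; simp
  have ev4 : ∀ᶠ x in 𝓝 x₀, a * η x < 1 := by
    have h : ContinuousAt (fun x => a * η x) x₀ := hη.continuousAt.const_mul a
    refine h.eventually (gt_mem_nhds ?_)
    simp only [hη0]; simp
  have ev5 := hξ.eventually (by simp)
  have ev6 := hη.eventually (by simp)
  filter_upwards [eM, eβ, ev1, ev2, ev3, ev4, ev5, ev6] with x hMx hβ h1 h2 h3 h4 h5 h6 hx hy
  obtain ⟨g1, g2, g3⟩ := h1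
  obtain ⟨k1, k2, k3⟩ := h2
  rw [abs_of_pos hx, abs_of_pos hy] at hMx
  rw [CNB_ell h5 h6]
  refine CNB_arith hapos hC0pos (mul_pos hM1 hM) hal hx hy h3 h4 (CNB_PQ hapos hx h3).1
    (CNB_PQ hapos hy h4).1 ?_ ?_ ?_ ((min_le_left _ _).trans g1) ((min_le_right _ _).trans k1)
    (norm_nonneg _) (CNB_nD h5 h6 hapos hC0pos hx hy h3 h4 (g3.trans (le_max_left _ _))
      (k3.trans (le_max_right _ _)))
  · calc _ ≤ M1 * ‖x - x₀‖ := hβ
      _ ≤ M1 * (M * (ξ x + η x)) := mul_le_mul_of_nonneg_left hMx hM1.le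
      _ = M1 * M * (ξ x + η x) := by ring
  · have := (abs_le.1 g2).1
    have := le_max_left C1 C2
    linarith
  · have := (abs_le.1 k2).1
    have := le_max_right C1 C2
    linarith

end Pool.Agent.H99.SC
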