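import Pool.Agent.H99.SC.CNA
import Pool.Agent.H99.SC.CNB

/-!
# CNC: the corner lemma (Serrin), for C^2 functions in the plane

`corner`.  `ξ, η` C^2 near `x₀`, both 0 at `x₀`; vectors `p, q` with `Dξ p > 0 = Dη p`,
`Dη q > 0 = Dξ q` at `x₀`; coefficients differentiable at `x₀`, positive definite at `x₀`, orthogonality
`horth`.  `w` C^2 near `x₀`, near `x₀`: `w > 0` on `{ξ > 0, η > 0}`, `w = 0` where `ξ = 0` or `η = 0`;
inequality on `{ξ > 0, η > 0}`; `Dw(x₀) = 0`, `D2 w x₀ p p = 0 = D2 w x₀ q q`.  Then `0 < D2 w x₀ p q`.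
Proof.  Let `v = (ξ + a ξ^2)(η + a η^2)` from `barrier` with `|K|`: `Ell v > |K| |Dv|` on
`{ξ > 0, η > 0}` in `ball x₀ ρ` (`ρ` small, everything needed holds there, also positive definiteness and
`aξ, aη <= 1`).  Let `R_r = {x in closedBall x₀ (ρ/2) : 0 <= ξ <= r, 0 <= η <= r}`, compact, contained
in `ball x₀ (ρ/2)` for small `r` (`lin`: `|x-x₀| <= 2 M r`).
 * On `{x in R_r : ξ = r}`: `w >= c η` for some `c > 0`: compactness; near a point with `η = 0` this is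
   `side` (there `ξ = r > 0`, so all hypotheses hold near this point); near a point with `η > 0`, `w > 0`.
   (Write: every point of this compact set has a neighbourhood and a `c > 0` such that `w >= c η` on it
   intersected with the set; finite subcover, `IsCompact.induction_on`.)  Since `v <= 4 r η` there,
   `w >= e v` for small `e > 0`.  Same on `{η = r}`.
 * On `{ξ = 0}` and `{η = 0}` (in `R_r`) both `w` and `v` vanish.
 * If `w - e v` has a negative minimum over `R_r`, it is at a point with `0 < ξ < r`, `0 < η < r`, in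
   `ball x₀ (ρ/2)`, hence a local minimum: `Dw = e Dv`, `0 <= Ell (w - e v)` there
   (`Ell_nonneg_of_isLocalMin`), so `Ell w >= e Ell v > e |K| |Dv| >= K |Dw|`: contradiction with `hdi`.
So `w >= e v` on `R_r`.  For `d = p + q` and small `s > 0`, `x₀ + s d` is in `R_r` (`Dξ d = Dξ p > 0`,
`Dη d = Dη q > 0`), so with `φ = w - e v`: `φ (x₀ + s d) >= 0` for small `s > 0`, `φ x₀ = 0`,
`Dφ x₀ = 0`, hence `D2 φ x₀ d d >= 0`, i.e.
`D2 w x₀ d d >= e D2 v x₀ d d = 2 e (Dξ d) (Dη d) = 2 e (Dξ p)(Dη q) > 0`.  By `hpp`, `hqq` and symmetry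
`D2 w x₀ d d = 2 D2 w x₀ p q`.
-/

set_option autoImplicit false

open scoped RealInnerProductSpace Topology
open Metric Filter Set

noncomputable section

namespace Pool.Agent.H99.SC

theorem CNC_line {ξ : V2 → ℝ} {x₀ d : V2} (h : DifferentiableAt ℝ ξ x₀) :
    HasDerivAt (fun s : ℝ => ξ (x₀ + s • d)) (fderiv ℝ ξ x₀ d) 0 := by
  have h1 : HasDerivAt (fun s : ℝ => x₀ + s • d) d 0 := by
    simpa using ((hasDerivAt_id (0 : ℝ)).smul_const d).const_add x₀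
  have h3 : HasFDerivAt ξ (fderiv ℝ ξ x₀) (x₀ + (0 : ℝ) • d) := by simpa using h.hasFDerivAt
  exact h3.comp_hasDerivAt 0 h1

theorem CNC_pos {ξ : V2 → ℝ} {x₀ d : V2} (h : DifferentiableAt ℝ ξ x₀) (h0 : ξ x₀ = 0)
    (hd : 0 < fderiv ℝ ξ x₀ d) : ∀ᶠ s : ℝ in 𝓝[>] 0, 0 < ξ (x₀ + s • d) := by
  have h2 := CNC_line (d := d) h
  have h4 := eventually_nhdsWithin_sign_eq_of_deriv_pos
    (f := fun s : ℝ => ξ (x₀ + s • d)) (x₀ := 0) (by rw [h2.deriv]; exact hd)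
    (by simpa using h0)
  filter_upwards [h4.filter_mono nhdsWithin_le_nhds, self_mem_nhdsWithin] with s hs hs0
  rw [sub_zero, sign_pos (show (0 : ℝ) < s from hs0)] at hs
  exact sign_eq_one_iff.1 hs

theorem CNC_second {φ : V2 → ℝ} {x₀ d : V2} (h : ContDiffAt ℝ 2 φ x₀) (h0 : φ x₀ = 0)
    (h1 : fderiv ℝ φ x₀ = 0) (hp : ∀ᶠ s : ℝ in 𝓝[>] 0, 0 ≤ φ (x₀ + s • d)) :
    0 ≤ D2 φ x₀ d d := by
  by_contra hneg
  push Not at hneg
  rw [← deriv_deriv_line h d] at hneg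
  set g : ℝ → ℝ := fun s => φ (x₀ + s • d) with hg
  have hgd : HasDerivAt g 0 0 := by
    have := CNC_line (d := d) (h.differentiableAt (by simp))
    rw [h1] at this
    simpa using this
  have h4 := eventually_nhdsWithin_sign_eq_of_deriv_neg (f := deriv g) (x₀ := 0) hneg hgd.deriv
  have h6 : ∀ᶠ s : ℝ in 𝓝[>] 0, deriv g s < 0 := by
    filter_upwards [h4.filter_mono nhdsWithin_le_nhds, self_mem_nhdsWithin] with s hs hs0
    rw [zero_sub, Left.sign_neg, sign_pos (show (0 : ℝ) < s from hs0)] at hs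
    exact sign_eq_neg_one_iff.1 hs
  obtain ⟨δ, hδ, hd⟩ := (mem_nhdsGT_iff_exists_Ioo_subset).1 (h6.and hp)
  have hδ0 : (0 : ℝ) < δ := hδ
  have hs : (0 : ℝ) < δ / 2 := by positivity
  have hm : δ / 2 ∈ Ioo 0 δ := ⟨hs, by linarith⟩
  obtain ⟨c, hc, hc'⟩ := exists_deriv_eq_slope g hs (by
    intro t ht
    rcases eq_or_lt_of_le ht.1 with h7 | h7
    · rw [← h7]; exact hgd.continuousAt.continuousWithinAt
    · have : deriv g t < 0 := (hd ⟨h7, by linarith [ht.2]⟩).1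
      exact (differentiableAt_of_deriv_ne_zero this.ne).continuousAt.continuousWithinAt)
    (by
      intro t ht
      have : deriv g t < 0 := (hd ⟨ht.1, by linarith [ht.2]⟩).1
      exact (differentiableAt_of_deriv_ne_zero this.ne).differentiableWithinAt)
  have h8 : deriv g c < 0 := (hd ⟨hc.1, by linarith [hc.2]⟩).1
  have h9 : 0 ≤ g (δ / 2) := (hd hm).2
  have h10 : g 0 = 0 := by simp [hg, h0]
  rw [hc', h10, sub_zero, sub_zero] at h8
  have : 0 ≤ g (δ / 2) / (δ / 2) := by positivity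
  linarith

theorem CNC_edge {A B C w η : V2 → ℝ} {S : Set V2} {K : ℝ} (hS : IsCompact S)
    (h : ∀ x ∈ S, ContDiffAt ℝ 2 η x ∧ fderiv ℝ η x ≠ 0 ∧ ContDiffAt ℝ 2 w x ∧
      ContinuousAt A x ∧ ContinuousAt B x ∧ ContinuousAt C x ∧ 0 < A x ∧ B x ^ 2 < A x * C x)
    (hη : ∀ x ∈ S, 0 ≤ η x) (h0 : ∀ x ∈ S, ∀ᶠ z in 𝓝 x, η z = 0 → w z = 0)
    (hp : ∀ x ∈ S, ∀ᶠ z in 𝓝 x, 0 < η z → 0 < w z)
    (hdi : ∀ x ∈ S, ∀ᶠ z in 𝓝 x, 0 < η z → Ell A B C w z ≤ K * ‖fderiv ℝ w z‖) :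
    ∃ c : ℝ, 0 < c ∧ ∀ x ∈ S, c * η x ≤ w x := by
  have key : ∃ c : ℝ, 0 < c ∧ ∀ x ∈ S, 0 ≤ η x → c * η x ≤ w x := by
    refine hS.induction_on (p := fun T => ∃ c : ℝ, 0 < c ∧ ∀ x ∈ T, 0 ≤ η x → c * η x ≤ w x)
      ⟨1, one_pos, fun x hx => absurd hx (notMem_empty x)⟩ ?_ ?_ ?_
    · rintro s t hst ⟨c, hc, hct⟩
      exact ⟨c, hc, fun x hx => hct x (hst hx)⟩
    · rintro s t ⟨c, hc, hcs⟩ ⟨c', hc', hct⟩
      refine ⟨min c c', lt_min hc hc', ?_⟩
      rintro x (hx | hx) hx0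
      · exact (mul_le_mul_of_nonneg_right (min_le_left _ _) hx0).trans (hcs x hx hx0)
      · exact (mul_le_mul_of_nonneg_right (min_le_right _ _) hx0).trans (hct x hx hx0)
    · intro x hx
      obtain ⟨a1, a2, a3, a4, a5, a6, a7, a8⟩ := h x hx
      have hev : ∃ c : ℝ, 0 < c ∧ ∀ᶠ z in 𝓝 x, 0 ≤ η z → c * η z ≤ w z := by
        rcases eq_or_lt_of_le (hη x hx) with h1 | h1
        · exact side a1 h1.symm a2 a3 (h0 x hx) (hp x hx) a4 a5 a6 a7 a8 (hdi x hx)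
        · have hw : 0 < w x := (hp x hx).self_of_nhds h1
          have c1 : ∀ᶠ z in 𝓝 x, w x / 2 < w z :=
            a3.continuousAt.eventually_const_lt (by linarith)
          have c2 : ∀ᶠ z in 𝓝 x, η z < η x + 1 :=
            a1.continuousAt.eventually_lt_const (by linarith)
          refine ⟨w x / 2 / (η x + 1), by positivity, ?_⟩
          filter_upwards [c1, c2] with z hz1 hz2 hz3
          calc w x / 2 / (η x + 1) * η z ≤ w x / 2 / (η x + 1) * (η x + 1) := by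
                apply mul_le_mul_of_nonneg_left hz2.le (by positivity)
            _ = w x / 2 := by field_simp
            _ ≤ w z := hz1.le
      obtain ⟨c, hc, hev⟩ := hev
      exact ⟨{z | 0 ≤ η z → c * η z ≤ w z}, mem_nhdsWithin_of_mem_nhds hev, c, hc,
        fun z hz => hz⟩
  obtain ⟨c, hc, hk⟩ := key
  exact ⟨c, hc, fun x hx => hk x hx (hη x hx)⟩

set_option maxHeartbeats 4000000 in
theorem corner {A B C w ξ η : V2 → ℝ} {x₀ p q : V2} {K : ℝ}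
    (hξ : ContDiffAt ℝ 2 ξ x₀) (hη : ContDiffAt ℝ 2 η x₀) (hξ0 : ξ x₀ = 0) (hη0 : η x₀ = 0)
    (hξp : 0 < fderiv ℝ ξ x₀ p) (hξq : fderiv ℝ ξ x₀ q = 0)
    (hηp : fderiv ℝ η x₀ p = 0) (hηq : 0 < fderiv ℝ η x₀ q)
    (hA : ∀ᶠ x in 𝓝 x₀, ContinuousAt A x) (hB : ∀ᶠ x in 𝓝 x₀, ContinuousAt B x)
    (hC : ∀ᶠ x in 𝓝 x₀, ContinuousAt C x)
    (hA' : DifferentiableAt ℝ A x₀) (hB' : DifferentiableAt ℝ B x₀)
    (hC' : DifferentiableAt ℝ C x₀)
    (hAp : 0 < A x₀) (hABC : B x₀ ^ 2 < A x₀ * C x₀)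
    (horth : A x₀ * (fderiv ℝ ξ x₀ e0 * fderiv ℝ η x₀ e0)
      + B x₀ * (fderiv ℝ ξ x₀ e0 * fderiv ℝ η x₀ e1 + fderiv ℝ ξ x₀ e1 * fderiv ℝ η x₀ e0)
      + C x₀ * (fderiv ℝ ξ x₀ e1 * fderiv ℝ η x₀ e1) = 0)
    (hw : ContDiffAt ℝ 2 w x₀) (hwD : fderiv ℝ w x₀ = 0)
    (hwp : ∀ᶠ x in 𝓝 x₀, 0 < ξ x → 0 < η x → 0 < w x)
    (hwξ : ∀ᶠ x in 𝓝 x₀, ξ x = 0 → w x = 0) (hwη : ∀ᶠ x in 𝓝 x₀, η x = 0 → w x = 0)
    (hdi : ∀ᶠ x in 𝓝 x₀, 0 < ξ x → 0 < η x → Ell A B C w x ≤ K * ‖fderiv ℝ w x‖)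
    (hpp : D2 w x₀ p p = 0) (hqq : D2 w x₀ q q = 0) :
    0 < D2 w x₀ p q := by
  obtain ⟨a, ha, hbar⟩ := barrier |K| hξ hη hξ0 hη0 hξp hξq hηp hηq hA' hB' hC' hAp hABC horth
  obtain ⟨M, hM, hlin⟩ := lin (hξ.of_le (by norm_num)) (hη.of_le (by norm_num)) hξ0 hη0 hξp hξq
    hηp hηq
  set v : V2 → ℝ := fun y => (ξ y + a * ξ y ^ 2) * (η y + a * η y ^ 2) with hv
  have hDξ : fderiv ℝ ξ x₀ ≠ 0 := by
    intro h; rw [h] at hξp; simp at hξp
  have hDη : fderiv ℝ η x₀ ≠ 0 := by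
    intro h; rw [h] at hηq; simp at hηq
  have e1 : ∀ᶠ x in 𝓝 x₀, ContDiffAt ℝ 2 ξ x := hξ.eventually (by simp)
  have e2 : ∀ᶠ x in 𝓝 x₀, ContDiffAt ℝ 2 η x := hη.eventually (by simp)
  have e3 : ∀ᶠ x in 𝓝 x₀, ContDiffAt ℝ 2 w x := hw.eventually (by simp)
  have e4 : ∀ᶠ x in 𝓝 x₀, fderiv ℝ ξ x ≠ 0 :=
    (contDiffAt_fderiv hξ).continuousAt.eventually_ne hDξ
  have e5 : ∀ᶠ x in 𝓝 x₀, fderiv ℝ η x ≠ 0 :=
    (contDiffAt_fderiv hη).continuousAt.eventually_ne hDη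
  have e6 : ∀ᶠ x in 𝓝 x₀, 0 < A x := hA'.continuousAt.eventually_const_lt hAp
  have e7 : ∀ᶠ x in 𝓝 x₀, B x ^ 2 < A x * C x :=
    (hB'.continuousAt.pow 2).eventually_lt (hA'.continuousAt.mul hC'.continuousAt) hABC
  have e8 : ∀ᶠ x in 𝓝 x₀, a * ξ x < 1 :=
    (hξ.continuousAt.const_mul a).eventually_lt_const (by simp [hξ0])
  have e9 : ∀ᶠ x in 𝓝 x₀, a * η x < 1 :=
    (hη.continuousAt.const_mul a).eventually_lt_const (by simp [hη0])
  obtain ⟨ρ, hρ, hball⟩ := Metric.eventually_nhds_iff_ball.1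
    (((((((e1.and e2).and (e3.and e4)).and ((e5.and e6).and (e7.and e8))).and
    ((e9.and hbar).and (hlin.and hA))).and ((hB.and hC).and (hwp.and hwξ))).and (hwη.and hdi)))
  have hb : ∀ x ∈ ball x₀ ρ, ContDiffAt ℝ 2 ξ x ∧ ContDiffAt ℝ 2 η x ∧ ContDiffAt ℝ 2 w x ∧
      fderiv ℝ ξ x ≠ 0 ∧ fderiv ℝ η x ≠ 0 ∧ 0 < A x ∧ B x ^ 2 < A x * C x ∧ a * ξ x < 1 ∧
      a * η x < 1 := by
    intro x hx
    obtain ⟨⟨⟨⟨⟨⟨h1, h2⟩, h3, h4⟩, ⟨h5, h6⟩, h7, h8⟩, ⟨h9, h10⟩, h11, h12⟩, ⟨h13, h14⟩, h15, h16⟩,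
      h17, h18⟩ := hball x hx
    exact ⟨h1, h2, h3, h4, h5, h6, h7, h8, h9⟩
  have hb' : ∀ x ∈ ball x₀ ρ, (0 < ξ x → 0 < η x → |K| * ‖fderiv ℝ v x‖ < Ell A B C v x) ∧
      (‖x - x₀‖ ≤ M * (|ξ x| + |η x|)) ∧ ContinuousAt A x ∧ ContinuousAt B x ∧
      ContinuousAt C x ∧ (0 < ξ x → 0 < η x → 0 < w x) ∧ (ξ x = 0 → w x = 0) ∧
      (η x = 0 → w x = 0) ∧
      (0 < ξ x → 0 < η x → Ell A B C w x ≤ K * ‖fderiv ℝ w x‖) := by
    intro x hx
    obtain ⟨⟨⟨⟨⟨⟨h1, h2⟩, h3, h4⟩, ⟨h5, h6⟩, h7, h8⟩, ⟨h9, h10⟩, h11, h12⟩, ⟨h13, h14⟩, h15, h16⟩,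
      h17, h18⟩ := hball x hx
    exact ⟨h10, h11, h12, h13, h14, h15, h16, h17, h18⟩
  clear hball e1 e2 e3 e4 e5 e6 e7 e8 e9
  have hnear : ∀ x ∈ ball x₀ ρ, ∀ᶠ z in 𝓝 x, z ∈ ball x₀ ρ := fun x hx => isOpen_ball.mem_nhds hx
  -- the rectangle
  set r : ℝ := ρ / (8 * M) with hr
  have hr0 : 0 < r := by positivity
  have hMr : 2 * M * r < ρ / 2 := by
    have : 2 * M * r = ρ / 4 := by rw [hr]; field_simp; norm_num
    rw [this]; linarith
  have hsub : closedBall x₀ (ρ / 2) ⊆ ball x₀ ρ := closedBall_subset_ball (by linarith)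
  set R : Set V2 := closedBall x₀ (ρ / 2) ∩ ξ ⁻¹' Icc 0 r ∩ (closedBall x₀ (ρ / 2) ∩ η ⁻¹' Icc 0 r)
    with hR
  have hRmem : ∀ x, x ∈ R ↔ x ∈ closedBall x₀ (ρ / 2) ∧ (0 ≤ ξ x ∧ ξ x ≤ r) ∧ (0 ≤ η x ∧ η x ≤ r) := by
    intro x
    simp only [hR, mem_inter_iff, mem_preimage, mem_Icc]
    tauto
  have hcξ : ContinuousOn ξ (closedBall x₀ (ρ / 2)) := fun x hx =>
    (hb x (hsub hx)).1.continuousAt.continuousWithinAt
  have hcη : ContinuousOn η (closedBall x₀ (ρ / 2)) := fun x hx =>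
    (hb x (hsub hx)).2.1.continuousAt.continuousWithinAt
  have hcw : ContinuousOn w (closedBall x₀ (ρ / 2)) := fun x hx =>
    (hb x (hsub hx)).2.2.1.continuousAt.continuousWithinAt
  have hRcl : IsClosed R :=
    (hcξ.preimage_isClosed_of_isClosed isClosed_closedBall isClosed_Icc).inter
      (hcη.preimage_isClosed_of_isClosed isClosed_closedBall isClosed_Icc)
  have hRsub : R ⊆ closedBall x₀ (ρ / 2) := fun x hx => ((hRmem x).1 hx).1
  have hRc : IsCompact R := (isCompact_closedBall x₀ (ρ / 2)).of_isClosed_subset hRcl hRsub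
  have hRρ : R ⊆ ball x₀ ρ := hRsub.trans hsub
  have hRball : ∀ x ∈ R, x ∈ ball x₀ (ρ / 2) := by
    intro x hx
    obtain ⟨h1, h2, h3⟩ := (hRmem x).1 hx
    have h4 := (hb' x (hRρ hx)).2.1
    rw [abs_of_nonneg h2.1, abs_of_nonneg h3.1] at h4
    rw [mem_ball, dist_eq_norm]
    have : M * (ξ x + η x) ≤ 2 * M * r := by nlinarith [h2.2, h3.2]
    linarith
  have hS : ∀ g : V2 → ℝ, ContinuousOn g (closedBall x₀ (ρ / 2)) → IsCompact (R ∩ g ⁻¹' {r}) := by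
    intro g hg
    refine hRc.of_isClosed_subset ?_ inter_subset_left
    exact (hg.mono hRsub).preimage_isClosed_of_isClosed hRcl isClosed_singleton
  -- the two edges
  obtain ⟨c1, hc1, hedge1⟩ := CNC_edge (A := A) (B := B) (C := C) (w := w) (η := η) (K := K)
    (hS ξ hcξ)
    (fun x hx => by
      obtain ⟨h1, h2, h3, h4, h5, h6, h7, h8, h9⟩ := hb x (hRρ hx.1)
      obtain ⟨i1, i2, i3, i4, i5, i6, i7, i8, i9⟩ := hb' x (hRρ hx.1)
      exact ⟨h2, h5, h3, i3, i4, i5, h6, h7⟩)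
    (fun x hx => ((hRmem x).1 hx.1).2.2.1)
    (fun x hx => by
      filter_upwards [hnear x (hRρ hx.1)] with z hz
      exact (hb' z hz).2.2.2.2.2.2.2.1)
    (fun x hx => by
      have hx2 : ξ x = r := hx.2
      have : ∀ᶠ z in 𝓝 x, 0 < ξ z :=
        (hb x (hRρ hx.1)).1.continuousAt.eventually_const_lt (by rw [hx2]; exact hr0)
      filter_upwards [hnear x (hRρ hx.1), this] with z hz hz1 hz2
      exact (hb' z hz).2.2.2.2.2.1 hz1 hz2)
    (fun x hx => by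
      have hx2 : ξ x = r := hx.2
      have : ∀ᶠ z in 𝓝 x, 0 < ξ z :=
        (hb x (hRρ hx.1)).1.continuousAt.eventually_const_lt (by rw [hx2]; exact hr0)
      filter_upwards [hnear x (hRρ hx.1), this] with z hz hz1 hz2
      exact (hb' z hz).2.2.2.2.2.2.2.2 hz1 hz2)
  obtain ⟨c2, hc2, hedge2⟩ := CNC_edge (A := A) (B := B) (C := C) (w := w) (η := ξ) (K := K)
    (hS η hcη)
    (fun x hx => by
      obtain ⟨h1, h2, h3, h4, h5, h6, h7, h8, h9⟩ := hb x (hRρ hx.1)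
      obtain ⟨i1, i2, i3, i4, i5, i6, i7, i8, i9⟩ := hb' x (hRρ hx.1)
      exact ⟨h1, h4, h3, i3, i4, i5, h6, h7⟩)
    (fun x hx => ((hRmem x).1 hx.1).2.1.1)
    (fun x hx => by
      filter_upwards [hnear x (hRρ hx.1)] with z hz
      exact (hb' z hz).2.2.2.2.2.2.1)
    (fun x hx => by
      have hx2 : η x = r := hx.2
      have : ∀ᶠ z in 𝓝 x, 0 < η z :=
        (hb x (hRρ hx.1)).2.1.continuousAt.eventually_const_lt (by rw [hx2]; exact hr0)
      filter_upwards [hnear x (hRρ hx.1), this] with z hz hz1 hz2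
      exact (hb' z hz).2.2.2.2.2.1 hz2 hz1)
    (fun x hx => by
      have hx2 : η x = r := hx.2
      have : ∀ᶠ z in 𝓝 x, 0 < η z :=
        (hb x (hRρ hx.1)).2.1.continuousAt.eventually_const_lt (by rw [hx2]; exact hr0)
      filter_upwards [hnear x (hRρ hx.1), this] with z hz hz1 hz2
      exact (hb' z hz).2.2.2.2.2.2.2.2 hz2 hz1)
  set e : ℝ := min c1 c2 / (4 * r) with he
  have he0 : 0 < e := by positivity
  have hvC : ∀ x ∈ ball x₀ ρ, ContDiffAt ℝ 2 v x := by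
    intro x hx
    have h1 := (hb x hx).1
    have h2 := (hb x hx).2.1
    exact (h1.add (contDiffAt_const.mul (h1.pow 2))).mul (h2.add (contDiffAt_const.mul (h2.pow 2)))
  have hφC : ∀ x ∈ ball x₀ ρ, ContDiffAt ℝ 2 (fun y => w y - e * v y) x := fun x hx =>
    (hb x hx).2.2.1.sub (contDiffAt_const.mul (hvC x hx))
  have hvle : ∀ x ∈ R, v x ≤ 4 * ξ x * η x := by
    intro x hx
    obtain ⟨h1, h2, h3⟩ := (hRmem x).1 hx
    obtain ⟨-, -, -, -, -, -, -, h8, h9⟩ := hb x (hRρ hx)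
    have k1 : ξ x + a * ξ x ^ 2 ≤ 2 * ξ x := by nlinarith [h2.1]
    have k2 : η x + a * η x ^ 2 ≤ 2 * η x := by nlinarith [h3.1]
    have k3 : 0 ≤ η x + a * η x ^ 2 := by have := h3.1; positivity
    calc v x = (ξ x + a * ξ x ^ 2) * (η x + a * η x ^ 2) := rfl
      _ ≤ (2 * ξ x) * (2 * η x) := mul_le_mul k1 k2 k3 (by linarith [h2.1])
      _ = _ := by ring
  -- comparison on the rectangle
  have hcomp : ∀ x ∈ R, 0 ≤ w x - e * v x := by
    by_contra hcon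
    push Not at hcon
    obtain ⟨y, hy, hyneg⟩ := hcon
    have hφc : ContinuousOn (fun y => w y - e * v y) R := fun x hx =>
      (hφC x (hRρ hx)).continuousAt.continuousWithinAt
    obtain ⟨z, hz, hzmin⟩ := hRc.exists_isMinOn ⟨y, hy⟩ hφc
    have hzneg : w z - e * v z < 0 := lt_of_le_of_lt (hzmin hy) hyneg
    obtain ⟨g1, g2, g3⟩ := (hRmem z).1 hz
    obtain ⟨i1, i2, i3, i4, i5, i6, i7, i8, i9⟩ := hb' z (hRρ hz)
    have n1 : ξ z ≠ 0 := by
      intro h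
      have : v z = 0 := by simp [hv, h]
      rw [i7 h, this] at hzneg
      simp at hzneg
    have n2 : η z ≠ 0 := by
      intro h
      have : v z = 0 := by simp [hv, h]
      rw [i8 h, this] at hzneg
      simp at hzneg
    have n3 : ξ z ≠ r := by
      intro h
      have k1 := hedge1 z ⟨hz, h⟩
      have k2 := hvle z hz
      rw [h] at k2
      have k3 : e * v z ≤ e * (4 * r * η z) := mul_le_mul_of_nonneg_left k2 he0.le
      have k4 : e * (4 * r * η z) = min c1 c2 * η z := by rw [he]; field_simp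
      have k5 : min c1 c2 * η z ≤ c1 * η z := mul_le_mul_of_nonneg_right (min_le_left _ _) g3.1
      linarith
    have n4 : η z ≠ r := by
      intro h
      have k1 := hedge2 z ⟨hz, h⟩
      have k2 := hvle z hz
      rw [h] at k2
      have k3 : e * v z ≤ e * (4 * ξ z * r) := mul_le_mul_of_nonneg_left k2 he0.le
      have k4 : e * (4 * ξ z * r) = min c1 c2 * ξ z := by rw [he]; field_simp
      have k5 : min c1 c2 * ξ z ≤ c2 * ξ z := mul_le_mul_of_nonneg_right (min_le_right _ _) g2.1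
      linarith
    have p1 : 0 < ξ z := lt_of_le_of_ne g2.1 (Ne.symm n1)
    have p2 : 0 < η z := lt_of_le_of_ne g3.1 (Ne.symm n2)
    have p3 : ξ z < r := lt_of_le_of_ne g2.2 n3
    have p4 : η z < r := lt_of_le_of_ne g3.2 n4
    obtain ⟨h1, h2, h3, h4, h5, h6, h7, h8, h9⟩ := hb z (hRρ hz)
    have hRn : ∀ᶠ x in 𝓝 z, x ∈ R := by
      filter_upwards [isOpen_ball.mem_nhds (hRball z hz), h1.continuousAt.eventually_const_lt p1,
        h1.continuousAt.eventually_lt_const p3, h2.continuousAt.eventually_const_lt p2,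
        h2.continuousAt.eventually_lt_const p4] with x x1 x2 x3 x4 x5
      exact (hRmem x).2 ⟨ball_subset_closedBall x1, ⟨x2.le, x3.le⟩, x4.le, x5.le⟩
    have hloc : IsLocalMin (fun y => w y - e * v y) z := by
      filter_upwards [hRn] with x hx
      exact hzmin hx
    have q1 := Ell_nonneg_of_isLocalMin h6 h7 (hφC z (hRρ hz)) hloc
    have q2 : Ell A B C (fun y => w y - e * v y) z = Ell A B C w z - e * Ell A B C v z := by
      simp only [Ell, D2_sub_smul h3 (hvC z (hRρ hz)) e]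
      ring
    have q3 : fderiv ℝ w z = e • fderiv ℝ v z := by
      have t1 := hloc.fderiv_eq_zero
      have t2 : fderiv ℝ (fun y => w y - e * v y) z = fderiv ℝ w z - e • fderiv ℝ v z := by
        have d1 := (h3.differentiableAt (by simp)).hasFDerivAt
        have d2 := ((hvC z (hRρ hz)).differentiableAt (by simp)).hasFDerivAt
        exact (d1.sub (d2.const_mul e)).fderiv
      rw [t2] at t1
      exact sub_eq_zero.1 t1
    have q4 : ‖fderiv ℝ w z‖ = e * ‖fderiv ℝ v z‖ := by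
      rw [q3, norm_smul, Real.norm_eq_abs, abs_of_pos he0]
    have q5 := i1 p1 p2
    have q6 := i9 p1 p2
    rw [q4] at q6
    have q7 : K * (e * ‖fderiv ℝ v z‖) ≤ |K| * (e * ‖fderiv ℝ v z‖) :=
      mul_le_mul_of_nonneg_right (le_abs_self K) (by positivity)
    have q8 : e * (|K| * ‖fderiv ℝ v z‖) < e * Ell A B C v z := mul_lt_mul_of_pos_left q5 he0
    rw [q2] at q1
    have q9 : |K| * (e * ‖fderiv ℝ v z‖) = e * (|K| * ‖fderiv ℝ v z‖) := by ring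
    linarith
  -- second derivative along `p + q`
  set d : V2 := p + q with hd
  have hξd : 0 < fderiv ℝ ξ x₀ d := by rw [hd, map_add, hξq, add_zero]; exact hξp
  have hηd : 0 < fderiv ℝ η x₀ d := by rw [hd, map_add, hηp, zero_add]; exact hηq
  have hx₀ : x₀ ∈ ball x₀ ρ := mem_ball_self hρ
  have hline : Tendsto (fun s : ℝ => x₀ + s • d) (𝓝 0) (𝓝 x₀) := by
    have h1 : ContinuousAt (fun s : ℝ => x₀ + s • d) 0 := by fun_prop
    simpa [ContinuousAt] using h1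
  have hin : ∀ᶠ s : ℝ in 𝓝[>] 0, x₀ + s • d ∈ R := by
    have t1 := CNC_pos (hξ.differentiableAt (by simp)) hξ0 hξd
    have t2 := CNC_pos (hη.differentiableAt (by simp)) hη0 hηd
    have t3 : ∀ᶠ s : ℝ in 𝓝 0, x₀ + s • d ∈ ball x₀ (ρ / 2) :=
      hline.eventually (ball_mem_nhds x₀ (by positivity))
    have t4 : ∀ᶠ s : ℝ in 𝓝 0, ξ (x₀ + s • d) < r := by
      have : ∀ᶠ x in 𝓝 x₀, ξ x < r := hξ.continuousAt.eventually_lt_const (by rw [hξ0]; exact hr0)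
      exact hline.eventually this
    have t5 : ∀ᶠ s : ℝ in 𝓝 0, η (x₀ + s • d) < r := by
      have : ∀ᶠ x in 𝓝 x₀, η x < r := hη.continuousAt.eventually_lt_const (by rw [hη0]; exact hr0)
      exact hline.eventually this
    filter_upwards [t1, t2, t3.filter_mono nhdsWithin_le_nhds, t4.filter_mono nhdsWithin_le_nhds,
      t5.filter_mono nhdsWithin_le_nhds] with s s1 s2 s3 s4 s5
    exact (hRmem _).2 ⟨ball_subset_closedBall s3, ⟨s1.le, s4.le⟩, s2.le, s5.le⟩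
  have hw0 : w x₀ = 0 := (hb' x₀ hx₀).2.2.2.2.2.2.1 hξ0
  have hv0 : v x₀ = 0 := by simp [hv, hξ0]
  set P : V2 → ℝ := fun y => ξ y + a * ξ y ^ 2 with hP
  set Q : V2 → ℝ := fun y => η y + a * η y ^ 2 with hQ
  have hPC : ContDiffAt ℝ 2 P x₀ := hξ.add (contDiffAt_const.mul (hξ.pow 2))
  have hQC : ContDiffAt ℝ 2 Q x₀ := hη.add (contDiffAt_const.mul (hη.pow 2))
  have hP0 : P x₀ = 0 := by simp [hP, hξ0]
  have hQ0 : Q x₀ = 0 := by simp [hQ, hη0]
  have hgen : ∀ f : V2 → ℝ, ContDiffAt ℝ 2 f x₀ → f x₀ = 0 →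
      fderiv ℝ (fun y => f y + a * f y ^ 2) x₀ = fderiv ℝ f x₀ := by
    intro f hf hf0
    have d1 := (hf.differentiableAt (by simp)).hasFDerivAt
    have d2 := d1.add ((d1.pow 2).const_mul a)
    have d3 := d2.fderiv
    refine d3.trans ?_
    ext u
    simp [hf0]
  have hDP : fderiv ℝ P x₀ = fderiv ℝ ξ x₀ := hgen ξ hξ hξ0
  have hDQ : fderiv ℝ Q x₀ = fderiv ℝ η x₀ := hgen η hη hη0
  have hvPQ : v = fun y => P y * Q y := rfl
  have hDv : fderiv ℝ v x₀ = 0 := by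
    have d1 := (hPC.differentiableAt (by simp)).hasFDerivAt
    have d2 := (hQC.differentiableAt (by simp)).hasFDerivAt
    have d3 := (d1.mul d2).fderiv
    rw [hvPQ]
    refine d3.trans ?_
    rw [hP0, hQ0]
    simp
  have hD2v : D2 v x₀ d d = 2 * (fderiv ℝ ξ x₀ d * fderiv ℝ η x₀ d) := by
    rw [hvPQ, D2_mul hPC hQC, hP0, hQ0, hDP, hDQ]
    ring
  have hDφ : fderiv ℝ (fun y => w y - e * v y) x₀ = 0 := by
    have d1 := (hw.differentiableAt (by simp)).hasFDerivAt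
    have d2 := ((hvC x₀ hx₀).differentiableAt (by simp)).hasFDerivAt
    have d3 := (d1.sub (d2.const_mul e)).fderiv
    refine d3.trans ?_
    rw [hwD, hDv]
    simp
  have hfin := CNC_second (d := d) (hφC x₀ hx₀) (by rw [hw0, hv0]; simp) hDφ (by
    filter_upwards [hin] with s hs
    exact hcomp _ hs)
  rw [D2_sub_smul hw (hvC x₀ hx₀) e, hD2v] at hfin
  have hexp : D2 w x₀ d d = 2 * D2 w x₀ p q := by
    rw [hd, D2_add, D2_add', D2_add', hpp, hqq, D2_symm hw q p]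
    ring
  rw [hexp] at hfin
  have : 0 < e * (2 * (fderiv ℝ ξ x₀ d * fderiv ℝ η x₀ d)) := by positivity
  linarith

end Pool.Agent.H99.SC
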