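import Pool.Agent.H99.SC.CAL

/-!
# CND: second derivative along a zero curve

`η` C^1 at `x₀`, `η x₀ = 0`, `Dη(x₀) ≠ 0`; `w` C^2 at `x₀`, `Dw(x₀) = 0`, `w = 0` on `{η = 0}` near `x₀`,
`Dη(x₀) p = 0`.  Then `D2 w x₀ p p = 0`.
Proof.  Let `Dη(x₀) q = 1`.  Fix `δ > 0`.  For small `s > 0` the function `τ ↦ η (x₀ + s p + τ q)` is
`τ + o(s)` for `|τ| ≤ δ s`, so it changes sign on `[-δ s, δ s]`: a zero `τ`, `|τ| ≤ δ s`.  There `w = 0`.
Taylor: `w (x₀ + v) = (1/2) D2 w x₀ v v + o(|v|^2)`.  So `|D2 w x₀ (s p + τ q) (s p + τ q)| ≤ δ s^2` for small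
`s`; divide by `s^2`: `|D2 w x₀ p p| ≤ C δ` with `C` independent of `δ ≤ 1`.
(Alternatively apply the implicit function theorem to get a C^1 curve `c` in `{η = 0}` with velocity `p`;
then `0 = w (c s) = (1/2) D2 w x₀ (c s - x₀) (c s - x₀) + o(s^2)`.)
-/

set_option autoImplicit false

open scoped RealInnerProductSpace Topology
open Metric Filter Set

noncomputable section

namespace Pool.Agent.H99.SC

theorem taylor2 {w : V2 → ℝ} {x₀ : V2} (hw : ContDiffAt ℝ 2 w x₀) (h0 : w x₀ = 0)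
    (hD : fderiv ℝ w x₀ = 0) {ε : ℝ} (hε : 0 < ε) :
    ∃ δ : ℝ, 0 < δ ∧ ∀ v : V2, ‖v‖ < δ → |w (x₀ + v) - (1 / 2) * D2 w x₀ v v| ≤ ε * ‖v‖ ^ 2 := by
  set Q : V2 →L[ℝ] V2 →L[ℝ] ℝ := fderiv ℝ (fderiv ℝ w) x₀ with hQ
  have hQd : HasFDerivAt (fderiv ℝ w) Q x₀ :=
    ((contDiffAt_fderiv hw).differentiableAt (by norm_num)).hasFDerivAt
  have h1 : ∀ᶠ x in 𝓝 x₀, ‖fderiv ℝ w x - fderiv ℝ w x₀ - Q (x - x₀)‖ ≤ ε * ‖x - x₀‖ :=
    hQd.isLittleO.bound hε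
  have h2 : ∀ᶠ x in 𝓝 x₀, DifferentiableAt ℝ w x := by
    filter_upwards [hw.eventually (by simp)] with x hx
    exact hx.differentiableAt (by norm_num)
  obtain ⟨δ, hδ, hball⟩ := Metric.eventually_nhds_iff_ball.1 (h1.and h2)
  refine ⟨δ, hδ, fun v hv => ?_⟩
  have hmem : ∀ s ∈ Icc (0 : ℝ) 1, x₀ + s • v ∈ ball x₀ δ := by
    intro s hs
    rw [mem_ball, dist_eq_norm, add_sub_cancel_left, norm_smul, Real.norm_of_nonneg hs.1]
    exact lt_of_le_of_lt (mul_le_of_le_one_left (norm_nonneg _) hs.2) hv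
  have hder : ∀ s ∈ Icc (0 : ℝ) 1, HasDerivWithinAt
      (fun s : ℝ => w (x₀ + s • v) - (1 / 2) * s ^ 2 * Q v v)
      (fderiv ℝ w (x₀ + s • v) v - s * Q v v) (Icc 0 1) s := by
    intro s hs
    have hline : HasDerivAt (fun s : ℝ => x₀ + s • v) v s := by
      simpa using ((hasDerivAt_id s).smul_const v).const_add x₀
    have e1 : HasDerivAt (fun s : ℝ => w (x₀ + s • v)) (fderiv ℝ w (x₀ + s • v) v) s :=
      (hball _ (hmem s hs)).2.hasFDerivAt.comp_hasDerivAt s hline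
    have e2 : HasDerivAt (fun s : ℝ => (1 / 2) * s ^ 2 * Q v v) (s * Q v v) s := by
      have := ((hasDerivAt_pow 2 s).const_mul (1 / 2 : ℝ)).mul_const (Q v v)
      refine this.congr_deriv ?_
      push_cast
      ring
    exact (e1.sub e2).hasDerivWithinAt
  have key := norm_image_sub_le_of_norm_deriv_le_segment_01' (C := ε * ‖v‖ ^ 2) hder (by
    intro s hs
    have hs' : s ∈ Icc (0 : ℝ) 1 := ⟨hs.1, hs.2.le⟩
    have e3 := (hball _ (hmem s hs')).1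
    rw [hD, sub_zero, add_sub_cancel_left, map_smul] at e3
    have e4 : fderiv ℝ w (x₀ + s • v) v - s * Q v v =
        (fderiv ℝ w (x₀ + s • v) - s • Q v) v := by
      simp
    rw [e4]
    refine (ContinuousLinearMap.le_opNorm _ _).trans ?_
    have e5 : ‖s • v‖ ≤ ‖v‖ := by
      rw [norm_smul, Real.norm_of_nonneg hs.1]
      exact mul_le_of_le_one_left (norm_nonneg _) hs'.2
    calc ‖fderiv ℝ w (x₀ + s • v) - s • Q v‖ * ‖v‖ ≤ (ε * ‖s • v‖) * ‖v‖ :=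
          mul_le_mul_of_nonneg_right e3 (norm_nonneg _)
      _ ≤ (ε * ‖v‖) * ‖v‖ := by gcongr
      _ = ε * ‖v‖ ^ 2 := by ring)
  rw [Real.norm_eq_abs] at key
  have e6 : w (x₀ + (1 : ℝ) • v) - 1 / 2 * 1 ^ 2 * Q v v -
      (w (x₀ + (0 : ℝ) • v) - 1 / 2 * 0 ^ 2 * Q v v) = w (x₀ + v) - (1 / 2) * D2 w x₀ v v := by
    rw [one_smul, zero_smul, add_zero, h0]
    unfold D2
    ring
  rw [e6] at key
  exact key

theorem CND_zero {η : V2 → ℝ} {x₀ p q : V2} (hη : ContDiffAt ℝ 1 η x₀) (hη0 : η x₀ = 0)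
    (hp : fderiv ℝ η x₀ p = 0) (hq : fderiv ℝ η x₀ q = 1) {δ : ℝ} (hδ : 0 < δ) (hδ1 : δ ≤ 1) :
    ∃ ρ > (0 : ℝ), ∀ s : ℝ, 0 < s → s * (‖p‖ + ‖q‖) < ρ →
      ∃ τ : ℝ, |τ| ≤ δ * s ∧ η (x₀ + (s • p + τ • q)) = 0 := by
  have hC : 0 < ‖p‖ + ‖q‖ + 1 := by positivity
  have h1 : ∀ᶠ x in 𝓝 x₀, ‖η x - η x₀ - fderiv ℝ η x₀ (x - x₀)‖ ≤
      (δ / (2 * (‖p‖ + ‖q‖ + 1))) * ‖x - x₀‖ :=
    (hη.differentiableAt (by norm_num)).hasFDerivAt.isLittleO.bound (by positivity)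
  have h2 : ∀ᶠ x in 𝓝 x₀, ContinuousAt η x := by
    filter_upwards [hη.eventually (by simp)] with x hx
    exact hx.continuousAt
  obtain ⟨ρ, hρ, hball⟩ := Metric.eventually_nhds_iff_ball.1 (h1.and h2)
  refine ⟨ρ, hρ, fun s hs hsρ => ?_⟩
  have hn : ∀ τ : ℝ, |τ| ≤ δ * s → ‖s • p + τ • q‖ ≤ s * (‖p‖ + ‖q‖) := by
    intro τ hτ
    refine (norm_add_le _ _).trans ?_
    rw [norm_smul, norm_smul, Real.norm_of_nonneg hs.le, Real.norm_eq_abs]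
    have : |τ| ≤ s := hτ.trans (mul_le_of_le_one_left hs.le hδ1)
    have := mul_le_mul_of_nonneg_right this (norm_nonneg q)
    linarith
  have hmem : ∀ τ : ℝ, |τ| ≤ δ * s → x₀ + (s • p + τ • q) ∈ ball x₀ ρ := by
    intro τ hτ
    rw [mem_ball, dist_eq_norm, add_sub_cancel_left]
    exact lt_of_le_of_lt (hn τ hτ) hsρ
  have hlin : ∀ τ : ℝ, |τ| ≤ δ * s → |η (x₀ + (s • p + τ • q)) - τ| ≤ δ * s / 2 := by
    intro τ hτ
    have e := (hball _ (hmem τ hτ)).1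
    rw [hη0, sub_zero, add_sub_cancel_left, map_add, map_smul, map_smul, hp, hq, smul_zero,
      zero_add, smul_eq_mul, mul_one, Real.norm_eq_abs] at e
    refine e.trans ?_
    calc δ / (2 * (‖p‖ + ‖q‖ + 1)) * ‖s • p + τ • q‖
        ≤ δ / (2 * (‖p‖ + ‖q‖ + 1)) * (s * (‖p‖ + ‖q‖ + 1)) := by
          refine mul_le_mul_of_nonneg_left ((hn τ hτ).trans ?_) (by positivity)
          exact mul_le_mul_of_nonneg_left (by linarith) hs.le
      _ = δ * s / 2 := by field_simp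
  have hδs : 0 < δ * s := by positivity
  have hcont : ContinuousOn (fun τ : ℝ => η (x₀ + (s • p + τ • q))) (Icc (-(δ * s)) (δ * s)) := by
    intro τ hτ
    have hc : ContinuousAt (fun τ : ℝ => x₀ + (s • p + τ • q)) τ :=
      Continuous.continuousAt (by fun_prop)
    exact (ContinuousAt.comp (g := η) (f := fun τ : ℝ => x₀ + (s • p + τ • q))
      (hball _ (hmem τ (abs_le.2 hτ))).2 hc).continuousWithinAt
  have hr := abs_le.1 (hlin (δ * s) (by rw [abs_of_pos hδs]))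
  have hl := abs_le.1 (hlin (-(δ * s)) (by rw [abs_neg, abs_of_pos hδs]))
  obtain ⟨τ, hτ, hz⟩ := intermediate_value_Icc (by linarith) hcont
    (show (0 : ℝ) ∈ Icc (η (x₀ + (s • p + (-(δ * s)) • q))) (η (x₀ + (s • p + (δ * s) • q))) from
      ⟨by linarith [hl.2], by linarith [hr.1]⟩)
  exact ⟨τ, abs_le.2 hτ, hz⟩

theorem D2_zero {w η : V2 → ℝ} {x₀ p : V2} (hη : ContDiffAt ℝ 1 η x₀) (hη0 : η x₀ = 0)
    (hηD : fderiv ℝ η x₀ ≠ 0) (hw : ContDiffAt ℝ 2 w x₀) (hwD : fderiv ℝ w x₀ = 0)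
    (hw0 : ∀ᶠ x in 𝓝 x₀, η x = 0 → w x = 0) (hp : fderiv ℝ η x₀ p = 0) :
    D2 w x₀ p p = 0 := by
  obtain ⟨q', hq'⟩ : ∃ q', fderiv ℝ η x₀ q' ≠ 0 := by
    by_contra hcon
    push Not at hcon
    exact hηD (ContinuousLinearMap.ext fun v => by simpa using hcon v)
  obtain ⟨q, hq⟩ : ∃ q, fderiv ℝ η x₀ q = 1 :=
    ⟨(fderiv ℝ η x₀ q')⁻¹ • q', by rw [map_smul, smul_eq_mul, inv_mul_cancel₀ hq']⟩
  have hwx : w x₀ = 0 := hw0.self_of_nhds hη0
  set a : ℝ := D2 w x₀ p p with ha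
  set b : ℝ := D2 w x₀ p q + D2 w x₀ q p with hb
  set c : ℝ := D2 w x₀ q q with hc
  have hexp : ∀ s τ : ℝ, D2 w x₀ (s • p + τ • q) (s • p + τ • q) =
      s ^ 2 * a + s * τ * b + τ ^ 2 * c := by
    intro s τ
    rw [D2_add, D2_add', D2_add', D2_smul, D2_smul, D2_smul, D2_smul, D2_smul', D2_smul',
      D2_smul', D2_smul']
    simp only [smul_eq_mul]
    rw [ha, hb, hc]
    ring
  have key : ∀ δ : ℝ, 0 < δ → δ ≤ 1 → |a| ≤ δ * (2 * (‖p‖ + ‖q‖) ^ 2 + |b| + |c|) := by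
    intro δ hδ hδ1
    obtain ⟨ρ1, hρ1, h1⟩ := CND_zero hη hη0 hp hq hδ hδ1
    obtain ⟨ρ2, hρ2, h2⟩ := taylor2 hw hwx hwD hδ
    obtain ⟨ρ3, hρ3, h3⟩ := Metric.eventually_nhds_iff_ball.1 hw0
    set ρ : ℝ := min ρ1 (min ρ2 ρ3) with hρ
    have hρ0 : 0 < ρ := by positivity
    set s : ℝ := ρ / (2 * (‖p‖ + ‖q‖ + 1)) with hs
    have hs0 : 0 < s := by positivity
    have hsρ : s * (‖p‖ + ‖q‖) < ρ := by
      have : s * (2 * (‖p‖ + ‖q‖ + 1)) = ρ := by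
        rw [hs]
        field_simp
      nlinarith [norm_nonneg p, norm_nonneg q]
    obtain ⟨τ, hτ, hz⟩ := h1 s hs0 (hsρ.trans_le (min_le_left _ _))
    have hn : ‖s • p + τ • q‖ ≤ s * (‖p‖ + ‖q‖) := by
      refine (norm_add_le _ _).trans ?_
      rw [norm_smul, norm_smul, Real.norm_of_nonneg hs0.le, Real.norm_eq_abs]
      have : |τ| ≤ s := hτ.trans (mul_le_of_le_one_left hs0.le hδ1)
      have := mul_le_mul_of_nonneg_right this (norm_nonneg q)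
      linarith
    have hn2 : ‖s • p + τ • q‖ < ρ := lt_of_le_of_lt hn hsρ
    have e1 := h2 _ (hn2.trans_le ((min_le_right _ _).trans (min_le_left _ _)))
    have e2 : w (x₀ + (s • p + τ • q)) = 0 := by
      refine h3 _ ?_ hz
      rw [mem_ball, dist_eq_norm, add_sub_cancel_left]
      exact hn2.trans_le ((min_le_right _ _).trans (min_le_right _ _))
    rw [e2, hexp, zero_sub, abs_neg] at e1
    have e3 : ‖s • p + τ • q‖ ^ 2 ≤ s ^ 2 * (‖p‖ + ‖q‖) ^ 2 := by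
      rw [← mul_pow]
      exact pow_le_pow_left₀ (norm_nonneg _) hn 2
    have e4 : |1 / 2 * (s ^ 2 * a + s * τ * b + τ ^ 2 * c)| ≤
        δ * (s ^ 2 * (‖p‖ + ‖q‖) ^ 2) := e1.trans (mul_le_mul_of_nonneg_left e3 hδ.le)
    have e5 : |s ^ 2 * a + s * τ * b + τ ^ 2 * c| ≤ 2 * (δ * (s ^ 2 * (‖p‖ + ‖q‖) ^ 2)) := by
      rw [abs_mul, abs_of_pos (by norm_num : (0 : ℝ) < 1 / 2)] at e4
      linarith
    have e6 : |s * τ * b| ≤ s ^ 2 * (δ * |b|) := by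
      rw [abs_mul, abs_mul, abs_of_pos hs0]
      have := mul_le_mul_of_nonneg_right (mul_le_mul_of_nonneg_left hτ hs0.le) (abs_nonneg b)
      linarith
    have e7 : |τ ^ 2 * c| ≤ s ^ 2 * (δ * |c|) := by
      rw [abs_mul, abs_pow]
      have h8 : |τ| ^ 2 ≤ (δ * s) ^ 2 := pow_le_pow_left₀ (abs_nonneg _) hτ 2
      have h9 : (δ * s) ^ 2 ≤ δ * s ^ 2 := by
        rw [mul_pow]
        refine mul_le_mul_of_nonneg_right ?_ (by positivity)
        nlinarith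
      have := mul_le_mul_of_nonneg_right (h8.trans h9) (abs_nonneg c)
      linarith
    have e8 : s ^ 2 * |a| ≤ s ^ 2 * (δ * (2 * (‖p‖ + ‖q‖) ^ 2 + |b| + |c|)) := by
      have e9 : |s ^ 2 * a| = s ^ 2 * |a| := by rw [abs_mul, abs_of_pos (by positivity : 0 < s ^ 2)]
      rw [← e9]
      have e10 : s ^ 2 * a = (s ^ 2 * a + s * τ * b + τ ^ 2 * c) - s * τ * b - τ ^ 2 * c := by ring
      have e11 := abs_sub (s ^ 2 * a + s * τ * b + τ ^ 2 * c - s * τ * b) (τ ^ 2 * c)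
      have e12 := abs_sub (s ^ 2 * a + s * τ * b + τ ^ 2 * c) (s * τ * b)
      rw [← e10] at e11
      linarith
    exact le_of_mul_le_mul_left e8 (by positivity)
  by_contra hne
  have hapos : 0 < |a| := abs_pos.2 hne
  set M : ℝ := 2 * (‖p‖ + ‖q‖) ^ 2 + |b| + |c| with hM
  have hM0 : 0 ≤ M := by positivity
  have h1 := key (min 1 (|a| / (2 * (M + 1)))) (by positivity) (min_le_left _ _)
  have h2 : min 1 (|a| / (2 * (M + 1))) * M ≤ (|a| / (2 * (M + 1))) * M :=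
    mul_le_mul_of_nonneg_right (min_le_right _ _) hM0
  have h3 : (|a| / (2 * (M + 1))) * M < |a| := by
    rw [div_mul_eq_mul_div, div_lt_iff₀ (by positivity)]
    nlinarith
  linarith

end Pool.Agent.H99.SC
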