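import Pool.Agent.H99.SC.CAL

/-!
# PLN: height functions

`w x = ⟪c, X x⟫`: `D2 w u a b = ⟪c, D2 X u a b⟫`, so `Lop X w u = ⟪c, Z⟫`, `Z = Lop X X u`.  Take the inner
product of `decomp (X_u) (X_v) c` with `Z`:
`‖nn‖^2 ⟪c,Z⟫ = ⟪c,nn⟫⟪nn,Z⟫ + (‖X_v‖^2 Dw e0 - ⟪X_u,X_v⟫ Dw e1) ⟪X_u,Z⟫ + (‖X_u‖^2 Dw e1 - ⟪X_u,X_v⟫ Dw e0) ⟪X_v,Z⟫`.
Divide by `‖nn‖^2`; on the compact closed disc `X_u, X_v, Z` and `1/‖nn‖` are bounded.
-/

set_option autoImplicit false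

open scoped RealInnerProductSpace Topology
open Metric Filter Set

noncomputable section

namespace Pool.Agent.H99.SC

theorem contDiff_height {X : V2 → V3} (hX : ContDiff ℝ 2 X) (c : V3) :
    ContDiff ℝ 2 (fun x => ⟪c, X x⟫) := contDiff_const.inner ℝ hX

theorem fderiv_height {X : V2 → V3} (hX : ContDiff ℝ 2 X) (c : V3) (u a : V2) :
    fderiv ℝ (fun x => ⟪c, X x⟫) u a = ⟪c, fderiv ℝ X u a⟫ := by
  rw [fderiv_inner_apply ℝ (differentiableAt_const c) ((hX.differentiable (by norm_num)) u)]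
  simp

theorem PLN_D2 {X : V2 → V3} (hX : ContDiff ℝ 2 X) (c : V3) (u a b : V2) :
    D2 (fun x => ⟪c, X x⟫) u a b = ⟪c, D2 X u a b⟫ := by
  unfold D2
  have h1 : fderiv ℝ (fun x => ⟪c, X x⟫) = fun x => (innerSL ℝ c).comp (fderiv ℝ X x) := by
    funext x
    ext a
    rw [fderiv_height hX]
    rfl
  have h2 : HasFDerivAt (fderiv ℝ X) (fderiv ℝ (fderiv ℝ X) u) u := by
    have : ContDiff ℝ 1 (fderiv ℝ X) := hX.fderiv_right (by norm_num)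
    exact ((this.differentiable (by norm_num)) u).hasFDerivAt
  have h3 := ((ContinuousLinearMap.compL ℝ V2 V3 ℝ (innerSL ℝ c)).hasFDerivAt
    (x := fderiv ℝ X u)).comp u h2
  have h4 : HasFDerivAt (fun x => (innerSL ℝ c).comp (fderiv ℝ X x))
    ((ContinuousLinearMap.compL ℝ V2 V3 ℝ (innerSL ℝ c)).comp (fderiv ℝ (fderiv ℝ X) u)) u := h3
  rw [h1, h4.fderiv]
  rfl

theorem lop_height {X : V2 → V3} (hX : ContDiff ℝ 2 X) (c : V3) (u : V2) :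
    Lop X (fun x => ⟪c, X x⟫) u = ⟪c, Lop X X u⟫ := by
  unfold Lop
  rw [PLN_D2 hX, PLN_D2 hX, PLN_D2 hX]
  simp only [inner_add_right, inner_smul_right, smul_eq_mul]

theorem PLN_cont_deriv {X : V2 → V3} (hX : ContDiff ℝ 2 X) (a : V2) :
    Continuous fun u => fderiv ℝ X u a :=
  (hX.continuous_fderiv (by norm_num)).clm_apply continuous_const

theorem PLN_cont_Lop {X : V2 → V3} (hX : ContDiff ℝ 2 X) : Continuous fun u => Lop X X u := by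
  unfold Lop
  have h1 := (contDiff_cA hX).continuous
  have h2 := (contDiff_cB hX).continuous
  have h3 := (contDiff_cC hX).continuous
  have h4 := continuous_D2 hX
  exact ((h1.smul (h4 e0 e0)).add ((continuous_const.mul h2).smul (h4 e0 e1))).add
    (h3.smul (h4 e1 e1))

theorem pln {X : V2 → V3} (hX : ContDiff ℝ 2 X) (himm : ∀ u : V2, ‖u‖ ≤ 1 → nn X u ≠ 0)
    (c : V3) : ∃ K : ℝ, ∀ u : V2, ‖u‖ ≤ 1 →
      |Lop X (fun x => ⟪c, X x⟫) u - ⟪c, nn X u⟫ * ⟪nn X u, Lop X X u⟫ / ‖nn X u‖ ^ 2|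
        ≤ K * ‖fderiv ℝ (fun x => ⟪c, X x⟫) u‖ := by
  have c0 := PLN_cont_deriv hX e0
  have c1 := PLN_cont_deriv hX e1
  have cZ := PLN_cont_Lop hX
  have cn := (contDiff_nn hX).continuous
  set k : V2 → ℝ := fun u =>
    ((‖fderiv ℝ X u e1‖ ^ 2 + |⟪fderiv ℝ X u e0, fderiv ℝ X u e1⟫|) *
      |⟪fderiv ℝ X u e0, Lop X X u⟫| +
    (‖fderiv ℝ X u e0‖ ^ 2 + |⟪fderiv ℝ X u e0, fderiv ℝ X u e1⟫|) *
      |⟪fderiv ℝ X u e1, Lop X X u⟫|) / ‖nn X u‖ ^ 2 with hk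
  have hkc : ContinuousOn k (closedBall 0 1) := by
    apply ContinuousOn.div
    · apply Continuous.continuousOn
      exact (((c1.norm.pow 2).add (c0.inner c1).abs).mul (c0.inner cZ).abs).add
        (((c0.norm.pow 2).add (c0.inner c1).abs).mul (c1.inner cZ).abs)
    · exact (cn.norm.pow 2).continuousOn
    · intro u hu
      have := himm u (mem_closedBall_zero_iff.1 hu)
      positivity
  obtain ⟨K, hK⟩ := (isCompact_closedBall (0 : V2) 1).exists_bound_of_continuousOn hkc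
  refine ⟨K, fun u hu => ?_⟩
  have hKu := hK u (mem_closedBall_zero_iff.2 hu)
  rw [Real.norm_eq_abs] at hKu
  have hKu' := (le_abs_self _).trans hKu
  have hn := himm u hu
  have hn2 : 0 < ‖nn X u‖ ^ 2 := by positivity
  set w' := fderiv ℝ (fun x => ⟪c, X x⟫) u with hw'
  have hd := congrArg (fun v : V3 => ⟪v, Lop X X u⟫) (decomp (fderiv ℝ X u e0)
    (fderiv ℝ X u e1) c)
  simp only [inner_add_left, inner_smul_left, RCLike.conj_to_real] at hd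
  have hnn : cr (fderiv ℝ X u e0) (fderiv ℝ X u e1) = nn X u := rfl
  rw [hnn, ← fderiv_height hX c u e0, ← fderiv_height hX c u e1, ← hw'] at hd
  have he0 : ‖e0‖ = 1 := by simp [e0]
  have he1 : ‖e1‖ = 1 := by simp [e1]
  have hb0 : |w' e0| ≤ ‖w'‖ := by
    have := w'.le_opNorm e0
    rwa [he0, mul_one, Real.norm_eq_abs] at this
  have hb1 : |w' e1| ≤ ‖w'‖ := by
    have := w'.le_opNorm e1
    rwa [he1, mul_one, Real.norm_eq_abs] at this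
  rw [lop_height hX]
  have hE : ⟪c, Lop X X u⟫ - ⟪c, nn X u⟫ * ⟪nn X u, Lop X X u⟫ / ‖nn X u‖ ^ 2 =
      ((‖fderiv ℝ X u e1‖ ^ 2 * w' e0 - ⟪fderiv ℝ X u e0, fderiv ℝ X u e1⟫ * w' e1) *
        ⟪fderiv ℝ X u e0, Lop X X u⟫ +
      (‖fderiv ℝ X u e0‖ ^ 2 * w' e1 - ⟪fderiv ℝ X u e0, fderiv ℝ X u e1⟫ * w' e0) *
        ⟪fderiv ℝ X u e1, Lop X X u⟫) / ‖nn X u‖ ^ 2 := by
    rw [eq_div_iff hn2.ne', sub_mul, div_mul_cancel₀ _ hn2.ne']
    linarith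
  rw [hE, abs_div, abs_of_pos hn2, div_le_iff₀ hn2]
  have hk2 : k u * ‖nn X u‖ ^ 2 = (‖fderiv ℝ X u e1‖ ^ 2 +
      |⟪fderiv ℝ X u e0, fderiv ℝ X u e1⟫|) * |⟪fderiv ℝ X u e0, Lop X X u⟫| +
    (‖fderiv ℝ X u e0‖ ^ 2 + |⟪fderiv ℝ X u e0, fderiv ℝ X u e1⟫|) *
      |⟪fderiv ℝ X u e1, Lop X X u⟫| := by
    rw [hk]
    exact div_mul_cancel₀ _ hn2.ne'
  have hw0 : 0 ≤ ‖w'‖ := norm_nonneg _
  generalize ⟪fderiv ℝ X u e0, Lop X X u⟫ = A at *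
  generalize ⟪fderiv ℝ X u e1, Lop X X u⟫ = B at *
  generalize ⟪fderiv ℝ X u e0, fderiv ℝ X u e1⟫ = C at *
  have hp : 0 ≤ ‖fderiv ℝ X u e1‖ ^ 2 := sq_nonneg _
  have hq : 0 ≤ ‖fderiv ℝ X u e0‖ ^ 2 := sq_nonneg _
  generalize ‖fderiv ℝ X u e1‖ ^ 2 = P at *
  generalize ‖fderiv ℝ X u e0‖ ^ 2 = Q at *
  have h1 : |P * w' e0 - C * w' e1| ≤ (P + |C|) * ‖w'‖ := by
    calc |P * w' e0 - C * w' e1| ≤ |P * w' e0| + |C * w' e1| := abs_sub _ _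
      _ = P * |w' e0| + |C| * |w' e1| := by rw [abs_mul, abs_mul, abs_of_nonneg hp]
      _ ≤ P * ‖w'‖ + |C| * ‖w'‖ := add_le_add (mul_le_mul_of_nonneg_left hb0 hp)
          (mul_le_mul_of_nonneg_left hb1 (abs_nonneg _))
      _ = _ := by ring
  have h2 : |Q * w' e1 - C * w' e0| ≤ (Q + |C|) * ‖w'‖ := by
    calc |Q * w' e1 - C * w' e0| ≤ |Q * w' e1| + |C * w' e0| := abs_sub _ _
      _ = Q * |w' e1| + |C| * |w' e0| := by rw [abs_mul, abs_mul, abs_of_nonneg hq]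
      _ ≤ Q * ‖w'‖ + |C| * ‖w'‖ := add_le_add (mul_le_mul_of_nonneg_left hb1 hq)
          (mul_le_mul_of_nonneg_left hb0 (abs_nonneg _))
      _ = _ := by ring
  calc |(P * w' e0 - C * w' e1) * A + (Q * w' e1 - C * w' e0) * B|
      ≤ |(P * w' e0 - C * w' e1) * A| + |(Q * w' e1 - C * w' e0) * B| := abs_add_le _ _
    _ = |P * w' e0 - C * w' e1| * |A| + |Q * w' e1 - C * w' e0| * |B| := by
        rw [abs_mul, abs_mul]
    _ ≤ (P + |C|) * ‖w'‖ * |A| + (Q + |C|) * ‖w'‖ * |B| :=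
        add_le_add (mul_le_mul_of_nonneg_right h1 (abs_nonneg _))
          (mul_le_mul_of_nonneg_right h2 (abs_nonneg _))
    _ = (k u * ‖nn X u‖ ^ 2) * ‖w'‖ := by rw [hk2]; ring
    _ ≤ K * ‖w'‖ * ‖nn X u‖ ^ 2 := by
        have := mul_le_mul_of_nonneg_right hKu' (mul_nonneg hn2.le hw0)
        nlinarith

end Pool.Agent.H99.SC
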