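import Pool.Agent.H99.SC.CAL

/-!
# WMP: weak maximum principle on the closed unit disc (used for `H = 0`)

`w` C^2 (everywhere), `w = 0` on the unit circle, `|Ell A B C w| ≤ K |Dw|` in the open disc, with
`A, B, C` continuous and positive definite on the closed disc.  Then `w = 0` on the closed disc.
Proof.  It is enough to show `w >= 0` (apply to `-w`).  By compactness `A >= l > 0` on the closed disc.
Let `v x = exp (a (x 0))`, `Ell v = A a^2 v`, `|Dv| = a v`; for `a > |K|/l`: `Ell v > |K| |Dv|`.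
Suppose `w x1 < 0`.  Choose `e > 0` so small that `w - e v` is smaller at `x1` than on the unit circle
(`w = 0` there: `-e v >= -e exp a`).  The minimum of `w - e v` over the closed disc is attained at an
interior point `x2`: `Dw = e Dv`, `0 <= Ell (w - e v) x2`, so `Ell w x2 >= e Ell v > e |K||Dv| =
|K| |Dw|`: contradiction.
-/

set_option autoImplicit false

open scoped RealInnerProductSpace Topology
open Metric Filter Set

noncomputable section

namespace Pool.Agent.H99.SC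

private def WMP_v (a : ℝ) : V2 → ℝ := fun x => Real.exp (a * x 0)

private theorem WMP_hasF (a : ℝ) (x : V2) :
    HasFDerivAt (WMP_v a) ((a * Real.exp (a * x 0)) • (EuclideanSpace.proj 0 : V2 →L[ℝ] ℝ)) x := by
  have h1 : HasFDerivAt (fun x : V2 => a * x 0) (a • (EuclideanSpace.proj 0 : V2 →L[ℝ] ℝ)) x := by
    have h2 := (EuclideanSpace.proj (0 : Fin 2) : V2 →L[ℝ] ℝ).hasFDerivAt (x := x)
    exact h2.const_mul a
  have h3 := h1.exp
  have h4 : (a * Real.exp (a * x 0)) • (EuclideanSpace.proj 0 : V2 →L[ℝ] ℝ) =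
      Real.exp (a * x 0) • (a • (EuclideanSpace.proj 0 : V2 →L[ℝ] ℝ)) := by
    rw [smul_smul, mul_comm]
  rw [h4]
  exact h3

private theorem WMP_smooth (a : ℝ) : ContDiff ℝ 2 (WMP_v a) := by
  have h2 : ContDiff ℝ 2 (fun x : V2 => x 0) :=
    (EuclideanSpace.proj (0 : Fin 2) : V2 →L[ℝ] ℝ).contDiff
  exact Real.contDiff_exp.comp (contDiff_const.mul h2)

private theorem WMP_fd (a : ℝ) : fderiv ℝ (WMP_v a) =
    fun x => (a * Real.exp (a * x 0)) • (EuclideanSpace.proj 0 : V2 →L[ℝ] ℝ) := by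
  funext x
  exact (WMP_hasF a x).fderiv

private theorem WMP_D2 (a : ℝ) (x h k : V2) :
    D2 (WMP_v a) x h k = a ^ 2 * Real.exp (a * x 0) * h 0 * k 0 := by
  unfold D2
  rw [WMP_fd]
  have h1 : HasFDerivAt (fun x : V2 => a * Real.exp (a * x 0))
      (a • ((a * Real.exp (a * x 0)) • (EuclideanSpace.proj 0 : V2 →L[ℝ] ℝ))) x :=
    (WMP_hasF a x).const_mul a
  have h2 := h1.smul_const (EuclideanSpace.proj 0 : V2 →L[ℝ] ℝ)
  rw [h2.fderiv]
  simp only [ContinuousLinearMap.smulRight_apply, smul_apply, smul_eq_mul]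
  change a * (a * Real.exp (a * x 0) * h 0) * k 0 = _
  ring

private theorem WMP_norm {a : ℝ} (ha : 0 ≤ a) (x : V2) :
    ‖fderiv ℝ (WMP_v a) x‖ ≤ a * Real.exp (a * x 0) := by
  rw [WMP_fd]
  simp only
  rw [norm_smul, Real.norm_eq_abs, abs_of_nonneg (by positivity)]
  refine mul_le_of_le_one_right (by positivity) ?_
  refine ContinuousLinearMap.opNorm_le_bound _ zero_le_one fun y => ?_
  rw [one_mul]
  exact PiLp.norm_apply_le y 0

private theorem WMP_Ell (A B C : V2 → ℝ) (a : ℝ) (x : V2) :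
    Ell A B C (WMP_v a) x = A x * (a ^ 2 * Real.exp (a * x 0)) := by
  unfold Ell
  rw [WMP_D2, WMP_D2, WMP_D2]
  simp

private theorem WMP_nonneg {A B C w : V2 → ℝ} {K : ℝ} (hw : ContDiff ℝ 2 w)
    (hA : Continuous A)
    (hAp : ∀ x : V2, ‖x‖ ≤ 1 → 0 < A x)
    (hABC : ∀ x : V2, ‖x‖ ≤ 1 → B x ^ 2 < A x * C x)
    (h0 : ∀ x : V2, ‖x‖ = 1 → w x = 0)
    (hdi : ∀ x : V2, ‖x‖ < 1 → Ell A B C w x ≤ K * ‖fderiv ℝ w x‖) :
    ∀ x : V2, ‖x‖ ≤ 1 → 0 ≤ w x := by
  intro x₁ hx₁
  by_contra hneg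
  push Not at hneg
  have hcomp : IsCompact (closedBall (0 : V2) 1) := isCompact_closedBall 0 1
  have hne : (closedBall (0 : V2) 1).Nonempty := ⟨0, mem_closedBall_self zero_le_one⟩
  have hmem : ∀ x : V2, x ∈ closedBall (0 : V2) 1 ↔ ‖x‖ ≤ 1 := fun x => by
    rw [mem_closedBall_zero_iff]
  obtain ⟨xm, hxm, hmin⟩ := hcomp.exists_isMinOn hne hA.continuousOn
  set l := A xm with hl
  have hlpos : 0 < l := hAp xm ((hmem xm).1 hxm)
  have hAl : ∀ x : V2, ‖x‖ ≤ 1 → l ≤ A x := fun x hx => hmin ((hmem x).2 hx)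
  set a : ℝ := |K| / l + 1 with ha
  have hapos : 0 < a := by positivity
  have haK : |K| < l * a := by
    rw [ha, mul_add, mul_one, mul_div_cancel₀ _ hlpos.ne']
    linarith
  set e : ℝ := -w x₁ / Real.exp a with he
  have hexp : 0 < Real.exp a := Real.exp_pos a
  have hepos : 0 < e := div_pos (by linarith) hexp
  have hee : e * Real.exp a = -w x₁ := by rw [he, div_mul_cancel₀ _ hexp.ne']
  set u : V2 → ℝ := fun y => w y - e * WMP_v a y with hu
  have huc : ContDiff ℝ 2 u := hw.sub (contDiff_const.mul (WMP_smooth a))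
  obtain ⟨x₂, hx₂, hmin₂⟩ := hcomp.exists_isMinOn hne huc.continuous.continuousOn
  have hx₂' : ‖x₂‖ ≤ 1 := (hmem x₂).1 hx₂
  have hvpos : ∀ x, 0 < WMP_v a x := fun x => Real.exp_pos _
  have hu21 : u x₂ ≤ u x₁ := hmin₂ ((hmem x₁).2 hx₁)
  have hu1 : u x₁ < w x₁ := by
    have := mul_pos hepos (hvpos x₁)
    simp only [hu]
    linarith
  rcases hx₂'.lt_or_eq with h1 | h1
  · have hloc : IsLocalMin u x₂ := by
      refine hmin₂.isLocalMin ?_
      exact closedBall_mem_nhds_of_mem (by rw [mem_ball_zero_iff]; exact h1)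
    have hd0 := hloc.fderiv_eq_zero
    have hwd : DifferentiableAt ℝ w x₂ := (hw.differentiable (by norm_num)) x₂
    have hvd : HasFDerivAt (fun y => e * WMP_v a y) (e • fderiv ℝ (WMP_v a) x₂) x₂ :=
      (((WMP_smooth a).differentiable (by norm_num)) x₂).hasFDerivAt.const_mul e
    have hd1 : fderiv ℝ u x₂ = fderiv ℝ w x₂ - e • fderiv ℝ (WMP_v a) x₂ :=
      (hwd.hasFDerivAt.sub hvd).fderiv
    rw [hd0] at hd1
    have hd2 : fderiv ℝ w x₂ = e • fderiv ℝ (WMP_v a) x₂ := (sub_eq_zero.1 hd1.symm)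
    have hE := Ell_nonneg_of_isLocalMin (hAp x₂ hx₂') (hABC x₂ hx₂') huc.contDiffAt hloc
    have hE2 : Ell A B C u x₂ = Ell A B C w x₂ - e * Ell A B C (WMP_v a) x₂ := by
      unfold Ell
      simp only [hu]
      rw [D2_sub_smul hw.contDiffAt (WMP_smooth a).contDiffAt,
        D2_sub_smul hw.contDiffAt (WMP_smooth a).contDiffAt,
        D2_sub_smul hw.contDiffAt (WMP_smooth a).contDiffAt]
      ring
    rw [hE2, WMP_Ell] at hE
    have h2 := hdi x₂ h1
    have h3 : ‖fderiv ℝ w x₂‖ ≤ e * (a * Real.exp (a * x₂ 0)) := by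
      rw [hd2, norm_smul, Real.norm_eq_abs, abs_of_pos hepos]
      exact mul_le_mul_of_nonneg_left (WMP_norm hapos.le x₂) hepos.le
    have h4 : K * ‖fderiv ℝ w x₂‖ ≤ |K| * (e * (a * Real.exp (a * x₂ 0))) := by
      refine (mul_le_mul_of_nonneg_right (le_abs_self K) (norm_nonneg _)).trans ?_
      exact mul_le_mul_of_nonneg_left h3 (abs_nonneg K)
    have h5 : 0 < e * (a * Real.exp (a * x₂ 0)) := by positivity
    have h6 := hAl x₂ hx₂'
    have h7 : |K| * (e * (a * Real.exp (a * x₂ 0))) <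
        l * a * (e * (a * Real.exp (a * x₂ 0))) := mul_lt_mul_of_pos_right haK h5
    have h8 : l * a * (e * (a * Real.exp (a * x₂ 0))) ≤
        A x₂ * a * (e * (a * Real.exp (a * x₂ 0))) := by
      refine mul_le_mul_of_nonneg_right ?_ h5.le
      exact mul_le_mul_of_nonneg_right h6 hapos.le
    have h9 : e * (A x₂ * (a ^ 2 * Real.exp (a * x₂ 0))) =
        A x₂ * a * (e * (a * Real.exp (a * x₂ 0))) := by ring
    rw [h9] at hE
    linarith
  · have h2 : x₂ 0 ≤ 1 := by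
      have := PiLp.norm_apply_le x₂ 0
      rw [h1, Real.norm_eq_abs] at this
      exact (le_abs_self _).trans this
    have h3 : WMP_v a x₂ ≤ Real.exp a := by
      refine Real.exp_le_exp.2 ?_
      nlinarith
    have h4 : e * WMP_v a x₂ ≤ e * Real.exp a := mul_le_mul_of_nonneg_left h3 hepos.le
    have h5 : u x₂ = -(e * WMP_v a x₂) := by
      simp only [hu]
      rw [h0 x₂ h1]; ring
    linarith

theorem wmp {A B C w : V2 → ℝ} {K : ℝ} (hw : ContDiff ℝ 2 w)
    (hA : Continuous A) (hB : Continuous B) (hC : Continuous C)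
    (hAp : ∀ x : V2, ‖x‖ ≤ 1 → 0 < A x)
    (hABC : ∀ x : V2, ‖x‖ ≤ 1 → B x ^ 2 < A x * C x)
    (h0 : ∀ x : V2, ‖x‖ = 1 → w x = 0)
    (hdi : ∀ x : V2, ‖x‖ < 1 → |Ell A B C w x| ≤ K * ‖fderiv ℝ w x‖) :
    ∀ x : V2, ‖x‖ ≤ 1 → w x = 0 := by
  intro x hx
  have h1 : 0 ≤ w x := WMP_nonneg hw hA hAp hABC h0
    (fun y hy => (le_abs_self _).trans (hdi y hy)) x hx
  have hneg1 : fderiv ℝ (fun y => -w y) = fun y => -fderiv ℝ w y := by
    funext y
    exact fderiv_fun_neg
  have hneg2 : ∀ y a b, D2 (fun y => -w y) y a b = -D2 w y a b := by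
    intro y a b
    unfold D2
    rw [hneg1, fderiv_fun_neg]
    simp
  have h2 : 0 ≤ -w x := WMP_nonneg (w := fun y => -w y) (K := K) hw.neg hA hAp hABC
    (fun y hy => by rw [h0 y hy, neg_zero])
    (fun y hy => by
      have h3 : Ell A B C (fun y => -w y) y = -Ell A B C w y := by
        unfold Ell
        rw [hneg2, hneg2, hneg2]; ring
      rw [h3, hneg1, norm_neg]
      exact (neg_le_abs _).trans (hdi y hy)) x hx
  linarith

end Pool.Agent.H99.SC
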