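import Pool.Agent.H99.SC.NRA
import Pool.Agent.H99.SC.PLN
import Pool.Agent.H99.SC.WMP

/-!
# NRD: mean curvature zero

`w u = ⟪ν, X u⟫ - ⟪ν, c⟫` (i.e. `⟪ν, X u⟫` minus a constant) vanishes on the unit circle.  `pln` with `c = ν`: in the open
disc `⟪nn, Lop X X⟫ = 0`, so `|Lop X w| ≤ K |Dw|` (adding a constant does not change derivatives).  `wmp` with
`A = cA X`, `B = cB X`, `C = cC X` (`contDiff_cA` etc., `cA_pos`, `cB_sq_lt`).
-/

set_option autoImplicit false

open scoped RealInnerProductSpace Topology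
open Metric Filter Set

noncomputable section

namespace Pool.Agent.H99.SC

theorem raw_plane {X : V2 → V3} (h : Raw X 0) {ν c : V3}
    (hb : ∀ u : V2, ‖u‖ = 1 → ⟪X u - c, ν⟫ = 0) : ∀ u : V2, ‖u‖ ≤ 1 → ⟪X u - c, ν⟫ = 0 := by
  have hpl : ContDiff ℝ 2 (fun x => ⟪ν, X x⟫) := contDiff_height h.smooth ν
  set w : V2 → ℝ := fun x => ⟪ν, X x⟫ - ⟪ν, c⟫ with hw
  have hwc : ContDiff ℝ 2 w := hpl.sub contDiff_const
  have hfd : fderiv ℝ w = fderiv ℝ (fun x => ⟪ν, X x⟫) := by
    funext x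
    rw [hw, fderiv_sub_const]
  have hD2 : ∀ x a b, D2 w x a b = D2 (fun x => ⟪ν, X x⟫) x a b := by
    intro x a b
    unfold D2
    rw [hfd]
  obtain ⟨K, hK⟩ := pln h.smooth h.imm ν
  have hwX : ∀ u : V2, w u = ⟪X u - c, ν⟫ := by
    intro u
    change ⟪ν, X u⟫ - ⟪ν, c⟫ = _
    rw [← inner_sub_right, real_inner_comm]
  have hmain := wmp (A := cA X) (B := cB X) (C := cC X) (w := w) (K := K) hwc
    (contDiff_cA h.smooth).continuous (contDiff_cB h.smooth).continuous
    (contDiff_cC h.smooth).continuous (fun x hx => cA_pos (h.imm x hx))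
    (fun x hx => cB_sq_lt (h.imm x hx)) (fun x hx => by rw [hwX]; exact hb x hx)
    (fun x hx => by
      have h1 := hK x hx.le
      have h2 := h.cmc x hx
      rw [real_inner_comm, mul_zero, zero_mul] at h2
      rw [h2, mul_zero, zero_div, sub_zero] at h1
      rw [hfd]
      have h3 : Ell (cA X) (cB X) (cC X) w x = Lop X (fun x => ⟪ν, X x⟫) x := by
        unfold Ell Lop
        rw [hD2, hD2, hD2]
        simp only [smul_eq_mul]
      rw [h3]
      exact h1)
  intro u hu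
  rw [← hwX]
  exact hmain u hu

end Pool.Agent.H99.SC
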