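import Pool.Agent.H99.SC.NRC
import Pool.Agent.H99.SC.NRD

/-!
# CNV: from functions with values in `Fin 3 → ℝ` to V3

`Y : V2 → (Fin 3 → ℝ)`, `X u = WithLp.toLp 2 (Y u)`.  `WithLp.toLp 2` is a continuous linear equivalence
(`(EuclideanSpace.equiv (Fin 3) ℝ).symm`, `PiLp.continuousLinearEquiv`), so `fderiv X u a = toLp 2 (fderiv Y u a)` and
`fderiv (fun p => fderiv Y p b) u a` is the same for `X`: `D2 X u a b = toLp 2 (fderiv (fun p => fderiv Y p b) u a)`
(`D2 X u a b = fderiv (fderiv X) u a b`, evaluation at `b` is linear).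
`dotProduct x y = ⟪toLp 2 x, toLp 2 y⟫`, `crossProduct x y` corresponds to `cr`.
`cnv_raw`: from the equation with dot products: `Yuu = fderiv (fderiv Y · e0) · e0` etc.  (`Yuv` is the derivative of `Yu` in the
direction `e1`: `D2 X u e1 e0 = D2 X u e0 e1`, `D2_symm`), `sqrt (n·n) = ‖n‖`, `n·n = ‖n‖^2`.
-/

set_option autoImplicit false

open scoped RealInnerProductSpace Topology
open Metric Filter Set

noncomputable section

namespace Pool.Agent.H99.SC

theorem cnv_dot (x y : Fin 3 → ℝ) :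
    dotProduct x y = ⟪(WithLp.toLp 2 x : V3), (WithLp.toLp 2 y : V3)⟫ := by
  rw [ip]; simp [dotProduct, Fin.sum_univ_three]


/-- the identification of `Fin 3 → ℝ` with `V3` -/
private def CNV_L : (Fin 3 → ℝ) →L[ℝ] V3 :=
  ((EuclideanSpace.equiv (Fin 3) ℝ).symm : (Fin 3 → ℝ) →L[ℝ] V3)

private theorem CNV_L_apply (y : Fin 3 → ℝ) : CNV_L y = (WithLp.toLp 2 y : V3) := rfl

private theorem CNV_D1 {Y : V2 → (Fin 3 → ℝ)} (hY : ContDiff ℝ 2 Y) (u a : V2) :
    fderiv ℝ (fun u => (WithLp.toLp 2 (Y u) : V3)) u a = WithLp.toLp 2 (fderiv ℝ Y u a) := by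
  have h1 : HasFDerivAt Y (fderiv ℝ Y u) u := (hY.differentiable (by norm_num) u).hasFDerivAt
  have h2 : HasFDerivAt (fun u => CNV_L (Y u)) (CNV_L.comp (fderiv ℝ Y u)) u :=
    CNV_L.hasFDerivAt.comp u h1
  have h3 := h2.fderiv
  have h4 : (fun u => CNV_L (Y u)) = fun u => (WithLp.toLp 2 (Y u) : V3) := rfl
  rw [h4] at h3
  rw [h3]
  rfl

private theorem CNV_D2 {Y : V2 → (Fin 3 → ℝ)} (hY : ContDiff ℝ 2 Y) (u a b : V2) :
    D2 (fun u => (WithLp.toLp 2 (Y u) : V3)) u a b =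
      WithLp.toLp 2 (fderiv ℝ (fun p => fderiv ℝ Y p b) u a) := by
  set X : V2 → V3 := fun u => (WithLp.toLp 2 (Y u) : V3) with hX
  have hXs : ContDiff ℝ 2 X := CNV_L.contDiff.comp hY
  have hd : ∀ {F : Type} [NormedAddCommGroup F] [NormedSpace ℝ F] {f : V2 → F},
      ContDiff ℝ 2 f → Differentiable ℝ (fderiv ℝ f) := by
    intro F _ _ f hf
    exact (hf.fderiv_right (m := 1) (by norm_num)).differentiable (by norm_num)
  have h1 : HasFDerivAt (fderiv ℝ X) (fderiv ℝ (fderiv ℝ X) u) u := (hd hXs u).hasFDerivAt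
  have h2 : HasFDerivAt (fun p => fderiv ℝ X p b)
      ((fderiv ℝ (fderiv ℝ X) u).flip b) u := by
    have := h1.clm_apply (hasFDerivAt_const b u)
    simpa using this
  have h3 : HasFDerivAt (fderiv ℝ Y) (fderiv ℝ (fderiv ℝ Y) u) u := (hd hY u).hasFDerivAt
  have h4 : HasFDerivAt (fun p => fderiv ℝ Y p b)
      ((fderiv ℝ (fderiv ℝ Y) u).flip b) u := by
    have := h3.clm_apply (hasFDerivAt_const b u)
    simpa using this
  have h5 : HasFDerivAt (fun p => CNV_L (fderiv ℝ Y p b))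
      (CNV_L.comp ((fderiv ℝ (fderiv ℝ Y) u).flip b)) u := CNV_L.hasFDerivAt.comp u h4
  have h6 : (fun p => fderiv ℝ X p b) = fun p => CNV_L (fderiv ℝ Y p b) := by
    funext p
    rw [CNV_L_apply]
    exact CNV_D1 hY p b
  rw [h6] at h2
  have h7 := h2.unique h5
  have h8 : D2 X u a b = ((fderiv ℝ (fderiv ℝ X) u).flip b) a := rfl
  rw [h8, h7, h4.fderiv]
  rfl

private theorem CNV_cr (x y : Fin 3 → ℝ) :
    (WithLp.toLp 2 (crossProduct x y) : V3) = cr (WithLp.toLp 2 x) (WithLp.toLp 2 y) := by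
  apply ext3
  · rw [cr_0]; simp [cross_apply]
  · rw [cr_1]; simp [cross_apply]
  · rw [cr_2]; simp [cross_apply]

theorem cnv_raw {Y : V2 → (Fin 3 → ℝ)} (hY : ContDiff ℝ 2 Y) {H : ℝ}
    (himm : ∀ p : V2, ‖p‖ ≤ 1 → crossProduct (fderiv ℝ Y p (EuclideanSpace.single 0 1))
      (fderiv ℝ Y p (EuclideanSpace.single 1 1)) ≠ 0)
    (hinj : Set.InjOn Y (Metric.closedBall (0 : V2) 1))
    (hcmc : ∀ p : V2, ‖p‖ < 1 →
      dotProduct (fderiv ℝ Y p (EuclideanSpace.single 0 1))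
          (fderiv ℝ Y p (EuclideanSpace.single 0 1))
        * dotProduct (fderiv ℝ (fun p => fderiv ℝ Y p (EuclideanSpace.single 1 1)) p
            (EuclideanSpace.single 1 1))
          (crossProduct (fderiv ℝ Y p (EuclideanSpace.single 0 1))
            (fderiv ℝ Y p (EuclideanSpace.single 1 1)))
      - 2 * dotProduct (fderiv ℝ Y p (EuclideanSpace.single 0 1))
          (fderiv ℝ Y p (EuclideanSpace.single 1 1))
        * dotProduct (fderiv ℝ (fun p => fderiv ℝ Y p (EuclideanSpace.single 0 1)) p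
            (EuclideanSpace.single 1 1))
          (crossProduct (fderiv ℝ Y p (EuclideanSpace.single 0 1))
            (fderiv ℝ Y p (EuclideanSpace.single 1 1)))
      + dotProduct (fderiv ℝ Y p (EuclideanSpace.single 1 1))
          (fderiv ℝ Y p (EuclideanSpace.single 1 1))
        * dotProduct (fderiv ℝ (fun p => fderiv ℝ Y p (EuclideanSpace.single 0 1)) p
            (EuclideanSpace.single 0 1))
          (crossProduct (fderiv ℝ Y p (EuclideanSpace.single 0 1))
            (fderiv ℝ Y p (EuclideanSpace.single 1 1)))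
      = 2 * H * dotProduct (crossProduct (fderiv ℝ Y p (EuclideanSpace.single 0 1))
            (fderiv ℝ Y p (EuclideanSpace.single 1 1)))
          (crossProduct (fderiv ℝ Y p (EuclideanSpace.single 0 1))
            (fderiv ℝ Y p (EuclideanSpace.single 1 1)))
        * Real.sqrt (dotProduct (crossProduct (fderiv ℝ Y p (EuclideanSpace.single 0 1))
            (fderiv ℝ Y p (EuclideanSpace.single 1 1)))
          (crossProduct (fderiv ℝ Y p (EuclideanSpace.single 0 1))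
            (fderiv ℝ Y p (EuclideanSpace.single 1 1))))) :
    Raw (fun u => (WithLp.toLp 2 (Y u) : V3)) H := by
  have he0 : (EuclideanSpace.single 0 1 : V2) = e0 := rfl
  have he1 : (EuclideanSpace.single 1 1 : V2) = e1 := rfl
  simp only [he0, he1] at himm hcmc
  set X : V2 → V3 := fun u => (WithLp.toLp 2 (Y u) : V3) with hX
  have hXs : ContDiff ℝ 2 X := CNV_L.contDiff.comp hY
  have hnn : ∀ u, nn X u = WithLp.toLp 2 (crossProduct (fderiv ℝ Y u e0) (fderiv ℝ Y u e1)) := by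
    intro u
    rw [CNV_cr]
    unfold nn
    rw [CNV_D1 hY u e0, CNV_D1 hY u e1]
  refine ⟨hXs, ?_, ?_, ?_⟩
  · intro u hu h0
    rw [hnn] at h0
    exact himm u hu ((WithLp.toLp_injective 2) h0)
  · intro u v hu hv huv
    exact hinj (by simpa using hu) (by simpa using hv) ((WithLp.toLp_injective 2) huv)
  · intro u hu
    have h1 := hcmc u hu
    simp only [cnv_dot] at h1
    rw [← hnn u, ← CNV_D1 hY u e0, ← CNV_D1 hY u e1, ← CNV_D2 hY u e1 e1, ← CNV_D2 hY u e1 e0,
      ← CNV_D2 hY u e0 e0] at h1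
    have h2 : D2 X u e1 e0 = D2 X u e0 e1 := D2_symm hXs.contDiffAt _ _
    have h3 : ⟪nn X u, nn X u⟫ = ‖nn X u‖ ^ 2 := real_inner_self_eq_norm_sq _
    change ⟪fderiv ℝ X u e0, fderiv ℝ X u e0⟫ * ⟪D2 X u e1 e1, nn X u⟫
      - 2 * ⟪fderiv ℝ X u e0, fderiv ℝ X u e1⟫ * ⟪D2 X u e1 e0, nn X u⟫
      + ⟪fderiv ℝ X u e1, fderiv ℝ X u e1⟫ * ⟪D2 X u e0 e0, nn X u⟫
      = 2 * H * ⟪nn X u, nn X u⟫ * Real.sqrt ⟪nn X u, nn X u⟫ at h1
    rw [h2, h3, Real.sqrt_sq (norm_nonneg _)] at h1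
    unfold Lop cA cB cC
    rw [inner_add_left, inner_add_left, real_inner_smul_left, real_inner_smul_left,
      real_inner_smul_left]
    linear_combination h1

end Pool.Agent.H99.SC
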