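import Pool.Agent.H99.SC.LA

/-!
# CONE: the solid cone over the disc and reflections in tilted planes (pure algebra)

`z = zc e a h = (-a e, -h)`, `e` a horizontal unit vector, `a ≥ 0`, `h > 0`, `T > 0`,
`n = nT e T = (e + T E3)/sqrt(1+T^2)` (`cos = 1/sqrt(1+T^2)`, `sin = T/sqrt(1+T^2)`).
`InCone z y` : `y` is in the open solid cone over the unit disc with apex `z`.

For `d ∈ Disc`, `s = 2 (t - ⟪n,d⟫)`, `y = refl n t d = d + s n`; `d' = (d 0, d 1)`, `d₁ = ⟪e,d⟫`, `|d'| ≤ 1`,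
`y' = d' + s cos e`, `y 2 = s sin`, `m = h cos - a sin`:
`h y' + (y 2) z' = h d' + s m e`, and `(h + y 2)^2 - |h y' + (y 2) z'|^2
  = h^2 (1 - |d'|^2) + 2 h s sin + s^2 sin^2 - 2 h s m d₁ - s^2 m^2`.
`cone1` (part 1): `t > cos`, `h < (1+a) T`, `a T ≤ h`: `s > 0` and `0 ≤ m < sin` and `d₁ ≤ 1`, so this is
`≥ 2 h s (sin - m) + s^2 (sin^2 - m^2) > 0`.
`cone2` (part 2): `t = tT h a T`: `t = kappa sin` with `kappa = 1/(h - a T)`, `m = cos/kappa`;
`d₁ cos = t - s/2`.  The sum equals `h^2 (1 - |d'|^2) + s^2 sin cos (T + (h T + a)(h - a T))`.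
`cone2'`: `d` on the circle and `⟪n,d⟫ > t`: `s < 0`, same identity, and `h + y 2 > 0`:
`y 2 = s sin = 2 T (kappa T - d₁)/(1+T^2) ≥ -2 T (1 - kappa T)/(1+T^2)`, `kappa ≥ 1/h`, and
`2 T (h - T) < h^2 (1 + T^2)` because `h^2 + h^2T^2 - 2 T h + 2 T^2 = (h-T)^2 + T^2 + h^2 T^2 > 0`
(if `kappa T ≥ 1` it is trivial: `d₁ ≤ 1`, `s ≥ 0`).
`hinge_id` (6.1): for `c` on the circle and `N = x c + y E3`:
`⟪n,N⟫ = -(sin/h) ⟪z - c, N⟫ + (1 - a T/h) (⟪n,c⟫ - t) ⟪c,N⟫`.
`hinge_vec`: for `c` on the circle with `⟪n,c⟫ = t`: `n = (sin/h) (c - z) + (1 - a T/h) ⟪n, TT c⟫ TT c`.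
-/

set_option autoImplicit false

open scoped RealInnerProductSpace Topology
open Metric Filter Set

noncomputable section

namespace Pool.Agent.H99.SC

def zc (e : V3) (a h : ℝ) : V3 := !₂[-(a * e 0), -(a * e 1), -h]

@[simp] theorem zc_0 (e : V3) (a h : ℝ) : (zc e a h) 0 = -(a * e 0) := by simp [zc]
@[simp] theorem zc_1 (e : V3) (a h : ℝ) : (zc e a h) 1 = -(a * e 1) := by simp [zc]
@[simp] theorem zc_2 (e : V3) (a h : ℝ) : (zc e a h) 2 = -h := by simp [zc]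

/-- the open solid cone over the unit disc with apex `z` -/
def InCone (z y : V3) : Prop :=
  0 < y 2 - z 2 ∧
    (-(z 2) * y 0 + y 2 * z 0) ^ 2 + (-(z 2) * y 1 + y 2 * z 1) ^ 2 < (y 2 - z 2) ^ 2

/-- unit normal of elevation `arctan T` -/
def nT (e : V3) (T : ℝ) : V3 := (Real.sqrt (1 + T ^ 2))⁻¹ • (e + T • E3)

/-- position of the plane in part 2 -/
def tT (h a T : ℝ) : ℝ := T / ((h - a * T) * Real.sqrt (1 + T ^ 2))

/-- the cosine -/
def CONE_c (T : ℝ) : ℝ := (Real.sqrt (1 + T ^ 2))⁻¹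

theorem CONE_c_pos (T : ℝ) : 0 < CONE_c T := by
  unfold CONE_c
  have : 0 < 1 + T ^ 2 := by positivity
  positivity

theorem CONE_c_sq (T : ℝ) : CONE_c T ^ 2 * (1 + T ^ 2) = 1 := by
  unfold CONE_c
  have h : 0 < 1 + T ^ 2 := by positivity
  rw [inv_pow, Real.sq_sqrt h.le, inv_mul_cancel₀ h.ne']

theorem CONE_e {e : V3} (he : ‖e‖ = 1) (he2 : e 2 = 0) : e 0 ^ 2 + e 1 ^ 2 = 1 := by
  have := nsq e
  rw [he, he2] at this
  linarith

theorem CONE_n0 (e : V3) (T : ℝ) : (nT e T) 0 = CONE_c T * e 0 := by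
  simp [nT, CONE_c]
theorem CONE_n1 (e : V3) (T : ℝ) : (nT e T) 1 = CONE_c T * e 1 := by
  simp [nT, CONE_c]
theorem CONE_n2 {e : V3} (he2 : e 2 = 0) (T : ℝ) : (nT e T) 2 = CONE_c T * T := by
  simp [nT, CONE_c, he2]

theorem CONE_tT {h a T : ℝ} (h2 : a * T < h) : tT h a T * (h - a * T) = T * CONE_c T := by
  unfold tT CONE_c
  have h1 : h - a * T ≠ 0 := by linarith
  have h3 : Real.sqrt (1 + T ^ 2) ≠ 0 := by
    have : 0 < 1 + T ^ 2 := by positivity
    positivity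
  generalize h - a * T = k at h1
  field_simp

/-- part 1, real numbers -/
theorem CONE_one {h s c T m p q : ℝ} (hh : 0 < h) (hs : 0 < s) (hm0 : 0 ≤ m)
    (hm1 : m < c * T) (hmp : m * p ≤ m) (hq : q ≤ 1) :
    h ^ 2 * q + 2 * h * s * m * p + s ^ 2 * m ^ 2 < (s * c * T + h) ^ 2 := by
  have h1 : 0 < 2 * (h * s * (c * T - m)) := by
    have : 0 < c * T - m := by linarith
    positivity
  have h2 : 0 ≤ 2 * (h * s * (m - m * p)) := by
    have : 0 ≤ m - m * p := by linarith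
    positivity
  have h3 : 0 < s ^ 2 * (c * T - m) * (c * T + m) := by
    have : 0 < c * T - m := by linarith
    have h4 : 0 < c * T + m := by linarith
    positivity
  have h5 : 0 ≤ h ^ 2 * (1 - q) := by
    have : 0 ≤ 1 - q := by linarith
    positivity
  have h6 : (s * c * T + h) ^ 2 = h ^ 2 * q + 2 * h * s * m * p + s ^ 2 * m ^ 2
      + 2 * (h * s * (c * T - m)) + 2 * (h * s * (m - m * p))
      + s ^ 2 * (c * T - m) * (c * T + m) + h ^ 2 * (1 - q) := by ring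
  linarith

theorem CONE_p {e : V3} (he : e 0 ^ 2 + e 1 ^ 2 = 1) {d : V3} (hd : d 0 ^ 2 + d 1 ^ 2 ≤ 1) :
    e 0 * d 0 + e 1 * d 1 ≤ 1 := by
  nlinarith [sq_nonneg (e 0 - d 0), sq_nonneg (e 1 - d 1)]

theorem CONE_in {e : V3} (he2 : e 2 = 0) (T : ℝ) {d : V3} (hd : d 2 = 0) :
    ⟪nT e T, d⟫ = CONE_c T * (e 0 * d 0 + e 1 * d 1) := by
  rw [ip, CONE_n0, CONE_n1, CONE_n2 he2, hd]; ring

/-- the coordinates of a reflected point and the cone condition -/
theorem CONE_key {e : V3} (he : e 0 ^ 2 + e 1 ^ 2 = 1) (he2 : e 2 = 0) {a h T t : ℝ}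
    {d : V3} (hd2 : d 2 = 0) :
    (refl (nT e T) t d) 2 = 2 * (t - CONE_c T * (e 0 * d 0 + e 1 * d 1)) * CONE_c T * T ∧
    ((-((zc e a h) 2) * (refl (nT e T) t d) 0 + (refl (nT e T) t d) 2 * (zc e a h) 0) ^ 2
      + (-((zc e a h) 2) * (refl (nT e T) t d) 1 + (refl (nT e T) t d) 2 * (zc e a h) 1) ^ 2
      = h ^ 2 * (d 0 ^ 2 + d 1 ^ 2)
        + 2 * h * (2 * (t - CONE_c T * (e 0 * d 0 + e 1 * d 1))) * (CONE_c T * (h - a * T))
          * (e 0 * d 0 + e 1 * d 1)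
        + (2 * (t - CONE_c T * (e 0 * d 0 + e 1 * d 1))) ^ 2 * (CONE_c T * (h - a * T)) ^ 2) := by
  have hin := CONE_in he2 T hd2
  have r2 : (refl (nT e T) t d) 2
      = 2 * (t - CONE_c T * (e 0 * d 0 + e 1 * d 1)) * CONE_c T * T := by
    unfold refl
    rw [hin]
    simp only [PiLp.sub_apply, PiLp.smul_apply, smul_eq_mul, CONE_n2 he2, hd2]
    ring
  have r0 : (refl (nT e T) t d) 0
      = d 0 + 2 * (t - CONE_c T * (e 0 * d 0 + e 1 * d 1)) * (CONE_c T * e 0) := by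
    unfold refl
    rw [hin]
    simp only [PiLp.sub_apply, PiLp.smul_apply, smul_eq_mul, CONE_n0]
    ring
  have r1 : (refl (nT e T) t d) 1
      = d 1 + 2 * (t - CONE_c T * (e 0 * d 0 + e 1 * d 1)) * (CONE_c T * e 1) := by
    unfold refl
    rw [hin]
    simp only [PiLp.sub_apply, PiLp.smul_apply, smul_eq_mul, CONE_n1]
    ring
  refine ⟨r2, ?_⟩
  rw [r2, r1, r0, zc_0, zc_1, zc_2]
  linear_combination ((2 * (t - CONE_c T * (e 0 * d 0 + e 1 * d 1))) ^ 2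
    * (CONE_c T * (h - a * T)) ^ 2) * he

theorem nT_norm {e : V3} (he : ‖e‖ = 1) (he2 : e 2 = 0) (T : ℝ) : ‖nT e T‖ = 1 := by
  have h : ‖nT e T‖ ^ 2 = 1 := by
    rw [nsq, CONE_n0, CONE_n1, CONE_n2 he2]
    linear_combination CONE_c_sq T + CONE_c T ^ 2 * CONE_e he he2
  have h0 := norm_nonneg (nT e T)
  nlinarith

theorem nT_cont (e : V3) : Continuous (nT e) := by
  have h1 : Continuous (fun T : ℝ => (Real.sqrt (1 + T ^ 2))⁻¹) := by
    apply Continuous.inv₀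
    · fun_prop
    · intro T
      have : 0 < 1 + T ^ 2 := by positivity
      positivity
  have h2 : Continuous (fun T : ℝ => e + T • E3) := by fun_prop
  exact h1.smul h2

theorem cone1 {e : V3} (he : ‖e‖ = 1) (he2 : e 2 = 0) {a h T t : ℝ} (ha : 0 ≤ a) (hh : 0 < h)
    (hT : 0 < T) (hT1 : h < (1 + a) * T) (hT2 : a * T ≤ h) (ht : (Real.sqrt (1 + T ^ 2))⁻¹ < t)
    {d : V3} (hd : d ∈ Disc) :
    ⟪nT e T, d⟫ < t ∧ 0 < (refl (nT e T) t d) 2 ∧ InCone (zc e a h) (refl (nT e T) t d) := by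
  obtain ⟨hd2, hd1⟩ := hd
  have he' := CONE_e he he2
  have hp := CONE_p he' hd1
  have hc := CONE_c_pos T
  have ht' : CONE_c T < t := ht
  obtain ⟨k2, k⟩ := CONE_key (a := a) (h := h) (T := T) (t := t) he' he2 hd2
  rw [CONE_in he2 T hd2]
  set p := e 0 * d 0 + e 1 * d 1 with hpd
  set c := CONE_c T with hcd
  have hcp : c * p ≤ c := by nlinarith
  have hs : 0 < 2 * (t - c * p) := by linarith
  have hy : 0 < (refl (nT e T) t d) 2 := by rw [k2]; positivity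
  refine ⟨by linarith, hy, ?_, ?_⟩
  · rw [zc_2]; linarith
  · rw [k, zc_2, k2]
    have hm0 : 0 ≤ c * (h - a * T) := mul_nonneg hc.le (by linarith)
    have hm1 : c * (h - a * T) < c * T := by
      apply mul_lt_mul_of_pos_left _ hc
      linarith
    have hmp : c * (h - a * T) * p ≤ c * (h - a * T) := by
      have := mul_le_mul_of_nonneg_left hp hm0
      linarith
    have := CONE_one hh hs hm0 hm1 hmp hd1
    rw [sub_neg_eq_add]
    exact this

/-- the main identity of part 2 -/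
theorem CONE_two {a h T t c p q s : ℝ} (hc : c ^ 2 * (1 + T ^ 2) = 1)
    (ht : t * (h - a * T) = T * c) (hs : s = 2 * (t - c * p)) :
    (s * c * T + h) ^ 2 - (h ^ 2 * q + 2 * h * s * (c * (h - a * T)) * p
      + s ^ 2 * (c * (h - a * T)) ^ 2)
      = h ^ 2 * (1 - q) + s ^ 2 * c ^ 2 * T * (T + (h * T + a) * (h - a * T)) := by
  have hp : c * p = t - s / 2 := by linarith
  have h1 : (c * (h - a * T)) * p = T * c - (h - a * T) * s / 2 := by
    calc (c * (h - a * T)) * p = (h - a * T) * (c * p) := by ring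
      _ = (h - a * T) * (t - s / 2) := by rw [hp]
      _ = t * (h - a * T) - (h - a * T) * s / 2 := by ring
      _ = _ := by rw [ht]
  linear_combination (-(2 * h * s)) * h1 - s ^ 2 * h * (h - a * T) * hc

theorem cone2 {e : V3} (he : ‖e‖ = 1) (he2 : e 2 = 0) {a h T : ℝ} (ha : 0 ≤ a) (hh : 0 < h)
    (hT : 0 < T) (hT2 : a * T < h) {d : V3} (hd : d ∈ Disc) (hl : ⟪nT e T, d⟫ < tT h a T) :
    0 < (refl (nT e T) (tT h a T) d) 2 ∧ InCone (zc e a h) (refl (nT e T) (tT h a T) d) := by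
  obtain ⟨hd2, hd1⟩ := hd
  have he' := CONE_e he he2
  have hc := CONE_c_pos T
  obtain ⟨k2, k⟩ := CONE_key (a := a) (h := h) (T := T) (t := tT h a T) he' he2 hd2
  rw [CONE_in he2 T hd2] at hl
  have hw := CONE_two (a := a) (h := h) (T := T) (t := tT h a T) (c := CONE_c T)
    (p := e 0 * d 0 + e 1 * d 1) (q := d 0 ^ 2 + d 1 ^ 2) (CONE_c_sq T) (CONE_tT hT2) rfl
  set p := e 0 * d 0 + e 1 * d 1 with hpd
  set c := CONE_c T with hcd
  have hs : 0 < 2 * (tT h a T - c * p) := by linarith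
  have hy : 0 < (refl (nT e T) (tT h a T) d) 2 := by rw [k2]; positivity
  refine ⟨hy, ?_, ?_⟩
  · rw [zc_2]; linarith
  · rw [k, zc_2, k2]
    set s := 2 * (tT h a T - c * p) with hsd
    have h5 : 0 ≤ h ^ 2 * (1 - (d 0 ^ 2 + d 1 ^ 2)) := by
      have : 0 ≤ 1 - (d 0 ^ 2 + d 1 ^ 2) := by linarith
      positivity
    have h6 : 0 < s ^ 2 * c ^ 2 * T * (T + (h * T + a) * (h - a * T)) := by
      have : 0 < h - a * T := by linarith
      positivity
    rw [sub_neg_eq_add]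
    linarith

theorem cone2' {e : V3} (he : ‖e‖ = 1) (he2 : e 2 = 0) {a h T : ℝ} (ha : 0 ≤ a) (hh : 0 < h)
    (hT : 0 < T) (hT2 : a * T < h) {d : V3} (hd2 : d 2 = 0) (hd : d 0 ^ 2 + d 1 ^ 2 = 1)
    (hl : tT h a T < ⟪nT e T, d⟫) :
    (refl (nT e T) (tT h a T) d) 2 < 0 ∧ InCone (zc e a h) (refl (nT e T) (tT h a T) d) := by
  have he' := CONE_e he he2
  have hp := CONE_p he' hd.le
  have hc := CONE_c_pos T
  have hcs := CONE_c_sq T
  have htt := CONE_tT hT2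
  obtain ⟨k2, k⟩ := CONE_key (a := a) (h := h) (T := T) (t := tT h a T) he' he2 hd2
  rw [CONE_in he2 T hd2] at hl
  have hw := CONE_two (a := a) (h := h) (T := T) (t := tT h a T) (c := CONE_c T)
    (p := e 0 * d 0 + e 1 * d 1) (q := d 0 ^ 2 + d 1 ^ 2) (CONE_c_sq T) (CONE_tT hT2) rfl
  set p := e 0 * d 0 + e 1 * d 1 with hpd
  set c := CONE_c T with hcd
  set t := tT h a T with htd
  have hs : 2 * (t - c * p) < 0 := by linarith
  have hk : 0 < h - a * T := by linarith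
  have ht0 : 0 < t := by
    have : 0 < T * c := by positivity
    rw [← htt] at this
    exact (mul_pos_iff_of_pos_right hk).1 this
  have hy : (refl (nT e T) t d) 2 < 0 := by
    rw [k2]
    have : 0 < c * T := by positivity
    have h1 := mul_neg_of_neg_of_pos hs this
    rw [mul_assoc]
    exact h1
  have haT : 0 ≤ a * T := by positivity
  have hth : T * c ≤ t * h := by
    have : 0 ≤ t * (a * T) := by positivity
    rw [← htt]
    linarith
  -- h + y 2 > 0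
  have hpos : 0 < 2 * (t - c * p) * c * T + h := by
    have hcp : c * p ≤ c := by
      have := mul_le_mul_of_nonneg_left hp hc.le
      linarith
    have hcT : 0 < c * T := by positivity
    have h1 : 0 ≤ 2 * (c - c * p) * (c * T) := by
      have : 0 ≤ c - c * p := by linarith
      positivity
    have h2 : 0 < h * (2 * (t - c) * (c * T) + h) := by
      have h3 : 0 ≤ 2 * ((t * h - T * c) * (c * T)) := by
        have : 0 ≤ t * h - T * c := by linarith
        positivity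
      have h4 : 0 < c ^ 2 * ((h - T) ^ 2 + T ^ 2 + h ^ 2 * T ^ 2) := by positivity
      have h5 : h * (2 * (t - c) * (c * T) + h)
          = 2 * ((t * h - T * c) * (c * T)) + c ^ 2 * ((h - T) ^ 2 + T ^ 2 + h ^ 2 * T ^ 2) := by
        linear_combination (-(h ^ 2)) * hcs
      linarith
    have h6 := (mul_pos_iff_of_pos_left hh).1 h2
    have h7 : 2 * (t - c * p) * c * T + h
        = (2 * (t - c) * (c * T) + h) + 2 * (c - c * p) * (c * T) := by ring
    linarith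
  refine ⟨hy, ?_, ?_⟩
  · rw [zc_2, k2]; linarith
  · rw [k, zc_2, k2]
    have h5 : 0 ≤ h ^ 2 * (1 - (d 0 ^ 2 + d 1 ^ 2)) := by
      have : 0 ≤ 1 - (d 0 ^ 2 + d 1 ^ 2) := by linarith
      positivity
    have h6 : 0 < (2 * (t - c * p)) ^ 2 * c ^ 2 * T * (T + (h * T + a) * (h - a * T)) := by
      have : 0 < (2 * (t - c * p)) ^ 2 := by
        have h7 : 2 * (t - c * p) ≠ 0 := hs.ne
        positivity
      positivity
    rw [sub_neg_eq_add]
    linarith

theorem hinge_id {e : V3} (he : ‖e‖ = 1) (he2 : e 2 = 0) {a h T : ℝ} (hh : 0 < h)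
    (hT2 : a * T < h) {c : V3} (hc2 : c 2 = 0) (hc : c 0 ^ 2 + c 1 ^ 2 = 1) (x y : ℝ) :
    ⟪nT e T, x • c + y • E3⟫
      = -(T / Real.sqrt (1 + T ^ 2) / h) * ⟪zc e a h - c, x • c + y • E3⟫
        + (1 - a * T / h) * (⟪nT e T, c⟫ - tT h a T) * ⟪c, x • c + y • E3⟫ := by
  have htt := CONE_tT hT2
  have h1 : T / Real.sqrt (1 + T ^ 2) = T * CONE_c T := by
    unfold CONE_c; rw [div_eq_mul_inv]
  rw [h1]
  simp only [ip, CONE_n0, CONE_n1, CONE_n2 he2, hc2, PiLp.add_apply, PiLp.smul_apply,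
    PiLp.sub_apply, smul_eq_mul, E3_0, E3_1, E3_2, zc_0, zc_1, zc_2]
  have hh' : h ≠ 0 := hh.ne'
  have h2 : (1 - a * T / h) = (h - a * T) / h := by field_simp
  rw [h2]
  have h3 : ∀ X Y : ℝ, h * X = h * Y → X = Y := fun X Y hXY => mul_left_cancel₀ hh' hXY
  apply h3
  have h4 : h * (-(T * CONE_c T / h) * ((-(a * e 0) - c 0) * (x * c 0 + y * 0)
      + (-(a * e 1) - c 1) * (x * c 1 + y * 0) + (-h - 0) * (x * 0 + y * 1))
      + (h - a * T) / h * (CONE_c T * e 0 * c 0 + CONE_c T * e 1 * c 1 + CONE_c T * T * 0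
        - tT h a T) * (c 0 * (x * c 0 + y * 0) + c 1 * (x * c 1 + y * 0) + 0 * (x * 0 + y * 1)))
      = -(T * CONE_c T) * ((-(a * e 0) - c 0) * (x * c 0 + y * 0)
      + (-(a * e 1) - c 1) * (x * c 1 + y * 0) + (-h - 0) * (x * 0 + y * 1))
      + (h - a * T) * (CONE_c T * e 0 * c 0 + CONE_c T * e 1 * c 1 + CONE_c T * T * 0
        - tT h a T) * (c 0 * (x * c 0 + y * 0) + c 1 * (x * c 1 + y * 0)
          + 0 * (x * 0 + y * 1)) := by
    field_simp
  rw [h4]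
  linear_combination (x * (c 0 ^ 2 + c 1 ^ 2)) * htt
    + (-(x * (h - a * T) * CONE_c T * (e 0 * c 0 + e 1 * c 1))) * hc

theorem hinge_vec {e : V3} (he : ‖e‖ = 1) (he2 : e 2 = 0) {a h T : ℝ} (hh : 0 < h)
    (hT2 : a * T < h) {c : V3} (hc2 : c 2 = 0) (hc : c 0 ^ 2 + c 1 ^ 2 = 1)
    (hl : ⟪nT e T, c⟫ = tT h a T) :
    nT e T = (T / Real.sqrt (1 + T ^ 2) / h) • (c - zc e a h)
      + ((1 - a * T / h) * ⟪nT e T, TT c⟫) • TT c := by
  have htt := CONE_tT hT2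
  have h1 : T / Real.sqrt (1 + T ^ 2) = T * CONE_c T := by
    unfold CONE_c; rw [div_eq_mul_inv]
  have hh' : h ≠ 0 := hh.ne'
  rw [CONE_in he2 T hc2] at hl
  rw [← hl] at htt
  rw [h1]
  apply ext3
  · simp only [ip, CONE_n0, CONE_n1, CONE_n2 he2, hc2, PiLp.add_apply, PiLp.smul_apply,
      PiLp.sub_apply, smul_eq_mul, zc_0, zc_1, zc_2, TT_0, TT_1, TT_2]
    field_simp
    linear_combination (c 0) * htt - (CONE_c T * (h - T * a) * e 0) * hc
  · simp only [ip, CONE_n0, CONE_n1, CONE_n2 he2, hc2, PiLp.add_apply, PiLp.smul_apply,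
      PiLp.sub_apply, smul_eq_mul, zc_0, zc_1, zc_2, TT_0, TT_1, TT_2]
    field_simp
    linear_combination (c 1) * htt - (CONE_c T * (h - T * a) * e 1) * hc
  · simp only [ip, CONE_n0, CONE_n1, CONE_n2 he2, hc2, PiLp.add_apply, PiLp.smul_apply,
      PiLp.sub_apply, smul_eq_mul, zc_0, zc_1, zc_2, TT_0, TT_1, TT_2]
    field_simp
    ring

end Pool.Agent.H99.SC
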