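import Pool.Agent.H99.SC.FP

/-!
# LSIG: local structure of a domain near an interior point of the surface and near the disc

`sep`: a preconnected set disjoint from `frontier W` is inside `W` or disjoint from `closure W`
(W open: `interior W = W` and `(closure W)ᶜ` are disjoint open sets covering the complement of the
frontier).

`box_sig` (no domain): for a box at `u₀` with `‖u₀‖ ≤ 1` and small `ε`: a point `S.X v`, `‖v‖ ≤ 1`, of
`B.U ε` has `‖v - u₀‖ < B.r`, hence `B.b (S.X v) = v`, `B.f (S.X v) = 0`: so `y ∈ S.Sig ↔ (B.f y = 0 ∧ ‖B.b y‖ ≤ 1)`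
on `B.U ε` (use `S.emb` and `B.small`).

`lsig`: `‖u₀‖ < 1`.  Take `ε` small: `box_sig`, `ball u₀ ε ⊆ ball 0 1`, `B.U ε` disjoint from `Disc`
(compact, `D.disj`).  `{y ∈ U ε, 0 < f y}` is preconnected (`preconn_pos`), disjoint from the
frontier (`D.fr`), and contains `S.X u₀ + s N u₀` for small `s > 0` (`f (S.X u₀ + s N) > 0` for small
`s > 0` since the derivative of `f` in the direction `N` is `⟪g,N⟫ > 0`), a point of `W` by `D.inS`:
so it is inside `W`.  Same for `{f < 0}` and the complement of the closure.  `{f = 0}`: points of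
`S.Sig` with `‖b y‖ < 1`, limits of `S.X u + s N u ∈ W`; not in `W` because they are limits of
`S.X u - s N u`, not in the closure.

`ldisc`: `ball d ε` is disjoint from `S.Sig` for small `ε`: (`d ∈ S.Sig` with `d 2 = 0` and `‖d‖ < 1` is
impossible: `D.disj` and `S.bd1`), and points of `Disc` in it are those with `y 2 = 0`; the half balls are convex.
-/

set_option autoImplicit false

open scoped RealInnerProductSpace Topology
open Metric Filter Set

noncomputable section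

namespace Pool.Agent.H99.SC

theorem sep {W A : Set V3} (hW : IsOpen W) (hA : IsPreconnected A)
    (h : Disjoint A (frontier W)) : A ⊆ W ∨ A ⊆ (closure W)ᶜ := by
  refine hA.subset_or_subset hW isClosed_closure.isOpen_compl ?_ ?_
  · exact Set.disjoint_compl_right_iff_subset.2 subset_closure
  · intro y hy
    by_cases hc : y ∈ closure W
    · left
      by_contra hyW
      exact Set.disjoint_left.1 h hy ⟨hc, by rwa [hW.interior_eq]⟩
    · exact Or.inr hc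

theorem box_sig (S : Surf) {u₀ : V2} (hu₀ : ‖u₀‖ ≤ 1) {e : V3} (B : Box S.X u₀ e) :
    ∃ ε : ℝ, 0 < ε ∧ ε ≤ B.r ∧ (∀ v : V2, ‖v‖ ≤ 1 → S.X v ∈ B.U ε → ‖v - u₀‖ < B.r) ∧
      ∀ y ∈ B.U ε, (y ∈ S.Sig ↔ (B.f y = 0 ∧ ‖B.b y‖ ≤ 1)) := by
  obtain ⟨δ, hδ, hδ'⟩ := S.emb hu₀ B.hr
  obtain ⟨ε, hε, hεr, hU⟩ := B.small S.smooth.continuous (Metric.ball_mem_nhds (S.X u₀) hδ)
  have key : ∀ v : V2, ‖v‖ ≤ 1 → S.X v ∈ B.U ε → ‖v - u₀‖ < B.r := by
    intro v hv hvU
    exact hδ' v hv (by simpa [dist_eq_norm] using hU hvU)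
  refine ⟨ε, hε, hεr, key, ?_⟩
  intro y hy
  constructor
  · rintro ⟨v, hv, rfl⟩
    have h := key v hv hy
    rw [B.b_X h, B.f_X h]
    exact ⟨rfl, hv⟩
  · rintro ⟨h0, h1⟩
    refine ⟨B.b y, h1, ?_⟩
    have := (B.coord hεr hy).2.2
    rwa [h0, zero_smul, add_zero] at this

/-- `x + s w` tends to `x` as `s → 0+` -/
theorem lsig_tend (x w : V3) : Tendsto (fun s : ℝ => x + s • w) (𝓝[>] 0) (𝓝 x) := by
  have h : Tendsto (fun s : ℝ => x + s • w) (𝓝 0) (𝓝 (x + (0 : ℝ) • w)) :=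
    (continuous_const.add (continuous_id.smul continuous_const)).tendsto 0
  rw [zero_smul, add_zero] at h
  exact h.mono_left nhdsWithin_le_nhds

theorem lsig_tend' (x w : V3) : Tendsto (fun s : ℝ => x - s • w) (𝓝[>] 0) (𝓝 x) := by
  have h := lsig_tend x (-w)
  refine h.congr (fun s => ?_)
  rw [smul_neg, sub_eq_add_neg]

theorem lsig_ev {ε : ℝ} (hε : 0 < ε) : ∀ᶠ s : ℝ in 𝓝[>] 0, 0 < s ∧ s < ε := by
  filter_upwards [Ioo_mem_nhdsGT hε] with s hs using hs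

/-- interior points of the surface are in the closure of the domain -/
theorem lsig_cl {S : Surf} (D : PreDom S) {u : V2} (hu : ‖u‖ < 1) : S.X u ∈ closure D.W := by
  obtain ⟨ε, hε, h⟩ := D.inS u hu
  refine mem_closure_of_tendsto (lsig_tend (S.X u) (S.N u)) ?_
  filter_upwards [lsig_ev hε] with s hs using (h s hs.1 hs.2).1

theorem lsig_not {S : Surf} (D : PreDom S) {u : V2} (hu : ‖u‖ < 1) : S.X u ∉ D.W := by
  obtain ⟨ε, hε, h⟩ := D.inS u hu
  intro hW
  have h1 : ∀ᶠ s : ℝ in 𝓝[>] 0, S.X u - s • S.N u ∈ D.W :=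
    (lsig_tend' (S.X u) (S.N u)).eventually (D.isOpen.mem_nhds hW)
  obtain ⟨s, hs, hs'⟩ := (h1.and (lsig_ev hε)).exists
  exact (h s hs'.1 hs'.2).2 (subset_closure hs)

theorem lsig_dcl {S : Surf} (D : PreDom S) {d : V3} (h2 : d 2 = 0)
    (h1 : d 0 ^ 2 + d 1 ^ 2 < 1) : d ∈ closure D.W := by
  obtain ⟨ε, hε, h⟩ := D.inD d h2 h1
  refine mem_closure_of_tendsto (lsig_tend' d E3) ?_
  filter_upwards [lsig_ev hε] with s hs using (h s hs.1 hs.2).1

theorem lsig_dnot {S : Surf} (D : PreDom S) {d : V3} (h2 : d 2 = 0)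
    (h1 : d 0 ^ 2 + d 1 ^ 2 < 1) : d ∉ D.W := by
  obtain ⟨ε, hε, h⟩ := D.inD d h2 h1
  intro hW
  have h3 : ∀ᶠ s : ℝ in 𝓝[>] 0, d + s • E3 ∈ D.W :=
    (lsig_tend d E3).eventually (D.isOpen.mem_nhds hW)
  obtain ⟨s, hs, hs'⟩ := (h3.and (lsig_ev hε)).exists
  exact (h s hs'.1 hs'.2).2 (subset_closure hs)

/-- near an interior point of the surface `f` has the sign of the normal displacement -/
theorem lsig_sign {S : Surf} {u₀ : V2} (hu₀ : ‖u₀‖ ≤ 1) {e : V3} (B : Box S.X u₀ e) :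
    ∃ δ : ℝ, 0 < δ ∧ ∀ s : ℝ, 0 < s → s < δ →
      0 < B.f (S.X u₀ + s • S.N u₀) ∧ B.f (S.X u₀ - s • S.N u₀) < 0 := by
  have hyU : S.X u₀ ∈ B.U B.r := B.mem_U B.hr
  have hb : B.b (S.X u₀) = u₀ := B.b_X (by simpa using B.hr)
  have hf0 : B.f (S.X u₀) = 0 := B.f_X (by simpa using B.hr)
  have hNN : (NN S.X u₀) = S.N u₀ := rfl
  have hin : 0 < ⟪B.g (S.X u₀), S.N u₀⟫ := by
    have h1 := B.g_eq hyU
    have h2 := B.g_pos hyU
    have h3 := S.N_norm hu₀
    rw [h1, hb, hNN, inner_smul_left, real_inner_self_eq_norm_sq, h3]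
    simpa using h2
  have hd : HasFDerivAt B.f (fderiv ℝ B.f (S.X u₀)) (S.X u₀) :=
    ((B.smooth_f hyU).differentiableAt (by norm_num)).hasFDerivAt
  have hline : HasDerivAt (fun s : ℝ => S.X u₀ + s • S.N u₀) (S.N u₀) 0 := by
    have := ((hasDerivAt_id (0 : ℝ)).smul_const (S.N u₀)).const_add (S.X u₀)
    simpa using this
  have hcomp : HasDerivAt (fun s : ℝ => B.f (S.X u₀ + s • S.N u₀))
      (⟪B.g (S.X u₀), S.N u₀⟫) 0 := by
    have h1 : HasFDerivAt B.f (fderiv ℝ B.f (S.X u₀)) (S.X u₀ + (0 : ℝ) • S.N u₀) := by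
      simpa using hd
    have h2 := h1.comp_hasDerivAt (0 : ℝ) hline
    rw [B.fd S.smooth hyU] at h2
    exact h2
  have hslope := hasDerivAt_iff_tendsto_slope.1 hcomp
  have hev := hslope.eventually (lt_mem_nhds hin)
  rw [eventually_nhdsWithin_iff, Metric.eventually_nhds_iff] at hev
  obtain ⟨δ, hδ, h⟩ := hev
  refine ⟨δ, hδ, fun s hs hsδ => ?_⟩
  have hz : B.f (S.X u₀ + (0 : ℝ) • S.N u₀) = 0 := by simpa using hf0
  constructor
  · have h1 := h (y := s) (by simpa [abs_of_pos hs] using hsδ) hs.ne'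
    rw [slope_def_field, hz, sub_zero, sub_zero] at h1
    exact (div_pos_iff_of_pos_right hs).1 h1
  · have h1 := h (y := -s) (by simpa [abs_of_pos hs] using hsδ) (neg_ne_zero.2 hs.ne')
    rw [slope_def_field, hz, sub_zero, sub_zero] at h1
    have h2 : (-s) • S.N u₀ = -(s • S.N u₀) := neg_smul _ _
    rw [h2, ← sub_eq_add_neg] at h1
    by_contra hcon
    push Not at hcon
    have := div_nonpos_of_nonneg_of_nonpos hcon (neg_nonpos.2 hs.le)
    linarith

theorem lsig {S : Surf} (D : PreDom S) {u₀ : V2} (hu₀ : ‖u₀‖ < 1) {e : V3} (B : Box S.X u₀ e) :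
    ∃ ε : ℝ, 0 < ε ∧ ε ≤ B.r ∧ ∀ y ∈ B.U ε, ‖B.b y‖ < 1 ∧ y ∉ Disc ∧
      (y ∈ S.Sig ↔ B.f y = 0) ∧ (y ∈ D.W ↔ 0 < B.f y) ∧ (y ∈ closure D.W ↔ 0 ≤ B.f y) := by
  obtain ⟨ε₁, hε₁, hε₁r, -, hsig⟩ := box_sig S hu₀.le B
  obtain ⟨ε₂, hε₂, -, hU₂⟩ := B.small S.smooth.continuous
    (isCompact_Disc.isClosed.isOpen_compl.mem_nhds (D.disj u₀ hu₀))
  obtain ⟨ε, hε, hεlt⟩ : ∃ ε : ℝ, 0 < ε ∧ ε ≤ ε₁ ∧ ε ≤ ε₂ ∧ ε ≤ 1 - ‖u₀‖ :=
    ⟨min ε₁ (min ε₂ (1 - ‖u₀‖)), by
      refine lt_min hε₁ (lt_min hε₂ (by linarith)),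
      min_le_left _ _, (min_le_right _ _).trans (min_le_left _ _),
      (min_le_right _ _).trans (min_le_right _ _)⟩
  obtain ⟨he1, he2, he3⟩ := hεlt
  have hεr : ε ≤ B.r := he1.trans hε₁r
  have hb : ∀ y ∈ B.U ε, ‖B.b y‖ < 1 := by
    intro y hy
    have h1 := (B.coord hεr hy).1
    have h2 : ‖B.b y‖ ≤ ‖B.b y - u₀‖ + ‖u₀‖ := by
      simpa using norm_add_le (B.b y - u₀) u₀
    linarith
  have hD : ∀ y ∈ B.U ε, y ∉ Disc := fun y hy => hU₂ (B.U_mono he2 hy)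
  have hS : ∀ y ∈ B.U ε, (y ∈ S.Sig ↔ B.f y = 0) := by
    intro y hy
    rw [hsig y (B.U_mono he1 hy)]
    exact ⟨fun h => h.1, fun h => ⟨h, (hb y hy).le⟩⟩
  obtain ⟨δ, hδ, hsgn⟩ := lsig_sign hu₀.le B
  obtain ⟨η, hη, hin⟩ := D.inS u₀ hu₀
  have hnh : B.U ε ∈ 𝓝 (S.X u₀) := B.U_nhds hε hεr
  have hpos : {y | y ∈ B.U ε ∧ 0 < B.f y} ⊆ D.W := by
    rcases sep D.isOpen (B.preconn_pos S.smooth.continuous hε hεr) (by
      rw [Set.disjoint_left]
      rintro y ⟨hy, hf⟩ hyF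
      rcases D.fr hyF with h | h
      · exact hf.ne' ((hS y hy).1 h)
      · exact hD y hy h) with h | h
    · exact h
    · exfalso
      have h1 : ∀ᶠ s : ℝ in 𝓝[>] 0, S.X u₀ + s • S.N u₀ ∈ B.U ε :=
        (lsig_tend (S.X u₀) (S.N u₀)).eventually hnh
      obtain ⟨s, hs, hs1, hs2⟩ := (h1.and ((lsig_ev hδ).and (lsig_ev hη))).exists
      have h3 : S.X u₀ + s • S.N u₀ ∈ {y | y ∈ B.U ε ∧ 0 < B.f y} :=
        ⟨hs, (hsgn s hs1.1 hs1.2).1⟩
      exact h h3 (subset_closure (hin s hs2.1 hs2.2).1)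
  have hneg : {y | y ∈ B.U ε ∧ B.f y < 0} ⊆ (closure D.W)ᶜ := by
    rcases sep D.isOpen (B.preconn_neg S.smooth.continuous hε hεr) (by
      rw [Set.disjoint_left]
      rintro y ⟨hy, hf⟩ hyF
      rcases D.fr hyF with h | h
      · exact hf.ne ((hS y hy).1 h)
      · exact hD y hy h) with h | h
    · exfalso
      have h1 : ∀ᶠ s : ℝ in 𝓝[>] 0, S.X u₀ - s • S.N u₀ ∈ B.U ε :=
        (lsig_tend' (S.X u₀) (S.N u₀)).eventually hnh
      obtain ⟨s, hs, hs1, hs2⟩ := (h1.and ((lsig_ev hδ).and (lsig_ev hη))).exists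
      have h3 : S.X u₀ - s • S.N u₀ ∈ {y | y ∈ B.U ε ∧ B.f y < 0} :=
        ⟨hs, (hsgn s hs1.1 hs1.2).2⟩
      exact (hin s hs2.1 hs2.2).2 (subset_closure (h h3))
    · exact h
  have hzero : ∀ y ∈ B.U ε, B.f y = 0 → y ∉ D.W ∧ y ∈ closure D.W := by
    intro y hy hf
    have h1 := (B.coord hεr hy).2.2
    rw [hf, zero_smul, add_zero] at h1
    rw [← h1]
    exact ⟨lsig_not D (hb y hy), lsig_cl D (hb y hy)⟩
  refine ⟨ε, hε, hεr, fun y hy => ⟨hb y hy, hD y hy, hS y hy, ?_, ?_⟩⟩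
  · constructor
    · intro hW
      rcases lt_trichotomy (B.f y) 0 with h | h | h
      · exact absurd (subset_closure hW) (hneg ⟨hy, h⟩)
      · exact absurd hW (hzero y hy h).1
      · exact h
    · intro h
      exact hpos ⟨hy, h⟩
  · constructor
    · intro hW
      by_contra hcon
      push Not at hcon
      exact hneg ⟨hy, hcon⟩ hW
    · intro h
      rcases h.eq_or_lt with h | h
      · exact (hzero y hy h.symm).2
      · exact subset_closure (hpos ⟨hy, h⟩)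

theorem lsig_coord_cont (i : Fin 3) : Continuous (fun y : V3 => y i) := by fun_prop

theorem ldisc {S : Surf} (D : PreDom S) {d : V3} (h2 : d 2 = 0) (h1 : d 0 ^ 2 + d 1 ^ 2 < 1) :
    ∃ ε : ℝ, 0 < ε ∧ ∀ y ∈ ball d ε, y ∉ S.Sig ∧ (y ∈ D.W ↔ y 2 < 0) ∧
      (y ∈ closure D.W ↔ y 2 ≤ 0) := by
  have hdS : d ∉ S.Sig := by
    rintro ⟨u, hu, rfl⟩
    rcases hu.eq_or_lt with h | h
    · have := (S.bd1 h).2
      linarith
    · exact D.disj u h ⟨h2, h1.le⟩
  have hn1 : S.Sigᶜ ∈ 𝓝 d := S.isCompact_Sig.isClosed.isOpen_compl.mem_nhds hdS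
  have hn2 : {y : V3 | y 0 ^ 2 + y 1 ^ 2 < 1} ∈ 𝓝 d :=
    (isOpen_lt (by fun_prop) continuous_const).mem_nhds h1
  obtain ⟨ε, hε, hball⟩ := Metric.mem_nhds_iff.1 (inter_mem hn1 hn2)
  have hS : ∀ y ∈ ball d ε, y ∉ S.Sig := fun y hy => (hball hy).1
  have hlt : ∀ y ∈ ball d ε, y 0 ^ 2 + y 1 ^ 2 < 1 := fun y hy => (hball hy).2
  obtain ⟨η, hη, hin⟩ := D.inD d h2 h1
  have hcv1 : Convex ℝ {y : V3 | y ∈ ball d ε ∧ y 2 < 0} := by
    refine (convex_ball d ε).inter ?_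
    intro x hx y hy a b ha hb hab
    have hx' : x 2 < 0 := hx
    have hy' : y 2 < 0 := hy
    show (a • x + b • y) 2 < 0
    simp only [PiLp.add_apply, PiLp.smul_apply, smul_eq_mul]
    rcases ha.eq_or_lt with h | h
    · have hb1 : b = 1 := by linarith
      rw [← h, hb1]; linarith
    · have h3 := mul_neg_of_pos_of_neg h hx'
      have h4 := mul_nonpos_of_nonneg_of_nonpos hb hy'.le
      linarith
  have hcv2 : Convex ℝ {y : V3 | y ∈ ball d ε ∧ 0 < y 2} := by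
    refine (convex_ball d ε).inter ?_
    intro x hx y hy a b ha hb hab
    have hx' : 0 < x 2 := hx
    have hy' : 0 < y 2 := hy
    show 0 < (a • x + b • y) 2
    simp only [PiLp.add_apply, PiLp.smul_apply, smul_eq_mul]
    rcases ha.eq_or_lt with h | h
    · have hb1 : b = 1 := by linarith
      rw [← h, hb1]; linarith
    · have h3 := mul_pos h hx'
      have h4 := mul_nonneg hb hy'.le
      linarith
  have hneg : {y : V3 | y ∈ ball d ε ∧ y 2 < 0} ⊆ D.W := by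
    rcases sep D.isOpen hcv1.isPreconnected (by
      rw [Set.disjoint_left]
      rintro y ⟨hy, hf⟩ hyF
      rcases D.fr hyF with h | h
      · exact hS y hy h
      · exact hf.ne h.1) with h | h
    · exact h
    · exfalso
      have h1 : ∀ᶠ s : ℝ in 𝓝[>] 0, d - s • E3 ∈ ball d ε :=
        (lsig_tend' d E3).eventually (ball_mem_nhds d hε)
      obtain ⟨s, hs, hs1⟩ := (h1.and (lsig_ev hη)).exists
      have h3 : d - s • E3 ∈ {y : V3 | y ∈ ball d ε ∧ y 2 < 0} :=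
        ⟨hs, by simp [h2, hs1.1]⟩
      exact h h3 (subset_closure (hin s hs1.1 hs1.2).1)
  have hpos : {y : V3 | y ∈ ball d ε ∧ 0 < y 2} ⊆ (closure D.W)ᶜ := by
    rcases sep D.isOpen hcv2.isPreconnected (by
      rw [Set.disjoint_left]
      rintro y ⟨hy, hf⟩ hyF
      rcases D.fr hyF with h | h
      · exact hS y hy h
      · exact hf.ne' h.1) with h | h
    · exfalso
      have h1 : ∀ᶠ s : ℝ in 𝓝[>] 0, d + s • E3 ∈ ball d ε :=
        (lsig_tend d E3).eventually (ball_mem_nhds d hε)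
      obtain ⟨s, hs, hs1⟩ := (h1.and (lsig_ev hη)).exists
      have h3 : d + s • E3 ∈ {y : V3 | y ∈ ball d ε ∧ 0 < y 2} :=
        ⟨hs, by simp [h2, hs1.1]⟩
      exact (hin s hs1.1 hs1.2).2 (subset_closure (h h3))
    · exact h
  refine ⟨ε, hε, fun y hy => ⟨hS y hy, ?_, ?_⟩⟩
  · constructor
    · intro hW
      rcases lt_trichotomy (y 2) 0 with h | h | h
      · exact h
      · exact absurd hW (lsig_dnot D h (hlt y hy))
      · exact absurd (subset_closure hW) (hpos ⟨hy, h⟩)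
    · intro h
      exact hneg ⟨hy, h⟩
  · constructor
    · intro hW
      by_contra hcon
      push Not at hcon
      exact hpos ⟨hy, hcon⟩ hW
    · intro h
      rcases h.eq_or_lt with h | h
      · exact lsig_dcl D h (hlt y hy)
      · exact subset_closure (hneg ⟨hy, h⟩)

theorem lsig_scal (v : V2) : Tendsto (fun s : ℝ => (1 - s) • v) (𝓝[>] 0) (𝓝 v) := by
  have h : Tendsto (fun s : ℝ => (1 - s) • v) (𝓝 0) (𝓝 ((1 - (0 : ℝ)) • v)) :=
    ((continuous_const.sub continuous_id).smul continuous_const).tendsto 0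
  rw [sub_zero, one_smul] at h
  exact h.mono_left nhdsWithin_le_nhds

theorem lsig_scal3 (v : V3) : Tendsto (fun s : ℝ => (1 - s) • v) (𝓝[>] 0) (𝓝 v) := by
  have h : Tendsto (fun s : ℝ => (1 - s) • v) (𝓝 0) (𝓝 ((1 - (0 : ℝ)) • v)) :=
    ((continuous_const.sub continuous_id).smul continuous_const).tendsto 0
  rw [sub_zero, one_smul] at h
  exact h.mono_left nhdsWithin_le_nhds

theorem lsig_norm {v : V2} (hv : ‖v‖ ≤ 1) {s : ℝ} (hs : 0 < s) (hs1 : s < 1) :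
    ‖(1 - s) • v‖ < 1 := by
  rw [norm_smul, Real.norm_eq_abs, abs_of_pos (by linarith)]
  nlinarith [norm_nonneg v]

/-- the surface is in the closure of the domain -/
theorem sig_closure {S : Surf} (D : PreDom S) {y : V3} (hy : y ∈ S.Sig) : y ∈ closure D.W := by
  obtain ⟨u, hu, rfl⟩ := hy
  refine isClosed_closure.mem_of_tendsto
    ((S.smooth.continuous.tendsto u).comp (lsig_scal u)) ?_
  filter_upwards [lsig_ev one_pos] with s hs
  exact lsig_cl D (lsig_norm hu hs.1 hs.2)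

/-- surface and disc are disjoint from the open set `W` -/
theorem not_mem_W {S : Surf} (D : PreDom S) {y : V3} (hy : y ∈ S.Sig ∪ Disc) : y ∉ D.W := by
  rcases hy with ⟨u, hu, rfl⟩ | ⟨h2, h1⟩
  · have : S.X u ∈ D.Wᶜ := by
      refine D.isOpen.isClosed_compl.mem_of_tendsto
        ((S.smooth.continuous.tendsto u).comp (lsig_scal u)) ?_
      filter_upwards [lsig_ev one_pos] with s hs
      exact lsig_not D (lsig_norm hu hs.1 hs.2)
    exact this
  · have : y ∈ D.Wᶜ := by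
      refine D.isOpen.isClosed_compl.mem_of_tendsto (lsig_scal3 y) ?_
      filter_upwards [lsig_ev one_pos] with s hs
      refine lsig_dnot D (by simp [h2]) ?_
      have h3 : ((1 - s) • y) 0 ^ 2 + ((1 - s) • y) 1 ^ 2 = (1 - s) ^ 2 * (y 0 ^ 2 + y 1 ^ 2) := by
        simp only [PiLp.smul_apply, smul_eq_mul]; ring
      rw [h3]
      have h4 : 0 ≤ y 0 ^ 2 + y 1 ^ 2 := by positivity
      have h5 : (1 - s) ^ 2 < 1 := by nlinarith [hs.1, hs.2]
      nlinarith [sq_nonneg (1 - s)]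
    exact this

end Pool.Agent.H99.SC
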