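import Pool.Agent.H99.SC.HOPF

/-!
# SMP: strong maximum principle and touching

`smp`: `w` C^2 near `x₀`, `w >= 0` near `x₀`, `w x₀ = 0`, inequality near `x₀`: then `w = 0` near `x₀`.
Proof.  Let `ρ` be such that everything holds on `ball x₀ ρ` (use `Filter.Eventually.eventually_nhds`-
style shrinking: C^2, `w >= 0`, inequality, continuity of the coefficients and positive definiteness
at every point of the ball).  Suppose `w y > 0` with `|y - x₀| < ρ/2`.  Let `Z = {w = 0} n closedBall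
x₀ (3ρ/4)`, compact, contains `x₀`; `d = dist(y, Z) <= |y-x₀| < ρ/2`, `d > 0`, attained at `z`.
`ball y d` is inside `closedBall x₀ ρ` interior, `w > 0` on it, `|z - x₀| < ρ`.  `hopf` at `z` with
`ν = (y - z)/|y - z|`, `R = d` gives `Dw(z) ν > 0`, but `z` is a local minimum, `Dw(z) = 0`.

`touch`: boundary version: if `w >= 0` on `Ω`, `ball (x₀ + R ν) R ⊆ Ω`, `w x₀ = 0` and
`Dw(x₀) ν = 0` (or `≤ 0`), then every neighbourhood of `x₀` contains zeros of `w` in the ball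
`ball (x₀ + R' ν) R'` for every `R' ≤ R`.
Proof: otherwise `w > 0` on a smaller tangent ball and `hopf` applies.

`iball`: interior ball property of `{η > 0}`: for `|v|` small `η (x₀ + v) >= Dη(x₀) v - M |v|^2`
(C^2 Taylor; or: `Dη` is Lipschitz near `x₀`), with `ν` = normalised gradient, `Dη(x₀) v = g <ν,v>`, `g = Dη(x₀) ν > 0`; for
`x₀ + v` in `ball (x₀ + R ν) R`: `|v|^2 < 2 R <ν,v>`, so `η >= (g/(2R) - M)|v|^2 > 0` if `R < g/(2M)`.
-/

set_option autoImplicit false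

open scoped RealInnerProductSpace Topology
open Metric Filter Set

noncomputable section

namespace Pool.Agent.H99.SC

theorem smp {A B C w : V2 → ℝ} {x₀ : V2} {K : ℝ}
    (hw : ContDiffAt ℝ 2 w x₀) (h0 : w x₀ = 0) (hnn : ∀ᶠ x in 𝓝 x₀, 0 ≤ w x)
    (hA : ∀ᶠ x in 𝓝 x₀, ContinuousAt A x) (hB : ∀ᶠ x in 𝓝 x₀, ContinuousAt B x)
    (hC : ∀ᶠ x in 𝓝 x₀, ContinuousAt C x)
    (hAp : 0 < A x₀) (hABC : B x₀ ^ 2 < A x₀ * C x₀)
    (hdi : ∀ᶠ x in 𝓝 x₀, Ell A B C w x ≤ K * ‖fderiv ℝ w x‖) :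
    ∀ᶠ x in 𝓝 x₀, w x = 0 := by
  have hA0 : ContinuousAt A x₀ := hA.self_of_nhds
  have hB0 : ContinuousAt B x₀ := hB.self_of_nhds
  have hC0 : ContinuousAt C x₀ := hC.self_of_nhds
  have e1 : ∀ᶠ x in 𝓝 x₀, 0 < A x := hA0.eventually (lt_mem_nhds hAp)
  have e2 : ∀ᶠ x in 𝓝 x₀, B x ^ 2 < A x * C x := by
    have h1 : ContinuousAt (fun x => A x * C x - B x ^ 2) x₀ := (hA0.mul hC0).sub (hB0.pow 2)
    have h2 : 0 < (fun x => A x * C x - B x ^ 2) x₀ := sub_pos.2 hABC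
    filter_upwards [h1.eventually (lt_mem_nhds h2)] with x hx
    exact sub_pos.1 hx
  have e3 : ∀ᶠ x in 𝓝 x₀, ContDiffAt ℝ 2 w x := hw.eventually (by simp)
  have hall := ((((((e3.and hnn).and hA).and hB).and hC).and e1).and e2).and
    (eventually_eventually_nhds.2 hdi)
  obtain ⟨ρ, hρ, hball⟩ := Metric.eventually_nhds_iff_ball.1 hall
  rw [Metric.eventually_nhds_iff_ball]
  refine ⟨ρ / 4, by positivity, fun y hy => ?_⟩
  by_contra hwy
  rw [mem_ball] at hy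
  set Z : Set V2 := closedBall x₀ (ρ / 2) ∩ {z | w z = 0} with hZ
  have hcont : ContinuousOn w (closedBall x₀ (ρ / 2)) := by
    intro z hz
    have : z ∈ ball x₀ ρ := by
      rw [mem_closedBall] at hz; rw [mem_ball]; linarith
    exact (hball z this).1.1.1.1.1.1.1.continuousAt.continuousWithinAt
  have hZc : IsCompact Z := by
    have h1 : IsClosed Z := hcont.preimage_isClosed_of_isClosed isClosed_closedBall
      (isClosed_singleton (x := (0 : ℝ)))
    exact (isCompact_closedBall x₀ (ρ / 2)).of_isClosed_subset h1 inter_subset_left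
  have hx₀Z : x₀ ∈ Z := ⟨mem_closedBall_self (by positivity), h0⟩
  obtain ⟨z, hzZ, hzd⟩ := hZc.exists_infDist_eq_dist ⟨x₀, hx₀Z⟩ y
  have hzb : dist z x₀ ≤ ρ / 2 := hzZ.1
  have hwz : w z = 0 := hzZ.2
  set d := dist y z with hd
  have hdpos : 0 < d := by
    rw [hd, dist_pos]
    intro h
    exact hwy (h ▸ hwz)
  have hdle : d ≤ dist y x₀ := by
    rw [← hzd]; exact infDist_le_dist_of_mem hx₀Z
  have hposb : ∀ x ∈ ball y d, 0 < w x := by
    intro x hx
    rw [mem_ball] at hx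
    have h1 : dist x x₀ < ρ / 2 := by
      have := dist_triangle x y x₀
      linarith
    have h2 : x ∈ ball x₀ ρ := by rw [mem_ball]; linarith
    have h3 : 0 ≤ w x := (hball x h2).1.1.1.1.1.1.2
    rcases h3.eq_or_lt with h4 | h4
    · exfalso
      have h5 : x ∈ Z := ⟨by rw [mem_closedBall]; exact h1.le, h4.symm⟩
      have h6 := infDist_le_dist_of_mem (x := y) h5
      rw [hzd, dist_comm y x] at h6
      linarith
    · exact h4
  have hzball : z ∈ ball x₀ ρ := by rw [mem_ball]; linarith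
  have hPz := hball z hzball
  have hνn : ‖(d⁻¹ • (y - z) : V2)‖ = 1 := by
    rw [norm_smul, norm_inv, Real.norm_eq_abs, abs_of_pos hdpos, ← dist_eq_norm, ← hd,
      inv_mul_cancel₀ hdpos.ne']
  have hcen : z + d • (d⁻¹ • (y - z)) = y := by
    rw [smul_smul, mul_inv_cancel₀ hdpos.ne', one_smul, add_sub_cancel]
  have hh := hopf (A := A) (B := B) (C := C) (w := w) (x₀ := z) (ν := d⁻¹ • (y - z)) (K := K)
    hdpos hνn hPz.1.1.1.1.1.1.1 hwz hPz.1.1.1.1.1.2 hPz.1.1.1.1.2 hPz.1.1.1.2 hPz.1.1.2 hPz.1.2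
    (by rw [hcen]; exact hposb) (hPz.2.mono fun x hx _ => hx)
  have hmin : IsLocalMin w z := by
    have h1 : ∀ᶠ x in 𝓝 z, x ∈ ball x₀ ρ := isOpen_ball.mem_nhds hzball
    filter_upwards [h1] with x hx
    rw [hwz]
    exact (hball x hx).1.1.1.1.1.1.2
  rw [hmin.fderiv_eq_zero] at hh
  exact lt_irrefl _ hh

private theorem SMP_ball_sub {x₀ ν : V2} {R R' : ℝ} (hν : ‖ν‖ = 1) (h : R' ≤ R) :
    ball (x₀ + R' • ν) R' ⊆ ball (x₀ + R • ν) R := by
  refine ball_subset_ball' ?_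
  rw [dist_add_left, dist_eq_norm, ← sub_smul, norm_smul, hν, Real.norm_eq_abs,
    abs_of_nonpos (by linarith)]
  linarith

private theorem SMP_ball_sub' {x₀ ν : V2} {R' r : ℝ} (hν : ‖ν‖ = 1) (hR' : 0 ≤ R')
    (h : 2 * R' ≤ r) : ball (x₀ + R' • ν) R' ⊆ ball x₀ r := by
  refine ball_subset_ball' ?_
  rw [dist_eq_norm, add_sub_cancel_left, norm_smul, hν, Real.norm_eq_abs, abs_of_nonneg hR']
  linarith

theorem touch {A B C w : V2 → ℝ} {Ω : Set V2} {x₀ ν : V2} {K R : ℝ} (hR : 0 < R)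
    (hν : ‖ν‖ = 1) (hΩ : ball (x₀ + R • ν) R ⊆ Ω)
    (hw : ContDiffAt ℝ 2 w x₀) (h0 : w x₀ = 0) (hnn : ∀ᶠ x in 𝓝 x₀, x ∈ Ω → 0 ≤ w x)
    (hA : ContinuousAt A x₀) (hB : ContinuousAt B x₀) (hC : ContinuousAt C x₀)
    (hAp : 0 < A x₀) (hABC : B x₀ ^ 2 < A x₀ * C x₀)
    (hdi : ∀ᶠ x in 𝓝 x₀, x ∈ Ω → Ell A B C w x ≤ K * ‖fderiv ℝ w x‖)
    (hD : fderiv ℝ w x₀ ν ≤ 0) (ε : ℝ) (hε : 0 < ε) :
    ∃ x : V2, ‖x - x₀‖ < ε ∧ x ∈ Ω ∧ w x = 0 := by
  by_contra hcon
  push Not at hcon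
  obtain ⟨ρ, hρ, hball⟩ := Metric.eventually_nhds_iff_ball.1 hnn
  set R' := min R (min ε ρ / 2) with hR'
  have hR'pos : 0 < R' := lt_min hR (by positivity)
  have hR'R : R' ≤ R := min_le_left _ _
  have h2 : 2 * R' ≤ min ε ρ := by
    have := min_le_right R (min ε ρ / 2)
    rw [← hR'] at this
    linarith
  have hs1 : ball (x₀ + R' • ν) R' ⊆ Ω := (SMP_ball_sub hν hR'R).trans hΩ
  have hs2 : ball (x₀ + R' • ν) R' ⊆ ball x₀ (min ε ρ) := SMP_ball_sub' hν hR'pos.le h2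
  have hh := hopf (A := A) (B := B) (C := C) (w := w) (x₀ := x₀) (ν := ν) (K := K)
    hR'pos hν hw h0 hA hB hC hAp hABC (by
      intro x hx
      have h3 := hs2 hx
      rw [mem_ball] at h3
      have h4 : x ∈ ball x₀ ρ := by
        rw [mem_ball]; exact h3.trans_le (min_le_right _ _)
      have h5 : ‖x - x₀‖ < ε := by
        rw [← dist_eq_norm]; exact h3.trans_le (min_le_left _ _)
      exact lt_of_le_of_ne (hball x h4 (hs1 hx)) (Ne.symm (hcon x h5 (hs1 hx))))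
    (hdi.mono fun x hx hxb => hx (hs1 hxb))
  linarith

theorem iball {η : V2 → ℝ} {x₀ : V2} (hη : ContDiffAt ℝ 2 η x₀) (h0 : η x₀ = 0)
    (hD : fderiv ℝ η x₀ ≠ 0) :
    ∃ (ν : V2) (R : ℝ), 0 < R ∧ ‖ν‖ = 1 ∧ 0 < fderiv ℝ η x₀ ν ∧
      (∀ v : V2, fderiv ℝ η x₀ v = fderiv ℝ η x₀ ν * ⟪ν, v⟫) ∧
      ball (x₀ + R • ν) R ⊆ {x | 0 < η x} := by
  set L := fderiv ℝ η x₀ with hL
  set g : V2 := (InnerProductSpace.toDual ℝ V2).symm L with hg
  have hLg : ∀ v, L v = ⟪g, v⟫ := fun v => by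
    rw [hg, InnerProductSpace.toDual_symm_apply]
  have hg0 : g ≠ 0 := by
    intro h
    apply hD
    ext v
    rw [hLg v, h, inner_zero_left]; rfl
  have hgn : 0 < ‖g‖ := norm_pos_iff.2 hg0
  set ν : V2 := ‖g‖⁻¹ • g with hν
  have hνn : ‖ν‖ = 1 := by
    rw [hν, norm_smul, norm_inv, norm_norm, inv_mul_cancel₀ hgn.ne']
  have hLν : L ν = ‖g‖ := by
    rw [hLg, hν, inner_smul_right, real_inner_self_eq_norm_sq]
    field_simp
  have hLv : ∀ v, L v = ‖g‖ * ⟪ν, v⟫ := by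
    intro v
    rw [hLg, hν, real_inner_smul_left, ← mul_assoc, mul_inv_cancel₀ hgn.ne', one_mul]
  -- second order estimate
  obtain ⟨M, r, hr, hT⟩ : ∃ M r : ℝ, 0 < r ∧ ∀ v : V2, ‖v‖ < r →
      L v - M * ‖v‖ ^ 2 ≤ η (x₀ + v) := by
    have h1 : ContDiffAt ℝ 1 (fderiv ℝ η) x₀ := hη.fderiv_right (by norm_num)
    obtain ⟨M, t, ht, hlip⟩ := h1.exists_lipschitzOnWith
    have h2 : ∀ᶠ x in 𝓝 x₀, DifferentiableAt ℝ η x :=
      (hη.eventually (by simp)).mono fun x hx => hx.differentiableAt (by norm_num)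
    obtain ⟨r, hr, hball⟩ := Metric.eventually_nhds_iff_ball.1 (h2.and ht)
    refine ⟨M, r, hr, fun v hv => ?_⟩
    have hmv := (convex_closedBall x₀ ‖v‖).norm_image_sub_le_of_norm_hasFDerivWithin_le
      (f := fun x => η x - L x) (f' := fun x => fderiv ℝ η x - L) (C := M * ‖v‖)
      (x := x₀) (y := x₀ + v) (by
        intro x hx
        have hx' : x ∈ ball x₀ r := by
          rw [mem_closedBall] at hx; rw [mem_ball]; linarith
        exact ((hball x hx').1.hasFDerivAt.sub L.hasFDerivAt).hasFDerivWithinAt) (by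
        intro x hx
        have hx' : x ∈ ball x₀ r := by
          rw [mem_closedBall] at hx; rw [mem_ball]; linarith
        have h3 := hlip.dist_le_mul x (hball x hx').2 x₀ (hball x₀ (mem_ball_self hr)).2
        rw [dist_eq_norm] at h3
        refine h3.trans ?_
        exact mul_le_mul_of_nonneg_left hx (NNReal.coe_nonneg M))
      (mem_closedBall_self (norm_nonneg _)) (by
        rw [mem_closedBall, dist_eq_norm, add_sub_cancel_left])
    rw [add_sub_cancel_left, Real.norm_eq_abs, abs_le] at hmv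
    have h4 := hmv.1
    rw [h0, map_add] at h4
    nlinarith
  refine ⟨ν, min (r / 2) (‖g‖ / (2 * (|M| + 1))), ?_, hνn, ?_, ?_, ?_⟩
  · exact lt_min (by positivity) (by positivity)
  · rw [hLν]; exact hgn
  · intro v
    rw [hLν]; exact hLv v
  · set R := min (r / 2) (‖g‖ / (2 * (|M| + 1))) with hR
    have hRpos : 0 < R := lt_min (by positivity) (by positivity)
    have hRr : 2 * R ≤ r := by
      have := min_le_left (r / 2) (‖g‖ / (2 * (|M| + 1)))
      rw [← hR] at this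
      linarith
    have hRg : 2 * R * (|M| + 1) ≤ ‖g‖ := by
      have := min_le_right (r / 2) (‖g‖ / (2 * (|M| + 1)))
      rw [← hR, le_div_iff₀ (by positivity)] at this
      linarith
    intro x hx
    have hx1 : x ∈ ball x₀ r := SMP_ball_sub' hνn hRpos.le hRr hx
    set v := x - x₀ with hv
    have hxv : x = x₀ + v := by rw [hv, add_sub_cancel]
    have hvr : ‖v‖ < r := by rw [hv, ← dist_eq_norm]; exact hx1
    have h5 : ‖v - R • ν‖ < R := by
      rw [mem_ball, dist_eq_norm] at hx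
      rw [hv, sub_sub]; exact hx
    have h6 : ‖v‖ ^ 2 < 2 * R * ⟪ν, v⟫ := by
      have h7 := norm_sub_sq_real v (R • ν)
      rw [inner_smul_right, norm_smul, hνn, real_inner_comm, Real.norm_eq_abs, mul_one,
        sq_abs] at h7
      have h8 : ‖v - R • ν‖ ^ 2 < R ^ 2 := by
        exact pow_lt_pow_left₀ h5 (norm_nonneg _) two_ne_zero
      nlinarith
    have h9 := hT v hvr
    rw [← hxv, hLv v] at h9
    have h10 : 0 < ⟪ν, v⟫ := by
      have : 0 ≤ ‖v‖ ^ 2 := by positivity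
      by_contra hc
      push Not at hc
      nlinarith
    have h11 : M * ‖v‖ ^ 2 ≤ |M| * ‖v‖ ^ 2 :=
      mul_le_mul_of_nonneg_right (le_abs_self M) (by positivity)
    have h12 : (|M| + 1) * ‖v‖ ^ 2 < (|M| + 1) * (2 * R * ⟪ν, v⟫) :=
      mul_lt_mul_of_pos_left h6 (by positivity)
    have h13 : 2 * R * (|M| + 1) * ⟪ν, v⟫ ≤ ‖g‖ * ⟪ν, v⟫ :=
      mul_le_mul_of_nonneg_right hRg h10.le
    have h14 : 0 ≤ ‖v‖ ^ 2 := by positivity
    change 0 < η x
    nlinarith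

end Pool.Agent.H99.SC
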