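import Pool.Agent.H99.SC.DI
import Pool.Agent.H99.SC.LSIG
import Pool.Agent.H99.SC.SMP
import Pool.Agent.H99.SC.PLN

/-!
# CTA: interior contact (C1) and sign at the plane (C3)

`ct1`.  `u₁` in the open disc with `t < ⟪n, S.X u₁⟫`, `refl n t (S.X u₁) = S.X v₁`, `‖v₁‖ < 1`.
Box `B` at `v₁` with `e = S.N v₁`, `ε` from `lsig`.  `w u = B.f (refl n t (S.X u))` is C^2 near `u₁`, `w u₁ = 0`, and for
`u` near `u₁`: `t < ⟪n, S.X u⟫`, the reflected point is in `closure D.W ∩ B.U ε`, so `w u ≥ 0`.  Local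
minimum: `Dw(u₁) = 0`; `normal_pm`: the minus sign is excluded by `lop_neg` and
`Lop_nonneg_of_isLocalMin`.  So the normals agree, `di` applies (`⟪N,N⟫ = 1 > 0`, `‖b‖ < 1` near `u₁`),
and `smp` with `A = cA S.X`, .. gives `w = 0` near `u₁`, i.e. `refl n t (S.X u) ∈ S.Sig` (`lsig`).

`ct3`.  `u₁` in the open disc, `⟪n, S.X u₁⟫ = t`: then `⟪n, S.N u₁⟫ ≤ 0`.  Suppose `> 0`.  Box at `u₁`,
`e = S.N u₁`.  There are points `u` arbitrarily near `u₁` with `l u := ⟪n, S.X u⟫ - t > 0`: otherwise `l` has a local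
maximum at `u₁`, so `Dl(u₁) = 0`, i.e. `n` is orthogonal to the tangent plane, `n = S.N u₁` (`unit_eq`,
sign), and `Lop S.X l u₁ = ⟪n, Lop S.X S.X u₁⟫ = 2 H ‖nn‖^2 > 0` contradicts
`Lop_nonneg_of_isLocalMin` for `-l`.  For such `u` close to `u₁` the reflected point
`S.X u - 2 (l u) n` has `B.f < 0`: mean value theorem on the segment, where `Df n = ⟪g, n⟫ > 0` (near
`S.X u₁`, `g` is close to a positive multiple of `N u₁`).  So it is not in `closure D.W` (`lsig`),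
against the hypothesis.
-/

set_option autoImplicit false

open scoped RealInnerProductSpace Topology
open Metric Filter Set

noncomputable section

namespace Pool.Agent.H99.SC

theorem CTA_box {S : Surf} {u : V2} (hu : ‖u‖ ≤ 1) : 0 < ⟪nn S.X u, S.N u⟫ := by
  rw [S.nn_eq hu, inner_smul_left, real_inner_self_eq_norm_sq, S.N_norm hu]
  simpa using S.imm u hu

theorem CTA_cont {S : Surf} (n : V3) (t : ℝ) : Continuous fun u : V2 => refl n t (S.X u) :=
  (contDiff_refl n t).continuous.comp S.smooth.continuous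

theorem ct1 {S : Surf} (D : Dom S) {n : V3} {t : ℝ} (hn : ‖n‖ = 1) (hS : SS D n t) {u₁ : V2}
    (hu₁ : ‖u₁‖ < 1) (hl : t < ⟪n, S.X u₁⟫) {v₁ : V2} (hv₁ : ‖v₁‖ < 1)
    (hx : refl n t (S.X u₁) = S.X v₁) : ∀ᶠ u in 𝓝 u₁, refl n t (S.X u) ∈ S.Sig := by
  obtain ⟨B⟩ := exists_box S.smooth (CTA_box (S := S) hv₁.le)
  obtain ⟨ε, hε, hεr, hloc⟩ := lsig D.toPreDom hv₁ B
  have hUε : refl n t (S.X u₁) ∈ B.U ε := by
    rw [hx]
    exact B.mem_U hε
  have hUr : refl n t (S.X u₁) ∈ B.U B.r := B.U_mono hεr hUε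
  have hev1 : ∀ᶠ u in 𝓝 u₁, refl n t (S.X u) ∈ B.U ε := by
    refine (CTA_cont n t).continuousAt.eventually ?_
    exact (B.U_open hε hεr).mem_nhds hUε
  have hev2 : ∀ᶠ u in 𝓝 u₁, t < ⟪n, S.X u⟫ :=
    (continuous_const.inner S.smooth.continuous).continuousAt.eventually (lt_mem_nhds hl)
  have hev3 : ∀ᶠ u : V2 in 𝓝 u₁, ‖u‖ < 1 := continuous_norm.continuousAt.eventually
    (gt_mem_nhds hu₁)
  have hnn : ∀ᶠ u in 𝓝 u₁, 0 ≤ B.f (refl n t (S.X u)) := by
    filter_upwards [hev1, hev2, hev3] with u h1 h2 h3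
    exact (hloc _ h1).2.2.2.2.1 (hS u h3.le h2.le)
  have hw0 : B.f (refl n t (S.X u₁)) = 0 := by
    rw [hx]
    exact B.f_X (by simpa using B.hr)
  have hmin : IsLocalMin (fun x => B.f (refl n t (S.X x))) u₁ := by
    filter_upwards [hnn] with u hu
    show B.f (refl n t (S.X u₁)) ≤ B.f (refl n t (S.X u))
    rw [hw0]
    exact hu
  have hD := hmin.fderiv_eq_zero
  have hb : ‖B.b (refl n t (S.X u₁))‖ < 1 := (hloc _ hUε).1
  have hw := contDiffAt_w S B n t hUr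
  have hN : rl n (S.N u₁) = S.N (B.b (refl n t (S.X u₁))) := by
    rcases normal_pm S B hn t hu₁.le hUr hb.le hD with h | h
    · exact h
    · exfalso
      have h1 := lop_neg S B hn t hu₁ hUr hb h
      have h2 := Lop_nonneg_of_isLocalMin (S.imm u₁ hu₁.le) hw hmin
      linarith
  obtain ⟨K, hK⟩ := di S B hn t hu₁.le hUr hb.le (by
    rw [hN, real_inner_self_eq_norm_sq, S.N_norm hb.le]
    norm_num)
  have hzero := smp (A := cA S.X) (B := cB S.X) (C := cC S.X) (K := K) hw hw0 hnn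
    (Eventually.of_forall fun x => (contDiff_cA S.smooth).continuous.continuousAt)
    (Eventually.of_forall fun x => (contDiff_cB S.smooth).continuous.continuousAt)
    (Eventually.of_forall fun x => (contDiff_cC S.smooth).continuous.continuousAt)
    (cA_pos (S.imm u₁ hu₁.le)) (cB_sq_lt (S.imm u₁ hu₁.le)) (by
      filter_upwards [hK, hev1, hev3] with u h1 h2 h3
      rw [← Lop_eq_Ell]
      exact (le_abs_self _).trans (h1 h3 (hloc _ h2).1))
  filter_upwards [hzero, hev1] with u h1 h2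
  exact (hloc _ h2).2.2.1.2 h1

theorem CTA_freq {S : Surf} {n : V3} {t : ℝ} (hn : ‖n‖ = 1) {u₁ : V2} (hu₁ : ‖u₁‖ < 1)
    (hl : ⟪n, S.X u₁⟫ = t) (hpos : 0 < ⟪n, S.N u₁⟫) : ∃ᶠ u in 𝓝 u₁, t < ⟪n, S.X u⟫ := by
  intro hcon
  have hmin : IsLocalMin (fun x => ⟪-n, S.X x⟫) u₁ := by
    filter_upwards [hcon] with u hu
    show ⟪-n, S.X u₁⟫ ≤ ⟪-n, S.X u⟫
    rw [inner_neg_left, inner_neg_left, hl]
    linarith [not_lt.1 hu]
  have hD := hmin.fderiv_eq_zero
  have horth : ∀ a : V2, ⟪n, fderiv ℝ S.X u₁ a⟫ = 0 := by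
    intro a
    have h1 := fderiv_height S.smooth (-n) u₁ a
    rw [hD, inner_neg_left] at h1
    have h2 : (0 : V2 →L[ℝ] ℝ) a = 0 := rfl
    rw [h2] at h1
    linarith
  have hNn : n = S.N u₁ := by
    rcases S.unit_eq hu₁.le hn horth with h | h
    · exact h
    · exfalso
      rw [h, inner_neg_left, real_inner_self_eq_norm_sq, S.N_norm hu₁.le] at hpos
      linarith
  have h1 := Lop_nonneg_of_isLocalMin (S.imm u₁ hu₁.le)
    (contDiff_height S.smooth (-n)).contDiffAt hmin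
  rw [lop_height S.smooth (-n) u₁, inner_neg_left, hNn, real_inner_comm, S.cmcN hu₁] at h1
  have h2 := S.nn_pos hu₁.le
  have h3 := S.Hpos
  have h4 : 0 < 2 * S.H * ‖nn S.X u₁‖ ^ 2 := by positivity
  linarith

theorem ct3 {S : Surf} (D : Dom S) {n : V3} {t : ℝ} (hn : ‖n‖ = 1) (hS : SS D n t) {u₁ : V2}
    (hu₁ : ‖u₁‖ < 1) (hl : ⟪n, S.X u₁⟫ = t) : ⟪n, S.N u₁⟫ ≤ 0 := by
  by_contra hcon
  push Not at hcon
  obtain ⟨B⟩ := exists_box S.smooth (CTA_box (S := S) hu₁.le)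
  obtain ⟨ε, hε, hεr, hloc⟩ := lsig D.toPreDom hu₁ B
  have hmemr : S.X u₁ ∈ B.U B.r := B.mem_U B.hr
  have hb : B.b (S.X u₁) = u₁ := B.b_X (by simpa using B.hr)
  have hg : 0 < ⟪B.g (S.X u₁), n⟫ := by
    rw [B.g_eq hmemr, hb, inner_smul_left]
    simp only [RCLike.conj_to_real]
    refine mul_pos (B.g_pos hmemr) ?_
    rw [real_inner_comm]
    exact hcon
  have hgc : ∀ᶠ y in 𝓝 (S.X u₁), 0 < ⟪B.g y, n⟫ :=
    ((B.g_cont S.smooth hmemr).inner (𝕜 := ℝ) continuousAt_const).eventually (lt_mem_nhds hg)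
  have hgU : ∀ᶠ y in 𝓝 (S.X u₁), y ∈ B.U ε := B.U_nhds hε hεr
  obtain ⟨δ, hδ, hball⟩ := Metric.eventually_nhds_iff_ball.1 (hgc.and hgU)
  have hev1 : ∀ᶠ u in 𝓝 u₁, ‖S.X u - S.X u₁‖ < δ / 2 := by
    have : Continuous fun u : V2 => ‖S.X u - S.X u₁‖ :=
      (S.smooth.continuous.sub continuous_const).norm
    refine this.continuousAt.eventually (gt_mem_nhds ?_)
    show ‖S.X u₁ - S.X u₁‖ < δ / 2
    rw [sub_self, norm_zero]
    positivity
  have hev2 : ∀ᶠ u in 𝓝 u₁, ⟪n, S.X u⟫ < t + δ / 4 := by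
    refine (continuous_const.inner S.smooth.continuous).continuousAt.eventually (gt_mem_nhds ?_)
    show ⟪n, S.X u₁⟫ < t + δ / 4
    rw [hl]
    linarith
  have hev3 : ∀ᶠ u : V2 in 𝓝 u₁, ‖u‖ < 1 := continuous_norm.continuousAt.eventually
    (gt_mem_nhds hu₁)
  have hev4 : ∀ᶠ u : V2 in 𝓝 u₁, ‖u - u₁‖ < B.r := by
    have : Continuous fun u : V2 => ‖u - u₁‖ := by fun_prop
    refine this.continuousAt.eventually (gt_mem_nhds ?_)
    show ‖u₁ - u₁‖ < B.r
    rw [sub_self, norm_zero]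
    exact B.hr
  obtain ⟨u, hu, h1, h2, h3, h4⟩ :=
    ((CTA_freq hn hu₁ hl hcon).and_eventually (hev1.and (hev2.and (hev3.and hev4)))).exists
  set L : ℝ := 2 * (⟪n, S.X u⟫ - t) with hL
  have hL0 : 0 < L := by
    rw [hL]
    linarith
  have hLd : L < δ / 2 := by
    rw [hL]
    linarith
  have hmem : ∀ s ∈ Icc (0 : ℝ) L, S.X u - s • n ∈ ball (S.X u₁) δ := by
    intro s hs
    rw [mem_ball, dist_eq_norm]
    have e : S.X u - s • n - S.X u₁ = (S.X u - S.X u₁) - s • n := by abel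
    rw [e]
    refine (norm_sub_le _ _).trans_lt ?_
    rw [norm_smul, hn, mul_one, Real.norm_of_nonneg hs.1]
    linarith [hs.2]
  have hder : ∀ s ∈ Icc (0 : ℝ) L, HasDerivAt (fun s : ℝ => B.f (S.X u - s • n))
      (-⟪B.g (S.X u - s • n), n⟫) s := by
    intro s hs
    have hyr : S.X u - s • n ∈ B.U B.r := B.U_mono hεr (hball _ (hmem s hs)).2
    have hline : HasDerivAt (fun s : ℝ => S.X u - s • n) (-n) s := by
      simpa using ((hasDerivAt_id s).smul_const n).const_sub (S.X u)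
    have hfx : HasFDerivAt B.f (fderiv ℝ B.f (S.X u - s • n)) (S.X u - s • n) :=
      ((B.smooth_f hyr).differentiableAt (by norm_num)).hasFDerivAt
    have := hfx.comp_hasDerivAt s hline
    rwa [B.fd S.smooth hyr, inner_neg_right] at this
  have hanti : StrictAntiOn (fun s : ℝ => B.f (S.X u - s • n)) (Icc 0 L) := by
    refine strictAntiOn_of_deriv_neg (convex_Icc 0 L)
      (fun s hs => (hder s hs).continuousAt.continuousWithinAt) fun s hs => ?_
    rw [interior_Icc] at hs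
    have hs' : s ∈ Icc (0 : ℝ) L := ⟨hs.1.le, hs.2.le⟩
    rw [(hder s hs').deriv]
    have := (hball _ (hmem s hs')).1
    linarith
  have hlt := hanti (left_mem_Icc.2 hL0.le) (right_mem_Icc.2 hL0.le) hL0
  simp only [zero_smul, sub_zero] at hlt
  rw [B.f_X h4] at hlt
  have hrefl : refl n t (S.X u) = S.X u - L • n := rfl
  have hcl := hS u h3.le hu.le
  rw [hrefl] at hcl
  have := (hloc _ (hball _ (hmem L (right_mem_Icc.2 hL0.le))).2).2.2.2.2.1 hcl
  linarith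

end Pool.Agent.H99.SC
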