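import Pool.Agent.H99.SC.CTA

/-!
# CTB: contact at the plane with vertical tangent plane (C2)

`u₁` in the open disc, `⟪n, S.X u₁⟫ = t`, `⟪n, S.N u₁⟫ = 0`, and `SS D n t`.  Then
`refl n t (S.X u) ∈ S.Sig` for all `u` near `u₁`.
Proof.  `e = S.N u₁` (orthogonal to `n`), box `B` at `u₁`, `ε` from `lsig`,
`w u = B.f (refl n t (S.X u))`, `l u = ⟪n, S.X u⟫ - t`.  `refl n t (S.X u₁) = S.X u₁`, so `w u₁ = 0`; the
normals agree at `u₁` (`rl n N = N`), so `Dw(u₁) = 0` (`fderiv_w_zero`) and `di` holds near `u₁`.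
`Dl(u₁) ≠ 0` (`n` is tangent: `tangent` gives `a` with `fderiv X u₁ a = n`, `Dl a = 1`).  `iball` for `l`:
direction `ν`, radius `R`.  `w ≥ 0` on `{l > 0}` near `u₁` (hypothesis `SS` and `lsig`).
(1) `touch` with `Ω = {l > 0}`: zeros of `w` in `{l > 0}` arbitrarily near `u₁`; more precisely apply
`touch` with `Ω = ball (u₁ + R' ν) R'`, `R' ≤ R` small: a zero inside this ball.
(2) choose `ρ` such that on `ball u₁ ρ`: `w` C^2, `di`, `w ≥ 0` on `{l > 0}`, `Dl ν > 0`.  The zero set of `w` in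
`{l > 0} ∩ ball u₁ ρ` is open (`smp` at its points) and closed in `{l > 0} ∩ ball u₁ ρ`.  The ball
`ball (u₁ + R' ν) R'` (`2R' < ρ`, `R' ≤ R`) is convex, inside that set and contains a zero: so `w = 0` on it
(`IsPreconnected`).  For `u` with `‖u - u₁‖ < δ` (`δ` small against `R'`) and `l u > 0` the segment from `u` to `u + 2δ ν` is in
`{l > 0} ∩ ball u₁ ρ` (`l` increases along `ν`) and ends in `ball (u₁ + R' ν) R'`
(`‖u + 2δν - u₁ - R'ν‖^2 ≤ δ^2 + 2R'δ + R'^2 - 4 δ R' + 4 δ^2 + .. < R'^2`; write `v = u - u₁`, `|v| < δ`: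
`‖v + (2δ-R')ν‖^2 ≤ (δ + (R' - 2δ))^2 = (R' - δ)^2`).  So `w u = 0`.
(3) `l u = 0`: the reflected point is `S.X u`.  (4) `l u < 0`, `u` near `u₁`: let `y = refl n t (S.X u)`,
`v = B.b y`, so `y = S.X v + f(y) e`, and `⟪n,y⟫ - t = - l u > 0` while `⟪n,e⟫ = 0`, so `l v > 0` and `v` is
near `u₁`: `w v = 0` by (2), `refl n t (S.X v) = S.X v'` with `v' = B.b (..)` (`B.f = 0` and `coord`).
Reflect `y`: `S.X u = refl (S.X v) + f(y) rl n e = S.X v' + f(y) e` (`rl n e = e`), so by `B.left`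
`f(y) = B.f (S.X u) = 0`, and `y ∈ S.Sig`.
-/

set_option autoImplicit false

open scoped RealInnerProductSpace Topology
open Metric Filter Set

noncomputable section

namespace Pool.Agent.H99.SC

private theorem CTB_refl_fix {n : V3} {t : ℝ} {y : V3} (h : ⟪n, y⟫ = t) : refl n t y = y := by
  simp [refl, h]

private theorem CTB_rl_fix {n v : V3} (h : ⟪n, v⟫ = 0) : rl n v = v := by
  simp [rl, h]

private theorem CTB_inner_refl {n : V3} (hn : ‖n‖ = 1) (t : ℝ) (y : V3) :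
    ⟪n, refl n t y⟫ = 2 * t - ⟪n, y⟫ := by
  have h1 : ⟪n, n⟫ = (1 : ℝ) := by rw [real_inner_self_eq_norm_sq, hn]; norm_num
  simp only [refl, inner_sub_right, inner_smul_right, h1]
  ring

private theorem CTB_refl_refl {n : V3} (hn : ‖n‖ = 1) (t : ℝ) (y : V3) :
    refl n t (refl n t y) = y := by
  have h1 := CTB_inner_refl hn t y
  have h2 : refl n t (refl n t y) = refl n t y - (2 * (⟪n, refl n t y⟫ - t)) • n := rfl
  rw [h2, h1]
  have h3 : refl n t y = y - (2 * (⟪n, y⟫ - t)) • n := rfl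
  rw [h3, sub_sub, ← add_smul]
  have h4 : 2 * (⟪n, y⟫ - t) + 2 * (2 * t - ⟪n, y⟫ - t) = 0 := by ring
  rw [h4, zero_smul, sub_zero]

private theorem CTB_refl_add {n : V3} (t : ℝ) (y v : V3) :
    refl n t (y + v) = refl n t y + rl n v := by
  simp only [refl, rl, inner_add_right]
  have h4 : 2 * (⟪n, y⟫ + ⟪n, v⟫ - t) = 2 * (⟪n, y⟫ - t) + 2 * ⟪n, v⟫ := by ring
  rw [h4, add_smul]
  abel

private theorem CTB_rl_smul {n : V3} (c : ℝ) (v : V3) : rl n (c • v) = c • rl n v := by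
  simp only [rl, inner_smul_right, smul_sub, smul_smul]
  congr 2
  ring

theorem ct2 {S : Surf} (D : Dom S) {n : V3} {t : ℝ} (hn : ‖n‖ = 1) (hS : SS D n t) {u₁ : V2}
    (hu₁ : ‖u₁‖ < 1) (hl : ⟪n, S.X u₁⟫ = t) (hN : ⟪n, S.N u₁⟫ = 0) :
    ∀ᶠ u in 𝓝 u₁, refl n t (S.X u) ∈ S.Sig := by
  have hXc : Continuous S.X := S.smooth.continuous
  have hXd : Differentiable ℝ S.X := S.smooth.differentiable (by norm_num)
  have hnn1 : 0 < ‖nn S.X u₁‖ := S.nn_pos hu₁.le
  have hNN : ⟪S.N u₁, S.N u₁⟫ = (1 : ℝ) := by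
    rw [real_inner_self_eq_norm_sq, S.N_norm hu₁.le]; norm_num
  have hpos : 0 < ⟪nn S.X u₁, S.N u₁⟫ := by
    rw [S.nn_eq hu₁.le, inner_smul_left, hNN]
    simpa using hnn1
  obtain ⟨B⟩ := exists_box S.smooth hpos
  obtain ⟨ε, hε, hεr, hsig⟩ := lsig D.toPreDom hu₁ B
  have hreflc : Continuous (refl n t) := (contDiff_refl n t).continuous
  have hYc : Continuous (fun u => refl n t (S.X u)) := hreflc.comp hXc
  have hY1 : refl n t (S.X u₁) = S.X u₁ := CTB_refl_fix hl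
  have hrl : rl n (S.N u₁) = S.N u₁ := CTB_rl_fix hN
  set w : V2 → ℝ := fun u => B.f (refl n t (S.X u)) with hw
  set l : V2 → ℝ := fun u => ⟪n, S.X u⟫ - t with hldef
  have hb1 : B.b (refl n t (S.X u₁)) = u₁ := by
    rw [hY1]; exact B.b_X (by simpa using B.hr)
  have hw0 : w u₁ = 0 := by
    show B.f (refl n t (S.X u₁)) = 0
    rw [hY1]; exact B.f_X (by simpa using B.hr)
  have hl0 : l u₁ = 0 := by show ⟪n, S.X u₁⟫ - t = 0; rw [hl]; ring
  -- neighbourhoods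
  have hVε : ∀ δ : ℝ, 0 < δ → δ ≤ B.r → ∀ᶠ u in 𝓝 u₁, refl n t (S.X u) ∈ B.U δ := by
    intro δ h1 h2
    have h3 : B.U δ ∈ 𝓝 (refl n t (S.X u₁)) := by rw [hY1]; exact B.U_nhds h1 h2
    exact hYc.continuousAt.eventually h3
  have hUr : ∀ {y : V3}, y ∈ B.U ε → y ∈ B.U B.r := fun hy => B.U_mono hεr hy
  have hY1U : refl n t (S.X u₁) ∈ B.U B.r := by rw [hY1]; exact B.mem_U B.hr
  -- derivative of `w`
  have hDw : fderiv ℝ w u₁ = 0 := by
    apply fderiv_w_zero S B hn t hY1U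
    rw [hb1, hrl]
  obtain ⟨K, hK⟩ := di S B hn t hu₁.le hY1U (by rw [hb1]; exact hu₁.le)
    (by rw [hb1, hrl, hNN]; norm_num)
  -- derivative of `l`
  have hlsm : ContDiff ℝ 2 l := (contDiff_const.inner ℝ S.smooth).sub contDiff_const
  have hDl : ∀ u a, fderiv ℝ l u a = ⟪n, fderiv ℝ S.X u a⟫ := by
    intro u a
    have h1 : HasFDerivAt l ((innerSL ℝ n).comp (fderiv ℝ S.X u)) u := by
      have h2 := ((innerSL ℝ n).hasFDerivAt (x := S.X u)).comp u (hXd u).hasFDerivAt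
      exact h2.sub_const t
    rw [h1.fderiv]
    rfl
  have hDl1 : fderiv ℝ l u₁ ≠ 0 := by
    obtain ⟨a, ha⟩ := S.tangent hu₁.le hN
    intro h0
    have h1 := hDl u₁ a
    rw [h0, ha, real_inner_self_eq_norm_sq, hn] at h1
    norm_num at h1
  obtain ⟨ν, R, hR, hν, hDν, -, hball⟩ := iball hlsm.contDiffAt hl0 hDl1
  have hevl : ∀ᶠ u in 𝓝 u₁, 0 < fderiv ℝ l u ν := by
    have hc : Continuous (fun u => fderiv ℝ l u ν) :=
      (hlsm.continuous_fderiv (by norm_num)).clm_apply continuous_const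
    exact hc.continuousAt.eventually (lt_mem_nhds hDν)
  have hevn : ∀ᶠ u : V2 in 𝓝 u₁, ‖u‖ < 1 :=
    (continuous_norm.continuousAt).eventually (Iio_mem_nhds hu₁)
  obtain ⟨ρ, hρ, hρall⟩ := Metric.eventually_nhds_iff_ball.mp
    ((((hVε ε hε hεr).and hK).and hevl).and hevn)
  have hin : ∀ u ∈ ball u₁ ρ, refl n t (S.X u) ∈ B.U ε := fun u hu => (hρall u hu).1.1.1
  have hlt : ∀ u ∈ ball u₁ ρ, ‖u‖ < 1 := fun u hu => (hρall u hu).2
  have hlν : ∀ u ∈ ball u₁ ρ, 0 < fderiv ℝ l u ν := fun u hu => (hρall u hu).1.2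
  have hwC : ∀ u ∈ ball u₁ ρ, ContDiffAt ℝ 2 w u :=
    fun u hu => contDiffAt_w S B n t (hUr (hin u hu))
  have hell : ∀ u ∈ ball u₁ ρ,
      Ell (cA S.X) (cB S.X) (cC S.X) w u ≤ K * ‖fderiv ℝ w u‖ := by
    intro u hu
    have h1 := (hρall u hu).1.1.2 (hlt u hu) (hsig _ (hin u hu)).1
    rw [← Lop_eq_Ell]
    exact (le_abs_self _).trans h1
  have hwnn : ∀ u ∈ ball u₁ ρ, 0 < l u → 0 ≤ w u := by
    intro u hu hlu
    have h1 : refl n t (S.X u) ∈ closure D.W := by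
      apply hS u (hlt u hu).le
      have : 0 < ⟪n, S.X u⟫ - t := hlu
      linarith
    exact (hsig _ (hin u hu)).2.2.2.2.mp h1
  -- propagation of zeros
  have hlc : Continuous l := hlsm.continuous
  have key : ∀ C : Set V2, IsPreconnected C → (∀ x ∈ C, x ∈ ball u₁ ρ ∧ 0 < l x) →
      (∃ z ∈ C, w z = 0) → ∀ x ∈ C, w x = 0 := by
    intro C hC hCs hz x hx
    have hcA := (contDiff_cA S.smooth).continuous
    have hcB := (contDiff_cB S.smooth).continuous
    have hcC := (contDiff_cC S.smooth).continuous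
    have hopen1 : IsOpen {x : V2 | ∀ᶠ y in 𝓝 x, w y = 0} := isOpen_setOf_eventually_nhds
    have hopen2 : IsOpen {x : V2 | x ∈ ball u₁ ρ ∧ w x ≠ 0} := by
      rw [isOpen_iff_mem_nhds]
      rintro y ⟨hy1, hy2⟩
      have h1 : ∀ᶠ z in 𝓝 y, w z ≠ 0 := (hwC y hy1).continuousAt.eventually_ne hy2
      exact (isOpen_ball.eventually_mem hy1).and h1
    have hcov : C ⊆ {x : V2 | ∀ᶠ y in 𝓝 x, w y = 0} ∪ {x : V2 | x ∈ ball u₁ ρ ∧ w x ≠ 0} := by
      intro y hy
      obtain ⟨hy1, hy2⟩ := hCs y hy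
      by_cases h0 : w y = 0
      · left
        have hev : ∀ᶠ z in 𝓝 y, z ∈ ball u₁ ρ ∧ 0 < l z :=
          (isOpen_ball.eventually_mem hy1).and (hlc.continuousAt.eventually (lt_mem_nhds hy2))
        exact smp (hwC y hy1) h0 (hev.mono fun z hz => hwnn z hz.1 hz.2)
          (Eventually.of_forall fun z => hcA.continuousAt)
          (Eventually.of_forall fun z => hcB.continuousAt)
          (Eventually.of_forall fun z => hcC.continuousAt)
          (cA_pos (S.imm y (hlt y hy1).le)) (cB_sq_lt (S.imm y (hlt y hy1).le))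
          (hev.mono fun z hz => hell z hz.1)
      · right
        exact ⟨hy1, h0⟩
    have hdis : C ∩ ({x : V2 | ∀ᶠ y in 𝓝 x, w y = 0} ∩ {x : V2 | x ∈ ball u₁ ρ ∧ w x ≠ 0}) = ∅ := by
      rw [Set.eq_empty_iff_forall_notMem]
      rintro y ⟨-, hy1, hy2⟩
      have h3 : ∀ᶠ z in 𝓝 y, w z = 0 := hy1
      exact hy2.2 h3.self_of_nhds
    rcases isPreconnected_iff_subset_of_disjoint.mp hC _ _ hopen1 hopen2 hcov hdis with h | h
    · have h3 : ∀ᶠ z in 𝓝 x, w z = 0 := h hx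
      exact h3.self_of_nhds
    · obtain ⟨z, hz1, hz2⟩ := hz
      exact absurd hz2 (h hz1).2
  -- a small tangent ball
  set R' : ℝ := min R (ρ / 4) with hR'
  have hR'pos : 0 < R' := lt_min hR (by linarith)
  have hR'R : R' ≤ R := min_le_left _ _
  have hR'ρ : R' ≤ ρ / 4 := min_le_right _ _
  have hsub1 : ball (u₁ + R' • ν) R' ⊆ ball (u₁ + R • ν) R := by
    apply ball_subset_ball'
    rw [dist_eq_norm]
    have h1 : u₁ + R' • ν - (u₁ + R • ν) = (R' - R) • ν := by rw [sub_smul]; abel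
    rw [h1, norm_smul, hν, Real.norm_eq_abs, abs_of_nonpos (by linarith)]
    linarith
  have hsub2 : ball (u₁ + R' • ν) R' ⊆ ball u₁ ρ := by
    apply ball_subset_ball'
    rw [dist_eq_norm]
    have h1 : u₁ + R' • ν - u₁ = R' • ν := by abel
    rw [h1, norm_smul, hν, Real.norm_eq_abs, abs_of_pos hR'pos]
    linarith
  have hBq : ∀ x ∈ ball (u₁ + R' • ν) R', x ∈ ball u₁ ρ ∧ 0 < l x :=
    fun x hx => ⟨hsub2 hx, hball (hsub1 hx)⟩
  have hz : ∃ z ∈ ball (u₁ + R' • ν) R', w z = 0 := by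
    have hevb : ∀ᶠ x in 𝓝 u₁, x ∈ ball u₁ ρ := isOpen_ball.eventually_mem (mem_ball_self hρ)
    obtain ⟨x, -, hx1, hx2⟩ := touch (A := cA S.X) (B := cB S.X) (C := cC S.X) (w := w)
      (Ω := ball (u₁ + R' • ν) R') (x₀ := u₁) (ν := ν) (K := K) (R := R') hR'pos hν
      (subset_refl _) (hwC u₁ (mem_ball_self hρ)) hw0
      (Eventually.of_forall fun x hx => hwnn x (hBq x hx).1 (hBq x hx).2)
      (contDiff_cA S.smooth).continuous.continuousAt
      (contDiff_cB S.smooth).continuous.continuousAt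
      (contDiff_cC S.smooth).continuous.continuousAt
      (cA_pos (S.imm u₁ hu₁.le)) (cB_sq_lt (S.imm u₁ hu₁.le))
      (hevb.mono fun x hx _ => hell x hx) (by rw [hDw]; simp) 1 one_pos
    exact ⟨x, hx1, hx2⟩
  have hzero : ∀ x ∈ ball (u₁ + R' • ν) R', w x = 0 :=
    key _ (convex_ball _ _).isPreconnected hBq hz
  set δ : ℝ := R' / 2 with hδ
  have hδpos : 0 < δ := by positivity
  -- zeros on the positive side
  have hplus : ∀ u, ‖u - u₁‖ < δ → 0 < l u → w u = 0 := by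
    intro u hu hlu
    have hmemρ : ∀ s ∈ Icc (0 : ℝ) (2 * δ), u + s • ν ∈ ball u₁ ρ := by
      intro s hs
      rw [mem_ball, dist_eq_norm]
      have h1 : u + s • ν - u₁ = (u - u₁) + s • ν := by abel
      have h2 : ‖s • ν‖ ≤ 2 * δ := by
        rw [norm_smul, hν, Real.norm_eq_abs, abs_of_nonneg hs.1]
        linarith [hs.2]
      rw [h1]
      have := norm_add_le (u - u₁) (s • ν)
      linarith
    have hline : ∀ s : ℝ, HasDerivAt (fun s : ℝ => l (u + s • ν)) (fderiv ℝ l (u + s • ν) ν) s := by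
      intro s
      have h1 : HasDerivAt (fun s : ℝ => u + s • ν) ν s := by
        simpa using ((hasDerivAt_id s).smul_const ν).const_add u
      exact ((hlsm.differentiable (by norm_num) _).hasFDerivAt).comp_hasDerivAt s h1
    have hmono : StrictMonoOn (fun s : ℝ => l (u + s • ν)) (Icc 0 (2 * δ)) := by
      apply strictMonoOn_of_deriv_pos (convex_Icc _ _)
      · exact fun s _ => (hline s).continuousAt.continuousWithinAt
      · intro s hs
        rw [interior_Icc] at hs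
        rw [(hline s).deriv]
        exact hlν _ (hmemρ s ⟨hs.1.le, hs.2.le⟩)
    have hseg : ∀ x ∈ (fun s : ℝ => u + s • ν) '' Icc (0 : ℝ) (2 * δ), x ∈ ball u₁ ρ ∧ 0 < l x := by
      rintro x ⟨s, hs, rfl⟩
      refine ⟨hmemρ s hs, ?_⟩
      have h1 := hmono.monotoneOn (show (0 : ℝ) ∈ Icc 0 (2 * δ) from ⟨le_refl _, by linarith⟩) hs hs.1
      have h2 : l (u + (0 : ℝ) • ν) = l u := by simp
      simp only [h2] at h1
      exact lt_of_lt_of_le hlu h1
    have hpre : IsPreconnected ((fun s : ℝ => u + s • ν) '' Icc (0 : ℝ) (2 * δ)) := by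
      apply isPreconnected_Icc.image
      fun_prop
    refine key _ hpre hseg ⟨u + (2 * δ) • ν, ⟨2 * δ, ⟨by linarith, le_refl _⟩, rfl⟩, ?_⟩ u
      ⟨0, ⟨le_refl _, by linarith⟩, by simp⟩
    apply hzero
    rw [mem_ball, dist_eq_norm]
    have h1 : u + (2 * δ) • ν - (u₁ + R' • ν) = u - u₁ := by
      have : 2 * δ = R' := by rw [hδ]; ring
      rw [this]; abel
    rw [h1]
    linarith
  -- conclusion
  have hmin : 0 < min ε δ := lt_min hε hδpos
  have hminr : min ε δ ≤ B.r := (min_le_left _ _).trans hεr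
  have hevδ : ∀ᶠ u in 𝓝 u₁, u ∈ ball u₁ (min δ (min ρ B.r)) :=
    isOpen_ball.eventually_mem (mem_ball_self (lt_min hδpos (lt_min hρ B.hr)))
  filter_upwards [hVε _ hmin hminr, hevδ] with u hu1 hu2
  rw [mem_ball, dist_eq_norm] at hu2
  have hu2a : ‖u - u₁‖ < δ := hu2.trans_le (min_le_left _ _)
  have hu2b : ‖u - u₁‖ < ρ := hu2.trans_le ((min_le_right _ _).trans (min_le_left _ _))
  have hu2c : ‖u - u₁‖ < B.r := hu2.trans_le ((min_le_right _ _).trans (min_le_right _ _))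
  have huρ : u ∈ ball u₁ ρ := by rw [mem_ball, dist_eq_norm]; exact hu2b
  have hYε : refl n t (S.X u) ∈ B.U ε := hin u huρ
  rcases lt_trichotomy (l u) 0 with hneg | hzr | hps
  · set y := refl n t (S.X u) with hy
    obtain ⟨hv1, hv2, hv3⟩ := B.coord hminr hu1
    set v := B.b y with hv
    have hvδ : ‖v - u₁‖ < δ := hv1.trans_le (min_le_right _ _)
    have hvρ : v ∈ ball u₁ ρ := by
      rw [mem_ball, dist_eq_norm]
      have : δ ≤ ρ := by rw [hδ]; linarith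
      linarith
    have hlv : l v = -l u := by
      have h1 : ⟪n, y⟫ = 2 * t - ⟪n, S.X u⟫ := CTB_inner_refl hn t (S.X u)
      have h2 : ⟪n, y⟫ = ⟪n, S.X v⟫ := by
        rw [← hv3, inner_add_right, inner_smul_right, hN]; ring
      show ⟪n, S.X v⟫ - t = -(⟪n, S.X u⟫ - t)
      rw [← h2, h1]; ring
    have hwv : w v = 0 := hplus v hvδ (by rw [hlv]; linarith)
    have hYv : refl n t (S.X v) ∈ B.U ε := hin v hvρ
    obtain ⟨hv1', hv2', hv3'⟩ := B.coord hεr hYv
    set v' := B.b (refl n t (S.X v)) with hv'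
    have hfv : B.f (refl n t (S.X v)) = 0 := hwv
    rw [hfv, zero_smul, add_zero] at hv3'
    have h1 : S.X u = S.X v' + B.f y • S.N u₁ := by
      have h2 : refl n t y = S.X u := CTB_refl_refl hn t (S.X u)
      rw [← h2]
      conv_lhs => rw [← hv3]
      rw [CTB_refl_add, CTB_rl_smul, hrl, hv3']
    have h2 := (B.left v' (B.f y) (hv1'.trans_le hεr) (hv2.trans_le hminr)).2
    rw [← h1, B.f_X hu2c] at h2
    exact (hsig y hYε).2.2.1.mpr h2.symm
  · have h1 : ⟪n, S.X u⟫ = t := by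
      have : ⟪n, S.X u⟫ - t = 0 := hzr
      linarith
    rw [CTB_refl_fix h1]
    exact Surf.mem_Sig S (hlt u huρ).le
  · exact (hsig _ hYε).2.2.1.mpr (hplus u hu2a hps)

end Pool.Agent.H99.SC
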