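import Pool.Agent.H99.SC.CTB

/-!
# CTC: transfer (C5) and equality of normals (C6)

`ct5`.  If a neighbourhood of `v` (in the open disc) is mapped into `S.Sig` by `u ↦ refl n t (S.X u)`
and `refl n t (S.X v) = S.X u₀`, `‖u₀‖ < 1`, then a neighbourhood of `u₀` is mapped into `S.Sig`.
Proof.  Box `B` at `u₀`, `e = S.N u₀`; `ι x = B.b (refl n t (S.X x))` is C^2 at `v`, `ι v = u₀`, and near
`v` the point `refl n t (S.X x)` is in `S.Sig ∩ B.U ε`, so `B.f = 0` (`box_sig` or `lsig`) and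
`S.X (ι x) = refl n t (S.X x)`.  Differentiate at `v`: `fderiv X u₀ (Dι a) = rl n (fderiv X v a)`, so `Dι` is
injective, hence surjective (dimension 2), and `HasStrictFDerivAt.map_nhds_eq_of_surj` gives
`map ι (𝓝 v) = 𝓝 u₀`: for `u` near `u₀` there is `x` near `v` with `ι x = u`:
`S.X u = refl n t (S.X x)`, so `refl n t (S.X u) = S.X x ∈ S.Sig` (`‖x‖ < 1`).

`ct6`.  If a neighbourhood of `u₀` (`‖u₀‖ < 1`) is mapped into `S.Sig`, `refl n t (S.X u₀) = S.X v₀`,
`‖v₀‖ < 1`, then `rl n (S.N u₀) = S.N v₀`.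
Proof.  Box at `v₀`, `e = S.N v₀`: `w = B.f (refl ..) = 0` near `u₀` (`box_sig`), so `Dw(u₀) = 0` and
`Lop S.X w u₀ = 0` (`w` is locally constant): `normal_pm` and `lop_neg`.
-/

set_option autoImplicit false

open scoped RealInnerProductSpace Topology
open Metric Filter Set

noncomputable section

namespace Pool.Agent.H99.SC

theorem CTC_box (S : Surf) {u₀ : V2} (hu₀ : ‖u₀‖ ≤ 1) : Nonempty (Box S.X u₀ (S.N u₀)) := by
  apply exists_box S.smooth
  rw [S.nn_eq hu₀, inner_smul_left, real_inner_self_eq_norm_sq, S.N_norm hu₀]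
  simpa using S.nn_pos hu₀

theorem ct5 (S : Surf) {n : V3} {t : ℝ} (hn : ‖n‖ = 1) {v u₀ : V2} (hv : ‖v‖ < 1)
    (hu₀ : ‖u₀‖ < 1) (hA : ∀ᶠ u in 𝓝 v, refl n t (S.X u) ∈ S.Sig)
    (hx : refl n t (S.X v) = S.X u₀) : ∀ᶠ u in 𝓝 u₀, refl n t (S.X u) ∈ S.Sig := by
  obtain ⟨B⟩ := CTC_box S hu₀.le
  obtain ⟨ε, hε, hεr, -, hsig⟩ := box_sig S hu₀.le B
  have hXc : Continuous S.X := S.smooth.continuous
  have hXd : Differentiable ℝ S.X := S.smooth.differentiable (by norm_num)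
  have hrs : ContDiff ℝ 2 (fun x => refl n t (S.X x)) :=
    ((contDiff_refl n t).of_le (by simp)).comp S.smooth
  have hrc : Continuous (fun x => refl n t (S.X x)) := hrs.continuous
  have hmem : refl n t (S.X v) ∈ B.U B.r := by rw [hx]; exact B.mem_U B.hr
  set ι : V2 → V2 := fun x => B.b (refl n t (S.X x)) with hι
  have hιv : ι v = u₀ := by
    simp only [hι]
    rw [hx]; exact B.b_X (by simpa using B.hr)
  have hιC : ContDiffAt ℝ 2 ι v := by
    have h1 : ContDiffAt ℝ 2 B.b (refl n t (S.X v)) := B.smooth_b hmem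
    exact ContDiffAt.comp v h1 hrs.contDiffAt
  -- the local inverse
  have hev : ∀ᶠ x in 𝓝 v, S.X (ι x) = refl n t (S.X x) := by
    have h1 : ∀ᶠ x in 𝓝 v, refl n t (S.X x) ∈ B.U ε := by
      have : B.U ε ∈ 𝓝 (refl n t (S.X v)) := by rw [hx]; exact B.U_nhds hε hεr
      exact hrc.continuousAt.eventually this
    filter_upwards [h1, hA] with x h2 h3
    have h4 := (hsig _ h2).1 h3
    have h5 := (B.coord hεr h2).2.2
    rw [h4.1, zero_smul, add_zero] at h5
    exact h5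
  -- its derivative
  have hιd : HasStrictFDerivAt ι (fderiv ℝ ι v) v := hιC.hasStrictFDerivAt (by norm_num)
  have hder : ∀ a, fderiv ℝ S.X u₀ (fderiv ℝ ι v a) = rl n (fderiv ℝ S.X v a) := by
    intro a
    have h1 : HasFDerivAt (fun x => S.X (ι x)) ((fderiv ℝ S.X (ι v)).comp (fderiv ℝ ι v)) v :=
      (hXd (ι v)).hasFDerivAt.comp v hιd.hasFDerivAt
    have h2 : fderiv ℝ (fun x => S.X (ι x)) v = fderiv ℝ (fun x => refl n t (S.X x)) v :=
      Filter.EventuallyEq.fderiv_eq hev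
    rw [h1.fderiv, hιv] at h2
    have h3 := congrArg (fun A : V2 →L[ℝ] V3 => A a) h2
    simp only [ContinuousLinearMap.comp_apply] at h3
    rw [h3, fderiv_refl_comp n t (hXd v)]
  have hinj : Function.Injective (fderiv ℝ ι v : V2 →ₗ[ℝ] V2) := by
    rw [injective_iff_map_eq_zero]
    intro a ha
    have h1 := hder a
    have ha' : fderiv ℝ ι v a = 0 := ha
    rw [ha', map_zero] at h1
    have h2 := rl_rl n hn (fderiv ℝ S.X v a)
    rw [← h1] at h2
    have h3 : rl n (0 : V3) = 0 := by simp [rl]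
    rw [h3] at h2
    exact S.fderiv_inj hv.le h2.symm
  have hsurj : (fderiv ℝ ι v).range = ⊤ := by
    rw [LinearMap.range_eq_top]
    exact LinearMap.injective_iff_surjective.1 hinj
  have hmap := hιd.map_nhds_eq_of_surj hsurj
  rw [hιv] at hmap
  rw [← hmap, eventually_map]
  have hnorm : ∀ᶠ x : V2 in 𝓝 v, ‖x‖ < 1 :=
    (continuous_norm.continuousAt).eventually (Iio_mem_nhds hv)
  filter_upwards [hev, hnorm] with x h1 h2
  rw [h1, refl_refl n hn]
  exact S.mem_Sig h2.le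

theorem ct6 (S : Surf) {n : V3} {t : ℝ} (hn : ‖n‖ = 1) {u₀ v₀ : V2} (hu₀ : ‖u₀‖ < 1)
    (hv₀ : ‖v₀‖ < 1) (hA : ∀ᶠ u in 𝓝 u₀, refl n t (S.X u) ∈ S.Sig)
    (hx : refl n t (S.X u₀) = S.X v₀) : rl n (S.N u₀) = S.N v₀ := by
  obtain ⟨B⟩ := CTC_box S hv₀.le
  obtain ⟨ε, hε, hεr, -, hsig⟩ := box_sig S hv₀.le B
  have hrs : ContDiff ℝ 2 (fun x => refl n t (S.X x)) :=
    ((contDiff_refl n t).of_le (by simp)).comp S.smooth
  have hrc : Continuous (fun x => refl n t (S.X x)) := hrs.continuous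
  have hmem : refl n t (S.X u₀) ∈ B.U B.r := by rw [hx]; exact B.mem_U B.hr
  have hb : B.b (refl n t (S.X u₀)) = v₀ := by
    rw [hx]; exact B.b_X (by simpa using B.hr)
  have hw : (fun x => B.f (refl n t (S.X x))) =ᶠ[𝓝 u₀] fun _ => (0 : ℝ) := by
    have h1 : ∀ᶠ x in 𝓝 u₀, refl n t (S.X x) ∈ B.U ε := by
      have : B.U ε ∈ 𝓝 (refl n t (S.X u₀)) := by rw [hx]; exact B.U_nhds hε hεr
      exact hrc.continuousAt.eventually this
    filter_upwards [h1, hA] with x h2 h3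
    exact ((hsig _ h2).1 h3).1
  have hD : fderiv ℝ (fun x => B.f (refl n t (S.X x))) u₀ = 0 := by
    rw [hw.fderiv_eq]; simp
  have hbn : ‖B.b (refl n t (S.X u₀))‖ ≤ 1 := by rw [hb]; exact hv₀.le
  rcases normal_pm S B hn t hu₀.le hmem hbn hD with h | h
  · rw [hb] at h; exact h
  · exfalso
    have hneg := lop_neg S B hn t hu₀ hmem (by rw [hb]; exact hv₀) h
    have hw2 : fderiv ℝ (fderiv ℝ (fun x => B.f (refl n t (S.X x)))) u₀ = 0 := by
      have h1 : fderiv ℝ (fun x => B.f (refl n t (S.X x))) =ᶠ[𝓝 u₀]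
          fun _ => (0 : V2 →L[ℝ] ℝ) := by
        have h2 := hw.fderiv (𝕜 := ℝ)
        filter_upwards [h2] with x hx2
        rw [hx2]; simp
      rw [h1.fderiv_eq]; simp
    have hL : Lop S.X (fun x => B.f (refl n t (S.X x))) u₀ = 0 := by
      unfold Lop D2
      rw [hw2]
      simp
    linarith

end Pool.Agent.H99.SC
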