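import Pool.Agent.H99.SC.FP

/-!
# DI: the differential inequality for a reflected sheet

`S` a surface, `B` a box, `w u = B.f (refl n t (S.X u))`.
`lopw`: exact formula.  With `y = refl n t (X u)`, `Q = D2 B.f y`, `g = B.g y`:
`Lop X w u = ‖nn X u‖^2 (tr3 Q - Q NY NY) + ⟪g, rl n Z⟫`, `NY = rl n (N u)`, `Z = Lop X X u`
(`D2_comp`, `D2_refl_comp`, `fderiv_refl_comp`, `tr_identity` with `a = rl n X_u`, `b = rl n X_v`,
`rl_cr`, `rl_inner`).

`di`.  Let `G = g - ⟪g,NY⟫ NY`.  By `decomp`, `‖nn‖^2 G = (..) rl X_u + (..) rl X_v` with coefficients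
`‖X_v‖^2 Dw e0 - ⟪X_u,X_v⟫ Dw e1` etc., since `⟪g, rl n X_a⟫ = Dw a` : so `‖G‖ <= C |Dw|` near `u₁`.
`⟪g, rl n Z⟫ = ⟪g,NY⟫ ⟪NY, rl n Z⟫ + ⟪G, rl n Z⟫ = ⟪g,NY⟫ 2 H ‖nn‖^2 + ⟪G, rl n Z⟫` (`cmcN`).
With `pdef`: `Lop X w u = ‖nn‖^2 (Q Nf Nf - Q NY NY + 2 H (⟪g,NY⟫ - ‖g‖)) + ⟪G, rl n Z⟫`,
`Nf = N (b y) = g/‖g‖`.  Near `u₁`: `⟪Nf,NY⟫ > 0`, `‖Nf - NY‖^2 = 2 - 2 ⟪Nf,NY⟫ <= 2 (1 - ⟪Nf,NY⟫^2)
= 2 ‖G‖^2/‖g‖^2`, `|Q Nf Nf - Q NY NY| <= 2 ‖Q‖ ‖Nf - NY‖`, `0 <= ‖g‖ - ⟪g,NY⟫ <= ‖g‖ ‖Nf - NY‖^2`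
and `‖Nf - NY‖ ≤ 2`.  All norms are bounded near `u₁` (continuity), `1/‖nn‖` and `1/‖g‖` too.

`lop_neg`: if `rl n (N u) = - N (b y)` then `Lop X w u < 0` (and `G = 0`): formula above with
`NY = -Nf`: `Lop = ‖nn‖^2 (-2 H ‖g‖ - 2 H ‖g‖)`.
-/

set_option autoImplicit false

open scoped RealInnerProductSpace Topology
open Metric Filter Set

noncomputable section

namespace Pool.Agent.H99.SC

theorem DI_contDiff_refl (S : Surf) (n : V3) (t : ℝ) :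
    ContDiff ℝ 2 (fun x => refl n t (S.X x)) :=
  ((contDiff_refl n t).of_le le_top).comp S.smooth

theorem contDiffAt_w (S : Surf) {u₀ : V2} {e : V3} (B : Box S.X u₀ e) (n : V3) (t : ℝ) {u : V2}
    (hU : refl n t (S.X u) ∈ B.U B.r) :
    ContDiffAt ℝ 2 (fun x => B.f (refl n t (S.X x))) u :=
  (B.smooth_f hU).comp u (DI_contDiff_refl S n t).contDiffAt

theorem fderiv_w (S : Surf) {u₀ : V2} {e : V3} (B : Box S.X u₀ e) (n : V3) (t : ℝ) {u : V2}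
    (hU : refl n t (S.X u) ∈ B.U B.r) (a : V2) :
    fderiv ℝ (fun x => B.f (refl n t (S.X x))) u a
      = ⟪B.g (refl n t (S.X u)), rl n (fderiv ℝ S.X u a)⟫ := by
  have h1 : DifferentiableAt ℝ B.f (refl n t (S.X u)) :=
    (B.smooth_f hU).differentiableAt (by norm_num)
  have h2 : DifferentiableAt ℝ (fun x => refl n t (S.X x)) u :=
    (DI_contDiff_refl S n t).contDiffAt.differentiableAt (by norm_num)
  have h3 : DifferentiableAt ℝ S.X u := S.smooth.contDiffAt.differentiableAt (by norm_num)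
  have h4 := fderiv_comp (𝕜 := ℝ) (g := B.f) (f := fun x => refl n t (S.X x)) u h1 h2
  have h5 : fderiv ℝ (fun x => B.f (refl n t (S.X x))) u
      = (fderiv ℝ B.f (refl n t (S.X u))).comp (fderiv ℝ (fun x => refl n t (S.X x)) u) := h4
  rw [h5, ContinuousLinearMap.comp_apply, fderiv_refl_comp n t h3, B.fd S.smooth hU]

theorem DI_inner_zero (S : Surf) {u₀ : V2} {e : V3} (B : Box S.X u₀ e) {n : V3} (hn : ‖n‖ = 1)
    (t : ℝ) {u : V2} (hU : refl n t (S.X u) ∈ B.U B.r) (a : V2) :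
    fderiv ℝ (fun x => B.f (refl n t (S.X x))) u a
      = ‖B.g (refl n t (S.X u))‖ *
        ⟪rl n (S.N (B.b (refl n t (S.X u)))), fderiv ℝ S.X u a⟫ := by
  rw [fderiv_w S B n t hU a]
  conv_lhs => rw [B.g_eq hU]
  rw [inner_smul_left]
  congr 1
  have h := rl_inner n hn (rl n (NN S.X (B.b (refl n t (S.X u))))) (fderiv ℝ S.X u a)
  rw [rl_rl n hn] at h
  exact h

/-- if the derivative of `w` vanishes the normals agree up to sign -/
theorem normal_pm (S : Surf) {u₀ : V2} {e : V3} (B : Box S.X u₀ e) {n : V3} (hn : ‖n‖ = 1)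
    (t : ℝ) {u : V2} (hu : ‖u‖ ≤ 1) (hU : refl n t (S.X u) ∈ B.U B.r)
    (hb : ‖B.b (refl n t (S.X u))‖ ≤ 1)
    (hD : fderiv ℝ (fun x => B.f (refl n t (S.X x))) u = 0) :
    rl n (S.N u) = S.N (B.b (refl n t (S.X u))) ∨
      rl n (S.N u) = -S.N (B.b (refl n t (S.X u))) := by
  have h1 : ∀ a : V2, ⟪rl n (S.N (B.b (refl n t (S.X u)))), fderiv ℝ S.X u a⟫ = 0 := by
    intro a
    have h2 := DI_inner_zero S B hn t hU a
    rw [hD] at h2
    have h3 := B.g_pos hU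
    simp only [zero_apply] at h2
    rcases mul_eq_zero.1 h2.symm with h4 | h4
    · exact absurd h4 h3.ne'
    · exact h4
  have h2 : ‖rl n (S.N (B.b (refl n t (S.X u))))‖ = 1 := by
    rw [rl_norm n hn, S.N_norm hb]
  rcases S.unit_eq hu h2 h1 with h3 | h3
  · left
    rw [← h3, rl_rl n hn]
  · right
    have h4 : S.N u = -rl n (S.N (B.b (refl n t (S.X u)))) := by rw [h3, neg_neg]
    rw [h4, rl_neg, rl_rl n hn]

/-- conversely equality of normals makes the derivative vanish -/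
theorem fderiv_w_zero (S : Surf) {u₀ : V2} {e : V3} (B : Box S.X u₀ e) {n : V3} (hn : ‖n‖ = 1)
    (t : ℝ) {u : V2} (hU : refl n t (S.X u) ∈ B.U B.r)
    (hN : rl n (S.N u) = S.N (B.b (refl n t (S.X u)))) :
    fderiv ℝ (fun x => B.f (refl n t (S.X x))) u = 0 := by
  apply ContinuousLinearMap.ext
  intro a
  rw [DI_inner_zero S B hn t hU a, ← hN, rl_rl n hn, S.N_orth]
  simp

/-- exact formula -/
theorem DI_lopw (S : Surf) {u₀ : V2} {e : V3} (B : Box S.X u₀ e) {n : V3} (hn : ‖n‖ = 1) (t : ℝ)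
    {u : V2} (hu : ‖u‖ ≤ 1) (hU : refl n t (S.X u) ∈ B.U B.r) :
    Lop S.X (fun x => B.f (refl n t (S.X x))) u
      = ‖nn S.X u‖ ^ 2 * (tr3 (fderiv ℝ (fderiv ℝ B.f) (refl n t (S.X u)))
          - D2 B.f (refl n t (S.X u)) (rl n (S.N u)) (rl n (S.N u)))
        + ⟪B.g (refl n t (S.X u)), rl n (Lop S.X S.X u)⟫ := by
  have h3 : DifferentiableAt ℝ S.X u := S.smooth.contDiffAt.differentiableAt (by norm_num)
  have hD : ∀ a b : V2, D2 (fun x => B.f (refl n t (S.X x))) u a b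
      = D2 B.f (refl n t (S.X u)) (rl n (fderiv ℝ S.X u a)) (rl n (fderiv ℝ S.X u b))
        + ⟪B.g (refl n t (S.X u)), rl n (D2 S.X u a b)⟫ := by
    intro a b
    have h1 := D2_comp (f := B.f) (Y := fun x => refl n t (S.X x)) (u := u) (B.smooth_f hU)
      (DI_contDiff_refl S n t).contDiffAt a b
    rw [h1, fderiv_refl_comp n t h3, fderiv_refl_comp n t h3,
      D2_refl_comp n t S.smooth.contDiffAt, B.fd S.smooth hU]
  have hQ : ∀ x y : V3, (fderiv ℝ (fderiv ℝ B.f) (refl n t (S.X u))) x y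
      = (fderiv ℝ (fderiv ℝ B.f) (refl n t (S.X u))) y x := fun x y => D2_symm (B.smooth_f hU) x y
  have ht := tr_identity (fderiv ℝ (fderiv ℝ B.f) (refl n t (S.X u))) hQ
    (rl n (fderiv ℝ S.X u e0)) (rl n (fderiv ℝ S.X u e1))
  have hcr : cr (rl n (fderiv ℝ S.X u e0)) (rl n (fderiv ℝ S.X u e1))
      = (-‖nn S.X u‖) • rl n (S.N u) := by
    rw [rl_cr n hn]
    have : cr (fderiv ℝ S.X u e0) (fderiv ℝ S.X u e1) = ‖nn S.X u‖ • S.N u := S.nn_eq hu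
    rw [this, rl_smul, neg_smul]
  rw [hcr, rl_norm n hn, rl_norm n hn, rl_inner n hn, norm_smul, rl_norm n hn, S.N_norm hu,
    mul_one, Real.norm_eq_abs, abs_neg, abs_of_nonneg (norm_nonneg _)] at ht
  simp only [map_smul, smul_apply, smul_eq_mul] at ht
  unfold Lop
  rw [hD, hD, hD]
  simp only [rl_add, rl_smul, inner_add_right, inner_smul_right, smul_eq_mul]
  unfold cA cB cC D2
  rw [real_inner_self_eq_norm_sq, real_inner_self_eq_norm_sq]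
  linear_combination ht

/-- the tangential part of the gradient -/
theorem DI_G (S : Surf) {u₀ : V2} {e : V3} (B : Box S.X u₀ e) {n : V3} (hn : ‖n‖ = 1) (t : ℝ)
    {u : V2} (hu : ‖u‖ ≤ 1) (hU : refl n t (S.X u) ∈ B.U B.r) :
    ‖nn S.X u‖ ^ 2 * ‖B.g (refl n t (S.X u))
        - ⟪B.g (refl n t (S.X u)), rl n (S.N u)⟫ • rl n (S.N u)‖
      ≤ 2 * ‖fderiv ℝ S.X u e0‖ * ‖fderiv ℝ S.X u e1‖
          * (‖fderiv ℝ S.X u e0‖ + ‖fderiv ℝ S.X u e1‖)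
        * ‖fderiv ℝ (fun x => B.f (refl n t (S.X x))) u‖ := by
  set g := B.g (refl n t (S.X u)) with hg
  set w := fun x => B.f (refl n t (S.X x)) with hw
  have hd := decomp (rl n (fderiv ℝ S.X u e0)) (rl n (fderiv ℝ S.X u e1)) g
  have hcr : cr (rl n (fderiv ℝ S.X u e0)) (rl n (fderiv ℝ S.X u e1))
      = (-‖nn S.X u‖) • rl n (S.N u) := by
    rw [rl_cr n hn]
    have : cr (fderiv ℝ S.X u e0) (fderiv ℝ S.X u e1) = ‖nn S.X u‖ • S.N u := S.nn_eq hu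
    rw [this, rl_smul, neg_smul]
  have h0 : ⟪g, rl n (fderiv ℝ S.X u e0)⟫ = fderiv ℝ w u e0 := (fderiv_w S B n t hU e0).symm
  have h1 : ⟪g, rl n (fderiv ℝ S.X u e1)⟫ = fderiv ℝ w u e1 := (fderiv_w S B n t hU e1).symm
  rw [hcr, h0, h1, rl_norm n hn, rl_norm n hn, rl_inner n hn, norm_smul, rl_norm n hn,
    S.N_norm hu, mul_one, Real.norm_eq_abs, abs_neg, abs_of_nonneg (norm_nonneg _)] at hd
  set α := ‖fderiv ℝ S.X u e0‖ with hα
  set β := ‖fderiv ℝ S.X u e1‖ with hβ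
  set κ := ‖nn S.X u‖ with hκ
  set D := ‖fderiv ℝ w u‖ with hDd
  have hα0 : 0 ≤ α := norm_nonneg _
  have hβ0 : 0 ≤ β := norm_nonneg _
  have hD0 : 0 ≤ D := norm_nonneg _
  have he0 : ‖e0‖ = 1 := by unfold e0; simp
  have he1 : ‖e1‖ = 1 := by unfold e1; simp
  have hw0 : |fderiv ℝ w u e0| ≤ D := by
    have := (fderiv ℝ w u).le_opNorm e0
    rwa [he0, mul_one, Real.norm_eq_abs] at this
  have hw1 : |fderiv ℝ w u e1| ≤ D := by
    have := (fderiv ℝ w u).le_opNorm e1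
    rwa [he1, mul_one, Real.norm_eq_abs] at this
  have hip : |⟪fderiv ℝ S.X u e0, fderiv ℝ S.X u e1⟫| ≤ α * β := abs_real_inner_le_norm _ _
  have hG : (κ ^ 2) • (g - ⟪g, rl n (S.N u)⟫ • rl n (S.N u))
      = (β ^ 2 * fderiv ℝ w u e0 - ⟪fderiv ℝ S.X u e0, fderiv ℝ S.X u e1⟫ * fderiv ℝ w u e1)
          • rl n (fderiv ℝ S.X u e0)
        + (α ^ 2 * fderiv ℝ w u e1 - ⟪fderiv ℝ S.X u e0, fderiv ℝ S.X u e1⟫ * fderiv ℝ w u e0)
          • rl n (fderiv ℝ S.X u e1) := by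
    rw [smul_sub, hd, inner_smul_right]
    module
  have hc0 : |β ^ 2 * fderiv ℝ w u e0 - ⟪fderiv ℝ S.X u e0, fderiv ℝ S.X u e1⟫ * fderiv ℝ w u e1|
      ≤ (β ^ 2 + α * β) * D := by
    refine (abs_sub _ _).trans ?_
    rw [abs_mul, abs_mul, abs_of_nonneg (sq_nonneg β)]
    have i1 := mul_le_mul_of_nonneg_left hw0 (sq_nonneg β)
    have i2 := mul_le_mul hip hw1 (abs_nonneg _) (mul_nonneg hα0 hβ0)
    linarith
  have hc1 : |α ^ 2 * fderiv ℝ w u e1 - ⟪fderiv ℝ S.X u e0, fderiv ℝ S.X u e1⟫ * fderiv ℝ w u e0|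
      ≤ (α ^ 2 + α * β) * D := by
    refine (abs_sub _ _).trans ?_
    rw [abs_mul, abs_mul, abs_of_nonneg (sq_nonneg α)]
    have i1 := mul_le_mul_of_nonneg_left hw1 (sq_nonneg α)
    have i2 := mul_le_mul hip hw0 (abs_nonneg _) (mul_nonneg hα0 hβ0)
    linarith
  have hn1 := congrArg norm hG
  rw [norm_smul, Real.norm_eq_abs, abs_of_nonneg (sq_nonneg κ)] at hn1
  rw [hn1]
  refine (norm_add_le _ _).trans ?_
  rw [norm_smul, norm_smul, rl_norm n hn, rl_norm n hn, Real.norm_eq_abs, Real.norm_eq_abs]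
  have i1 := mul_le_mul_of_nonneg_right hc0 hα0
  have i2 := mul_le_mul_of_nonneg_right hc1 hβ0
  refine (add_le_add i1 i2).trans (le_of_eq ?_)
  ring

/-- the pointwise constant -/
def DI_K (S : Surf) {u₀ : V2} {e : V3} (B : Box S.X u₀ e) (n : V3) (t : ℝ) (u : V2) : ℝ :=
  2 * ‖fderiv ℝ S.X u e0‖ * ‖fderiv ℝ S.X u e1‖
    * (‖fderiv ℝ S.X u e0‖ + ‖fderiv ℝ S.X u e1‖)
    * (4 * ‖fderiv ℝ (fderiv ℝ B.f) (refl n t (S.X u))‖ / ‖B.g (refl n t (S.X u))‖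
      + 4 * S.H + ‖Lop S.X S.X u‖ / ‖nn S.X u‖ ^ 2)

theorem DI_pointwise (S : Surf) {u₀ : V2} {e : V3} (B : Box S.X u₀ e) {n : V3} (hn : ‖n‖ = 1)
    (t : ℝ) {u : V2} (hu : ‖u‖ < 1) (hU : refl n t (S.X u) ∈ B.U B.r)
    (hb : ‖B.b (refl n t (S.X u))‖ < 1)
    (hN : 0 < ⟪S.N (B.b (refl n t (S.X u))), rl n (S.N u)⟫) :
    |Lop S.X (fun x => B.f (refl n t (S.X x))) u|
        ≤ DI_K S B n t u * ‖fderiv ℝ (fun x => B.f (refl n t (S.X x))) u‖ := by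
  have hl := DI_lopw S B hn t hu.le hU
  have hp := pdef S B hU hb
  have hG := DI_G S B hn t hu.le hU
  have hc := S.cmcN hu
  have hgN := B.g_eq hU
  have hγ := B.g_pos hU
  have hκ := S.nn_pos hu.le
  have hH := S.Hpos
  have hNf := S.N_norm hb.le
  have hNu := S.N_norm hu.le
  unfold DI_K
  set y := refl n t (S.X u) with hy
  set g := B.g y with hg
  set κ := ‖nn S.X u‖ with hκd
  set NY := rl n (S.N u) with hNY
  set Nf := S.N (B.b y) with hNfd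
  set Q := fderiv ℝ (fderiv ℝ B.f) y with hQ
  set Z := Lop S.X S.X u with hZ
  set G := g - ⟪g, NY⟫ • NY with hGd
  set γ := ‖g‖ with hγd
  set p := ⟪Nf, NY⟫ with hpd
  set D := ‖fderiv ℝ (fun x => B.f (refl n t (S.X x))) u‖ with hDd
  set AB := 2 * ‖fderiv ℝ S.X u e0‖ * ‖fderiv ℝ S.X u e1‖
    * (‖fderiv ℝ S.X u e0‖ + ‖fderiv ℝ S.X u e1‖) with hAB
  have hNYn : ‖NY‖ = 1 := by rw [hNY, rl_norm n hn, hNu]
  have hgN' : g = γ • Nf := hgN
  have hgNY : ⟪g, NY⟫ = γ * p := by rw [hgN', inner_smul_left]; rfl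
  have hNYZ : ⟪NY, rl n Z⟫ = 2 * S.H * κ ^ 2 := by
    rw [hNY, rl_inner n hn, real_inner_comm]; exact hc
  -- inner product of g with rl Z
  have h1 : ⟪g, rl n Z⟫ = ⟪G, rl n Z⟫ + γ * p * (2 * S.H * κ ^ 2) := by
    rw [hGd, inner_sub_left, inner_smul_left, hNYZ, hgNY]
    simp
  -- difference of the quadratic form
  have h2 : D2 B.f y Nf Nf - D2 B.f y NY NY = Q (Nf - NY) Nf + Q NY (Nf - NY) := by
    show Q Nf Nf - Q NY NY = _
    rw [map_sub, map_sub, sub_apply]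
    ring
  have h3 : |D2 B.f y Nf Nf - D2 B.f y NY NY| ≤ 2 * ‖Q‖ * ‖Nf - NY‖ := by
    rw [h2]
    have i1 : |Q (Nf - NY) Nf| ≤ ‖Q‖ * ‖Nf - NY‖ := by
      have := Q.le_opNorm₂ (Nf - NY) Nf
      rwa [hNf, mul_one, Real.norm_eq_abs] at this
    have i2 : |Q NY (Nf - NY)| ≤ ‖Q‖ * ‖Nf - NY‖ := by
      have := Q.le_opNorm₂ NY (Nf - NY)
      rwa [hNYn, mul_one, Real.norm_eq_abs] at this
    have := abs_add_le (Q (Nf - NY) Nf) (Q NY (Nf - NY))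
    linarith
  have hδ : ‖Nf - NY‖ ^ 2 = 2 - 2 * p := by
    rw [norm_sub_sq_real, hNf, hNYn]; ring
  have hG2 : ‖G‖ ^ 2 = γ ^ 2 * (1 - p ^ 2) := by
    rw [hGd, norm_sub_sq_real, inner_smul_right, norm_smul, hNYn, hgNY, Real.norm_eq_abs, mul_one,
      sq_abs, ← hγd]
    ring
  have hp1 : p ≤ 1 := by
    have := real_inner_le_norm Nf NY
    rwa [hNf, hNYn, mul_one] at this
  have hδ0 : 0 ≤ ‖Nf - NY‖ := norm_nonneg _
  have hG0 : 0 ≤ ‖G‖ := norm_nonneg _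
  have h4 : γ * ‖Nf - NY‖ ≤ 2 * ‖G‖ := by
    have : (γ * ‖Nf - NY‖) ^ 2 ≤ (2 * ‖G‖) ^ 2 := by
      rw [mul_pow, mul_pow, hδ, hG2]
      have i1 : 0 ≤ γ ^ 2 := sq_nonneg _
      have i2 : 2 - 2 * p ≤ 2 ^ 2 * (1 - p ^ 2) := by nlinarith
      have := mul_le_mul_of_nonneg_left i2 i1
      linarith
    exact (sq_le_sq₀ (by positivity) (by positivity)).1 this
  have h5 : 1 - p ≤ ‖Nf - NY‖ := by
    have : (1 - p) ^ 2 ≤ ‖Nf - NY‖ ^ 2 := by rw [hδ]; nlinarith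
    exact (sq_le_sq₀ (by linarith) hδ0).1 this
  have h6 : |⟪G, rl n Z⟫| ≤ ‖G‖ * ‖Z‖ := by
    have := abs_real_inner_le_norm G (rl n Z)
    rwa [rl_norm n hn] at this
  have h7 : Lop S.X (fun x => B.f (refl n t (S.X x))) u
      = κ ^ 2 * (D2 B.f y Nf Nf - D2 B.f y NY NY) - 2 * S.H * κ ^ 2 * (γ * (1 - p))
        + ⟪G, rl n Z⟫ := by
    rw [hl, h1]
    linear_combination (κ ^ 2) * hp
  have hκ2 : 0 < κ ^ 2 := by positivity
  have hQ0 : 0 ≤ ‖Q‖ := by positivity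
  have hZ0 : 0 ≤ ‖Z‖ := norm_nonneg _
  have h8 : |Lop S.X (fun x => B.f (refl n t (S.X x))) u|
      ≤ κ ^ 2 * (2 * ‖Q‖ * ‖Nf - NY‖) + 2 * S.H * κ ^ 2 * (γ * ‖Nf - NY‖) + ‖G‖ * ‖Z‖ := by
    rw [h7]
    refine (abs_add_le _ _).trans ?_
    refine add_le_add ((abs_sub _ _).trans ?_) h6
    refine add_le_add ?_ ?_
    · rw [abs_mul, abs_of_pos hκ2]
      exact mul_le_mul_of_nonneg_left h3 hκ2.le
    · rw [abs_of_nonneg (by
        have : 0 ≤ 1 - p := by linarith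
        positivity)]
      apply mul_le_mul_of_nonneg_left _ (by positivity)
      exact mul_le_mul_of_nonneg_left h5 hγ.le
  have h9 : ‖Nf - NY‖ ≤ 2 * ‖G‖ / γ := by
    rw [le_div_iff₀ hγ]; linarith
  have h10 : |Lop S.X (fun x => B.f (refl n t (S.X x))) u|
      ≤ (κ ^ 2 * ‖G‖) * (4 * ‖Q‖ / γ + 4 * S.H + ‖Z‖ / κ ^ 2) := by
    refine h8.trans ?_
    have i1 : κ ^ 2 * (2 * ‖Q‖ * ‖Nf - NY‖) ≤ κ ^ 2 * (2 * ‖Q‖ * (2 * ‖G‖ / γ)) := by
      apply mul_le_mul_of_nonneg_left _ hκ2.le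
      exact mul_le_mul_of_nonneg_left h9 (by positivity)
    have i2 : 2 * S.H * κ ^ 2 * (γ * ‖Nf - NY‖) ≤ 2 * S.H * κ ^ 2 * (2 * ‖G‖) :=
      mul_le_mul_of_nonneg_left h4 (by positivity)
    have i3 : (κ ^ 2 * ‖G‖) * (4 * ‖Q‖ / γ + 4 * S.H + ‖Z‖ / κ ^ 2)
        = κ ^ 2 * (2 * ‖Q‖ * (2 * ‖G‖ / γ)) + 2 * S.H * κ ^ 2 * (2 * ‖G‖) + ‖G‖ * ‖Z‖ := by
      field_simp
      ring
    rw [i3]
    linarith
  refine h10.trans ?_
  have h11 : 0 ≤ 4 * ‖Q‖ / γ + 4 * S.H + ‖Z‖ / κ ^ 2 := by positivity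
  have h12 := mul_le_mul_of_nonneg_right hG h11
  refine h12.trans (le_of_eq ?_)
  ring

theorem DI_continuous_fderiv (S : Surf) (a : V2) : Continuous fun u => fderiv ℝ S.X u a :=
  (S.smooth.continuous_fderiv (by norm_num)).clm_apply continuous_const

theorem DI_continuousAt_K (S : Surf) {u₀ : V2} {e : V3} (B : Box S.X u₀ e) (n : V3) (t : ℝ)
    {u : V2} (hu : ‖u‖ ≤ 1) (hU : refl n t (S.X u) ∈ B.U B.r) :
    ContinuousAt (DI_K S B n t) u := by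
  have hY : ContinuousAt (fun x => refl n t (S.X x)) u :=
    (DI_contDiff_refl S n t).continuous.continuousAt
  have hg : ContinuousAt (fun x => ‖B.g (refl n t (S.X x))‖) u :=
    (ContinuousAt.comp (g := B.g) (f := fun x => refl n t (S.X x)) (B.g_cont S.smooth hU) hY).norm
  have hQ : ContinuousAt (fun x => ‖fderiv ℝ (fderiv ℝ B.f) (refl n t (S.X x))‖) u := by
    have h1 : ContDiffAt ℝ 0 (fderiv ℝ (fderiv ℝ B.f)) (refl n t (S.X u)) :=
      (contDiffAt_fderiv (B.smooth_f hU)).fderiv_right (by norm_num)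
    have h2 : ContinuousAt (fun x => fderiv ℝ (fderiv ℝ B.f) (refl n t (S.X x))) u :=
      ContinuousAt.comp (g := fderiv ℝ (fderiv ℝ B.f)) (f := fun x => refl n t (S.X x))
        h1.continuousAt hY
    exact ContinuousAt.norm (E := V3 →L[ℝ] V3 →L[ℝ] ℝ) h2
  have hZ : Continuous (fun x => Lop S.X S.X x) := by
    unfold Lop
    exact (((contDiff_cA S.smooth).continuous.smul (continuous_D2 S.smooth e0 e0)).add
      ((continuous_const.mul (contDiff_cB S.smooth).continuous).smul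
        (continuous_D2 S.smooth e0 e1))).add
      ((contDiff_cC S.smooth).continuous.smul (continuous_D2 S.smooth e1 e1))
  have hnn : Continuous (nn S.X) := (contDiff_nn S.smooth).continuous
  have h0 := (DI_continuous_fderiv S e0).norm
  have h1 := (DI_continuous_fderiv S e1).norm
  unfold DI_K
  refine ContinuousAt.mul ?_ ?_
  · exact (((continuous_const.mul h0).mul h1).mul (h0.add h1)).continuousAt
  · refine ContinuousAt.add (ContinuousAt.add ?_ continuousAt_const) ?_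
    · exact (continuousAt_const.mul hQ).div hg (B.g_pos hU).ne'
    · refine ContinuousAt.div hZ.norm.continuousAt (hnn.norm.pow 2).continuousAt ?_
      have := S.nn_pos hu
      positivity

theorem di (S : Surf) {u₀ : V2} {e : V3} (B : Box S.X u₀ e) {n : V3} (hn : ‖n‖ = 1) (t : ℝ)
    {u₁ : V2} (hu₁ : ‖u₁‖ ≤ 1) (hU : refl n t (S.X u₁) ∈ B.U B.r)
    (hb₁ : ‖B.b (refl n t (S.X u₁))‖ ≤ 1)
    (hN : 0 < ⟪S.N (B.b (refl n t (S.X u₁))), rl n (S.N u₁)⟫) :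
    ∃ K : ℝ, ∀ᶠ u in 𝓝 u₁, ‖u‖ < 1 → ‖B.b (refl n t (S.X u))‖ < 1 →
      |Lop S.X (fun x => B.f (refl n t (S.X x))) u|
        ≤ K * ‖fderiv ℝ (fun x => B.f (refl n t (S.X x))) u‖ := by
  have hY : ContinuousAt (fun x => refl n t (S.X x)) u₁ :=
    (DI_contDiff_refl S n t).continuous.continuousAt
  have hE1 : ∀ᶠ u in 𝓝 u₁, refl n t (S.X u) ∈ B.U B.r :=
    hY.eventually ((B.U_open B.hr le_rfl).mem_nhds hU)
  have hbY : ContinuousAt (fun x => B.b (refl n t (S.X x))) u₁ :=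
    ContinuousAt.comp (g := B.b) (f := fun x => refl n t (S.X x))
      (B.smooth_b hU).continuousAt hY
  have hNb : ContinuousAt (fun x => S.N (B.b (refl n t (S.X x)))) u₁ :=
    ContinuousAt.comp (g := S.N) (f := fun x => B.b (refl n t (S.X x))) (S.N_cont hb₁) hbY
  have hrN : ContinuousAt (fun x => rl n (S.N x)) u₁ := by
    have h1 : ContinuousAt (fun x => rlL n (S.N x)) u₁ :=
      ContinuousAt.comp (g := rlL n) (f := S.N) (rlL n).continuous.continuousAt (S.N_cont hu₁)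
    have h2 : (fun x => rlL n (S.N x)) = fun x => rl n (S.N x) := by
      funext x; exact rlL_apply n _
    rwa [h2] at h1
  have hE2 : ∀ᶠ u in 𝓝 u₁, 0 < ⟪S.N (B.b (refl n t (S.X u))), rl n (S.N u)⟫ :=
    (hNb.inner hrN).eventually (lt_mem_nhds hN)
  have hE3 : ∀ᶠ u in 𝓝 u₁, DI_K S B n t u < DI_K S B n t u₁ + 1 :=
    (DI_continuousAt_K S B n t hu₁ hU).eventually (gt_mem_nhds (by linarith))
  refine ⟨DI_K S B n t u₁ + 1, ?_⟩
  filter_upwards [hE1, hE2, hE3] with u h1 h2 h3 hu hb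
  refine (DI_pointwise S B hn t hu h1 hb h2).trans ?_
  exact mul_le_mul_of_nonneg_right h3.le (norm_nonneg _)

theorem lop_neg (S : Surf) {u₀ : V2} {e : V3} (B : Box S.X u₀ e) {n : V3} (hn : ‖n‖ = 1) (t : ℝ)
    {u : V2} (hu : ‖u‖ < 1) (hU : refl n t (S.X u) ∈ B.U B.r)
    (hb : ‖B.b (refl n t (S.X u))‖ < 1)
    (hN : rl n (S.N u) = -S.N (B.b (refl n t (S.X u)))) :
    Lop S.X (fun x => B.f (refl n t (S.X x))) u < 0 := by
  have hl := DI_lopw S B hn t hu.le hU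
  have hp := pdef S B hU hb
  have hc := S.cmcN hu
  have hgN := B.g_eq hU
  have hγ := B.g_pos hU
  have hκ := S.nn_pos hu.le
  have hH := S.Hpos
  have h1 : D2 B.f (refl n t (S.X u)) (rl n (S.N u)) (rl n (S.N u))
      = D2 B.f (refl n t (S.X u)) (S.N (B.b (refl n t (S.X u))))
        (S.N (B.b (refl n t (S.X u)))) := by
    rw [hN]
    unfold D2
    simp
  have h2 : ⟪B.g (refl n t (S.X u)), rl n (Lop S.X S.X u)⟫
      = -(‖B.g (refl n t (S.X u))‖ * (2 * S.H * ‖nn S.X u‖ ^ 2)) := by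
    have h3 : ⟪S.N (B.b (refl n t (S.X u))), rl n (Lop S.X S.X u)⟫
        = -(2 * S.H * ‖nn S.X u‖ ^ 2) := by
      have h4 : S.N (B.b (refl n t (S.X u))) = -rl n (S.N u) := by rw [hN, neg_neg]
      rw [h4, inner_neg_left, rl_inner n hn, real_inner_comm, hc]
    conv_lhs => rw [hgN]
    rw [inner_smul_left]
    have h5 : ⟪NN S.X (B.b (refl n t (S.X u))), rl n (Lop S.X S.X u)⟫
        = -(2 * S.H * ‖nn S.X u‖ ^ 2) := h3
    rw [h5]
    simp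
  rw [hl, h1, hp, h2]
  have h3 : 0 < ‖nn S.X u‖ ^ 2 * (S.H * ‖B.g (refl n t (S.X u))‖) := by positivity
  nlinarith

end Pool.Agent.H99.SC
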