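import Pool.Agent.H99.SC.EXT
import Pool.Agent.H99.SC.LSIG

/-!
# MKP: building a `PreDom` (the normal points into `W`)

(1) Local: `‖u₀‖ < 1`, box `B` at `u₀`, `e = N u₀`, `ε` small: `B.U ε` disjoint from `Disc` (`disj`, compact),
`‖B.b y‖ < 1`, `y ∈ S.Sig ↔ B.f y = 0` on it (`box_sig`).  `{f > 0} ∩ U` and `{f < 0} ∩ U` are preconnected and avoid
the frontier: each is in `W` or in `(closure W)ᶜ` (`sep`).  `X u₀ ∈ closure W`: `U ∩ W` is open nonempty and contains a point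
with `f ≠ 0` (move along `e`: `B.f` changes), so one side is in `W`; same with `(closure W)ᶜ`: one side is outside.
(2) `A = {u : ‖u‖ < 1, for small s > 0: X u + s N u ∈ W and X u - s N u ∉ closure W}`, `A'` = the opposite.  By (1) both
are open in the open disc (points `X u ± s N u` for `u` near `u₀` are on the sides `f > 0`, `f < 0`), disjoint, and cover
it: one of them is everything.
(3) The minimum `m` of `(X u) 2` over the closed disc is `< 0` (`hlow`), attained at an interior `u₁` (`bd1`); `min_N`: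
`N u₁ = E3`.  The half space `{y 2 < m}` is convex, disjoint from `S.Sig ∪ Disc`, unbounded, so it is outside the
closure of the bounded set `W` (`sep`).  So `u₁ ∈ A` and `A` is everything: `inS`.
-/

set_option autoImplicit false

open scoped RealInnerProductSpace Topology
open Metric Filter Set

noncomputable section

namespace Pool.Agent.H99.SC

/-- near a point of the box `f` has the sign of the normal displacement -/
theorem MKP_sign {S : Surf} {u₀ : V2} {e : V3} (B : Box S.X u₀ e) {u : V2} (hu : ‖u‖ ≤ 1)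
    (hur : ‖u - u₀‖ < B.r) :
    ∃ δ : ℝ, 0 < δ ∧ ∀ s : ℝ, 0 < s → s < δ →
      0 < B.f (S.X u + s • S.N u) ∧ B.f (S.X u - s • S.N u) < 0 := by
  have hyU : S.X u ∈ B.U B.r := ⟨u, 0, hur, by simpa using B.hr, by simp⟩
  have hb : B.b (S.X u) = u := B.b_X hur
  have hf0 : B.f (S.X u) = 0 := B.f_X hur
  have hNN : (NN S.X u) = S.N u := rfl
  have hin : 0 < ⟪B.g (S.X u), S.N u⟫ := by
    have h1 := B.g_eq hyU
    have h2 := B.g_pos hyU
    have h3 := S.N_norm hu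
    rw [h1, hb, hNN, inner_smul_left, real_inner_self_eq_norm_sq, h3]
    simpa using h2
  have hd : HasFDerivAt B.f (fderiv ℝ B.f (S.X u)) (S.X u) :=
    ((B.smooth_f hyU).differentiableAt (by norm_num)).hasFDerivAt
  have hline : HasDerivAt (fun s : ℝ => S.X u + s • S.N u) (S.N u) 0 := by
    have := ((hasDerivAt_id (0 : ℝ)).smul_const (S.N u)).const_add (S.X u)
    simpa using this
  have hcomp : HasDerivAt (fun s : ℝ => B.f (S.X u + s • S.N u))
      (⟪B.g (S.X u), S.N u⟫) 0 := by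
    have h1 : HasFDerivAt B.f (fderiv ℝ B.f (S.X u)) (S.X u + (0 : ℝ) • S.N u) := by
      simpa using hd
    have h2 := h1.comp_hasDerivAt (0 : ℝ) hline
    rw [B.fd S.smooth hyU] at h2
    exact h2
  have hslope := hasDerivAt_iff_tendsto_slope.1 hcomp
  have hev := hslope.eventually (lt_mem_nhds hin)
  rw [eventually_nhdsWithin_iff, Metric.eventually_nhds_iff] at hev
  obtain ⟨δ, hδ, h⟩ := hev
  refine ⟨δ, hδ, fun s hs hsδ => ?_⟩
  have hz : B.f (S.X u + (0 : ℝ) • S.N u) = 0 := by simpa using hf0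
  constructor
  · have h1 := h (y := s) (by simpa [abs_of_pos hs] using hsδ) hs.ne'
    rw [slope_def_field, hz, sub_zero, sub_zero] at h1
    exact (div_pos_iff_of_pos_right hs).1 h1
  · have h1 := h (y := -s) (by simpa [abs_of_pos hs] using hsδ) (neg_ne_zero.2 hs.ne')
    rw [slope_def_field, hz, sub_zero, sub_zero] at h1
    have h2 : (-s) • S.N u = -(s • S.N u) := neg_smul _ _
    rw [h2, ← sub_eq_add_neg] at h1
    by_contra hcon
    push Not at hcon
    have := div_nonpos_of_nonneg_of_nonpos hcon (neg_nonpos.2 hs.le)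
    linarith

/-- an open set meeting the box neighbourhood contains a point of it off the surface -/
theorem MKP_off {S : Surf} {u₀ : V2} {e : V3} (B : Box S.X u₀ e) {ε : ℝ}
    (hεr : ε ≤ B.r) {O : Set V3} (hO : IsOpen O) (h : (B.U ε ∩ O).Nonempty) :
    ∃ y ∈ B.U ε, y ∈ O ∧ B.f y ≠ 0 := by
  obtain ⟨y, hy, hyO⟩ := h
  by_cases hf : B.f y = 0
  · obtain ⟨h1, h2, h3⟩ := B.coord hεr hy
    have hε : 0 < ε := lt_of_le_of_lt (abs_nonneg _) h2
    rw [hf, zero_smul, add_zero] at h3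
    have h4 : ∀ᶠ s : ℝ in 𝓝[>] 0, y + s • e ∈ O :=
      (lsig_tend y e).eventually (hO.mem_nhds hyO)
    obtain ⟨s, hs, hs1, hs2⟩ := (h4.and (lsig_ev hε)).exists
    have h5 : |s| < ε := by rw [abs_of_pos hs1]; exact hs2
    have h6 : S.X (B.b y) + s • e ∈ B.U ε := B.mk_mem h1 h5
    have h7 := (B.left (B.b y) s (h1.trans_le hεr) (h5.trans_le hεr)).2
    rw [h3] at h6 h7
    exact ⟨_, h6, hs, by rw [h7]; exact hs1.ne'⟩
  · exact ⟨y, hy, hyO, hf⟩

theorem MKP_loc (S : Surf) {W : Set V3} (hO : IsOpen W)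
    (hfr : frontier W ⊆ S.Sig ∪ Disc) (disj : ∀ u : V2, ‖u‖ < 1 → S.X u ∉ Disc)
    (hW : ∀ u : V2, ‖u‖ < 1 → S.X u ∈ closure W)
    (hE : ∀ u : V2, ‖u‖ < 1 → S.X u ∈ closure ((closure W)ᶜ)) {u₀ : V2} (hu₀ : ‖u₀‖ < 1) :
    ∃ ε : ℝ, 0 < ε ∧
      ((∀ u : V2, ‖u - u₀‖ < ε → ‖u‖ < 1 → ∃ η : ℝ, 0 < η ∧ ∀ s : ℝ, 0 < s → s < η →
        S.X u + s • S.N u ∈ W ∧ S.X u - s • S.N u ∉ closure W) ∨
      (∀ u : V2, ‖u - u₀‖ < ε → ‖u‖ < 1 → ∃ η : ℝ, 0 < η ∧ ∀ s : ℝ, 0 < s → s < η →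
        S.X u - s • S.N u ∈ W ∧ S.X u + s • S.N u ∉ closure W)) := by
  have hpos : 0 < ⟪nn S.X u₀, S.N u₀⟫ := by
    have h1 := S.nn_pos hu₀.le
    have h2 := S.nn_eq hu₀.le
    have h3 := S.N_norm hu₀.le
    rw [h2, inner_smul_left, real_inner_self_eq_norm_sq, h3]
    simpa using h1
  obtain ⟨B⟩ := exists_box S.smooth hpos
  obtain ⟨ε₁, hε₁, hε₁r, -, hsig⟩ := box_sig S hu₀.le B
  obtain ⟨ε₂, hε₂, -, hU₂⟩ := B.small S.smooth.continuous
    (isCompact_Disc.isClosed.isOpen_compl.mem_nhds (disj u₀ hu₀))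
  obtain ⟨ε, hε, he1, he2⟩ : ∃ ε : ℝ, 0 < ε ∧ ε ≤ ε₁ ∧ ε ≤ ε₂ :=
    ⟨min ε₁ ε₂, lt_min hε₁ hε₂, min_le_left _ _, min_le_right _ _⟩
  have hεr : ε ≤ B.r := he1.trans hε₁r
  have hD : ∀ y ∈ B.U ε, y ∉ Disc := fun y hy => hU₂ (B.U_mono he2 hy)
  have hS : ∀ y ∈ B.U ε, y ∈ S.Sig → B.f y = 0 := fun y hy h => ((hsig y (B.U_mono he1 hy)).1 h).1
  have hnh : B.U ε ∈ 𝓝 (S.X u₀) := B.U_nhds hε hεr
  have sp := sep hO (B.preconn_pos S.smooth.continuous hε hεr) (by
      rw [Set.disjoint_left]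
      rintro y ⟨hy, hf⟩ hyF
      rcases hfr hyF with h | h
      · exact hf.ne' (hS y hy h)
      · exact hD y hy h)
  have sn := sep hO (B.preconn_neg S.smooth.continuous hε hεr) (by
      rw [Set.disjoint_left]
      rintro y ⟨hy, hf⟩ hyF
      rcases hfr hyF with h | h
      · exact hf.ne (hS y hy h)
      · exact hD y hy h)
  -- points of both kinds off the surface
  obtain ⟨y1, hy1, hy1W, hy1f⟩ := MKP_off B hεr hO (mem_closure_iff_nhds.1 (hW u₀ hu₀) _ hnh)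
  obtain ⟨y2, hy2, hy2W, hy2f⟩ := MKP_off B hεr isClosed_closure.isOpen_compl
    (mem_closure_iff_nhds.1 (hE u₀ hu₀) _ hnh)
  -- the points near the surface
  have hnear : ∀ u : V2, ‖u - u₀‖ < ε → ‖u‖ < 1 → ∃ η : ℝ, 0 < η ∧ ∀ s : ℝ, 0 < s → s < η →
      (S.X u + s • S.N u ∈ B.U ε ∧ 0 < B.f (S.X u + s • S.N u)) ∧
      (S.X u - s • S.N u ∈ B.U ε ∧ B.f (S.X u - s • S.N u) < 0) := by
    intro u hu hu1
    obtain ⟨δ, hδ, hsgn⟩ := MKP_sign B hu1.le (hu.trans_le hεr)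
    have hmem : S.X u ∈ B.U ε := ⟨u, 0, hu, by simpa using hε, by simp⟩
    have hn : B.U ε ∈ 𝓝 (S.X u) := (B.U_open hε hεr).mem_nhds hmem
    have h1 : ∀ᶠ s : ℝ in 𝓝[>] 0, S.X u + s • S.N u ∈ B.U ε :=
      (lsig_tend (S.X u) (S.N u)).eventually hn
    have h2 : ∀ᶠ s : ℝ in 𝓝[>] 0, S.X u - s • S.N u ∈ B.U ε :=
      (lsig_tend' (S.X u) (S.N u)).eventually hn
    have h3 := h1.and h2
    rw [eventually_nhdsWithin_iff, Metric.eventually_nhds_iff] at h3
    obtain ⟨δ', hδ', h4⟩ := h3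
    refine ⟨min δ δ', lt_min hδ hδ', fun s hs hs' => ?_⟩
    have h5 := h4 (y := s) (by
      rw [Real.dist_eq, sub_zero, abs_of_pos hs]
      exact hs'.trans_le (min_le_right _ _)) hs
    have h6 := hsgn s hs (hs'.trans_le (min_le_left _ _))
    exact ⟨⟨h5.1, h6.1⟩, ⟨h5.2, h6.2⟩⟩
  refine ⟨ε, hε, ?_⟩
  rcases sp with sp | sp <;> rcases sn with sn | sn
  · exfalso
    rcases lt_or_gt_of_ne hy2f with h | h
    · exact hy2W (subset_closure (sn ⟨hy2, h⟩))
    · exact hy2W (subset_closure (sp ⟨hy2, h⟩))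
  · left
    intro u hu hu1
    obtain ⟨η, hη, h⟩ := hnear u hu hu1
    exact ⟨η, hη, fun s hs hs' => ⟨sp (h s hs hs').1, sn (h s hs hs').2⟩⟩
  · right
    intro u hu hu1
    obtain ⟨η, hη, h⟩ := hnear u hu hu1
    exact ⟨η, hη, fun s hs hs' => ⟨sn (h s hs hs').2, sp (h s hs hs').1⟩⟩
  · exfalso
    rcases lt_or_gt_of_ne hy1f with h | h
    · exact sn ⟨hy1, h⟩ (subset_closure hy1W)
    · exact sp ⟨hy1, h⟩ (subset_closure hy1W)

theorem mkp (S : Surf) {W : Set V3} (hO : IsOpen W) (hb : Bornology.IsBounded W)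
    (hfr : frontier W ⊆ S.Sig ∪ Disc) (disj : ∀ u : V2, ‖u‖ < 1 → S.X u ∉ Disc)
    (hW : ∀ u : V2, ‖u‖ < 1 → S.X u ∈ closure W)
    (hE : ∀ u : V2, ‖u‖ < 1 → S.X u ∈ closure ((closure W)ᶜ))
    (hD : ∀ d : V3, d 2 = 0 → d 0 ^ 2 + d 1 ^ 2 < 1 → ∃ ε : ℝ, 0 < ε ∧ ∀ s : ℝ, 0 < s → s < ε →
      d - s • E3 ∈ W ∧ d + s • E3 ∉ closure W)
    (hlow : ∃ u : V2, ‖u‖ < 1 ∧ (S.X u) 2 < 0) : ∃ D : PreDom S, D.W = W := by
  set A : Set V2 := {u | ‖u‖ < 1 ∧ ∃ η : ℝ, 0 < η ∧ ∀ s : ℝ, 0 < s → s < η →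
        S.X u + s • S.N u ∈ W ∧ S.X u - s • S.N u ∉ closure W} with hA
  set A' : Set V2 := {u | ‖u‖ < 1 ∧ ∃ η : ℝ, 0 < η ∧ ∀ s : ℝ, 0 < s → s < η →
        S.X u - s • S.N u ∈ W ∧ S.X u + s • S.N u ∉ closure W} with hA'
  have hdj : Disjoint A A' := by
    rw [Set.disjoint_left]
    rintro u ⟨-, η, hη, h⟩ ⟨-, η', hη', h'⟩
    have hs : 0 < min η η' / 2 := by positivity
    have h1 := h (min η η' / 2) hs (by
      have := min_le_left η η'
      have : 0 < min η η' := lt_min hη hη'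
      linarith)
    have h2 := h' (min η η' / 2) hs (by
      have := min_le_right η η'
      have : 0 < min η η' := lt_min hη hη'
      linarith)
    exact h1.2 (subset_closure h2.1)
  have hball : ∀ (u₀ : V2) (r : ℝ), ‖u₀‖ < 1 → 0 < r →
      ∃ δ : ℝ, 0 < δ ∧ δ ≤ r ∧ ∀ u : V2, ‖u - u₀‖ < δ → ‖u‖ < 1 := by
    intro u₀ r h hr
    refine ⟨min r (1 - ‖u₀‖), lt_min hr (by linarith), min_le_left _ _, fun u hu => ?_⟩
    have h1 : ‖u‖ ≤ ‖u - u₀‖ + ‖u₀‖ := by
      simpa using norm_add_le (u - u₀) u₀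
    have h2 := hu.trans_le (min_le_right _ _)
    linarith
  have hloc : ∀ u₀ : V2, ‖u₀‖ < 1 → ∃ δ : ℝ, 0 < δ ∧
      ((∀ u : V2, ‖u - u₀‖ < δ → u ∈ A) ∨ (∀ u : V2, ‖u - u₀‖ < δ → u ∈ A')) := by
    intro u₀ h
    obtain ⟨ε, hε, h1⟩ := MKP_loc S hO hfr disj hW hE h
    obtain ⟨δ, hδ, hδε, h2⟩ := hball u₀ ε h hε
    refine ⟨δ, hδ, ?_⟩
    rcases h1 with h1 | h1
    · left
      intro u hu
      exact ⟨h2 u hu, h1 u (hu.trans_le hδε) (h2 u hu)⟩
    · right
      intro u hu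
      exact ⟨h2 u hu, h1 u (hu.trans_le hδε) (h2 u hu)⟩
  have hAo : IsOpen A := by
    rw [Metric.isOpen_iff]
    intro u₀ hu₀
    obtain ⟨δ, hδ, h⟩ := hloc u₀ hu₀.1
    rcases h with h | h
    · exact ⟨δ, hδ, fun u hu => h u (mem_ball_iff_norm.1 hu)⟩
    · exfalso
      exact Set.disjoint_left.1 hdj hu₀ (h u₀ (by simpa using hδ))
  have hAo' : IsOpen A' := by
    rw [Metric.isOpen_iff]
    intro u₀ hu₀
    obtain ⟨δ, hδ, h⟩ := hloc u₀ hu₀.1
    rcases h with h | h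
    · exfalso
      exact Set.disjoint_left.1 hdj (h u₀ (by simpa using hδ)) hu₀
    · exact ⟨δ, hδ, fun u hu => h u (mem_ball_iff_norm.1 hu)⟩
  have hcov : ball (0 : V2) 1 ⊆ A ∪ A' := by
    intro u hu
    rw [mem_ball_zero_iff] at hu
    obtain ⟨δ, hδ, h⟩ := hloc u hu
    rcases h with h | h
    · exact Or.inl (h u (by simpa using hδ))
    · exact Or.inr (h u (by simpa using hδ))
  -- the lowest point
  obtain ⟨u₂, hu₂, hlow₂⟩ := hlow
  have hcont : Continuous (fun u : V2 => (S.X u) 2) :=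
    (lsig_coord_cont 2).comp S.smooth.continuous
  obtain ⟨u₁, hu₁, hmin⟩ := (isCompact_closedBall (0 : V2) 1).exists_isMinOn
    ⟨0, by simp⟩ hcont.continuousOn
  have hmin' : ∀ u : V2, ‖u‖ ≤ 1 → (S.X u₁) 2 ≤ (S.X u) 2 := by
    intro u hu
    exact hmin (mem_closedBall_zero_iff.2 hu)
  have hm : (S.X u₁) 2 < 0 := (hmin' u₂ hu₂.le).trans_lt hlow₂
  have hu₁' : ‖u₁‖ < 1 := by
    rw [mem_closedBall_zero_iff] at hu₁
    rcases hu₁.eq_or_lt with h | h
    · exfalso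
      have := (S.bd1 h).1
      linarith
    · exact h
  have hN := min_N S hu₁' (fun u hu => hmin' u hu.le)
  set m : ℝ := (S.X u₁) 2 with hmdef
  have hcv : Convex ℝ {y : V3 | y 2 < m} := by
    intro x hx y hy a b ha hb hab
    have hx' : x 2 < m := hx
    have hy' : y 2 < m := hy
    show (a • x + b • y) 2 < m
    simp only [PiLp.add_apply, PiLp.smul_apply, smul_eq_mul]
    rcases ha.eq_or_lt with h | h
    · have hb1 : b = 1 := by linarith
      rw [← h, hb1]; linarith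
    · have h3 := mul_lt_mul_of_pos_left hx' h
      have h4 := mul_le_mul_of_nonneg_left hy'.le hb
      have h5 : a * m + b * m = m := by rw [← add_mul, hab, one_mul]
      linarith
  have hhalf : {y : V3 | y 2 < m} ⊆ (closure W)ᶜ := by
    rcases sep hO hcv.isPreconnected (by
      rw [Set.disjoint_left]
      intro y hy hyF
      have hy' : y 2 < m := hy
      rcases hfr hyF with h | h
      · obtain ⟨v, hv, rfl⟩ := h
        have := hmin' v hv
        linarith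
      · have := h.1
        linarith) with h | h
    · exfalso
      obtain ⟨R, hR⟩ := hb.exists_norm_le
      have h1 : (m - 1 - |R|) • E3 ∈ {y : V3 | y 2 < m} := by
        show ((m - 1 - |R|) • E3) 2 < m
        simp only [PiLp.smul_apply, smul_eq_mul, E3_2, mul_one]
        have := abs_nonneg R
        linarith
      have h2 := hR _ (h h1)
      have h3 : ‖((m - 1 - |R|) • E3 : V3) 2‖ ≤ ‖((m - 1 - |R|) • E3 : V3)‖ :=
        PiLp.norm_apply_le _ _
      simp only [PiLp.smul_apply, smul_eq_mul, E3_2, mul_one, Real.norm_eq_abs] at h3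
      have h4 := le_abs_self R
      have h5 := abs_nonneg R
      rw [abs_of_neg (show m - 1 - |R| < 0 by linarith)] at h3
      linarith
    · exact h
  have hu₁A : u₁ ∈ A := by
    rcases hcov (mem_ball_zero_iff.2 hu₁') with h | h
    · exact h
    · exfalso
      obtain ⟨-, η, hη, h⟩ := h
      have h1 := (h (η / 2) (by positivity) (by linarith)).1
      have h2 : S.X u₁ - (η / 2) • S.N u₁ ∈ {y : V3 | y 2 < m} := by
        show (S.X u₁ - (η / 2) • S.N u₁) 2 < m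
        rw [hN]
        simp only [PiLp.sub_apply, PiLp.smul_apply, smul_eq_mul, E3_2, mul_one]
        linarith
      exact hhalf h2 (subset_closure h1)
  have hall : ball (0 : V2) 1 ⊆ A :=
    (convex_ball (0 : V2) 1).isPreconnected.subset_left_of_subset_union hAo hAo' hdj hcov
      ⟨u₁, mem_ball_zero_iff.2 hu₁', hu₁A⟩
  exact ⟨{ W := W, isOpen := hO, bdd := hb, fr := hfr, disj := disj
           inS := fun u hu => (hall (mem_ball_zero_iff.2 hu)).2
           inD := hD }, rfl⟩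

end Pool.Agent.H99.SC
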