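import Pool.Agent.H99.SC.CAL

/-!
# HOPF: the boundary point lemma in the plane

`w` is C^2 near `x₀`, positive in the ball `B = ball (x₀ + R ν) R` (so `x₀` is on its boundary),
`w x₀ = 0`, and `Ell A B C w ≤ K |Dw|` in `B` near `x₀`, coefficients continuous and positive
definite at `x₀`.  Then the derivative in the direction `ν` is positive.

Proof.  Replace `R` by a small `R' ≤ R/2` (`ball (x₀ + R' ν) R' ⊆ ball (x₀ + R ν) R` and its
closure meets the sphere of the big ball only at `x₀`), so that on `closedBall c R'`, `c = x₀ + R' ν`: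
`w` is C^2, the coefficients satisfy `A x^2 + 2 B x y + C y^2 >= l (x^2 + y^2)`, `|A|,|B|,|C| <= L`
(constants from continuity), the inequality holds in the open ball, and `w > 0` on
`closedBall c R' \ {x₀}`.  Let `v x = exp (-a |x-c|^2) - exp (-a R'^2)`.
`fderiv v x h = -2 a <x-c,h> exp(..)`,  `D2 v x h k = (4 a^2 <x-c,h><x-c,k> - 2 a <h,k>) exp(..)`, so
`Ell v >= exp(..) (4 a^2 l |x-c|^2 - 4 a L)` and `K |Dv| <= exp(..) 2 a |K| |x-c|`: for `a` large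
`Ell v > K |Dv|` and also `Ell v > |K| |Dv|` on `R'/2 <= |x-c| <= R'`.  On `|x-c| = R'/2` we have `w >= m > 0`; choose `e > 0` with
`e v <= m` there.  Let `x1` be a minimum of `w - e v` on the compact annulus.  If the minimum is
negative then `x1` is in the open annulus (`w - e v >= 0` on both boundary circles), so
`Dw = e Dv` at `x1` and `Ell (w - e v) x1 >= 0` (`Ell_nonneg_of_isLocalMin`), i.e.
`Ell w x1 >= e Ell v x1 > e |K| |Dv| >= K |Dw|` at `x1`: contradiction.  So `w >= e v` on the annulus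
and, moving from `x₀` in the direction `ν`,
`Dw(x₀) ν >= e Dv(x₀) ν = 2 a e R' exp (-a R'^2) > 0`.
(One may assume `K >= 0` by replacing `K` by `|K|`.)
-/

set_option autoImplicit false

open scoped RealInnerProductSpace Topology
open Metric Filter Set

noncomputable section

namespace Pool.Agent.H99.SC

/-- the barrier -/
private def HOPF_v (a b : ℝ) (c x : V2) : ℝ := Real.exp (-a * ‖x - c‖ ^ 2) - b

private theorem HOPF_exp (a : ℝ) (c x : V2) :
    HasFDerivAt (fun x : V2 => Real.exp (-a * ‖x - c‖ ^ 2))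
      (Real.exp (-a * ‖x - c‖ ^ 2) • ((-2 * a) • innerSL ℝ (x - c))) x := by
  have h1 : HasFDerivAt (fun x : V2 => ‖x - c‖ ^ 2) (2 • innerSL ℝ (x - c)) x := by
    have h2 := (hasStrictFDerivAt_norm_sq (x - c)).hasFDerivAt
    have h3 : HasFDerivAt (fun x : V2 => x - c) (ContinuousLinearMap.id ℝ V2) x :=
      (hasFDerivAt_id x).sub_const c
    have h4 := h2.comp x h3
    rw [ContinuousLinearMap.comp_id] at h4
    exact h4
  have h2 := (h1.const_mul (-a)).exp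
  have h3 : Real.exp (-a * ‖x - c‖ ^ 2) • ((-2 * a) • innerSL ℝ (x - c)) =
      Real.exp (-a * ‖x - c‖ ^ 2) • (-a • (2 • innerSL ℝ (x - c))) := by
    ext h
    simp
    ring
  rw [h3]
  exact h2

private theorem HOPF_v_fderiv (a b : ℝ) (c x : V2) :
    HasFDerivAt (HOPF_v a b c) (Real.exp (-a * ‖x - c‖ ^ 2) • ((-2 * a) • innerSL ℝ (x - c))) x :=
  (HOPF_exp a c x).sub_const b

private theorem HOPF_v_cd (a b : ℝ) (c : V2) : ContDiff ℝ 2 (HOPF_v a b c) := by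
  unfold HOPF_v
  exact ((contDiff_const.mul ((contDiff_id.sub contDiff_const).norm_sq ℝ)).exp).sub contDiff_const

private theorem HOPF_v_D2 (a b : ℝ) (c x h k : V2) :
    D2 (HOPF_v a b c) x h k = Real.exp (-a * ‖x - c‖ ^ 2) *
      (4 * a ^ 2 * ⟪x - c, h⟫ * ⟪x - c, k⟫ - 2 * a * ⟪h, k⟫) := by
  have h1 : fderiv ℝ (HOPF_v a b c) =
      fun x => Real.exp (-a * ‖x - c‖ ^ 2) • ((-2 * a) • innerSL ℝ (x - c)) := by
    funext x
    exact (HOPF_v_fderiv a b c x).fderiv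
  have h2 : HasFDerivAt (fun x : V2 => (-2 * a) • innerSL ℝ (x - c))
      ((-2 * a) • (innerSL ℝ : V2 →L[ℝ] V2 →L[ℝ] ℝ)) x := by
    have h3 : HasFDerivAt (fun x : V2 => x - c) (ContinuousLinearMap.id ℝ V2) x :=
      (hasFDerivAt_id x).sub_const c
    have h4 := ((innerSL ℝ : V2 →L[ℝ] V2 →L[ℝ] ℝ).hasFDerivAt (x := x - c)).comp x h3
    rw [ContinuousLinearMap.comp_id] at h4
    exact h4.const_smul (-2 * a)
  have h3 : HasFDerivAt (fun x : V2 =>
      Real.exp (-a * ‖x - c‖ ^ 2) • ((-2 * a) • innerSL ℝ (x - c))) _ x :=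
    (HOPF_exp a c x).smul h2
  unfold D2
  rw [h1]
  rw [h3.fderiv]
  show Real.exp (-a * ‖x - c‖ ^ 2) * ((-2 * a) * ⟪h, k⟫) +
    (Real.exp (-a * ‖x - c‖ ^ 2) * ((-2 * a) * ⟪x - c, h⟫)) * ((-2 * a) * ⟪x - c, k⟫) = _
  ring

private theorem HOPF_in0 (y : V2) : ⟪y, e0⟫ = y 0 := by rw [ip2]; simp
private theorem HOPF_in1 (y : V2) : ⟪y, e1⟫ = y 1 := by rw [ip2]; simp

private theorem HOPF_Ell (A B C : V2 → ℝ) (a b : ℝ) (c x : V2) :
    Ell A B C (HOPF_v a b c) x = Real.exp (-a * ‖x - c‖ ^ 2) *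
      (4 * a ^ 2 * (A x * (x - c) 0 ^ 2 + 2 * B x * (x - c) 0 * (x - c) 1 + C x * (x - c) 1 ^ 2) -
        2 * a * (A x + C x)) := by
  unfold Ell
  rw [HOPF_v_D2, HOPF_v_D2, HOPF_v_D2, HOPF_in0, HOPF_in1, HOPF_in0, HOPF_in1, HOPF_in1]
  rw [e0_0, e0_1, e1_1]
  ring

private theorem HOPF_norm (a b : ℝ) (ha : 0 < a) (c x : V2) :
    ‖fderiv ℝ (HOPF_v a b c) x‖ = Real.exp (-a * ‖x - c‖ ^ 2) * (2 * a * ‖x - c‖) := by
  rw [(HOPF_v_fderiv a b c x).fderiv, norm_smul, norm_smul, innerSL_apply_norm, Real.norm_eq_abs,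
    Real.norm_eq_abs, abs_of_pos (Real.exp_pos _), abs_mul, abs_of_pos ha]
  norm_num

/-- `Ell v > |K| |Dv|` -/
private theorem HOPF_bar {A B C : V2 → ℝ} {a b l L K r : ℝ} {c x : V2} (ha : 0 < a) (hl : 0 < l)
    (hr : 0 < r)
    (hq : ∀ s t : ℝ, l * (s ^ 2 + t ^ 2) ≤ A x * s ^ 2 + 2 * B x * s * t + C x * t ^ 2)
    (hL : A x + C x ≤ L) (haL : L + |K| * r < a * (l * r ^ 2 / 2)) (hx1 : r / 2 ≤ ‖x - c‖)
    (hx2 : ‖x - c‖ ≤ r) :
    |K| * ‖fderiv ℝ (HOPF_v a b c) x‖ < Ell A B C (HOPF_v a b c) x := by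
  rw [HOPF_Ell, HOPF_norm a b ha]
  have hE := Real.exp_pos (-a * ‖x - c‖ ^ 2)
  have h1 := hq ((x - c) 0) ((x - c) 1)
  rw [← nsq2] at h1
  have h2 : (r / 2) ^ 2 ≤ ‖x - c‖ ^ 2 := by gcongr
  have h3 : |K| * ‖x - c‖ ≤ |K| * r := by gcongr
  have h4 : l * (r / 2) ^ 2 ≤ l * ‖x - c‖ ^ 2 := by gcongr
  have h5 : |K| * (2 * a * ‖x - c‖) < 4 * a ^ 2 * (A x * (x - c) 0 ^ 2 +
      2 * B x * (x - c) 0 * (x - c) 1 + C x * (x - c) 1 ^ 2) - 2 * a * (A x + C x) := by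
    have h6 : a * (l * (r / 2) ^ 2) ≤ a * (A x * (x - c) 0 ^ 2 +
      2 * B x * (x - c) 0 * (x - c) 1 + C x * (x - c) 1 ^ 2) := by
      gcongr
      linarith
    nlinarith
  calc |K| * (Real.exp (-a * ‖x - c‖ ^ 2) * (2 * a * ‖x - c‖))
      = Real.exp (-a * ‖x - c‖ ^ 2) * (|K| * (2 * a * ‖x - c‖)) := by ring
    _ < _ := by gcongr

private theorem HOPF_def {p q s l : ℝ} (h1 : l < p) (h2 : q ^ 2 < (p - l) * (s - l)) (x y : ℝ) :
    l * (x ^ 2 + y ^ 2) ≤ p * x ^ 2 + 2 * q * x * y + s * y ^ 2 := by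
  have h3 : (p - l) * ((p - l) * x ^ 2 + 2 * q * x * y + (s - l) * y ^ 2) =
      ((p - l) * x + q * y) ^ 2 + ((p - l) * (s - l) - q ^ 2) * y ^ 2 := by ring
  have h4 : 0 ≤ (p - l) * ((p - l) * x ^ 2 + 2 * q * x * y + (s - l) * y ^ 2) := by
    rw [h3]
    exact add_nonneg (sq_nonneg _) (mul_nonneg (by linarith) (sq_nonneg _))
  have h5 : 0 ≤ (p - l) * x ^ 2 + 2 * q * x * y + (s - l) * y ^ 2 :=
    nonneg_of_mul_nonneg_right h4 (by linarith)
  linarith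

private theorem HOPF_def2 {p q s l : ℝ} (hl : 0 < l) (h1 : l < p)
    (h2 : q ^ 2 < (p - l) * (s - l)) : q ^ 2 < p * s := by
  have h3 : 0 < s - l := by
    by_contra hcon
    push Not at hcon
    nlinarith [sq_nonneg q]
  nlinarith

private theorem HOPF_key {A B C w : V2 → ℝ} {K l L r a m : ℝ} {c : V2} (hr : 0 < r) (hl : 0 < l)
    (ha : 0 < a) (hm : 0 < m) (haL : L + |K| * r < a * (l * r ^ 2 / 2))
    (h : ∀ x, ‖x - c‖ ≤ r → ContDiffAt ℝ 2 w x ∧ l < A x ∧ B x ^ 2 < (A x - l) * (C x - l) ∧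
      A x + C x < L ∧ (‖x - c‖ < r → Ell A B C w x ≤ K * ‖fderiv ℝ w x‖))
    (hwT : ∀ x, ‖x - c‖ ≤ r → 0 ≤ w x) (hzmin : ∀ x, ‖x - c‖ ≤ r / 2 → m ≤ w x) :
    ∀ x, r / 2 ≤ ‖x - c‖ → ‖x - c‖ ≤ r →
      m * HOPF_v a (Real.exp (-a * r ^ 2)) c x ≤ w x := by
  set b : ℝ := Real.exp (-a * r ^ 2) with hb
  have hbp : 0 < b := Real.exp_pos _
  have hv1 : ∀ x, HOPF_v a b c x ≤ 1 := by
    intro x
    unfold HOPF_v
    have : Real.exp (-a * ‖x - c‖ ^ 2) ≤ 1 := by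
      rw [Real.exp_le_one_iff]
      have := mul_nonneg ha.le (sq_nonneg ‖x - c‖)
      linarith
    linarith
  have hcw : ContinuousOn w (closedBall c r) := by
    intro x hx
    rw [mem_closedBall, dist_eq_norm] at hx
    exact (h x hx).1.continuousAt.continuousWithinAt
  by_contra hcon
  push Not at hcon
  obtain ⟨x2, hx21, hx22, hx2⟩ := hcon
  have hT : IsCompact (closedBall c r ∩ {x | r / 2 ≤ ‖x - c‖}) :=
    (isCompact_closedBall c r).inter_right (isClosed_le continuous_const (by fun_prop))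
  have hgc : ContinuousOn (fun x => w x - m * HOPF_v a b c x)
      (closedBall c r ∩ {x | r / 2 ≤ ‖x - c‖}) :=
    (hcw.mono inter_subset_left).sub
      (((HOPF_v_cd a b c).continuous.const_mul m).continuousOn)
  obtain ⟨x1, hx1, hmin⟩ := hT.exists_isMinOn ⟨x2, by
    rw [mem_closedBall, dist_eq_norm]; exact hx22, hx21⟩ hgc
  have hx1r : ‖x1 - c‖ ≤ r := by
    have := hx1.1
    rwa [mem_closedBall, dist_eq_norm] at this
  have hx1l : r / 2 ≤ ‖x1 - c‖ := hx1.2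
  have hneg : w x1 - m * HOPF_v a b c x1 < 0 := by
    have h1 : w x1 - m * HOPF_v a b c x1 ≤ w x2 - m * HOPF_v a b c x2 :=
      isMinOn_iff.1 hmin x2 ⟨by rw [mem_closedBall, dist_eq_norm]; exact hx22, hx21⟩
    linarith
  have hlt : ‖x1 - c‖ < r := by
    refine lt_of_le_of_ne hx1r fun h => ?_
    have h1 : HOPF_v a b c x1 = 0 := by
      unfold HOPF_v
      rw [h, hb, sub_self]
    rw [h1, mul_zero, sub_zero] at hneg
    linarith [hwT x1 hx1r]
  have hgt : r / 2 < ‖x1 - c‖ := by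
    refine lt_of_le_of_ne hx1l fun h => ?_
    have h1 : m ≤ w x1 := hzmin x1 h.symm.le
    have h2 : m * HOPF_v a b c x1 ≤ m * 1 := by
      have := hv1 x1
      gcongr
    linarith
  have hloc : IsLocalMin (fun x => w x - m * HOPF_v a b c x) x1 := by
    have h1 : closedBall c r ∩ {x | r / 2 ≤ ‖x - c‖} ∈ 𝓝 x1 := by
      have h2 : IsOpen (ball c r ∩ {x : V2 | r / 2 < ‖x - c‖}) :=
        isOpen_ball.inter (isOpen_lt continuous_const (by fun_prop))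
      refine Filter.mem_of_superset (h2.mem_nhds ⟨by rw [mem_ball, dist_eq_norm]; exact hlt, hgt⟩) ?_
      intro y hy
      exact ⟨ball_subset_closedBall hy.1, show r / 2 ≤ ‖y - c‖ from le_of_lt hy.2⟩
    exact hmin.isLocalMin h1
  obtain ⟨hcd1, hA1, hd1, hL1, hdi1⟩ := h x1 hx1r
  have hvcd : ContDiffAt ℝ 2 (HOPF_v a b c) x1 := (HOPF_v_cd a b c).contDiffAt
  have hgcd : ContDiffAt ℝ 2 (fun x => w x - m * HOPF_v a b c x) x1 :=
    hcd1.sub (contDiffAt_const.mul hvcd)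
  have hE0 : 0 ≤ Ell A B C (fun x => w x - m * HOPF_v a b c x) x1 :=
    Ell_nonneg_of_isLocalMin (by linarith) (HOPF_def2 hl hA1 hd1) hgcd hloc
  have hE1 : Ell A B C (fun x => w x - m * HOPF_v a b c x) x1 =
      Ell A B C w x1 - m * Ell A B C (HOPF_v a b c) x1 := by
    unfold Ell
    rw [D2_sub_smul hcd1 hvcd, D2_sub_smul hcd1 hvcd, D2_sub_smul hcd1 hvcd]
    ring
  have hD : fderiv ℝ w x1 = m • fderiv ℝ (HOPF_v a b c) x1 := by
    have h1 := hloc.fderiv_eq_zero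
    have hwd : DifferentiableAt ℝ w x1 := hcd1.differentiableAt (by norm_num)
    have hvd : DifferentiableAt ℝ (HOPF_v a b c) x1 := (HOPF_v_fderiv a b c x1).differentiableAt
    have h2 : fderiv ℝ (fun x => w x - m * HOPF_v a b c x) x1 =
        fderiv ℝ w x1 - m • fderiv ℝ (HOPF_v a b c) x1 :=
      (hwd.hasFDerivAt.sub (hvd.hasFDerivAt.const_mul m)).fderiv
    rw [h2] at h1
    exact sub_eq_zero.1 h1
  have hbar := HOPF_bar (A := A) (B := B) (C := C) (b := b) (K := K) ha hl hr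
    (HOPF_def hA1 hd1) hL1.le haL hx1l hx1r
  have h5 := hdi1 hlt
  rw [hD, norm_smul, Real.norm_eq_abs, abs_of_pos hm] at h5
  have h6 : K * (m * ‖fderiv ℝ (HOPF_v a b c) x1‖) ≤
      m * (|K| * ‖fderiv ℝ (HOPF_v a b c) x1‖) := by
    have h7 : K * (m * ‖fderiv ℝ (HOPF_v a b c) x1‖) ≤
        |K| * (m * ‖fderiv ℝ (HOPF_v a b c) x1‖) := by
      gcongr
      exact le_abs_self K
    linarith
  have h8 := mul_lt_mul_of_pos_left hbar hm
  rw [hE1] at hE0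
  linarith

private theorem HOPF_end {w : V2 → ℝ} {x₀ ν c : V2} {a r m : ℝ} (hr : 0 < r) (ha : 0 < a)
    (hm : 0 < m) (hν : ‖ν‖ = 1) (hc : c = x₀ + r • ν) (h0 : w x₀ = 0)
    (hw : DifferentiableAt ℝ w x₀)
    (hkey : ∀ x, r / 2 ≤ ‖x - c‖ → ‖x - c‖ ≤ r →
      m * HOPF_v a (Real.exp (-a * r ^ 2)) c x ≤ w x) : 0 < fderiv ℝ w x₀ ν := by
  set b : ℝ := Real.exp (-a * r ^ 2) with hb
  have hbp : 0 < b := Real.exp_pos _
  have hc0 : ‖x₀ - c‖ = r := by
    rw [hc, sub_add_cancel_left, norm_neg, norm_smul, hν, Real.norm_eq_abs, abs_of_pos hr, mul_one]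
  have hline : HasDerivAt (fun s : ℝ => x₀ + s • ν) ν 0 := by
    simpa using ((hasDerivAt_id (0 : ℝ)).smul_const ν).const_add x₀
  have hwd : HasDerivAt (fun s : ℝ => w (x₀ + s • ν)) (fderiv ℝ w x₀ ν) 0 := by
    have h1 : HasFDerivAt w (fderiv ℝ w x₀) (x₀ + (0 : ℝ) • ν) := by
      rw [zero_smul, add_zero]
      exact hw.hasFDerivAt
    exact h1.comp_hasDerivAt 0 hline
  have hvd : HasDerivAt (fun s : ℝ => HOPF_v a b c (x₀ + s • ν)) (b * (2 * a * r)) 0 := by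
    have h1 : HasFDerivAt (HOPF_v a b c)
        (Real.exp (-a * ‖x₀ - c‖ ^ 2) • ((-2 * a) • innerSL ℝ (x₀ - c))) (x₀ + (0 : ℝ) • ν) := by
      rw [zero_smul, add_zero]
      exact HOPF_v_fderiv a b c x₀
    have h3 := h1.comp_hasDerivAt 0 hline
    have h4 : (Real.exp (-a * ‖x₀ - c‖ ^ 2) • ((-2 * a) • innerSL ℝ (x₀ - c))) ν =
        b * (2 * a * r) := by
      have h5 : x₀ - c = (-r) • ν := by rw [hc, sub_add_cancel_left, neg_smul]
      rw [hc0, h5]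
      show Real.exp (-a * r ^ 2) * ((-2 * a) * ⟪(-r) • ν, ν⟫) = b * (2 * a * r)
      rw [real_inner_smul_left, real_inner_self_eq_norm_sq, hν, ← hb]
      ring
    rw [h4] at h3
    exact h3
  have hdd := hwd.sub (hvd.const_mul m)
  have hnn : 0 ≤ fderiv ℝ w x₀ ν - m * (b * (2 * a * r)) := by
    rw [hasDerivAt_iff_tendsto_slope] at hdd
    have h1 := hdd.mono_left (nhdsWithin_mono 0 (show Ioi (0 : ℝ) ⊆ {0}ᶜ from fun x hx => ne_of_gt hx))
    refine ge_of_tendsto h1 ?_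
    have h2 : ∀ᶠ s : ℝ in 𝓝[>] 0, s ∈ Ioo 0 (r / 2) := Ioo_mem_nhdsGT (by positivity)
    filter_upwards [h2] with s hs
    rw [slope_def_field]
    simp only [Pi.sub_apply]
    have h3 : HOPF_v a b c (x₀ + (0 : ℝ) • ν) = 0 := by
      unfold HOPF_v
      rw [zero_smul, add_zero, hc0, hb, sub_self]
    have h4 : m * HOPF_v a b c (x₀ + s • ν) ≤ w (x₀ + s • ν) := by
      have h5 : x₀ + s • ν - c = (s - r) • ν := by rw [hc, sub_smul]; abel
      have h6 : ‖x₀ + s • ν - c‖ = r - s := by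
        rw [h5, norm_smul, hν, mul_one, Real.norm_eq_abs, abs_of_neg (by linarith [hs.2])]
        ring
      refine hkey _ ?_ ?_
      · rw [h6]; linarith [hs.2]
      · rw [h6]; linarith [hs.1]
    rw [h3, zero_smul, add_zero, h0]
    refine div_nonneg ?_ (by linarith [hs.1])
    linarith
  have : 0 < m * (b * (2 * a * r)) := by positivity
  linarith

private theorem HOPF_big {x₀ ν x : V2} {r R : ℝ} (hr : 0 < r) (hrR : r ≤ R / 2) (hν : ‖ν‖ = 1)
    (hx : ‖x - (x₀ + r • ν)‖ ≤ r) (hne : x ≠ x₀) : x ∈ ball (x₀ + R • ν) R := by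
  have h1 : ‖x - (x₀ + r • ν)‖ ^ 2 ≤ r ^ 2 := by gcongr
  have h2 : x - (x₀ + r • ν) = (x - x₀) - r • ν := by abel
  have h3 : x - (x₀ + R • ν) = (x - x₀) - R • ν := by abel
  have h4 : 0 < ‖x - x₀‖ ^ 2 := by
    have : 0 < ‖x - x₀‖ := norm_pos_iff.2 (sub_ne_zero.2 hne)
    positivity
  rw [h2, norm_sub_sq_real, inner_smul_right, norm_smul, hν, Real.norm_eq_abs, mul_one,
    sq_abs] at h1
  rw [mem_ball, dist_eq_norm, h3]
  refine lt_of_pow_lt_pow_left₀ 2 (by linarith) ?_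
  rw [norm_sub_sq_real, inner_smul_right, norm_smul, hν, Real.norm_eq_abs, mul_one, sq_abs]
  have h5 : 0 < ⟪x - x₀, ν⟫ := by
    have : 0 < r * (2 * ⟪x - x₀, ν⟫) := by linarith
    have := (mul_pos_iff_of_pos_left hr).1 this
    linarith
  have h6 : 0 < (R - r) * ⟪x - x₀, ν⟫ := mul_pos (by linarith) h5
  linarith

theorem hopf {A B C w : V2 → ℝ} {x₀ ν : V2} {K R : ℝ} (hR : 0 < R) (hν : ‖ν‖ = 1)
    (hw : ContDiffAt ℝ 2 w x₀) (h0 : w x₀ = 0)
    (hA : ContinuousAt A x₀) (hB : ContinuousAt B x₀) (hC : ContinuousAt C x₀)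
    (hAp : 0 < A x₀) (hABC : B x₀ ^ 2 < A x₀ * C x₀)
    (hpos : ∀ x ∈ ball (x₀ + R • ν) R, 0 < w x)
    (hdi : ∀ᶠ x in 𝓝 x₀, x ∈ ball (x₀ + R • ν) R → Ell A B C w x ≤ K * ‖fderiv ℝ w x‖) :
    0 < fderiv ℝ w x₀ ν := by
  -- constants
  have hCp : 0 < C x₀ := by
    by_contra hcon
    push Not at hcon
    nlinarith [sq_nonneg (B x₀), mul_nonneg hAp.le (neg_nonneg.2 hcon)]
  obtain ⟨l, hlp, hAl, hdl⟩ : ∃ l : ℝ, 0 < l ∧ l < A x₀ ∧
      B x₀ ^ 2 < (A x₀ - l) * (C x₀ - l) := by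
    have h1 : 0 < A x₀ * C x₀ - B x₀ ^ 2 := by linarith
    refine ⟨(A x₀ * C x₀ - B x₀ ^ 2) / (2 * (A x₀ + C x₀)), by positivity, ?_, ?_⟩
    · rw [div_lt_iff₀ (by positivity)]
      nlinarith [sq_nonneg (B x₀), mul_pos hAp hCp, mul_pos hAp hAp]
    · set l : ℝ := (A x₀ * C x₀ - B x₀ ^ 2) / (2 * (A x₀ + C x₀)) with hl
      have hl2 : l * (2 * (A x₀ + C x₀)) = A x₀ * C x₀ - B x₀ ^ 2 := by
        rw [hl]
        field_simp
      have h2 : (A x₀ - l) * (C x₀ - l) = A x₀ * C x₀ - l * (2 * (A x₀ + C x₀)) / 2 + l ^ 2 := by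
        ring
      rw [h2, hl2]
      have := sq_nonneg l
      linarith
  have hcd : ∀ᶠ x in 𝓝 x₀, ContDiffAt ℝ 2 w x := hw.eventually (by simp)
  have hAl' : ∀ᶠ x in 𝓝 x₀, l < A x := hA.eventually (lt_mem_nhds hAl)
  have hdl' : ∀ᶠ x in 𝓝 x₀, B x ^ 2 < (A x - l) * (C x - l) := by
    have h1 : ContinuousAt (fun x => B x ^ 2) x₀ := hB.pow 2
    have h2 : ContinuousAt (fun x => (A x - l) * (C x - l)) x₀ :=
      (hA.sub continuousAt_const).mul (hC.sub continuousAt_const)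
    exact h1.eventually_lt h2 hdl
  have hLe : ∀ᶠ x in 𝓝 x₀, A x + C x < A x₀ + C x₀ + 1 :=
    (hA.add hC).eventually (gt_mem_nhds (by simp))
  obtain ⟨ρ, hρ, hball⟩ := Metric.eventually_nhds_iff_ball.1
    (hcd.and (hAl'.and (hdl'.and (hLe.and hdi))))
  obtain ⟨r, hrp, hrR, hrρ⟩ : ∃ r : ℝ, 0 < r ∧ r ≤ R / 2 ∧ r ≤ ρ / 4 :=
    ⟨min (R / 2) (ρ / 4), lt_min (by linarith) (by linarith), min_le_left _ _, min_le_right _ _⟩
  obtain ⟨c, hc⟩ : ∃ c, c = x₀ + r • ν := ⟨_, rfl⟩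
  have hc0 : ‖x₀ - c‖ = r := by
    rw [hc, sub_add_cancel_left, norm_neg, norm_smul, hν, Real.norm_eq_abs, abs_of_pos hrp, mul_one]
  have hin : ∀ x, ‖x - c‖ ≤ r → x ∈ ball x₀ ρ := by
    intro x hx
    rw [mem_ball, dist_eq_norm]
    have h1 : x - x₀ = (x - c) - (x₀ - c) := by abel
    rw [h1]
    have := norm_sub_le (x - c) (x₀ - c)
    linarith
  have hbig : ∀ x, ‖x - c‖ ≤ r → x ≠ x₀ → x ∈ ball (x₀ + R • ν) R := by
    intro x hx hne
    rw [hc] at hx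
    exact HOPF_big hrp hrR hν hx hne
  have hwT : ∀ x, ‖x - c‖ ≤ r → 0 ≤ w x := by
    intro x hx
    by_cases hne : x = x₀
    · rw [hne, h0]
    · exact (hpos x (hbig x hx hne)).le
  have hcw : ContinuousOn w (closedBall c (r / 2)) := by
    intro x hx
    rw [mem_closedBall, dist_eq_norm] at hx
    exact (hball x (hin x (by linarith))).1.continuousAt.continuousWithinAt
  obtain ⟨z, hz, hzmin⟩ := (isCompact_closedBall c (r / 2)).exists_isMinOn
    ⟨c, mem_closedBall_self (by positivity)⟩ hcw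
  have hzpos : 0 < w z := by
    rw [mem_closedBall, dist_eq_norm] at hz
    refine hpos z (hbig z (by linarith) ?_)
    rintro rfl
    linarith
  have hLp : 0 < A x₀ + C x₀ + 1 := by linarith
  obtain ⟨a, haL⟩ : ∃ a : ℝ, A x₀ + C x₀ + 1 + |K| * r < a * (l * r ^ 2 / 2) := by
    refine ⟨(A x₀ + C x₀ + 1 + |K| * r + 1) / (l * r ^ 2 / 2), ?_⟩
    rw [div_mul_cancel₀ _ (by positivity)]
    linarith
  have ha : 0 < a := by
    have h1 : 0 < l * r ^ 2 / 2 := by positivity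
    have h2 : 0 ≤ |K| * r := by positivity
    exact (mul_pos_iff_of_pos_right h1).1 (by linarith)
  refine HOPF_end hrp ha hzpos hν hc h0 (hw.differentiableAt (by norm_num)) ?_
  refine HOPF_key (A := A) (B := B) (C := C) hrp hlp ha hzpos haL ?_ hwT ?_
  · intro x hx
    obtain ⟨h1, h2, h3, h4, h5⟩ := hball x (hin x hx)
    refine ⟨h1, h2, h3, h4, fun hlt => h5 (hbig x hx ?_)⟩
    rintro rfl
    linarith
  · intro x hx
    exact isMinOn_iff.1 hzmin x (by rw [mem_closedBall, dist_eq_norm]; exact hx)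

end Pool.Agent.H99.SC
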