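import Pool.Agent.H99.SC.TILT
import Pool.Agent.H99.SC.ORI
import Pool.Agent.H99.SC.PLN
import Pool.Agent.H99.SC.HOPF

/-!
# ONE: one-sided surfaces (below the plane)

`one_nE` (no domain needed).  If `(X u) 2 < 0` for `‖u‖ < 1` then `N u₀ ≠ E3` for `‖u₀‖ = 1`.
Proof: let `w u = ⟪-E3, X u⟫ = -(X u) 2 > 0` inside, `w u₀ = 0`; if `N u₀ = E3` then `Dw(u₀) = 0` (`N_orth`).  `pln`
with `c = -E3`: `Lop X w u ≤ -(nn u) 2 · 2H‖nn‖^3/‖nn‖^2 + K|Dw|`, and `(nn u) 2 > 0` near `u₀`: so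
`Lop X w ≤ K |Dw|` inside near `u₀`.  `hopf` (through `Lop_eq_Ell`) with `x₀ = u₀`, `ν = -u₀`, `R = 1/2`
(`ball (u₀ - u₀/2) (1/2) ⊆ ball 0 1`): `Dw(u₀)(-u₀) > 0`: contradiction.

`one_Nr`: `Nr u₀ ≤ 0`: otherwise `(fderiv X u₀ u₀) 2 = -Nr β < 0` (`Xr_2`, `ori`), and `h3_pos` gives inside
points with positive height.

`one_kappa`: for `κ` large `N_3 + κ N_r < 0` on the parameter circle: otherwise `κ_j → ∞`, `u_j → u`
(compactness) with `N_3 + κ_j N_r ≥ 0`; then `N_r(u) = 0`, `N_3(u) ≥ 0` (since `N_r ≤ 0`), so `N u = E3`.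

`one_ball`: for `κ` large: `y 2 < 0`, `‖y‖^2 - 2 κ y 2 ≤ 1` imply `y ∈ W`.
Proof.  First such `y` is not in `S.Sig` for `κ` large: else `κ_j → ∞`, `u_j` with `(X u_j) 2 < 0`,
`‖X u_j‖^2 + 2 κ_j |(X u_j) 2| ≤ 1`; `u_j → u`, `(X u) 2 = 0`, so `‖u‖ = 1`.  If `N_3(u) < 0`:
`⟪fderiv X u u, X u⟫ = N_3 β < 0` (`Xr_p`), `hr_out`: `‖X u_j‖ > 1`: contradiction.  If `N_3(u) ≥ 0`: then
`N_r(u) < 0` (not `E3`), `(fderiv X u u) 2 > 0`; `F = -(X u) 2` and `G = 1 - ‖X u‖^2` both vanish on the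
circle; `F - c G` has radial derivative `< 0` for small `c > 0`, so (`rad1`) `F ≥ c G` inside near `u`; but
`2κ_j F(u_j) ≤ G(u_j)`, so `F(u_j) (1 - 2 c κ_j) ≥ 0` hence `F(u_j) ≤ 0`: contradiction for large `j`.
The set `{y 2 < 0, ‖y - κ E3‖^2 ≤ 1 + κ^2}` is convex, disjoint from `S.Sig` and `Disc`, contains `-s E3` for
small `s` (`inD` at 0), so it is in `W` by `sep`.

`one`: `e` horizontal unit.  `tilt` with `nf s = cos δ e + sin δ E3`, `tf s = κ sin δ`, `δ = (π/2)(1 - s)`.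
`SS` at `s = 0`: vacuous (`⟪E3, X u⟫ ≤ 0 < κ`).  For `s < 1`, `sin δ > 0`.  `ha`: `c` on the circle,
`l = ⟪n,c⟫ - t > 0`: `y = refl c` has `y 2 = -2 l sin δ < 0` and `‖y‖^2 - 2 κ y 2 = 1` (the plane contains
`κ E3`), so `one_ball`.  `hb`: `(refl d) 2 > 0`, but `S.Sig` has third coordinate `≤ 0`.  `hc`: at
`⟪n, X u₀⟫ = t`: `⟪n, N u₀⟫ = cos δ ⟪e,X u₀⟫ N_r + sin δ N_3 = sin δ (κ N_r + N_3) < 0`:
`hinge_strict`.  `hd`: the two points `±e` (or `sin δ κ > 0` and `X u = -e`).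
-/

set_option autoImplicit false

open scoped RealInnerProductSpace Topology
open Metric Filter Set

noncomputable section

namespace Pool.Agent.H99.SC

private lemma ONE_E3_inner (a : V3) : ⟪E3, a⟫ = a 2 := by simp [ip]

private lemma ONE_E3_norm : ‖E3‖ = 1 := by
  have h : ‖E3‖ ^ 2 = 1 := by rw [nsq]; simp
  nlinarith [norm_nonneg E3]

theorem one_nE (S : Surf) (hos : ∀ u : V2, ‖u‖ < 1 → (S.X u) 2 < 0) {u₀ : V2} (hu₀ : ‖u₀‖ = 1) :
    S.N u₀ ≠ E3 := by
  intro hN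
  set w : V2 → ℝ := fun x => ⟪-E3, S.X x⟫ with hw
  have hwv : ∀ x, w x = -(S.X x) 2 := by
    intro x; simp only [hw, inner_neg_left, ONE_E3_inner]
  obtain ⟨K, hK⟩ := pln S.smooth S.imm (-E3)
  have hball : ∀ x ∈ ball (u₀ + (1 / 2 : ℝ) • (-u₀)) (1 / 2 : ℝ), ‖x‖ < 1 := by
    intro x hx
    rw [mem_ball, dist_eq_norm] at hx
    have e1 : x = (x - (u₀ + (1 / 2 : ℝ) • (-u₀))) + (1 / 2 : ℝ) • u₀ := by module
    rw [e1]
    refine (norm_add_le _ _).trans_lt ?_
    have e2 : ‖(1 / 2 : ℝ) • u₀‖ = 1 / 2 := by rw [norm_smul, hu₀]; norm_num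
    rw [e2]
    linarith
  have hnn : (nn S.X u₀) 2 = ‖nn S.X u₀‖ := by
    have := S.nn_eq hu₀.le
    rw [hN] at this
    have h2 := congrArg (fun v : V3 => v 2) this
    simpa using h2
  have hnc : Continuous fun u => (nn S.X u) 2 := by
    have h1 : Continuous (nn S.X) := (contDiff_nn S.smooth).continuous
    have h2 : (fun u => (nn S.X u) 2) = fun u => ⟪E3, nn S.X u⟫ := by
      ext u; rw [ONE_E3_inner]
    rw [h2]
    exact continuous_const.inner h1
  have hev : ∀ᶠ x in 𝓝 u₀, 0 < (nn S.X x) 2 := by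
    apply hnc.continuousAt.eventually (lt_mem_nhds _)
    change 0 < (nn S.X u₀) 2
    rw [hnn]
    exact S.nn_pos hu₀.le
  have hdi : ∀ᶠ x in 𝓝 u₀, x ∈ ball (u₀ + (1 / 2 : ℝ) • (-u₀)) (1 / 2 : ℝ) →
      Ell (cA S.X) (cB S.X) (cC S.X) w x ≤ K * ‖fderiv ℝ w x‖ := by
    filter_upwards [hev] with x hx hxb
    have hx1 := hball x hxb
    have h1 := hK x hx1.le
    rw [← Lop_eq_Ell]
    have h2 : ⟪nn S.X x, Lop S.X S.X x⟫ = 2 * S.H * ‖nn S.X x‖ ^ 3 := by
      rw [real_inner_comm]; exact S.cmc x hx1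
    rw [h2] at h1
    have h3 : ⟪-E3, nn S.X x⟫ = -(nn S.X x) 2 := by rw [inner_neg_left, ONE_E3_inner]
    rw [h3] at h1
    have h4 := (abs_le.mp h1).2
    have h5 : 0 < ‖nn S.X x‖ := S.nn_pos hx1.le
    have h6 : -(nn S.X x) 2 * (2 * S.H * ‖nn S.X x‖ ^ 3) / ‖nn S.X x‖ ^ 2 ≤ 0 := by
      apply div_nonpos_of_nonpos_of_nonneg _ (by positivity)
      have : 0 ≤ 2 * S.H * ‖nn S.X x‖ ^ 3 := by have := S.Hpos; positivity
      nlinarith
    linarith
  have hh := hopf (A := cA S.X) (B := cB S.X) (C := cC S.X) (w := w) (x₀ := u₀) (ν := -u₀) (K := K)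
    (R := 1 / 2) (by norm_num) (by rw [norm_neg]; exact hu₀)
    (contDiff_height S.smooth _).contDiffAt (by rw [hwv, (S.bd1 hu₀).1]; simp)
    (contDiff_cA S.smooth).continuous.continuousAt (contDiff_cB S.smooth).continuous.continuousAt
    (contDiff_cC S.smooth).continuous.continuousAt (cA_pos (S.imm _ hu₀.le))
    (cB_sq_lt (S.imm _ hu₀.le))
    (by
      intro x hx
      rw [hwv]
      have := hos x (hball x hx)
      linarith) hdi
  rw [hw, fderiv_height S.smooth, ← hN, inner_neg_left, S.N_orth] at hh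
  simp at hh

private lemma ONE_inside {P : V2 → Prop} {u₀ : V2} (hu₀ : ‖u₀‖ = 1) (h : ∀ᶠ u in 𝓝 u₀, P u) :
    ∃ u, ‖u‖ < 1 ∧ P u := by
  have ht : Tendsto (fun s : ℝ => (1 - s) • u₀) (𝓝[>] 0) (𝓝 u₀) := by
    have : Continuous fun s : ℝ => (1 - s) • u₀ := by fun_prop
    have h2 := this.tendsto 0
    simp only [sub_zero, one_smul] at h2
    exact h2.mono_left nhdsWithin_le_nhds
  have h1 := ht.eventually h
  have h2 : ∀ᶠ s : ℝ in 𝓝[>] 0, s < 1 := by
    apply Filter.Eventually.filter_mono nhdsWithin_le_nhds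
    exact gt_mem_nhds one_pos
  have h3 : ∀ᶠ s : ℝ in 𝓝[>] 0, 0 < s := self_mem_nhdsWithin
  obtain ⟨s, hs1, hs2, hs3⟩ := (h1.and (h2.and h3)).exists
  refine ⟨(1 - s) • u₀, ?_, hs1⟩
  rw [norm_smul, hu₀, Real.norm_eq_abs, abs_of_pos (by linarith)]
  linarith

theorem one_Nr {S : Surf} (D : Dom S) (hos : ∀ u : V2, ‖u‖ < 1 → (S.X u) 2 < 0) {u₀ : V2}
    (hu₀ : ‖u₀‖ = 1) : S.Nr u₀ ≤ 0 := by
  by_contra hcon
  push Not at hcon
  have hb := ori D.toPreDom hu₀
  have h2 : (fderiv ℝ S.X u₀ u₀) 2 < 0 := by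
    rw [S.Xr_2 hu₀]
    nlinarith
  obtain ⟨u, h3, h4⟩ := ONE_inside hu₀ (h3_pos S hu₀ h2)
  exact absurd (h4.1 h3) (not_lt.mpr (hos u h3).le)

private lemma ONE_Nr_cont (S : Surf) {u : V2} (hu : ‖u‖ ≤ 1) : ContinuousAt S.Nr u := by
  unfold Surf.Nr
  exact (S.N_cont hu).inner S.smooth.continuous.continuousAt

private lemma ONE_N2_cont (S : Surf) {u : V2} (hu : ‖u‖ ≤ 1) : ContinuousAt (fun u => S.N u 2) u := by
  have : (fun u => S.N u 2) = fun u => ⟪E3, S.N u⟫ := by ext u; rw [ONE_E3_inner]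
  rw [this]
  exact continuousAt_const.inner (S.N_cont hu)

private lemma ONE_X2_cont (S : Surf) : Continuous (fun u => S.X u 2) := by
  have : (fun u => S.X u 2) = fun u => ⟪E3, S.X u⟫ := by ext u; rw [ONE_E3_inner]
  rw [this]
  exact continuous_const.inner S.smooth.continuous

/-- `a + j b ≥ 0` for all natural numbers `j` implies `b ≥ 0` -/
private lemma ONE_arch {a b : ℝ} (h : ∀ j : ℕ, 0 ≤ a + j * b) : 0 ≤ b := by
  by_contra hb
  push Not at hb
  obtain ⟨j, hj⟩ := exists_nat_gt (a / (-b))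
  have h1 := h j
  rw [div_lt_iff₀ (by linarith)] at hj
  nlinarith

theorem one_kappa {S : Surf} (D : Dom S) (hos : ∀ u : V2, ‖u‖ < 1 → (S.X u) 2 < 0) :
    ∃ κ₀ : ℝ, ∀ κ : ℝ, κ₀ ≤ κ → ∀ u : V2, ‖u‖ = 1 → S.N u 2 + κ * S.Nr u < 0 := by
  by_contra hcon
  push Not at hcon
  have h1 : ∀ j : ℕ, ∃ u : V2, ‖u‖ = 1 ∧ 0 ≤ S.N u 2 + j * S.Nr u := by
    intro j
    obtain ⟨κ, hκ, u, hu, h⟩ := hcon j
    refine ⟨u, hu, h.trans ?_⟩
    have := one_Nr D hos hu
    nlinarith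
  choose u hu hpos using h1
  obtain ⟨v, hv, φ, hφ, hlim⟩ := (isCompact_sphere (0 : V2) 1).tendsto_subseq
    (fun n => by simpa using hu n)
  have hv1 : ‖v‖ = 1 := by simpa using hv
  have hN := (ONE_N2_cont S hv1.le).tendsto.comp hlim
  have hR := (ONE_Nr_cont S hv1.le).tendsto.comp hlim
  have h2 : ∀ j : ℕ, 0 ≤ S.N v 2 + j * S.Nr v := by
    intro j
    have hl : Tendsto (fun k => S.N (u (φ k)) 2 + j * S.Nr (u (φ k))) atTop
        (𝓝 (S.N v 2 + j * S.Nr v)) := hN.add (hR.const_mul _)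
    refine ge_of_tendsto hl ?_
    filter_upwards [eventually_ge_atTop j] with k hk
    have h3 := hpos (φ k)
    have h4 := one_Nr D hos (hu (φ k))
    have h5 : (j : ℝ) ≤ φ k := by exact_mod_cast hk.trans (hφ.id_le k)
    nlinarith
  have h3 : S.Nr v = 0 := le_antisymm (one_Nr D hos hv1) (ONE_arch h2)
  rcases S.N_vert hv1 h3 with h4 | h4
  · exact one_nE S hos hv1 h4
  · have h5 := h2 0
    rw [h4] at h5
    simp at h5
    linarith

private lemma ONE_ballA {S : Surf} (D : Dom S) (hos : ∀ u : V2, ‖u‖ < 1 → (S.X u) 2 < 0) :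
    ∃ κ₀ : ℝ, ∀ κ : ℝ, κ₀ ≤ κ → ∀ u : V2, ‖u‖ ≤ 1 → (S.X u) 2 < 0 →
      1 < ‖S.X u‖ ^ 2 - 2 * κ * (S.X u) 2 := by
  by_contra hcon
  push Not at hcon
  have h1 : ∀ j : ℕ, ∃ u : V2, ‖u‖ ≤ 1 ∧ (S.X u) 2 < 0 ∧
      ‖S.X u‖ ^ 2 - 2 * j * (S.X u) 2 ≤ 1 := by
    intro j
    obtain ⟨κ, hκ, u, hu, h2, h⟩ := hcon j
    refine ⟨u, hu, h2, ?_⟩
    nlinarith
  choose u hu hneg hle using h1
  obtain ⟨v, hv, φ, hφ, hlim⟩ := (isCompact_closedBall (0 : V2) 1).tendsto_subseq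
    (fun n => by simpa using hu n)
  have hv1 : ‖v‖ ≤ 1 := by simpa using hv
  have hX := (S.smooth.continuous.tendsto v).comp hlim
  have hX2 := ((ONE_X2_cont S).tendsto v).comp hlim
  have hlt : ∀ k, ‖u k‖ < 1 := by
    intro k
    rcases (hu k).lt_or_eq with h | h
    · exact h
    · have := (S.bd1 h).1
      have := hneg k
      linarith
  have h2 : ∀ j : ℕ, 0 ≤ (1 - ‖S.X v‖ ^ 2) + j * (2 * (S.X v) 2) := by
    intro j
    have hl : Tendsto (fun k => (1 - ‖S.X (u (φ k))‖ ^ 2) + j * (2 * (S.X (u (φ k))) 2)) atTop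
        (𝓝 ((1 - ‖S.X v‖ ^ 2) + j * (2 * (S.X v) 2))) :=
      (tendsto_const_nhds.sub ((hX.norm).pow 2)).add ((hX2.const_mul 2).const_mul _)
    refine ge_of_tendsto hl ?_
    filter_upwards [eventually_ge_atTop j] with k hk
    have h3 := hle (φ k)
    have h4 := hneg (φ k)
    have h5 : (j : ℝ) ≤ φ k := by exact_mod_cast hk.trans (hφ.id_le k)
    nlinarith
  have h3 : 0 ≤ 2 * (S.X v) 2 := ONE_arch h2
  have hv1' : ‖v‖ = 1 := by
    rcases hv1.lt_or_eq with h | h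
    · have := hos v h
      linarith
    · exact h
  have hβ := ori D.toPreDom hv1'
  rcases lt_or_ge (S.N v 2) 0 with hc | hc
  · have h4 : ⟪fderiv ℝ S.X v v, S.X v⟫ < 0 := by
      rw [S.Xr_p hv1']
      nlinarith
    have h5 := hlim.eventually (hr_out S hv1' h4)
    obtain ⟨k, hk⟩ := h5.exists
    have h6 := hk.1 (hlt _)
    have h7 := hle (φ k)
    have h8 := hneg (φ k)
    have h9 : ‖S.X (u (φ k))‖ ^ 2 = (S.X (u (φ k))) 0 ^ 2 + (S.X (u (φ k))) 1 ^ 2 +
      (S.X (u (φ k))) 2 ^ 2 := nsq _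
    simp only [Function.comp_apply] at h6
    have h10 : (0 : ℝ) ≤ (φ k : ℕ) := Nat.cast_nonneg _
    nlinarith [sq_nonneg ((S.X (u (φ k))) 2)]
  · have hNr : S.Nr v < 0 := by
      rcases (one_Nr D hos hv1').lt_or_eq with h | h
      · exact h
      · exfalso
        rcases S.N_vert hv1' h with h4 | h4
        · exact one_nE S hos hv1' h4
        · rw [h4] at hc
          simp at hc
          linarith
    have h4 : 0 < (fderiv ℝ S.X v v) 2 := by
      rw [S.Xr_2 hv1']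
      nlinarith
    set m := ⟪fderiv ℝ S.X v v, S.X v⟫ with hm
    obtain ⟨c, hc0, hc1⟩ : ∃ c : ℝ, 0 < c ∧ -(fderiv ℝ S.X v v) 2 + 2 * c * m < 0 := by
      refine ⟨(fderiv ℝ S.X v v) 2 / (2 * (|m| + 1)), by positivity, ?_⟩
      have h5 : 2 * ((fderiv ℝ S.X v v) 2 / (2 * (|m| + 1))) * m =
          (fderiv ℝ S.X v v) 2 * (m / (|m| + 1)) := by
        field_simp
      rw [h5]
      have h6 : m / (|m| + 1) < 1 := by
        rw [div_lt_one (by positivity)]
        linarith [le_abs_self m]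
      nlinarith
    have hsm : ContDiff ℝ 1 (fun x : V2 => ⟪-E3, S.X x⟫ - c * (1 - ⟪S.X x, S.X x⟫)) := by
      have h1 := S.smooth.of_le (show (1 : WithTop ℕ∞) ≤ 2 by norm_num)
      exact (contDiff_const.inner ℝ h1).sub (contDiff_const.mul
        (contDiff_const.sub (h1.inner ℝ h1)))
    have hdX : HasFDerivAt S.X (fderiv ℝ S.X v) v :=
      (S.smooth.differentiable (by norm_num) v).hasFDerivAt
    have hder : fderiv ℝ (fun x : V2 => ⟪-E3, S.X x⟫ - c * (1 - ⟪S.X x, S.X x⟫)) v v =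
        -(fderiv ℝ S.X v v) 2 + 2 * c * m := by
      have e1 : HasDerivAt (fun s : ℝ => S.X (v + s • v)) (fderiv ℝ S.X v v) 0 := by
        have h5 : HasDerivAt (fun s : ℝ => v + s • v) v 0 := by
          have := ((hasDerivAt_id (0 : ℝ)).smul_const v).const_add v
          simpa using this
        have h6 : HasFDerivAt S.X (fderiv ℝ S.X v) (v + (0 : ℝ) • v) := by simpa using hdX
        exact h6.comp_hasDerivAt 0 h5
      have e2 : HasDerivAt (fun s : ℝ => ⟪-E3, S.X (v + s • v)⟫ -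
          c * (1 - ⟪S.X (v + s • v), S.X (v + s • v)⟫))
          (-(fderiv ℝ S.X v v) 2 + 2 * c * m) 0 := by
        have h7 := (hasDerivAt_const (0 : ℝ) (-E3 : V3)).inner ℝ e1
        have h8 := e1.inner ℝ e1
        have h9 := h7.sub ((h8.const_sub 1).const_mul c)
        refine h9.congr_deriv ?_
        simp only [zero_smul, add_zero, inner_zero_left, inner_neg_left, ONE_E3_inner]
        rw [real_inner_comm (fderiv ℝ S.X v v) (S.X v), ← hm]
        ring
      have e3 : HasDerivAt (fun s : ℝ => (fun x : V2 => ⟪-E3, S.X x⟫ -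
          c * (1 - ⟪S.X x, S.X x⟫)) (v + s • v))
          (fderiv ℝ (fun x : V2 => ⟪-E3, S.X x⟫ - c * (1 - ⟪S.X x, S.X x⟫)) v v) 0 := by
        have h5 : HasDerivAt (fun s : ℝ => v + s • v) v 0 := by
          have := ((hasDerivAt_id (0 : ℝ)).smul_const v).const_add v
          simpa using this
        have h6 := (hsm.differentiable (by norm_num) v).hasFDerivAt
        have h6' : HasFDerivAt (fun x : V2 => ⟪-E3, S.X x⟫ - c * (1 - ⟪S.X x, S.X x⟫))
          (fderiv ℝ (fun x : V2 => ⟪-E3, S.X x⟫ - c * (1 - ⟪S.X x, S.X x⟫)) v)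
          (v + (0 : ℝ) • v) := by simpa using h6
        exact h6'.comp_hasDerivAt 0 h5
      exact e3.unique e2
    have hrad := rad1 hv1' (F := fun x : V2 => ⟪-E3, S.X x⟫ - c * (1 - ⟪S.X x, S.X x⟫))
      hsm.contDiffAt
      (Eventually.of_forall (by
        intro x hx
        have h5 := S.bd1 hx
        have h6 : ⟪S.X x, S.X x⟫ = 1 := by
          rw [real_inner_self_eq_norm_sq, nsq, h5.1]; linarith [h5.2]
        rw [h6, inner_neg_left, ONE_E3_inner, h5.1]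
        simp))
      (by rw [hder]; exact hc1)
    have h5 := hlim.eventually hrad
    obtain ⟨J, hJ⟩ := exists_nat_gt (1 / (2 * c))
    obtain ⟨k, hk1, hk2⟩ := (h5.and (eventually_ge_atTop J)).exists
    have h6 := hk1.1 (hlt _)
    simp only [Function.comp_apply, inner_neg_left, ONE_E3_inner,
      real_inner_self_eq_norm_sq] at h6
    have h7 := hle (φ k)
    have h8 := hneg (φ k)
    have h9 : (J : ℝ) ≤ φ k := by exact_mod_cast hk2.trans (hφ.id_le k)
    rw [div_lt_iff₀ (by positivity)] at hJ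
    set F := -(S.X (u (φ k))) 2 with hF
    have hF0 : 0 < F := by rw [hF]; linarith
    have h10 : 2 * (φ k : ℝ) * F ≤ 1 - ‖S.X (u (φ k))‖ ^ 2 := by
      rw [hF]; linarith
    have h11 : c * (2 * (φ k : ℝ) * F) ≤ c * (1 - ‖S.X (u (φ k))‖ ^ 2) :=
      mul_le_mul_of_nonneg_left h10 hc0.le
    have h12 : 1 < (φ k : ℝ) * (2 * c) := by
      have : (J : ℝ) * (2 * c) ≤ φ k * (2 * c) := mul_le_mul_of_nonneg_right h9 (by positivity)
      linarith
    have h13 : 1 * F < (φ k : ℝ) * (2 * c) * F := mul_lt_mul_of_pos_right h12 hF0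
    nlinarith

theorem one_ball {S : Surf} (D : Dom S) (hos : ∀ u : V2, ‖u‖ < 1 → (S.X u) 2 < 0) :
    ∃ κ₀ : ℝ, ∀ κ : ℝ, κ₀ ≤ κ → ∀ y : V3, y 2 < 0 → ‖y‖ ^ 2 - 2 * κ * y 2 ≤ 1 → y ∈ D.W := by
  obtain ⟨κ₀, hκ₀⟩ := ONE_ballA D hos
  refine ⟨max κ₀ 1, fun κ hκ => ?_⟩
  have hκ1 : κ₀ ≤ κ := (le_max_left _ _).trans hκ
  have hκ2 : 1 ≤ κ := (le_max_right _ _).trans hκ
  have hA := hκ₀ κ hκ1
  set A : Set V3 := {y | y 2 < 0 ∧ ‖y‖ ^ 2 - 2 * κ * y 2 ≤ 1} with hAdef
  have hAeq : A = {y | ⟪E3, y⟫ < 0} ∩ closedBall (κ • E3) (Real.sqrt (1 + κ ^ 2)) := by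
    ext y
    simp only [hAdef, Set.mem_ofPred_eq, mem_inter_iff, mem_closedBall, dist_eq_norm, ONE_E3_inner]
    have h1 : ‖y - κ • E3‖ ^ 2 = ‖y‖ ^ 2 - 2 * κ * y 2 + κ ^ 2 := by
      rw [norm_sub_sq_real, inner_smul_right, real_inner_comm, ONE_E3_inner, norm_smul,
        ONE_E3_norm]
      rw [mul_one, Real.norm_eq_abs, sq_abs]
      ring
    have h2 : ‖y - κ • E3‖ ≤ Real.sqrt (1 + κ ^ 2) ↔ ‖y - κ • E3‖ ^ 2 ≤ 1 + κ ^ 2 :=
      Real.le_sqrt (norm_nonneg _) (by positivity)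
    rw [h2, h1]
    constructor
    · rintro ⟨h3, h4⟩; exact ⟨h3, by linarith⟩
    · rintro ⟨h3, h4⟩; exact ⟨h3, by linarith⟩
  have hconv : Convex ℝ A := by
    rw [hAeq]
    refine Convex.inter ?_ (convex_closedBall _ _)
    exact convex_halfSpace_lt (innerSL ℝ E3).isBoundedLinearMap.toIsLinearMap 0
  have hdisj : Disjoint A (frontier D.W) := by
    rw [Set.disjoint_left]
    intro y hy hyf
    rcases D.fr hyf with h | h
    · obtain ⟨u, hu, rfl⟩ := h
      have := hA u hu hy.1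
      linarith [hy.2]
    · have := h.1
      linarith [hy.1]
  obtain ⟨ε, hε, hε2⟩ := D.inD 0 (by simp) (by simp)
  have hmem : ∃ y, y ∈ A ∧ y ∈ D.W := by
    set s := min (ε / 2) (1 / (4 * κ)) with hs
    have hs0 : 0 < s := by rw [hs]; positivity
    have hs1 : s < ε := lt_of_le_of_lt (min_le_left _ _) (by linarith)
    have hs2 : s ≤ 1 / (4 * κ) := min_le_right _ _
    have hs3 : s * (4 * κ) ≤ 1 := by rwa [le_div_iff₀ (by positivity)] at hs2
    have hs4 : s ≤ 1 / 4 := by nlinarith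
    refine ⟨0 - s • E3, ?_, (hε2 s hs0 hs1).1⟩
    constructor
    · simp; exact hs0
    · rw [zero_sub, norm_neg, norm_smul, ONE_E3_norm, Real.norm_eq_abs, abs_of_pos hs0]
      simp
      nlinarith
  intro y hy1 hy2
  rcases sep D.isOpen hconv.isPreconnected hdisj with h | h
  · exact h ⟨hy1, hy2⟩
  · obtain ⟨z, hz1, hz2⟩ := hmem
    exact absurd (subset_closure hz2) (h hz1)

theorem one {S : Surf} (D : Dom S) (hos : ∀ u : V2, ‖u‖ < 1 → (S.X u) 2 < 0) {e : V3}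
    (he : ‖e‖ = 1) (he2 : e 2 = 0) : SS D e 0 := by
  obtain ⟨κ₁, hκ₁⟩ := one_kappa D hos
  obtain ⟨κ₂, hκ₂⟩ := one_ball D hos
  set κ := max (max κ₁ κ₂) 1 with hκ
  have h1 := hκ₁ κ ((le_max_left _ _).trans (le_max_left _ _))
  have h2 := hκ₂ κ ((le_max_right _ _).trans (le_max_left _ _))
  have h3 : 1 ≤ κ := le_max_right _ _
  have hsig : ∀ y ∈ S.Sig, y 2 ≤ 0 := by
    rintro y ⟨u, hu, rfl⟩
    rcases hu.lt_or_eq with h | h
    · exact (hos u h).le
    · exact (S.bd1 h).1.le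
  set nf : ℝ → V3 := fun s => Real.cos (Real.pi / 2 * (1 - s)) • e +
    Real.sin (Real.pi / 2 * (1 - s)) • E3 with hnf
  set tf : ℝ → ℝ := fun s => κ * Real.sin (Real.pi / 2 * (1 - s)) with htf
  have hnfc : Continuous nf := by rw [hnf]; fun_prop
  have htfc : Continuous tf := by rw [htf]; fun_prop
  have hnf2 : ∀ s, (nf s) 2 = Real.sin (Real.pi / 2 * (1 - s)) := by
    intro s; simp [hnf, he2]
  have heE : ⟪e, E3⟫ = 0 := by rw [real_inner_comm, ONE_E3_inner, he2]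
  have hnorm : ∀ s, ‖nf s‖ = 1 := by
    intro s
    have h4 : ‖nf s‖ ^ 2 = 1 := by
      simp only [hnf]
      rw [norm_add_sq_real, inner_smul_left, inner_smul_right, heE, norm_smul, norm_smul, he,
        ONE_E3_norm]
      simp
    nlinarith [norm_nonneg (nf s)]
  have hsin : ∀ s : ℝ, 0 ≤ s → s < 1 → 0 < Real.sin (Real.pi / 2 * (1 - s)) := by
    intro s hs0 hs1
    have hpi := Real.pi_pos
    apply Real.sin_pos_of_pos_of_lt_pi
    · have : 0 < 1 - s := by linarith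
      positivity
    · nlinarith
  have hcos : ∀ s : ℝ, 0 ≤ s → s < 1 → 0 ≤ Real.cos (Real.pi / 2 * (1 - s)) := by
    intro s hs0 hs1
    have hpi := Real.pi_pos
    apply Real.cos_nonneg_of_mem_Icc
    constructor
    · nlinarith
    · nlinarith
  have hres := tilt D nf tf hnfc.continuousOn htfc.continuousOn (fun s _ => hnorm s)
    (by
      intro u hu hle
      exfalso
      have e1 : nf 0 = E3 := by simp [hnf]
      have e2 : tf 0 = κ := by simp [htf]
      rw [e1, e2, ONE_E3_inner] at hle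
      have := hsig _ (S.mem_Sig hu)
      linarith)
    (by
      intro s hs0 hs1 u hu hl
      have hp := S.bd1 hu
      set l := ⟪nf s, S.X u⟫ - tf s with hldef
      have hl0 : 0 < l := by rw [hldef]; linarith
      have hsn := hsin s hs0 hs1
      have e1 : (refl (nf s) (tf s) (S.X u)) 2 = -(2 * l * Real.sin (Real.pi / 2 * (1 - s))) := by
        unfold refl
        rw [← hldef]
        simp only [PiLp.sub_apply, PiLp.smul_apply, smul_eq_mul, hnf2, hp.1]
        ring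
      have hX : ‖S.X u‖ ^ 2 = 1 := by rw [nsq, hp.1]; linarith [hp.2]
      have e2 : ‖refl (nf s) (tf s) (S.X u)‖ ^ 2 = 1 - 4 * l * tf s := by
        unfold refl
        rw [← hldef, norm_sub_sq_real, inner_smul_right, norm_smul, hnorm, hX, real_inner_comm]
        have : ⟪nf s, S.X u⟫ = l + tf s := by rw [hldef]; ring
        rw [this]
        rw [mul_one, Real.norm_eq_abs, sq_abs]
        ring
      apply h2
      · rw [e1]
        have : 0 < 2 * l * Real.sin (Real.pi / 2 * (1 - s)) := by positivity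
        linarith
      · rw [e1, e2]
        apply le_of_eq
        simp only [htf]
        ring)
    (by
      intro s hs0 hs1 d hd hl hmem
      have hsn := hsin s hs0 hs1
      have h4 := hsig _ hmem
      have e1 : (refl (nf s) (tf s) d) 2 =
          -(2 * (⟪nf s, d⟫ - tf s) * Real.sin (Real.pi / 2 * (1 - s))) := by
        unfold refl
        simp only [PiLp.sub_apply, PiLp.smul_apply, smul_eq_mul, hnf2, hd.1]
        ring
      rw [e1] at h4
      have : 0 < (tf s - ⟪nf s, d⟫) * Real.sin (Real.pi / 2 * (1 - s)) :=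
        mul_pos (by linarith) hsn
      nlinarith)
    (by
      intro s hs0 hs1 u₀ hu₀ hl
      have hsn := hsin s hs0 hs1
      refine hinge_strict D hnfc.continuousOn htfc.continuousOn hs0 hs1 hu₀ hl
        (by rw [hnf2]; exact hsn) ?_
      rw [S.N_decomp hu₀, inner_add_right, inner_smul_right, inner_smul_right, hl,
        real_inner_comm, ONE_E3_inner, hnf2]
      have h4 := h1 u₀ hu₀
      have e3 : S.Nr u₀ * tf s + S.N u₀ 2 * Real.sin (Real.pi / 2 * (1 - s)) =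
          (S.N u₀ 2 + κ * S.Nr u₀) * Real.sin (Real.pi / 2 * (1 - s)) := by
        simp only [htf]; ring
      rw [e3]
      exact mul_neg_of_neg_of_pos h4 hsn)
    (by
      intro s hs0 hs1
      have hsn := hsin s hs0 hs1
      have hcs := hcos s hs0 hs1
      have he' : e 0 ^ 2 + e 1 ^ 2 = 1 := by
        have := nsq e
        rw [he, he2] at this
        linarith
      obtain ⟨u, hu, hXu⟩ := (S.bd (-e)).2 ⟨by simp [he2], by simp; exact he'⟩
      refine ⟨u, hu, ?_⟩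
      rw [hXu, inner_neg_right]
      simp only [hnf, htf]
      rw [inner_add_left, inner_smul_left, inner_smul_left, ONE_E3_inner, he2,
        real_inner_self_eq_norm_sq, he]
      simp
      have : 0 < κ * Real.sin (Real.pi / 2 * (1 - s)) := by positivity
      linarith)
    1 ⟨zero_le_one, le_rfl⟩
  have e1 : nf 1 = e := by simp [hnf]
  have e2 : tf 1 = 0 := by simp [htf]
  rw [e1, e2] at hres
  exact hres

end Pool.Agent.H99.SC
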