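import Pool.Agent.H99.SC.RYN
import Pool.Agent.H99.SC.MKP
import Pool.Agent.H99.SC.ONE

/-!
# DM1: the domain of a surface below the plane, star centre not below the plane

`q 2 ≥ 0`, all interior points have `(X u) 2 < 0`; `InC S q` if `q 2 ≠ 0`, `q` in the open disc if `q 2 = 0`.
`W = {y : y 2 < 0 ∧ ∃ ‖u‖ < 1, ∃ τ > 1, q + τ (y - q) = X u}`: open (`hit_open`), bounded
(`y = q + (1/τ)(X u - q)`).
closedness tool: `y_k ∈ W`, `y_k → y ≠ q`: `ray_lim`: `X u = q + T (y - q)` with `‖u‖ ≤ 1`, `T ≥ 1`, and `y 2 ≤ 0`.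
`frontier W ⊆ S.Sig ∪ Disc`: `y ∈ closure W`, `y ∉ W`.  If `y = q`: `q 2 ≥ 0 ≥ y 2`, so `q 2 = 0` and `q ∈ Disc`.  Else
`X u = q + T (y - q)`, `T ≥ 1`.  `‖u‖ = 1`: `0 = q 2 + T (y 2 - q 2)`, `y 2 = q 2 (1 - 1/T) ≥ 0` so `y 2 = 0` and
`T = 1` (`y = X u ∈ S.Sig`) or `q 2 = 0`: `y = (1-1/T) q + (1/T) X u ∈ Disc` (convexity).  `‖u‖ < 1`: if `y 2 < 0` then
`T > 1` would give `y ∈ W`; so `T = 1`, `y = X u`.  If `y 2 = 0`: `q 2 = 0` is impossible (`(X u) 2 < 0`), and for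
`q 2 > 0` `InC` at `u`: the ray from `q` through `X u` meets the plane only in a point of the open disc: `y ∈ Disc`.
`mkp`: `disj`: `(X u) 2 < 0`.  `hW`: `q + s (X u - q)`, `s → 1-`.  `hE`: `y = q + s (X u - q)`, `s > 1` is not in the closure: else
`X u' = q + T (y - q) = q + T s (X u - q)` with `T ≥ 1`, and `star_unique`: `T s = 1`.
`hD`: `d + s E3 ∉ closure W` (`y 2 ≤ 0` on the closure).  `d - s E3 ∈ W` for small `s`: otherwise `s_k → 0+` with
`d - s_k E3 ∉ W`; `ryn`: `q + τ_k (d - s_k E3 - q) = X u_k`, `‖u_k‖ < 1`, so `τ_k ≤ 1`; `ray_lim` (if `d ≠ q`):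
`X u = q + T (d - q)`, `T ≤ 1`, `‖u‖ ≤ 1`; third coordinate `q 2 (1 - T) ≥ 0 ≥ (X u) 2`, so both are 0, `‖u‖ = 1` (`hos`), and `T = 1`
or `q 2 = 0`: `X u = (1-T) q + T d` is in the open disc (convexity): contradiction with `bd1`.  (`d = q`, so `q 2 = 0`:
`X u_k = q - τ_k s_k E3 → q` as `τ_k ≤ 1`, but `q ∉ S.Sig`, closed.)
`hlow`: any interior point.  `nE`: `one_nE`.
-/

set_option autoImplicit false

open scoped RealInnerProductSpace Topology
open Metric Filter Set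

noncomputable section

namespace Pool.Agent.H99.SC

/-- the domain -/
def DM1_W (S : Surf) (q : V3) : Set V3 :=
  {y | y 2 < 0 ∧ ∃ u : V2, ‖u‖ < 1 ∧ ∃ τ : ℝ, 1 < τ ∧ q + τ • (y - q) = S.X u}

theorem DM1_conv {a0 a1 b0 b1 t : ℝ} (h0 : 0 ≤ t) (h1 : t ≤ 1) :
    (a0 + t * (b0 - a0)) ^ 2 + (a1 + t * (b1 - a1)) ^ 2 ≤
      (1 - t) * (a0 ^ 2 + a1 ^ 2) + t * (b0 ^ 2 + b1 ^ 2) := by
  have h : (1 - t) * (a0 ^ 2 + a1 ^ 2) + t * (b0 ^ 2 + b1 ^ 2) -
      ((a0 + t * (b0 - a0)) ^ 2 + (a1 + t * (b1 - a1)) ^ 2) =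
      t * (1 - t) * ((a0 - b0) ^ 2 + (a1 - b1) ^ 2) := by ring
  have h2 : 0 ≤ t * (1 - t) * ((a0 - b0) ^ 2 + (a1 - b1) ^ 2) := by
    have : 0 ≤ 1 - t := by linarith
    positivity
  linarith

theorem DM1_coord (q y : V3) (τ : ℝ) (i : Fin 3) : (q + τ • (y - q)) i = q i + τ * (y i - q i) := by
  simp

theorem DM1_open {S : Surf} {q : V3} (hq : StarAt S q) : IsOpen (DM1_W S q) := by
  have h1 : IsOpen {y : V3 | y 2 < 0} := by
    apply isOpen_lt _ continuous_const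
    fun_prop
  exact h1.inter (hit_open hq).1

theorem DM1_bdd (S : Surf) (q : V3) : Bornology.IsBounded (DM1_W S q) := by
  obtain ⟨R, hR⟩ := (Metric.isBounded_iff_subset_closedBall q).1 S.isCompact_Sig.isBounded
  refine (Metric.isBounded_iff_subset_closedBall q).2 ⟨R, ?_⟩
  rintro y ⟨-, u, hu, τ, hτ, h⟩
  have h1 := hR (S.mem_Sig hu.le)
  rw [← h, mem_closedBall, dist_eq_norm, add_sub_cancel_left, norm_smul, Real.norm_eq_abs,
    abs_of_pos (by linarith)] at h1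
  rw [mem_closedBall, dist_eq_norm]
  have h2 : 0 ≤ ‖y - q‖ := norm_nonneg _
  nlinarith

theorem DM1_cl {S : Surf} {q : V3} (hqS : q ∉ S.Sig) {y : V3} (hy : y ∈ closure (DM1_W S q)) :
    y 2 ≤ 0 ∧ (y = q ∨ ∃ u : V2, ‖u‖ ≤ 1 ∧ ∃ T : ℝ, 1 ≤ T ∧ q + T • (y - q) = S.X u) := by
  rw [mem_closure_iff_seq_limit] at hy
  obtain ⟨Y, hY, hlim⟩ := hy
  constructor
  · have hc : Continuous (fun y : V3 => y 2) := by fun_prop
    have h1 : Tendsto (fun k => (Y k) 2) atTop (𝓝 (y 2)) := (hc.tendsto y).comp hlim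
    exact le_of_tendsto' h1 (fun k => (hY k).1.le)
  · by_cases hyq : y = q
    · exact Or.inl hyq
    · right
      have hY' := fun k => (hY k).2
      choose uk huk τk hτk hk using hY'
      obtain ⟨φ, u, τ, hφ, hu, hτ, _, hτlim, heq⟩ := ray_lim hqS hlim hyq
        (fun k => (huk k).le) (fun k => by linarith [hτk k]) hk
      exact ⟨u, hu, τ, ge_of_tendsto' hτlim (fun k => (hτk _).le), heq⟩

theorem DM1_fr {S : Surf} {q : V3} (hq : StarAt S q) (hos : ∀ u : V2, ‖u‖ < 1 → (S.X u) 2 < 0)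
    (hq2 : 0 ≤ q 2) (hI : q 2 ≠ 0 → InC S q) (hq0 : q 2 = 0 → q 0 ^ 2 + q 1 ^ 2 < 1) :
    frontier (DM1_W S q) ⊆ S.Sig ∪ Disc := by
  intro y hy
  rw [(DM1_open hq).frontier_eq] at hy
  obtain ⟨hycl, hyW⟩ := hy
  obtain ⟨hy2, hyq | ⟨u, hu, T, hT, hX⟩⟩ := DM1_cl (star_not_mem hq) hycl
  · right
    rw [hyq] at hy2 ⊢
    have h0 : q 2 = 0 := le_antisymm hy2 hq2
    exact ⟨h0, (hq0 h0).le⟩
  · have hT0 : 0 < T := by linarith
    have hc : ∀ i, q i + T * (y i - q i) = (S.X u) i := fun i => by rw [← hX, DM1_coord]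
    rcases hu.lt_or_eq with hu1 | hu1
    · -- interior point
      have hneg := hos u hu1
      rcases hy2.lt_or_eq with hy2 | hy2
      · left
        rcases hT.lt_or_eq with hT1 | hT1
        · exact absurd ⟨hy2, u, hu1, T, hT1, hX⟩ hyW
        · rw [← hT1, one_smul, add_sub_cancel] at hX
          exact ⟨u, hu, hX.symm⟩
      · right
        have h2 := hc 2
        rw [hy2] at h2
        have hq2' : q 2 ≠ 0 := by
          intro h0
          rw [h0] at h2
          linarith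
        obtain ⟨τ, hτ, h3, h4⟩ := hI hq2' u hu1
        have h5 : τ * T = 1 := by
          rw [DM1_coord, ← h2] at h3
          have h6 : q 2 * (1 - τ * T) = 0 := by linarith
          rcases mul_eq_zero.1 h6 with h | h
          · exact absurd h hq2'
          · linarith
        have h6 : q + τ • (S.X u - q) = y := by
          rw [← hX, add_sub_cancel_left, smul_smul, h5, one_smul, add_sub_cancel]
        rw [h6] at h4
        exact ⟨hy2, h4.le⟩
    · obtain ⟨h2, h3⟩ := S.bd1 hu1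
      have h4 := hc 2
      rw [h2] at h4
      have h5 : T * y 2 = (T - 1) * q 2 := by linarith
      have h6 : 0 ≤ (T - 1) * q 2 := mul_nonneg (by linarith) hq2
      have h7 : 0 ≤ y 2 := by
        by_contra hcon
        push Not at hcon
        have := mul_neg_of_pos_of_neg hT0 hcon
        linarith
      have h8 : y 2 = 0 := le_antisymm hy2 h7
      rw [h8, mul_zero] at h5
      rcases mul_eq_zero.1 h5.symm with h | h
      · left
        have hT1 : T = 1 := by linarith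
        rw [hT1, one_smul, add_sub_cancel] at hX
        exact ⟨u, hu, hX.symm⟩
      · right
        refine ⟨h8, ?_⟩
        have hy' : ∀ i, y i = q i + T⁻¹ * ((S.X u) i - q i) := by
          intro i
          rw [← hc i]
          field_simp
          ring
        rw [hy' 0, hy' 1]
        refine (DM1_conv (by positivity) (inv_le_one_of_one_le₀ hT)).trans ?_
        rw [h3]
        have h9 := hq0 h
        have h10 : 0 ≤ 1 - T⁻¹ := by
          have := inv_le_one_of_one_le₀ hT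
          linarith
        nlinarith

theorem DM1_hW {S : Surf} {q : V3} (hos : ∀ u : V2, ‖u‖ < 1 → (S.X u) 2 < 0) {u : V2}
    (hu : ‖u‖ < 1) : S.X u ∈ closure (DM1_W S q) := by
  have hc : Continuous (fun s : ℝ => q + s • (S.X u - q)) := by fun_prop
  have h1 : Tendsto (fun s : ℝ => q + s • (S.X u - q)) (𝓝[<] 1) (𝓝 (S.X u)) := by
    have := (hc.tendsto 1).mono_left (nhdsWithin_le_nhds (s := Iio (1 : ℝ)))
    simpa using this
  refine mem_closure_of_tendsto h1 ?_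
  have hc2 : Continuous (fun s : ℝ => (q + s • (S.X u - q)) 2) := by
    have h : Continuous (fun y : V3 => y 2) := by fun_prop
    exact h.comp hc
  have h2 : ∀ᶠ s : ℝ in 𝓝 1, (q + s • (S.X u - q)) 2 < 0 := by
    apply (hc2.tendsto 1).eventually_lt_const
    simpa using hos u hu
  have h3 : ∀ᶠ s : ℝ in 𝓝 1, 0 < s := lt_mem_nhds one_pos
  filter_upwards [nhdsWithin_le_nhds h2, nhdsWithin_le_nhds h3, self_mem_nhdsWithin] with s hs1 hs2 hs3
  have hs3' : s < 1 := hs3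
  refine ⟨hs1, u, hu, s⁻¹, (one_lt_inv₀ hs2).2 hs3', ?_⟩
  rw [add_sub_cancel_left, smul_smul, inv_mul_cancel₀ hs2.ne', one_smul, add_sub_cancel]

theorem DM1_hE {S : Surf} {q : V3} (hq : StarAt S q) {u : V2} (hu : ‖u‖ < 1) :
    S.X u ∈ closure ((closure (DM1_W S q))ᶜ) := by
  have hqS := star_not_mem hq
  have hc : Continuous (fun s : ℝ => q + s • (S.X u - q)) := by fun_prop
  have h1 : Tendsto (fun s : ℝ => q + s • (S.X u - q)) (𝓝[>] 1) (𝓝 (S.X u)) := by
    have := (hc.tendsto 1).mono_left (nhdsWithin_le_nhds (s := Ioi (1 : ℝ)))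
    simpa using this
  refine mem_closure_of_tendsto h1 ?_
  filter_upwards [self_mem_nhdsWithin] with s hs
  have hs' : (1 : ℝ) < s := hs
  intro hcl
  obtain ⟨-, h2 | ⟨u', hu', T, hT, hX⟩⟩ := DM1_cl hqS hcl
  · rw [add_eq_left, smul_eq_zero] at h2
    rcases h2 with h2 | h2
    · linarith
    · exact hqS (by rw [← sub_eq_zero.1 h2]; exact S.mem_Sig hu.le)
  · rw [add_sub_cancel_left, smul_smul] at hX
    have h3 := star_unique hq hu' hu.le (w := S.X u - q) (τ := T * s) (σ := 1)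
      (by nlinarith) one_pos hX (by rw [one_smul, add_sub_cancel])
    have h4 := h3.1
    nlinarith

theorem DM1_hD {S : Surf} {q : V3} (hq : StarAt S q) (hos : ∀ u : V2, ‖u‖ < 1 → (S.X u) 2 < 0)
    (hq2 : 0 ≤ q 2) (hI : q 2 ≠ 0 → InC S q) (hq0 : q 2 = 0 → q 0 ^ 2 + q 1 ^ 2 < 1)
    {d : V3} (h2 : d 2 = 0) (h1 : d 0 ^ 2 + d 1 ^ 2 < 1) :
    ∃ ε : ℝ, 0 < ε ∧ ∀ s : ℝ, 0 < s → s < ε → d - s • E3 ∈ DM1_W S q := by
  have hqS := star_not_mem hq
  obtain ⟨ε, hε, hr⟩ := ryn hq hI (fun _ => hos) h2 h1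
  by_contra hcon
  push Not at hcon
  have hseq : ∀ k : ℕ, ∃ s : ℝ, 0 < s ∧ s < 1 / ((k : ℝ) + 1) ∧ ∃ u : V2, ‖u‖ < 1 ∧ ∃ τ : ℝ,
      0 < τ ∧ τ ≤ 1 ∧ q + τ • (d - s • E3 - q) = S.X u := by
    intro k
    have hk : (0 : ℝ) < 1 / ((k : ℝ) + 1) := by positivity
    obtain ⟨s, hs0, hs1, hs2⟩ := hcon (min ε (1 / ((k : ℝ) + 1))) (lt_min hε hk)
    obtain ⟨u, hu, τ, hτ, hX⟩ := hr s hs0 (hs1.trans_le (min_le_left _ _))
    refine ⟨s, hs0, hs1.trans_le (min_le_right _ _), u, hu, τ, hτ, ?_, hX⟩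
    by_contra hτ1
    push Not at hτ1
    refine hs2 ⟨?_, u, hu, τ, hτ1, hX⟩
    simp [h2, hs0]
  choose s hs0 hs1 u hu τ hτ0 hτ1 hX using hseq
  have hs : Tendsto s atTop (𝓝 0) := by
    refine squeeze_zero (fun k => (hs0 k).le) (fun k => (hs1 k).le) ?_
    exact tendsto_one_div_add_atTop_nhds_zero_nat
  have hY : Tendsto (fun k => d - s k • E3) atTop (𝓝 d) := by
    have := tendsto_const_nhds (x := d) |>.sub (hs.smul_const E3)
    simpa using this
  by_cases hdq : d = q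
  · -- the points of the surface tend to `q`
    have h3 : Tendsto (fun k => S.X (u k)) atTop (𝓝 q) := by
      have h4 : Tendsto (fun k => τ k * s k) atTop (𝓝 0) := by
        refine squeeze_zero (fun k => mul_nonneg (hτ0 k).le (hs0 k).le) (fun k => ?_) hs
        exact mul_le_of_le_one_left (hs0 k).le (hτ1 k)
      have h5 : Tendsto (fun k => q - (τ k * s k) • E3) atTop (𝓝 q) := by
        have := tendsto_const_nhds (x := q) |>.sub (h4.smul_const E3)
        simpa using this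
      refine h5.congr (fun k => ?_)
      rw [← hX k, hdq]
      have : q - s k • E3 - q = -(s k • E3) := by abel
      rw [this, smul_neg, smul_smul, sub_eq_add_neg]
    exact hqS (S.isCompact_Sig.isClosed.mem_of_tendsto h3
      (Eventually.of_forall fun k => S.mem_Sig (hu k).le))
  · obtain ⟨φ, v, t, hφ, hv, ht, _, htlim, heq⟩ := ray_lim hqS hY hdq
      (fun k => (hu k).le) (fun k => (hτ0 k).le) hX
    have ht1 : t ≤ 1 := le_of_tendsto' htlim (fun k => hτ1 _)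
    have hc : ∀ i, q i + t * (d i - q i) = (S.X v) i := fun i => by rw [← heq, DM1_coord]
    have h3 := hc 2
    rw [h2] at h3
    have h4 : 0 ≤ q 2 * (1 - t) := mul_nonneg hq2 (by linarith)
    have hv1 : ‖v‖ = 1 := by
      rcases hv.lt_or_eq with h | h
      · have := hos v h
        linarith
      · exact h
    obtain ⟨h5, h6⟩ := S.bd1 hv1
    rw [h5] at h3
    have h7 : q 2 * (1 - t) = 0 := by linarith
    rcases mul_eq_zero.1 h7 with h8 | h8
    · have h9 := DM1_conv (a0 := q 0) (a1 := q 1) (b0 := d 0) (b1 := d 1) ht.le ht1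
      rw [hc 0, hc 1, h6] at h9
      have h10 := hq0 h8
      have h11 : 0 ≤ 1 - t := by linarith
      nlinarith
    · have ht' : t = 1 := by linarith
      rw [ht', one_smul, add_sub_cancel] at heq
      rw [← heq] at h6
      linarith

theorem dm1 {S : Surf} {q : V3} (hq : StarAt S q) (hos : ∀ u : V2, ‖u‖ < 1 → (S.X u) 2 < 0)
    (hq2 : 0 ≤ q 2) (hI : q 2 ≠ 0 → InC S q) (hq0 : q 2 = 0 → q 0 ^ 2 + q 1 ^ 2 < 1) :
    Nonempty (Dom S) := by
  have hqS := star_not_mem hq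
  obtain ⟨D, -⟩ := mkp S (DM1_open hq) (DM1_bdd S q) (DM1_fr hq hos hq2 hI hq0)
    (fun u hu h => by
      have := hos u hu
      rw [h.1] at this
      exact lt_irrefl _ this)
    (fun u hu => DM1_hW hos hu) (fun u hu => DM1_hE hq hu)
    (by
      intro d h2 h1
      obtain ⟨ε, hε, h⟩ := DM1_hD hq hos hq2 hI hq0 h2 h1
      refine ⟨ε, hε, fun s hs0 hs1 => ⟨h s hs0 hs1, fun hcl => ?_⟩⟩
      have := (DM1_cl hqS hcl).1
      simp [h2] at this
      linarith)
    ⟨0, by simp, hos 0 (by simp)⟩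
  exact ⟨{ toPreDom := D, nE := fun u hu => one_nE S hos hu }⟩

end Pool.Agent.H99.SC
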