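import Pool.Agent.H99.SC.RYN
import Pool.Agent.H99.SC.MKP
import Pool.Agent.H99.SC.ONE

/-!
# DM2: the domain of a surface below the plane, star centre below the surface

`q 2 < 0`, all interior points have `(X u) 2 < 0` and `InC S q` (so `q 2 < (X u) 2` for `‖u‖ ≤ 1`).
`W = {y : y 2 < 0 ∧ ∃ ‖u‖ < 1, ∃ τ ∈ (0,1), q + τ (y - q) = X u}`: open (`hit_open`).  Bounded: `y = q + (1/τ)(X u - q)`,
`y 2 < 0` gives `(1/τ)((X u) 2 - q 2) < - q 2`, and `(X u) 2 - q 2 ≥ m > 0` by compactness.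
closedness tool: `y_k ∈ W`, `y_k → y`: `|y_k - q| ≥ |X u_k - q| ≥ dist(q, S.Sig) > 0`, so `y ≠ q`; `ray_lim`:
`X u = q + T (y - q)` with `‖u‖ ≤ 1`, `0 < T ≤ 1`, and `y 2 ≤ 0`.
`frontier W ⊆ S.Sig ∪ Disc`: `y ∈ closure W`, `y ∉ W`.  `‖u‖ = 1`: `0 = q 2 + T (y 2 - q 2)`,
`y 2 = q 2 (1 - 1/T) ≥ 0` so `y 2 = 0`, `T = 1`, `y = X u`.  `‖u‖ < 1`: if `y 2 < 0`: `T < 1` would give `y ∈ W`; so
`T = 1`, `y = X u`.  If `y 2 = 0`: `InC` at `u`: the ray from `q` through `X u` meets the plane only in a point of the open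
disc: `y ∈ Disc`.
`mkp`: `disj`: `(X u) 2 < 0`.  `hW`: `q + s (X u - q)`, `s → 1+`.  `hE`: `y = q + s (X u - q)`, `0 < s < 1`, is not in the closure: else
`X u' = q + T s (X u - q)` with `T ≤ 1`, and `star_unique`: `T s = 1`.
`hD`: `d + s E3 ∉ closure W` (`y 2 ≤ 0` on the closure).  `d - s E3 ∈ W` for small `s`: otherwise `s_k → 0+` with
`d - s_k E3 ∉ W`; `ryn`: `q + τ_k (d - s_k E3 - q) = X u_k`, `‖u_k‖ < 1`, so `τ_k ≥ 1`; `ray_lim` (`d ≠ q`):
`X u = q + T (d - q)`, `T ≥ 1`; third coordinate `q 2 (1 - T) ≥ 0 ≥ (X u) 2`, so `T = 1`, `X u = d` is in the open disc with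
`(X u) 2 = 0`: `‖u‖ = 1` (`hos`), `bd1`: contradiction.
`hlow`: any interior point.  `nE`: `one_nE`.
-/

set_option autoImplicit false

open scoped RealInnerProductSpace Topology
open Metric Filter Set

noncomputable section

namespace Pool.Agent.H99.SC

/-- the domain -/
private def DM2_W (S : Surf) (q : V3) : Set V3 :=
  {y | y 2 < 0 ∧ ∃ u : V2, ‖u‖ < 1 ∧ ∃ τ : ℝ, 0 < τ ∧ τ < 1 ∧ q + τ • (y - q) = S.X u}

private theorem DM2_c2 : Continuous (fun y : V3 => y 2) := by fun_prop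

private theorem DM2_open {S : Surf} {q : V3} (hq : StarAt S q) : IsOpen (DM2_W S q) := by
  have h1 : DM2_W S q = {y : V3 | y 2 < 0} ∩
      {y : V3 | ∃ u : V2, ‖u‖ < 1 ∧ ∃ τ : ℝ, 0 < τ ∧ τ < 1 ∧ q + τ • (y - q) = S.X u} := rfl
  rw [h1]
  exact (isOpen_lt DM2_c2 continuous_const).inter (hit_open hq).2

private theorem DM2_le {S : Surf} (hos : ∀ u : V2, ‖u‖ < 1 → (S.X u) 2 < 0) {u : V2}
    (hu : ‖u‖ ≤ 1) : (S.X u) 2 ≤ 0 := by
  rcases hu.lt_or_eq with h | h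
  · exact (hos u h).le
  · exact (S.bd1 h).1.le

private theorem DM2_gt {S : Surf} {q : V3} (hq2 : q 2 < 0) (hI : InC S q) {u : V2}
    (hu : ‖u‖ ≤ 1) : q 2 < (S.X u) 2 := by
  rcases hu.lt_or_eq with h | h
  · obtain ⟨τ, hτ, h1, -⟩ := hI u h
    simp only [PiLp.add_apply, PiLp.smul_apply, PiLp.sub_apply, smul_eq_mul] at h1
    by_contra hcon
    push Not at hcon
    nlinarith
  · rw [(S.bd1 h).1]; exact hq2

private theorem DM2_bdd {S : Surf} {q : V3} (hq2 : q 2 < 0) (hI : InC S q) :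
    Bornology.IsBounded (DM2_W S q) := by
  have hXc : Continuous S.X := S.smooth.continuous
  obtain ⟨u₁, hu₁, hmin⟩ := (isCompact_closedBall (0 : V2) 1).exists_isMinOn
    ⟨0, by simp⟩ ((DM2_c2.comp hXc).continuousOn)
  obtain ⟨u₂, hu₂, hmax⟩ := (isCompact_closedBall (0 : V2) 1).exists_isMaxOn
    ⟨0, by simp⟩ ((hXc.sub (continuous_const (y := q))).norm.continuousOn)
  have h1 := DM2_gt hq2 hI (u := u₁) (by simpa using hu₁)
  set m := (S.X u₁) 2 - q 2 with hm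
  have hm0 : 0 < m := by rw [hm]; linarith
  rw [Metric.isBounded_iff_subset_closedBall q]
  refine ⟨(-(q 2) / m) * ‖S.X u₂ - q‖, ?_⟩
  rintro y ⟨hy2, u, hu, τ, hτ0, -, hy⟩
  have hu' : u ∈ closedBall (0 : V2) 1 := by simpa using hu.le
  have h2 : (S.X u₁) 2 ≤ (S.X u) 2 := hmin hu'
  have h3 : ‖S.X u - q‖ ≤ ‖S.X u₂ - q‖ := hmax hu'
  rw [mem_closedBall, dist_eq_norm]
  have h4 : S.X u - q = τ • (y - q) := by rw [← hy]; abel
  have h5 : ‖S.X u - q‖ = τ * ‖y - q‖ := by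
    rw [h4, norm_smul, Real.norm_eq_abs, abs_of_pos hτ0]
  have h6 : (S.X u) 2 = q 2 + τ * (y 2 - q 2) := by
    rw [← hy]
    simp only [PiLp.add_apply, PiLp.smul_apply, PiLp.sub_apply, smul_eq_mul]
  have h7 : m ≤ τ * -(q 2) := by
    rw [hm]; nlinarith
  have h8 : 0 ≤ ‖y - q‖ := norm_nonneg _
  rw [div_mul_eq_mul_div, le_div_iff₀ hm0]
  calc ‖y - q‖ * m ≤ ‖y - q‖ * (τ * -(q 2)) := mul_le_mul_of_nonneg_left h7 h8
    _ = -(q 2) * (τ * ‖y - q‖) := by ring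
    _ ≤ -(q 2) * ‖S.X u₂ - q‖ := by
      rw [← h5]
      exact mul_le_mul_of_nonneg_left h3 (by linarith)

private theorem DM2_cl {S : Surf} {q : V3} (hq : StarAt S q) {y : V3}
    (hy : y ∈ closure (DM2_W S q)) : y 2 ≤ 0 ∧ ∃ u : V2, ‖u‖ ≤ 1 ∧ ∃ T : ℝ, 0 < T ∧ T ≤ 1 ∧
      q + T • (y - q) = S.X u := by
  obtain ⟨Y, hY, hYy⟩ := mem_closure_iff_seq_limit.mp hy
  have hqS := star_not_mem hq
  refine ⟨le_of_tendsto ((DM2_c2.tendsto y).comp hYy)
    (Eventually.of_forall fun k => (hY k).1.le), ?_⟩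
  choose u hu τ hτ0 hτ1 hX using fun k => (hY k).2
  obtain ⟨δ, hδ0, hδ⟩ : ∃ δ : ℝ, 0 < δ ∧ ball q δ ⊆ (S.Sig)ᶜ :=
    Metric.mem_nhds_iff.mp (S.isCompact_Sig.isClosed.isOpen_compl.mem_nhds hqS)
  have h1 : ∀ k, δ ≤ ‖Y k - q‖ := by
    intro k
    have h2 : S.X (u k) - q = τ k • (Y k - q) := by rw [← hX k]; abel
    have h3 : ‖S.X (u k) - q‖ = τ k * ‖Y k - q‖ := by
      rw [h2, norm_smul, Real.norm_eq_abs, abs_of_pos (hτ0 k)]
    have h4 : δ ≤ ‖S.X (u k) - q‖ := by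
      by_contra hcon
      push Not at hcon
      exact hδ (by rw [mem_ball, dist_eq_norm]; exact hcon) (S.mem_Sig (hu k).le)
    have h5 := hτ1 k
    have h6 := norm_nonneg (Y k - q)
    nlinarith
  have h2 : δ ≤ ‖y - q‖ :=
    ge_of_tendsto ((hYy.sub_const q).norm) (Eventually.of_forall h1)
  have hyq : y ≠ q := by
    rintro rfl
    simp at h2
    linarith
  obtain ⟨φ, v, T, -, hv, hT, -, hTl, h3⟩ := ray_lim hqS hYy hyq (fun k => (hu k).le)
    (fun k => (hτ0 k).le) hX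
  exact ⟨v, hv, T, hT, le_of_tendsto hTl (Eventually.of_forall fun k => (hτ1 (φ k)).le), h3⟩

private theorem DM2_fr {S : Surf} {q : V3} (hq : StarAt S q)
    (hq2 : q 2 < 0) (hI : InC S q) : frontier (DM2_W S q) ⊆ S.Sig ∪ Disc := by
  intro y hy
  rw [frontier, (DM2_open hq).interior_eq] at hy
  obtain ⟨hyc, hyW⟩ := hy
  obtain ⟨hy2, u, hu, T, hT0, hT1, hX⟩ := DM2_cl hq hyc
  have h1 : (S.X u) 2 = q 2 + T * (y 2 - q 2) := by
    rw [← hX]
    simp only [PiLp.add_apply, PiLp.smul_apply, PiLp.sub_apply, smul_eq_mul]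
  have hone : T = 1 → y ∈ S.Sig := by
    intro h
    rw [h, one_smul, add_sub_cancel] at hX
    rw [hX]
    exact S.mem_Sig hu
  rcases hu.lt_or_eq with hu1 | hu1
  · rcases hT1.lt_or_eq with hT2 | hT2
    · have hy20 : y 2 = 0 := by
        by_contra hne
        exact hyW ⟨lt_of_le_of_ne hy2 hne, u, hu1, T, hT0, hT2, hX⟩
      right
      obtain ⟨τ, hτ, h2, h3⟩ := hI u hu1
      have h4 : q + τ • (S.X u - q) = q + (τ * T) • (y - q) := by
        rw [← hX, add_sub_cancel_left, smul_smul]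
      rw [h4] at h2 h3
      have h5 : τ * T = 1 := by
        simp only [PiLp.add_apply, PiLp.smul_apply, PiLp.sub_apply, smul_eq_mul, hy20] at h2
        have h6 : (-(q 2)) * (τ * T - 1) = 0 := by linarith
        rcases mul_eq_zero.mp h6 with h7 | h7
        · linarith
        · linarith
      rw [h5, one_smul, add_sub_cancel] at h3
      exact ⟨hy20, h3.le⟩
    · left
      exact hone hT2
  · left
    apply hone
    have h2 := (S.bd1 hu1).1
    rw [h2] at h1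
    have h3 : T * (y 2 - q 2) = -(q 2) := by linarith
    have h4 : 0 < y 2 - q 2 := by
      by_contra hcon
      push Not at hcon
      nlinarith
    have h5 : y 2 = 0 := by nlinarith
    rw [h5] at h3
    have h6 : (-(q 2)) * (T - 1) = 0 := by linarith
    rcases mul_eq_zero.mp h6 with h7 | h7
    · linarith
    · linarith

private theorem DM2_hW {S : Surf} {q : V3} (hos : ∀ u : V2, ‖u‖ < 1 → (S.X u) 2 < 0)
    {u : V2} (hu : ‖u‖ < 1) : S.X u ∈ closure (DM2_W S q) := by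
  have hc : Continuous (fun s : ℝ => q + s • (S.X u - q)) := by fun_prop
  have h0 : q + (1 : ℝ) • (S.X u - q) = S.X u := by rw [one_smul]; abel
  have ht : Tendsto (fun s : ℝ => q + s • (S.X u - q)) (𝓝[>] 1) (𝓝 (S.X u)) := by
    have := (hc.tendsto 1).mono_left (nhdsWithin_le_nhds (s := Ioi (1 : ℝ)))
    rwa [h0] at this
  apply mem_closure_of_tendsto ht
  have h1 : ∀ᶠ s : ℝ in 𝓝[>] 1, (q + s • (S.X u - q)) 2 < 0 :=
    ((DM2_c2.tendsto _).comp ht).eventually (gt_mem_nhds (hos u hu))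
  filter_upwards [h1, self_mem_nhdsWithin] with s hs1 hs2
  have hs3 : (1 : ℝ) < s := hs2
  refine ⟨hs1, u, hu, s⁻¹, by positivity, inv_lt_one_of_one_lt₀ hs3, ?_⟩
  rw [add_sub_cancel_left, smul_smul, inv_mul_cancel₀ (by positivity), one_smul]
  abel

private theorem DM2_hE {S : Surf} {q : V3} (hq : StarAt S q)
    {u : V2} (hu : ‖u‖ < 1) : S.X u ∈ closure ((closure (DM2_W S q))ᶜ) := by
  have hc : Continuous (fun s : ℝ => q + s • (S.X u - q)) := by fun_prop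
  have h0 : q + (1 : ℝ) • (S.X u - q) = S.X u := by rw [one_smul]; abel
  have ht : Tendsto (fun s : ℝ => q + s • (S.X u - q)) (𝓝[<] 1) (𝓝 (S.X u)) := by
    have := (hc.tendsto 1).mono_left (nhdsWithin_le_nhds (s := Iio (1 : ℝ)))
    rwa [h0] at this
  apply mem_closure_of_tendsto ht
  have h1 : ∀ᶠ s : ℝ in 𝓝[<] 1, 0 < s :=
    nhdsWithin_le_nhds (lt_mem_nhds (zero_lt_one))
  filter_upwards [h1, self_mem_nhdsWithin] with s hs1 hs2
  have hs3 : s < 1 := hs2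
  intro hmem
  obtain ⟨-, v, hv, T, hT0, hT1, hX⟩ := DM2_cl hq hmem
  rw [add_sub_cancel_left, smul_smul] at hX
  have h2 := (star_unique hq hv hu.le (w := S.X u - q) (mul_pos hT0 hs1) one_pos hX h0).1
  nlinarith

private theorem DM2_hD {S : Surf} {q : V3} (hq : StarAt S q)
    (hos : ∀ u : V2, ‖u‖ < 1 → (S.X u) 2 < 0) (hq2 : q 2 < 0) (hI : InC S q) {d : V3}
    (hd2 : d 2 = 0) (hd : d 0 ^ 2 + d 1 ^ 2 < 1) : ∃ ε : ℝ, 0 < ε ∧ ∀ s : ℝ, 0 < s → s < ε →
      d - s • E3 ∈ DM2_W S q ∧ d + s • E3 ∉ closure (DM2_W S q) := by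
  have hout : ∀ s : ℝ, 0 < s → d + s • E3 ∉ closure (DM2_W S q) := by
    intro s hs hmem
    have h1 := (DM2_cl hq hmem).1
    simp only [PiLp.add_apply, PiLp.smul_apply, smul_eq_mul, E3_2, hd2] at h1
    linarith
  by_contra hcon
  push Not at hcon
  obtain ⟨ε₀, hε₀, hry⟩ := ryn hq (fun _ => hI) (fun h => absurd h hq2.ne) hd2 hd
  have h1 : ∀ k : ℕ, ∃ s : ℝ, 0 < s ∧ s < min ε₀ (1 / ((k : ℝ) + 1)) ∧
      d - s • E3 ∉ DM2_W S q := by
    intro k
    obtain ⟨s, hs0, hs1, hs2⟩ := hcon (min ε₀ (1 / ((k : ℝ) + 1))) (by positivity)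
    refine ⟨s, hs0, hs1, fun hmem => ?_⟩
    exact hout s hs0 (hs2 hmem)
  choose s hs0 hs1 hs2 using h1
  have hs3 : ∀ k, s k < ε₀ := fun k => (hs1 k).trans_le (min_le_left _ _)
  have hs4 : Tendsto s atTop (𝓝 0) := by
    apply squeeze_zero (fun k => (hs0 k).le) (fun k => ((hs1 k).trans_le (min_le_right _ _)).le)
    exact tendsto_one_div_add_atTop_nhds_zero_nat
  choose u hu τ hτ0 hX using fun k => hry (s k) (hs0 k) (hs3 k)
  have hτ1 : ∀ k, 1 ≤ τ k := by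
    intro k
    by_contra hlt
    push Not at hlt
    apply hs2 k
    refine ⟨?_, u k, hu k, τ k, hτ0 k, hlt, hX k⟩
    simp only [PiLp.sub_apply, PiLp.smul_apply, smul_eq_mul, E3_2, hd2]
    linarith [hs0 k]
  have hYl : Tendsto (fun k => d - s k • E3) atTop (𝓝 d) := by
    have := (tendsto_const_nhds (x := d)).sub (hs4.smul_const E3)
    simpa using this
  have hdq : d ≠ q := by
    rintro rfl
    linarith
  obtain ⟨φ, v, T, -, hv, hT, -, hTl, h3⟩ := ray_lim (star_not_mem hq) hYl hdq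
    (fun k => (hu k).le) (fun k => (hτ0 k).le) hX
  have hT1 : 1 ≤ T := ge_of_tendsto hTl (Eventually.of_forall fun k => hτ1 (φ k))
  have h4 : (S.X v) 2 = q 2 + T * (d 2 - q 2) := by
    rw [← h3]
    simp only [PiLp.add_apply, PiLp.smul_apply, PiLp.sub_apply, smul_eq_mul]
  rw [hd2] at h4
  have h5 := DM2_le hos hv
  have h6 : T = 1 := by
    nlinarith
  rw [h6, one_smul, add_sub_cancel] at h3
  have h7 : ‖v‖ = 1 := by
    rcases hv.lt_or_eq with h | h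
    · have := hos v h
      rw [← h3, hd2] at this
      exact absurd this (lt_irrefl _)
    · exact h
  have h8 := (S.bd1 h7).2
  rw [← h3] at h8
  linarith

theorem dm2 {S : Surf} {q : V3} (hq : StarAt S q) (hos : ∀ u : V2, ‖u‖ < 1 → (S.X u) 2 < 0)
    (hq2 : q 2 < 0) (hI : InC S q) : Nonempty (Dom S) := by
  obtain ⟨D, -⟩ := mkp S (DM2_open hq) (DM2_bdd hq2 hI) (DM2_fr hq hq2 hI)
    (fun u hu h => absurd h.1 (hos u hu).ne) (fun u hu => DM2_hW hos hu)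
    (fun u hu => DM2_hE hq hu) (fun d hd2 hd => DM2_hD hq hos hq2 hI hd2 hd)
    ⟨0, by simp, hos 0 (by simp)⟩
  exact ⟨{ toPreDom := D, nE := fun u hu => one_nE S hos hu }⟩

end Pool.Agent.H99.SC
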