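import Pool.Agent.H99.SC.RAYS

/-!
# DMA: all rays outside the closed cone hit the surface (case O)

`q 2 < 0`, `h = - q 2`.  `K = {y : y ≠ q ∧ ∀ τ > 0, q + τ (y - q) ∉ Disc}`.  With `x = y - q` and
`w = (h x 0 + x 2 q 0, h x 1 + x 2 q 1)`: `q + τ x ∈ Disc` for some `τ > 0` iff `x 2 > 0` and `|w| ≤ x 2` (`τ = h/x 2`).
So `K = {y : x 2 < |w|}` (if `x 2 ≤ 0` and `x ≠ 0` then `x 2 < |w|`: clear for `x 2 < 0`; for `x 2 = 0`, `w = h x' ≠ 0`).
`cone_compl`: `K` is preconnected: with `v = (q 0/h, q 1/h, -1)`, moving along `y + t v`, `t ≥ 0`, keeps `w` fixed and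
decreases `x 2`, so stays in `K` and reaches `{x 2 < 0}`, which is convex and contained in `K`
(`isPreconnected_of_forall` with a base point in `{x 2 < 0}`: union of a segment and a half space).
`rayO`: `rays` for `K`: `hC`: circle points are in `Disc`; `hne`: `hO` for `u = 0` and `star_not_mem`.
-/

set_option autoImplicit false

open scoped RealInnerProductSpace Topology
open Metric Filter Set

noncomputable section

namespace Pool.Agent.H99.SC

/-- the complement of the closed cone in coordinates -/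
theorem DMA_char {q : V3} (hq2 : q 2 < 0) (y : V3) :
    (y ≠ q ∧ ∀ τ : ℝ, 0 < τ → q + τ • (y - q) ∉ Disc) ↔
      (y 2 - q 2 < 0 ∨ (y 2 - q 2) ^ 2 <
        (-q 2 * (y 0 - q 0) + (y 2 - q 2) * q 0) ^ 2 +
        (-q 2 * (y 1 - q 1) + (y 2 - q 2) * q 1) ^ 2) := by
  constructor
  · rintro ⟨hne, h⟩
    by_contra hcon
    push Not at hcon
    obtain ⟨h1, h2⟩ := hcon
    rcases h1.eq_or_lt with h3 | h3
    · rw [← h3] at h2
      have e0 : (-q 2 * (y 0 - q 0)) ^ 2 + (-q 2 * (y 1 - q 1)) ^ 2 ≤ 0 := by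
        simpa using h2
      have a0 : (-q 2 * (y 0 - q 0)) ^ 2 = 0 :=
        le_antisymm (by linarith [sq_nonneg (-q 2 * (y 1 - q 1))]) (sq_nonneg _)
      have a1 : (-q 2 * (y 1 - q 1)) ^ 2 = 0 :=
        le_antisymm (by linarith [sq_nonneg (-q 2 * (y 0 - q 0))]) (sq_nonneg _)
      have b0 : y 0 - q 0 = 0 := by
        rcases mul_eq_zero.1 (pow_eq_zero_iff (two_ne_zero)|>.1 a0) with h | h
        · linarith
        · exact h
      have b1 : y 1 - q 1 = 0 := by
        rcases mul_eq_zero.1 (pow_eq_zero_iff (two_ne_zero)|>.1 a1) with h | h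
        · linarith
        · exact h
      exact hne (ext3 _ _ (by linarith) (by linarith) (by linarith))
    · refine h (-q 2 / (y 2 - q 2)) (div_pos (by linarith) h3) ⟨?_, ?_⟩
      · simp only [PiLp.add_apply, PiLp.smul_apply, PiLp.sub_apply, smul_eq_mul]
        field_simp
        ring
      · simp only [PiLp.add_apply, PiLp.smul_apply, PiLp.sub_apply, smul_eq_mul]
        have e : (q 0 + -q 2 / (y 2 - q 2) * (y 0 - q 0)) ^ 2 +
            (q 1 + -q 2 / (y 2 - q 2) * (y 1 - q 1)) ^ 2 =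
            ((-q 2 * (y 0 - q 0) + (y 2 - q 2) * q 0) ^ 2 +
              (-q 2 * (y 1 - q 1) + (y 2 - q 2) * q 1) ^ 2) / (y 2 - q 2) ^ 2 := by
          field_simp
          ring
        rw [e, div_le_one (by positivity)]
        exact h2
  · rintro (h | h)
    · refine ⟨fun he => ?_, fun τ hτ hD => ?_⟩
      · rw [he] at h
        linarith
      · have h1 := hD.1
        simp only [PiLp.add_apply, PiLp.smul_apply, PiLp.sub_apply, smul_eq_mul] at h1
        have := mul_neg_of_pos_of_neg hτ h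
        linarith
    · refine ⟨fun he => ?_, fun τ hτ hD => ?_⟩
      · rw [he] at h
        simp at h
      · have h1 := hD.1
        have h2 := hD.2
        simp only [PiLp.add_apply, PiLp.smul_apply, PiLp.sub_apply, smul_eq_mul] at h1 h2
        have h3 : τ * (y 2 - q 2) = -q 2 := by linarith
        have h4 := mul_le_mul_of_nonneg_left h2 (sq_nonneg (y 2 - q 2))
        have e : (y 2 - q 2) ^ 2 * ((q 0 + τ * (y 0 - q 0)) ^ 2 + (q 1 + τ * (y 1 - q 1)) ^ 2) =
            (-q 2 * (y 0 - q 0) + (y 2 - q 2) * q 0) ^ 2 +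
              (-q 2 * (y 1 - q 1) + (y 2 - q 2) * q 1) ^ 2 := by
          rw [← h3]
          ring
        rw [e] at h4
        linarith

theorem DMA_half (q : V3) : Convex ℝ {y : V3 | y 2 - q 2 < 0} := by
  intro x hx y hy a b ha hb hab
  have hx' : x 2 < q 2 := by have : x 2 - q 2 < 0 := hx; linarith
  have hy' : y 2 < q 2 := by have : y 2 - q 2 < 0 := hy; linarith
  show (a • x + b • y) 2 - q 2 < 0
  simp only [PiLp.add_apply, PiLp.smul_apply, smul_eq_mul]
  rcases ha.eq_or_lt with h | h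
  · have hb1 : b = 1 := by linarith
    rw [← h, hb1]; linarith
  · have h3 := mul_lt_mul_of_pos_left hx' h
    have h4 := mul_le_mul_of_nonneg_left hy'.le hb
    have h5 : a * q 2 + b * q 2 = q 2 := by rw [← add_mul, hab, one_mul]
    linarith

theorem cone_compl {q : V3} (hq2 : q 2 < 0) :
    IsPreconnected {y : V3 | y ≠ q ∧ ∀ τ : ℝ, 0 < τ → q + τ • (y - q) ∉ Disc} := by
  have hsub : {y : V3 | y 2 - q 2 < 0} ⊆
      {y : V3 | y ≠ q ∧ ∀ τ : ℝ, 0 < τ → q + τ • (y - q) ∉ Disc} := by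
    intro y hy
    exact (DMA_char hq2 y).2 (Or.inl hy)
  set v : V3 := !₂[q 0 / (-q 2), q 1 / (-q 2), -1] with hv
  have v0 : v 0 = q 0 / (-q 2) := by simp [hv]
  have v1 : v 1 = q 1 / (-q 2) := by simp [hv]
  have v2 : v 2 = -1 := by simp [hv]
  have hq2' : -q 2 ≠ 0 := by linarith
  refine isPreconnected_of_forall (q - E3) (fun y hy => ?_)
  have hy' := (DMA_char hq2 y).1 hy
  set T : ℝ := |y 2 - q 2| + 1 with hT
  have hT0 : 0 ≤ T := by positivity
  have hyT : y + T • v ∈ {y : V3 | y 2 - q 2 < 0} := by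
    show (y + T • v) 2 - q 2 < 0
    simp only [PiLp.add_apply, PiLp.smul_apply, smul_eq_mul, v2]
    have := le_abs_self (y 2 - q 2)
    linarith
  refine ⟨(fun t : ℝ => y + t • v) '' Icc 0 T ∪ {y : V3 | y 2 - q 2 < 0}, ?_, ?_, ?_, ?_⟩
  · refine Set.union_subset ?_ hsub
    rintro _ ⟨t, ⟨ht0, -⟩, rfl⟩
    refine (DMA_char hq2 _).2 ?_
    simp only [PiLp.add_apply, PiLp.smul_apply, smul_eq_mul, v0, v1, v2]
    have e0 : -q 2 * (y 0 + t * (q 0 / -q 2) - q 0) + (y 2 + t * -1 - q 2) * q 0 =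
        -q 2 * (y 0 - q 0) + (y 2 - q 2) * q 0 := by
      have h0 : -q 2 * (q 0 / -q 2) = q 0 := mul_div_cancel₀ (q 0) hq2'
      linear_combination t * h0
    have e1 : -q 2 * (y 1 + t * (q 1 / -q 2) - q 1) + (y 2 + t * -1 - q 2) * q 1 =
        -q 2 * (y 1 - q 1) + (y 2 - q 2) * q 1 := by
      have h0 : -q 2 * (q 1 / -q 2) = q 1 := mul_div_cancel₀ (q 1) hq2'
      linear_combination t * h0
    rw [e0, e1]
    rcases hy' with h | h
    · left; linarith
    · rcases lt_or_ge (y 2 + t * -1 - q 2) 0 with h3 | h3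
      · exact Or.inl h3
      · right
        refine lt_of_le_of_lt ?_ h
        exact pow_le_pow_left₀ h3 (by linarith) 2
  · right
    show (q - E3) 2 - q 2 < 0
    simp
  · left
    exact ⟨0, ⟨le_rfl, hT0⟩, by simp⟩
  · refine IsPreconnected.union (y + T • v) ⟨T, ⟨hT0, le_rfl⟩, rfl⟩ hyT ?_
      (DMA_half q).isPreconnected
    refine isPreconnected_Icc.image _ ?_
    fun_prop

theorem rayO {S : Surf} {q : V3} (hq : StarAt S q) (hq2 : q 2 < 0)
    (hO : ∀ u : V2, ‖u‖ < 1 → ∀ τ : ℝ, 0 < τ → q + τ • (S.X u - q) ∉ Disc) {y : V3}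
    (hy : y ≠ q) (h : ∀ τ : ℝ, 0 < τ → q + τ • (y - q) ∉ Disc) :
    ∃ u : V2, ‖u‖ < 1 ∧ ∃ τ : ℝ, 0 < τ ∧ q + τ • (y - q) = S.X u := by
  refine rays hq (cone_compl hq2) (fun hc => hc.1 rfl) ?_ ?_ y ⟨hy, h⟩
  · rintro z ⟨-, hz⟩ τ hτ u hu he
    obtain ⟨h1, h2⟩ := S.bd1 hu
    exact hz τ hτ (by rw [he]; exact ⟨h1, h2.le⟩)
  · refine ⟨0, by simp, fun he => ?_, fun τ hτ => hO 0 (by simp) τ hτ⟩
    exact star_not_mem hq (by rw [← he]; exact S.mem_Sig (by simp))

end Pool.Agent.H99.SC
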