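import Pool.Agent.H99.SC.Defs

/-!
# STR: the domain bounded by a compact set met exactly once by every ray from `q`

`Γ` compact, `q ∉ Γ`, every ray from `q` meets `Γ` exactly once; for `y ≠ q` let `T y > 0` with `q + T y (y - q) ∈ Γ`.
`W = {y : ∀ s ∈ (0,1], q + s (y - q) ∉ Γ} = {q} ∪ {T > 1}`.
* closed complement: `y_k → y`, `s_k ∈ (0,1]`, `q + s_k (y_k - q) ∈ Γ`; subsequence `s_k → s ∈ [0,1]`, the limit is in `Γ`
  so `s ≠ 0`: `W` is open.  `W` bounded: for `|y - q| > sup |Γ - q|`: `T y < 1`.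
* `W' = {q} ∪ {T ≥ 1}` is closed: `y_k → y ≠ q`, `T y_k ≥ 1`, `T y_k |y_k - q| ≤ sup |Γ - q|` bounded; subsequence
  `T y_k → τ ≥ 1`, `q + τ (y - q) ∈ Γ`, `τ = T y` by uniqueness.  So `closure W ⊆ W'`; conversely for `T y = 1`,
  `y = lim q + s (y - q)`, `s → 1-`, `T = 1/s > 1`: `closure W = W'`.
* frontier: `closure W \ W ⊆ {T = 1} = Γ`.
* `y ∈ closure W`, `0 ≤ s ≤ 1`: `s = 0`: `q ∈ W`; `s > 0`, `y ≠ q`: `T (q + s (y - q)) = T y / s ≥ 1`.
* `y ∈ Γ`: `T (q + s (y - q)) = 1/s`.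
-/

set_option autoImplicit false

open scoped RealInnerProductSpace Topology
open Metric Filter Set

noncomputable section

namespace Pool.Agent.H99.SC

/-- points before the hit -/
def strW (Γ : Set V3) (q : V3) : Set V3 := {y | ∀ s : ℝ, 0 < s → s ≤ 1 → q + s • (y - q) ∉ Γ}

/-- the compact hull -/
def STR_hull (Γ : Set V3) (q : V3) : Set V3 :=
  (fun p : V3 × ℝ => q + p.2 • (p.1 - q)) '' (Γ ×ˢ Icc (0 : ℝ) 1) ∪ {q}

theorem STR_compact {Γ : Set V3} (hΓ : IsCompact Γ) (q : V3) : IsCompact (STR_hull Γ q) := by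
  refine IsCompact.union ?_ isCompact_singleton
  refine (hΓ.prod isCompact_Icc).image ?_
  fun_prop

theorem STR_q {Γ : Set V3} {q : V3} (hq : q ∉ Γ) : q ∈ strW Γ q := by
  intro s _ _
  rw [sub_self, smul_zero, add_zero]
  exact hq

theorem STR_in {Γ : Set V3} {q : V3} (hq : q ∉ Γ)
    (huniq : ∀ y : V3, y ≠ q → ∀ τ σ : ℝ, 0 < τ → 0 < σ → q + τ • (y - q) ∈ Γ →
      q + σ • (y - q) ∈ Γ → τ = σ) {z : V3} (hz : z ∈ Γ) {s : ℝ} (hs0 : 0 < s) (hs1 : s < 1) :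
    q + s • (z - q) ∈ strW Γ q := by
  intro s₁ h0 h1 hmem
  have hzq : z ≠ q := fun h => hq (h ▸ hz)
  have e : q + s₁ • (q + s • (z - q) - q) = q + (s₁ * s) • (z - q) := by
    rw [add_sub_cancel_left, smul_smul]
  rw [e] at hmem
  have h2 := huniq z hzq (s₁ * s) 1 (by positivity) one_pos hmem (by simpa using hz)
  nlinarith

theorem STR_sub {Γ : Set V3} {q : V3}
    (hex : ∀ y : V3, y ≠ q → ∃ τ : ℝ, 0 < τ ∧ q + τ • (y - q) ∈ Γ) :
    strW Γ q ⊆ STR_hull Γ q := by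
  intro y hy
  by_cases hyq : y = q
  · right; exact hyq
  · left
    obtain ⟨τ, hτ, hmem⟩ := hex y hyq
    have hτ1 : 1 < τ := by
      by_contra h
      exact hy τ hτ (not_lt.1 h) hmem
    refine ⟨(q + τ • (y - q), τ⁻¹), ⟨hmem, ?_, ?_⟩, ?_⟩
    · exact inv_nonneg.2 hτ.le
    · exact inv_le_one_of_one_le₀ hτ1.le
    · show q + τ⁻¹ • (q + τ • (y - q) - q) = y
      rw [add_sub_cancel_left, smul_smul, inv_mul_cancel₀ hτ.ne', one_smul, add_sub_cancel]

theorem STR_hull_sub {Γ : Set V3} {q : V3} (hq : q ∉ Γ)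
    (huniq : ∀ y : V3, y ≠ q → ∀ τ σ : ℝ, 0 < τ → 0 < σ → q + τ • (y - q) ∈ Γ →
      q + σ • (y - q) ∈ Γ → τ = σ) :
    STR_hull Γ q ⊆ strW Γ q ∪ Γ := by
  rintro y (⟨⟨z, s⟩, ⟨hz, hs0, hs1⟩, rfl⟩ | hy)
  · show q + s • (z - q) ∈ strW Γ q ∪ Γ
    rcases hs0.eq_or_lt with h0 | h0
    · left
      have h0' : s = 0 := h0.symm
      rw [h0', zero_smul, add_zero]
      exact STR_q hq
    · rcases hs1.eq_or_lt with h1 | h1
      · right
        have h1' : s = 1 := h1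
        rw [h1', one_smul, add_sub_cancel]
        exact hz
      · left
        exact STR_in hq huniq hz h0 h1
  · left
    rw [mem_singleton_iff.1 hy]
    exact STR_q hq

theorem STR_closure {Γ : Set V3} (hΓ : IsCompact Γ) {q : V3} (hq : q ∉ Γ)
    (hex : ∀ y : V3, y ≠ q → ∃ τ : ℝ, 0 < τ ∧ q + τ • (y - q) ∈ Γ)
    (huniq : ∀ y : V3, y ≠ q → ∀ τ σ : ℝ, 0 < τ → 0 < σ → q + τ • (y - q) ∈ Γ →
      q + σ • (y - q) ∈ Γ → τ = σ) :
    closure (strW Γ q) = STR_hull Γ q := by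
  apply Subset.antisymm
  · exact closure_minimal (STR_sub hex) (STR_compact hΓ q).isClosed
  · refine (STR_hull_sub hq huniq).trans (union_subset subset_closure ?_)
    intro z hz
    have h1 : Tendsto (fun s : ℝ => q + s • (z - q)) (𝓝[<] 1) (𝓝 z) := by
      have h2 : Tendsto (fun s : ℝ => q + s • (z - q)) (𝓝 1) (𝓝 (q + (1 : ℝ) • (z - q))) := by
        have : Continuous fun s : ℝ => q + s • (z - q) := by fun_prop
        exact this.tendsto 1
      rw [one_smul, add_sub_cancel] at h2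
      exact h2.mono_left nhdsWithin_le_nhds
    refine mem_closure_of_tendsto h1 ?_
    have h3 : ∀ᶠ s : ℝ in 𝓝[<] 1, s ∈ Ioo (0 : ℝ) 1 := Ioo_mem_nhdsLT one_pos
    filter_upwards [h3] with s hs
    exact STR_in hq huniq hz hs.1 hs.2

theorem STR_open {Γ : Set V3} (hΓ : IsCompact Γ) {q : V3} (hq : q ∉ Γ) : IsOpen (strW Γ q) := by
  rw [← isClosed_compl_iff]
  have h1 : (strW Γ q)ᶜ = Prod.fst '' {p : V3 × Icc (0 : ℝ) 1 | q + (p.2 : ℝ) • (p.1 - q) ∈ Γ} := by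
    ext y
    constructor
    · intro hy
      have hy' : ¬ ∀ s : ℝ, 0 < s → s ≤ 1 → q + s • (y - q) ∉ Γ := hy
      push Not at hy'
      obtain ⟨s, h0, h1, h2⟩ := hy'
      exact ⟨(y, ⟨s, h0.le, h1⟩), h2, rfl⟩
    · rintro ⟨⟨y', s⟩, h, rfl⟩ hy
      have h' : q + (s : ℝ) • (y' - q) ∈ Γ := h
      rcases s.2.1.eq_or_lt with h0 | h0
      · rw [← h0, zero_smul, add_zero] at h'
        exact hq h'
      · exact hy s h0 s.2.2 h'
  rw [h1]
  apply isClosedMap_fst_of_compactSpace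
  have h2 : Continuous fun p : V3 × Icc (0 : ℝ) 1 => q + (p.2 : ℝ) • (p.1 - q) := by fun_prop
  exact hΓ.isClosed.preimage h2

theorem str {Γ : Set V3} (hΓ : IsCompact Γ) {q : V3} (hq : q ∉ Γ)
    (hex : ∀ y : V3, y ≠ q → ∃ τ : ℝ, 0 < τ ∧ q + τ • (y - q) ∈ Γ)
    (huniq : ∀ y : V3, y ≠ q → ∀ τ σ : ℝ, 0 < τ → 0 < σ → q + τ • (y - q) ∈ Γ →
      q + σ • (y - q) ∈ Γ → τ = σ) :
    IsOpen (strW Γ q) ∧ Bornology.IsBounded (strW Γ q) ∧ frontier (strW Γ q) ⊆ Γ ∧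
    q ∈ strW Γ q ∧
    (∀ y ∈ closure (strW Γ q), ∀ s : ℝ, 0 ≤ s → s ≤ 1 → q + s • (y - q) ∈ closure (strW Γ q)) ∧
    (∀ y ∈ Γ, ∀ s : ℝ, 0 < s → s < 1 → q + s • (y - q) ∈ strW Γ q) ∧
    (∀ y ∈ Γ, ∀ s : ℝ, 1 < s → q + s • (y - q) ∉ closure (strW Γ q)) := by
  have hcl := STR_closure hΓ hq hex huniq
  have hop := STR_open hΓ hq
  refine ⟨hop, (STR_compact hΓ q).isBounded.subset (STR_sub hex), ?_, STR_q hq, ?_, ?_, ?_⟩
  · intro y hy
    rw [hop.frontier_eq, hcl] at hy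
    rcases STR_hull_sub hq huniq hy.1 with h | h
    · exact absurd h hy.2
    · exact h
  · intro y hy s hs0 hs1
    rw [hcl] at hy ⊢
    rcases hy with ⟨⟨z, s'⟩, ⟨hz, hs'0, hs'1⟩, rfl⟩ | hy
    · left
      refine ⟨(z, s * s'), ⟨hz, mul_nonneg hs0 hs'0, ?_⟩, ?_⟩
      · exact mul_le_one₀ hs1 hs'0 hs'1
      · show q + (s * s') • (z - q) = q + s • (q + s' • (z - q) - q)
        rw [add_sub_cancel_left, smul_smul]
    · right
      rw [mem_singleton_iff.1 hy, sub_self, smul_zero, add_zero]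
      rfl
  · intro y hy s hs0 hs1
    exact STR_in hq huniq hy hs0 hs1
  · intro y hy s hs hmem
    rw [hcl] at hmem
    have hyq : y ≠ q := fun h => hq (h ▸ hy)
    have hs0 : 0 < s := by linarith
    rcases hmem with ⟨⟨z, s'⟩, ⟨hz, hs'0, hs'1⟩, he⟩ | hmem
    · have he' : q + s' • (z - q) = q + s • (y - q) := he
      have he2 : s' • (z - q) = s • (y - q) := add_left_cancel he'
      have hs'pos : 0 < s' := by
        rcases (show (0 : ℝ) ≤ s' from hs'0).eq_or_lt with h | h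
        · exfalso
          rw [← h, zero_smul] at he2
          rcases smul_eq_zero.1 he2.symm with h' | h'
          · linarith
          · exact hyq (sub_eq_zero.1 h')
        · exact h
      have h3 : z = q + (s'⁻¹ * s) • (y - q) := by
        rw [mul_smul, ← he2, smul_smul, inv_mul_cancel₀ hs'pos.ne', one_smul, add_sub_cancel]
      have h4 := huniq y hyq (s'⁻¹ * s) 1 (by positivity) one_pos (h3 ▸ hz) (by simpa using hy)
      have h5 : s = s' := by
        field_simp at h4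
        linarith
      have h6 : s' ≤ 1 := hs'1
      linarith
    · rw [mem_singleton_iff] at hmem
      have h2 : s • (y - q) = 0 := by
        have : q + s • (y - q) = q + 0 := by rw [hmem, add_zero]
        exact add_left_cancel this
      rcases smul_eq_zero.1 h2 with h' | h'
      · linarith
      · exact hyq (sub_eq_zero.1 h')

end Pool.Agent.H99.SC
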