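import Pool.Agent.H99.SC.LSIG
import Pool.Agent.H99.SC.CONE

/-!
# WST: consequences of a weak star centre

`wst1`: `⟪z - X u, N u⟫ ≥ 0`.  For `‖u‖ < 1`: if `< 0`, box at `u` with `e = N u`: `f (X u + s (z - X u)) < 0`
for small `s > 0` (derivative `⟪g, z - X u⟫ < 0`), not in `closure W` (`lsig`), but
`X u + s (z - X u) = z + (1-s)(X u - z)` is.  For `‖u‖ = 1` by continuity.
`wst2`: `y` in the open cone above the plane is not in `closure W`.  Let `h = -z 2 > 0` and
`d = z + (h/(h + y 2)) (y - z)`: `d 2 = 0`, `(h + y 2) d' = h y' + (y 2) z'`, so `d` is in the open disc.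
`d = z + τ (y - z)` with `τ < 1`; for `τ < σ < 1` close to `τ`, `z + σ (y - z)` is in `closure W` (if
`y` is), has positive third coordinate and is near `d`: contradicts `ldisc`.
`wst3`: below the plane: `y = z + (1/τ)(d - z)` with `1/τ = (h + y 2)/h ∈ (0,1)`.  `closure W`
contains every point of the open cone below the plane (`d ∈ closure W`: limit of `d - s E3`), an open
set `O ∋ y`, so `y` is in `interior (closure W)`.  If `y ∉ W` then `y ∈ frontier W ⊆ S.Sig ∪ Disc`,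
`y ∉ Disc` (`y 2 < 0`), so `y = X u`, `‖u‖ < 1` (`bd1`), and `X u - s N u ∉ closure W` for small `s > 0`
contradicts `O` open.
-/

set_option autoImplicit false

open scoped RealInnerProductSpace Topology
open Metric Filter Set

noncomputable section

namespace Pool.Agent.H99.SC

theorem WST_dec {h : ℝ → ℝ} {c : ℝ} (hd : HasDerivAt h c 0) (hc : c < 0) :
    ∀ᶠ s in 𝓝[>] (0 : ℝ), h s < h 0 := by
  have h1 := hasDerivAt_iff_tendsto_slope.1 hd
  have h2 : ∀ᶠ s in 𝓝[≠] (0 : ℝ), slope h 0 s < 0 := h1.eventually (gt_mem_nhds hc)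
  have h3 : ∀ᶠ s in 𝓝[>] (0 : ℝ), slope h 0 s < 0 :=
    h2.filter_mono (nhdsWithin_mono _ fun s hs => ne_of_gt hs)
  filter_upwards [h3, self_mem_nhdsWithin] with s hs hs0
  have hs0' : 0 < s := hs0
  rw [slope_def_field, sub_zero, div_lt_iff₀ hs0', zero_mul] at hs
  linarith

theorem WST_box {S : Surf} {u : V2} (hu : ‖u‖ ≤ 1) : 0 < ⟪nn S.X u, S.N u⟫ := by
  rw [S.nn_eq hu, inner_smul_left, real_inner_self_eq_norm_sq, S.N_norm hu]
  simpa using S.imm u hu

theorem wst1 {S : Surf} {D : Dom S} {z : V3} (hz : WStar D z) {u : V2} (hu : ‖u‖ ≤ 1) :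
    0 ≤ ⟪z - S.X u, S.N u⟫ := by
  have key : ∀ u : V2, ‖u‖ < 1 → 0 ≤ ⟪z - S.X u, S.N u⟫ := by
    intro u hu
    by_contra hcon
    push Not at hcon
    obtain ⟨B⟩ := exists_box S.smooth (WST_box (S := S) hu.le)
    obtain ⟨ε, hε, hεr, hloc⟩ := lsig D.toPreDom hu B
    have hmemr : S.X u ∈ B.U B.r := B.mem_U B.hr
    have hb : B.b (S.X u) = u := B.b_X (by simpa using B.hr)
    have hf : B.f (S.X u) = 0 := B.f_X (by simpa using B.hr)
    have hfd : fderiv ℝ B.f (S.X u) (z - S.X u) < 0 := by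
      rw [B.fd S.smooth hmemr, B.g_eq hmemr, hb, inner_smul_left]
      have h1 : 0 < ‖B.g (S.X u)‖ := B.g_pos hmemr
      have h2 : ⟪NN S.X u, z - S.X u⟫ < 0 := by
        rw [real_inner_comm]
        exact hcon
      simp only [RCLike.conj_to_real]
      exact mul_neg_of_pos_of_neg h1 h2
    have hline : HasDerivAt (fun s : ℝ => S.X u + s • (z - S.X u)) (z - S.X u) 0 := by
      simpa using ((hasDerivAt_id (0 : ℝ)).smul_const (z - S.X u)).const_add (S.X u)
    have hfx : HasFDerivAt B.f (fderiv ℝ B.f (S.X u)) (S.X u + (0 : ℝ) • (z - S.X u)) := by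
      rw [zero_smul, add_zero]
      exact ((B.smooth_f hmemr).differentiableAt (by norm_num)).hasFDerivAt
    have hcomp : HasDerivAt (fun s : ℝ => B.f (S.X u + s • (z - S.X u)))
        (fderiv ℝ B.f (S.X u) (z - S.X u)) 0 := hfx.comp_hasDerivAt 0 hline
    have h3 := WST_dec hcomp hfd
    have hcontline : Tendsto (fun s : ℝ => S.X u + s • (z - S.X u)) (𝓝[>] 0) (𝓝 (S.X u)) := by
      have := hline.continuousAt.tendsto
      rw [zero_smul, add_zero] at this
      exact this.mono_left nhdsWithin_le_nhds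
    have h4 : ∀ᶠ s in 𝓝[>] (0 : ℝ), S.X u + s • (z - S.X u) ∈ B.U ε :=
      hcontline.eventually (B.U_nhds hε hεr)
    have h5 : ∀ᶠ s in 𝓝[>] (0 : ℝ), s ∈ Ioo (0 : ℝ) 1 := Ioo_mem_nhdsGT one_pos
    obtain ⟨s, hs3, hs4, hs5⟩ := (h3.and (h4.and h5)).exists
    rw [zero_smul, add_zero, hf] at hs3
    have h6 := (hloc _ hs4).2.2.2.2
    have h7 : S.X u + s • (z - S.X u) ∈ closure D.W := by
      have := hz.2 (S.X u) (sig_closure D.toPreDom (S.mem_Sig hu.le)) (1 - s)
        (by linarith [hs5.2]) (by linarith [hs5.1])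
      have e : z + (1 - s) • (S.X u - z) = S.X u + s • (z - S.X u) := by module
      rwa [e] at this
    have := h6.1 h7
    linarith
  by_cases h1 : ‖u‖ < 1
  · exact key u h1
  · have hcont : ContinuousAt (fun x : V2 => ⟪z - S.X x, S.N x⟫) u :=
      (continuousAt_const.sub S.smooth.continuous.continuousAt).inner (𝕜 := ℝ) (S.N_cont hu)
    have hr : Tendsto (fun r : ℝ => r • u) (𝓝[<] 1) (𝓝 u) := by
      have : Tendsto (fun r : ℝ => r • u) (𝓝 1) (𝓝 ((1 : ℝ) • u)) :=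
        (continuous_id.smul continuous_const).continuousAt
      rw [one_smul] at this
      exact this.mono_left nhdsWithin_le_nhds
    have hlim : Tendsto (fun r : ℝ => ⟪z - S.X (r • u), S.N (r • u)⟫) (𝓝[<] 1)
        (𝓝 ⟪z - S.X u, S.N u⟫) := hcont.tendsto.comp hr
    refine ge_of_tendsto hlim ?_
    filter_upwards [Ioo_mem_nhdsLT (show (0 : ℝ) < 1 from one_pos)] with r hr
    refine key _ ?_
    rw [norm_smul, Real.norm_of_nonneg hr.1.le]
    nlinarith [norm_nonneg u, hr.1, hr.2]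

/-- the point of the disc on the line through `z` and `y` -/
theorem WST_pt {z y : V3} (hy : InCone z y) {d : V3}
    (hd : d = z + (-(z 2) / (y 2 - z 2)) • (y - z)) :
    d 2 = 0 ∧ d 0 ^ 2 + d 1 ^ 2 < 1 := by
  obtain ⟨h1, h2⟩ := hy
  have hne : y 2 - z 2 ≠ 0 := h1.ne'
  have e2 : d 2 = 0 := by
    rw [hd]
    simp only [PiLp.add_apply, PiLp.smul_apply, PiLp.sub_apply, smul_eq_mul]
    field_simp
    ring
  have e0 : d 0 = (-(z 2) * y 0 + y 2 * z 0) / (y 2 - z 2) := by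
    rw [hd]
    simp only [PiLp.add_apply, PiLp.smul_apply, PiLp.sub_apply, smul_eq_mul]
    field_simp
    ring
  have e1 : d 1 = (-(z 2) * y 1 + y 2 * z 1) / (y 2 - z 2) := by
    rw [hd]
    simp only [PiLp.add_apply, PiLp.smul_apply, PiLp.sub_apply, smul_eq_mul]
    field_simp
    ring
  refine ⟨e2, ?_⟩
  rw [e0, e1, div_pow, div_pow, ← add_div, div_lt_one (by positivity)]
  exact h2

theorem wst2 {S : Surf} {D : Dom S} {z : V3} (hz : WStar D z) {y : V3} (hy : InCone z y)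
    (h2 : 0 < y 2) : y ∉ closure D.W := by
  intro hyW
  have hz2 : z 2 < 0 := hz.1
  set τ : ℝ := -(z 2) / (y 2 - z 2) with hτ
  have hden : 0 < y 2 - z 2 := hy.1
  have hτ1 : τ < 1 := by
    rw [hτ, div_lt_one hden]
    linarith
  have hτ0 : 0 < τ := div_pos (by linarith) hden
  obtain ⟨hd2, hd1⟩ := WST_pt hy (d := z + τ • (y - z)) rfl
  obtain ⟨ε, hε, hloc⟩ := ldisc D.toPreDom hd2 hd1
  have hcont : Tendsto (fun σ : ℝ => z + σ • (y - z)) (𝓝[>] τ) (𝓝 (z + τ • (y - z))) := by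
    have : Continuous fun σ : ℝ => z + σ • (y - z) := by fun_prop
    exact this.continuousAt.tendsto.mono_left nhdsWithin_le_nhds
  have h3 : ∀ᶠ σ in 𝓝[>] τ, z + σ • (y - z) ∈ ball (z + τ • (y - z)) ε :=
    hcont.eventually (ball_mem_nhds _ hε)
  have h4 : ∀ᶠ σ in 𝓝[>] τ, σ ∈ Ioo τ 1 := Ioo_mem_nhdsGT hτ1
  obtain ⟨σ, hσ3, hσ4⟩ := (h3.and h4).exists
  have h5 := (hloc _ hσ3).2.2
  have h6 := h5.1 (hz.2 y hyW σ (hτ0.le.trans hσ4.1.le) hσ4.2.le)
  have h7 : (z + σ • (y - z)) 2 = z 2 + σ * (y 2 - z 2) := by simp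
  have h8 : τ * (y 2 - z 2) = -(z 2) := by
    rw [hτ]
    field_simp
  have h9 : τ * (y 2 - z 2) < σ * (y 2 - z 2) := mul_lt_mul_of_pos_right hσ4.1 hden
  rw [h7] at h6
  linarith

theorem wst3 {S : Surf} {D : Dom S} {z : V3} (hz : WStar D z) {y : V3} (hy : InCone z y)
    (h2 : y 2 < 0) : y ∈ D.W := by
  have hz2 : z 2 < 0 := hz.1
  have hcl : ∀ y : V3, InCone z y → y 2 < 0 → y ∈ closure D.W := by
    intro y hy h2
    have hden : 0 < y 2 - z 2 := hy.1
    set τ : ℝ := -(z 2) / (y 2 - z 2) with hτ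
    have hτ0 : 0 < τ := div_pos (by linarith) hden
    have hτ1 : 1 ≤ τ := by
      rw [hτ, one_le_div hden]
      linarith
    obtain ⟨hd2, hd1⟩ := WST_pt hy (d := z + τ • (y - z)) rfl
    obtain ⟨ε, hε, hloc⟩ := ldisc D.toPreDom hd2 hd1
    have hdW : z + τ • (y - z) ∈ closure D.W := (hloc _ (mem_ball_self hε)).2.2.2 hd2.le
    have := hz.2 _ hdW τ⁻¹ (by positivity) (inv_le_one_of_one_le₀ hτ1)
    rwa [add_sub_cancel_left, smul_smul, inv_mul_cancel₀ hτ0.ne', one_smul,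
      add_sub_cancel] at this
  by_contra hyW
  have hfr : y ∈ frontier D.W := ⟨hcl y hy h2, by rwa [D.isOpen.interior_eq]⟩
  rcases D.fr hfr with ⟨u, hu, rfl⟩ | hD
  · have hu1 : ‖u‖ < 1 := by
      refine lt_of_le_of_ne hu fun h => ?_
      have := (S.bd1 h).1
      linarith
    obtain ⟨ε, hε, hs⟩ := D.inS u hu1
    have hc : ∀ i : Fin 3, Continuous fun y : V3 => y i := fun i => by fun_prop
    have hO : IsOpen {y : V3 | InCone z y ∧ y 2 < 0} := by
      refine IsOpen.inter (IsOpen.inter ?_ ?_) (isOpen_lt (hc 2) continuous_const)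
      · exact isOpen_lt continuous_const ((hc 2).sub continuous_const)
      · have hl : Continuous fun y : V3 =>
            (-(z 2) * y 0 + y 2 * z 0) ^ 2 + (-(z 2) * y 1 + y 2 * z 1) ^ 2 := by fun_prop
        have hr : Continuous fun y : V3 => (y 2 - z 2) ^ 2 := by fun_prop
        exact isOpen_lt hl hr
    have hlim : Tendsto (fun s : ℝ => S.X u - s • S.N u) (𝓝[>] 0) (𝓝 (S.X u)) := by
      have : Continuous fun s : ℝ => S.X u - s • S.N u := by fun_prop
      have := this.continuousAt.tendsto (x := 0)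
      rw [zero_smul, sub_zero] at this
      exact this.mono_left nhdsWithin_le_nhds
    have h3 : ∀ᶠ s in 𝓝[>] (0 : ℝ), S.X u - s • S.N u ∈ {y : V3 | InCone z y ∧ y 2 < 0} :=
      hlim.eventually (hO.mem_nhds ⟨hy, h2⟩)
    have h4 : ∀ᶠ s in 𝓝[>] (0 : ℝ), s ∈ Ioo (0 : ℝ) ε := Ioo_mem_nhdsGT hε
    obtain ⟨s, hs3, hs4⟩ := (h3.and h4).exists
    exact (hs s hs4.1 hs4.2).2 (hcl _ hs3.1 hs3.2)
  · exact absurd hD.1 h2.ne

end Pool.Agent.H99.SC
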