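import Pool.Agent.H99.SC.DMA
import Pool.Agent.H99.SC.STR
import Pool.Agent.H99.SC.MKP
import Pool.Agent.H99.SC.WST

/-!
# DMO: the domain in case O

`Γ = S.Sig ∪ Disc`, compact, `q ∉ Γ` (`star_not_mem`, `q 2 < 0`).
`hex`: `y ≠ q`: either some `q + τ (y - q) ∈ Disc`, or `rayO`.
`huniq`: two points in `S.Sig`: `star_unique`; two in `Disc`: third coordinate (`q 2 < 0`) determines `τ`; one `X u` and one `d ∈ Disc`:
if `‖u‖ < 1` this contradicts `hO` (`d = q + τ' (X u - q)` with `τ' = σ/τ > 0`); if `‖u‖ = 1`, `X u ∈ Disc`.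
`str` gives `W = strW Γ q`.  `mkp`: `disj`: `hO` with `τ = 1`.  `hW`: `X u = lim q + s (X u - q)`, `s → 1-`; `hE`: `s → 1+`.
`hD`: `d` in the open disc, `h = - q 2`.  For small `s > 0`: `y = d - s E3`: with `τ = h/(h - s) > 1`,
`q + τ (y - q) ∈ Disc` (third coordinate 0, close to `d`), so by uniqueness no `q + s' (y - q)`, `s' ≤ 1`, is in `Γ`:
`y ∈ W`.  `y = d + s E3`: `τ = h/(h + s) < 1`, `d' = q + τ (y - q) ∈ Disc`, `y = q + (1/τ)(d' - q)`, `1/τ > 1`: last
part of `str`.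
`hlow`: `y = q - E3`: no `q + τ (y - q) ∈ Disc` (third coordinate `q 2 - τ < 0`), `rayO`: `X u = q - τ E3`.
So a `PreDom` `D` with `D.W = W`.  `nE`: for `‖u‖ < 1`, `0 ≤ ⟪q - X u, N u⟫`: otherwise, box at `u`, `e = N u`, `lsig`:
`f (X u + s (q - X u)) < 0` for small `s > 0` (derivative `⟪g, q - X u⟫ < 0`), not in the closure, but
`X u + s (q - X u) = q + (1-s)(X u - q) ∈ closure W`.  For `‖u‖ = 1` by continuity (`N_cont`); `N u = E3` would give
`⟪q - X u, E3⟫ = q 2 < 0`.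
-/

set_option autoImplicit false

open scoped RealInnerProductSpace Topology
open Metric Filter Set

noncomputable section

namespace Pool.Agent.H99.SC

theorem DMO_wst1 {S : Surf} (D : PreDom S) {z : V3}
    (hz : ∀ y ∈ closure D.W, ∀ s : ℝ, 0 ≤ s → s ≤ 1 → z + s • (y - z) ∈ closure D.W) {u : V2}
    (hu : ‖u‖ ≤ 1) : 0 ≤ ⟪z - S.X u, S.N u⟫ := by
  have key : ∀ u : V2, ‖u‖ < 1 → 0 ≤ ⟪z - S.X u, S.N u⟫ := by
    intro u hu
    by_contra hcon
    push Not at hcon
    obtain ⟨B⟩ := exists_box S.smooth (WST_box (S := S) hu.le)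
    obtain ⟨ε, hε, hεr, hloc⟩ := lsig D hu B
    have hmemr : S.X u ∈ B.U B.r := B.mem_U B.hr
    have hb : B.b (S.X u) = u := B.b_X (by simpa using B.hr)
    have hf : B.f (S.X u) = 0 := B.f_X (by simpa using B.hr)
    have hfd : fderiv ℝ B.f (S.X u) (z - S.X u) < 0 := by
      rw [B.fd S.smooth hmemr, B.g_eq hmemr, hb, inner_smul_left]
      have h1 : 0 < ‖B.g (S.X u)‖ := B.g_pos hmemr
      have h2 : ⟪NN S.X u, z - S.X u⟫ < 0 := by
        rw [real_inner_comm]
        exact hcon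
      simp only [RCLike.conj_to_real]
      exact mul_neg_of_pos_of_neg h1 h2
    have hline : HasDerivAt (fun s : ℝ => S.X u + s • (z - S.X u)) (z - S.X u) 0 := by
      simpa using ((hasDerivAt_id (0 : ℝ)).smul_const (z - S.X u)).const_add (S.X u)
    have hfx : HasFDerivAt B.f (fderiv ℝ B.f (S.X u)) (S.X u + (0 : ℝ) • (z - S.X u)) := by
      rw [zero_smul, add_zero]
      exact ((B.smooth_f hmemr).differentiableAt (by norm_num)).hasFDerivAt
    have hcomp : HasDerivAt (fun s : ℝ => B.f (S.X u + s • (z - S.X u)))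
        (fderiv ℝ B.f (S.X u) (z - S.X u)) 0 := hfx.comp_hasDerivAt 0 hline
    have h3 := WST_dec hcomp hfd
    have hcontline : Tendsto (fun s : ℝ => S.X u + s • (z - S.X u)) (𝓝[>] 0) (𝓝 (S.X u)) := by
      have := hline.continuousAt.tendsto
      rw [zero_smul, add_zero] at this
      exact this.mono_left nhdsWithin_le_nhds
    have h4 : ∀ᶠ s in 𝓝[>] (0 : ℝ), S.X u + s • (z - S.X u) ∈ B.U ε :=
      hcontline.eventually (B.U_nhds hε hεr)
    have h5 : ∀ᶠ s in 𝓝[>] (0 : ℝ), s ∈ Ioo (0 : ℝ) 1 := Ioo_mem_nhdsGT one_pos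
    obtain ⟨s, hs3, hs4, hs5⟩ := (h3.and (h4.and h5)).exists
    rw [zero_smul, add_zero, hf] at hs3
    have h6 := (hloc _ hs4).2.2.2.2
    have h7 : S.X u + s • (z - S.X u) ∈ closure D.W := by
      have := hz (S.X u) (sig_closure D (S.mem_Sig hu.le)) (1 - s)
        (by linarith [hs5.2]) (by linarith [hs5.1])
      have e : z + (1 - s) • (S.X u - z) = S.X u + s • (z - S.X u) := by module
      rwa [e] at this
    have := h6.1 h7
    linarith
  by_cases h1 : ‖u‖ < 1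
  · exact key u h1
  · have hcont : ContinuousAt (fun x : V2 => ⟪z - S.X x, S.N x⟫) u :=
      (continuousAt_const.sub S.smooth.continuous.continuousAt).inner (𝕜 := ℝ) (S.N_cont hu)
    have hr : Tendsto (fun r : ℝ => r • u) (𝓝[<] 1) (𝓝 u) := by
      have : Tendsto (fun r : ℝ => r • u) (𝓝 1) (𝓝 ((1 : ℝ) • u)) :=
        (continuous_id.smul continuous_const).continuousAt
      rw [one_smul] at this
      exact this.mono_left nhdsWithin_le_nhds
    have hlim : Tendsto (fun r : ℝ => ⟪z - S.X (r • u), S.N (r • u)⟫) (𝓝[<] 1)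
        (𝓝 ⟪z - S.X u, S.N u⟫) := hcont.tendsto.comp hr
    refine ge_of_tendsto hlim ?_
    filter_upwards [Ioo_mem_nhdsLT (show (0 : ℝ) < 1 from one_pos)] with r hr
    refine key _ ?_
    rw [norm_smul, Real.norm_of_nonneg hr.1.le]
    nlinarith [norm_nonneg u, hr.1, hr.2]

/-- the third coordinate determines the parameter -/
theorem DMO_disc {q w : V3} (hq2 : q 2 < 0) {τ σ : ℝ} (h1 : q + τ • w ∈ Disc)
    (h2 : q + σ • w ∈ Disc) : τ = σ := by
  have e1 : q 2 + τ * w 2 = 0 := by simpa using h1.1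
  have e2 : q 2 + σ * w 2 = 0 := by simpa using h2.1
  have hw : w 2 ≠ 0 := by
    intro h0
    rw [h0, mul_zero, add_zero] at e1
    linarith
  have e3 : (τ - σ) * w 2 = 0 := by linear_combination e1 - e2
  have e4 := (mul_eq_zero.1 e3).resolve_right hw
  linarith

theorem DMO_mix {S : Surf} {q w : V3} (hq2 : q 2 < 0)
    (hO : ∀ u : V2, ‖u‖ < 1 → ∀ τ : ℝ, 0 < τ → q + τ • (S.X u - q) ∉ Disc)
    {τ σ : ℝ} (hτ : 0 < τ) (hσ : 0 < σ) {u : V2} (hu : ‖u‖ ≤ 1) (h1 : S.X u = q + τ • w)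
    (h2 : q + σ • w ∈ Disc) : τ = σ := by
  rcases hu.lt_or_eq with hlt | heq
  · exfalso
    apply hO u hlt (σ / τ) (by positivity)
    have e : q + (σ / τ) • (S.X u - q) = q + σ • w := by
      rw [h1, add_sub_cancel_left, smul_smul]
      congr 2
      field_simp
    rw [e]
    exact h2
  · have h3 : S.X u ∈ Disc := ⟨(S.bd1 heq).1, (S.bd1 heq).2.le⟩
    rw [h1] at h3
    exact DMO_disc hq2 h3 h2

theorem DMO_uniq {S : Surf} {q : V3} (hq : StarAt S q) (hq2 : q 2 < 0)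
    (hO : ∀ u : V2, ‖u‖ < 1 → ∀ τ : ℝ, 0 < τ → q + τ • (S.X u - q) ∉ Disc)
    (y : V3) (τ σ : ℝ) (hτ : 0 < τ) (hσ : 0 < σ)
    (h1 : q + τ • (y - q) ∈ S.Sig ∪ Disc) (h2 : q + σ • (y - q) ∈ S.Sig ∪ Disc) : τ = σ := by
  rcases h1 with ⟨u, hu, h1⟩ | h1
  · rcases h2 with ⟨v, hv, h2⟩ | h2
    · exact (star_unique hq hu hv hτ hσ h1.symm h2.symm).1
    · exact DMO_mix hq2 hO hτ hσ hu h1 h2
  · rcases h2 with ⟨v, hv, h2⟩ | h2
    · exact (DMO_mix hq2 hO hσ hτ hv h2 h1).symm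
    · exact DMO_disc hq2 h1 h2

theorem dmo {S : Surf} {q : V3} (hq : StarAt S q) (hq2 : q 2 < 0)
    (hO : ∀ u : V2, ‖u‖ < 1 → ∀ τ : ℝ, 0 < τ → q + τ • (S.X u - q) ∉ Disc) :
    ∃ D : Dom S, WStar D q ∧ q ∈ D.W := by
  set Γ : Set V3 := S.Sig ∪ Disc with hΓ
  have hΓc : IsCompact Γ := S.isCompact_Sig.union isCompact_Disc
  have hqΓ : q ∉ Γ := by
    rintro (h | h)
    · exact star_not_mem hq h
    · exact hq2.ne h.1
  have hex : ∀ y : V3, y ≠ q → ∃ τ : ℝ, 0 < τ ∧ q + τ • (y - q) ∈ Γ := by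
    intro y hy
    by_cases h : ∃ τ : ℝ, 0 < τ ∧ q + τ • (y - q) ∈ Disc
    · obtain ⟨τ, hτ, h⟩ := h
      exact ⟨τ, hτ, Or.inr h⟩
    · push Not at h
      obtain ⟨u, hu, τ, hτ, h2⟩ := rayO hq hq2 hO hy h
      exact ⟨τ, hτ, Or.inl ⟨u, hu.le, h2.symm⟩⟩
  have huniq : ∀ y : V3, y ≠ q → ∀ τ σ : ℝ, 0 < τ → 0 < σ → q + τ • (y - q) ∈ Γ →
      q + σ • (y - q) ∈ Γ → τ = σ := fun y _ τ σ hτ hσ h1 h2 =>
    DMO_uniq hq hq2 hO y τ σ hτ hσ h1 h2
  obtain ⟨hop, hbd, hfr, hqW, hstar, hin, hout⟩ := str hΓc hqΓ hex huniq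
  have hdisj : ∀ u : V2, ‖u‖ < 1 → S.X u ∉ Disc := by
    intro u hu h
    apply hO u hu 1 one_pos
    rw [one_smul, add_sub_cancel]
    exact h
  have hline : ∀ x : V3, Tendsto (fun s : ℝ => q + s • (x - q)) (𝓝 1) (𝓝 x) := by
    intro x
    have h : Tendsto (fun s : ℝ => q + s • (x - q)) (𝓝 1) (𝓝 (q + (1 : ℝ) • (x - q))) :=
      (continuous_const.add (continuous_id.smul continuous_const)).tendsto 1
    rwa [one_smul, add_sub_cancel] at h
  have hWc : ∀ u : V2, ‖u‖ < 1 → S.X u ∈ closure (strW Γ q) := by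
    intro u hu
    refine mem_closure_of_tendsto ((hline (S.X u)).mono_left
      (nhdsWithin_le_nhds (s := Iio 1))) ?_
    filter_upwards [Ioo_mem_nhdsLT (show (0 : ℝ) < 1 from one_pos)] with s hs
    exact hin _ (Or.inl (S.mem_Sig hu.le)) s hs.1 hs.2
  have hEc : ∀ u : V2, ‖u‖ < 1 → S.X u ∈ closure ((closure (strW Γ q))ᶜ) := by
    intro u hu
    refine mem_closure_of_tendsto ((hline (S.X u)).mono_left
      (nhdsWithin_le_nhds (s := Ioi 1))) ?_
    filter_upwards [self_mem_nhdsWithin] with s hs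
    exact hout _ (Or.inl (S.mem_Sig hu.le)) s hs
  have hD : ∀ d : V3, d 2 = 0 → d 0 ^ 2 + d 1 ^ 2 < 1 → ∃ ε : ℝ, 0 < ε ∧ ∀ s : ℝ, 0 < s → s < ε →
      d - s • E3 ∈ strW Γ q ∧ d + s • E3 ∉ closure (strW Γ q) := by
    intro d hd2 hd1
    -- the radius is `< 1` near `τ = 1`
    have hφ : ∀ᶠ τ : ℝ in 𝓝 1, (q 0 + τ * (d 0 - q 0)) ^ 2 + (q 1 + τ * (d 1 - q 1)) ^ 2 < 1 := by
      have hc : Continuous fun τ : ℝ =>
          (q 0 + τ * (d 0 - q 0)) ^ 2 + (q 1 + τ * (d 1 - q 1)) ^ 2 := by fun_prop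
      have h0 : (fun τ : ℝ =>
          (q 0 + τ * (d 0 - q 0)) ^ 2 + (q 1 + τ * (d 1 - q 1)) ^ 2) 1 < 1 := by
        simp only
        have e : (q 0 + 1 * (d 0 - q 0)) ^ 2 + (q 1 + 1 * (d 1 - q 1)) ^ 2 =
            d 0 ^ 2 + d 1 ^ 2 := by ring
        rw [e]
        exact hd1
      exact hc.continuousAt.eventually_lt_const h0
    have ht1 : Tendsto (fun s : ℝ => -(q 2) / (-(q 2) - s)) (𝓝 0) (𝓝 1) := by
      have hc : ContinuousAt (fun s : ℝ => -(q 2) / (-(q 2) - s)) 0 := by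
        refine continuousAt_const.div (continuousAt_const.sub continuousAt_id) ?_
        simp only [id, sub_zero]
        linarith
      have := hc.tendsto
      rwa [sub_zero, div_self (by linarith : -(q 2) ≠ 0)] at this
    have ht2 : Tendsto (fun s : ℝ => -(q 2) / (-(q 2) + s)) (𝓝 0) (𝓝 1) := by
      have hc : ContinuousAt (fun s : ℝ => -(q 2) / (-(q 2) + s)) 0 := by
        refine continuousAt_const.div (continuousAt_const.add continuousAt_id) ?_
        simp only [id, add_zero]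
        linarith
      have := hc.tendsto
      rwa [add_zero, div_self (by linarith : -(q 2) ≠ 0)] at this
    obtain ⟨ε, hε, hball⟩ := Metric.eventually_nhds_iff.1
      ((ht1.eventually hφ).and (ht2.eventually hφ))
    refine ⟨min ε (-(q 2)), lt_min hε (by linarith), fun s hs0 hs => ?_⟩
    have hs1 : s < ε := hs.trans_le (min_le_left _ _)
    have hs2 : s < -(q 2) := hs.trans_le (min_le_right _ _)
    obtain ⟨a1, a2⟩ := hball (y := s) (by rw [Real.dist_eq, sub_zero, abs_of_pos hs0]; exact hs1)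
    have hp1 : 0 < -(q 2) - s := by linarith
    have hp2 : 0 < -(q 2) + s := by linarith
    constructor
    · -- below the disc
      set τ : ℝ := -(q 2) / (-(q 2) - s) with hτ
      have hτ1 : 1 < τ := by
        rw [hτ, lt_div_iff₀ hp1]
        linarith
      have hmem : q + τ • ((d - s • E3) - q) ∈ Disc := by
        constructor
        · simp only [PiLp.add_apply, PiLp.smul_apply, PiLp.sub_apply, smul_eq_mul, E3_2, hd2]
          rw [hτ]
          field_simp
          ring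
        · simp only [PiLp.add_apply, PiLp.smul_apply, PiLp.sub_apply, smul_eq_mul, E3_0, E3_1,
            mul_zero, sub_zero]
          exact a1.le
      intro s' hs' hs'1 hmem'
      have := DMO_uniq hq hq2 hO _ τ s' (by linarith) hs' (Or.inr hmem) hmem'
      linarith
    · -- above the disc
      set τ : ℝ := -(q 2) / (-(q 2) + s) with hτ
      have hτ0 : 0 < τ := by
        rw [hτ]
        apply div_pos <;> linarith
      have hτ1 : τ < 1 := by
        rw [hτ, div_lt_one hp2]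
        linarith
      have hmem : q + τ • ((d + s • E3) - q) ∈ Disc := by
        constructor
        · simp only [PiLp.add_apply, PiLp.smul_apply, PiLp.sub_apply, smul_eq_mul, E3_2, hd2]
          rw [hτ]
          field_simp
          ring
        · simp only [PiLp.add_apply, PiLp.smul_apply, PiLp.sub_apply, smul_eq_mul, E3_0, E3_1,
            mul_zero, add_zero]
          exact a2.le
      have h3 := hout _ (Or.inr hmem) (1 / τ) (by rw [lt_div_iff₀ hτ0]; linarith)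
      have e : q + (1 / τ) • (q + τ • ((d + s • E3) - q) - q) = d + s • E3 := by
        rw [add_sub_cancel_left, smul_smul, one_div, inv_mul_cancel₀ hτ0.ne', one_smul]
        abel
      rwa [e] at h3
  have hlow : ∃ u : V2, ‖u‖ < 1 ∧ (S.X u) 2 < 0 := by
    have hne : q - E3 ≠ q := by
      intro h
      have := congrArg (fun v : V3 => v 2) h
      simp at this
    have h1 : ∀ τ : ℝ, 0 < τ → q + τ • ((q - E3) - q) ∉ Disc := by
      intro τ hτ h
      have h2 := h.1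
      simp only [PiLp.add_apply, PiLp.smul_apply, PiLp.sub_apply, smul_eq_mul, E3_2] at h2
      linarith
    obtain ⟨u, hu, τ, hτ, h3⟩ := rayO hq hq2 hO hne h1
    refine ⟨u, hu, ?_⟩
    rw [← h3]
    simp only [PiLp.add_apply, PiLp.smul_apply, PiLp.sub_apply, smul_eq_mul, E3_2]
    linarith
  obtain ⟨P, hP⟩ := mkp S hop hbd hfr hdisj hWc hEc hD hlow
  have hst : ∀ y ∈ closure P.W, ∀ s : ℝ, 0 ≤ s → s ≤ 1 → q + s • (y - q) ∈ closure P.W := by
    rw [hP]
    exact hstar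
  refine ⟨{ P with
    nE := ?_ }, ⟨hq2, hst⟩, ?_⟩
  · intro u hu hN
    have h1 := DMO_wst1 P hst hu.le
    rw [hN, ip] at h1
    simp only [PiLp.sub_apply, E3_0, E3_1, E3_2, (S.bd1 hu).1] at h1
    linarith
  · change q ∈ P.W
    rw [hP]
    exact hqW

end Pool.Agent.H99.SC
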