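import Pool.Agent.H99.SC.RTZ
import Pool.Agent.H99.SC.KK
import Pool.Agent.H99.SC.ORI

/-!
# DRW: radial derivative of the reflected defining function at a boundary point

`R = refl (nh φ) 0`, `‖u₁‖ = ‖v₁‖ = 1`, `X v₁ = R (X u₁)`, `B` a box at `v₁`, `w u = B.f (R (X u))`.
`fderiv w u₁ u₁ = ⟪g, R Xr⟫` (`fderiv_w` in file DI, or directly `fd` and the chain rule), `g = ‖g‖ N v₁` (`g_eq`,
`b (X v₁) = v₁`), `Xr = β nu u₁ + γ TT (X u₁)` (`Xr_decomp`), `R (TT (X u₁)) = - TT (X v₁)` is orthogonal to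
`N v₁`, `R (nu u₁) = N_3 (X v₁) - N_r E3` (`N_3, N_r` at `u₁`), so
`⟪N v₁, R Xr⟫ = β (N_r(v₁) N_3(u₁) - N_3(v₁) N_r(u₁))` and `kk_id`.
Consequence `drw_sign`: with `β > 0` (`ori`), `‖g‖ > 0`, `1 - N_3 > 0`: the sign of the radial derivative is
the sign of `-(kk u₁ - kk v₁)(1 + kk u₁ kk v₁)`.
-/

set_option autoImplicit false

open scoped RealInnerProductSpace Topology
open Metric Filter Set

noncomputable section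

namespace Pool.Agent.H99.SC

theorem DRW_mem {S : Surf} {v₁ : V2} {e : V3} (B : Box S.X v₁ e) : S.X v₁ ∈ B.U B.r :=
  ⟨v₁, 0, by simpa using B.hr, by simpa using B.hr, by simp⟩

theorem DRW_E3 (a : V3) : ⟪a, E3⟫ = a 2 := by
  rw [ip, E3_0, E3_1, E3_2]
  ring

theorem DRW_fderiv {S : Surf} {φ : ℝ} {u₁ v₁ : V2}
    (hx : S.X v₁ = refl (nh φ) 0 (S.X u₁)) {e : V3} (B : Box S.X v₁ e) (a : V2) :
    fderiv ℝ (fun u => B.f (refl (nh φ) 0 (S.X u))) u₁ a =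
      ⟪B.g (S.X v₁), rl (nh φ) (fderiv ℝ S.X u₁ a)⟫ := by
  have hX : HasFDerivAt S.X (fderiv ℝ S.X u₁) u₁ :=
    ((S.smooth.differentiable (by norm_num)) u₁).hasFDerivAt
  have h1 : HasFDerivAt (fun x => refl (nh φ) 0 (S.X x))
      (fderiv ℝ (fun x => refl (nh φ) 0 (S.X x)) u₁) u₁ := by
    apply DifferentiableAt.hasFDerivAt
    have := ((contDiff_refl (nh φ) 0).differentiable (by simp)).comp
      (S.smooth.differentiable (by norm_num))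
    exact this u₁
  have h2 : HasFDerivAt B.f (fderiv ℝ B.f (S.X v₁)) (refl (nh φ) 0 (S.X u₁)) := by
    rw [← hx]
    exact ((B.smooth_f (DRW_mem B)).differentiableAt (by norm_num)).hasFDerivAt
  have h3 := h2.comp u₁ h1
  have h4 : HasFDerivAt (fun u => B.f (refl (nh φ) 0 (S.X u)))
      ((fderiv ℝ B.f (S.X v₁)).comp (fderiv ℝ (fun x => refl (nh φ) 0 (S.X x)) u₁)) u₁ := h3
  rw [h4.fderiv, ContinuousLinearMap.comp_apply,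
    fderiv_refl_comp (nh φ) 0 hX.differentiableAt, B.fd S.smooth (DRW_mem B)]

theorem drw {S : Surf} (D : Dom S) {φ : ℝ} {u₁ v₁ : V2} (hu₁ : ‖u₁‖ = 1) (hv₁ : ‖v₁‖ = 1)
    (hx : S.X v₁ = refl (nh φ) 0 (S.X u₁)) {e : V3} (B : Box S.X v₁ e) :
    fderiv ℝ (fun u => B.f (refl (nh φ) 0 (S.X u))) u₁ u₁
      = -(‖B.g (S.X v₁)‖ * ⟪fderiv ℝ S.X u₁ u₁, S.nu u₁⟫ * ((S.kk u₁ - S.kk v₁)
        * (1 + S.kk u₁ * S.kk v₁) * (1 - S.N u₁ 2) * (1 - S.N v₁ 2) / 2)) := by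
  rw [DRW_fderiv hx B, ← Surf.kk_id D hu₁ hv₁, B.g_eq (DRW_mem B),
    B.b_X (by simpa using B.hr)]
  have hN : NN S.X v₁ = S.N v₁ := rfl
  rw [hN, inner_smul_left]
  have h1 : rl (nh φ) (fderiv ℝ S.X u₁ u₁) =
      ⟪fderiv ℝ S.X u₁ u₁, S.nu u₁⟫ • ((S.N u₁ 2) • S.X v₁ - (S.Nr u₁) • E3) -
        ⟪fderiv ℝ S.X u₁ u₁, TT (S.X u₁)⟫ • TT (S.X v₁) := by
    conv_lhs => rw [S.Xr_decomp hu₁]
    rw [rl_add, rl_smul, rl_smul, ← refl0_eq φ (TT (S.X u₁)), refl0_TT, ← hx]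
    have h2 : rl (nh φ) (S.nu u₁) = (S.N u₁ 2) • S.X v₁ - (S.Nr u₁) • E3 := by
      unfold Surf.nu
      rw [sub_eq_add_neg, rl_add, rl_neg, rl_smul, rl_smul, ← refl0_eq, ← refl0_eq,
        refl0_E3, ← hx, ← sub_eq_add_neg]
    rw [h2, smul_neg, ← sub_eq_add_neg]
  rw [h1, inner_sub_right, inner_smul_right, inner_smul_right, inner_sub_right,
    inner_smul_right, inner_smul_right, S.N_TT hv₁, DRW_E3]
  have h3 : ⟪S.N v₁, S.X v₁⟫ = S.Nr v₁ := rfl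
  have h4 : ‖B.g (S.X v₁)‖ = ‖‖B.g (S.X v₁)‖ • S.N v₁‖ := by
    rw [norm_smul, S.N_norm hv₁.le, mul_one, norm_norm]
  rw [h3, ← h4]
  simp only [RCLike.conj_to_real]
  ring

theorem drw_neg {S : Surf} (D : Dom S) {φ : ℝ} {u₁ v₁ : V2} (hu₁ : ‖u₁‖ = 1) (hv₁ : ‖v₁‖ = 1)
    (hx : S.X v₁ = refl (nh φ) 0 (S.X u₁)) {e : V3} (B : Box S.X v₁ e)
    (hk : S.kk v₁ < S.kk u₁) (hk' : 0 < 1 + S.kk u₁ * S.kk v₁) :
    fderiv ℝ (fun u => B.f (refl (nh φ) 0 (S.X u))) u₁ u₁ < 0 := by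
  rw [drw D hu₁ hv₁ hx B]
  have h1 : 0 < ‖B.g (S.X v₁)‖ := B.g_pos (DRW_mem B)
  have h2 := ori D.toPreDom hu₁
  have h3 : 0 < 1 - S.N u₁ 2 := sub_pos.2 (Surf.N3_lt D hu₁)
  have h4 : 0 < 1 - S.N v₁ 2 := sub_pos.2 (Surf.N3_lt D hv₁)
  have h5 : 0 < S.kk u₁ - S.kk v₁ := sub_pos.2 hk
  have : 0 < ‖B.g (S.X v₁)‖ * ⟪fderiv ℝ S.X u₁ u₁, S.nu u₁⟫ * ((S.kk u₁ - S.kk v₁)
        * (1 + S.kk u₁ * S.kk v₁) * (1 - S.N u₁ 2) * (1 - S.N v₁ 2) / 2) := by positivity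
  linarith

theorem drw_pos {S : Surf} (D : Dom S) {φ : ℝ} {u₁ v₁ : V2} (hu₁ : ‖u₁‖ = 1) (hv₁ : ‖v₁‖ = 1)
    (hx : S.X v₁ = refl (nh φ) 0 (S.X u₁)) {e : V3} (B : Box S.X v₁ e)
    (hk : S.kk u₁ < S.kk v₁) (hk' : 0 < 1 + S.kk u₁ * S.kk v₁) :
    0 < fderiv ℝ (fun u => B.f (refl (nh φ) 0 (S.X u))) u₁ u₁ := by
  rw [drw D hu₁ hv₁ hx B]
  have h1 : 0 < ‖B.g (S.X v₁)‖ := B.g_pos (DRW_mem B)
  have h2 := ori D.toPreDom hu₁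
  have h3 : 0 < 1 - S.N u₁ 2 := sub_pos.2 (Surf.N3_lt D hu₁)
  have h4 : 0 < 1 - S.N v₁ 2 := sub_pos.2 (Surf.N3_lt D hv₁)
  have h5 : 0 < S.kk v₁ - S.kk u₁ := sub_pos.2 hk
  have : 0 < ‖B.g (S.X v₁)‖ * ⟪fderiv ℝ S.X u₁ u₁, S.nu u₁⟫ * ((S.kk v₁ - S.kk u₁)
        * (1 + S.kk u₁ * S.kk v₁) * (1 - S.N u₁ 2) * (1 - S.N v₁ 2) / 2) := by positivity
  have h6 : -(‖B.g (S.X v₁)‖ * ⟪fderiv ℝ S.X u₁ u₁, S.nu u₁⟫ * ((S.kk u₁ - S.kk v₁)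
        * (1 + S.kk u₁ * S.kk v₁) * (1 - S.N u₁ 2) * (1 - S.N v₁ 2) / 2)) =
      ‖B.g (S.X v₁)‖ * ⟪fderiv ℝ S.X u₁ u₁, S.nu u₁⟫ * ((S.kk v₁ - S.kk u₁)
        * (1 + S.kk u₁ * S.kk v₁) * (1 - S.N u₁ 2) * (1 - S.N v₁ 2) / 2) := by ring
  rw [h6]
  exact this

end Pool.Agent.H99.SC
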