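import Mathlib

/-!
# Star-shaped CMC discs spanning a circle (MP_d93d9b_gt, frozen statement S14043): definitions

Paper proof: /team-store/H99_d93d9b.md . Everything lives in V2 (parameters) and V3 (space).
-/

set_option autoImplicit false

open scoped RealInnerProductSpace Topology
open Metric Filter Set

noncomputable section

namespace Pool.Agent.H99.SC

/-- parameter plane -/
abbrev V2 := EuclideanSpace ℝ (Fin 2)
/-- space -/
abbrev V3 := EuclideanSpace ℝ (Fin 3)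

def e0 : V2 := EuclideanSpace.single 0 1
def e1 : V2 := EuclideanSpace.single 1 1
/-- the vertical unit vector -/
def E3 : V3 := !₂[0, 0, 1]

/-- cross product -/
def cr (a b : V3) : V3 :=
  !₂[a 1 * b 2 - a 2 * b 1, a 2 * b 0 - a 0 * b 2, a 0 * b 1 - a 1 * b 0]

/-- second derivative as a bilinear expression -/
def D2 {E F : Type*} [NormedAddCommGroup E] [NormedSpace ℝ E] [NormedAddCommGroup F]
    [NormedSpace ℝ F] (f : E → F) (x a b : E) : F := fderiv ℝ (fderiv ℝ f) x a b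

/-- trace of a bilinear form on V3 -/
def tr3 (Q : V3 →L[ℝ] V3 →L[ℝ] ℝ) : ℝ :=
  Q (EuclideanSpace.single 0 1) (EuclideanSpace.single 0 1)
    + Q (EuclideanSpace.single 1 1) (EuclideanSpace.single 1 1)
    + Q (EuclideanSpace.single 2 1) (EuclideanSpace.single 2 1)

/-- second order operator with coefficients A, B, C in the plane -/
def Ell (A B C : V2 → ℝ) (w : V2 → ℝ) (x : V2) : ℝ :=
  A x * D2 w x e0 e0 + 2 * B x * D2 w x e0 e1 + C x * D2 w x e1 e1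

/-- `|X_v|^2` -/
def cA (X : V2 → V3) (u : V2) : ℝ := ⟪fderiv ℝ X u e1, fderiv ℝ X u e1⟫
/-- `- X_u . X_v` -/
def cB (X : V2 → V3) (u : V2) : ℝ := -⟪fderiv ℝ X u e0, fderiv ℝ X u e1⟫
/-- `|X_u|^2` -/
def cC (X : V2 → V3) (u : V2) : ℝ := ⟪fderiv ℝ X u e0, fderiv ℝ X u e0⟫

/-- `|X_v|^2 w_uu - 2 (X_u . X_v) w_uv + |X_u|^2 w_vv`, for real or vector valued `w` -/
def Lop (X : V2 → V3) {F : Type*} [NormedAddCommGroup F] [NormedSpace ℝ F]
    (w : V2 → F) (u : V2) : F :=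
  cA X u • D2 w u e0 e0 + (2 * cB X u) • D2 w u e0 e1 + cC X u • D2 w u e1 e1

/-- `X_u x X_v` -/
def nn (X : V2 → V3) (u : V2) : V3 := cr (fderiv ℝ X u e0) (fderiv ℝ X u e1)
/-- unit normal -/
def NN (X : V2 → V3) (u : V2) : V3 := ‖nn X u‖⁻¹ • nn X u

/-- a C^2 embedded disc of constant mean curvature `H > 0` spanning the unit circle of the
horizontal plane -/
structure Surf where
  X : V2 → V3
  H : ℝ
  smooth : ContDiff ℝ 2 X
  imm : ∀ u : V2, ‖u‖ ≤ 1 → nn X u ≠ 0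
  inj : ∀ u v : V2, ‖u‖ ≤ 1 → ‖v‖ ≤ 1 → X u = X v → u = v
  Hpos : 0 < H
  bd : ∀ y : V3, (∃ u : V2, ‖u‖ = 1 ∧ X u = y) ↔ (y 2 = 0 ∧ y 0 ^ 2 + y 1 ^ 2 = 1)
  cmc : ∀ u : V2, ‖u‖ < 1 → ⟪Lop X X u, nn X u⟫ = 2 * H * ‖nn X u‖ ^ 3

/-- the surface, as a set -/
def Surf.Sig (S : Surf) : Set V3 := {y | ∃ u : V2, ‖u‖ ≤ 1 ∧ S.X u = y}

/-- unit normal of a surface -/
def Surf.N (S : Surf) (u : V2) : V3 := NN S.X u

/-- the closed unit disc in the horizontal plane -/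
def Disc : Set V3 := {y | y 2 = 0 ∧ y 0 ^ 2 + y 1 ^ 2 ≤ 1}

/-- reflection in the plane `<n,y> = t` (for a unit vector `n`) -/
def refl (n : V3) (t : ℝ) (y : V3) : V3 := y - (2 * (⟪n, y⟫ - t)) • n

/-- its linear part -/
def rl (n : V3) (v : V3) : V3 := v - (2 * ⟪n, v⟫) • n

/-- a bounded domain bounded by the surface and the disc, the normal pointing inwards and the
domain lying below the disc -/
structure PreDom (S : Surf) where
  W : Set V3
  isOpen : IsOpen W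
  bdd : Bornology.IsBounded W
  fr : frontier W ⊆ S.Sig ∪ Disc
  disj : ∀ u : V2, ‖u‖ < 1 → S.X u ∉ Disc
  inS : ∀ u : V2, ‖u‖ < 1 → ∃ ε : ℝ, 0 < ε ∧ ∀ s : ℝ, 0 < s → s < ε →
    S.X u + s • S.N u ∈ W ∧ S.X u - s • S.N u ∉ closure W
  inD : ∀ d : V3, d 2 = 0 → d 0 ^ 2 + d 1 ^ 2 < 1 → ∃ ε : ℝ, 0 < ε ∧ ∀ s : ℝ, 0 < s → s < ε →
    d - s • E3 ∈ W ∧ d + s • E3 ∉ closure W

/-- a domain whose angle with the disc along the circle is not zero -/
structure Dom (S : Surf) extends PreDom S where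
  nE : ∀ u : V2, ‖u‖ = 1 → S.N u ≠ E3

/-- the reflected part of the surface lies in the closed domain -/
def SS {S : Surf} (D : Dom S) (n : V3) (t : ℝ) : Prop :=
  ∀ u : V2, ‖u‖ ≤ 1 → t ≤ ⟪n, S.X u⟫ → refl n t (S.X u) ∈ closure D.W

/-- horizontal unit vector of angle `φ` -/
def nh (φ : ℝ) : V3 := !₂[Real.cos φ, Real.sin φ, 0]

/-- point of the parameter circle -/
def cu (ψ : ℝ) : V2 := !₂[Real.cos ψ, Real.sin ψ]

/-- rotation by a right angle in the parameter plane -/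
def rot (u : V2) : V2 := !₂[-(u 1), u 0]

/-- tangent vector of the circle at `p` -/
def TT (p : V3) : V3 := !₂[-(p 1), p 0, 0]

/-- radial component of the normal at a boundary point -/
def Surf.Nr (S : Surf) (u : V2) : ℝ := ⟪S.N u, S.X u⟫

/-- outward conormal at a boundary point (once the orientation lemma is known) -/
def Surf.nu (S : Surf) (u : V2) : V3 := (S.N u 2) • S.X u - (S.Nr u) • E3

/-- `cot (θ/2)` -/
def Surf.kk (S : Surf) (u : V2) : ℝ := -(S.Nr u) / (1 - S.N u 2)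

/-- local inverse of `(u,s) ↦ X u + s e`; all estimates are stated on the sets `U ε` below -/
structure Box (X : V2 → V3) (u₀ : V2) (e : V3) where
  b : V3 → V2
  f : V3 → ℝ
  r : ℝ
  hr : 0 < r
  pos : ∀ u : V2, ‖u - u₀‖ < r → 0 < ⟪nn X u, e⟫
  left : ∀ (u : V2) (s : ℝ), ‖u - u₀‖ < r → |s| < r →
    b (X u + s • e) = u ∧ f (X u + s • e) = s
  isOpen : ∀ ε : ℝ, 0 < ε → ε ≤ r →
    IsOpen {y : V3 | ∃ (u : V2) (s : ℝ), ‖u - u₀‖ < ε ∧ |s| < ε ∧ X u + s • e = y}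
  sb : ∀ (u : V2) (s : ℝ), ‖u - u₀‖ < r → |s| < r → ContDiffAt ℝ 2 b (X u + s • e)
  sf : ∀ (u : V2) (s : ℝ), ‖u - u₀‖ < r → |s| < r → ContDiffAt ℝ 2 f (X u + s • e)

/-- the box neighbourhood of size `ε` -/
def Box.U {X : V2 → V3} {u₀ : V2} {e : V3} (_B : Box X u₀ e) (ε : ℝ) : Set V3 :=
  {y | ∃ (u : V2) (s : ℝ), ‖u - u₀‖ < ε ∧ |s| < ε ∧ X u + s • e = y}

/-- gradient of the defining function of a box -/
def Box.g {X : V2 → V3} {u₀ : V2} {e : V3} (B : Box X u₀ e) (y : V3) : V3 :=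
  (⟪nn X (B.b y), e⟫)⁻¹ • nn X (B.b y)

/-- weak star centre below the horizontal plane -/
def WStar {S : Surf} (D : Dom S) (z : V3) : Prop :=
  z 2 < 0 ∧ ∀ y ∈ closure D.W, ∀ s : ℝ, 0 ≤ s → s ≤ 1 → z + s • (y - z) ∈ closure D.W

/-- the ray condition of the problem -/
def StarAt (S : Surf) (q : V3) : Prop :=
  ∀ v : V3, v ≠ 0 → ∀ s t : ℝ, 0 ≤ s → 0 ≤ t → q + s • v ∈ S.Sig → q + t • v ∈ S.Sig → s = t

/-! ### elementary facts -/

theorem ip (a b : V3) : ⟪a, b⟫ = a 0 * b 0 + a 1 * b 1 + a 2 * b 2 := by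
  simp [PiLp.inner_apply, Fin.sum_univ_three, mul_comm]

theorem ip2 (a b : V2) : ⟪a, b⟫ = a 0 * b 0 + a 1 * b 1 := by
  simp [PiLp.inner_apply, Fin.sum_univ_two, mul_comm]

theorem nsq (a : V3) : ‖a‖ ^ 2 = a 0 ^ 2 + a 1 ^ 2 + a 2 ^ 2 := by
  rw [← real_inner_self_eq_norm_sq, ip]; ring

theorem nsq2 (a : V2) : ‖a‖ ^ 2 = a 0 ^ 2 + a 1 ^ 2 := by
  rw [← real_inner_self_eq_norm_sq, ip2]; ring

theorem ext3 (a b : V3) (h0 : a 0 = b 0) (h1 : a 1 = b 1) (h2 : a 2 = b 2) : a = b := by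
  ext i; fin_cases i <;> assumption

theorem ext2 (a b : V2) (h0 : a 0 = b 0) (h1 : a 1 = b 1) : a = b := by
  ext i; fin_cases i <;> assumption

@[simp] theorem cr_0 (a b : V3) : (cr a b) 0 = a 1 * b 2 - a 2 * b 1 := by simp [cr]
@[simp] theorem cr_1 (a b : V3) : (cr a b) 1 = a 2 * b 0 - a 0 * b 2 := by simp [cr]
@[simp] theorem cr_2 (a b : V3) : (cr a b) 2 = a 0 * b 1 - a 1 * b 0 := by simp [cr]
@[simp] theorem E3_0 : E3 0 = 0 := by simp [E3]
@[simp] theorem E3_1 : E3 1 = 0 := by simp [E3]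
@[simp] theorem E3_2 : E3 2 = 1 := by simp [E3]
@[simp] theorem e0_0 : e0 0 = 1 := by simp [e0]
@[simp] theorem e0_1 : e0 1 = 0 := by simp [e0]
@[simp] theorem e1_0 : e1 0 = 0 := by simp [e1]
@[simp] theorem e1_1 : e1 1 = 1 := by simp [e1]
@[simp] theorem nh_0 (φ : ℝ) : (nh φ) 0 = Real.cos φ := by simp [nh]
@[simp] theorem nh_1 (φ : ℝ) : (nh φ) 1 = Real.sin φ := by simp [nh]
@[simp] theorem nh_2 (φ : ℝ) : (nh φ) 2 = 0 := by simp [nh]
@[simp] theorem cu_0 (φ : ℝ) : (cu φ) 0 = Real.cos φ := by simp [cu]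
@[simp] theorem cu_1 (φ : ℝ) : (cu φ) 1 = Real.sin φ := by simp [cu]
@[simp] theorem rot_0 (u : V2) : (rot u) 0 = -(u 1) := by simp [rot]
@[simp] theorem rot_1 (u : V2) : (rot u) 1 = u 0 := by simp [rot]
@[simp] theorem TT_0 (p : V3) : (TT p) 0 = -(p 1) := by simp [TT]
@[simp] theorem TT_1 (p : V3) : (TT p) 1 = p 0 := by simp [TT]
@[simp] theorem TT_2 (p : V3) : (TT p) 2 = 0 := by simp [TT]

theorem V2_decomp (u : V2) : u = u 0 • e0 + u 1 • e1 := by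
  apply ext2 <;> simp

end Pool.Agent.H99.SC
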