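import Pool.Agent.H99.SC.Defs

/-! # LA: linear algebra in V3 -/

set_option autoImplicit false

open scoped RealInnerProductSpace Topology
open Metric Filter Set

noncomputable section

namespace Pool.Agent.H99.SC

theorem cr_inner_left (a b : V3) : ⟪cr a b, a⟫ = 0 := by simp only [ip, cr_0, cr_1, cr_2]; ring
theorem cr_inner_right (a b : V3) : ⟪cr a b, b⟫ = 0 := by simp only [ip, cr_0, cr_1, cr_2]; ring
theorem cr_lag (a b c d : V3) : ⟪cr a b, cr c d⟫ = ⟪a, c⟫ * ⟪b, d⟫ - ⟪a, d⟫ * ⟪b, c⟫ := by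
  simp only [ip, cr_0, cr_1, cr_2]; ring
theorem cr_norm_sq (a b : V3) : ‖cr a b‖ ^ 2 = ‖a‖ ^ 2 * ‖b‖ ^ 2 - ⟪a, b⟫ ^ 2 := by
  simp only [nsq, ip, cr_0, cr_1, cr_2]; ring
theorem cr_self (a : V3) : cr a a = 0 := by
  apply ext3 <;> simp <;> ring
theorem cr_swap (a b : V3) : cr b a = -cr a b := by
  apply ext3 <;> simp <;> ring
theorem cr_add_left (a b c : V3) : cr (a + b) c = cr a c + cr b c := by
  apply ext3 <;> simp <;> ring
theorem cr_add_right (a b c : V3) : cr a (b + c) = cr a b + cr a c := by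
  apply ext3 <;> simp <;> ring
theorem cr_sub_left (a b c : V3) : cr (a - b) c = cr a c - cr b c := by
  apply ext3 <;> simp <;> ring
theorem cr_sub_right (a b c : V3) : cr a (b - c) = cr a b - cr a c := by
  apply ext3 <;> simp <;> ring
theorem cr_smul_left (t : ℝ) (a b : V3) : cr (t • a) b = t • cr a b := by
  apply ext3 <;> simp <;> ring
theorem cr_smul_right (t : ℝ) (a b : V3) : cr a (t • b) = t • cr a b := by
  apply ext3 <;> simp <;> ring
theorem cr_neg_left (a b : V3) : cr (-a) b = -cr a b := by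
  apply ext3 <;> simp <;> ring
theorem cr_neg_right (a b : V3) : cr a (-b) = -cr a b := by
  apply ext3 <;> simp <;> ring
theorem cr_cr (a b c : V3) : cr a (cr b c) = ⟪a, c⟫ • b - ⟪a, b⟫ • c := by
  apply ext3 <;> simp [ip] <;> ring
theorem cr_triple (a b c : V3) : ⟪cr a b, c⟫ = ⟪a, cr b c⟫ := by
  simp only [ip, cr_0, cr_1, cr_2]; ring

/-- decomposition of a vector along `a`, `b`, `a x b` -/
theorem decomp (a b v : V3) : (‖cr a b‖ ^ 2) • v = ⟪v, cr a b⟫ • cr a b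
    + (‖b‖ ^ 2 * ⟪v, a⟫ - ⟪a, b⟫ * ⟪v, b⟫) • a + (‖a‖ ^ 2 * ⟪v, b⟫ - ⟪a, b⟫ * ⟪v, a⟫) • b := by
  apply ext3 <;> simp [nsq, ip] <;> ring

theorem V3_decomp (u : V3) : u = u 0 • (EuclideanSpace.single 0 1 : V3)
    + u 1 • (EuclideanSpace.single 1 1 : V3) + u 2 • (EuclideanSpace.single 2 1 : V3) := by
  apply ext3 <;> simp

/-- trace identity -/
theorem tr_identity (Q : V3 →L[ℝ] V3 →L[ℝ] ℝ) (hQ : ∀ x y : V3, Q x y = Q y x) (a b : V3) :
    ‖b‖ ^ 2 * Q a a - 2 * ⟪a, b⟫ * Q a b + ‖a‖ ^ 2 * Q b b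
      = ‖cr a b‖ ^ 2 * tr3 Q - Q (cr a b) (cr a b) := by
  set E0 : V3 := EuclideanSpace.single 0 1 with hE0
  set E1 : V3 := EuclideanSpace.single 1 1 with hE1
  set E2 : V3 := EuclideanSpace.single 2 1 with hE2
  have key : ∀ x y : V3, Q x y = x 0 * (y 0 * Q E0 E0 + y 1 * Q E0 E1 + y 2 * Q E0 E2)
      + x 1 * (y 0 * Q E1 E0 + y 1 * Q E1 E1 + y 2 * Q E1 E2)
      + x 2 * (y 0 * Q E2 E0 + y 1 * Q E2 E1 + y 2 * Q E2 E2) := by
    intro x y
    conv_lhs => rw [V3_decomp x, V3_decomp y]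
    simp only [map_add, map_smul, add_apply, smul_apply, smul_eq_mul]
    simp only [← hE0, ← hE1, ← hE2]
    ring
  have h10 : Q E1 E0 = Q E0 E1 := hQ _ _
  have h20 : Q E2 E0 = Q E0 E2 := hQ _ _
  have h21 : Q E2 E1 = Q E1 E2 := hQ _ _
  rw [key a a, key a b, key b b, key (cr a b) (cr a b)]
  unfold tr3
  rw [← hE0, ← hE1, ← hE2, h10, h20, h21]
  simp only [nsq, ip, cr_0, cr_1, cr_2]
  ring

theorem inner_refl (n : V3) (hn : ‖n‖ = 1) (t : ℝ) (y : V3) : ⟪n, refl n t y⟫ = 2 * t - ⟪n, y⟫ := by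
  have : ⟪n, n⟫ = 1 := by rw [real_inner_self_eq_norm_sq, hn]; norm_num
  unfold refl
  rw [inner_sub_right, inner_smul_right, this]; ring

theorem refl_refl (n : V3) (hn : ‖n‖ = 1) (t : ℝ) (y : V3) : refl n t (refl n t y) = y := by
  have := inner_refl n hn t y
  unfold refl at *
  rw [this]
  rw [sub_sub, ← add_smul]
  have : (2 * (⟪n, y⟫ - t) + 2 * (2 * t - ⟪n, y⟫ - t)) = 0 := by ring
  rw [this]; simp

theorem refl_sub (n : V3) (t : ℝ) (x y : V3) : refl n t x - refl n t y = rl n (x - y) := by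
  unfold refl rl
  rw [inner_sub_right]
  module

theorem refl_add (n : V3) (t : ℝ) (x v : V3) : refl n t (x + v) = refl n t x + rl n v := by
  unfold refl rl
  rw [inner_add_right]
  module

theorem rl_inner (n : V3) (hn : ‖n‖ = 1) (a b : V3) : ⟪rl n a, rl n b⟫ = ⟪a, b⟫ := by
  have h : ⟪n, n⟫ = 1 := by rw [real_inner_self_eq_norm_sq, hn]; norm_num
  unfold rl
  simp only [inner_sub_left, inner_sub_right, inner_smul_left, inner_smul_right, h,
    real_inner_comm n a, RCLike.conj_to_real]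
  ring

theorem rl_norm (n : V3) (hn : ‖n‖ = 1) (a : V3) : ‖rl n a‖ = ‖a‖ := by
  have := rl_inner n hn a a
  rw [real_inner_self_eq_norm_sq, real_inner_self_eq_norm_sq] at this
  exact (sq_eq_sq₀ (norm_nonneg _) (norm_nonneg _)).1 this

theorem rl_rl (n : V3) (hn : ‖n‖ = 1) (v : V3) : rl n (rl n v) = v := by
  have h : ⟪n, n⟫ = 1 := by rw [real_inner_self_eq_norm_sq, hn]; norm_num
  unfold rl
  rw [inner_sub_right, inner_smul_right, h]
  module

theorem rl_add (n a b : V3) : rl n (a + b) = rl n a + rl n b := by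
  unfold rl; rw [inner_add_right]; module
theorem rl_smul (n : V3) (c : ℝ) (a : V3) : rl n (c • a) = c • rl n a := by
  unfold rl; rw [inner_smul_right]; module
theorem rl_neg (n a : V3) : rl n (-a) = -rl n a := by
  unfold rl; rw [inner_neg_right]; module

theorem rl_cr (n : V3) (hn : ‖n‖ = 1) (a b : V3) : cr (rl n a) (rl n b) = -rl n (cr a b) := by
  have h : n 0 ^ 2 + n 1 ^ 2 + n 2 ^ 2 = 1 := by rw [← nsq, hn]; norm_num
  unfold rl
  apply ext3
  · simp [ip]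
    linear_combination (-2 * (a 1 * b 2 - a 2 * b 1)) * h
  · simp [ip]
    linear_combination (-2 * (a 2 * b 0 - a 0 * b 2)) * h
  · simp [ip]
    linear_combination (-2 * (a 0 * b 1 - a 1 * b 0)) * h

/-- the linear part of the reflection as a continuous linear map -/
def rlL (n : V3) : V3 →L[ℝ] V3 :=
  ContinuousLinearMap.id ℝ V3 - (2 : ℝ) • ((innerSL ℝ n).smulRight n)

theorem rlL_apply (n v : V3) : rlL n v = rl n v := by
  unfold rlL rl
  simp [smul_smul]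

/-- a unit vector orthogonal to `a` and `b` is a unit normal -/
theorem unit_normal {a b m : V3} (h : cr a b ≠ 0) (hm : ‖m‖ = 1) (ha : ⟪m, a⟫ = 0)
    (hb : ⟪m, b⟫ = 0) : m = ‖cr a b‖⁻¹ • cr a b ∨ m = -(‖cr a b‖⁻¹ • cr a b) := by
  have hd := decomp a b m
  rw [ha, hb] at hd
  simp only [mul_zero, sub_zero, zero_smul, add_zero] at hd
  have hpos : 0 < ‖cr a b‖ := norm_pos_iff.2 h
  set c := ‖cr a b‖ with hc
  have hm2 : m = (c⁻¹ ^ 2 * ⟪m, cr a b⟫) • cr a b := by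
    have h1 : (c ^ 2)⁻¹ • ((c ^ 2) • m) = m := by
      rw [smul_smul, inv_mul_cancel₀ (by positivity), one_smul]
    rw [hd, smul_smul] at h1
    rw [inv_pow]
    exact h1.symm
  have hn : |c⁻¹ ^ 2 * ⟪m, cr a b⟫| * c = 1 := by
    have := congrArg norm hm2
    rw [hm, norm_smul, Real.norm_eq_abs, ← hc] at this
    exact this.symm
  rcases abs_cases (c⁻¹ ^ 2 * ⟪m, cr a b⟫) with ⟨h1, _⟩ | ⟨h1, _⟩
  · left
    rw [h1] at hn
    have : c⁻¹ ^ 2 * ⟪m, cr a b⟫ = c⁻¹ := by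
      field_simp at hn ⊢
      linarith
    rw [← this]; exact hm2
  · right
    rw [h1] at hn
    have : c⁻¹ ^ 2 * ⟪m, cr a b⟫ = -c⁻¹ := by
      field_simp at hn ⊢
      linarith
    rw [← neg_smul, ← this]; exact hm2

end Pool.Agent.H99.SC
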