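import Pool.Agent.H99.SC.SF
import Pool.Agent.H99.SC.LA

/-!
# FLP: turning a surface upside down

`rx y = (y 0, -y 1, -y 2)` is a rotation: linear, `⟪rx a, rx b⟫ = ⟪a,b⟫`, `cr (rx a) (rx b) = rx (cr a b)`, `rx (rx y) = y`.
`flipS S` has `X u = rx (S.X u)`, same `H`: `fderiv (rx ∘ X) u a = rx (fderiv X u a)`, `D2 (rx ∘ X) u a b = rx (D2 X u a b)`,
so `nn`, `Lop X X` are mapped by `rx`, `cA, cB, cC` are the same.  `bd`: `rx` preserves the circle.
-/

set_option autoImplicit false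

open scoped RealInnerProductSpace Topology
open Metric Filter Set

noncomputable section

namespace Pool.Agent.H99.SC

def rx (y : V3) : V3 := !₂[y 0, -(y 1), -(y 2)]

@[simp] theorem rx_0 (y : V3) : (rx y) 0 = y 0 := by simp [rx]
@[simp] theorem rx_1 (y : V3) : (rx y) 1 = -(y 1) := by simp [rx]
@[simp] theorem rx_2 (y : V3) : (rx y) 2 = -(y 2) := by simp [rx]

theorem rx_rx (y : V3) : rx (rx y) = y := by
  apply ext3 <;> simp

theorem FLP_add (a b : V3) : rx (a + b) = rx a + rx b := by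
  apply ext3 <;> simp <;> ring

theorem FLP_smul (c : ℝ) (a : V3) : rx (c • a) = c • rx a := by
  apply ext3 <;> simp

theorem FLP_sub (a b : V3) : rx (a - b) = rx a - rx b := by
  apply ext3 <;> simp <;> ring

theorem FLP_clm : ∃ R : V3 →L[ℝ] V3, ∀ v, R v = rx v := by
  let R0 : V3 →ₗ[ℝ] V3 :=
    { toFun := rx, map_add' := FLP_add, map_smul' := fun c a => FLP_smul c a }
  exact ⟨LinearMap.toContinuousLinearMap R0, fun v => rfl⟩

theorem FLP_inner (a b : V3) : ⟪rx a, rx b⟫ = ⟪a, b⟫ := by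
  simp only [ip, rx_0, rx_1, rx_2]
  ring

theorem FLP_norm (a : V3) : ‖rx a‖ = ‖a‖ := by
  have h : ‖rx a‖ ^ 2 = ‖a‖ ^ 2 := by
    rw [← real_inner_self_eq_norm_sq, FLP_inner, real_inner_self_eq_norm_sq]
  exact (pow_left_inj₀ (norm_nonneg _) (norm_nonneg _) (by norm_num)).1 h

theorem FLP_cr (a b : V3) : cr (rx a) (rx b) = rx (cr a b) := by
  apply ext3 <;> simp only [cr_0, cr_1, cr_2, rx_0, rx_1, rx_2] <;> ring

theorem FLP_ne {a : V3} (h : a ≠ 0) : rx a ≠ 0 := by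
  intro h0
  apply h
  rw [← norm_eq_zero, ← FLP_norm, h0, norm_zero]

theorem FLP_fderiv {X : V2 → V3} (hX : ContDiff ℝ 2 X) (u a : V2) :
    fderiv ℝ (fun x => rx (X x)) u a = rx (fderiv ℝ X u a) := by
  obtain ⟨R, hR⟩ := FLP_clm
  have h1 : (fun x => rx (X x)) = fun x => R (X x) := by
    funext x; rw [hR]
  rw [h1]
  have h2 : HasFDerivAt (fun x => R (X x)) (R.comp (fderiv ℝ X u)) u :=
    R.hasFDerivAt.comp u (hX.differentiable (by norm_num) u).hasFDerivAt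
  rw [h2.fderiv]
  simp [hR]

theorem FLP_D2 {X : V2 → V3} (hX : ContDiff ℝ 2 X) (u a b : V2) :
    D2 (fun x => rx (X x)) u a b = rx (D2 X u a b) := by
  obtain ⟨R, hR⟩ := FLP_clm
  have h1 : (fderiv ℝ fun x => rx (X x)) = fun x => R.comp (fderiv ℝ X x) := by
    funext x
    ext1 c
    rw [FLP_fderiv hX x c]
    simp [hR]
  have h2 : HasFDerivAt (fun x => R.comp (fderiv ℝ X x))
      (((ContinuousLinearMap.compL ℝ V2 V3 V3) R).comp (fderiv ℝ (fderiv ℝ X) u)) u :=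
    ((ContinuousLinearMap.compL ℝ V2 V3 V3) R).hasFDerivAt.comp u
      (CAL_diff_fderiv hX.contDiffAt).hasFDerivAt
  unfold D2
  rw [h1, h2.fderiv]
  simp [hR]

theorem FLP_nn {X : V2 → V3} (hX : ContDiff ℝ 2 X) (u : V2) :
    nn (fun x => rx (X x)) u = rx (nn X u) := by
  unfold nn
  rw [FLP_fderiv hX, FLP_fderiv hX, FLP_cr]

theorem FLP_Lop {X : V2 → V3} (hX : ContDiff ℝ 2 X) (u : V2) :
    Lop (fun x => rx (X x)) (fun x => rx (X x)) u = rx (Lop X X u) := by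
  unfold Lop cA cB cC
  simp only [FLP_fderiv hX, FLP_D2 hX, FLP_inner, FLP_add, FLP_smul]

theorem exists_flip (S : Surf) : ∃ S' : Surf, S'.H = S.H ∧ ∀ u : V2, S'.X u = rx (S.X u) := by
  obtain ⟨R, hR⟩ := FLP_clm
  refine ⟨{
    X := fun u => rx (S.X u)
    H := S.H
    smooth := ?_
    imm := ?_
    inj := ?_
    Hpos := S.Hpos
    bd := ?_
    cmc := ?_ }, rfl, fun _ => rfl⟩
  · have h1 : (fun x => rx (S.X x)) = fun x => R (S.X x) := by
      funext x; rw [hR]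
    rw [h1]
    exact R.contDiff.comp S.smooth
  · intro u hu
    rw [FLP_nn S.smooth]
    exact FLP_ne (S.imm u hu)
  · intro u v hu hv h
    apply S.inj u v hu hv
    rw [← rx_rx (S.X u), h, rx_rx]
  · intro y
    have h1 : (∃ u : V2, ‖u‖ = 1 ∧ rx (S.X u) = y) ↔ ∃ u : V2, ‖u‖ = 1 ∧ S.X u = rx y := by
      constructor
      · rintro ⟨u, hu, rfl⟩
        exact ⟨u, hu, (rx_rx _).symm⟩
      · rintro ⟨u, hu, h⟩
        exact ⟨u, hu, by rw [h, rx_rx]⟩
    rw [h1, S.bd (rx y)]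
    simp
  · intro u hu
    rw [FLP_nn S.smooth, FLP_Lop S.smooth, FLP_inner, FLP_norm]
    exact S.cmc u hu

theorem flip_star {S S' : Surf} (h : ∀ u : V2, S'.X u = rx (S.X u)) {q : V3} (hq : StarAt S q) :
    StarAt S' (rx q) := by
  have key : ∀ (v : V3) (s : ℝ), rx q + s • v ∈ S'.Sig → q + s • rx v ∈ S.Sig := by
    rintro v s ⟨u, hu, hy⟩
    refine ⟨u, hu, ?_⟩
    rw [h] at hy
    rw [← rx_rx (S.X u), hy, FLP_add, FLP_smul, rx_rx]
  intro v hv s t hs ht h1 h2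
  exact hq (rx v) (FLP_ne hv) s t hs ht (key v s h1) (key v t h2)

theorem flip_sphere {S S' : Surf} (hH : S'.H = S.H) (h : ∀ u : V2, S'.X u = rx (S.X u))
    (hs : ∃ c : V3, ∀ u : V2, ‖u‖ ≤ 1 → ‖S'.X u - c‖ = S'.H⁻¹) :
    ∃ c : V3, ∀ u : V2, ‖u‖ ≤ 1 → ‖S.X u - c‖ = S.H⁻¹ := by
  obtain ⟨c, hc⟩ := hs
  refine ⟨rx c, fun u hu => ?_⟩
  have h1 := hc u hu
  rw [h, hH] at h1
  rw [← h1, ← FLP_norm (S.X u - rx c), FLP_sub, rx_rx]

end Pool.Agent.H99.SC
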