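import Pool.Agent.H99.SC.BOX

/-!
# FP: first and second derivatives of the defining function of a box

`fd`: differentiate `f (X u + s e) = s`: `Df(y)(fderiv X (b y) a) = 0` and `Df(y) e = 1` at
`y = X (b y) + f y e`.  The functional `v ↦ ⟪g y, v⟫` has the same values; the vectors
`fderiv X (b y) a` and `e` span V3 (`decomp`: `|nn|^2 v = ⟪v,nn⟫ nn + ..`, and `e` has a nonzero component
along `nn`).
`db`: `Db(y)(fderiv X (b y) a + s e) = a`.
`pdef`: differentiate `f (X u + s e) = s` twice in `u` (apply `D2_comp` to `Y u = X u + s e` with the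
constant `s = f y`): `0 = D2 f y (X_a) (X_b) + Df(y) (D2 X u a b)`.  Take the combination defining
`Lop`: by `tr_identity` (with `a = X_u`, `b = X_v`)
`‖nn‖^2 tr3 Q - Q nn nn = - Df(y)(Lop X X u) = - ⟪nn, Lop X X u⟫ / ⟪nn,e⟫ = -2 H ‖nn‖^3 / ⟪nn,e⟫`
with `Q = D2 f y` and `u = b y`; divide by `‖nn‖^2` and note `‖g y‖ = ‖nn‖ / ⟪nn,e⟫`.
-/

set_option autoImplicit false

open scoped RealInnerProductSpace Topology
open Metric Filter Set

noncomputable section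

namespace Pool.Agent.H99.SC

namespace Box
variable {X : V2 → V3} {u₀ : V2} {e : V3} (B : Box X u₀ e)

theorem pos' {y : V3} (hy : y ∈ B.U B.r) : 0 < ⟪nn X (B.b y), e⟫ :=
  B.pos _ (B.coord le_rfl hy).1

theorem nn_ne {y : V3} (hy : y ∈ B.U B.r) : nn X (B.b y) ≠ 0 := by
  intro h
  have := B.pos' hy
  rw [h, inner_zero_left] at this
  exact lt_irrefl _ this

/-- near `b y` the box coordinates of `X x + f y • e` are `(x, f y)` -/
theorem FP_near {y : V3} (hy : y ∈ B.U B.r) :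
    ∀ᶠ x in 𝓝 (B.b y), B.b (X x + B.f y • e) = x ∧ B.f (X x + B.f y • e) = B.f y := by
  obtain ⟨h1, h2, _⟩ := B.coord le_rfl hy
  have h3 : ∀ᶠ x in 𝓝 (B.b y), x ∈ ball u₀ B.r :=
    isOpen_ball.mem_nhds (mem_ball_iff_norm.2 h1)
  filter_upwards [h3] with x hx
  exact B.left x (B.f y) (mem_ball_iff_norm.1 hx) h2

theorem FP_near' {y : V3} (hy : y ∈ B.U B.r) :
    ∀ᶠ t in 𝓝 (B.f y), B.b (X (B.b y) + t • e) = B.b y ∧ B.f (X (B.b y) + t • e) = t := by
  obtain ⟨h1, h2, _⟩ := B.coord le_rfl hy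
  have h3 : ∀ᶠ t in 𝓝 (B.f y), |t| < B.r := continuous_abs.continuousAt.eventually_lt_const h2
  filter_upwards [h3] with t ht
  exact B.left (B.b y) t h1 ht

theorem FP_Y (hX : ContDiff ℝ 2 X) (y : V3) (x : V2) :
    HasFDerivAt (fun x => X x + B.f y • e) (fderiv ℝ X x) x :=
  (((hX.differentiable (by norm_num)) x).hasFDerivAt).add_const _

theorem FP_line (y : V3) : HasFDerivAt (fun t : ℝ => X (B.b y) + t • e)
    ((ContinuousLinearMap.id ℝ ℝ).smulRight e) (B.f y) :=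
  ((hasFDerivAt_id (𝕜 := ℝ) (B.f y)).smul_const e).const_add _

theorem FP_f_tan (hX : ContDiff ℝ 2 X) {y : V3} (hy : y ∈ B.U B.r) (a : V2) :
    fderiv ℝ B.f y (fderiv ℝ X (B.b y) a) = 0 := by
  have hc := (B.coord le_rfl hy).2.2
  have hf : HasFDerivAt B.f (fderiv ℝ B.f y) (X (B.b y) + B.f y • e) := by
    rw [hc]
    exact ((B.smooth_f hy).differentiableAt (by norm_num)).hasFDerivAt
  have h1 := hf.comp (B.b y) (B.FP_Y hX y (B.b y))
  have h2 : HasFDerivAt (fun _ : V2 => B.f y) (0 : V2 →L[ℝ] ℝ) (B.b y) := hasFDerivAt_const _ _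
  have h3 : HasFDerivAt (B.f ∘ fun x => X x + B.f y • e) (0 : V2 →L[ℝ] ℝ) (B.b y) :=
    h2.congr_of_eventuallyEq ((B.FP_near hy).mono fun x hx => hx.2)
  have h4 := h1.unique h3
  exact congrArg (fun L : V2 →L[ℝ] ℝ => L a) h4

theorem FP_f_e {y : V3} (hy : y ∈ B.U B.r) : fderiv ℝ B.f y e = 1 := by
  have hc := (B.coord le_rfl hy).2.2
  have hf : HasFDerivAt B.f (fderiv ℝ B.f y) (X (B.b y) + B.f y • e) := by
    rw [hc]
    exact ((B.smooth_f hy).differentiableAt (by norm_num)).hasFDerivAt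
  have h1 := hf.comp (B.f y) (B.FP_line y)
  have h2 : HasFDerivAt (fun t : ℝ => t) (ContinuousLinearMap.id ℝ ℝ) (B.f y) := hasFDerivAt_id _
  have h3 : HasFDerivAt (B.f ∘ fun t : ℝ => X (B.b y) + t • e) (ContinuousLinearMap.id ℝ ℝ)
      (B.f y) := h2.congr_of_eventuallyEq ((B.FP_near' hy).mono fun x hx => hx.2)
  have h4 := h1.unique h3
  have h5 := congrArg (fun L : ℝ →L[ℝ] ℝ => L 1) h4
  simpa using h5

theorem FP_b_tan (hX : ContDiff ℝ 2 X) {y : V3} (hy : y ∈ B.U B.r) (a : V2) :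
    fderiv ℝ B.b y (fderiv ℝ X (B.b y) a) = a := by
  have hc := (B.coord le_rfl hy).2.2
  have hf : HasFDerivAt B.b (fderiv ℝ B.b y) (X (B.b y) + B.f y • e) := by
    rw [hc]
    exact ((B.smooth_b hy).differentiableAt (by norm_num)).hasFDerivAt
  have h1 := hf.comp (B.b y) (B.FP_Y hX y (B.b y))
  have h2 : HasFDerivAt (fun x : V2 => x) (ContinuousLinearMap.id ℝ V2) (B.b y) := hasFDerivAt_id _
  have h3 : HasFDerivAt (B.b ∘ fun x => X x + B.f y • e) (ContinuousLinearMap.id ℝ V2) (B.b y) :=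
    h2.congr_of_eventuallyEq ((B.FP_near hy).mono fun x hx => hx.1)
  have h4 := h1.unique h3
  exact congrArg (fun L : V2 →L[ℝ] V2 => L a) h4

theorem FP_b_e {y : V3} (hy : y ∈ B.U B.r) : fderiv ℝ B.b y e = 0 := by
  have hc := (B.coord le_rfl hy).2.2
  have hf : HasFDerivAt B.b (fderiv ℝ B.b y) (X (B.b y) + B.f y • e) := by
    rw [hc]
    exact ((B.smooth_b hy).differentiableAt (by norm_num)).hasFDerivAt
  have h1 := hf.comp (B.f y) (B.FP_line y)
  have h2 : HasFDerivAt (fun _ : ℝ => B.b y) (0 : ℝ →L[ℝ] V2) (B.f y) := hasFDerivAt_const _ _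
  have h3 : HasFDerivAt (B.b ∘ fun t : ℝ => X (B.b y) + t • e) (0 : ℝ →L[ℝ] V2)
      (B.f y) := h2.congr_of_eventuallyEq ((B.FP_near' hy).mono fun x hx => hx.1)
  have h4 := h1.unique h3
  have h5 := congrArg (fun L : ℝ →L[ℝ] V2 => L 1) h4
  simpa using h5

/-- the gradient of `f` -/
theorem fd (hX : ContDiff ℝ 2 X) {y : V3} (hy : y ∈ B.U B.r) (v : V3) :
    fderiv ℝ B.f y v = ⟪B.g y, v⟫ := by
  have hp := B.pos' hy
  have hn : 0 < ‖nn X (B.b y)‖ := norm_pos_iff.2 (B.nn_ne hy)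
  have t0 := B.FP_f_tan hX hy e0
  have t1 := B.FP_f_tan hX hy e1
  have te := B.FP_f_e hy
  have d1 := congrArg (fderiv ℝ B.f y) (decomp (fderiv ℝ X (B.b y) e0) (fderiv ℝ X (B.b y) e1) v)
  have d2 := congrArg (fderiv ℝ B.f y) (decomp (fderiv ℝ X (B.b y) e0) (fderiv ℝ X (B.b y) e1) e)
  have hnn : cr (fderiv ℝ X (B.b y) e0) (fderiv ℝ X (B.b y) e1) = nn X (B.b y) := rfl
  rw [hnn] at d1 d2
  simp only [map_add, map_smul, smul_eq_mul, t0, t1, te, mul_zero, add_zero, mul_one] at d1 d2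
  unfold Box.g
  rw [real_inner_smul_left, real_inner_comm v]
  rw [real_inner_comm] at hp
  rw [real_inner_comm e]
  have hp' := hp.ne'
  have hn' : ‖nn X (B.b y)‖ ^ 2 ≠ 0 := by positivity
  rw [inv_mul_eq_div, eq_div_iff hp']
  refine mul_left_cancel₀ hn' ?_
  linear_combination ⟪e, nn X (B.b y)⟫ * d1 - ⟪v, nn X (B.b y)⟫ * d2

/-- the derivative of `b` -/
theorem db (hX : ContDiff ℝ 2 X) {y : V3} (hy : y ∈ B.U B.r) (a : V2) (s : ℝ) :
    fderiv ℝ B.b y (fderiv ℝ X (B.b y) a + s • e) = a := by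
  rw [map_add, map_smul, B.FP_b_tan hX hy, B.FP_b_e hy, smul_zero, add_zero]

theorem FP_norm_g {y : V3} (hy : y ∈ B.U B.r) :
    ‖B.g y‖ = ⟪nn X (B.b y), e⟫⁻¹ * ‖nn X (B.b y)‖ := by
  have hp := B.pos' hy
  unfold Box.g
  rw [norm_smul, Real.norm_eq_abs, abs_of_pos (inv_pos.2 hp)]

/-- the gradient is a positive multiple of the unit normal -/
theorem g_eq {y : V3} (hy : y ∈ B.U B.r) : B.g y = ‖B.g y‖ • NN X (B.b y) := by
  have hn : 0 < ‖nn X (B.b y)‖ := norm_pos_iff.2 (B.nn_ne hy)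
  rw [B.FP_norm_g hy]
  unfold Box.g NN
  rw [smul_smul, mul_assoc, mul_inv_cancel₀ hn.ne', mul_one]

theorem g_pos {y : V3} (hy : y ∈ B.U B.r) : 0 < ‖B.g y‖ := by
  have hn : 0 < ‖nn X (B.b y)‖ := norm_pos_iff.2 (B.nn_ne hy)
  rw [B.FP_norm_g hy]
  exact mul_pos (inv_pos.2 (B.pos' hy)) hn

theorem g_cont (hX : ContDiff ℝ 2 X) {y : V3} (hy : y ∈ B.U B.r) : ContinuousAt B.g y := by
  have hb : ContinuousAt B.b y := (B.smooth_b hy).continuousAt
  have hn : ContinuousAt (fun y => nn X (B.b y)) y :=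
    ContinuousAt.comp (g := nn X) (f := B.b) (contDiff_nn hX).continuous.continuousAt hb
  unfold Box.g
  exact ((hn.inner continuousAt_const).inv₀ (B.pos' hy).ne').smul hn

end Box

/-- the level sets of `f` have mean curvature `H` -/
theorem pdef (S : Surf) {u₀ : V2} {e : V3} (B : Box S.X u₀ e) {y : V3} (hy : y ∈ B.U B.r)
    (hb : ‖B.b y‖ < 1) :
    tr3 (fderiv ℝ (fderiv ℝ B.f) y) - D2 B.f y (S.N (B.b y)) (S.N (B.b y))
      = -2 * S.H * ‖B.g y‖ := by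
  have hX := S.smooth
  have hp := B.pos' hy
  have hn : 0 < ‖nn S.X (B.b y)‖ := norm_pos_iff.2 (B.nn_ne hy)
  have hc := (B.coord le_rfl hy).2.2
  have hf := B.smooth_f hy
  set u := B.b y with hu
  set Y : V2 → V3 := fun x => S.X x + B.f y • e with hY
  have hYu : Y u = y := hc
  have hYs : ContDiffAt ℝ 2 Y u := (hX.contDiffAt).add contDiffAt_const
  have hDY : ∀ x, fderiv ℝ Y x = fderiv ℝ S.X x := fun x => (B.FP_Y hX y x).fderiv
  have hDY' : fderiv ℝ Y = fderiv ℝ S.X := funext hDY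
  have key : ∀ a b : V2, D2 B.f y (fderiv ℝ S.X u a) (fderiv ℝ S.X u b) =
      -⟪B.g y, D2 S.X u a b⟫ := by
    intro a b
    have h1 := D2_comp (f := B.f) (Y := Y) (u := u) (by rw [hYu]; exact hf) hYs a b
    have h2 : D2 (fun x => B.f (Y x)) u a b = 0 := by
      have h3 : (fun x => B.f (Y x)) =ᶠ[𝓝 u] fun _ => B.f y :=
        (B.FP_near hy).mono fun x hx => hx.2
      have h4 := h3.fderiv (𝕜 := ℝ)
      unfold D2
      rw [h4.fderiv_eq]
      simp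
    rw [h2, hYu, hDY] at h1
    have h5 : D2 Y u a b = D2 S.X u a b := by
      unfold D2
      rw [hDY']
    rw [h5, B.fd hX hy] at h1
    linarith
  set Q := fderiv ℝ (fderiv ℝ B.f) y with hQ
  have hQs : ∀ a b : V3, Q a b = Q b a := fun a b => D2_symm hf a b
  have hkey : ∀ a b : V2, Q (fderiv ℝ S.X u a) (fderiv ℝ S.X u b) = -⟪B.g y, D2 S.X u a b⟫ := key
  have h1 := tr_identity Q hQs (fderiv ℝ S.X u e0) (fderiv ℝ S.X u e1)
  rw [hkey, hkey, hkey] at h1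
  have hnn : cr (fderiv ℝ S.X u e0) (fderiv ℝ S.X u e1) = nn S.X u := rfl
  rw [hnn] at h1
  have h2 := S.cmc u hb
  have h3 : ⟪B.g y, Lop S.X S.X u⟫ = ⟪nn S.X u, e⟫⁻¹ * (2 * S.H * ‖nn S.X u‖ ^ 3) := by
    rw [← h2]
    change ⟪(⟪nn S.X u, e⟫)⁻¹ • nn S.X u, Lop S.X S.X u⟫ = _
    rw [real_inner_smul_left, real_inner_comm (Lop S.X S.X u)]
  have h4 : ⟪B.g y, Lop S.X S.X u⟫ = ‖fderiv ℝ S.X u e1‖ ^ 2 * ⟪B.g y, D2 S.X u e0 e0⟫ -
      2 * ⟪fderiv ℝ S.X u e0, fderiv ℝ S.X u e1⟫ * ⟪B.g y, D2 S.X u e0 e1⟫ +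
      ‖fderiv ℝ S.X u e0‖ ^ 2 * ⟪B.g y, D2 S.X u e1 e1⟫ := by
    unfold Lop cA cB cC
    rw [inner_add_right, inner_add_right, real_inner_smul_right, real_inner_smul_right,
      real_inner_smul_right, real_inner_self_eq_norm_sq, real_inner_self_eq_norm_sq]
    ring
  have h5 : Q (nn S.X u) (nn S.X u) = ‖nn S.X u‖ ^ 2 * D2 B.f y (S.N u) (S.N u) := by
    have h6 : nn S.X u = ‖nn S.X u‖ • S.N u := by
      change nn S.X u = ‖nn S.X u‖ • (‖nn S.X u‖⁻¹ • nn S.X u)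
      rw [smul_smul, mul_inv_cancel₀ hn.ne', one_smul]
    conv_lhs => rw [h6]
    rw [map_smul, map_smul, smul_apply, smul_eq_mul, smul_eq_mul]
    unfold D2
    ring
  have h7 : ‖nn S.X u‖ ^ 2 * (tr3 Q - D2 B.f y (S.N u) (S.N u)) =
      ‖nn S.X u‖ ^ 2 * (-2 * S.H * ‖B.g y‖) := by
    have h8 := B.FP_norm_g hy
    rw [← hu] at h8
    rw [h8]
    rw [h5] at h1
    rw [h3] at h4
    linear_combination -h1 + h4
  exact mul_left_cancel₀ (by positivity) h7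

end Pool.Agent.H99.SC
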