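import Pool.Agent.H99.SC.RAD
import Pool.Agent.H99.SC.GC1
import Pool.Agent.H99.SC.LSIG

/-!
# GC2: signs near a boundary point

`‖u₀‖ = 1`, `p = S.X u₀`.
`h3_neg`: `(fderiv X u₀ u₀) 2 > 0` implies `(X u) 2 < 0` inside, `> 0` outside (near `u₀`): `rad1` for
`F u = -(S.X u) 2`.   `h3_pos`: the opposite sign.
`hr_out`: `⟪fderiv X u₀ u₀, p⟫ < 0` implies `(X u) 0 ^2 + (X u) 1 ^2 > 1` inside, `< 1` outside.
`plane_neg`: for a box at `u₀`, `S.Nr u₀ < 0`: on the horizontal plane near `p`, `f > 0` inside the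
unit circle and `f < 0` outside (`radP`; `Df(p) p = ⟪g, p⟫ = ‖g‖ S.Nr u₀`; `f = 0` on the circle near
`p`: points of the circle are `S.X v` with `‖v‖ = 1` and `v` near `u₀` by `S.emb`).
`plane_pos`: opposite.
-/

set_option autoImplicit false

open scoped RealInnerProductSpace Topology
open Metric Filter Set

noncomputable section

namespace Pool.Agent.H99.SC

/-- derivative of a component of the parametrisation -/
theorem GC2_comp (S : Surf) (i : Fin 3) (u : V2) : HasFDerivAt (fun u => (S.X u) i)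
    ((EuclideanSpace.proj i : V3 →L[ℝ] ℝ).comp (fderiv ℝ S.X u)) u := by
  have h := ((S.smooth.differentiable (by norm_num)) u).hasFDerivAt
  exact (EuclideanSpace.proj i : V3 →L[ℝ] ℝ).hasFDerivAt.comp u h

theorem GC2_cd (S : Surf) (i : Fin 3) (u : V2) : ContDiffAt ℝ 1 (fun u => (S.X u) i) u := by
  have h : ContDiffAt ℝ 1 S.X u := S.smooth.contDiffAt.of_le (by norm_num)
  exact (EuclideanSpace.proj i : V3 →L[ℝ] ℝ).contDiff.contDiffAt.comp u h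

/-- near a boundary point: `f = 0` and `b` in the closed disc characterise the surface -/
theorem box_sig' (S : Surf) {u₀ : V2} (hu₀ : ‖u₀‖ = 1) {e : V3} (B : Box S.X u₀ e) :
    ∀ᶠ y in 𝓝 (S.X u₀), (y ∈ S.Sig ↔ (B.f y = 0 ∧ ‖B.b y‖ ≤ 1)) := by
  obtain ⟨ε, h1, h2, -, h4⟩ := box_sig S hu₀.le B
  filter_upwards [B.U_nhds h1 h2] with y hy using h4 y hy

theorem h3_neg (S : Surf) {u₀ : V2} (hu₀ : ‖u₀‖ = 1) (h : 0 < (fderiv ℝ S.X u₀ u₀) 2) :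
    ∀ᶠ u in 𝓝 u₀, (‖u‖ < 1 → (S.X u) 2 < 0) ∧ (1 < ‖u‖ → 0 < (S.X u) 2) := by
  have hd := (GC2_comp S 2 u₀).neg
  have key := rad1 (F := fun u => -(S.X u) 2) hu₀ (GC2_cd S 2 u₀).neg
    (Eventually.of_forall fun u hu => by rw [(S.bd1 hu).1, neg_zero]) (by
      have e : fderiv ℝ (fun u => -(S.X u) 2) u₀ =
        -((EuclideanSpace.proj 2 : V3 →L[ℝ] ℝ).comp (fderiv ℝ S.X u₀)) := hd.fderiv
      rw [e]
      change -((fderiv ℝ S.X u₀ u₀) 2) < 0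
      linarith)
  filter_upwards [key] with u hu
  exact ⟨fun h => by linarith [hu.1 h], fun h => by linarith [hu.2 h]⟩

theorem h3_pos (S : Surf) {u₀ : V2} (hu₀ : ‖u₀‖ = 1) (h : (fderiv ℝ S.X u₀ u₀) 2 < 0) :
    ∀ᶠ u in 𝓝 u₀, (‖u‖ < 1 → 0 < (S.X u) 2) ∧ (1 < ‖u‖ → (S.X u) 2 < 0) := by
  have hd := GC2_comp S 2 u₀
  exact rad1 (F := fun u => (S.X u) 2) hu₀ (GC2_cd S 2 u₀)
    (Eventually.of_forall fun u hu => (S.bd1 hu).1) (by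
      rw [hd.fderiv]
      exact h)

theorem hr_out (S : Surf) {u₀ : V2} (hu₀ : ‖u₀‖ = 1) (h : ⟪fderiv ℝ S.X u₀ u₀, S.X u₀⟫ < 0) :
    ∀ᶠ u in 𝓝 u₀, (‖u‖ < 1 → 1 < (S.X u) 0 ^ 2 + (S.X u) 1 ^ 2) ∧
      (1 < ‖u‖ → (S.X u) 0 ^ 2 + (S.X u) 1 ^ 2 < 1) := by
  have hd := ((((GC2_comp S 0 u₀).mul (GC2_comp S 0 u₀)).add
    ((GC2_comp S 1 u₀).mul (GC2_comp S 1 u₀)))).sub_const 1
  have hcd : ContDiffAt ℝ 1 (fun u => (S.X u) 0 * (S.X u) 0 + (S.X u) 1 * (S.X u) 1 - 1) u₀ :=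
    (((GC2_cd S 0 u₀).mul (GC2_cd S 0 u₀)).add
      ((GC2_cd S 1 u₀).mul (GC2_cd S 1 u₀))).sub contDiffAt_const
  have key := rad1 (F := fun u => (S.X u) 0 * (S.X u) 0 + (S.X u) 1 * (S.X u) 1 - 1) hu₀ hcd
    (Eventually.of_forall fun u hu => by
      have := (S.bd1 hu).2
      simp only
      nlinarith) (by
      have e := congrArg (fun L : V2 →L[ℝ] ℝ => L u₀) hd.fderiv
      have e2 : fderiv ℝ (fun u => (S.X u) 0 * (S.X u) 0 + (S.X u) 1 * (S.X u) 1 - 1) u₀ u₀ =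
          (S.X u₀) 0 * (fderiv ℝ S.X u₀ u₀) 0 + (S.X u₀) 0 * (fderiv ℝ S.X u₀ u₀) 0 +
          ((S.X u₀) 1 * (fderiv ℝ S.X u₀ u₀) 1 + (S.X u₀) 1 * (fderiv ℝ S.X u₀ u₀) 1) := e
      rw [e2]
      rw [ip, (S.bd1 hu₀).1] at h
      linarith)
  filter_upwards [key] with u hu
  exact ⟨fun h => by nlinarith [hu.1 h], fun h => by nlinarith [hu.2 h]⟩

/-- the derivative of `f` at the boundary point in the direction of the point -/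
theorem GC2_fder (S : Surf) {u₀ : V2} {e : V3} (B : Box S.X u₀ e) :
    ∃ c : ℝ, 0 < c ∧ fderiv ℝ B.f (S.X u₀) (S.X u₀) = c * S.Nr u₀ := by
  have hyU : S.X u₀ ∈ B.U B.r := B.mem_U B.hr
  have hb : B.b (S.X u₀) = u₀ := B.b_X (by simpa using B.hr)
  refine ⟨‖B.g (S.X u₀)‖, B.g_pos hyU, ?_⟩
  rw [B.fd S.smooth hyU]
  have h1 := congrArg (fun w : V3 => ⟪w, S.X u₀⟫) (B.g_eq hyU)
  simp only [hb, inner_smul_left, conj_trivial] at h1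
  exact h1

theorem plane_neg (S : Surf) {u₀ : V2} (hu₀ : ‖u₀‖ = 1) (h : S.Nr u₀ < 0) {e : V3}
    (B : Box S.X u₀ e) : ∀ᶠ y in 𝓝 (S.X u₀), y 2 = 0 →
      (y 0 ^ 2 + y 1 ^ 2 = 1 → B.f y = 0) ∧ (y 0 ^ 2 + y 1 ^ 2 < 1 → 0 < B.f y) ∧
      (1 < y 0 ^ 2 + y 1 ^ 2 → B.f y < 0) := by
  have hyU : S.X u₀ ∈ B.U B.r := B.mem_U B.hr
  have h0 : ∀ᶠ y in 𝓝 (S.X u₀), y 2 = 0 → y 0 ^ 2 + y 1 ^ 2 = 1 → B.f y = 0 := by
    filter_upwards [box_sig' S hu₀ B] with y hy h2 h1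
    obtain ⟨v, hv, hvy⟩ := (S.bd y).2 ⟨h2, h1⟩
    exact (hy.1 ⟨v, hv.le, hvy⟩).1
  obtain ⟨c, hc, hcf⟩ := GC2_fder S B
  have key := radP (S.bd1 hu₀).1 (S.bd1 hu₀).2 ((B.smooth_f hyU).of_le (by norm_num)) h0
    (by rw [hcf]; exact mul_neg_of_pos_of_neg hc h)
  filter_upwards [key, h0] with y hy hy0 h2
  exact ⟨hy0 h2, (hy h2).1, (hy h2).2⟩

theorem plane_pos (S : Surf) {u₀ : V2} (hu₀ : ‖u₀‖ = 1) (h : 0 < S.Nr u₀) {e : V3}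
    (B : Box S.X u₀ e) : ∀ᶠ y in 𝓝 (S.X u₀), y 2 = 0 →
      (y 0 ^ 2 + y 1 ^ 2 = 1 → B.f y = 0) ∧ (y 0 ^ 2 + y 1 ^ 2 < 1 → B.f y < 0) ∧
      (1 < y 0 ^ 2 + y 1 ^ 2 → 0 < B.f y) := by
  have hyU : S.X u₀ ∈ B.U B.r := B.mem_U B.hr
  have h0 : ∀ᶠ y in 𝓝 (S.X u₀), y 2 = 0 → y 0 ^ 2 + y 1 ^ 2 = 1 → B.f y = 0 := by
    filter_upwards [box_sig' S hu₀ B] with y hy h2 h1
    obtain ⟨v, hv, hvy⟩ := (S.bd y).2 ⟨h2, h1⟩
    exact (hy.1 ⟨v, hv.le, hvy⟩).1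
  obtain ⟨c, hc, hcf⟩ := GC2_fder S B
  have hfd := ((B.smooth_f hyU).differentiableAt (by norm_num)).hasFDerivAt.neg
  have key := radP (f := fun y => -B.f y) (S.bd1 hu₀).1 (S.bd1 hu₀).2
    ((B.smooth_f hyU).of_le (by norm_num)).neg (h0.mono fun y hy h2 h1 => by rw [hy h2 h1, neg_zero])
    (by
      have e1 : fderiv ℝ (fun y => -B.f y) (S.X u₀) = -fderiv ℝ B.f (S.X u₀) := hfd.fderiv
      rw [e1]
      change -(fderiv ℝ B.f (S.X u₀) (S.X u₀)) < 0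
      rw [hcf]
      have := mul_pos hc h
      linarith)
  filter_upwards [key, h0] with y hy hy0 h2
  exact ⟨hy0 h2, fun h => by linarith [(hy h2).1 h], fun h => by linarith [(hy h2).2 h]⟩

end Pool.Agent.H99.SC
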