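import Pool.Agent.H99.SC.LSIG
import Pool.Agent.H99.SC.LA

/-!
# KER: the set of weak star centres at a fixed height

`wstar_mid`: `z₁, z₂` weak star centres; midpoint `z`, `y ∈ closure W`, `0 ≤ s ≤ 1`:
`z + s (y - z) = z₁ + ((1+s)/2) (y' - z₁)` with `y' = z₂ + (2s/(1+s)) (y - z₂)` (weights: `(1-s)/2` on `z₁`,
`(1+s)/2` on `y' = ((1-s) z₂ + 2 s y)/(1+s)`), `y' ∈ closure W` by `z₂`, then `z₁`.

`no_open`: a nonempty open set `O ⊆ closure W` contains no point of `S.Sig ∪ Disc`, so `O ⊆ W`: a point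
`X u`, `‖u‖ < 1`, is a limit of `X u - s N u ∉ closure W` (`inS`); a point `X u` with `‖u‖ = 1` is a limit of
interior points `X (r u)`; a point `d` of the open disc is a limit of `d + s E3 ∉ closure W` (`inD`);
points of `Disc` on the circle are in `S.Sig` (`S.bd`).  Then `mem_W_of_closure`.

`wstar_conn`: `q ∈ W` a weak star centre.  For `y ∈ W` and `0 < s ≤ 1` the homothety
`x ↦ q + s (x - q)` maps a neighbourhood of `y` to an open set in `closure W`, so `q + s (y - q) ∈ W` by
`no_open`; also `q ∈ W`.  So `W` is star-shaped about `q` (`StarConvex.isPreconnected` or a union of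
segments).

`wstar_refl`: `R = refl (nh φ) 0` is an involution, a homeomorphism, preserves `Disc` and (by hypothesis
and involution) `S.Sig`; so it preserves `K = S.Sig ∪ Disc`.  `R '' W` is open, preconnected and disjoint from
`K ⊇ frontier W` (`not_mem_W`), and it meets `W`: `- s₀ E3 ∈ W` for small `s₀` (`inD` at 0) and
`R (-s₀ E3) = -s₀ E3`.  So `R '' W ⊆ W` (`sep`), hence `R '' W = W` and `R '' closure W = closure W`.  `R` is affine:
`R (z + s (y - z)) = R z + s (R y - R z)`, and `(R z) 2 = z 2`.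

`wstar_min`: the weak star centres at the height of `q` form a closed set (closure W is closed), inside
`closure W` (take `s = 0`; `closure W` is nonempty), hence compact, nonempty (`q`): minimise.
-/

set_option autoImplicit false

open scoped RealInnerProductSpace Topology
open Metric Filter Set

noncomputable section

namespace Pool.Agent.H99.SC

theorem wstar_mid {S : Surf} {D : Dom S} {z₁ z₂ : V3} (h1 : WStar D z₁) (h2 : WStar D z₂) :
    WStar D ((1 / 2 : ℝ) • (z₁ + z₂)) := by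
  refine ⟨?_, ?_⟩
  · have a1 := h1.1
    have a2 := h2.1
    have : ((1 / 2 : ℝ) • (z₁ + z₂) : V3) 2 = (1 / 2 : ℝ) * (z₁ 2 + z₂ 2) := by
      simp; ring
    rw [this]; linarith
  · intro y hy s hs0 hs1
    have hpos : (0 : ℝ) < 1 + s := by linarith
    set c : ℝ := 2 * s / (1 + s) with hc
    have hc0 : 0 ≤ c := by positivity
    have hc1 : c ≤ 1 := by rw [hc, div_le_one hpos]; linarith
    have hcs : (1 + s) / 2 * c = s := by rw [hc]; field_simp
    have h3 := h2.2 y hy c hc0 hc1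
    have h4 := h1.2 _ h3 ((1 + s) / 2) (by positivity) (by linarith)
    have h5 : (1 / 2 : ℝ) • (z₁ + z₂) + s • (y - (1 / 2 : ℝ) • (z₁ + z₂)) =
        z₁ + ((1 + s) / 2) • (z₂ + c • (y - z₂) - z₁) := by
      have h6 : z₁ + ((1 + s) / 2) • (z₂ + c • (y - z₂) - z₁) =
          z₁ + ((1 + s) / 2) • (z₂ - z₁) + ((1 + s) / 2 * c) • (y - z₂) := by module
      rw [h6, hcs]
      module
    rw [h5]; exact h4

/-- a point of `closure W` off the surface and the disc is in `W` -/
theorem mem_W_of_closure {S : Surf} (D : PreDom S) {y : V3} (hy : y ∈ closure D.W)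
    (h : y ∉ S.Sig ∪ Disc) : y ∈ D.W := by
  by_contra hW
  exact h (D.fr ⟨hy, by rwa [D.isOpen.interior_eq]⟩)

private theorem KER_near {O : Set V3} (hO : IsOpen O) {p : V3} (hp : p ∈ O) (v : V3) {ε : ℝ}
    (hε : 0 < ε) : ∃ s : ℝ, 0 < s ∧ s < ε ∧ p + s • v ∈ O := by
  have hc : ContinuousAt (fun s : ℝ => p + s • v) 0 := by fun_prop
  have h1 : ∀ᶠ s : ℝ in 𝓝 0, p + s • v ∈ O := by
    apply hc.eventually_mem
    rw [zero_smul, add_zero]
    exact hO.mem_nhds hp
  obtain ⟨δ, hδ, h2⟩ := Metric.eventually_nhds_iff_ball.1 h1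
  refine ⟨min δ ε / 2, by positivity, ?_, h2 _ ?_⟩
  · have := min_le_right δ ε
    linarith
  · have h3 := min_le_left δ ε
    have h4 : 0 < min δ ε := lt_min hδ hε
    rw [mem_ball_zero_iff, Real.norm_eq_abs, abs_of_pos (by positivity)]
    linarith

private theorem KER_int {S : Surf} (D : PreDom S) {O : Set V3} (hO : IsOpen O)
    (h : O ⊆ closure D.W) {u : V2} (hu : ‖u‖ < 1) (hy : S.X u ∈ O) : False := by
  obtain ⟨ε, hε, h1⟩ := D.inS u hu
  obtain ⟨s, hs0, hs1, hs2⟩ := KER_near hO hy (-(S.N u)) hε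
  apply (h1 s hs0 hs1).2
  have : S.X u - s • S.N u = S.X u + s • (-(S.N u)) := by rw [smul_neg, sub_eq_add_neg]
  rw [this]
  exact h hs2

private theorem KER_sig {S : Surf} (D : PreDom S) {O : Set V3} (hO : IsOpen O)
    (h : O ⊆ closure D.W) {u : V2} (hu : ‖u‖ ≤ 1) (hy : S.X u ∈ O) : False := by
  rcases hu.lt_or_eq with h1 | h1
  · exact KER_int D hO h h1 hy
  · have hc : ContinuousAt (fun r : ℝ => S.X (r • u)) 1 := by
      have h3 : Continuous fun r : ℝ => r • u := by fun_prop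
      exact (S.smooth.continuous.comp h3).continuousAt
    have h2 : ∀ᶠ r : ℝ in 𝓝 1, S.X (r • u) ∈ O := by
      apply hc.eventually_mem
      rw [one_smul]
      exact hO.mem_nhds hy
    obtain ⟨δ, hδ, h3⟩ := Metric.eventually_nhds_iff_ball.1 h2
    set r : ℝ := 1 - min δ 1 / 2 with hr
    have hm0 : 0 < min δ 1 := lt_min hδ one_pos
    have hm1 : min δ 1 ≤ δ := min_le_left _ _
    have hm2 : min δ 1 ≤ 1 := min_le_right _ _
    have h4 : r ∈ ball (1 : ℝ) δ := by
      rw [mem_ball, dist_eq_norm, hr, Real.norm_eq_abs, abs_of_nonpos (by linarith)]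
      linarith
    have h5 : ‖r • u‖ < 1 := by
      rw [norm_smul, h1, mul_one, Real.norm_eq_abs, abs_of_pos (by linarith)]
      linarith
    exact KER_int D hO h h5 (h3 r h4)

/-- a point of an open set inside `closure W` is in `W` -/
theorem no_open {S : Surf} (D : PreDom S) {O : Set V3} (hO : IsOpen O) (h : O ⊆ closure D.W) :
    O ⊆ D.W := by
  intro y hy
  apply mem_W_of_closure D (h hy)
  rintro (⟨u, hu, hX⟩ | ⟨hy2, hy1⟩)
  · rw [← hX] at hy
    exact KER_sig D hO h hu hy
  · rcases hy1.lt_or_eq with h1 | h1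
    · obtain ⟨ε, hε, h2⟩ := D.inD y hy2 h1
      obtain ⟨s, hs0, hs1, hs2⟩ := KER_near hO hy E3 hε
      exact (h2 s hs0 hs1).2 (h hs2)
    · obtain ⟨u, hu, hX⟩ := (S.bd y).2 ⟨hy2, h1⟩
      rw [← hX] at hy
      exact KER_sig D hO h hu.le hy

/-- `W` is preconnected if it is star-shaped about one of its points -/
theorem wstar_conn {S : Surf} {D : Dom S} {q : V3} (hq : WStar D q) (hqW : q ∈ D.W) :
    IsPreconnected D.W := by
  have hstar : StarConvex ℝ q D.W := by
    intro y hy a b ha hb hab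
    rcases hb.eq_or_lt with h | h
    · have ha1 : a = 1 := by linarith
      rw [← h, ha1, one_smul, zero_smul, add_zero]
      exact hqW
    · set O : Set V3 := (fun x : V3 => q + b⁻¹ • (x - q)) ⁻¹' D.W with hOdef
      have hO : IsOpen O := D.isOpen.preimage (by fun_prop)
      have hOc : O ⊆ closure D.W := by
        intro x hx
        have h1 := hq.2 _ (subset_closure hx) b hb (by linarith)
        have h2 : q + b • (q + b⁻¹ • (x - q) - q) = x := by
          rw [add_sub_cancel_left, smul_smul, mul_inv_cancel₀ h.ne', one_smul, add_sub_cancel]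
        simp only at h1
        rwa [h2] at h1
      apply no_open D.toPreDom hO hOc
      rw [hOdef, mem_preimage]
      have h3 : a • q + b • y - q = b • (y - q) := by
        have : a = 1 - b := by linarith
        rw [this]; module
      rw [h3, smul_smul, inv_mul_cancel₀ h.ne', one_smul, add_sub_cancel]
      exact hy
  exact (StarConvex.isPathConnected hstar hqW).isConnected.isPreconnected

private theorem KER_nh (φ : ℝ) : ‖nh φ‖ = 1 := by
  have h1 : ‖nh φ‖ ^ 2 = 1 := by
    rw [nsq, nh_0, nh_1, nh_2]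
    have := Real.cos_sq_add_sin_sq φ
    linarith
  have h2 : 0 ≤ ‖nh φ‖ := norm_nonneg _
  nlinarith

private theorem KER_refl_zero (n y : V3) : refl n 0 y = rl n y := by
  unfold refl rl
  rw [sub_zero]

private theorem KER_two (φ : ℝ) (y : V3) : (refl (nh φ) 0 y) 2 = y 2 := by
  unfold refl
  simp

private theorem KER_disc {φ : ℝ} {y : V3} (hy : y ∈ Disc) : refl (nh φ) 0 y ∈ Disc := by
  obtain ⟨h2, h1⟩ := hy
  have h3 := KER_two φ y
  refine ⟨by rw [h3]; exact h2, ?_⟩
  have h4 : ‖refl (nh φ) 0 y‖ = ‖y‖ := by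
    rw [KER_refl_zero]; exact rl_norm _ (KER_nh φ) y
  have h5 := nsq (refl (nh φ) 0 y)
  have h6 := nsq y
  rw [h4, h3] at h5
  nlinarith

private theorem KER_cont (φ : ℝ) : Continuous (refl (nh φ) 0) := by
  unfold refl
  fun_prop

private theorem KER_zero_disc {S : Surf} (D : PreDom S) :
    ∃ s : ℝ, 0 < s ∧ (0 : V3) - s • E3 ∈ D.W := by
  obtain ⟨ε, hε, h1⟩ := D.inD 0 (by simp) (by simp)
  exact ⟨ε / 2, by positivity, (h1 (ε / 2) (by positivity) (by linarith)).1⟩

theorem wstar_refl {S : Surf} {D : Dom S} (hW : IsPreconnected D.W) {φ : ℝ}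
    (hsym : ∀ u : V2, ‖u‖ ≤ 1 → refl (nh φ) 0 (S.X u) ∈ S.Sig) {z : V3} (hz : WStar D z) :
    WStar D (refl (nh φ) 0 z) := by
  have hn := KER_nh φ
  have hinv : ∀ y, refl (nh φ) 0 (refl (nh φ) 0 y) = y := refl_refl _ hn 0
  have hK : ∀ y ∈ S.Sig ∪ Disc, refl (nh φ) 0 y ∈ S.Sig ∪ Disc := by
    rintro y (⟨u, hu, hX⟩ | hy)
    · left
      rw [← hX]
      exact hsym u hu
    · right
      exact KER_disc hy
  have hdisj : Disjoint (refl (nh φ) 0 '' D.W) (frontier D.W) := by
    rw [Set.disjoint_left]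
    rintro _ ⟨y, hy, rfl⟩ hfr
    have h1 := hK _ (D.fr hfr)
    rw [hinv] at h1
    exact not_mem_W D.toPreDom h1 hy
  have hsub : refl (nh φ) 0 '' D.W ⊆ D.W := by
    rcases sep D.isOpen (hW.image _ (KER_cont φ).continuousOn) hdisj with h | h
    · exact h
    · exfalso
      obtain ⟨s, hs, hp⟩ := KER_zero_disc D.toPreDom
      have h1 : refl (nh φ) 0 ((0 : V3) - s • E3) = (0 : V3) - s • E3 := by
        unfold refl
        have : ⟪nh φ, (0 : V3) - s • E3⟫ = 0 := by
          rw [ip]; simp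
        rw [this]
        simp
      have h2 := h ⟨_, hp, h1⟩
      exact h2 (subset_closure hp)
  have hcl : ∀ y ∈ closure D.W, refl (nh φ) 0 y ∈ closure D.W := by
    intro y hy
    have h1 := image_closure_subset_closure_image (KER_cont φ) (s := D.W) ⟨y, hy, rfl⟩
    exact closure_mono hsub h1
  refine ⟨by rw [KER_two]; exact hz.1, fun y hy s hs0 hs1 => ?_⟩
  have h1 := hz.2 _ (hcl y hy) s hs0 hs1
  have h2 := hcl _ h1
  rw [refl_add, rl_smul, ← refl_sub _ 0, hinv] at h2
  exact h2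

theorem wstar_min {S : Surf} {D : Dom S} {q : V3} (hq : WStar D q) :
    ∃ z : V3, WStar D z ∧ z 2 = q 2 ∧ ∀ z' : V3, WStar D z' → z' 2 = q 2 →
      z 0 ^ 2 + z 1 ^ 2 ≤ z' 0 ^ 2 + z' 1 ^ 2 := by
  set T : Set V3 := {z | WStar D z ∧ z 2 = q 2} with hT
  obtain ⟨s₀, hs₀, hp₀⟩ := KER_zero_disc D.toPreDom
  have hTe : T = {z : V3 | z 2 = q 2} ∩
      ⋂ y ∈ closure D.W, ⋂ s ∈ Icc (0 : ℝ) 1, {z : V3 | z + s • (y - z) ∈ closure D.W} := by
    ext z
    simp only [hT, mem_ofPred_eq, mem_inter_iff, mem_iInter, mem_Icc]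
    constructor
    · rintro ⟨h1, h2⟩
      exact ⟨h2, fun y hy s hs => h1.2 y hy s hs.1 hs.2⟩
    · rintro ⟨h2, h1⟩
      exact ⟨⟨by rw [h2]; exact hq.1, fun y hy s hs0 hs1 => h1 y hy s ⟨hs0, hs1⟩⟩, h2⟩
  have hclosed : IsClosed T := by
    rw [hTe]
    refine IsClosed.inter ?_ ?_
    · exact isClosed_eq (by fun_prop) continuous_const
    · refine isClosed_iInter fun y => isClosed_iInter fun _ => isClosed_iInter fun s =>
        isClosed_iInter fun _ => ?_
      exact isClosed_closure.preimage (by fun_prop)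
  have hsubT : T ⊆ closure D.W := by
    rintro z ⟨h1, _⟩
    have := h1.2 _ (subset_closure hp₀) 0 le_rfl zero_le_one
    rwa [zero_smul, add_zero] at this
  have hcomp : IsCompact T :=
    (D.bdd.isCompact_closure).of_isClosed_subset hclosed hsubT
  have hf : ContinuousOn (fun z : V3 => z 0 ^ 2 + z 1 ^ 2) T := by fun_prop
  obtain ⟨z, hzT, hzmin⟩ := hcomp.exists_isMinOn ⟨q, hq, rfl⟩ hf
  exact ⟨z, hzT.1, hzT.2, fun z' h1 h2 => hzmin ⟨h1, h2⟩⟩

end Pool.Agent.H99.SC
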