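import Pool.Agent.H99.SC.LSIG

/-!
# LCC: inward directions at a boundary point

`lcc`.  `‖u₀‖ = 1`, `⟪v, N u₀⟫ > 0` and `v 2 < 0`.  Then for `u` near `u₀` (`‖u‖ ≤ 1`), `w` near `v`,
small `s ≥ 0`: `X u + s w ∈ closure W`.
Proof.  Box at `u₀`, `e = N u₀`, `ε` from `box_sig`; shrink so that `⟪g y, w⟫ ≥ c > 0` and `w 2 < 0`
for `y ∈ U ε`, `w` near `v`, and `X u + s w ∈ U ε`.  First let `‖u‖ < 1`.  `y(s) = X u + s w`,
`B.f (y s)` is strictly increasing, `B.f (y 0) = 0`, so `y s ∉ S.Sig` for `s > 0` (in the range).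
The set of `s` with `y s ∈ closure W` is closed, contains `0`, and contains a right neighbourhood of each
of its points (`lsig` at `s = 0`, `ldisc` at `s > 0`).
For `‖u‖ = 1` take limits (closure W is closed): `u` is a limit of `r u`, `r → 1-`.
-/

set_option autoImplicit false

open scoped RealInnerProductSpace Topology
open Metric Filter Set

noncomputable section

namespace Pool.Agent.H99.SC

/-- a function with positive derivative is positive just after a zero -/
theorem LCC_pos {φ : ℝ → ℝ} {s d : ℝ} (h0 : φ s = 0) (hd : HasDerivAt φ d s) (hpos : 0 < d) :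
    ∀ᶠ t in 𝓝[>] s, 0 < φ t := by
  have h1 := hd.tendsto_slope
  have h2 : ∀ᶠ t in 𝓝[≠] s, 0 < slope φ s t := h1.eventually (lt_mem_nhds hpos)
  have h3 : ∀ᶠ t in 𝓝[>] s, 0 < slope φ s t :=
    h2.filter_mono (nhdsWithin_mono _ (fun t (ht : s < t) => ht.ne'))
  filter_upwards [h3, self_mem_nhdsWithin] with t ht (hts : s < t)
  rw [slope_def_field, h0, sub_zero] at ht
  exact (div_pos_iff_of_pos_right (by linarith)).1 ht

/-- derivative of a box function along a segment -/
theorem LCC_deriv {S : Surf} {u₀ : V2} {e : V3} (B : Box S.X u₀ e) (x w : V3) (s : ℝ)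
    (hy : x + s • w ∈ B.U B.r) :
    HasDerivAt (fun t : ℝ => B.f (x + t • w)) (⟪B.g (x + s • w), w⟫) s := by
  have h1 : HasFDerivAt B.f (fderiv ℝ B.f (x + s • w)) (x + s • w) :=
    ((B.smooth_f hy).differentiableAt (by norm_num)).hasFDerivAt
  have h2 : HasDerivAt (fun t : ℝ => x + t • w) w s := by
    have := ((hasDerivAt_id s).smul_const w).const_add x
    simpa using this
  have h3 := h1.comp_hasDerivAt s h2
  rw [B.fd S.smooth hy] at h3
  exact h3

theorem LCC_box {S : Surf} {u₀ : V2} (hu₀ : ‖u₀‖ ≤ 1) : Nonempty (Box S.X u₀ (S.N u₀)) := by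
  apply exists_box S.smooth
  rw [S.nn_eq hu₀, real_inner_smul_left, real_inner_self_eq_norm_sq, S.N_norm hu₀]
  simpa using S.nn_pos hu₀

theorem LCC_frontier {S : Surf} (D : PreDom S) {y : V3} (h : y ∈ closure D.W) (h' : y ∉ D.W) :
    y ∈ S.Sig ∪ Disc := by
  apply D.fr
  rw [D.isOpen.frontier_eq]
  exact ⟨h, h'⟩

theorem lcc {S : Surf} (D : PreDom S) {u₀ : V2} (hu₀ : ‖u₀‖ = 1) {v : V3}
    (hv : 0 < ⟪v, S.N u₀⟫) (hv2 : v 2 < 0) :
    ∃ ε : ℝ, 0 < ε ∧ ∀ u : V2, ‖u‖ ≤ 1 → ‖u - u₀‖ < ε → ∀ w : V3, ‖w - v‖ < ε →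
      ∀ s : ℝ, 0 ≤ s → s < ε → S.X u + s • w ∈ closure D.W := by
  obtain ⟨B⟩ := LCC_box (S := S) hu₀.le
  obtain ⟨ε₁, hε₁, hε₁r, -, hsig⟩ := box_sig S hu₀.le B
  have hmemr : S.X u₀ ∈ B.U B.r := B.mem_U B.hr
  -- the gradient at the base point
  have hg0 : 0 < ⟪B.g (S.X u₀), v⟫ := by
    have hb : B.b (S.X u₀) = u₀ := B.b_X (by simpa using B.hr)
    rw [B.g_eq hmemr, hb, real_inner_smul_left, real_inner_comm]
    exact mul_pos (B.g_pos hmemr) hv
  have hcg : ContinuousAt (fun q : V3 × V3 => ⟪B.g q.1, q.2⟫) (S.X u₀, v) := by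
    have h1 : ContinuousAt (fun q : V3 × V3 => B.g q.1) (S.X u₀, v) :=
      ContinuousAt.comp (f := fun q : V3 × V3 => q.1) (B.g_cont S.smooth hmemr) continuousAt_fst
    exact h1.inner continuousAt_snd
  have hyc : ContinuousAt (fun q : V2 × V3 × ℝ => S.X q.1 + q.2.2 • q.2.1) (u₀, v, 0) := by
    have hX : Continuous S.X := S.smooth.continuous
    apply Continuous.continuousAt
    fun_prop
  have hy0 : S.X u₀ + (0 : ℝ) • v = S.X u₀ := by simp
  have hev1 : ∀ᶠ q : V2 × V3 × ℝ in 𝓝 (u₀, v, (0 : ℝ)), S.X q.1 + q.2.2 • q.2.1 ∈ B.U ε₁ := by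
    apply hyc.eventually
    simp only [hy0]
    exact B.U_nhds hε₁ hε₁r
  have hev2 : ∀ᶠ q : V2 × V3 × ℝ in 𝓝 (u₀, v, (0 : ℝ)),
      0 < ⟪B.g (S.X q.1 + q.2.2 • q.2.1), q.2.1⟫ := by
    have h1 : ContinuousAt (fun q : V2 × V3 × ℝ => ((S.X q.1 + q.2.2 • q.2.1, q.2.1) : V3 × V3))
        (u₀, v, 0) := hyc.prodMk (by fun_prop)
    have h3 := hcg.comp_of_eq h1 (by simp)
    have h4 := Filter.Tendsto.eventually_const_lt (u := (0 : ℝ)) (by simpa using hg0) h3
    filter_upwards [h4] with q hq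
    exact hq
  have hev3 : ∀ᶠ q : V2 × V3 × ℝ in 𝓝 (u₀, v, (0 : ℝ)), q.2.1 2 < 0 := by
    have h1 : ContinuousAt (fun q : V2 × V3 × ℝ => q.2.1 2) (u₀, v, 0) := by fun_prop
    exact Filter.Tendsto.eventually_lt_const (u := (0 : ℝ)) (by simpa using hv2) h1
  obtain ⟨ε₂, hε₂, hall⟩ := Metric.eventually_nhds_iff.1 (hev1.and (hev2.and hev3))
  have key : ∀ u : V2, ‖u‖ < 1 → ‖u - u₀‖ < min ε₂ B.r → ∀ w : V3, ‖w - v‖ < ε₂ →
      ∀ s : ℝ, 0 ≤ s → s < ε₂ → S.X u + s • w ∈ closure D.W := by
    intro u hu1 huu w hw s hs0 hs1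
    have hu2 : ‖u - u₀‖ < ε₂ := lt_of_lt_of_le huu (min_le_left _ _)
    have hu3 : ‖u - u₀‖ < B.r := lt_of_lt_of_le huu (min_le_right _ _)
    have hq : ∀ t : ℝ, 0 ≤ t → t < ε₂ → S.X u + t • w ∈ B.U ε₁ ∧
        0 < ⟪B.g (S.X u + t • w), w⟫ ∧ w 2 < 0 := by
      intro t ht0 ht1
      have := @hall (u, w, t) (by
        rw [Prod.dist_eq, Prod.dist_eq]
        simp only [dist_eq_norm, Real.norm_eq_abs, sub_zero]
        rw [abs_of_nonneg ht0]
        exact max_lt hu2 (max_lt hw ht1))
      exact this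
    have hw2 : w 2 < 0 := (hq 0 le_rfl hε₂).2.2
    -- strictly increasing
    have hmono : ∀ t : ℝ, 0 < t → t < ε₂ → 0 < B.f (S.X u + t • w) := by
      intro t ht0 ht1
      have hdiff : ∀ a ∈ Icc 0 t, HasDerivAt (fun t : ℝ => B.f (S.X u + t • w))
          (⟪B.g (S.X u + a • w), w⟫) a := by
        intro a ha
        exact LCC_deriv B _ _ _ (B.U_mono hε₁r (hq a ha.1 (ha.2.trans_lt ht1)).1)
      have hs : StrictMonoOn (fun t : ℝ => B.f (S.X u + t • w)) (Icc 0 t) := by
        apply strictMonoOn_of_deriv_pos (convex_Icc 0 t)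
        · intro a ha
          exact (hdiff a ha).continuousAt.continuousWithinAt
        · intro a ha
          have ha' : a ∈ Icc 0 t := interior_subset ha
          rw [(hdiff a ha').deriv]
          exact (hq a ha'.1 (ha'.2.trans_lt ht1)).2.1
      have h1 := hs (left_mem_Icc.2 ht0.le) (right_mem_Icc.2 ht0.le) ht0
      have h2 : B.f (S.X u + (0 : ℝ) • w) = 0 := by
        rw [zero_smul, add_zero]
        exact B.f_X hu3
      simp only at h1
      rw [h2] at h1
      exact h1
    have hnot : ∀ t : ℝ, 0 < t → t < ε₂ → S.X u + t • w ∉ S.Sig := by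
      intro t ht0 ht1 hmem
      have h1 := ((hsig _ (hq t ht0.le ht1).1).1 hmem).1
      have h2 := hmono t ht0 ht1
      linarith
    have hyt : Continuous (fun t : ℝ => S.X u + t • w) := by fun_prop
    have hcl : Icc 0 s ⊆ {t : ℝ | S.X u + t • w ∈ closure D.W} := by
      apply IsClosed.Icc_subset_of_forall_mem_nhdsWithin
      · exact (isClosed_closure.preimage hyt).inter isClosed_Icc
      · show S.X u + (0 : ℝ) • w ∈ closure D.W
        rw [zero_smul, add_zero]
        exact sig_closure D (S.mem_Sig hu1.le)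
      · rintro t ⟨htm, ht0, hts⟩
        have htm' : S.X u + t • w ∈ closure D.W := htm
        show ∀ᶠ t' in 𝓝[>] t, S.X u + t' • w ∈ closure D.W
        by_cases hW : S.X u + t • w ∈ D.W
        · have h1 : ∀ᶠ t' in 𝓝 t, S.X u + t' • w ∈ D.W :=
            hyt.continuousAt.eventually (D.isOpen.mem_nhds hW)
          filter_upwards [h1.filter_mono nhdsWithin_le_nhds] with t' ht' using subset_closure ht'
        · rcases ht0.eq_or_lt with h0 | h0
          · subst h0
            -- box at `u`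
            have hposu : 0 < ⟪nn S.X u, S.N u₀⟫ := B.pos u hu3
            obtain ⟨B'⟩ := exists_box S.smooth hposu
            obtain ⟨ε₃, hε₃, hε₃r, hl⟩ := lsig D hu1 B'
            have hmem' : S.X u ∈ B'.U B'.r := B'.mem_U B'.hr
            have hd := LCC_deriv B' (S.X u) w 0 (by simpa using hmem')
            have hpos' : 0 < ⟪B'.g (S.X u + (0 : ℝ) • w), w⟫ := by
              have h1 := (hq 0 le_rfl hε₂).2.1
              have hb' : B'.b (S.X u) = u := B'.b_X (by simpa using B'.hr)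
              have hb : B.b (S.X u) = u := B.b_X hu3
              rw [zero_smul, add_zero] at h1 ⊢
              unfold Box.g at h1 ⊢
              rw [hb'] 
              rw [hb] at h1
              exact h1
            have hz : B'.f (S.X u + (0 : ℝ) • w) = 0 := by
              rw [zero_smul, add_zero]
              exact B'.f_X (by simpa using B'.hr)
            have h2 := LCC_pos (φ := fun t : ℝ => B'.f (S.X u + t • w)) hz hd hpos'
            have h3 : ∀ᶠ t' in 𝓝 (0 : ℝ), S.X u + t' • w ∈ B'.U ε₃ := by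
              have h4 : B'.U ε₃ ∈ 𝓝 (S.X u + (0 : ℝ) • w) := by
                rw [zero_smul, add_zero]
                exact B'.U_nhds hε₃ hε₃r
              exact hyt.continuousAt.eventually h4
            filter_upwards [h2, h3.filter_mono nhdsWithin_le_nhds] with t' ht' ht''
            exact (hl _ ht'').2.2.2.2.2 ht'.le
          · have hts' : t < ε₂ := hts.trans hs1
            rcases LCC_frontier D htm' hW with h1 | h1
            · exact absurd h1 (hnot t h0 hts')
            · have h2 : (S.X u + t • w) 2 = 0 := h1.1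
              have h3 : (S.X u + t • w) 0 ^ 2 + (S.X u + t • w) 1 ^ 2 < 1 := by
                rcases h1.2.eq_or_lt with h | h
                · exfalso
                  obtain ⟨u', hu', hX⟩ := (S.bd _).2 ⟨h2, h⟩
                  exact hnot t h0 hts' ⟨u', hu'.le, hX⟩
                · exact h
              obtain ⟨ε₃, hε₃, hl⟩ := ldisc D h2 h3
              have h4 : ∀ᶠ t' in 𝓝 t, S.X u + t' • w ∈ ball (S.X u + t • w) ε₃ :=
                hyt.continuousAt.eventually (ball_mem_nhds _ hε₃)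
              filter_upwards [h4.filter_mono nhdsWithin_le_nhds, self_mem_nhdsWithin]
                with t' ht' (htt : t < t')
              apply (hl _ ht').2.2.2
              have h5 : (S.X u + t' • w) 2 = (S.X u + t • w) 2 + (t' - t) * w 2 := by
                simp only [PiLp.add_apply, PiLp.smul_apply, smul_eq_mul]; ring
              rw [h5, h2, zero_add]
              exact (mul_neg_of_pos_of_neg (by linarith) hw2).le
    exact hcl (right_mem_Icc.2 hs0)
  refine ⟨min ε₂ B.r, lt_min hε₂ B.hr, ?_⟩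
  intro u hu1 huu w hw s hs0 hs1
  have hw' : ‖w - v‖ < ε₂ := lt_of_lt_of_le hw (min_le_left _ _)
  have hs1' : s < ε₂ := lt_of_lt_of_le hs1 (min_le_left _ _)
  rcases hu1.eq_or_lt with hu | hu
  · -- limit
    have hX : Continuous S.X := S.smooth.continuous
    have hcont : Continuous (fun r : ℝ => S.X (r • u) + s • w) := by fun_prop
    have ht : Tendsto (fun r : ℝ => S.X (r • u) + s • w) (𝓝[<] 1) (𝓝 (S.X u + s • w)) := by
      have h1 := (hcont.tendsto 1).mono_left (nhdsWithin_le_nhds (s := Iio (1 : ℝ)))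
      simpa using h1
    have hn : ∀ᶠ r : ℝ in 𝓝 1, ‖r • u - u₀‖ < min ε₂ B.r := by
      have hc : Continuous (fun r : ℝ => ‖r • u - u₀‖) := by fun_prop
      exact Filter.Tendsto.eventually_lt_const (u := min ε₂ B.r) (by simpa using huu) (hc.tendsto 1)
    apply isClosed_closure.mem_of_tendsto ht
    have h0 : ∀ᶠ r : ℝ in 𝓝 1, 0 < r := lt_mem_nhds one_pos
    filter_upwards [hn.filter_mono nhdsWithin_le_nhds, h0.filter_mono nhdsWithin_le_nhds,
      self_mem_nhdsWithin] with r hr hr0 (hr1 : r < 1)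
    apply key (r • u) _ hr w hw' s hs0 hs1'
    rw [norm_smul, hu, mul_one, Real.norm_eq_abs, abs_of_pos hr0]
    exact hr1
  · exact key u hu huu w hw' s hs0 hs1'

end Pool.Agent.H99.SC
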