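import Pool.Agent.H99.SC.ORI

/-!
# LOCP: the domain near a boundary point with `N_r > 0`

`‖u₀‖ = 1`, `p = S.X u₀`, box `B` at `u₀` (any `e`; `B.g` is a positive multiple of the normal: `g_eq`).
`(fderiv X u₀ u₀) 2 = - N_r β < 0` (`Xr_2`, `ori`), so inside points have `(X u) 2 > 0` and outside ones
`< 0` (`h3_pos`), and `plane_pos` holds.  All points below are in a small `B.U ε` (`box_sig`).  For `y`
near `p`:
 (a) `f y > 0 → y ∈ W`: `A = {y ∈ U ε, f y > 0}` is preconnected (`preconn_pos`), disjoint from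
   `S.Sig` (`f = 0`) and from `Disc` (`plane_pos`), hence from the frontier, and contains
   `X u + s N u` for an inside `u` (`f` has derivative `⟪g,N⟫ > 0` along `N`), a point of `W`
   (`D.inS`): `sep`.
 (b) `y 2 < 0 → y ∈ W`: half ball (convex), disjoint from `Disc` and from `S.Sig` (`(X v) 2 ≥ 0`
   for `‖v‖ ≤ 1` near `u₀`), contains `d - s E3` with `d = (1-η) p` (`D.inD`): `sep`.
 (c) `f y < 0, y 2 > 0 → y ∉ closure W`.  Let `v = -E3 + M p` with `M > 0` so large that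
   `⟪v, N⟫ = M N_r - N_3 > 0`, and `v 2 = -1 < 0`.  Let `y` be close to `p`.  Going along `y + s v`,
   `s ≥ 0`: `f` increases at a rate `≥ c > 0`, the third coordinate decreases at rate 1.  Let `s₁` be the first time
   at which `f = 0` or third coordinate `= 0` (small if `y` is close to `p`).  `Z = y + s₁ v`.  On `[0,s₁)`
   the path is in `{f < 0, y 2 > 0}`, disjoint from `S.Sig ∪ Disc`: so this piece (preconnected) is in
   `W` or outside the closure.
   If `Z 2 = 0`: `f Z ≤ 0` so `Z` is in the closed unit disc (`plane_pos`).  If `f Z = 0`, `Z 2 > 0`: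
   `Z = X (b Z)` with `‖b Z‖ < 1`.
   First suppose `Z` is not on the circle.  If `f Z = 0` and `Z 2 > 0`: the points `Z - s v` (small
   `s > 0`) are not in the closure: use a box `B'` at `b Z` with the same `e` and `lsig`; `B'.f` has
   positive derivative `⟪g', v⟫` along `v`.  If `Z 2 = 0`, `Z` inside the open disc: `ldisc`.  So the
   piece is outside the closure (`sep`).
   If `Z` is on the circle: `{f < 0, y 2 > 0}` near `p` is open and disjoint from the frontier, so a small ball around `y` is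
   entirely in `W` or entirely outside the closure; replace `y` by `y + η Z` (`η > 0` small): the corresponding `Z'`,
   if on the circle, would be (projection to the plane along `v`; `Z 2 = 0`) `Z' = Z + η Z`, of norm
   `1 + η`: impossible.
-/

set_option autoImplicit false

open scoped RealInnerProductSpace Topology
open Metric Filter Set

noncomputable section

namespace Pool.Agent.H99.SC

theorem LOCP_dir {h : ℝ → ℝ} {d : ℝ} (hd : HasDerivAt h d 0) (h0 : h 0 = 0) (hp : 0 < d) :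
    ∀ᶠ s in 𝓝[>] (0 : ℝ), 0 < h s ∧ h (-s) < 0 := by
  have h1 : Tendsto (slope h 0) (𝓝[≠] 0) (𝓝 d) := hasDerivAt_iff_tendsto_slope.1 hd
  have h2 : ∀ᶠ s in 𝓝[≠] (0 : ℝ), 0 < slope h 0 s := h1.eventually (lt_mem_nhds hp)
  have h3 : ∀ᶠ s in 𝓝[>] (0 : ℝ), 0 < slope h 0 s :=
    h2.filter_mono (nhdsWithin_mono _ (fun s hs => ne_of_gt hs))
  have h4 : Tendsto (fun s : ℝ => -s) (𝓝[>] (0 : ℝ)) (𝓝[≠] 0) := by
    apply tendsto_nhdsWithin_iff.mpr
    constructor
    · have : Tendsto (fun s : ℝ => -s) (𝓝 (0 : ℝ)) (𝓝 (-0)) := continuous_neg.continuousAt.tendsto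
      rw [neg_zero] at this
      exact this.mono_left nhdsWithin_le_nhds
    · filter_upwards [self_mem_nhdsWithin] with s hs
      exact neg_ne_zero.mpr (ne_of_gt hs)
  have h5 : ∀ᶠ s in 𝓝[>] (0 : ℝ), 0 < slope h 0 (-s) := h4.eventually h2
  filter_upwards [h3, h5, self_mem_nhdsWithin] with s hs1 hs2 hs3
  have hs : (0:ℝ) < s := hs3
  rw [slope_def_field, h0] at hs1 hs2
  simp only [sub_zero] at hs1 hs2
  constructor
  · by_contra hcon
    push Not at hcon
    exact absurd (div_nonpos_of_nonpos_of_nonneg hcon hs.le) (not_le.mpr hs1)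
  · by_contra hcon
    push Not at hcon
    exact absurd (div_nonpos_of_nonneg_of_nonpos hcon (by linarith)) (not_le.mpr hs2)

/-- derivative of the box function along a line -/
theorem LOCP_hasDeriv (S : Surf) {u₀ : V2} {e : V3} (B : Box S.X u₀ e) {y : V3} (v : V3) (s : ℝ)
    (hy : y + s • v ∈ B.U B.r) :
    HasDerivAt (fun s : ℝ => B.f (y + s • v)) ⟪B.g (y + s • v), v⟫ s := by
  have h1 : HasFDerivAt B.f (fderiv ℝ B.f (y + s • v)) (y + s • v) :=
    ((B.smooth_f hy).differentiableAt (by norm_num)).hasFDerivAt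
  have h2 : HasDerivAt (fun s : ℝ => y + s • v) v s := by
    have := ((hasDerivAt_id s).smul_const v).const_add y
    simpa using this
  have h3 := h1.comp_hasDerivAt s h2
  rw [B.fd S.smooth hy v] at h3
  exact h3

theorem LOCP_side (S : Surf) {u₀ : V2} {e : V3} (B : Box S.X u₀ e) {u : V2} (hu1 : ‖u‖ ≤ 1)
    (hu : ‖u - u₀‖ < B.r) :
    ∀ᶠ s in 𝓝[>] (0 : ℝ), 0 < B.f (S.X u + s • S.N u) ∧ B.f (S.X u - s • S.N u) < 0 := by
  have hU : S.X u ∈ B.U B.r := ⟨u, 0, hu, by simpa using B.hr, by simp⟩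
  have h1 := LOCP_hasDeriv S B (y := S.X u) (S.N u) 0 (by simpa using hU)
  have h2 : 0 < ⟪B.g (S.X u + (0:ℝ) • S.N u), S.N u⟫ := by
    rw [zero_smul, add_zero, B.g_eq hU, B.b_X hu, inner_smul_left]
    have h3 : ⟪NN S.X u, S.N u⟫ = 1 := by
      change ⟪S.N u, S.N u⟫ = 1
      rw [real_inner_self_eq_norm_sq, S.N_norm hu1]; norm_num
    rw [h3]
    simpa using B.g_pos hU
  have h3 := LOCP_dir h1 (by simpa using B.f_X hu) h2
  filter_upwards [h3] with s hs
  refine ⟨hs.1, ?_⟩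
  have h4 := hs.2
  rw [neg_smul, ← sub_eq_add_neg] at h4
  exact h4

theorem LOCP_inside {u₀ : V2} (hu₀ : ‖u₀‖ = 1) {ε : ℝ} (hε : 0 < ε) :
    ∃ u : V2, ‖u - u₀‖ < ε ∧ ‖u‖ < 1 := by
  set η : ℝ := min (ε / 2) (1 / 2) with hη
  have h1 : 0 < η := lt_min (by linarith) (by norm_num)
  have h2 : η ≤ ε / 2 := min_le_left _ _
  have h3 : η ≤ 1 / 2 := min_le_right _ _
  refine ⟨(1 - η) • u₀, ?_, ?_⟩
  · have : (1 - η) • u₀ - u₀ = (-η) • u₀ := by module
    rw [this, norm_smul, hu₀, Real.norm_eq_abs, abs_neg, abs_of_pos h1]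
    linarith
  · rw [norm_smul, hu₀, Real.norm_eq_abs, abs_of_pos (by linarith)]
    linarith

/-- comparison of the signs of two box functions -/
theorem LOCP_cmp (S : Surf) {u₀ : V2} {e e' : V3} (B : Box S.X u₀ e) (B' : Box S.X u₀ e')
    {V : Set V3} (hV : V ∈ 𝓝 (S.X u₀)) {ρ : ℝ} (hρ : 0 < ρ) :
    ∃ ε : ℝ, 0 < ε ∧ ε ≤ B'.r ∧ ε ≤ ρ ∧ B'.U ε ⊆ V ∧ ∀ y ∈ B'.U ε,
      (B'.f y < 0 → B.f y < 0) ∧ (B.f y < 0 → B'.f y < 0) := by
  have hU := B.mem_U B.hr
  -- positivity of the derivative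
  have h1 : 0 < ⟪B.g (S.X u₀), e'⟫ := by
    unfold Box.g
    rw [B.b_X (by simpa using B.hr), inner_smul_left]
    have h2 := B.pos u₀ (by simpa using B.hr)
    have h3 := B'.pos u₀ (by simpa using B'.hr)
    simp only [RCLike.conj_to_real]
    positivity
  have h2 : ContinuousAt (fun y => ⟪B.g y, e'⟫) (S.X u₀) :=
    (B.g_cont S.smooth hU).inner continuousAt_const
  have h3 : {y | y ∈ B.U B.r ∧ 0 < ⟪B.g y, e'⟫} ∈ 𝓝 (S.X u₀) := by
    filter_upwards [B.U_nhds B.hr le_rfl, h2.eventually (lt_mem_nhds h1)] with y hy1 hy2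
    exact ⟨hy1, hy2⟩
  obtain ⟨ε₀, hε₀, hε₀r, hε₀V⟩ := B'.small S.smooth.continuous (inter_mem h3 hV)
  refine ⟨min ε₀ (min ρ B.r), lt_min hε₀ (lt_min hρ B.hr), (min_le_left _ _).trans hε₀r,
    (min_le_right _ _).trans (min_le_left _ _), ?_, ?_⟩
  · intro y hy
    exact (hε₀V (B'.U_mono (min_le_left _ _) hy)).2
  · intro y hy
    set ε := min ε₀ (min ρ B.r) with hε
    have hεr : ε ≤ B'.r := (min_le_left _ _).trans hε₀r
    have hεB : ε ≤ B.r := (min_le_right _ _).trans (min_le_right _ _)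
    obtain ⟨u, s, hu, hs, rfl⟩ := hy
    have hf' : B'.f (S.X u + s • e') = s := (B'.left u s (hu.trans_le hεr) (hs.trans_le hεr)).2
    rw [hf']
    have hseg : ∀ τ : ℝ, |τ| < ε → S.X u + τ • e' ∈ B.U B.r ∧ 0 < ⟪B.g (S.X u + τ • e'), e'⟫ := by
      intro τ hτ
      have h4 : S.X u + τ • e' ∈ B'.U ε := ⟨u, τ, hu, hτ, rfl⟩
      exact (hε₀V (B'.U_mono (min_le_left _ _) h4)).1
    have hmono : StrictMonoOn (fun τ : ℝ => B.f (S.X u + τ • e')) (Ioo (-ε) ε) := by
      apply strictMonoOn_of_deriv_pos (convex_Ioo _ _)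
      · intro τ hτ
        exact (LOCP_hasDeriv S B e' τ (hseg τ (abs_lt.mpr hτ)).1).continuousAt.continuousWithinAt
      · intro τ hτ
        rw [interior_Ioo] at hτ
        rw [(LOCP_hasDeriv S B e' τ (hseg τ (abs_lt.mpr hτ)).1).deriv]
        exact (hseg τ (abs_lt.mpr hτ)).2
    have hε0 : 0 < ε := lt_min hε₀ (lt_min hρ B.hr)
    have h0 : B.f (S.X u + (0:ℝ) • e') = 0 := by
      rw [zero_smul, add_zero]
      exact B.f_X (hu.trans_le hεB)
    have hs' : s ∈ Ioo (-ε) ε := abs_lt.mp hs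
    have h0' : (0:ℝ) ∈ Ioo (-ε) ε := ⟨by linarith, hε0⟩
    constructor
    · intro hs0
      have := hmono hs' h0' hs0
      simp only [h0] at this
      exact this
    · intro hs0
      by_contra hcon
      push Not at hcon
      have := hmono.monotoneOn h0' hs' hcon
      simp only [h0] at this
      linarith

theorem LOCP_pre (S : Surf) {u₀ : V2} {e' : V3} (B' : Box S.X u₀ e') (he'2 : e' 2 = 1) {ε' : ℝ}
    (hε'0 : 0 < ε') (hε'r : ε' ≤ B'.r)
    (h3 : ∀ u : V2, ‖u - u₀‖ < ε' → (0 < (S.X u) 2 → ‖u‖ < 1) ∧ (‖u‖ < 1 → 0 < (S.X u) 2)) :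
    IsPreconnected {y | y ∈ B'.U ε' ∧ B'.f y < 0 ∧ 0 < y 2} := by
  let Φ : V2 × ℝ → V3 := fun q => S.X q.1 + (-(q.2 * min ε' ((S.X q.1) 2))) • e'
  have hΦ : Continuous Φ := by
    have h4 : Continuous (fun q : V2 × ℝ => (S.X q.1) 2) :=
      (EuclideanSpace.proj (𝕜 := ℝ) (2 : Fin 3)).continuous.comp
        (S.smooth.continuous.comp continuous_fst)
    exact (S.smooth.continuous.comp continuous_fst).add
      (((continuous_snd.mul (continuous_const.min h4)).neg).smul continuous_const)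
  have himg : {y | y ∈ B'.U ε' ∧ B'.f y < 0 ∧ 0 < y 2} =
      Φ '' ((ball u₀ ε' ∩ ball 0 1) ×ˢ Ioo (0:ℝ) 1) := by
    ext y
    constructor
    · rintro ⟨⟨u, s, hu, hs, rfl⟩, hy2, hy3⟩
      have hf' := (B'.left u s (hu.trans_le hε'r) (hs.trans_le hε'r)).2
      rw [hf'] at hy2
      simp only [PiLp.add_apply, PiLp.smul_apply, smul_eq_mul, he'2, mul_one] at hy3
      have hX2 : 0 < (S.X u) 2 := by linarith
      have hu1 := (h3 u hu).1 hX2
      have hm : 0 < min ε' ((S.X u) 2) := lt_min hε'0 hX2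
      refine ⟨(u, -s / min ε' ((S.X u) 2)), ⟨⟨?_, ?_⟩, ?_, ?_⟩, ?_⟩
      · rwa [mem_ball, dist_eq_norm]
      · rwa [mem_ball_zero_iff]
      · exact div_pos (by linarith) hm
      · change -s / min ε' ((S.X u) 2) < 1
        rw [div_lt_one hm]
        apply lt_min
        · linarith [(abs_lt.mp hs).1]
        · linarith
      · change S.X u + (-(-s / min ε' ((S.X u) 2) * min ε' ((S.X u) 2))) • e' = _
        rw [div_mul_cancel₀ _ hm.ne', neg_neg]
    · rintro ⟨⟨u, τ⟩, ⟨⟨hu1, hu2⟩, hτ0, hτ1⟩, rfl⟩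
      rw [mem_ball, dist_eq_norm] at hu1
      rw [mem_ball_zero_iff] at hu2
      change 0 < τ at hτ0
      change τ < 1 at hτ1
      have hX2 : 0 < (S.X u) 2 := (h3 u hu1).2 hu2
      have hm : 0 < min ε' ((S.X u) 2) := lt_min hε'0 hX2
      have hm1 : min ε' ((S.X u) 2) ≤ ε' := min_le_left _ _
      have hm2 : min ε' ((S.X u) 2) ≤ (S.X u) 2 := min_le_right _ _
      have hs : |-(τ * min ε' ((S.X u) 2))| < ε' := by
        rw [abs_neg, abs_of_pos (mul_pos hτ0 hm)]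
        nlinarith
      refine ⟨⟨u, _, hu1, hs, rfl⟩, ?_, ?_⟩
      · change B'.f (S.X u + (-(τ * min ε' ((S.X u) 2))) • e') < 0
        rw [(B'.left u _ (hu1.trans_le hε'r) (hs.trans_le hε'r)).2]
        have := mul_pos hτ0 hm
        linarith
      · change 0 < (S.X u + (-(τ * min ε' ((S.X u) 2))) • e') 2
        simp only [PiLp.add_apply, PiLp.smul_apply, smul_eq_mul, he'2, mul_one]
        nlinarith
  rw [himg]
  apply IsPreconnected.image _ _ hΦ.continuousOn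
  have hc : IsPreconnected (ball u₀ ε' ∩ ball (0 : V2) 1) :=
    ((convex_ball u₀ ε').inter (convex_ball 0 1)).isPreconnected
  exact hc.prod isPreconnected_Ioo

theorem loc_pos {S : Surf} (D : PreDom S) {u₀ : V2} (hu₀ : ‖u₀‖ = 1) (h : 0 < S.Nr u₀) {e : V3}
    (B : Box S.X u₀ e) : ∀ᶠ y in 𝓝 (S.X u₀),
      (0 < B.f y → y ∈ D.W) ∧ (y 2 < 0 → y ∈ D.W) ∧
      (B.f y < 0 → 0 < y 2 → y ∉ closure D.W) := by
  have hbd := S.bd1 hu₀
  set p := S.X u₀ with hp
  have hpn : ‖p‖ = 1 := by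
    have h1 : ‖p‖ ^ 2 = 1 := by rw [nsq, hbd.1]; linarith [hbd.2]
    nlinarith [norm_nonneg p]
  have hder : (fderiv ℝ S.X u₀ u₀) 2 < 0 := by
    rw [S.Xr_2 hu₀]
    have := ori D hu₀
    nlinarith
  have h3 := h3_pos S hu₀ hder
  obtain ⟨ρ, hρ, h3⟩ := Metric.eventually_nhds_iff.mp h3
  have h3' : ∀ u : V2, ‖u - u₀‖ < ρ → (‖u‖ ≤ 1 → 0 ≤ (S.X u) 2) ∧ (0 < (S.X u) 2 → ‖u‖ < 1) ∧
      (‖u‖ < 1 → 0 < (S.X u) 2) := by
    intro u hu
    have h4 := h3 (y := u) (by rwa [dist_eq_norm])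
    refine ⟨fun h5 => ?_, fun h5 => ?_, h4.1⟩
    · rcases h5.lt_or_eq with h6 | h6
      · exact (h4.1 h6).le
      · exact (S.bd1 h6).1.ge
    · by_contra hcon
      rcases (not_lt.mp hcon).lt_or_eq with h6 | h6
      · linarith [h4.2 h6]
      · linarith [(S.bd1 h6.symm).1]
  have hV := (plane_pos S hu₀ h B).and (box_sig' S hu₀ B)
  obtain ⟨ε₀, hε₀, hε₀r, hε₀V⟩ := B.small S.smooth.continuous hV
  set ε := min ε₀ ρ with hε
  have hε0 : 0 < ε := lt_min hε₀ hρ
  have hεr : ε ≤ B.r := (min_le_left _ _).trans hε₀r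
  have hερ : ε ≤ ρ := min_le_right _ _
  have hεV : ∀ y ∈ B.U ε, _ := fun y hy => hε₀V (B.U_mono (min_le_left _ _) hy)
  -- (a)
  have ha : ∀ y ∈ B.U ε, 0 < B.f y → y ∈ D.W := by
    have hpre := B.preconn_pos S.smooth.continuous hε0 hεr
    have hdis : Disjoint {y | y ∈ B.U ε ∧ 0 < B.f y} (frontier D.W) := by
      rw [Set.disjoint_left]
      rintro y ⟨hy1, hy2⟩ hy3
      obtain ⟨h4, h5⟩ := hεV y hy1
      rcases D.fr hy3 with h6 | h6
      · have := (h5.1 h6).1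
        linarith
      · have h7 := h4 h6.1
        rcases h6.2.lt_or_eq with h8 | h8
        · linarith [h7.2.1 h8]
        · linarith [h7.1 h8]
    obtain ⟨u, hu1, hu2⟩ := LOCP_inside hu₀ hε0
    obtain ⟨ε₁, hε₁, hin⟩ := D.inS u hu2
    have hside := LOCP_side S B hu2.le (hu1.trans_le hεr)
    have hUe : S.X u ∈ B.U ε := ⟨u, 0, hu1, by simpa using hε0, by simp⟩
    have hcont : Tendsto (fun s : ℝ => S.X u + s • S.N u) (𝓝[>] 0) (𝓝 (S.X u)) := by
      have : Tendsto (fun s : ℝ => S.X u + s • S.N u) (𝓝 0) (𝓝 (S.X u + (0:ℝ) • S.N u)) :=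
        (continuous_const.add (continuous_id.smul continuous_const)).continuousAt.tendsto
      rw [zero_smul, add_zero] at this
      exact this.mono_left nhdsWithin_le_nhds
    have hev := (hside.and (hcont.eventually ((B.U_open hε0 hεr).mem_nhds hUe))).and
      (Ioo_mem_nhdsGT hε₁ : Ioo 0 ε₁ ∈ 𝓝[>] (0:ℝ))
    obtain ⟨s, ⟨⟨hs1, _⟩, hs2⟩, hs3⟩ := hev.exists
    intro y hy1 hy2
    rcases sep D.isOpen hpre hdis with h4 | h4
    · exact h4 ⟨hy1, hy2⟩
    · exfalso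
      exact h4 ⟨hs2, hs1⟩ (subset_closure (hin s hs3.1 hs3.2).1)
  -- (b)
  have hb : ∀ᶠ y in 𝓝 p, y 2 < 0 → y ∈ D.W := by
    obtain ⟨δ, hδ, hball⟩ := Metric.mem_nhds_iff.mp (B.U_nhds hε0 hεr)
    have hconv : Convex ℝ ({y : V3 | y ∈ ball p δ ∧ y 2 < 0}) := by
      have h4 : Convex ℝ {y : V3 | y 2 < 0} := by
        intro x hx y hy a b ha hb hab
        simp only [mem_ofPred_eq] at hx hy ⊢
        simp only [PiLp.add_apply, PiLp.smul_apply, smul_eq_mul]
        rcases ha.lt_or_eq with ha' | ha'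
        · nlinarith
        · rw [← ha'] at hab ⊢
          have : b = 1 := by linarith
          rw [this]; linarith
      exact (convex_ball p δ).inter h4
    have hdis : Disjoint {y : V3 | y ∈ ball p δ ∧ y 2 < 0} (frontier D.W) := by
      rw [Set.disjoint_left]
      rintro y ⟨hy1, hy2⟩ hy3
      have hyU := hball hy1
      obtain ⟨h4, h5⟩ := hεV y hyU
      rcases D.fr hy3 with h6 | h6
      · obtain ⟨h7, h8⟩ := h5.1 h6
        obtain ⟨h9, h10, h11⟩ := B.coord hεr hyU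
        rw [h7, zero_smul, add_zero] at h11
        have h12 := (h3' (B.b y) (h9.trans_le hερ)).1 h8
        rw [h11] at h12
        linarith
      · linarith [h6.1]
    set η : ℝ := min (δ / 2) (1 / 2) with hη
    have hη0 : 0 < η := lt_min (by linarith) (by norm_num)
    have hη1 : η ≤ δ / 2 := min_le_left _ _
    have hη2 : η ≤ 1 / 2 := min_le_right _ _
    obtain ⟨ε₁, hε₁, hin⟩ := D.inD ((1 - η) • p) (by simp [hbd.1]) (by
      simp only [PiLp.smul_apply, smul_eq_mul]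
      have : ((1 - η) * p 0) ^ 2 + ((1 - η) * p 1) ^ 2 = (1 - η) ^ 2 * (p 0 ^ 2 + p 1 ^ 2) := by ring
      rw [this, hbd.2]
      nlinarith)
    set s : ℝ := min (ε₁ / 2) (δ / 4) with hs
    have hs0 : 0 < s := lt_min (by linarith) (by linarith)
    have hs1 : s < ε₁ := lt_of_le_of_lt (min_le_left _ _) (by linarith)
    have hs2 : s ≤ δ / 4 := min_le_right _ _
    have hE : ‖E3‖ = 1 := by
      have h1 : ‖E3‖ ^ 2 = 1 := by rw [nsq]; simp
      nlinarith [norm_nonneg E3]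
    have hmem : (1 - η) • p - s • E3 ∈ {y : V3 | y ∈ ball p δ ∧ y 2 < 0} := by
      constructor
      · rw [mem_ball, dist_eq_norm]
        have h4 : (1 - η) • p - s • E3 - p = -(η • p + s • E3) := by module
        rw [h4, norm_neg]
        calc ‖η • p + s • E3‖ ≤ ‖η • p‖ + ‖s • E3‖ := norm_add_le _ _
          _ = η + s := by
              rw [norm_smul, norm_smul, hpn, hE, Real.norm_eq_abs, Real.norm_eq_abs,
                abs_of_pos hη0, abs_of_pos hs0]
              ring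
          _ < δ := by linarith
      · simp only [PiLp.sub_apply, PiLp.smul_apply, smul_eq_mul, hbd.1, E3_2]
        linarith
    filter_upwards [ball_mem_nhds p hδ] with y hy1 hy2
    rcases sep D.isOpen hconv.isPreconnected hdis with h4 | h4
    · exact h4 ⟨hy1, hy2⟩
    · exfalso
      exact h4 hmem (subset_closure (hin s hs0 hs1).1)
  -- (c)
  have hN2 : |S.N u₀ 2| ≤ 1 := by
    have h4 := S.N_norm hu₀.le
    have h5 : ‖S.N u₀‖ ^ 2 = 1 := by rw [h4]; norm_num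
    rw [nsq] at h5
    rw [abs_le]
    constructor <;> nlinarith [sq_nonneg (S.N u₀ 0), sq_nonneg (S.N u₀ 1)]
  set M : ℝ := 2 / S.Nr u₀ with hM
  set e' : V3 := E3 + M • p with he'
  have he'2 : e' 2 = 1 := by
    simp [he', hbd.1]
  have hpos' : 0 < ⟪nn S.X u₀, e'⟫ := by
    rw [S.nn_eq hu₀.le, inner_smul_left]
    have h4 : ⟪S.N u₀, e'⟫ = S.N u₀ 2 + M * S.Nr u₀ := by
      rw [he', inner_add_right, inner_smul_right]
      have h5 : ⟪S.N u₀, E3⟫ = S.N u₀ 2 := by rw [ip]; simp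
      rw [h5]
      rfl
    have h5 : M * S.Nr u₀ = 2 := by rw [hM]; field_simp
    rw [h4, h5]
    have h6 := S.nn_pos hu₀.le
    have h7 := (abs_le.mp hN2).1
    simp only [RCLike.conj_to_real]
    apply mul_pos h6
    linarith
  obtain ⟨B'⟩ := exists_box S.smooth hpos'
  obtain ⟨ε', hε'0, hε'r, hε'ρ, hε'V, hcmp⟩ :=
    LOCP_cmp S B B' (B.U_nhds hε0 hεr) hρ
  have hQpre := LOCP_pre S B' he'2 hε'0 hε'r
    (fun u hu => (h3' u (hu.trans_le hε'ρ)).2)
  have hQdis : Disjoint {y | y ∈ B'.U ε' ∧ B'.f y < 0 ∧ 0 < y 2} (frontier D.W) := by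
    rw [Set.disjoint_left]
    rintro y ⟨hy1, hy2, hy3⟩ hy4
    have hyf := (hcmp y hy1).1 hy2
    obtain ⟨h4, h5⟩ := hεV y (hε'V hy1)
    rcases D.fr hy4 with h6 | h6
    · linarith [(h5.1 h6).1]
    · linarith [h6.1]
  have hQ : {y | y ∈ B'.U ε' ∧ B'.f y < 0 ∧ 0 < y 2} ⊆ (closure D.W)ᶜ := by
    obtain ⟨u, hu1, hu2⟩ := LOCP_inside hu₀ hε'0
    obtain ⟨ε₁, hε₁, hin⟩ := D.inS u hu2
    have hside := LOCP_side S B' hu2.le (hu1.trans_le hε'r)
    have hUe : S.X u ∈ B'.U ε' := ⟨u, 0, hu1, by simpa using hε'0, by simp⟩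
    have hX2 := (h3' u (hu1.trans_le hε'ρ)).2.2 hu2
    have hcont : Tendsto (fun s : ℝ => S.X u - s • S.N u) (𝓝[>] 0) (𝓝 (S.X u)) := by
      have : Tendsto (fun s : ℝ => S.X u - s • S.N u) (𝓝 0) (𝓝 (S.X u - (0:ℝ) • S.N u)) :=
        (continuous_const.sub (continuous_id.smul continuous_const)).continuousAt.tendsto
      rw [zero_smul, sub_zero] at this
      exact this.mono_left nhdsWithin_le_nhds
    have hopen1 : IsOpen {y : V3 | 0 < y 2} :=
      isOpen_lt continuous_const (EuclideanSpace.proj (𝕜 := ℝ) (2 : Fin 3)).continuous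
    have hopen2 : {y : V3 | 0 < y 2} ∈ 𝓝 (S.X u) := hopen1.mem_nhds (show 0 < (S.X u) 2 from hX2)
    have hev := ((hside.and (hcont.eventually ((B'.U_open hε'0 hε'r).mem_nhds hUe))).and
      (hcont.eventually hopen2)).and (Ioo_mem_nhdsGT hε₁ : Ioo 0 ε₁ ∈ 𝓝[>] (0:ℝ))
    obtain ⟨s, ⟨⟨⟨_, hs1⟩, hs2⟩, hs4⟩, hs3⟩ := hev.exists
    rcases sep D.isOpen hQpre hQdis with h4 | h4
    · exfalso
      exact (hin s hs3.1 hs3.2).2 (subset_closure (h4 ⟨hs2, hs1, hs4⟩))
    · exact h4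
  filter_upwards [B.U_nhds hε0 hεr, hb, B'.U_nhds hε'0 hε'r] with y hy1 hy2 hy3
  exact ⟨ha y hy1, hy2, fun h4 h5 => hQ ⟨hy3, (hcmp y hy3).2 h4, h5⟩⟩

end Pool.Agent.H99.SC
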