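import Pool.Agent.H99.SC.ORI

/-!
# LOCZ: the domain near a boundary point with `N = -E3`

`‖u₀‖ = 1`, `p = S.X u₀`, box `B` at `u₀` (any `e`).  `r^2 = y 0^2 + y 1^2`.  `Xr_p`, `ori`:
`⟪fderiv X u₀ u₀, p⟫ = N_3 β = -β < 0`, so `r > 1` at inside points and `r < 1` at outside points (`hr_out`).
`B.f` increases downwards: `Df E3 = ⟪g,E3⟫ < 0` near `p` (`g` is a positive multiple of `N`, near
`-E3`).  All points below are in a small `B.U ε` (`box_sig`).
 (a) `r > 1, f y > 0 → y ∈ W`: go up from `y` (`y + s E3`) until `f = 0` (soon if `y` is near `p`): a point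
   `Z = X v` with `r > 1`, so `‖v‖ < 1`; the path before `Z` avoids `S.Sig` (`f > 0`) and `Disc`
   (`r > 1`); just below `Z` the points are in `W` (box `B'` at `v` with the same `e`, `lsig`,
   `B'.f` decreases along `E3`): `sep`.
 (b) `r > 1, f y < 0 → y ∉ closure W`: go down until `f = 0`, same.
 (c) `f y > 0, y 2 < 0 → y ∈ W`: if `r > 1` this is (a); if `r < 1`: go up vertically to the disc, the path
   avoids `S.Sig` (points of `S.Sig` near `p` have `r ≥ 1`), just below the disc is `W` (`ldisc`);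
   if `r = 1`: the set `{f > 0, y 2 < 0}` is open near `y` and avoids the frontier, so a small ball around
   `y` is in `W` or outside the closure, and it contains points with `r < 1`.
 (d) `f y < 0, y 2 > 0 → y ∉ closure W`: if `r > 1` this is (b), if `r < 1` go down
   vertically to the disc (just above it: not in the closure), `r = 1`: as in (c).
-/

set_option autoImplicit false

open scoped RealInnerProductSpace Topology
open Metric Filter Set

noncomputable section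

namespace Pool.Agent.H99.SC

theorem LOCZ_norm_E3 : ‖E3‖ = 1 := by
  have h : ‖E3‖ ^ 2 = 1 := by rw [nsq]; simp
  nlinarith [norm_nonneg E3]

/-- derivative of `f` along a line -/
theorem LOCZ_line {X : V2 → V3} {u₀ : V2} {e : V3} (B : Box X u₀ e) (hX : ContDiff ℝ 2 X)
    {y v : V3} {s : ℝ} (hy : y + s • v ∈ B.U B.r) :
    HasDerivAt (fun t : ℝ => B.f (y + t • v)) ⟪B.g (y + s • v), v⟫ s := by
  have h1 := ((B.smooth_f hy).differentiableAt (by norm_num)).hasFDerivAt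
  have h2 : HasDerivAt (fun t : ℝ => y + t • v) v s := by
    simpa using ((hasDerivAt_id s).smul_const v).const_add y
  have h3 := h1.comp_hasDerivAt s h2
  rw [B.fd hX hy] at h3
  exact h3

/-- following a direction in which `σ f` decreases until `f = 0` -/
theorem LOCZ_path {X : V2 → V3} {u₀ : V2} {e : V3} (B : Box X u₀ e) (hX : ContDiff ℝ 2 X)
    {p v : V3} (hv : ‖v‖ = 1) {δ c σ : ℝ} (hδ : 0 < δ) (hc : 0 < c)
    (h : ∀ z ∈ ball p δ, z ∈ B.U B.r ∧ σ * ⟪B.g z, v⟫ < -c) {y : V3} (hy : y ∈ ball p (δ / 2))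
    (h0 : 0 < σ * B.f y) (h1 : σ * B.f y < c * (δ / 2)) :
    ∃ s₁ : ℝ, 0 < s₁ ∧ s₁ ≤ δ / 2 ∧ B.f (y + s₁ • v) = 0 ∧
      ∀ s : ℝ, 0 ≤ s → s < s₁ → 0 < σ * B.f (y + s • v) := by
  have hb : ∀ s : ℝ, 0 ≤ s → s ≤ δ / 2 → y + s • v ∈ ball p δ := by
    intro s hs hs'
    rw [mem_ball, dist_eq_norm] at hy ⊢
    have e1 : y + s • v - p = (y - p) + s • v := by abel
    rw [e1]
    refine (norm_add_le _ _).trans_lt ?_
    rw [norm_smul, hv, mul_one, Real.norm_eq_abs, abs_of_nonneg hs]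
    linarith
  have hd : ∀ s : ℝ, 0 ≤ s → s ≤ δ / 2 →
      HasDerivAt (fun t : ℝ => σ * B.f (y + t • v)) (σ * ⟪B.g (y + s • v), v⟫) s := by
    intro s hs hs'
    exact (LOCZ_line B hX (h _ (hb s hs hs')).1).const_mul σ
  have hcont : ContinuousOn (fun t : ℝ => σ * B.f (y + t • v)) (Icc 0 (δ / 2)) := fun s hs =>
    (hd s hs.1 hs.2).continuousAt.continuousWithinAt
  have hmv : ∀ s t : ℝ, 0 ≤ s → s ≤ t → t ≤ δ / 2 →
      σ * B.f (y + t • v) - σ * B.f (y + s • v) ≤ -c * (t - s) := by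
    intro s t hs hst ht
    refine Convex.image_sub_le_mul_sub_of_deriv_le (convex_Icc 0 (δ / 2)) hcont ?_ ?_ s
      ⟨hs, hst.trans ht⟩ t ⟨hs.trans hst, ht⟩ hst
    · intro x hx
      rw [interior_Icc] at hx
      exact (hd x hx.1.le hx.2.le).differentiableAt.differentiableWithinAt
    · intro x hx
      rw [interior_Icc] at hx
      rw [(hd x hx.1.le hx.2.le).deriv]
      exact (h _ (hb x hx.1.le hx.2.le)).2.le
  have hz : (fun t : ℝ => σ * B.f (y + t • v)) 0 = σ * B.f y := by simp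
  have hiv := intermediate_value_Icc' (show (0 : ℝ) ≤ δ / 2 by linarith) hcont
  have hmem : (0 : ℝ) ∈ Icc (σ * B.f (y + (δ / 2) • v)) (σ * B.f (y + (0 : ℝ) • v)) := by
    constructor
    · have := hmv 0 (δ / 2) le_rfl (by linarith) le_rfl
      simp only [zero_smul, add_zero, sub_zero] at this
      linarith
    · simp only [zero_smul, add_zero]
      exact h0.le
  obtain ⟨s₁, hs₁, hs₂⟩ := hiv hmem
  have hσ : σ ≠ 0 := by
    rintro rfl
    simp at h0
  have hs0 : 0 < s₁ := by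
    rcases hs₁.1.eq_or_lt with h2 | h2
    · rw [← h2] at hs₂
      simp only [zero_smul, add_zero] at hs₂
      exact absurd hs₂ h0.ne'
    · exact h2
  refine ⟨s₁, hs0, hs₁.2, (mul_eq_zero.1 hs₂).resolve_left hσ, ?_⟩
  intro s hs hss
  have h3 := hmv s s₁ hs hss.le hs₁.2
  have h4 : σ * B.f (y + s₁ • v) = 0 := hs₂
  nlinarith

/-- a segment avoiding the surface and the disc -/
theorem LOCZ_seg {S : Surf} (D : PreDom S) {y v : V3} {s₁ : ℝ} (h0 : 0 < s₁)
    (hav : ∀ s : ℝ, 0 ≤ s → s < s₁ → y + s • v ∉ S.Sig ∪ Disc) :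
    (∀ s : ℝ, 0 ≤ s → s < s₁ → y + s • v ∈ D.W → y ∈ D.W) ∧
    (∀ s : ℝ, 0 ≤ s → s < s₁ → y + s • v ∉ closure D.W → y ∉ closure D.W) := by
  have hA : IsPreconnected ((fun s : ℝ => y + s • v) '' Ico 0 s₁) :=
    isPreconnected_Ico.image _ (by fun_prop)
  have hdis : Disjoint ((fun s : ℝ => y + s • v) '' Ico 0 s₁) (frontier D.W) := by
    rw [Set.disjoint_left]
    rintro z ⟨s, hs, rfl⟩ hz
    exact hav s hs.1 hs.2 (D.fr hz)
  have hy : y ∈ (fun s : ℝ => y + s • v) '' Ico 0 s₁ := ⟨0, ⟨le_rfl, h0⟩, by simp⟩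
  rcases sep D.isOpen hA hdis with h | h
  · refine ⟨fun _ _ _ _ => h hy, fun s hs hs' h1 => ?_⟩
    exact absurd (subset_closure (h ⟨s, ⟨hs, hs'⟩, rfl⟩)) h1
  · refine ⟨fun s hs hs' h1 => ?_, fun _ _ _ _ => h hy⟩
    exact absurd (subset_closure h1) (h ⟨s, ⟨hs, hs'⟩, rfl⟩)

/-- a ball avoiding the surface and the disc -/
theorem LOCZ_ball {S : Surf} (D : PreDom S) {y z : V3} {κ : ℝ} (h0 : 0 < κ)
    (hav : ∀ x ∈ ball y κ, x ∉ S.Sig ∪ Disc) (hz : z ∈ ball y κ) :
    (z ∈ D.W → y ∈ D.W) ∧ (z ∉ closure D.W → y ∉ closure D.W) := by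
  have hA : IsPreconnected (ball y κ) := (convex_ball y κ).isPreconnected
  have hdis : Disjoint (ball y κ) (frontier D.W) := by
    rw [Set.disjoint_left]
    intro x hx hx'
    exact hav x hx (D.fr hx')
  have hy : y ∈ ball y κ := mem_ball_self h0
  rcases sep D.isOpen hA hdis with h | h
  · exact ⟨fun _ => h hy, fun h1 => absurd (subset_closure (h hz)) h1⟩
  · exact ⟨fun h1 => absurd (subset_closure h1) (h hz), fun _ => h hy⟩

/-- the domain near an interior point of the surface, seen in a box with centre elsewhere -/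
theorem LOCZ_end {S : Surf} (D : PreDom S) {u₀ : V2} {e : V3} (B : Box S.X u₀ e) {Z v : V3}
    (hZ : Z ∈ B.U B.r) (hf : B.f Z = 0) (hb : ‖B.b Z‖ < 1) :
    (⟪B.g Z, v⟫ < 0 → ∀ᶠ t in 𝓝[<] (0 : ℝ), Z + t • v ∈ D.W) ∧
    (0 < ⟪B.g Z, v⟫ → ∀ᶠ t in 𝓝[<] (0 : ℝ), Z + t • v ∉ closure D.W) := by
  obtain ⟨B'⟩ := exists_box S.smooth (B.pos' hZ)
  obtain ⟨ε, h1, h2, h3⟩ := lsig D hb B'
  have hc := B.coord le_rfl hZ
  have hXZ : S.X (B.b Z) = Z := by
    have := hc.2.2
    rw [hf, zero_smul, add_zero] at this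
    exact this
  have hZ' : Z ∈ B'.U B'.r := by
    have := B'.mem_U B'.hr
    rw [hXZ] at this
    exact this
  have hb' : B'.b Z = B.b Z := by
    have := B'.b_X (u := B.b Z) (by simpa using B'.hr)
    rw [hXZ] at this
    exact this
  have hf' : B'.f Z = 0 := by
    have := B'.f_X (u := B.b Z) (by simpa using B'.hr)
    rw [hXZ] at this
    exact this
  have hg' : B'.g Z = B.g Z := by
    unfold Box.g
    rw [hb']
  have hder : HasDerivAt (fun t : ℝ => B'.f (Z + t • v)) ⟪B.g Z, v⟫ 0 := by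
    have hZ0 : Z + (0 : ℝ) • v ∈ B'.U B'.r := by simpa using hZ'
    have := LOCZ_line B' S.smooth hZ0
    rw [zero_smul, add_zero, hg'] at this
    exact this
  have hnh : ∀ᶠ t in 𝓝[<] (0 : ℝ), Z + t • v ∈ B'.U ε := by
    have hU : B'.U ε ∈ 𝓝 Z := by
      have := B'.U_nhds h1 h2
      rw [hXZ] at this
      exact this
    have hco : ContinuousAt (fun t : ℝ => Z + t • v) 0 := by fun_prop
    have : Tendsto (fun t : ℝ => Z + t • v) (𝓝 0) (𝓝 Z) := by
      have := hco.tendsto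
      simpa using this
    exact (this.eventually hU).filter_mono nhdsWithin_le_nhds
  have hsl := (hasDerivAt_iff_tendsto_slope_zero.1 hder).mono_left
    (show 𝓝[<] (0 : ℝ) ≤ 𝓝[≠] 0 from nhdsWithin_mono _ (fun x hx => ne_of_lt hx))
  constructor
  · intro hneg
    filter_upwards [hnh, hsl.eventually_lt_const hneg, self_mem_nhdsWithin] with t ht1 ht2 ht3
    have ht3' : t < 0 := ht3
    rw [(h3 _ ht1).2.2.2.1]
    simp only [zero_add, zero_smul, add_zero, hf', sub_zero, smul_eq_mul] at ht2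
    have : t⁻¹ < 0 := inv_lt_zero.2 ht3'
    by_contra hcon
    push Not at hcon
    have := mul_nonneg_of_nonpos_of_nonpos this.le hcon
    linarith
  · intro hpos
    filter_upwards [hnh, hsl.eventually_const_lt hpos, self_mem_nhdsWithin] with t ht1 ht2 ht3
    have ht3' : t < 0 := ht3
    rw [(h3 _ ht1).2.2.2.2]
    simp only [zero_add, zero_smul, add_zero, hf', sub_zero, smul_eq_mul] at ht2
    have : t⁻¹ < 0 := inv_lt_zero.2 ht3'
    intro hcon
    have := mul_nonpos_of_nonpos_of_nonneg this.le hcon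
    linarith

/-- combination: going along `v` until the surface is met at an interior point -/
theorem LOCZ_go {S : Surf} (D : PreDom S) {u₀ : V2} {e : V3} (B : Box S.X u₀ e) {y v : V3}
    {s₁ : ℝ} (h0 : 0 < s₁) (hZ : y + s₁ • v ∈ B.U B.r) (hf : B.f (y + s₁ • v) = 0)
    (hb : ‖B.b (y + s₁ • v)‖ < 1)
    (hav : ∀ s : ℝ, 0 ≤ s → s < s₁ → y + s • v ∉ S.Sig ∪ Disc) :
    (⟪B.g (y + s₁ • v), v⟫ < 0 → y ∈ D.W) ∧ (0 < ⟪B.g (y + s₁ • v), v⟫ → y ∉ closure D.W) := by
  have hend := LOCZ_end D B (v := v) hZ hf hb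
  have hseg := LOCZ_seg D h0 hav
  have hlt : ∀ᶠ t in 𝓝[<] (0 : ℝ), -s₁ < t :=
    (lt_mem_nhds (show -s₁ < 0 by linarith)).filter_mono nhdsWithin_le_nhds
  constructor
  · intro h
    obtain ⟨t, ht1, ht2, ht3⟩ := ((hend.1 h).and (hlt.and self_mem_nhdsWithin)).exists
    have ht3' : t < 0 := ht3
    refine hseg.1 (s₁ + t) (by linarith) (by linarith) ?_
    have : y + (s₁ + t) • v = y + s₁ • v + t • v := by module
    rw [this]
    exact ht1
  · intro h
    obtain ⟨t, ht1, ht2, ht3⟩ := ((hend.2 h).and (hlt.and self_mem_nhdsWithin)).exists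
    have ht3' : t < 0 := ht3
    refine hseg.2 (s₁ + t) (by linarith) (by linarith) ?_
    have : y + (s₁ + t) • v = y + s₁ • v + t • v := by module
    rw [this]
    exact ht1

/-- inside the cylinder: vertical path to the disc -/
theorem LOCZ_in {S : Surf} (D : PreDom S) {y : V3} (hr : y 0 ^ 2 + y 1 ^ 2 < 1) :
    (y 2 < 0 → (∀ s : ℝ, 0 ≤ s → s < -y 2 → y + s • E3 ∉ S.Sig) → y ∈ D.W) ∧
    (0 < y 2 → (∀ s : ℝ, 0 ≤ s → s < y 2 → y + s • (-E3) ∉ S.Sig) → y ∉ closure D.W) := by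
  constructor
  · intro h2 hS
    have hseg := LOCZ_seg D (y := y) (v := E3) (s₁ := -y 2) (by linarith) (by
      intro s hs hs' hmem
      rcases hmem with hmem | hmem
      · exact hS s hs hs' hmem
      · have := hmem.1
        simp at this
        linarith)
    set d : V3 := y + (-y 2) • E3 with hd
    have hd2 : d 2 = 0 := by simp [hd]
    have hd1 : d 0 ^ 2 + d 1 ^ 2 < 1 := by simpa [hd] using hr
    obtain ⟨ε, h1, h3⟩ := ldisc D hd2 hd1
    set t : ℝ := min (-y 2 / 2) (ε / 2) with ht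
    have ht0 : 0 < t := lt_min (by linarith) (by linarith)
    have ht1 : t ≤ -y 2 / 2 := min_le_left _ _
    have ht2 : t ≤ ε / 2 := min_le_right _ _
    refine hseg.1 (-y 2 - t) (by linarith) (by linarith) ?_
    have e1 : y + (-y 2 - t) • E3 = d + (-t) • E3 := by rw [hd]; module
    rw [e1]
    have hb : d + (-t) • E3 ∈ ball d ε := by
      rw [mem_ball, dist_eq_norm, add_sub_cancel_left, norm_smul, LOCZ_norm_E3, mul_one,
        Real.norm_eq_abs, abs_neg, abs_of_pos ht0]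
      linarith
    rw [(h3 _ hb).2.1]
    simp [hd2, ht0]
  · intro h2 hS
    have hseg := LOCZ_seg D (y := y) (v := -E3) (s₁ := y 2) (by linarith) (by
      intro s hs hs' hmem
      rcases hmem with hmem | hmem
      · exact hS s hs hs' hmem
      · have := hmem.1
        simp at this
        linarith)
    set d : V3 := y + (y 2) • (-E3) with hd
    have hd2 : d 2 = 0 := by simp [hd]
    have hd1 : d 0 ^ 2 + d 1 ^ 2 < 1 := by simpa [hd] using hr
    obtain ⟨ε, h1, h3⟩ := ldisc D hd2 hd1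
    set t : ℝ := min (y 2 / 2) (ε / 2) with ht
    have ht0 : 0 < t := lt_min (by linarith) (by linarith)
    have ht1 : t ≤ y 2 / 2 := min_le_left _ _
    have ht2 : t ≤ ε / 2 := min_le_right _ _
    refine hseg.2 (y 2 - t) (by linarith) (by linarith) ?_
    have e1 : y + (y 2 - t) • (-E3) = d + t • E3 := by rw [hd]; module
    rw [e1]
    have hb : d + t • E3 ∈ ball d ε := by
      rw [mem_ball, dist_eq_norm, add_sub_cancel_left, norm_smul, LOCZ_norm_E3, mul_one,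
        Real.norm_eq_abs, abs_of_pos ht0]
      linarith
    rw [(h3 _ hb).2.2]
    simp [hd2, ht0]

/-- a nearby point inside the cylinder -/
theorem LOCZ_shrink {y : V3} (hr : y 0 ^ 2 + y 1 ^ 2 = 1) {κ : ℝ} (hκ : 0 < κ) :
    ∃ z ∈ ball y κ, z 0 ^ 2 + z 1 ^ 2 < 1 ∧ z 2 = y 2 := by
  set τ : ℝ := min (1 / 2) (κ / 2) with hτ
  have h0 : 0 < τ := lt_min (by norm_num) (by linarith)
  have h1 : τ ≤ 1 / 2 := min_le_left _ _
  have h2 : τ ≤ κ / 2 := min_le_right _ _
  set w : V3 := !₂[y 0, y 1, 0] with hw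
  have hw1 : ‖w‖ = 1 := by
    have h : ‖w‖ ^ 2 = 1 := by rw [nsq]; simpa [hw] using hr
    nlinarith [norm_nonneg w]
  refine ⟨y - τ • w, ?_, ?_, by simp [hw]⟩
  · rw [mem_ball, dist_eq_norm]
    have : y - τ • w - y = -(τ • w) := by abel
    rw [this, norm_neg, norm_smul, hw1, mul_one, Real.norm_eq_abs, abs_of_pos h0]
    linarith
  · have e1 : (y - τ • w) 0 = (1 - τ) * y 0 := by simp [hw]; ring
    have e2 : (y - τ • w) 1 = (1 - τ) * y 1 := by simp [hw]; ring
    rw [e1, e2]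
    have : ((1 - τ) * y 0) ^ 2 + ((1 - τ) * y 1) ^ 2 = (1 - τ) ^ 2 * (y 0 ^ 2 + y 1 ^ 2) := by ring
    rw [this, hr]
    nlinarith

theorem loc_zero {S : Surf} (D : PreDom S) {u₀ : V2} (hu₀ : ‖u₀‖ = 1) (h : S.N u₀ = -E3) {e : V3}
    (B : Box S.X u₀ e) : ∀ᶠ y in 𝓝 (S.X u₀),
      (1 < y 0 ^ 2 + y 1 ^ 2 → 0 < B.f y → y ∈ D.W) ∧
      (1 < y 0 ^ 2 + y 1 ^ 2 → B.f y < 0 → y ∉ closure D.W) ∧
      (0 < B.f y → y 2 < 0 → y ∈ D.W) ∧
      (B.f y < 0 → 0 < y 2 → y ∉ closure D.W) := by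
  -- direction of the surface
  have hp := S.bd1 hu₀
  have hNr : S.Nr u₀ = 0 := by
    unfold Surf.Nr
    rw [h, ip]
    simp [hp.1]
  have hnu : S.nu u₀ = -S.X u₀ := by
    unfold Surf.nu
    rw [hNr, h]
    simp
  have hori := ori D hu₀
  rw [hnu, inner_neg_right] at hori
  have hr := hr_out S hu₀ (by linarith)
  obtain ⟨ρ, hρ, hr'⟩ := Metric.eventually_nhds_iff.1 hr
  obtain ⟨ε₀, hε₀, hε₀', -, hsig⟩ := box_sig S hu₀.le B
  set ε₁ : ℝ := min ε₀ ρ with hε₁
  have hε₁0 : 0 < ε₁ := lt_min hε₀ hρ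
  have hε₁r : ε₁ ≤ B.r := (min_le_left _ _).trans hε₀'
  set p : V3 := S.X u₀ with hpdef
  have hpU : p ∈ B.U B.r := B.mem_U B.hr
  have hbp : B.b p = u₀ := B.b_X (by simpa using B.hr)
  have hfp : B.f p = 0 := B.f_X (by simpa using B.hr)
  -- the gradient
  have hgp : ⟪B.g p, E3⟫ = -‖B.g p‖ := by
    have h1 := B.g_eq hpU
    rw [hbp] at h1
    have h2 : NN S.X u₀ = -E3 := h
    rw [h2] at h1
    have h3 : ⟪B.g p, E3⟫ = ⟪‖B.g p‖ • (-E3), E3⟫ := by rw [← h1]
    rw [h3, inner_smul_left, inner_neg_left, real_inner_self_eq_norm_sq, LOCZ_norm_E3]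
    simp
  have hgpos := B.g_pos hpU
  set c : ℝ := ‖B.g p‖ / 2 with hc
  have hc0 : 0 < c := by positivity
  have hgc : ContinuousAt (fun z => ⟪B.g z, E3⟫) p :=
    (B.g_cont S.smooth hpU).inner continuousAt_const
  have hgev : ∀ᶠ z in 𝓝 p, ⟪B.g z, E3⟫ < -c := by
    refine hgc.eventually_lt_const ?_
    show ⟪B.g p, E3⟫ < -c
    rw [hgp]
    linarith
  obtain ⟨δ, hδ, hδ'⟩ := Metric.eventually_nhds_iff_ball.1
    (hgev.and (B.U_nhds hε₁0 hε₁r))
  have F1 : ∀ z ∈ ball p δ, z ∈ B.U B.r := fun z hz => B.U_mono hε₁r (hδ' z hz).2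
  have F2 : ∀ z ∈ ball p δ, ⟪B.g z, E3⟫ < -c := fun z hz => (hδ' z hz).1
  have F3 : ∀ z ∈ ball p δ, (z ∈ S.Sig ↔ (B.f z = 0 ∧ ‖B.b z‖ ≤ 1)) := fun z hz =>
    hsig z (B.U_mono (min_le_left _ _) (hδ' z hz).2)
  have F0 : ∀ z ∈ ball p δ, B.f z = 0 → S.X (B.b z) = z ∧
      ((‖B.b z‖ < 1 → 1 < z 0 ^ 2 + z 1 ^ 2) ∧ (1 < ‖B.b z‖ → z 0 ^ 2 + z 1 ^ 2 < 1)) ∧
      (‖B.b z‖ = 1 → z 0 ^ 2 + z 1 ^ 2 = 1) := by
    intro z hz hf
    have hco := B.coord hε₁r (hδ' z hz).2
    have hX : S.X (B.b z) = z := by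
      have := hco.2.2
      rw [hf, zero_smul, add_zero] at this
      exact this
    have h1 := hr' (y := B.b z) (by
      rw [dist_eq_norm]
      exact hco.1.trans_le (min_le_right _ _))
    rw [hX] at h1
    refine ⟨hX, h1, fun h2 => ?_⟩
    have := (S.bd1 h2).2
    rw [hX] at this
    exact this
  have F4 : ∀ z ∈ ball p δ, B.f z = 0 → 1 < z 0 ^ 2 + z 1 ^ 2 → ‖B.b z‖ < 1 := by
    intro z hz hf h1
    obtain ⟨-, ⟨-, h2⟩, h3⟩ := F0 z hz hf
    rcases lt_trichotomy ‖B.b z‖ 1 with h4 | h4 | h4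
    · exact h4
    · have := h3 h4; linarith
    · have := h2 h4; linarith
  have F5 : ∀ z ∈ ball p δ, z ∈ S.Sig → 1 ≤ z 0 ^ 2 + z 1 ^ 2 := by
    intro z hz hS
    obtain ⟨hf, hb⟩ := (F3 z hz).1 hS
    obtain ⟨-, ⟨h2, -⟩, h3⟩ := F0 z hz hf
    rcases hb.lt_or_eq with h4 | h4
    · exact (h2 h4).le
    · exact (h3 h4).ge
  -- continuity of f
  have hfc : ContinuousAt B.f p := (B.smooth_f hpU).continuousAt
  have hfev : ∀ᶠ z in 𝓝 p, |B.f z| < c * (δ / 2) := by
    refine hfc.abs.eventually_lt_const ?_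
    show |B.f p| < c * (δ / 2)
    rw [hfp, abs_zero]
    positivity
  obtain ⟨η, hη, hη'⟩ := Metric.eventually_nhds_iff_ball.1 hfev
  set ζ : ℝ := min η (δ / 2) with hζ
  have hζ0 : 0 < ζ := lt_min hη (by linarith)
  have hζδ : ζ ≤ δ / 2 := min_le_right _ _
  -- vertical segments stay in the ball
  have hvert : ∀ y ∈ ball p ζ, ∀ s : ℝ, |s| ≤ δ / 2 → y + s • E3 ∈ ball p δ := by
    intro y hy s hs
    rw [mem_ball, dist_eq_norm] at hy ⊢
    have e1 : y + s • E3 - p = (y - p) + s • E3 := by abel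
    rw [e1]
    refine (norm_add_le _ _).trans_lt ?_
    rw [norm_smul, LOCZ_norm_E3, mul_one, Real.norm_eq_abs]
    linarith
  have hsub : ∀ y ∈ ball p ζ, y ∈ ball p δ := fun y hy =>
    ball_subset_ball (by linarith) hy
  have hy2 : ∀ y ∈ ball p ζ, |y 2| < δ / 2 := by
    intro y hy
    rw [mem_ball, dist_eq_norm] at hy
    have h1 : |(y - p) 2| ≤ ‖y - p‖ := by
      have := PiLp.norm_apply_le (y - p) 2
      simpa using this
    have h2 : (y - p) 2 = y 2 := by simp [hp.1]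
    rw [h2] at h1
    linarith
  -- (a)
  have Ha : ∀ y ∈ ball p ζ, 1 < y 0 ^ 2 + y 1 ^ 2 → 0 < B.f y → y ∈ D.W := by
    intro y hy hry hfy
    have hyb : y ∈ ball p (δ / 2) := ball_subset_ball hζδ hy
    have hfs := (abs_lt.1 (hη' y (ball_subset_ball (min_le_left _ _) hy))).2
    obtain ⟨s₁, hs0, hs1, hs2, hs3⟩ := LOCZ_path B S.smooth LOCZ_norm_E3 (σ := 1) hδ hc0
      (p := p) (fun z hz => ⟨F1 z hz, by rw [one_mul]; exact F2 z hz⟩) hyb
      (by rw [one_mul]; exact hfy) (by rw [one_mul]; exact hfs)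
    have hZ : y + s₁ • E3 ∈ ball p δ := hvert y hy s₁ (by rw [abs_of_pos hs0]; exact hs1)
    have hrZ : ∀ s : ℝ, 1 < (y + s • E3) 0 ^ 2 + (y + s • E3) 1 ^ 2 := by
      intro s
      simpa using hry
    refine (LOCZ_go D B hs0 (F1 _ hZ) hs2 (F4 _ hZ hs2 (hrZ s₁)) ?_).1
      ((F2 _ hZ).trans (by linarith))
    intro s hs hs' hmem
    have hzb : y + s • E3 ∈ ball p δ := hvert y hy s (by rw [abs_of_nonneg hs]; linarith)
    rcases hmem with hmem | hmem
    · have h1 := ((F3 _ hzb).1 hmem).1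
      have h2 := hs3 s hs hs'
      rw [h1] at h2
      simp at h2
    · have h1 := hmem.2
      have h2 := hrZ s
      linarith
  -- (b)
  have Hb : ∀ y ∈ ball p ζ, 1 < y 0 ^ 2 + y 1 ^ 2 → B.f y < 0 → y ∉ closure D.W := by
    intro y hy hry hfy
    have hyb : y ∈ ball p (δ / 2) := ball_subset_ball hζδ hy
    have hfs := (abs_lt.1 (hη' y (ball_subset_ball (min_le_left _ _) hy))).1
    obtain ⟨s₁, hs0, hs1, hs2, hs3⟩ := LOCZ_path B S.smooth (v := -E3)
      (by rw [norm_neg]; exact LOCZ_norm_E3) (σ := -1) hδ hc0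
      (p := p) (fun z hz => ⟨F1 z hz, by
        rw [inner_neg_right, neg_mul_neg, one_mul]; exact F2 z hz⟩) hyb
      (by linarith) (by linarith)
    have hvert' : ∀ s : ℝ, 0 ≤ s → s ≤ δ / 2 → y + s • (-E3) ∈ ball p δ := by
      intro s hs hs'
      have := hvert y hy (-s) (by rw [abs_neg, abs_of_nonneg hs]; exact hs')
      rwa [neg_smul, ← smul_neg] at this
    have hZ : y + s₁ • (-E3) ∈ ball p δ := hvert' s₁ hs0.le hs1
    have hrZ : ∀ s : ℝ, 1 < (y + s • (-E3)) 0 ^ 2 + (y + s • (-E3)) 1 ^ 2 := by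
      intro s
      simpa using hry
    refine (LOCZ_go D B hs0 (F1 _ hZ) hs2 (F4 _ hZ hs2 (hrZ s₁)) ?_).2 ?_
    · intro s hs hs' hmem
      have hzb : y + s • (-E3) ∈ ball p δ := hvert' s hs (by linarith)
      rcases hmem with hmem | hmem
      · have h1 := ((F3 _ hzb).1 hmem).1
        have h2 := hs3 s hs hs'
        rw [h1] at h2
        simp at h2
      · have h1 := hmem.2
        have h2 := hrZ s
        linarith
    · rw [inner_neg_right]
      have := F2 _ hZ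
      linarith
  -- inside the cylinder
  have Hc1 : ∀ y ∈ ball p ζ, y 0 ^ 2 + y 1 ^ 2 < 1 → y 2 < 0 → y ∈ D.W := by
    intro y hy hry h2
    refine (LOCZ_in D hry).1 h2 ?_
    intro s hs hs' hS
    have h3 := (abs_lt.1 (hy2 y hy)).1
    have hzb : y + s • E3 ∈ ball p δ := hvert y hy s (by rw [abs_of_nonneg hs]; linarith)
    have h4 := F5 _ hzb hS
    simp at h4
    linarith
  have Hd1 : ∀ y ∈ ball p ζ, y 0 ^ 2 + y 1 ^ 2 < 1 → 0 < y 2 → y ∉ closure D.W := by
    intro y hy hry h2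
    refine (LOCZ_in D hry).2 h2 ?_
    intro s hs hs' hS
    have h3 := (abs_lt.1 (hy2 y hy)).2
    have hzb : y + s • (-E3) ∈ ball p δ := by
      have := hvert y hy (-s) (by rw [abs_neg, abs_of_nonneg hs]; linarith)
      rwa [neg_smul, ← smul_neg] at this
    have h4 := F5 _ hzb hS
    simp at h4
    linarith
  have hcoord2 : Continuous (fun z : V3 => z 2) := by fun_prop
  filter_upwards [ball_mem_nhds p hζ0] with y hy
  refine ⟨Ha y hy, Hb y hy, ?_, ?_⟩
  · intro hfy hyn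
    rcases lt_trichotomy (y 0 ^ 2 + y 1 ^ 2) 1 with hry | hry | hry
    · exact Hc1 y hy hry hyn
    · have hfcy : ContinuousAt B.f y := (B.smooth_f (F1 y (hsub y hy))).continuousAt
      have hev : ∀ᶠ z in 𝓝 y, z ∈ ball p ζ ∧ 0 < B.f z ∧ z 2 < 0 :=
        Filter.Eventually.and (isOpen_ball.mem_nhds hy) ((hfcy.eventually_const_lt hfy).and
          (hcoord2.continuousAt.eventually_lt_const hyn))
      obtain ⟨κ, hκ, hκ'⟩ := Metric.eventually_nhds_iff_ball.1 hev
      obtain ⟨z, hz, hz1, hz2⟩ := LOCZ_shrink hry hκ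
      refine (LOCZ_ball D hκ ?_ hz).1 (Hc1 z (hκ' z hz).1 hz1 (by rw [hz2]; exact hyn))
      intro x hx hmem
      obtain ⟨g1, g2, g3⟩ := hκ' x hx
      rcases hmem with hmem | hmem
      · have := ((F3 x (hsub x g1)).1 hmem).1
        linarith
      · have := hmem.1
        linarith
    · exact Ha y hy hry hfy
  · intro hfy hyn
    rcases lt_trichotomy (y 0 ^ 2 + y 1 ^ 2) 1 with hry | hry | hry
    · exact Hd1 y hy hry hyn
    · have hfcy : ContinuousAt B.f y := (B.smooth_f (F1 y (hsub y hy))).continuousAt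
      have hev : ∀ᶠ z in 𝓝 y, z ∈ ball p ζ ∧ B.f z < 0 ∧ 0 < z 2 :=
        Filter.Eventually.and (isOpen_ball.mem_nhds hy) ((hfcy.eventually_lt_const hfy).and
          (hcoord2.continuousAt.eventually_const_lt hyn))
      obtain ⟨κ, hκ, hκ'⟩ := Metric.eventually_nhds_iff_ball.1 hev
      obtain ⟨z, hz, hz1, hz2⟩ := LOCZ_shrink hry hκ
      refine (LOCZ_ball D hκ ?_ hz).2 (Hd1 z (hκ' z hz).1 hz1 (by rw [hz2]; exact hyn))
      intro x hx hmem
      obtain ⟨g1, g2, g3⟩ := hκ' x hx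
      rcases hmem with hmem | hmem
      · have := ((F3 x (hsub x g1)).1 hmem).1
        linarith
      · have := hmem.1
        linarith
    · exact Hb y hy hry hfy

end Pool.Agent.H99.SC
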