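import Pool.Agent.H99.SC.LOCN
import Pool.Agent.H99.SC.LOCP
import Pool.Agent.H99.SC.LOCZ

/-! # LOC: collects LOCN, LOCP, LOCZ -/
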