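import Pool.Agent.H99.SC.ORI

/-!
# LOCN: the domain near a boundary point with `N_r < 0`

`‖u₀‖ = 1`, `p = S.X u₀`, box `B` at `u₀` (any `e`; `B.g` is a positive multiple of the normal: `g_eq`).
`(fderiv X u₀ u₀) 2 = - N_r β > 0` (`Xr_2`, `ori`), so inside points have `(X u) 2 < 0` and outside ones
`> 0` (`h3_neg`), and `plane_neg` holds.  All points below are in a small `B.U ε` (`box_sig`).  For `y`
near `p`:
 (a) `f y < 0 → y ∉ closure W`: `A = {y ∈ U ε, f y < 0}` is preconnected (`preconn_neg`), disjoint from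
   `S.Sig` (`f = 0`) and from `Disc` (`plane_neg`), hence from the frontier, and contains
   `X u - s N u` for an inside `u` (`f` has derivative `⟪g,N⟫ > 0` along `N`), not in the closure
   (`D.inS`): `sep`.
 (b) `y 2 > 0 → y ∉ closure W`: half ball (convex), disjoint from `Disc` and from `S.Sig` (`(X v) 2 ≤ 0`
   for `‖v‖ ≤ 1` near `u₀`), contains `d + s E3` with `d = (1-η) p` (`D.inD`): `sep`.
 (c) `f y > 0, y 2 < 0 → y ∈ W`.  Let `v = -E3 - M p` with `M > 0` so large that
   `⟪v, N⟫ = -M N_r - N_3 > 0`, and `v 2 = -1 < 0`.  Let `y` be close to `p`.  Going back along `y - s v`,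
   `s ≥ 0`: `f` decreases at a rate `≥ c > 0`, the third coordinate increases at rate 1.  Let `s₁` be the first time
   at which `f = 0` or third coordinate `= 0` (it is small if `y` is close to `p`).  `Z = y - s₁ v`.  On `[0,s₁)`
   the path is in `{f > 0, y 2 < 0}`, disjoint from `S.Sig ∪ Disc`: so this piece (preconnected) is in
   `W` or outside the closure.
   If `Z 2 = 0`: `f Z ≥ 0` so `Z` is in the closed unit disc (`plane_neg`).  If `f Z = 0`, `Z 2 < 0`:
   `Z = X (b Z)` with `‖b Z‖ < 1` (outside points have `X 2 > 0`, boundary ones `= 0`).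
   First suppose `Z` is not on the circle.  If `f Z = 0` and `Z 2 < 0`: `‖b Z‖ < 1`; the points `Z + s v` (small
   `s > 0`) are in `W`: use a box `B'` at `b Z` with the same `e` and `lsig`; `B'.f` has positive
   derivative `⟪g', v⟫` (`g'` a positive multiple of `N (b Z)`, near `N`).  If `Z 2 = 0`, `Z` inside
   the open disc: `ldisc`.  So the piece meets `W` and `y ∈ W`.
   If `Z` is on the circle: `{f > 0, y 2 < 0}` near `p` is open and disjoint from the frontier, so a small ball around `y` is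
   entirely in `W` or entirely outside the closure; replace `y` by `y + η Z` (`η > 0` small): the corresponding `Z'`,
   if on the circle, would be in the plane `y 2 = 0`, so (projection to the plane along `v`; `Z 2 = 0`)
   `Z' = Z + η Z`, of norm `1 + η`: impossible.
-/

set_option autoImplicit false

open scoped RealInnerProductSpace Topology
open Metric Filter Set

noncomputable section

namespace Pool.Agent.H99.SC

/-- On both sides of an inside point of the surface. -/
private theorem LOCN_side {S : Surf} (D : PreDom S) {u₀ : V2} {e : V3} (B : Box S.X u₀ e) {u : V2}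
    (hu : ‖u‖ < 1) (hub : ‖u - u₀‖ < B.r) {O : Set V3} (hO : O ∈ 𝓝 (S.X u)) :
    ∃ s : ℝ, 0 < s ∧ (S.X u + s • S.N u ∈ O ∧ S.X u + s • S.N u ∈ D.W ∧
      0 < B.f (S.X u + s • S.N u)) ∧
      (S.X u - s • S.N u ∈ O ∧ S.X u - s • S.N u ∉ closure D.W ∧
      B.f (S.X u - s • S.N u) < 0) := by
  have hX := S.smooth
  have hy : S.X u ∈ B.U B.r := by
    have := B.mk_mem (ε := B.r) (u := u) (s := 0) hub (by simpa using B.hr)
    simpa using this
  have hder : HasDerivAt (fun s : ℝ => B.f (S.X u + s • S.N u)) ⟪B.g (S.X u), S.N u⟫ 0 := by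
    have h1 : HasFDerivAt B.f (fderiv ℝ B.f (S.X u)) (S.X u + (0:ℝ) • S.N u) := by
      rw [zero_smul, add_zero]
      exact ((B.smooth_f hy).differentiableAt (by norm_num)).hasFDerivAt
    have h2 : HasDerivAt (fun s : ℝ => S.X u + s • S.N u) (S.N u) 0 := by
      have := ((hasDerivAt_id (0:ℝ)).smul_const (S.N u)).const_add (S.X u)
      simpa using this
    have h3 := h1.comp_hasDerivAt (0:ℝ) h2
    rw [B.fd hX hy] at h3
    exact h3
  have hpos : 0 < ⟪B.g (S.X u), S.N u⟫ := by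
    rw [B.g_eq hy, B.b_X hub, inner_smul_left]
    have h1 : ⟪NN S.X u, S.N u⟫ = 1 := by
      change ⟪S.N u, S.N u⟫ = 1
      rw [real_inner_self_eq_norm_sq, S.N_norm hu.le]
      norm_num
    rw [h1, mul_one]
    exact B.g_pos hy
  have h0 : B.f (S.X u + (0:ℝ) • S.N u) = 0 := by
    rw [zero_smul, add_zero]
    exact B.f_X hub
  have hslope := hasDerivAt_iff_tendsto_slope.1 hder
  have hsl : ∀ᶠ s : ℝ in 𝓝[≠] 0, 0 < slope (fun s : ℝ => B.f (S.X u + s • S.N u)) 0 s :=
    hslope.eventually (lt_mem_nhds hpos)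
  have hsl' : ∀ᶠ s : ℝ in 𝓝 0, s ≠ 0 → 0 < slope (fun s : ℝ => B.f (S.X u + s • S.N u)) 0 s :=
    eventually_nhdsWithin_iff.1 hsl
  have hneg : ∀ᶠ s : ℝ in 𝓝 0, -s ≠ 0 →
      0 < slope (fun s : ℝ => B.f (S.X u + s • S.N u)) 0 (-s) := by
    have ht : Tendsto (fun s : ℝ => -s) (𝓝 0) (𝓝 0) := by
      have : ContinuousAt (fun s : ℝ => -s) 0 := by fun_prop
      have h1 := this.tendsto
      simpa using h1
    exact ht.eventually hsl'
  have hO1 : ∀ᶠ s : ℝ in 𝓝 0, S.X u + s • S.N u ∈ O := by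
    have hc : ContinuousAt (fun s : ℝ => S.X u + s • S.N u) 0 := by fun_prop
    apply hc.eventually_mem
    rw [zero_smul, add_zero]
    exact hO
  have hO2 : ∀ᶠ s : ℝ in 𝓝 0, S.X u - s • S.N u ∈ O := by
    have hc : ContinuousAt (fun s : ℝ => S.X u - s • S.N u) 0 := by fun_prop
    apply hc.eventually_mem
    rw [zero_smul, sub_zero]
    exact hO
  obtain ⟨ε, hε, hin⟩ := D.inS u hu
  have hε' : ∀ᶠ s : ℝ in 𝓝 0, s < ε := gt_mem_nhds hε
  have hall := hsl'.and (hneg.and (hO1.and (hO2.and hε')))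
  obtain ⟨s, hs, h1, h2, h3, h4, h5⟩ : ∃ s : ℝ, 0 < s ∧
      (s ≠ 0 → 0 < slope (fun s : ℝ => B.f (S.X u + s • S.N u)) 0 s) ∧
      (-s ≠ 0 → 0 < slope (fun s : ℝ => B.f (S.X u + s • S.N u)) 0 (-s)) ∧
      S.X u + s • S.N u ∈ O ∧ S.X u - s • S.N u ∈ O ∧ s < ε := by
    obtain ⟨δ, hδ, hb⟩ := Metric.eventually_nhds_iff.1 hall
    refine ⟨δ / 2, by positivity, hb ?_⟩
    rw [Real.dist_eq, sub_zero, abs_of_pos (by positivity)]
    linarith
  have h1' := h1 hs.ne'
  have h2' := h2 (neg_ne_zero.2 hs.ne')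
  rw [slope_def_field, h0, sub_zero, sub_zero] at h1' h2'
  have hf1 : 0 < B.f (S.X u + s • S.N u) := by
    have := mul_pos h1' hs
    rwa [div_mul_cancel₀ _ hs.ne'] at this
  have hf2 : B.f (S.X u - s • S.N u) < 0 := by
    have h6 : S.X u + (-s) • S.N u = S.X u - s • S.N u := by rw [neg_smul, sub_eq_add_neg]
    rw [h6] at h2'
    rw [div_pos_iff] at h2'
    rcases h2' with h7 | h7
    · linarith [h7.2]
    · exact h7.1
  obtain ⟨h8, h9⟩ := hin s hs h5
  exact ⟨s, hs, ⟨h3, h8, hf1⟩, ⟨h4, h9, hf2⟩⟩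

/-- inside parameters near a boundary parameter -/
private theorem LOCN_inside {u₀ : V2} (hu₀ : ‖u₀‖ = 1) {η : ℝ} (hη : 0 < η) :
    ∃ u : V2, ‖u‖ < 1 ∧ ‖u - u₀‖ < η := by
  set t := min η 1 / 2 with ht
  have ht0 : 0 < t := by positivity
  have ht1 : t < 1 := by
    have : min η 1 ≤ 1 := min_le_right _ _
    linarith
  have htη : t < η := by
    have : min η 1 ≤ η := min_le_left _ _
    linarith
  refine ⟨(1 - t) • u₀, ?_, ?_⟩
  · rw [norm_smul, hu₀, mul_one, Real.norm_eq_abs, abs_of_pos (by linarith)]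
    linarith
  · have : (1 - t) • u₀ - u₀ = -(t • u₀) := by module
    rw [this, norm_neg, norm_smul, hu₀, mul_one, Real.norm_eq_abs, abs_of_pos ht0]
    exact htη

theorem loc_neg {S : Surf} (D : PreDom S) {u₀ : V2} (hu₀ : ‖u₀‖ = 1) (h : S.Nr u₀ < 0) {e : V3}
    (B : Box S.X u₀ e) : ∀ᶠ y in 𝓝 (S.X u₀),
      (0 < B.f y → y 2 < 0 → y ∈ D.W) ∧ (B.f y < 0 → y ∉ closure D.W) ∧
      (0 < y 2 → y ∉ closure D.W) := by
  have hX := S.smooth
  have hXc : Continuous S.X := hX.continuous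
  set p := S.X u₀ with hp
  have hp2 : p 2 = 0 := (S.bd1 hu₀).1
  have hp1 : p 0 ^ 2 + p 1 ^ 2 = 1 := (S.bd1 hu₀).2
  have hpn : ‖p‖ = 1 := by
    have h1 : ‖p‖ ^ 2 = 1 := by rw [nsq, hp2, hp1]; norm_num
    nlinarith [norm_nonneg p]
  have hβ := ori D hu₀
  have hXr : 0 < (fderiv ℝ S.X u₀ u₀) 2 := by
    rw [S.Xr_2 hu₀]
    exact mul_pos (neg_pos.2 h) hβ
  have h3 := h3_neg S hu₀ hXr
  have hpl := plane_neg S hu₀ h B
  obtain ⟨ε0, hε0, hε0r, -, hbs⟩ := box_sig S hu₀.le B
  -- the good neighbourhood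
  have hV0 : ∀ᶠ y in 𝓝 p, y ∈ B.U ε0 ∧ (y 2 = 0 →
      (y 0 ^ 2 + y 1 ^ 2 = 1 → B.f y = 0) ∧ (y 0 ^ 2 + y 1 ^ 2 < 1 → 0 < B.f y) ∧
      (1 < y 0 ^ 2 + y 1 ^ 2 → B.f y < 0)) := by
    have hU : ∀ᶠ y in 𝓝 p, y ∈ B.U ε0 := B.U_nhds hε0 hε0r
    exact hU.and hpl
  -- points with `f < 0`, or `f > 0` and `y 2 < 0`, are not on the frontier
  have hfrn : ∀ y, (y ∈ B.U ε0 ∧ (y 2 = 0 →
      (y 0 ^ 2 + y 1 ^ 2 = 1 → B.f y = 0) ∧ (y 0 ^ 2 + y 1 ^ 2 < 1 → 0 < B.f y) ∧
      (1 < y 0 ^ 2 + y 1 ^ 2 → B.f y < 0))) → B.f y < 0 → y ∉ frontier D.W := by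
    rintro y ⟨hyU, hy⟩ hf hfr
    rcases D.fr hfr with hS | hD
    · exact hf.ne ((hbs y hyU).1 hS).1
    · obtain ⟨h1, h2, -⟩ := hy hD.1
      rcases lt_or_eq_of_le hD.2 with h4 | h4
      · linarith [h2 h4]
      · linarith [h1 h4]
  have hfrp : ∀ y, y ∈ B.U ε0 → 0 < B.f y → y 2 < 0 → y ∉ frontier D.W := by
    intro y hyU hf hy2 hfr
    rcases D.fr hfr with hS | hD
    · exact hf.ne' ((hbs y hyU).1 hS).1
    · exact hy2.ne hD.1
  -- (a)
  have ha : ∀ᶠ y in 𝓝 p, B.f y < 0 → y ∉ closure D.W := by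
    obtain ⟨ε, hε, hεr, hεV⟩ := B.small hXc hV0
    have hAd : Disjoint {y | y ∈ B.U ε ∧ B.f y < 0} (frontier D.W) := by
      rw [Set.disjoint_left]
      rintro y ⟨hy1, hy2⟩
      exact hfrn y (hεV hy1) hy2
    have hsep := sep D.isOpen (B.preconn_neg hXc hε hεr) hAd
    have hA : {y | y ∈ B.U ε ∧ B.f y < 0} ⊆ (closure D.W)ᶜ := by
      rcases hsep with h1 | h1
      · exfalso
        obtain ⟨u, hu1, hu2⟩ := LOCN_inside hu₀ hε
        have hO : B.U ε ∈ 𝓝 (S.X u) := by
          apply (B.U_open hε hεr).mem_nhds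
          have := B.mk_mem (ε := ε) (u := u) (s := 0) hu2 (by simpa using hε)
          simpa using this
        obtain ⟨s, -, -, h5, h6, h7⟩ := LOCN_side D B hu1 (hu2.trans_le hεr) hO
        exact h6 (subset_closure (h1 ⟨h5, h7⟩))
      · exact h1
    filter_upwards [B.U_nhds hε hεr] with y hy hf
    exact hA ⟨hy, hf⟩
  -- (b)
  have hb : ∀ᶠ y in 𝓝 p, 0 < y 2 → y ∉ closure D.W := by
    obtain ⟨ρ, hρ, hρ3⟩ := Metric.eventually_nhds_iff.1 h3
    obtain ⟨δ, hδ, hemb⟩ := S.emb hu₀.le hρ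
    have hconv : Convex ℝ {y : V3 | y ∈ ball p δ ∧ 0 < y 2} := by
      have h1 : Convex ℝ {y : V3 | 0 < y 2} := by
        intro x hx y hy a b ha hb hab
        simp only [Set.mem_ofPred_eq, PiLp.add_apply, PiLp.smul_apply, smul_eq_mul] at hx hy ⊢
        rcases ha.lt_or_eq with h2 | h2
        · have := mul_pos h2 hx
          have := mul_nonneg hb hy.le
          linarith
        · have hb1 : b = 1 := by linarith
          rw [← h2, hb1]
          linarith
      exact (convex_ball p δ).inter h1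
    have hHd : Disjoint {y : V3 | y ∈ ball p δ ∧ 0 < y 2} (frontier D.W) := by
      rw [Set.disjoint_left]
      rintro y ⟨hy1, hy2⟩ hfr
      rcases D.fr hfr with ⟨v, hv, rfl⟩ | hD
      · have h4 := hemb v hv (by rw [← dist_eq_norm]; exact hy1)
        have h5 := hρ3 (y := v) (by rw [dist_eq_norm]; exact h4)
        rcases lt_or_eq_of_le hv with h6 | h6
        · linarith [h5.1 h6]
        · linarith [(S.bd1 h6).1]
      · linarith [hD.1]
    have hsep := sep D.isOpen hconv.isPreconnected hHd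
    have hH : {y : V3 | y ∈ ball p δ ∧ 0 < y 2} ⊆ (closure D.W)ᶜ := by
      rcases hsep with h1 | h1
      · exfalso
        set t := min δ 1 / 2 with ht
        have ht0 : 0 < t := by positivity
        have ht1 : t < 1 := by
          have : min δ 1 ≤ 1 := min_le_right _ _
          linarith
        have htδ : t < δ := by
          have : min δ 1 ≤ δ := min_le_left _ _
          linarith
        have hd2 : ((1 - t) • p) 2 = 0 := by simp [hp2]
        have hd1 : ((1 - t) • p) 0 ^ 2 + ((1 - t) • p) 1 ^ 2 < 1 := by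
          simp only [PiLp.smul_apply, smul_eq_mul]
          have : ((1 - t) * p 0) ^ 2 + ((1 - t) * p 1) ^ 2 = (1 - t) ^ 2 := by
            rw [mul_pow, mul_pow, ← mul_add, hp1, mul_one]
          rw [this]
          nlinarith
        obtain ⟨ε, hε, hin⟩ := D.inD _ hd2 hd1
        set s := min ε (δ - t) / 2 with hs
        have hδt : 0 < δ - t := by linarith
        have hs0 : 0 < s := by positivity
        have hsε : s < ε := by
          have : min ε (δ - t) ≤ ε := min_le_left _ _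
          linarith
        have hsδ : s < δ - t := by
          have : min ε (δ - t) ≤ δ - t := min_le_right _ _
          linarith
        have hE : ‖E3‖ = 1 := by
          have h1 : ‖E3‖ ^ 2 = 1 := by rw [nsq]; simp
          nlinarith [norm_nonneg E3]
        have hmem : (1 - t) • p + s • E3 ∈ {y : V3 | y ∈ ball p δ ∧ 0 < y 2} := by
          refine ⟨?_, ?_⟩
          · rw [mem_ball, dist_eq_norm]
            have : (1 - t) • p + s • E3 - p = s • E3 - t • p := by module
            rw [this]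
            refine (norm_sub_le _ _).trans_lt ?_
            rw [norm_smul, norm_smul, hE, hpn, Real.norm_eq_abs, Real.norm_eq_abs,
              abs_of_pos hs0, abs_of_pos ht0]
            linarith
          · simp [hp2, hs0]
        exact (hin s hs0 hsε).2 (subset_closure (h1 hmem))
      · exact h1
    filter_upwards [ball_mem_nhds p hδ] with y hy hf
    exact hH ⟨hy, hf⟩
  -- (c)
  have hc : ∀ᶠ y in 𝓝 p, 0 < B.f y → y 2 < 0 → y ∈ D.W := by
    have hNr : ⟪S.N u₀, p⟫ < 0 := h
    set M := (|(S.N u₀) 2| + 1) / (-⟪S.N u₀, p⟫) with hM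
    set v : V3 := -E3 - M • p with hv
    have hv2 : v 2 = -1 := by simp [hv, hp2]
    have hMN : M * ⟪S.N u₀, p⟫ = -(|(S.N u₀) 2| + 1) := by
      have h1 : M * (-⟪S.N u₀, p⟫) = |(S.N u₀) 2| + 1 := by
        rw [hM]
        exact div_mul_cancel₀ _ (by linarith)
      linarith
    have hvN : 0 < ⟪S.N u₀, v⟫ := by
      have h1 : ⟪S.N u₀, E3⟫ = (S.N u₀) 2 := by rw [ip]; simp
      rw [hv, inner_sub_right, inner_neg_right, inner_smul_right, h1, hMN]
      have := neg_abs_le ((S.N u₀) 2)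
      have := le_abs_self ((S.N u₀) 2)
      linarith
    have hpU : p ∈ B.U B.r := B.mem_U B.hr
    have hgv : 0 < ⟪B.g p, v⟫ := by
      rw [B.g_eq hpU, inner_smul_left]
      have h1 : B.b p = u₀ := B.b_X (by simpa using B.hr)
      rw [h1]
      exact mul_pos (B.g_pos hpU) hvN
    have hgc : ContinuousAt (fun y => ⟪B.g y, v⟫) p :=
      (B.g_cont hX hpU).inner continuousAt_const
    have hV1 : ∀ᶠ y in 𝓝 p, y ∈ B.U ε0 ∧ 0 < ⟪B.g y, v⟫ := by
      have hU : ∀ᶠ y in 𝓝 p, y ∈ B.U ε0 := B.U_nhds hε0 hε0r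
      exact hU.and (hgc.eventually_const_lt hgv)
    obtain ⟨ρ, hρ, hball⟩ := Metric.eventually_nhds_iff.1 hV1
    have hvne : 0 < ‖v‖ := by
      rw [norm_pos_iff]
      intro h0
      rw [h0] at hv2
      simp at hv2
    set s₁ := ρ / (2 * ‖v‖) with hs₁
    have hs₁0 : 0 < s₁ := by positivity
    have hs₁v : s₁ * ‖v‖ = ρ / 2 := by rw [hs₁]; field_simp
    -- paths
    have hpath : ∀ y, dist y p < ρ / 2 → ∀ s ∈ Icc 0 s₁, dist (y + s • v) p < ρ := by
      intro y hy s hs
      have h1 : y + s • v - p = (y - p) + s • v := by abel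
      rw [dist_eq_norm] at hy ⊢
      rw [h1]
      refine (norm_add_le _ _).trans_lt ?_
      rw [norm_smul, Real.norm_eq_abs, abs_of_nonneg hs.1]
      have : s * ‖v‖ ≤ s₁ * ‖v‖ := mul_le_mul_of_nonneg_right hs.2 hvne.le
      linarith
    have hmono : ∀ y, dist y p < ρ / 2 → StrictMonoOn (fun s : ℝ => B.f (y + s • v)) (Icc 0 s₁) := by
      intro y hy
      have hd : ∀ s ∈ Icc (0:ℝ) s₁, HasDerivAt (fun s : ℝ => B.f (y + s • v))
          ⟪B.g (y + s • v), v⟫ s := by
        intro s hs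
        have h1 := hball (hpath y hy s hs)
        have hU : y + s • v ∈ B.U B.r := B.U_mono hε0r h1.1
        have h2 : HasFDerivAt B.f (fderiv ℝ B.f (y + s • v)) (y + s • v) :=
          ((B.smooth_f hU).differentiableAt (by norm_num)).hasFDerivAt
        have h4 : HasDerivAt (fun s : ℝ => y + s • v) v s := by
          have := ((hasDerivAt_id s).smul_const v).const_add y
          simpa using this
        have h5 := h2.comp_hasDerivAt s h4
        rw [B.fd hX hU] at h5
        exact h5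
      apply strictMonoOn_of_deriv_pos (convex_Icc 0 s₁)
      · intro s hs
        exact (hd s hs).continuousAt.continuousWithinAt
      · intro s hs
        rw [interior_Icc] at hs
        have hs' : s ∈ Icc (0:ℝ) s₁ := ⟨hs.1.le, hs.2.le⟩
        rw [(hd s hs').deriv]
        exact (hball (hpath y hy s hs')).2
    set ys := p + s₁ • v with hys
    have hp0 : dist p p < ρ / 2 := by rw [dist_self]; positivity
    have hfp : B.f p = 0 := B.f_X (by simpa using B.hr)
    have hfys : 0 < B.f ys := by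
      have h1 := hmono p hp0 (left_mem_Icc.2 hs₁0.le) (right_mem_Icc.2 hs₁0.le) hs₁0
      simp only [zero_smul, add_zero, hfp] at h1
      exact h1
    have hys2 : ys 2 < 0 := by
      simp only [hys, PiLp.add_apply, PiLp.smul_apply, smul_eq_mul, hp2, hv2]
      linarith
    have hysρ : dist ys p < ρ := hpath p hp0 s₁ (right_mem_Icc.2 hs₁0.le)
    have hysU : ys ∈ B.U B.r := B.U_mono hε0r (hball hysρ).1
    have hQ : ∀ᶠ y in 𝓝 ys, y ∈ B.U ε0 ∧ 0 < B.f y ∧ y 2 < 0 := by
      have h1 : ∀ᶠ y in 𝓝 ys, y ∈ B.U ε0 := (B.U_open hε0 hε0r).mem_nhds (hball hysρ).1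
      have h2 : ∀ᶠ y in 𝓝 ys, 0 < B.f y :=
        ((B.smooth_f hysU).continuousAt).eventually_const_lt hfys
      have h4 : ∀ᶠ y : V3 in 𝓝 ys, y 2 < 0 := by
        have : ContinuousAt (fun y : V3 => y 2) ys := by fun_prop
        exact this.eventually_lt_const hys2
      exact h1.and (h2.and h4)
    obtain ⟨δ, hδ, hδQ⟩ := Metric.eventually_nhds_iff.1 hQ
    -- the connected sets
    have hconn : ∀ y, dist y p < ρ / 2 → dist y p < δ → 0 < B.f y → y 2 < 0 →
        (y ∈ D.W ↔ ys ∈ D.W) := by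
      intro y hy hyδ hf hy2
      set A := ((fun s : ℝ => y + s • v) '' Icc 0 s₁) ∪ ball ys δ with hA
      have hApre : IsPreconnected A := by
        apply IsPreconnected.union (y + s₁ • v)
        · exact ⟨s₁, right_mem_Icc.2 hs₁0.le, rfl⟩
        · rw [mem_ball, dist_eq_norm]
          have : y + s₁ • v - ys = y - p := by rw [hys]; abel
          rw [this, ← dist_eq_norm]
          exact hyδ
        · exact isPreconnected_Icc.image _ (by fun_prop)
        · exact (convex_ball ys δ).isPreconnected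
      have hAd : Disjoint A (frontier D.W) := by
        rw [Set.disjoint_left]
        rintro z (⟨s, hs, rfl⟩ | hz)
        · apply hfrp _ (hball (hpath y hy s hs)).1
          · have h1 := (hmono y hy).monotoneOn (left_mem_Icc.2 hs₁0.le) hs hs.1
            simp only [zero_smul, add_zero] at h1
            exact hf.trans_le h1
          · simp only [PiLp.add_apply, PiLp.smul_apply, smul_eq_mul, hv2]
            linarith [hs.1]
        · obtain ⟨h1, h2, h4⟩ := hδQ (mem_ball.1 hz)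
          exact hfrp z h1 h2 h4
      have hyA : y ∈ A := Or.inl ⟨0, left_mem_Icc.2 hs₁0.le, by simp⟩
      have hysA : ys ∈ A := Or.inr (mem_ball_self hδ)
      rcases sep D.isOpen hApre hAd with h1 | h1
      · exact ⟨fun _ => h1 hysA, fun _ => h1 hyA⟩
      · exact ⟨fun h2 => absurd (subset_closure h2) (h1 hyA),
          fun h2 => absurd (subset_closure h2) (h1 hysA)⟩
    -- a point of `W`
    have hO1 : ball p (min (ρ / 2) δ) ∈ 𝓝 p := ball_mem_nhds p (by positivity)
    have hev : ∀ᶠ u in 𝓝 u₀, S.X u ∈ ball p (min (ρ / 2) δ) ∧ (‖u‖ < 1 → (S.X u) 2 < 0) ∧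
        ‖u - u₀‖ < B.r := by
      have h1 : ∀ᶠ u in 𝓝 u₀, S.X u ∈ ball p (min (ρ / 2) δ) :=
        hXc.continuousAt.eventually_mem hO1
      have h2 : ∀ᶠ u in 𝓝 u₀, ‖u - u₀‖ < B.r := by
        have : ContinuousAt (fun u : V2 => ‖u - u₀‖) u₀ := by fun_prop
        exact this.eventually_lt_const (by simpa using B.hr)
      filter_upwards [h1, h2, h3] with u h4 h5 h6
      exact ⟨h4, h6.1, h5⟩
    obtain ⟨η, hη, hηb⟩ := Metric.eventually_nhds_iff.1 hev
    obtain ⟨u, hu1, hu2⟩ := LOCN_inside hu₀ hη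
    obtain ⟨h4, h5, h6⟩ := hηb (y := u) (by rw [dist_eq_norm]; exact hu2)
    have hO : {y : V3 | y ∈ ball p (min (ρ / 2) δ) ∧ y 2 < 0} ∈ 𝓝 (S.X u) := by
      apply Filter.inter_mem (isOpen_ball.mem_nhds h4)
      have : ContinuousAt (fun y : V3 => y 2) (S.X u) := by fun_prop
      exact this.eventually_lt_const (h5 hu1)
    obtain ⟨s, -, ⟨h7, h8, h9⟩, -⟩ := LOCN_side D B hu1 h6 hO
    have hysW : ys ∈ D.W :=
      (hconn _ ((mem_ball.1 h7.1).trans_le (min_le_left _ _))
        ((mem_ball.1 h7.1).trans_le (min_le_right _ _)) h9 h7.2).1 h8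
    filter_upwards [hO1] with y hy hf hy2
    exact (hconn y ((mem_ball.1 hy).trans_le (min_le_left _ _))
      ((mem_ball.1 hy).trans_le (min_le_right _ _)) hf hy2).2 hysW
  filter_upwards [ha, hb, hc] with y h1 h2 h4
  exact ⟨h4, h1, h2⟩

end Pool.Agent.H99.SC
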