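import Pool.Agent.H99.SC.GC1
import Pool.Agent.H99.SC.FP
import Pool.Agent.H99.SC.LSIG

/-!
# RTZ: reflections in vertical planes through the axis

`R = refl (nh φ) 0` is linear and fixes `E3` (`⟪nh φ, E3⟫ = 0`), preserves the third coordinate and
`y 0 ^2 + y 1 ^2`.  `partner`: `R (X u)` is on the circle, use `S.bd`.
`refl_TT`: `R (TT p) = - TT (R p)` for every `p` (coordinates, `cos^2 + sin^2 = 1`).
`circ_zero`: points of the circle near `X v₁` are `X v`, `‖v‖ = 1` (`S.bd`), with `v` near `v₁` (`S.emb`): `f_X`, `b_X`.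
`smooth_par`: composition of `B.f` (`B.smooth_f`) with the smooth map
`(φ,u) ↦ X u - 2 ⟪nh φ, X u⟫ nh φ`.
`mem_par`: continuity of the same map.
-/

set_option autoImplicit false

open scoped RealInnerProductSpace Topology
open Metric Filter Set

noncomputable section

namespace Pool.Agent.H99.SC

theorem refl0_eq (φ : ℝ) (y : V3) : refl (nh φ) 0 y = rl (nh φ) y := by
  unfold refl rl; simp

theorem refl0_2 (φ : ℝ) (y : V3) : (refl (nh φ) 0 y) 2 = y 2 := by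
  unfold refl; simp

theorem refl0_r (φ : ℝ) (y : V3) : (refl (nh φ) 0 y) 0 ^ 2 + (refl (nh φ) 0 y) 1 ^ 2
    = y 0 ^ 2 + y 1 ^ 2 := by
  have h := Real.cos_sq_add_sin_sq φ
  have h0 : (refl (nh φ) 0 y) 0 = y 0 - 2 * (Real.cos φ * y 0 + Real.sin φ * y 1) * Real.cos φ := by
    unfold refl; simp [ip]
  have h1 : (refl (nh φ) 0 y) 1 = y 1 - 2 * (Real.cos φ * y 0 + Real.sin φ * y 1) * Real.sin φ := by
    unfold refl; simp [ip]
  rw [h0, h1]
  linear_combination (4 * (Real.cos φ * y 0 + Real.sin φ * y 1) ^ 2) * h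

theorem refl0_Disc {φ : ℝ} {y : V3} (h : refl (nh φ) 0 y ∈ Disc) : y ∈ Disc := by
  refine ⟨by rw [← refl0_2 φ]; exact h.1, by rw [← refl0_r φ]; exact h.2⟩

theorem refl0_E3 (φ : ℝ) : refl (nh φ) 0 E3 = E3 := by
  unfold refl; simp [ip]

theorem refl0_TT (φ : ℝ) (y : V3) : refl (nh φ) 0 (TT y) = -TT (refl (nh φ) 0 y) := by
  have h := Real.cos_sq_add_sin_sq φ
  unfold refl
  apply ext3
  · simp [ip]
    linear_combination (2 * y 1) * h
  · simp [ip]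
    linear_combination (-2 * y 0) * h
  · simp [ip]

theorem refl0_inner (φ : ℝ) (a b : V3) : ⟪refl (nh φ) 0 a, refl (nh φ) 0 b⟫ = ⟪a, b⟫ := by
  rw [refl0_eq, refl0_eq, rl_inner _ (norm_nh φ)]

theorem partner (S : Surf) (φ : ℝ) {u : V2} (hu : ‖u‖ = 1) :
    ∃ v : V2, ‖v‖ = 1 ∧ S.X v = refl (nh φ) 0 (S.X u) := by
  obtain ⟨h2, h1⟩ := S.bd1 hu
  exact (S.bd _).2 ⟨by rw [refl0_2]; exact h2, by rw [refl0_r]; exact h1⟩

theorem circ_zero (S : Surf) {v₁ : V2} (hv₁ : ‖v₁‖ = 1) {e : V3} (B : Box S.X v₁ e) :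
    ∀ᶠ y in 𝓝 (S.X v₁), y 2 = 0 → y 0 ^ 2 + y 1 ^ 2 = 1 → B.f y = 0 ∧ ‖B.b y‖ = 1 := by
  obtain ⟨δ, hδ, hδ'⟩ := S.emb hv₁.le B.hr
  filter_upwards [Metric.ball_mem_nhds (S.X v₁) hδ] with y hy h2 h1
  obtain ⟨v, hv, rfl⟩ := (S.bd y).2 ⟨h2, h1⟩
  have h := hδ' v hv.le (by simpa [dist_eq_norm] using hy)
  exact ⟨B.f_X h, by rw [B.b_X h]; exact hv⟩

/-- tangent vector `n` at a boundary point of a vertical plane through the axis -/
theorem TT_hinge {φ : ℝ} {p : V3} (h2 : p 2 = 0) (h1 : p 0 ^ 2 + p 1 ^ 2 = 1)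
    (h : ⟪nh φ, p⟫ = 0) : ∃ σ : ℝ, σ ^ 2 = 1 ∧ TT p = σ • nh φ := by
  have hc := Real.cos_sq_add_sin_sq φ
  have h' : Real.cos φ * p 0 + Real.sin φ * p 1 = 0 := by
    have := h; simp [ip] at this; linarith
  refine ⟨Real.sin φ * p 0 - Real.cos φ * p 1, ?_, ?_⟩
  · linear_combination (p 0 ^ 2 + p 1 ^ 2) * hc + h1
      - (Real.cos φ * p 0 + Real.sin φ * p 1) * h'
  · apply ext3
    · simp
      linear_combination (-Real.sin φ) * h' + (p 1) * hc
    · simp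
      linear_combination (Real.cos φ) * h' - (p 0) * hc
    · simp

theorem RTZ_nh : ContDiff ℝ 2 (fun q : ℝ × V2 => nh q.1) := by
  rw [contDiff_euclidean]
  intro i
  fin_cases i
  · have h : ContDiff ℝ 2 (fun q : ℝ × V2 => Real.cos q.1) := Real.contDiff_cos.comp contDiff_fst
    simpa using h
  · have h : ContDiff ℝ 2 (fun q : ℝ × V2 => Real.sin q.1) := Real.contDiff_sin.comp contDiff_fst
    simpa using h
  · simpa using contDiff_const

theorem RTZ_smooth (S : Surf) :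
    ContDiff ℝ 2 (fun q : ℝ × V2 => refl (nh q.1) 0 (S.X q.2)) := by
  have hX : ContDiff ℝ 2 (fun q : ℝ × V2 => S.X q.2) := S.smooth.comp contDiff_snd
  unfold refl
  exact hX.sub ((contDiff_const.mul ((RTZ_nh.inner ℝ hX).sub contDiff_const)).smul RTZ_nh)

theorem smooth_par (S : Surf) {v₁ : V2} {e : V3} (B : Box S.X v₁ e) {φ : ℝ} {u : V2}
    (hU : refl (nh φ) 0 (S.X u) ∈ B.U B.r) :
    ContDiffAt ℝ 2 (fun q : ℝ × V2 => B.f (refl (nh q.1) 0 (S.X q.2))) (φ, u) := by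
  exact (B.smooth_f hU).comp (φ, u) (RTZ_smooth S).contDiffAt

theorem cont_par (S : Surf) :
    Continuous (fun q : ℝ × V2 => refl (nh q.1) 0 (S.X q.2)) :=
  (RTZ_smooth S).continuous

end Pool.Agent.H99.SC
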