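import Pool.Agent.H99.SC.KER
import Pool.Agent.H99.SC.CONE
import Pool.Agent.H99.SC.RTZ

/-!
# MNA: a minimal weak star centre excludes symmetry; reflections swapping two points of the circle

`sym_contra`: otherwise `wstar_conn`, `wstar_refl`, `wstar_mid`: the midpoint `m = z - ⟪nh φ, z⟫ nh φ` of `z` and its
mirror image is a weak star centre, `m 2 = z 2`, and `m 0^2 + m 1^2 = a^2 - ⟪nh φ, z⟫^2 = a^2 - a^2 cos^2 (φ - φ₀) < a^2`
(`⟪nh φ, z⟫ = -a cos (φ - φ₀)`, `Real.cos_sub`).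
`swap_pt`: `v = p - p'`, horizontal, `n = v/|v|`, `⟪n, nh φ₀⟫ > 0`; `exists_nh`: `n = nh φ'`; adjust `φ'` by a multiple of
`2π` so that `|φ - φ₀| ≤ π`; `cos (φ - φ₀) = ⟪n, nh φ₀⟫ > 0` gives `|φ - φ₀| < π/2`.
`|p| = |p'| = 1`: `refl n 0 p = p - 2 ⟪n,p⟫ n = p'` and `⟪n,p⟫ = |v|/2`.
-/

set_option autoImplicit false

open scoped RealInnerProductSpace Topology
open Metric Filter Set

noncomputable section

namespace Pool.Agent.H99.SC

theorem sym_contra {S : Surf} {D : Dom S} {q : V3} (hq : WStar D q) (hqW : q ∈ D.W) {φ₀ a h : ℝ}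
    (ha : 0 < a) (hz : WStar D (zc (nh φ₀) a h))
    (hmin : ∀ z' : V3, WStar D z' → z' 2 = -h → a ^ 2 ≤ z' 0 ^ 2 + z' 1 ^ 2) {φ : ℝ}
    (hφ : 0 < Real.cos (φ - φ₀)) :
    ∃ u : V2, ‖u‖ ≤ 1 ∧ refl (nh φ) 0 (S.X u) ∉ S.Sig := by
  by_contra hcon
  have hsym : ∀ u : V2, ‖u‖ ≤ 1 → refl (nh φ) 0 (S.X u) ∈ S.Sig := by
    intro u hu
    by_contra h1
    exact hcon ⟨u, hu, h1⟩
  have h1 := wstar_refl (wstar_conn hq hqW) hsym hz
  have h2 := wstar_mid hz h1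
  have hp : ⟪nh φ, zc (nh φ₀) a h⟫ = -(a * Real.cos (φ - φ₀)) := by
    rw [ip, Real.cos_sub]
    simp
    ring
  have hr0 : (refl (nh φ) 0 (zc (nh φ₀) a h)) 0 =
      -(a * Real.cos φ₀) + 2 * (a * Real.cos (φ - φ₀)) * Real.cos φ := by
    unfold refl
    rw [hp]
    simp
  have hr1 : (refl (nh φ) 0 (zc (nh φ₀) a h)) 1 =
      -(a * Real.sin φ₀) + 2 * (a * Real.cos (φ - φ₀)) * Real.sin φ := by
    unfold refl
    rw [hp]
    simp
  have hr2 : (refl (nh φ) 0 (zc (nh φ₀) a h)) 2 = -h := by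
    unfold refl
    simp
  have h3 := hmin _ h2 (by
    simp only [PiLp.smul_apply, PiLp.add_apply, smul_eq_mul, hr2, zc_2]
    ring)
  simp only [PiLp.smul_apply, PiLp.add_apply, smul_eq_mul, hr0, hr1, zc_0, zc_1, nh_0, nh_1] at h3
  have hc := Real.cos_sq_add_sin_sq φ
  have hc0 := Real.cos_sq_add_sin_sq φ₀
  have hcd := Real.cos_sub φ φ₀
  have hpos : 0 < a ^ 2 * Real.cos (φ - φ₀) ^ 2 := by positivity
  have key : (1 / 2 * (-(a * Real.cos φ₀) +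
        (-(a * Real.cos φ₀) + 2 * (a * Real.cos (φ - φ₀)) * Real.cos φ))) ^ 2 +
      (1 / 2 * (-(a * Real.sin φ₀) +
        (-(a * Real.sin φ₀) + 2 * (a * Real.cos (φ - φ₀)) * Real.sin φ))) ^ 2 =
      a ^ 2 - a ^ 2 * Real.cos (φ - φ₀) ^ 2 := by
    generalize Real.cos (φ - φ₀) = c at hcd
    subst hcd
    generalize Real.cos φ = x at *
    generalize Real.sin φ = y at *
    generalize Real.cos φ₀ = x0 at *
    generalize Real.sin φ₀ = y0 at *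
    linear_combination a ^ 2 * hc0 + a ^ 2 * (x * x0 + y * y0) ^ 2 * hc
  rw [key] at h3
  linarith

theorem swap_pt {p p' : V3} (h2 : p 2 = 0) (h1 : p 0 ^ 2 + p 1 ^ 2 = 1) (h2' : p' 2 = 0)
    (h1' : p' 0 ^ 2 + p' 1 ^ 2 = 1) {φ₀ : ℝ} (h : ⟪p', nh φ₀⟫ < ⟪p, nh φ₀⟫) :
    ∃ φ : ℝ, |φ - φ₀| < Real.pi / 2 ∧ refl (nh φ) 0 p = p' ∧ 0 < ⟪nh φ, p⟫ := by
  set v : V3 := p - p' with hv
  have hv0 : v ≠ 0 := by
    intro h0
    have : p = p' := sub_eq_zero.mp (hv ▸ h0)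
    rw [this] at h
    exact lt_irrefl _ h
  have hvn : 0 < ‖v‖ := norm_pos_iff.mpr hv0
  have hv2 : v 2 = 0 := by rw [hv]; simp [h2, h2']
  have hn : ‖‖v‖⁻¹ • v‖ = 1 := by
    rw [norm_smul, norm_inv, norm_norm, inv_mul_cancel₀ hvn.ne']
  obtain ⟨φ', hφ'⟩ := exists_nh hn (by simp [hv2])
  have hcos : Real.cos (φ' - φ₀) = ⟪nh φ', nh φ₀⟫ := by
    rw [ip, Real.cos_sub]; simp
  have hcpos : 0 < Real.cos (φ' - φ₀) := by
    rw [hcos, hφ', real_inner_smul_left, hv, inner_sub_left]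
    exact mul_pos (inv_pos.mpr hvn) (sub_pos.mpr h)
  set θ : ℝ := ((φ' - φ₀ : ℝ) : Real.Angle).toReal with hθ
  have hθc : ((φ₀ + θ : ℝ) : Real.Angle) = ((φ' : ℝ) : Real.Angle) := by
    rw [Real.Angle.coe_add, hθ, Real.Angle.coe_toReal, Real.Angle.coe_sub]
    abel
  have hnh : nh (φ₀ + θ) = ‖v‖⁻¹ • v := by
    rw [← hφ']
    apply ext3
    · rw [nh_0, nh_0, ← Real.Angle.cos_coe, hθc, Real.Angle.cos_coe]
    · rw [nh_1, nh_1, ← Real.Angle.sin_coe, hθc, Real.Angle.sin_coe]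
    · simp
  have hvp : ⟪v, p⟫ = ‖v‖ ^ 2 / 2 := by
    rw [nsq, ip, hv]
    simp only [PiLp.sub_apply, h2, h2']
    nlinarith
  have hnp : ⟪nh (φ₀ + θ), p⟫ = ‖v‖ / 2 := by
    rw [hnh, real_inner_smul_left, hvp]
    field_simp
  refine ⟨φ₀ + θ, ?_, ?_, ?_⟩
  · rw [add_sub_cancel_left, hθ, ← Real.Angle.cos_pos_iff_abs_toReal_lt_pi_div_two,
      Real.Angle.cos_coe]
    exact hcpos
  · unfold refl
    rw [hnp, hnh, smul_smul]
    have : 2 * (‖v‖ / 2 - 0) * ‖v‖⁻¹ = 1 := by field_simp; ring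
    rw [this, one_smul, hv]
    abel
  · rw [hnp]; positivity

end Pool.Agent.H99.SC
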