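import Pool.Agent.H99.SC.CTC

/-!
# OPN: the contact lemma

`ct4`.  `SS D n t`; (h1) the reflected circle does not meet the interior surface; one point `u₁` of
the open disc has a neighbourhood mapped into `S.Sig`.  Then the whole closed disc is mapped into `S.Sig`.
Proof.  `A = {u : ‖u‖ < 1 ∧ ∀ᶠ x in 𝓝 u, refl n t (S.X x) ∈ S.Sig}` is open and nonempty.  Claim: if
`u k ∈ A`, `u k → u`, `‖u‖ < 1`, then `u ∈ A`.  `S.Sig` is closed, so `refl n t (S.X u) = S.X v`, `‖v‖ ≤ 1`;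
`‖v‖ = 1` would give `refl n t (S.X v) = S.X u`, against (h1).  So `‖v‖ < 1`.
 * `t < ⟪n, S.X u⟫`: `ct1`.
 * `⟪n, S.X u⟫ < t`: then `t < ⟪n, S.X v⟫` (`inner_refl`) and `refl n t (S.X v) = S.X u`: `ct1` at `v`,
   then `ct5`.
 * equality: `S.X v = S.X u`, `v = u`.  `refl n t (S.X (u k)) = S.X (v k)`, `v k → u` (`emb_seq`),
   `‖v k‖ < 1`; `ct6`: `rl n (S.N (u k)) = S.N (v k)`; limit: `rl n (S.N u) = S.N u`, so
   `⟪n, S.N u⟫ = 0` and `ct2`.
So `A` is closed in the open disc, which is connected: `A` is the open disc; closure.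

`opn`.  `J = refl n t`.  `J (S.X u₀) ∈ closure D.W` (by `SS`, since `t ≤ ⟪n, S.X u₀⟫` in the limit), and
`J (S.X u₀) ∉ D.W` (open, limit of points outside the closure; the reflected points converge).  So it is in
the frontier, in `S.Sig ∪ Disc`.  If it is in `Disc` we are done; else it is `S.X v`, `‖v‖ ≤ 1`, and
`‖v‖ < 1` because `S.X v ∉ Disc`.  If `‖u₀‖ = 1` done; let `‖u₀‖ < 1`.
 * `t < ⟪n, S.X u₀⟫`: `ct1` and `ct4` contradict (h2).
 * equality: `ct3`: `⟪n, S.N u₀⟫ ≤ 0`; if `= 0`: `ct2` and `ct4` contradict (h2).  If `< 0`: box at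
   `u₀`, `e = S.N u₀`; for large `k` the segment from `S.X (uk k)` to its reflection
   `S.X (uk k) - 2 l_k nk` is near `S.X u₀`, where `⟪g, nk⟫ < 0`, so `B.f` of the reflection is `> 0`
   (mean value; `B.f (S.X (uk k)) = 0`), so it is in `D.W` (`lsig`): contradiction with `hbad`.
-/

set_option autoImplicit false

open scoped RealInnerProductSpace Topology
open Metric Filter Set

noncomputable section

namespace Pool.Agent.H99.SC

theorem OPN_cont (n : V3) (t : ℝ) : Continuous (fun y : V3 => refl n t y) := by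
  unfold refl
  fun_prop

theorem OPN_rl_cont (n : V3) : Continuous (fun y : V3 => rl n y) := by
  unfold rl
  fun_prop

theorem OPN_refl_fix {n : V3} {t : ℝ} {y : V3} (h : ⟪n, y⟫ = t) : refl n t y = y := by
  unfold refl
  rw [h]
  simp

theorem OPN_lt {S : Surf} {n : V3} {t : ℝ} (hn : ‖n‖ = 1)
    (h1 : ∀ u v : V2, ‖u‖ = 1 → ‖v‖ < 1 → refl n t (S.X u) ≠ S.X v) {u v : V2} (hu : ‖u‖ < 1)
    (hv : ‖v‖ ≤ 1) (h : refl n t (S.X u) = S.X v) : ‖v‖ < 1 := by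
  rcases lt_or_eq_of_le hv with h2 | h2
  · exact h2
  · exfalso
    apply h1 v u h2 hu
    rw [← h, refl_refl n hn]

theorem OPN_lim {S : Surf} (D : Dom S) {n : V3} {t : ℝ} (hn : ‖n‖ = 1) (hS : SS D n t)
    (h1 : ∀ u v : V2, ‖u‖ = 1 → ‖v‖ < 1 → refl n t (S.X u) ≠ S.X v) {u : V2} (hu : ‖u‖ < 1)
    {w : ℕ → V2} (hw1 : ∀ k, ‖w k‖ < 1) (hw2 : ∀ k, ∀ᶠ x in 𝓝 (w k), refl n t (S.X x) ∈ S.Sig)
    (hw : Tendsto w atTop (𝓝 u)) : ∀ᶠ x in 𝓝 u, refl n t (S.X x) ∈ S.Sig := by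
  have hXc : Continuous S.X := S.smooth.continuous
  have hJc : Continuous (fun x : V2 => refl n t (S.X x)) := (OPN_cont n t).comp hXc
  have hmem : refl n t (S.X u) ∈ S.Sig := by
    apply S.isCompact_Sig.isClosed.mem_of_tendsto ((hJc.tendsto u).comp hw)
    exact Eventually.of_forall (fun k => (hw2 k).self_of_nhds)
  obtain ⟨v, hv1, hv2⟩ := hmem
  have hv3 : ‖v‖ < 1 := OPN_lt hn h1 hu hv1 hv2.symm
  rcases lt_trichotomy t ⟪n, S.X u⟫ with hl | hl | hl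
  · exact ct1 D hn hS hu hl hv3 hv2.symm
  · -- equality
    have hfix : refl n t (S.X u) = S.X u := OPN_refl_fix hl.symm
    choose z hz1 hz2 using fun k => (hw2 k).self_of_nhds
    have hz3 : ∀ k, ‖z k‖ < 1 := fun k => OPN_lt hn h1 (hw1 k) (hz1 k) (hz2 k).symm
    have hz4 : Tendsto z atTop (𝓝 u) := by
      apply S.emb_seq hu.le hz1
      have h2 : (fun k => S.X (z k)) = fun k => refl n t (S.X (w k)) := by
        funext k
        exact hz2 k
      rw [h2]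
      have h3 := (hJc.tendsto u).comp hw
      rw [hfix] at h3
      exact h3
    have hz5 : ∀ k, rl n (S.N (w k)) = S.N (z k) := fun k =>
      ct6 S hn (hw1 k) (hz3 k) (hw2 k) (hz2 k).symm
    have hNu : rl n (S.N u) = S.N u := by
      have h4 : Tendsto (fun k => rl n (S.N (w k))) atTop (𝓝 (rl n (S.N u))) :=
        ((OPN_rl_cont n).tendsto _).comp ((S.N_cont hu.le).tendsto.comp hw)
      have h5 : Tendsto (fun k => S.N (z k)) atTop (𝓝 (S.N u)) :=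
        (S.N_cont hu.le).tendsto.comp hz4
      have h6 : (fun k => rl n (S.N (w k))) = fun k => S.N (z k) := funext hz5
      rw [h6] at h4
      exact tendsto_nhds_unique h4 h5
    have hin : ⟪n, S.N u⟫ = 0 := by
      unfold rl at hNu
      have h7 : (2 * ⟪n, S.N u⟫) • n = 0 := by
        have := sub_eq_self.mp hNu
        exact this
      rcases smul_eq_zero.mp h7 with h8 | h8
      · linarith
      · rw [h8] at hn
        norm_num at hn
    exact ct2 D hn hS hu hl.symm hin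
  · have hv4 : refl n t (S.X v) = S.X u := by
      rw [hv2, refl_refl n hn]
    have hv5 : t < ⟪n, S.X v⟫ := by
      rw [hv2, inner_refl n hn]
      linarith
    exact ct5 S hn hv3 hu (ct1 D hn hS hv3 hv5 hu hv4) hv4

theorem ct4 {S : Surf} (D : Dom S) {n : V3} {t : ℝ} (hn : ‖n‖ = 1) (hS : SS D n t)
    (h1 : ∀ u v : V2, ‖u‖ = 1 → ‖v‖ < 1 → refl n t (S.X u) ≠ S.X v) {u₁ : V2} (hu₁ : ‖u₁‖ < 1)
    (hA : ∀ᶠ u in 𝓝 u₁, refl n t (S.X u) ∈ S.Sig) :
    ∀ u : V2, ‖u‖ ≤ 1 → refl n t (S.X u) ∈ S.Sig := by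
  have hXc : Continuous S.X := S.smooth.continuous
  have hJc : Continuous (fun x : V2 => refl n t (S.X x)) := (OPN_cont n t).comp hXc
  set A : Set V2 := {u : V2 | ‖u‖ < 1 ∧ ∀ᶠ x in 𝓝 u, refl n t (S.X x) ∈ S.Sig} with hAdef
  have hAo : IsOpen A := by
    have h2 : A = ball (0 : V2) 1 ∩ {u : V2 | ∀ᶠ x in 𝓝 u, refl n t (S.X x) ∈ S.Sig} := by
      ext u
      simp [hAdef]
    rw [h2]
    exact isOpen_ball.inter isOpen_setOfPred_eventually_nhds
  have hsub : ball (0 : V2) 1 ⊆ A := by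
    apply (convex_ball (0 : V2) 1).isPreconnected.subset_of_closure_inter_subset hAo
    · refine ⟨u₁, ?_, hu₁, hA⟩
      simpa using hu₁
    · rintro u ⟨huc, hub⟩
      have hu : ‖u‖ < 1 := by simpa using hub
      obtain ⟨w, hw1, hw2⟩ := mem_closure_iff_seq_limit.mp huc
      exact ⟨hu, OPN_lim D hn hS h1 hu (fun k => (hw1 k).1) (fun k => (hw1 k).2) hw2⟩
  intro u hu
  have hcl : IsClosed {x : V2 | refl n t (S.X x) ∈ S.Sig} :=
    S.isCompact_Sig.isClosed.preimage hJc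
  have hb : ball (0 : V2) 1 ⊆ {x : V2 | refl n t (S.X x) ∈ S.Sig} := fun x hx =>
    (hsub hx).2.self_of_nhds
  have hc := closure_minimal hb hcl
  rw [closure_ball (0 : V2) one_ne_zero] at hc
  apply hc
  simpa using hu

theorem OPN_neg {S : Surf} (D : Dom S) {n : V3}
    {nk : ℕ → V3} {tk : ℕ → ℝ} {uk : ℕ → V2}
    (hnk : Tendsto nk atTop (𝓝 n)) {u₀ : V2}
    (huk : Tendsto uk atTop (𝓝 u₀)) (hu1 : ∀ k, ‖uk k‖ ≤ 1)
    (hl : ∀ k, tk k < ⟪nk k, S.X (uk k)⟫)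
    (hbad : ∀ k, refl (nk k) (tk k) (S.X (uk k)) ∉ closure D.W) (hu₀ : ‖u₀‖ < 1)
    (hy : Tendsto (fun k => refl (nk k) (tk k) (S.X (uk k))) atTop (𝓝 (S.X u₀)))
    (hneg : ⟪n, S.N u₀⟫ < 0) : False := by
  have hXc : Continuous S.X := S.smooth.continuous
  have hpos : 0 < ⟪nn S.X u₀, S.N u₀⟫ := by
    rw [S.nn_eq hu₀.le, real_inner_smul_left, real_inner_self_eq_norm_sq, S.N_norm hu₀.le]
    have := S.nn_pos hu₀.le
    rw [S.nn_eq hu₀.le, norm_smul, S.N_norm hu₀.le] at this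
    simpa using this
  obtain ⟨B⟩ := exists_box S.smooth hpos
  obtain ⟨ε, hε0, hεr, hε⟩ := lsig D.toPreDom hu₀ B
  have hX0 : S.X u₀ ∈ B.U B.r := B.mem_U B.hr
  have hg0 : ⟪B.g (S.X u₀), n⟫ < 0 := by
    rw [B.g_eq hX0, B.b_X (by simpa using B.hr), real_inner_smul_left]
    have h2 := B.g_pos hX0
    have h3 : ⟪NN S.X u₀, n⟫ < 0 := by
      rw [real_inner_comm]
      exact hneg
    exact mul_neg_of_pos_of_neg h2 h3
  have hgc : ContinuousAt (fun q : V3 × V3 => ⟪B.g q.1, q.2⟫) (S.X u₀, n) := by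
    apply ContinuousAt.inner
    · exact ContinuousAt.comp (f := Prod.fst) (x := ((S.X u₀, n) : V3 × V3))
        (B.g_cont S.smooth hX0) continuousAt_fst
    · exact continuousAt_snd
  have hev : ∀ᶠ q : V3 × V3 in 𝓝 (S.X u₀, n), ⟪B.g q.1, q.2⟫ < 0 :=
    hgc.eventually_lt_const hg0
  rw [nhds_prod_eq, Filter.eventually_prod_iff] at hev
  obtain ⟨pa, hpa, pb, hpb, hab⟩ := hev
  have hV : {y | pa y} ∩ B.U ε ∈ 𝓝 (S.X u₀) := inter_mem hpa (B.U_nhds hε0 hεr)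
  obtain ⟨ρ, hρ0, hρ⟩ := Metric.mem_nhds_iff.mp hV
  have e1 : ∀ᶠ k in atTop, S.X (uk k) ∈ ball (S.X u₀) ρ :=
    ((hXc.tendsto u₀).comp huk).eventually (ball_mem_nhds _ hρ0)
  have e2 : ∀ᶠ k in atTop, refl (nk k) (tk k) (S.X (uk k)) ∈ ball (S.X u₀) ρ :=
    hy.eventually (ball_mem_nhds _ hρ0)
  have e3 : ∀ᶠ k in atTop, pb (nk k) := hnk.eventually hpb
  obtain ⟨k, hk1, hk2, hk3⟩ := (e1.and (e2.and e3)).exists
  set x := S.X (uk k) with hx
  set y := refl (nk k) (tk k) x with hyd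
  set l := ⟪nk k, x⟫ - tk k with hld
  have hl0 : 0 < l := by
    have := hl k
    rw [hld]
    linarith
  have hyx : y = x - (2 * l) • nk k := rfl
  -- the path
  have hseg : ∀ s ∈ Icc (0 : ℝ) 1, x + s • (y - x) ∈ ball (S.X u₀) ρ := by
    intro s hs
    apply (convex_ball (S.X u₀) ρ).add_smul_sub_mem hk1 hk2 hs
  have hder : ∀ s ∈ Icc (0 : ℝ) 1, HasDerivAt (fun s : ℝ => B.f (x + s • (y - x)))
      (⟪B.g (x + s • (y - x)), y - x⟫) s := by
    intro s hs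
    have hU : x + s • (y - x) ∈ B.U B.r := B.U_mono hεr (hρ (hseg s hs)).2
    have h2 : HasFDerivAt B.f (fderiv ℝ B.f (x + s • (y - x))) (x + s • (y - x)) :=
      ((B.smooth_f hU).differentiableAt (by norm_num)).hasFDerivAt
    have h3 : HasDerivAt (fun s : ℝ => x + s • (y - x)) (y - x) s := by
      have h4 : HasDerivAt (fun s : ℝ => s • (y - x)) ((1 : ℝ) • (y - x)) s :=
        (hasDerivAt_id s).smul_const (y - x)
      rw [one_smul] at h4
      exact h4.const_add x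
    have h5 := h2.comp_hasDerivAt s h3
    rw [B.fd S.smooth hU] at h5
    exact h5
  have hcon : ContinuousOn (fun s : ℝ => B.f (x + s • (y - x))) (Icc 0 1) := fun s hs =>
    (hder s hs).continuousAt.continuousWithinAt
  obtain ⟨c, hc1, hc2⟩ := exists_hasDerivAt_eq_slope (fun s : ℝ => B.f (x + s • (y - x)))
    (fun s => ⟪B.g (x + s • (y - x)), y - x⟫) zero_lt_one hcon
    (fun s hs => hder s ⟨hs.1.le, hs.2.le⟩)
  have hc3 : c ∈ Icc (0 : ℝ) 1 := ⟨hc1.1.le, hc1.2.le⟩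
  have hc4 : ⟪B.g (x + c • (y - x)), nk k⟫ < 0 := hab (hρ (hseg c hc3)).1 hk3
  have hc5 : 0 < ⟪B.g (x + c • (y - x)), y - x⟫ := by
    have h6 : y - x = (-(2 * l)) • nk k := by
      rw [hyx]
      module
    rw [h6, real_inner_smul_right, ← h6]
    nlinarith
  have hf0 : B.f x = 0 := ((hε x (hρ hk1).2).2.2.1).mp (S.mem_Sig (hu1 k))
  have hf1 : 0 < B.f y := by
    simp only [zero_smul, add_zero, one_smul, add_sub_cancel, sub_zero, div_one] at hc2
    rw [hf0, sub_zero] at hc2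
    rw [← hc2]
    exact hc5
  exact hbad k (((hε y (hρ hk2).2).2.2.2.2).mpr hf1.le)

theorem opn {S : Surf} (D : Dom S) {n : V3} {t : ℝ} (hn : ‖n‖ = 1) (hS : SS D n t)
    (h1 : ∀ u v : V2, ‖u‖ = 1 → ‖v‖ < 1 → refl n t (S.X u) ≠ S.X v)
    (h2 : ∃ u : V2, ‖u‖ ≤ 1 ∧ refl n t (S.X u) ∉ S.Sig)
    {nk : ℕ → V3} {tk : ℕ → ℝ} {uk : ℕ → V2} (hnk1 : ∀ k, ‖nk k‖ = 1)
    (hnk : Tendsto nk atTop (𝓝 n)) (htk : Tendsto tk atTop (𝓝 t)) {u₀ : V2}
    (huk : Tendsto uk atTop (𝓝 u₀)) (hu1 : ∀ k, ‖uk k‖ ≤ 1)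
    (hl : ∀ k, tk k < ⟪nk k, S.X (uk k)⟫)
    (hbad : ∀ k, refl (nk k) (tk k) (S.X (uk k)) ∉ closure D.W) :
    ‖u₀‖ = 1 ∨ refl n t (S.X u₀) ∈ Disc := by
  have hXc : Continuous S.X := S.smooth.continuous
  have hu₀ : ‖u₀‖ ≤ 1 := le_of_tendsto huk.norm (Eventually.of_forall hu1)
  have hXk : Tendsto (fun k => S.X (uk k)) atTop (𝓝 (S.X u₀)) := (hXc.tendsto u₀).comp huk
  have hin : Tendsto (fun k => ⟪nk k, S.X (uk k)⟫) atTop (𝓝 ⟪n, S.X u₀⟫) := hnk.inner hXk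
  have hle : t ≤ ⟪n, S.X u₀⟫ :=
    le_of_tendsto_of_tendsto htk hin (Eventually.of_forall (fun k => (hl k).le))
  have hy : Tendsto (fun k => refl (nk k) (tk k) (S.X (uk k))) atTop
      (𝓝 (refl n t (S.X u₀))) := by
    unfold refl
    exact hXk.sub (((hin.sub htk).const_mul 2).smul hnk)
  have hcl : refl n t (S.X u₀) ∈ closure D.W := hS u₀ hu₀ hle
  have hnW : refl n t (S.X u₀) ∉ D.W := by
    intro hW
    obtain ⟨k, hk⟩ := (hy.eventually (D.isOpen.mem_nhds hW)).exists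
    exact hbad k (subset_closure hk)
  have hfr : refl n t (S.X u₀) ∈ frontier D.W := by
    rw [frontier, D.isOpen.interior_eq]
    exact ⟨hcl, hnW⟩
  by_contra hcon
  push Not at hcon
  obtain ⟨hc1, hc2⟩ := hcon
  have hu₀' : ‖u₀‖ < 1 := lt_of_le_of_ne hu₀ hc1
  obtain ⟨u', hu', hu''⟩ := h2
  rcases D.fr hfr with hS' | hD'
  swap
  · exact hc2 hD'
  obtain ⟨v, hv1, hv2⟩ := hS'
  have hv3 : ‖v‖ < 1 := by
    rcases lt_or_eq_of_le hv1 with h3 | h3
    · exact h3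
    · exfalso
      apply hc2
      rw [← hv2]
      obtain ⟨h4, h5⟩ := S.bd1 h3
      exact ⟨h4, h5.le⟩
  rcases lt_or_eq_of_le hle with hl0 | hl0
  · exact hu'' (ct4 D hn hS h1 hu₀' (ct1 D hn hS hu₀' hl0 hv3 hv2.symm) u' hu')
  · have h3 := ct3 D hn hS hu₀' hl0.symm
    rcases lt_or_eq_of_le h3 with h4 | h4
    · rw [OPN_refl_fix hl0.symm] at hy
      exact OPN_neg D hnk huk hu1 hl hbad hu₀' hy h4
    · exact hu'' (ct4 D hn hS h1 hu₀' (ct2 D hn hS hu₀' hl0.symm h4) u' hu')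

end Pool.Agent.H99.SC
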