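import Pool.Agent.H99.SC.LCC
import Pool.Agent.H99.SC.OPN

/-!
# TILT: continuous paths of tilted planes

`BadSeq`: a sequence of failures converging to the boundary point `S.X u₀` at the time `s`.
`hinge_strict`: if `⟪nf s, N u₀⟫ < 0` and `0 < (nf s) 2` there is none: `refl n t x = x + 2 (⟪n,x⟫ - t) (-n)`,
`lcc` with `v = - nf s`.

`tilt`.  Let `G = {s ∈ [0,1] : SS D (nf s) (tf s)}`.  Show `[0,1] ⊆ G` by
`IsClosed.Icc_subset_of_forall_exists_gt` (or a sup argument).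
Closed: let `s_k → s`, `SS` at `s_k`; `u` with `t < ⟪n, X u⟫` at `s`: also for large `k`, take limits;
`t = ⟪n, X u⟫`: the reflected point is `X u ∈ closure W` (`sig_closure`).
Right-open at `s < 1` with `SS` at `s`: otherwise there are `s_k → s+` and `u_k`, `‖u_k‖ ≤ 1`,
`t_k ≤ ⟪n_k, X u_k⟫`, reflected point not in `closure W`; then `t_k < ⟪n_k, X u_k⟫` (equality: the
reflected point is `X u_k`).  Subsequence: `u_k → u₀`, `‖u₀‖ ≤ 1`.  `opn` applies:
 (h1) `‖u‖ = 1`, `‖v‖ < 1`, `refl (X u) = X v`: by the sign of `⟪n,X u⟫ - t`: `> 0`: `ha` puts it in `W`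
   but `X v ∉ W`; `< 0`: `X u ∈ Disc`, `hb`; `= 0`: `X u = X v` contradicts injectivity.
 (h2) the point `u` of `hd`: sign `> 0`: `ha` and `not_mem_W`; `< 0`: `hb`.
So `‖u₀‖ = 1` or `refl (X u₀) ∈ Disc`.  `t ≤ ⟪n, X u₀⟫`.
 * `t < ⟪n, X u₀⟫`, `‖u₀‖ = 1`: `ha`: the reflected point is in `W`, open, but it is a limit of points
   outside the closure: contradiction.
 * `t < ⟪n, X u₀⟫`, `d = refl (X u₀) ∈ Disc`: `⟪n,d⟫ < t`, `refl d = X u₀ ∈ S.Sig`: contradicts `hb`.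
 * `t = ⟪n, X u₀⟫`: the reflected point is `X u₀`; in `Disc` only if `‖u₀‖ = 1` (`disj`).  So
   `‖u₀‖ = 1` and `hc` applies.
-/

set_option autoImplicit false

open scoped RealInnerProductSpace Topology
open Metric Filter Set

noncomputable section

namespace Pool.Agent.H99.SC

def BadSeq {S : Surf} (D : Dom S) (nf : ℝ → V3) (tf : ℝ → ℝ) (s : ℝ) (u₀ : V2) : Prop :=
  ∃ (sk : ℕ → ℝ) (uk : ℕ → V2), Tendsto sk atTop (𝓝 s) ∧ Tendsto uk atTop (𝓝 u₀) ∧
    ∀ k, s < sk k ∧ sk k ≤ 1 ∧ ‖uk k‖ ≤ 1 ∧ tf (sk k) < ⟪nf (sk k), S.X (uk k)⟫ ∧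
      refl (nf (sk k)) (tf (sk k)) (S.X (uk k)) ∉ closure D.W

theorem TILT_refl (n : V3) (t : ℝ) (y : V3) :
    refl n t y = y + (2 * (⟪n, y⟫ - t)) • (-n) := by
  unfold refl
  rw [smul_neg, sub_eq_add_neg]

theorem TILT_refl_eq {n : V3} {t : ℝ} {y : V3} (h : ⟪n, y⟫ = t) : refl n t y = y := by
  unfold refl
  rw [h, sub_self, mul_zero, zero_smul, sub_zero]

theorem TILT_tendsto {ι : Type*} {l : Filter ι} {nk : ι → V3} {tk : ι → ℝ} {yk : ι → V3} {n : V3}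
    {t : ℝ} {y : V3} (h1 : Tendsto nk l (𝓝 n)) (h2 : Tendsto tk l (𝓝 t))
    (h3 : Tendsto yk l (𝓝 y)) :
    Tendsto (fun k => refl (nk k) (tk k) (yk k)) l (𝓝 (refl n t y)) := by
  unfold refl
  exact h3.sub (((((h1.inner h3).sub h2).const_mul 2)).smul h1)

theorem TILT_seq {F : Type*} [TopologicalSpace F] {f : ℝ → F} (hf : ContinuousOn f (Icc 0 1))
    {s : ℝ} (hs : s ∈ Icc (0 : ℝ) 1) {sk : ℕ → ℝ} (h : Tendsto sk atTop (𝓝 s))
    (hk : ∀ k, sk k ∈ Icc (0 : ℝ) 1) : Tendsto (fun k => f (sk k)) atTop (𝓝 (f s)) :=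
  (hf s hs).tendsto.comp
    (tendsto_nhdsWithin_iff.2 ⟨h, Eventually.of_forall hk⟩)

theorem hinge_strict {S : Surf} (D : Dom S) {nf : ℝ → V3} {tf : ℝ → ℝ}
    (hn : ContinuousOn nf (Icc 0 1)) (ht : ContinuousOn tf (Icc 0 1)) {s : ℝ} (hs : 0 ≤ s)
    (hs1 : s < 1) {u₀ : V2} (hu₀ : ‖u₀‖ = 1) (hl : ⟪nf s, S.X u₀⟫ = tf s)
    (h3 : 0 < (nf s) 2) (hN : ⟪nf s, S.N u₀⟫ < 0) : ¬ BadSeq D nf tf s u₀ := by
  rintro ⟨sk, uk, hsk, huk, hk⟩
  have hsI : s ∈ Icc (0 : ℝ) 1 := ⟨hs, hs1.le⟩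
  have hkI : ∀ k, sk k ∈ Icc (0 : ℝ) 1 := fun k => ⟨hs.trans (hk k).1.le, (hk k).2.1⟩
  have hnk := TILT_seq hn hsI hsk hkI
  have htk := TILT_seq ht hsI hsk hkI
  have hXk : Tendsto (fun k => S.X (uk k)) atTop (𝓝 (S.X u₀)) :=
    (S.smooth.continuous.tendsto u₀).comp huk
  obtain ⟨ε, hε, hlcc⟩ := lcc D.toPreDom hu₀ (v := -nf s) (by rw [inner_neg_left]; linarith)
    (by simp only [PiLp.neg_apply]; linarith)
  have hdk : Tendsto (fun k => 2 * (⟪nf (sk k), S.X (uk k)⟫ - tf (sk k))) atTop (𝓝 0) := by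
    have h1 := ((hnk.inner hXk).sub htk).const_mul 2
    rw [hl, sub_self, mul_zero] at h1
    exact h1
  have e1 : ∀ᶠ k in atTop, ‖uk k - u₀‖ < ε := by
    have := (tendsto_iff_norm_sub_tendsto_zero.1 huk).eventually (gt_mem_nhds hε)
    exact this
  have e2 : ∀ᶠ k in atTop, ‖-nf (sk k) - -nf s‖ < ε := by
    have := (tendsto_iff_norm_sub_tendsto_zero.1 hnk.neg).eventually (gt_mem_nhds hε)
    exact this
  have e3 : ∀ᶠ k in atTop, 2 * (⟪nf (sk k), S.X (uk k)⟫ - tf (sk k)) < ε :=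
    hdk.eventually (gt_mem_nhds hε)
  obtain ⟨k, h1, h2, h4⟩ := (e1.and (e2.and e3)).exists
  obtain ⟨_, _, hu1, hlt, hbad⟩ := hk k
  apply hbad
  rw [TILT_refl]
  exact hlcc (uk k) hu1 h1 (-nf (sk k)) h2 _ (by linarith) h4

theorem tilt {S : Surf} (D : Dom S) (nf : ℝ → V3) (tf : ℝ → ℝ)
    (hn : ContinuousOn nf (Icc 0 1)) (ht : ContinuousOn tf (Icc 0 1))
    (h1 : ∀ s ∈ Icc (0 : ℝ) 1, ‖nf s‖ = 1) (h0 : SS D (nf 0) (tf 0))
    (ha : ∀ s : ℝ, 0 ≤ s → s < 1 → ∀ u : V2, ‖u‖ = 1 → tf s < ⟪nf s, S.X u⟫ →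
      refl (nf s) (tf s) (S.X u) ∈ D.W)
    (hb : ∀ s : ℝ, 0 ≤ s → s < 1 → ∀ d ∈ Disc, ⟪nf s, d⟫ < tf s →
      refl (nf s) (tf s) d ∉ S.Sig)
    (hc : ∀ s : ℝ, 0 ≤ s → s < 1 → ∀ u₀ : V2, ‖u₀‖ = 1 → ⟪nf s, S.X u₀⟫ = tf s →
      ¬ BadSeq D nf tf s u₀)
    (hd : ∀ s : ℝ, 0 ≤ s → s < 1 → ∃ u : V2, ‖u‖ = 1 ∧ ⟪nf s, S.X u⟫ ≠ tf s) :
    ∀ s ∈ Icc (0 : ℝ) 1, SS D (nf s) (tf s) := by
  have hSigW : ∀ u : V2, ‖u‖ ≤ 1 → S.X u ∈ closure D.W := fun u hu =>
    sig_closure D.toPreDom (S.mem_Sig hu)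
  suffices h : Icc (0 : ℝ) 1 ⊆ {s | SS D (nf s) (tf s)} from fun s hs => h hs
  apply IsClosed.Icc_subset_of_forall_exists_gt
  · -- closed
    rw [← isSeqClosed_iff_isClosed]
    intro sk s hsk hlim
    have hsI : s ∈ Icc (0 : ℝ) 1 := isClosed_Icc.mem_of_tendsto hlim
      (Eventually.of_forall fun k => (hsk k).2)
    refine ⟨?_, hsI⟩
    intro u hu hle
    have hnk := TILT_seq hn hsI hlim (fun k => (hsk k).2)
    have htk := TILT_seq ht hsI hlim (fun k => (hsk k).2)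
    rcases hle.lt_or_eq with hlt | heq
    · have hlk : ∀ᶠ k in atTop, tf (sk k) < ⟪nf (sk k), S.X u⟫ :=
        htk.eventually_lt (hnk.inner tendsto_const_nhds) hlt
      refine isClosed_closure.mem_of_tendsto (TILT_tendsto hnk htk tendsto_const_nhds) ?_
      filter_upwards [hlk] with k hk
      exact (hsk k).1 u hu hk.le
    · rw [TILT_refl_eq heq.symm]
      exact hSigW u hu
  · exact h0
  · -- right-open
    rintro s ⟨hS, hs0, hs1⟩ y hy
    rw [mem_Ioi] at hy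
    by_contra hemp
    rw [Set.not_nonempty_iff_eq_empty] at hemp
    have hsI : s ∈ Icc (0 : ℝ) 1 := ⟨hs0, hs1.le⟩
    set δ : ℝ := min (y - s) (1 - s) with hδ
    have hδ0 : 0 < δ := lt_min (by linarith) (by linarith)
    set sk : ℕ → ℝ := fun k => s + δ * (1 / ((k : ℝ) + 1)) with hskd
    have hfr : ∀ k : ℕ, 0 < 1 / ((k : ℝ) + 1) ∧ 1 / ((k : ℝ) + 1) ≤ 1 := by
      intro k
      refine ⟨by positivity, ?_⟩
      rw [div_le_one (by positivity)]
      linarith [Nat.cast_nonneg (α := ℝ) k]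
    have hsk1 : ∀ k, s < sk k := by
      intro k
      have := mul_pos hδ0 (hfr k).1
      simp only [hskd]
      linarith
    have hsk2 : ∀ k, sk k ≤ s + δ := by
      intro k
      have := mul_le_mul_of_nonneg_left (hfr k).2 hδ0.le
      simp only [hskd]
      linarith
    have hsky : ∀ k, sk k ≤ y := fun k => by
      have := min_le_left (y - s) (1 - s)
      have := hsk2 k
      linarith
    have hsk01 : ∀ k, sk k ≤ 1 := fun k => by
      have := min_le_right (y - s) (1 - s)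
      have := hsk2 k
      linarith
    have hskI : ∀ k, sk k ∈ Icc (0 : ℝ) 1 := fun k => ⟨hs0.trans (hsk1 k).le, hsk01 k⟩
    have hsklim : Tendsto sk atTop (𝓝 s) := by
      have h2 := (tendsto_one_div_add_atTop_nhds_zero_nat (𝕜 := ℝ)).const_mul δ
      have h3 := h2.const_add s
      rw [mul_zero, add_zero] at h3
      exact h3
    have hbad : ∀ k, ∃ u : V2, ‖u‖ ≤ 1 ∧ tf (sk k) < ⟪nf (sk k), S.X u⟫ ∧
        refl (nf (sk k)) (tf (sk k)) (S.X u) ∉ closure D.W := by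
      intro k
      have hno : ¬ SS D (nf (sk k)) (tf (sk k)) := by
        intro hSS
        have : sk k ∈ {s | SS D (nf s) (tf s)} ∩ Ioc s y := ⟨hSS, hsk1 k, hsky k⟩
        rw [hemp] at this
        exact this
      unfold SS at hno
      push Not at hno
      obtain ⟨u, hu, hle, hnot⟩ := hno
      refine ⟨u, hu, lt_of_le_of_ne hle ?_, hnot⟩
      intro heq
      apply hnot
      rw [TILT_refl_eq heq.symm]
      exact hSigW u hu
    choose uk huk1 hlk hbk using hbad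
    obtain ⟨u₀, hu₀, φ, hφ, hlimu⟩ := (isCompact_closedBall (0 : V2) 1).tendsto_subseq
      (x := uk) (fun k => by rw [mem_closedBall_zero_iff]; exact huk1 k)
    rw [mem_closedBall_zero_iff] at hu₀
    have hsφ : Tendsto (fun k => sk (φ k)) atTop (𝓝 s) := hsklim.comp hφ.tendsto_atTop
    have hnk : Tendsto (fun k => nf (sk (φ k))) atTop (𝓝 (nf s)) :=
      TILT_seq hn hsI hsφ (fun k => hskI _)
    have htk : Tendsto (fun k => tf (sk (φ k))) atTop (𝓝 (tf s)) :=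
      TILT_seq ht hsI hsφ (fun k => hskI _)
    have hXk : Tendsto (fun k => S.X (uk (φ k))) atTop (𝓝 (S.X u₀)) :=
      (S.smooth.continuous.tendsto u₀).comp hlimu
    have hBS : BadSeq D nf tf s u₀ := ⟨fun k => sk (φ k), fun k => uk (φ k), hsφ, hlimu,
      fun k => ⟨hsk1 _, hsk01 _, huk1 _, hlk _, hbk _⟩⟩
    have hns := h1 s hsI
    have hc1 : ∀ u v : V2, ‖u‖ = 1 → ‖v‖ < 1 → refl (nf s) (tf s) (S.X u) ≠ S.X v := by
      intro u v hu hv heq
      rcases lt_trichotomy (tf s) ⟪nf s, S.X u⟫ with hlt | he | hgt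
      · have h2 := ha s hs0 hs1 u hu hlt
        rw [heq] at h2
        exact not_mem_W D.toPreDom (Or.inl (S.mem_Sig hv.le)) h2
      · rw [TILT_refl_eq he.symm] at heq
        have := S.inj u v hu.le hv.le heq
        rw [this] at hu
        linarith
      · have hdisc : S.X u ∈ Disc := ⟨(S.bd1 hu).1, (S.bd1 hu).2.le⟩
        have h2 := hb s hs0 hs1 _ hdisc hgt
        rw [heq] at h2
        exact h2 (S.mem_Sig hv.le)
    have hc2 : ∃ u : V2, ‖u‖ ≤ 1 ∧ refl (nf s) (tf s) (S.X u) ∉ S.Sig := by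
      obtain ⟨u, hu, hne⟩ := hd s hs0 hs1
      refine ⟨u, hu.le, ?_⟩
      rcases lt_or_gt_of_ne hne with hlt | hgt
      · have hdisc : S.X u ∈ Disc := ⟨(S.bd1 hu).1, (S.bd1 hu).2.le⟩
        exact hb s hs0 hs1 _ hdisc hlt
      · intro hmem
        exact not_mem_W D.toPreDom (Or.inl hmem) (ha s hs0 hs1 u hu hgt)
    have hopn := opn D hns hS hc1 hc2 (nk := fun k => nf (sk (φ k))) (tk := fun k => tf (sk (φ k)))
      (uk := fun k => uk (φ k)) (fun k => h1 _ (hskI _)) hnk htk hlimu (fun k => huk1 _)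
      (fun k => hlk _) (fun k => hbk _)
    have hle : tf s ≤ ⟪nf s, S.X u₀⟫ :=
      le_of_tendsto_of_tendsto' htk (hnk.inner hXk) (fun k => (hlk _).le)
    rcases hle.lt_or_eq with hlt | heq
    · rcases hopn with hu1 | hdisc
      · have h2 := ha s hs0 hs1 u₀ hu1 hlt
        have h3 := (TILT_tendsto hnk htk hXk).eventually (D.isOpen.mem_nhds h2)
        obtain ⟨k, hk⟩ := h3.exists
        exact hbk _ (subset_closure hk)
      · have h2 : ⟪nf s, refl (nf s) (tf s) (S.X u₀)⟫ < tf s := by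
          rw [inner_refl _ hns]
          linarith
        have h3 := hb s hs0 hs1 _ hdisc h2
        rw [refl_refl _ hns] at h3
        exact h3 (S.mem_Sig hu₀)
    · have hu1 : ‖u₀‖ = 1 := by
        rcases hopn with hu1 | hdisc
        · exact hu1
        · rw [TILT_refl_eq heq.symm] at hdisc
          by_contra hne
          exact D.disj u₀ (lt_of_le_of_ne hu₀ hne) hdisc
      exact hc s hs0 hs1 u₀ hu1 heq.symm hBS

end Pool.Agent.H99.SC
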