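import Pool.Agent.H99.SC.WHB
import Pool.Agent.H99.SC.TILT

/-!
# S1: a weak star centre gives `SS` for a vertical plane through the axis

`z = zc e a h`, `h > 0`, `a ≥ 0`.  Three applications of `tilt`.
Stage A: `T₁ = 2h/(1+2a)` fixed (`h < (1+a) T₁`, `a T₁ ≤ h`), `t` from a large value `M` to
 `2/sqrt(1+T₁^2)`, `t s = (1-s) M + s 2/sqrt(..)`.  `SS` at `s = 0` is vacuous (`⟪n, X u⟫ ≤ ‖X u‖ < M`, the
 surface is compact).  `cone1` and `wst2`: `hb` (`S.Sig ⊆ closure W`).  `ha` and `hc` are vacuous: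
 `⟪n, X u⟫ < t` on the circle (`cone1` with `d = X u ∈ Disc`); `hd` too.
Stage B: `T s = T₁ + (T₀ - T₁) s`, `T₀ = h/(1+a)`, `t s = (2 - s)/sqrt(1 + T(s)^2)`: for `s < 1` `cone1` applies
 again.  At `s = 1`: `T = T₀`, `t = 1/sqrt(1+T₀^2) = tT h a T₀` (`h - a T₀ = T₀`).
Stage C: `T s = (1-s) T₀`, `t s = tT h a (T s)`; for `s < 1`: `0 < T s`, `a T s < h`.  `ha`: `cone2'`,
 `wst3`.  `hb`: `cone2`, `wst2`.  `hc`: `⟪n, N u₀⟫ = -(sin/h) ⟪z - X u₀, N u₀⟫` by `hinge_id` with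
 `N = Nr X + N_3 E3` (`N_decomp`) `≤ 0` by `wst1`; if `< 0`: `hinge_strict` (`(nT e T) 2 > 0`); if `= 0`:
 `weak_hinge` applied to the sequences of `BadSeq`.  `hd`: `u` with `X u = -e`:
 `⟪nT e T, -e⟫ < 0 < tT`.  At `s = 1`: `nT e 0 = e`, `tT h a 0 = 0`.
Continuity of the paths: explicit functions, `h - a T > 0` on the range.
-/

set_option autoImplicit false

open scoped RealInnerProductSpace Topology
open Metric Filter Set

noncomputable section

namespace Pool.Agent.H99.SC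

/-- a path of planes with the circle on one side -/
theorem S1_cone {S : Surf} (D : Dom S) {e : V3} (he : ‖e‖ = 1) (he2 : e 2 = 0) {a h : ℝ}
    (ha : 0 ≤ a) (hh : 0 < h) (hz : WStar D (zc e a h)) (Tf tf : ℝ → ℝ)
    (hTc : Continuous Tf) (htc : Continuous tf) (h0 : SS D (nT e (Tf 0)) (tf 0))
    (hcond : ∀ s : ℝ, 0 ≤ s → s < 1 → 0 < Tf s ∧ h < (1 + a) * Tf s ∧ a * Tf s ≤ h ∧
      (Real.sqrt (1 + Tf s ^ 2))⁻¹ < tf s) : SS D (nT e (Tf 1)) (tf 1) := by
  have hdisc : ∀ u : V2, ‖u‖ = 1 → S.X u ∈ Disc := by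
    intro u hu
    exact ⟨(S.bd1 hu).1, (S.bd1 hu).2.le⟩
  have key : ∀ s : ℝ, 0 ≤ s → s < 1 → ∀ d ∈ Disc, ⟪nT e (Tf s), d⟫ < tf s ∧
      0 < (refl (nT e (Tf s)) (tf s) d) 2 ∧ InCone (zc e a h) (refl (nT e (Tf s)) (tf s) d) := by
    intro s hs hs1 d hd
    obtain ⟨c1, c2, c3, c4⟩ := hcond s hs hs1
    exact cone1 he he2 ha hh c1 c2 c3 c4 hd
  refine tilt D (fun s => nT e (Tf s)) tf ((nT_cont e).comp hTc).continuousOn htc.continuousOn
    (fun s _ => nT_norm he he2 _) h0 ?_ ?_ ?_ ?_ 1 ⟨zero_le_one, le_rfl⟩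
  · intro s hs hs1 u hu hlt
    exact absurd hlt (not_lt.mpr (key s hs hs1 _ (hdisc u hu)).1.le)
  · intro s hs hs1 d hd _ hmem
    obtain ⟨_, k2, k3⟩ := key s hs hs1 d hd
    exact wst2 hz k3 k2 (sig_closure D.toPreDom hmem)
  · intro s hs hs1 u₀ hu₀ heq _
    have := (key s hs hs1 _ (hdisc u₀ hu₀)).1
    exact absurd heq this.ne
  · intro s hs hs1
    exact ⟨cu 0, norm_cu 0, (key s hs hs1 _ (hdisc _ (norm_cu 0))).1.ne⟩

theorem S1_nT_2 {e : V3} (he2 : e 2 = 0) (T : ℝ) : (nT e T) 2 = T / Real.sqrt (1 + T ^ 2) := by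
  simp [nT, he2]
  ring

theorem S1_sqrt_pos (T : ℝ) : 0 < Real.sqrt (1 + T ^ 2) := Real.sqrt_pos.mpr (by positivity)

theorem S1_inner_e {e : V3} (he : ‖e‖ = 1) (he2 : e 2 = 0) (T : ℝ) :
    ⟪nT e T, -e⟫ = -(Real.sqrt (1 + T ^ 2))⁻¹ := by
  have h1 : e 0 ^ 2 + e 1 ^ 2 = 1 := by
    have := nsq e
    rw [he, he2] at this
    linarith
  rw [ip]
  simp [nT, he2]
  have : (Real.sqrt (1 + T ^ 2))⁻¹ * e 0 * e 0 + (Real.sqrt (1 + T ^ 2))⁻¹ * e 1 * e 1
      = (Real.sqrt (1 + T ^ 2))⁻¹ := by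
    calc _ = (Real.sqrt (1 + T ^ 2))⁻¹ * (e 0 ^ 2 + e 1 ^ 2) := by ring
      _ = _ := by rw [h1, mul_one]
  linarith

theorem s1 {S : Surf} (D : Dom S) {e : V3} (he : ‖e‖ = 1) (he2 : e 2 = 0) {a h : ℝ}
    (ha : 0 ≤ a) (hh : 0 < h) (hz : WStar D (zc e a h)) : SS D e 0 := by
  have hq : ∀ T : ℝ, 0 < Real.sqrt (1 + T ^ 2) := S1_sqrt_pos
  -- constants
  set T₁ : ℝ := 2 * h / (1 + 2 * a) with hT₁
  set T₀ : ℝ := h / (1 + a) with hT₀
  have ha1 : 0 < 1 + a := by linarith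
  have ha2 : 0 < 1 + 2 * a := by linarith
  have hT₁0 : 0 < T₁ := by positivity
  have hT₀0 : 0 < T₀ := by positivity
  have e0' : (1 + a) * T₀ = h := by rw [hT₀]; field_simp
  have e1' : (1 + 2 * a) * T₁ = 2 * h := by rw [hT₁]; field_simp
  have h01 : T₀ < T₁ := by
    rw [hT₀, hT₁, div_lt_div_iff₀ ha1 ha2]
    nlinarith
  have haT₁ : a * T₁ ≤ h := by nlinarith
  have haT₁' : h < (1 + a) * T₁ := by nlinarith
  have haT₀ : a * T₀ < h := by nlinarith
  -- stage A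
  obtain ⟨M, hM1, hM2⟩ : ∃ M : ℝ, 2 * (Real.sqrt (1 + T₁ ^ 2))⁻¹ < M ∧
      ∀ u : V2, ‖u‖ ≤ 1 → ‖S.X u‖ < M := by
    obtain ⟨R, hR⟩ := S.isCompact_Sig.isBounded.exists_norm_le
    refine ⟨max (2 * (Real.sqrt (1 + T₁ ^ 2))⁻¹) R + 1, ?_, ?_⟩
    · have := le_max_left (2 * (Real.sqrt (1 + T₁ ^ 2))⁻¹) R
      linarith
    · intro u hu
      have h1 := hR _ (S.mem_Sig hu)
      have := le_max_right (2 * (Real.sqrt (1 + T₁ ^ 2))⁻¹) R
      linarith
  have hinv : ∀ T : ℝ, 0 < (Real.sqrt (1 + T ^ 2))⁻¹ := fun T => inv_pos.mpr (hq T)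
  have hA : SS D (nT e T₁) (2 * (Real.sqrt (1 + T₁ ^ 2))⁻¹) := by
    have := S1_cone D he he2 ha hh hz (fun _ => T₁)
      (fun s => (1 - s) * M + s * (2 * (Real.sqrt (1 + T₁ ^ 2))⁻¹)) continuous_const
      (by fun_prop) ?_ ?_
    · simpa using this
    · intro u hu hle
      exfalso
      have h1 : ⟪nT e T₁, S.X u⟫ ≤ ‖nT e T₁‖ * ‖S.X u‖ := real_inner_le_norm _ _
      rw [nT_norm he he2, one_mul] at h1
      have h2 := hM2 u hu
      have h3 : M ≤ ⟪nT e T₁, S.X u⟫ := by simpa using hle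
      linarith
    · intro s hs hs1
      refine ⟨hT₁0, haT₁', haT₁, ?_⟩
      have := hinv T₁
      nlinarith
  -- stage B
  have hB : SS D (nT e T₀) (tT h a T₀) := by
    have hcq : Continuous (fun s : ℝ => Real.sqrt (1 + (T₁ + (T₀ - T₁) * s) ^ 2)) := by fun_prop
    have := S1_cone D he he2 ha hh hz (fun s => T₁ + (T₀ - T₁) * s)
      (fun s => (2 - s) * (Real.sqrt (1 + (T₁ + (T₀ - T₁) * s) ^ 2))⁻¹) (by fun_prop)
      ((continuous_const.sub continuous_id).mul (hcq.inv₀ fun s => (hq _).ne')) ?_ ?_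
    · have e2 : T₁ + (T₀ - T₁) * 1 = T₀ := by ring
      have e3 : tT h a T₀ = (2 - 1) * (Real.sqrt (1 + T₀ ^ 2))⁻¹ := by
        unfold tT
        have : h - a * T₀ = T₀ := by linarith
        rw [this]
        field_simp
        norm_num
      rw [e3]
      simpa only [e2] using this
    · simpa using hA
    · intro s hs hs1
      have k1 : T₀ < T₁ + (T₀ - T₁) * s := by nlinarith
      have k2 : T₁ + (T₀ - T₁) * s ≤ T₁ := by nlinarith
      refine ⟨by linarith, ?_, ?_, ?_⟩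
      · calc h = (1 + a) * T₀ := e0'.symm
          _ < _ := mul_lt_mul_of_pos_left k1 ha1
      · exact (mul_le_mul_of_nonneg_left k2 ha).trans haT₁
      · have := hinv (T₁ + (T₀ - T₁) * s)
        nlinarith
  -- stage C
  have hTpos : ∀ s : ℝ, s < 1 → 0 < (1 - s) * T₀ := fun s hs => mul_pos (by linarith) hT₀0
  have haT : ∀ s : ℝ, 0 ≤ s → a * ((1 - s) * T₀) < h := by
    intro s hs
    have : a * ((1 - s) * T₀) ≤ a * T₀ := by
      apply mul_le_mul_of_nonneg_left _ ha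
      nlinarith
    linarith
  have hnc : Continuous (fun s : ℝ => nT e ((1 - s) * T₀)) := (nT_cont e).comp (by fun_prop)
  have htc : ContinuousOn (fun s : ℝ => tT h a ((1 - s) * T₀)) (Icc 0 1) := by
    unfold tT
    apply ContinuousOn.div
    · fun_prop
    · fun_prop
    · intro s hs
      have := haT s hs.1
      exact (mul_pos (by linarith) (hq _)).ne'
  have hC := tilt D (fun s => nT e ((1 - s) * T₀)) (fun s => tT h a ((1 - s) * T₀))
    hnc.continuousOn htc (fun s _ => nT_norm he he2 _) (by simpa using hB) ?_ ?_ ?_ ?_ 1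
    ⟨zero_le_one, le_rfl⟩
  · have e4 : nT e ((1 - 1) * T₀) = e := by simp [nT]
    have e5 : tT h a ((1 - 1) * T₀) = 0 := by simp [tT]
    rwa [e4, e5] at hC
  · intro s hs hs1 u hu hlt
    obtain ⟨k1, k2⟩ := cone2' he he2 ha hh (hTpos s hs1) (haT s hs) (S.bd1 hu).1 (S.bd1 hu).2 hlt
    exact wst3 hz k2 k1
  · intro s hs hs1 d hd hlt hmem
    obtain ⟨k1, k2⟩ := cone2 he he2 ha hh (hTpos s hs1) (haT s hs) hd hlt
    exact wst2 hz k2 k1 (sig_closure D.toPreDom hmem)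
  · intro s hs hs1 u₀ hu₀ heq
    have hT := hTpos s hs1
    have hin := hinge_id he he2 hh (haT s hs) (S.bd1 hu₀).1 (S.bd1 hu₀).2 (S.Nr u₀) (S.N u₀ 2)
    rw [← S.N_decomp hu₀] at hin
    have heq' : ⟪nT e ((1 - s) * T₀), S.X u₀⟫ - tT h a ((1 - s) * T₀) = 0 := by
      linarith
    rw [heq', mul_zero, zero_mul, add_zero] at hin
    have hw := wst1 hz hu₀.le
    have hcoef : 0 < (1 - s) * T₀ / Real.sqrt (1 + ((1 - s) * T₀) ^ 2) / h :=
      div_pos (div_pos hT (hq _)) hh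
    rcases eq_or_lt_of_le hw with hw0 | hw1
    · rintro ⟨sk, uk, hsk, huk, hb⟩
      apply weak_hinge D he he2 ha hh hT (haT s hs) hz hu₀ heq hw0.symm
        (Tk := fun k => (1 - sk k) * T₀) (uk := uk)
      · exact (hsk.const_sub 1).mul_const T₀
      · exact huk
      · exact fun k => (hb k).2.2.1
      · exact fun k => (hb k).2.2.2.1
      · exact fun k => (hb k).2.2.2.2
    · apply hinge_strict D hnc.continuousOn htc hs hs1 hu₀ heq
      · simp only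
        rw [S1_nT_2 he2]
        exact div_pos hT (hq _)
      · rw [hin]
        have := mul_pos hcoef hw1
        linarith
  · intro s hs hs1
    have hcirc : (-e) 2 = 0 ∧ (-e) 0 ^ 2 + (-e) 1 ^ 2 = 1 := by
      have := nsq e
      rw [he, he2] at this
      constructor
      · simp [he2]
      · simp only [PiLp.neg_apply]
        nlinarith
    obtain ⟨u, hu, hXu⟩ := (S.bd _).2 hcirc
    refine ⟨u, hu, ?_⟩
    rw [hXu, S1_inner_e he he2]
    have k1 := hinv ((1 - s) * T₀)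
    have k2 : 0 < tT h a ((1 - s) * T₀) := by
      unfold tT
      have := haT s hs
      exact div_pos (hTpos s hs1) (mul_pos (by linarith) (hq _))
    intro hcon
    linarith

end Pool.Agent.H99.SC
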