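import Pool.Agent.H99.SC.ROT
import Pool.Agent.H99.SC.BLK
import Pool.Agent.H99.SC.MNA
import Pool.Agent.H99.SC.S1

/-!
# MNO: a domain that is star-shaped from a point below the plane

`D : Dom S`, `WStar D q`, `q ∈ W`.  Then `SS D (nh φ) 0` for all `φ`.
Proof.  `wstar_min`: `z` weak star centre, `z 2 = q 2 = -h`, of minimal
`z 0^2 + z 1^2 =: a^2`, `a ≥ 0`.  If `a = 0`: `z = zc (nh φ) 0 h` for every `φ` and `s1` gives the claim.  Suppose
`a > 0`: `z = zc (nh φ₀) a h`, `nh φ₀` the unit vector `(-z 0/a, -z 1/a, 0)` (`exists_nh`).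
`SS` at `φ₀` by `s1`.  The set `{φ : SS D (nh φ) 0}` is closed (`ss_closed`), and every point of it in
`I = Ioo (φ₀ - π/2) (φ₀ + π/2)` is interior (`rot_open`, `sym_contra`): `I` is preconnected, so `SS` holds on `I`.
`hmon` of `blk` for `e = nh φ₀`: `⟪X v,e⟫ < ⟪X u,e⟫`, `‖u‖ = ‖v‖ = 1`: `swap_pt` gives `φ ∈ I`, and `rotk_le`.
`blk`: `kk` is constant off `⟪X u,e⟫ = 0`.  Take `X u₁ = e`, `X v₁ = -e = refl (nh φ₀) 0 e` (`S.bd`): `kk v₁ = kk u₁`, so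
`rotk_eq` contradicts `sym_contra` at `φ = φ₀`.
-/

set_option autoImplicit false

open scoped RealInnerProductSpace Topology
open Metric Filter Set

noncomputable section

namespace Pool.Agent.H99.SC

theorem mno {S : Surf} (D : Dom S) {q : V3} (hq : WStar D q) (hqW : q ∈ D.W) (φ : ℝ) :
    SS D (nh φ) 0 := by
  obtain ⟨z, hz, hz2, hmin⟩ := wstar_min hq
  have hh : 0 < -(q 2) := by linarith [hq.1]
  rcases (by positivity : 0 ≤ z 0 ^ 2 + z 1 ^ 2).eq_or_lt with h0 | h0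
  · have h00 : z 0 = 0 := by nlinarith [sq_nonneg (z 0), sq_nonneg (z 1)]
    have h01 : z 1 = 0 := by nlinarith [sq_nonneg (z 0), sq_nonneg (z 1)]
    have hzz : zc (nh φ) 0 (-(q 2)) = z := by
      apply ext3
      · rw [zc_0, h00]; ring
      · rw [zc_1, h01]; ring
      · rw [zc_2, hz2]; ring
    exact s1 D (norm_nh φ) (nh_2 φ) le_rfl hh (by rw [hzz]; exact hz)
  · exfalso
    set a : ℝ := Real.sqrt (z 0 ^ 2 + z 1 ^ 2) with ha
    have ha0 : 0 < a := Real.sqrt_pos.mpr h0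
    have ha2 : a ^ 2 = z 0 ^ 2 + z 1 ^ 2 := Real.sq_sqrt h0.le
    have hne : ‖(!₂[-(z 0) / a, -(z 1) / a, 0] : V3)‖ = 1 := by
      have h1 : ‖(!₂[-(z 0) / a, -(z 1) / a, 0] : V3)‖ ^ 2 = 1 := by
        rw [nsq]
        simp only [Matrix.cons_val_zero, Matrix.cons_val_one, Matrix.cons_val]
        field_simp
        linarith
      nlinarith [norm_nonneg (!₂[-(z 0) / a, -(z 1) / a, 0] : V3)]
    obtain ⟨φ₀, hφ₀⟩ := exists_nh hne (by simp)
    have hc0 : Real.cos φ₀ = -(z 0) / a := by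
      have h1 := congrArg (fun y : V3 => y 0) hφ₀
      simpa using h1
    have hs0 : Real.sin φ₀ = -(z 1) / a := by
      have h1 := congrArg (fun y : V3 => y 1) hφ₀
      simpa using h1
    have hzz : zc (nh φ₀) a (-(q 2)) = z := by
      apply ext3
      · rw [zc_0, nh_0, hc0]; field_simp
      · rw [zc_1, nh_1, hs0]; field_simp
      · rw [zc_2, hz2]; ring
    have hz' : WStar D (zc (nh φ₀) a (-(q 2))) := by rw [hzz]; exact hz
    have hmin' : ∀ z' : V3, WStar D z' → z' 2 = -(-(q 2)) → a ^ 2 ≤ z' 0 ^ 2 + z' 1 ^ 2 := by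
      intro z' h1 h2
      rw [ha2]
      exact hmin z' h1 (by linarith)
    have hcon : ∀ ψ : ℝ, 0 < Real.cos (ψ - φ₀) →
        ∃ u : V2, ‖u‖ ≤ 1 ∧ refl (nh ψ) 0 (S.X u) ∉ S.Sig := fun ψ hψ =>
      sym_contra hq hqW ha0 hz' hmin' hψ
    have hS0 : SS D (nh φ₀) 0 := s1 D (norm_nh φ₀) (nh_2 φ₀) ha0.le hh hz'
    set A : Set ℝ := {ψ : ℝ | SS D (nh ψ) 0} with hA
    have hAc : IsClosed A := ss_closed D
    have hint : ∀ ψ ∈ A, |ψ - φ₀| < Real.pi / 2 → ψ ∈ interior A := by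
      intro ψ h1 h2
      rw [mem_interior_iff_mem_nhds]
      refine rot_open D h1 (hcon ψ (Real.cos_pos_of_mem_Ioo ?_))
      rw [abs_lt] at h2
      exact ⟨by linarith [h2.1], h2.2⟩
    have hsub : Ioo (φ₀ - Real.pi / 2) (φ₀ + Real.pi / 2) ⊆ interior A := by
      refine (isPreconnected_Ioo).subset_of_closure_inter_subset isOpen_interior ?_ ?_
      · refine ⟨φ₀, ⟨by linarith [Real.pi_pos], by linarith [Real.pi_pos]⟩, hint φ₀ hS0 ?_⟩
        simp [Real.pi_pos]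
      · rintro ψ ⟨h1, h2⟩
        refine hint ψ ?_ ?_
        · have h3 : closure (interior A) ⊆ A :=
            (closure_mono interior_subset).trans hAc.closure_subset
          exact h3 h1
        · rw [abs_lt]
          exact ⟨by linarith [h2.1], by linarith [h2.2]⟩
    have hSS : ∀ ψ : ℝ, |ψ - φ₀| < Real.pi / 2 → SS D (nh ψ) 0 := by
      intro ψ h1
      rw [abs_lt] at h1
      exact interior_subset (hsub ⟨by linarith [h1.1], by linarith [h1.2]⟩)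
    have hmon : ∀ u v : V2, ‖u‖ = 1 → ‖v‖ = 1 → ⟪S.X v, nh φ₀⟫ < ⟪S.X u, nh φ₀⟫ →
        S.kk v ≤ S.kk u := by
      intro u v hu hv huv
      obtain ⟨hu2, hu1⟩ := S.bd1 hu
      obtain ⟨hv2, hv1⟩ := S.bd1 hv
      obtain ⟨ψ, h1, h2, h3⟩ := swap_pt hu2 hu1 hv2 hv1 huv
      exact rotk_le D (hSS ψ h1) hu hv h2.symm h3
    obtain ⟨k0, hk0⟩ := blk D (norm_nh φ₀) (nh_2 φ₀) hmon
    obtain ⟨u₁, hu₁, hXu₁⟩ := (S.bd (nh φ₀)).mpr ⟨nh_2 φ₀, by rw [nh_0, nh_1]; exact Real.cos_sq_add_sin_sq φ₀⟩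
    obtain ⟨v₁, hv₁, hXv₁⟩ := (S.bd (-(nh φ₀))).mpr ⟨by simp, by simp⟩
    have hnn : ⟪nh φ₀, nh φ₀⟫ = (1 : ℝ) := by
      rw [real_inner_self_eq_norm_sq, norm_nh]; norm_num
    have hk1 : S.kk u₁ = k0 := hk0 u₁ hu₁ (by rw [hXu₁, hnn]; norm_num)
    have hk2 : S.kk v₁ = k0 := hk0 v₁ hv₁ (by rw [hXv₁, inner_neg_left, hnn]; norm_num)
    have hx : S.X v₁ = refl (nh φ₀) 0 (S.X u₁) := by
      rw [hXu₁, hXv₁]
      unfold refl
      rw [hnn]
      module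
    obtain ⟨u, hu, hu'⟩ := hcon φ₀ (by simp)
    exact hu' (rotk_eq D hS0 hu₁ hv₁ hx (by rw [hXu₁, hnn]; norm_num) (hk2.trans hk1.symm) u hu)

end Pool.Agent.H99.SC
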