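import Pool.Agent.H99.SC.RSA

/-!
# RSB: rotational symmetry of the normal gives the sphere

Hypotheses: `hax : ⟪N u, TT (X u)⟫ = 0` on the open disc, and a point `u₀` of the open disc with `X u₀` on the axis.
`dF`: `F u = ⟪N u, hp (X u)⟫ + H ‖hp (X u)‖^2` has zero derivative on the open disc
(`dF` with `⟪N, hp (DX a)⟫ = ⟪hp N, DX a⟫`), so it is constant (`ball 0 1` is convex), `= F u₀ = 0`.
`hpN`: `hp (N u) = - H hp (X u)` for `‖u‖ < 1`.  If `hp (X u) ≠ 0`: `hp N` is orthogonal to `TT X` in the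
horizontal plane, hence `|X'|^2 N' = ⟪N',X'⟫ X' = - H |X'|^2 X'`.  If `hp (X u) = 0`: differentiate `hax`:
`⟪DN a, TT X⟫ + ⟪N, TT (DX a)⟫ = 0` with `TT X = 0`: `⟪TT N, DX a⟫ = 0` for all `a`, and `⟪TT N, N⟫ = 0`, so `TT N = 0`.
`sphere`: `M u = N u + H X u` has `M 0 = M 1 = 0`.  `DM a = m(a) E3`.  `⟪DM a, N⟫ = 0` (`wg2`, `N_orth`), so
`m(a) N_3 = 0`.  `⟪DM a, DX b⟫ = ⟪DM b, DX a⟫` (`wg_symm`): `m(a) (DX b) 2 = m(b) (DX a) 2`.  `wg_lin`:
`cr (DM a) (DX b) - cr (DM b) (DX a) = 0`, i.e. `cr E3 (m(a) DX b - m(b) DX a) = 0`.  If `N_3 ≠ 0`: `m = 0`.  If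
`N_3 = 0`: `v = m(e0) X_v - m(e1) X_u` has `v 0 = v 1 = 0` (third identity) and `v 2 = 0` (second), so `v = 0` and
`m(e0) = m(e1) = 0` (`fderiv_inj`).  So `DM = 0` on the open disc, `M` constant `= M₀` there and on the closed disc by
continuity; `X u - H⁻¹ M₀ = - H⁻¹ N u` has norm `H⁻¹`.
-/

set_option autoImplicit false

open scoped RealInnerProductSpace Topology
open Metric Filter Set

noncomputable section

namespace Pool.Agent.H99.SC

/-- coordinates of the derivative -/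
theorem RSB_coord {f : V2 → V3} {u : V2} (hf : DifferentiableAt ℝ f u) (i : Fin 3) :
    HasFDerivAt (fun v => (f v) i) ((EuclideanSpace.proj (𝕜 := ℝ) i).comp (fderiv ℝ f u)) u :=
  ((EuclideanSpace.proj (𝕜 := ℝ) i).hasFDerivAt (x := f u)).comp u hf.hasFDerivAt

theorem RSB_ball {u : V2} (hu : ‖u‖ < 1) : ball (0 : V2) 1 ∈ 𝓝 u :=
  isOpen_ball.mem_nhds (mem_ball_zero_iff.2 hu)

theorem RSB_F (S : Surf) (hax : ∀ u : V2, ‖u‖ < 1 → ⟪S.N u, TT (S.X u)⟫ = 0) {u : V2}
    (hu : ‖u‖ < 1) :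
    HasFDerivAt (fun v => S.N v 0 * S.X v 0 + S.N v 1 * S.X v 1 +
      S.H * (S.X v 0 ^ 2 + S.X v 1 ^ 2)) (0 : V2 →L[ℝ] ℝ) u := by
  have hX : DifferentiableAt ℝ S.X u :=
    (S.smooth.contDiffAt (x := u)).differentiableAt (by norm_num)
  have hN : DifferentiableAt ℝ S.N u := (S.smoothN hu.le).differentiableAt one_ne_zero
  have n0 := RSB_coord hN 0
  have n1 := RSB_coord hN 1
  have x0 := RSB_coord hX 0
  have x1 := RSB_coord hX 1
  have h := ((n0.mul x0).add (n1.mul x1)).add (((x0.pow 2).add (x1.pow 2)).const_mul S.H)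
  refine h.congr_fderiv ?_
  ext a
  have hd := dF S hax hu a
  simp only [ip, hp_0, hp_1, hp_2] at hd
  simp only [add_apply, smul_apply, ContinuousLinearMap.comp_apply, PiLp.proj_apply,
    smul_eq_mul, zero_apply]
  push_cast
  linear_combination hd

theorem hpN (S : Surf) (hax : ∀ u : V2, ‖u‖ < 1 → ⟪S.N u, TT (S.X u)⟫ = 0) {u₀ : V2}
    (hu₀ : ‖u₀‖ < 1) (h0 : (S.X u₀) 0 = 0) (h1 : (S.X u₀) 1 = 0) {u : V2} (hu : ‖u‖ < 1) :
    hp (S.N u) = (-S.H) • hp (S.X u) := by
  have hF : S.N u 0 * S.X u 0 + S.N u 1 * S.X u 1 + S.H * (S.X u 0 ^ 2 + S.X u 1 ^ 2) = 0 := by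
    have h2 := IsOpen.is_const_of_fderiv_eq_zero (𝕜 := ℝ) (s := ball (0 : V2) 1)
      (f := fun v => S.N v 0 * S.X v 0 + S.N v 1 * S.X v 1 + S.H * (S.X v 0 ^ 2 + S.X v 1 ^ 2))
      isOpen_ball (convex_ball _ _).isPreconnected
      (fun v hv => (RSB_F S hax (mem_ball_zero_iff.1 hv)).differentiableAt.differentiableWithinAt)
      (fun v hv => (RSB_F S hax (mem_ball_zero_iff.1 hv)).fderiv)
      (mem_ball_zero_iff.2 hu) (mem_ball_zero_iff.2 hu₀)
    simp only [h0, h1] at h2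
    rw [h2]
    ring
  have ht := hax u hu
  simp only [ip, TT_0, TT_1, TT_2] at ht
  have key : S.N u 0 = -S.H * S.X u 0 ∧ S.N u 1 = -S.H * S.X u 1 := by
    by_cases hx : S.X u 0 ^ 2 + S.X u 1 ^ 2 = 0
    · have hx0 : S.X u 0 = 0 := by nlinarith [sq_nonneg (S.X u 0), sq_nonneg (S.X u 1)]
      have hx1 : S.X u 1 = 0 := by nlinarith [sq_nonneg (S.X u 0), sq_nonneg (S.X u 1)]
      have hX : DifferentiableAt ℝ S.X u :=
        (S.smooth.contDiffAt (x := u)).differentiableAt (by norm_num)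
      have hN : DifferentiableAt ℝ S.N u := (S.smoothN hu.le).differentiableAt one_ne_zero
      have n0 := RSB_coord hN 0
      have n1 := RSB_coord hN 1
      have x0 := RSB_coord hX 0
      have x1 := RSB_coord hX 1
      have h2 := (n1.mul x0).sub (n0.mul x1)
      have h3 : HasFDerivAt (fun _ : V2 => (0 : ℝ)) (0 : V2 →L[ℝ] ℝ) u := hasFDerivAt_const _ _
      have h4 : HasFDerivAt ((fun v => S.N v 1 * S.X v 0) - fun v => S.N v 0 * S.X v 1)
          (0 : V2 →L[ℝ] ℝ) u := by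
        refine h3.congr_of_eventuallyEq ?_
        filter_upwards [RSB_ball hu] with v hv
        have h5 := hax v (mem_ball_zero_iff.1 hv)
        simp only [ip, TT_0, TT_1, TT_2] at h5
        simp only [Pi.sub_apply]
        linear_combination h5
      have h5 := h2.unique h4
      have h6 : ∀ a : V2, ⟪TT (S.N u), fderiv ℝ S.X u a⟫ = 0 := by
        intro a
        have h7 := congrArg (fun L : V2 →L[ℝ] ℝ => L a) h5
        simp only [sub_apply, add_apply, smul_apply, ContinuousLinearMap.comp_apply,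
          PiLp.proj_apply, smul_eq_mul, zero_apply, hx0, hx1] at h7
        simp only [ip, TT_0, TT_1, TT_2]
        linear_combination -h7
      have h7 : ⟪TT (S.N u), S.N u⟫ = 0 := by
        simp only [ip, TT_0, TT_1, TT_2]
        ring
      obtain ⟨a, ha⟩ := S.tangent hu.le h7
      have h8 := h6 a
      rw [ha, real_inner_self_eq_norm_sq, nsq] at h8
      simp only [TT_0, TT_1, TT_2] at h8
      rw [hx0, hx1]
      constructor
      · nlinarith [sq_nonneg (S.N u 0), sq_nonneg (S.N u 1)]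
      · nlinarith [sq_nonneg (S.N u 0), sq_nonneg (S.N u 1)]
    · constructor
      · refine mul_left_cancel₀ hx ?_
        linear_combination S.X u 0 * hF - S.X u 1 * ht
      · refine mul_left_cancel₀ hx ?_
        linear_combination S.X u 1 * hF + S.X u 0 * ht
  apply ext3
  · simp only [hp_0, PiLp.smul_apply, smul_eq_mul]; exact key.1
  · simp only [hp_1, PiLp.smul_apply, smul_eq_mul]; exact key.2
  · simp

theorem sphere (S : Surf) (h : ∀ u : V2, ‖u‖ < 1 → hp (S.N u) = (-S.H) • hp (S.X u)) :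
    ∃ c : V3, ∀ u : V2, ‖u‖ ≤ 1 → ‖S.X u - c‖ = S.H⁻¹ := by
  have hX : ∀ u : V2, DifferentiableAt ℝ S.X u := fun u =>
    (S.smooth.contDiffAt (x := u)).differentiableAt (by norm_num)
  have hN : ∀ u : V2, ‖u‖ < 1 → DifferentiableAt ℝ S.N u := fun u hu =>
    (S.smoothN hu.le).differentiableAt one_ne_zero
  set M : V2 → V3 := fun u => S.N u + S.H • S.X u with hM
  have hMd : ∀ u : V2, ‖u‖ < 1 → HasFDerivAt M (fderiv ℝ S.N u + S.H • fderiv ℝ S.X u) u :=
    fun u hu => (hN u hu).hasFDerivAt.add ((hX u).hasFDerivAt.const_smul S.H)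
  have hM01 : ∀ u : V2, ‖u‖ < 1 → M u 0 = 0 ∧ M u 1 = 0 := by
    intro u hu
    have h1 := h u hu
    have c0 := congrArg (fun v : V3 => v 0) h1
    have c1 := congrArg (fun v : V3 => v 1) h1
    simp only [hp_0, hp_1, PiLp.smul_apply, smul_eq_mul] at c0 c1
    simp only [hM, PiLp.add_apply, PiLp.smul_apply, smul_eq_mul, c0, c1]
    constructor <;> ring
  have hcoord : ∀ u : V2, ‖u‖ < 1 → ∀ i : Fin 3, (∀ v : V2, ‖v‖ < 1 → M v i = 0) → ∀ a : V2,
      fderiv ℝ S.N u a i + S.H * fderiv ℝ S.X u a i = 0 := by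
    intro u hu i hi a
    have h1 := RSB_coord (hMd u hu).differentiableAt i
    have h2 : HasFDerivAt (fun _ : V2 => (0 : ℝ)) (0 : V2 →L[ℝ] ℝ) u := hasFDerivAt_const _ _
    have h3 : HasFDerivAt (fun v => M v i) (0 : V2 →L[ℝ] ℝ) u := by
      refine h2.congr_of_eventuallyEq ?_
      filter_upwards [RSB_ball hu] with v hv
      exact hi v (mem_ball_zero_iff.1 hv)
    have h4 := congrArg (fun L : V2 →L[ℝ] ℝ => L a) (h1.unique h3)
    rw [(hMd u hu).fderiv] at h4
    simpa using h4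
  have hzero : ∀ u : V2, ‖u‖ < 1 → fderiv ℝ M u = 0 := by
    intro u hu
    have q0 := hcoord u hu 0 (fun v hv => (hM01 v hv).1)
    have q1 := hcoord u hu 1 (fun v hv => (hM01 v hv).2)
    have hw := wg_lin S hu.le e0 e1
    have w0 := congrArg (fun v : V3 => v 0) hw
    have w1 := congrArg (fun v : V3 => v 1) hw
    simp only [PiLp.sub_apply, PiLp.smul_apply, smul_eq_mul, cr_0, cr_1] at w0 w1
    have hsym := S.wg_symm hu.le e0 e1
    simp only [ip] at hsym
    have a0 := q0 e0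
    have a1 := q1 e0
    have b0 := q0 e1
    have b1 := q1 e1
    -- the vector `m(e0) e1 - m(e1) e0`
    have hv : fderiv ℝ S.X u ((fderiv ℝ S.N u e0 2 + S.H * fderiv ℝ S.X u e0 2) • e1 -
        (fderiv ℝ S.N u e1 2 + S.H * fderiv ℝ S.X u e1 2) • e0) = 0 := by
      rw [map_sub, map_smul, map_smul]
      apply ext3
      · simp only [PiLp.sub_apply, PiLp.smul_apply, smul_eq_mul, PiLp.zero_apply]
        linear_combination w1 + (-fderiv ℝ S.X u e0 2) * b0 + fderiv ℝ S.X u e1 2 * a0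
      · simp only [PiLp.sub_apply, PiLp.smul_apply, smul_eq_mul, PiLp.zero_apply]
        linear_combination -w0 + (-fderiv ℝ S.X u e0 2) * b1 + fderiv ℝ S.X u e1 2 * a1
      · simp only [PiLp.sub_apply, PiLp.smul_apply, smul_eq_mul, PiLp.zero_apply]
        linear_combination hsym - fderiv ℝ S.X u e1 0 * a0 - fderiv ℝ S.X u e1 1 * a1 +
          fderiv ℝ S.X u e0 0 * b0 + fderiv ℝ S.X u e0 1 * b1
    have hv2 := S.fderiv_inj hu.le hv
    have m0 : fderiv ℝ S.N u e0 2 + S.H * fderiv ℝ S.X u e0 2 = 0 := by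
      have := congrArg (fun v : V2 => v 1) hv2
      simpa using this
    have m1 : fderiv ℝ S.N u e1 2 + S.H * fderiv ℝ S.X u e1 2 = 0 := by
      have := congrArg (fun v : V2 => v 0) hv2
      simp at this
      linarith
    rw [(hMd u hu).fderiv]
    have z0 : (fderiv ℝ S.N u + S.H • fderiv ℝ S.X u) e0 = 0 := by
      apply ext3
      · simpa using a0
      · simpa using a1
      · simpa using m0
    have z1 : (fderiv ℝ S.N u + S.H • fderiv ℝ S.X u) e1 = 0 := by
      apply ext3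
      · simpa using b0
      · simpa using b1
      · simpa using m1
    refine ContinuousLinearMap.ext fun a => ?_
    rw [V2_decomp a, map_add, map_smul, map_smul, z0, z1]
    simp
  have hconst : ∀ u : V2, ‖u‖ < 1 → M u = M 0 := by
    intro u hu
    exact IsOpen.is_const_of_fderiv_eq_zero (𝕜 := ℝ) (s := ball (0 : V2) 1) isOpen_ball
      (convex_ball _ _).isPreconnected
      (fun v hv => (hMd v (mem_ball_zero_iff.1 hv)).differentiableAt.differentiableWithinAt)
      (fun v hv => hzero v (mem_ball_zero_iff.1 hv)) (mem_ball_zero_iff.2 hu)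
      (mem_ball_self one_pos)
  have hH := S.Hpos
  refine ⟨S.H⁻¹ • M 0, fun u hu => ?_⟩
  have hcl : IsClosed {u : V2 | ‖S.X u - S.H⁻¹ • M 0‖ = S.H⁻¹} :=
    isClosed_eq ((S.smooth.continuous.sub continuous_const).norm) continuous_const
  have hsub : ball (0 : V2) 1 ⊆ {u : V2 | ‖S.X u - S.H⁻¹ • M 0‖ = S.H⁻¹} := by
    intro v hv
    have hv' := mem_ball_zero_iff.1 hv
    have h1 : S.X v - S.H⁻¹ • M 0 = -(S.H⁻¹ • S.N v) := by
      rw [← hconst v hv', hM]
      simp only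
      rw [smul_add, smul_smul, inv_mul_cancel₀ hH.ne', one_smul]
      abel
    change ‖S.X v - S.H⁻¹ • M 0‖ = S.H⁻¹
    rw [h1, norm_neg, norm_smul, S.N_norm hv'.le, mul_one, Real.norm_of_nonneg (by positivity)]
  have hcl2 := hcl.closure_subset_iff.2 hsub
  rw [closure_ball (0 : V2) one_ne_zero] at hcl2
  exact hcl2 (mem_closedBall_zero_iff.2 hu)

theorem rotsph {S : Surf} (D : Dom S) (hS : ∀ φ : ℝ, SS D (nh φ) 0) :
    ∃ c : V3, ∀ u : V2, ‖u‖ ≤ 1 → ‖S.X u - c‖ = S.H⁻¹ := by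
  obtain ⟨u₀, hu₀, h0, h1⟩ := axis_pt D.toPreDom
  exact sphere S fun u hu => hpN S (fun v hv => ax1 D hS hv) hu₀ h0 h1 hu

end Pool.Agent.H99.SC
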