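import Pool.Agent.H99.SC.MNO
import Pool.Agent.H99.SC.RSB
import Pool.Agent.H99.SC.DMO
import Pool.Agent.H99.SC.DM1
import Pool.Agent.H99.SC.DM2
import Pool.Agent.H99.SC.FLP
import Pool.Agent.H99.SC.ONE

/-! # MSF: star-shaped CMC discs spanning the unit circle are spherical -/

set_option autoImplicit false

open scoped RealInnerProductSpace Topology
open Metric Filter Set

noncomputable section

namespace Pool.Agent.H99.SC


/-- one-sided surface with a domain -/
theorem msf_one {S : Surf} (hD : Nonempty (Dom S)) (hos : ∀ u : V2, ‖u‖ < 1 → (S.X u) 2 < 0) :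
    ∃ c : V3, ∀ u : V2, ‖u‖ ≤ 1 → ‖S.X u - c‖ = S.H⁻¹ := by
  obtain ⟨D⟩ := hD
  exact rotsph D fun φ => one D hos (norm_nh φ) (nh_2 φ)

theorem msf_flip {S S' : Surf} (h : ∀ u : V2, S'.X u = rx (S.X u)) {q : V3} (hI : InC S q) :
    InC S' (rx q) := by
  intro u hu
  obtain ⟨τ, h0, h2, h1⟩ := hI u hu
  refine ⟨τ, h0, ?_, ?_⟩
  · rw [h]
    simp only [PiLp.add_apply, PiLp.smul_apply, PiLp.sub_apply, rx_2, smul_eq_mul] at h2 ⊢
    linarith
  · rw [h]
    simp only [PiLp.add_apply, PiLp.smul_apply, PiLp.sub_apply, rx_0, rx_1, smul_eq_mul] at h1 ⊢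
    nlinarith

/-- star centre below the plane -/
theorem msf_neg {S : Surf} {q : V3} (hq : StarAt S q) (hq2 : q 2 < 0) :
    ∃ c : V3, ∀ u : V2, ‖u‖ ≤ 1 → ‖S.X u - c‖ = S.H⁻¹ := by
  rcases dich hq hq2.ne with hI | hO
  · rcases oneI hq hq2 hI with hb | ha
    · exact msf_one (dm2 hq hb hq2 hI) hb
    · obtain ⟨S', hH, hX⟩ := exists_flip S
      have hos : ∀ u : V2, ‖u‖ < 1 → (S'.X u) 2 < 0 := by
        intro u hu
        rw [hX, rx_2]
        have := ha u hu
        linarith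
      refine flip_sphere hH hX (msf_one (dm1 (flip_star hX hq) hos ?_ ?_ ?_) hos)
      · rw [rx_2]; linarith
      · intro _; exact msf_flip hX hI
      · intro h0; rw [rx_2] at h0; linarith
  · obtain ⟨D, hW, hqW⟩ := dmo hq hq2 hO
    exact rotsph D fun φ => mno D hW hqW φ

theorem msf {S : Surf} {q : V3} (hq : StarAt S q) :
    ∃ c : V3, ∀ u : V2, ‖u‖ ≤ 1 → ‖S.X u - c‖ = S.H⁻¹ := by
  rcases lt_trichotomy (q 2) 0 with h | h | h
  · exact msf_neg hq h
  · obtain ⟨hq1, hb | ha⟩ := q0 hq h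
    · exact msf_one (dm1 hq hb h.ge (fun h' => absurd h h') fun _ => hq1) hb
    · obtain ⟨S', hH, hX⟩ := exists_flip S
      have hos : ∀ u : V2, ‖u‖ < 1 → (S'.X u) 2 < 0 := by
        intro u hu
        rw [hX, rx_2]
        have := ha u hu
        linarith
      refine flip_sphere hH hX (msf_one (dm1 (flip_star hX hq) hos ?_ ?_ ?_) hos)
      · rw [rx_2]; linarith
      · intro h0; rw [rx_2] at h0; exact absurd (by linarith) h0
      · intro _
        rw [rx_0, rx_1]
        nlinarith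
  · obtain ⟨S', hH, hX⟩ := exists_flip S
    exact flip_sphere hH hX (msf_neg (flip_star hX hq) (by rw [rx_2]; linarith))

end Pool.Agent.H99.SC
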