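import Pool.Agent.H99.SC.CAL
import Pool.Agent.H99.SC.LA

/-!
# NRA: surfaces with unnormalised boundary; parameter swap and similarities

`raw_swap`: `sw u = (u 1, u 0)`, `X' u = X (sw u)`.  `fderiv X' u a = fderiv X (sw u) (sw a)`,
`D2 X' u a b = D2 X (sw u) (sw a) (sw b)`, `sw e0 = e1`, `sw e1 = e0`: `nn X' u = - nn X (sw u)` (`cr_swap`),
`cA X' u = cC X (sw u)`, `cC X' u = cA X (sw u)`, `cB X' u = cB X (sw u)`, `Lop X' X' u = Lop X X (sw u)` (`D2_symm`).
`raw_sim`: `X' u = k Q (X u - c)`, `k > 0`, `Q` a linear isometry with `cr (Q a) (Q b) = Q (cr a b)`: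
`fderiv X' u a = k Q (fderiv X u a)`, `D2 X' u a b = k Q (D2 X u a b)`, so `nn X' = k^2 Q nn`, `cA' = k^2 cA` etc.,
`Lop X' X' = k^3 Q (Lop X X)`, `⟪Lop', nn'⟫ = k^5 · 2 H |nn|^3 = 2 (H/k) |nn'|^3`.
-/

set_option autoImplicit false

open scoped RealInnerProductSpace Topology
open Metric Filter Set

noncomputable section

namespace Pool.Agent.H99.SC

/-- a C^2 immersed and injective disc with constant mean curvature `H` -/
structure Raw (X : V2 → V3) (H : ℝ) : Prop where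
  smooth : ContDiff ℝ 2 X
  imm : ∀ u : V2, ‖u‖ ≤ 1 → nn X u ≠ 0
  inj : ∀ u v : V2, ‖u‖ ≤ 1 → ‖v‖ ≤ 1 → X u = X v → u = v
  cmc : ∀ u : V2, ‖u‖ < 1 → ⟪Lop X X u, nn X u⟫ = 2 * H * ‖nn X u‖ ^ 3

/-- exchange of the parameters -/
def sw (u : V2) : V2 := !₂[u 1, u 0]

@[simp] theorem sw_0 (u : V2) : (sw u) 0 = u 1 := by simp [sw]
@[simp] theorem sw_1 (u : V2) : (sw u) 1 = u 0 := by simp [sw]

theorem sw_sw (u : V2) : sw (sw u) = u := by apply ext2 <;> simp

theorem sw_norm (u : V2) : ‖sw u‖ = ‖u‖ := by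
  have h : ‖sw u‖ ^ 2 = ‖u‖ ^ 2 := by
    rw [nsq2, nsq2, sw_0, sw_1]
    ring
  exact (sq_eq_sq₀ (norm_nonneg _) (norm_nonneg _)).1 h

/-- the exchange of the parameters as a continuous linear map -/
def NRA_swL : V2 →L[ℝ] V2 :=
  LinearMap.toContinuousLinearMap
    { toFun := sw
      map_add' := fun a b => by apply ext2 <;> simp
      map_smul' := fun c a => by apply ext2 <;> simp }

theorem NRA_swL_apply (u : V2) : NRA_swL u = sw u := rfl

theorem NRA_sw_e0 : sw e0 = e1 := by apply ext2 <;> simp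
theorem NRA_sw_e1 : sw e1 = e0 := by apply ext2 <;> simp

theorem NRA_fd {X : V2 → V3} (hX : ContDiff ℝ 2 X) (A : V2 →L[ℝ] V2) (R : V3 →L[ℝ] V3) (c : V3)
    (u : V2) : fderiv ℝ (fun x => R (X (A x)) + c) u = (R.comp (fderiv ℝ X (A u))).comp A := by
  have h1 : HasFDerivAt X (fderiv ℝ X (A u)) (A u) :=
    (hX.differentiable (by norm_num)).differentiableAt.hasFDerivAt
  have h2 : HasFDerivAt (fun x => X (A x)) ((fderiv ℝ X (A u)).comp A) u :=
    h1.comp u A.hasFDerivAt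
  have h3 : HasFDerivAt (fun x => R (X (A x))) (R.comp ((fderiv ℝ X (A u)).comp A)) u :=
    R.hasFDerivAt.comp u h2
  exact (h3.add_const c).fderiv

theorem NRA_D2 {X : V2 → V3} (hX : ContDiff ℝ 2 X) (A : V2 →L[ℝ] V2) (R : V3 →L[ℝ] V3) (c : V3)
    (u a b : V2) : D2 (fun x => R (X (A x)) + c) u a b = R (D2 X (A u) (A a) (A b)) := by
  have h0 : fderiv ℝ (fun x => R (X (A x)) + c) =
      fun u => (R.comp (fderiv ℝ X (A u))).comp A := funext fun u => NRA_fd hX A R c u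
  set Φ : (V2 →L[ℝ] V3) →L[ℝ] (V2 →L[ℝ] V3) :=
    ((ContinuousLinearMap.compL ℝ V2 V2 V3).flip A).comp (ContinuousLinearMap.compL ℝ V2 V3 V3 R)
    with hΦ
  have hX1 : HasFDerivAt (fderiv ℝ X) (fderiv ℝ (fderiv ℝ X) (A u)) (A u) :=
    (CAL_diff_fderiv hX.contDiffAt).hasFDerivAt
  have h1 : HasFDerivAt (fun x => Φ (fderiv ℝ X (A x)))
      (Φ.comp ((fderiv ℝ (fderiv ℝ X) (A u)).comp A)) u :=
    Φ.hasFDerivAt.comp u (hX1.comp u A.hasFDerivAt)
  have h2 : (fun x => Φ (fderiv ℝ X (A x))) = fun u => (R.comp (fderiv ℝ X (A u))).comp A := by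
    funext x
    rfl
  unfold D2
  rw [h0, ← h2, h1.fderiv]
  rfl

theorem raw_swap {X : V2 → V3} {H : ℝ} (h : Raw X H) : Raw (fun u => X (sw u)) (-H) := by
  have hX := h.smooth
  have e : (fun u => X (sw u)) =
      fun x => (ContinuousLinearMap.id ℝ V3) (X (NRA_swL x)) + (0 : V3) := by
    funext u
    simp [NRA_swL_apply]
  have hfd : ∀ u a : V2, fderiv ℝ (fun u => X (sw u)) u a = fderiv ℝ X (sw u) (sw a) := by
    intro u a
    rw [e, NRA_fd hX]
    rfl
  have hD2 : ∀ u a b : V2, D2 (fun u => X (sw u)) u a b = D2 X (sw u) (sw a) (sw b) := by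
    intro u a b
    rw [e, NRA_D2 hX]
    rfl
  have hnn : ∀ u : V2, nn (fun u => X (sw u)) u = -nn X (sw u) := by
    intro u
    unfold nn
    rw [hfd, hfd, NRA_sw_e0, NRA_sw_e1, cr_swap]
  have hL : ∀ u : V2, Lop (fun u => X (sw u)) (fun u => X (sw u)) u = Lop X X (sw u) := by
    intro u
    unfold Lop cA cB cC
    rw [hfd, hfd, hD2, hD2, hD2, NRA_sw_e0, NRA_sw_e1, D2_symm hX.contDiffAt e1 e0,
      real_inner_comm (fderiv ℝ X (sw u) e0) (fderiv ℝ X (sw u) e1)]
    abel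
  refine ⟨?_, ?_, ?_, ?_⟩
  · exact hX.comp NRA_swL.contDiff
  · intro u hu
    rw [hnn, neg_ne_zero]
    exact h.imm _ (by rw [sw_norm]; exact hu)
  · intro u v hu hv huv
    have h1 := h.inj (sw u) (sw v) (by rw [sw_norm]; exact hu) (by rw [sw_norm]; exact hv) huv
    have h2 := congrArg sw h1
    rwa [sw_sw, sw_sw] at h2
  · intro u hu
    rw [hL, hnn, inner_neg_right, norm_neg, h.cmc (sw u) (by rw [sw_norm]; exact hu)]
    ring

theorem raw_sim {X : V2 → V3} {H : ℝ} (h : Raw X H) {Q : V3 →ₗᵢ[ℝ] V3}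
    (hQ : ∀ a b : V3, cr (Q a) (Q b) = Q (cr a b)) {k : ℝ} (hk : 0 < k) (c : V3) :
    Raw (fun u => k • Q (X u - c)) (H / k) := by
  have hX := h.smooth
  have e : (fun u => k • Q (X u - c)) =
      fun x => (k • Q.toContinuousLinearMap) (X ((ContinuousLinearMap.id ℝ V2) x)) +
        (-(k • Q c)) := by
    funext u
    simp only [ContinuousLinearMap.smul_apply, LinearIsometry.coe_toContinuousLinearMap,
      ContinuousLinearMap.id_apply, map_sub, smul_sub]
    abel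
  have hfd : ∀ u a : V2, fderiv ℝ (fun u => k • Q (X u - c)) u a = k • Q (fderiv ℝ X u a) := by
    intro u a
    rw [e, NRA_fd hX]
    rfl
  have hD2 : ∀ u a b : V2, D2 (fun u => k • Q (X u - c)) u a b = k • Q (D2 X u a b) := by
    intro u a b
    rw [e, NRA_D2 hX]
    rfl
  have hnn : ∀ u : V2, nn (fun u => k • Q (X u - c)) u = (k ^ 2) • Q (nn X u) := by
    intro u
    unfold nn
    rw [hfd, hfd, cr_smul_left, cr_smul_right, hQ, smul_smul, sq]
  have hin : ∀ a b : V3, ⟪k • Q a, k • Q b⟫ = k ^ 2 * ⟪a, b⟫ := by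
    intro a b
    rw [real_inner_smul_left, real_inner_smul_right, Q.inner_map_map]
    ring
  have hL : ∀ u : V2, Lop (fun u => k • Q (X u - c)) (fun u => k • Q (X u - c)) u =
      (k ^ 3) • Q (Lop X X u) := by
    intro u
    unfold Lop cA cB cC
    rw [hfd, hfd, hD2, hD2, hD2, hin, hin, hin, map_add, map_add, map_smul, map_smul, map_smul]
    module
  have hnorm : ∀ u : V2, ‖nn (fun u => k • Q (X u - c)) u‖ = k ^ 2 * ‖nn X u‖ := by
    intro u
    rw [hnn, norm_smul, Q.norm_map, Real.norm_of_nonneg (by positivity)]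
  refine ⟨?_, ?_, ?_, ?_⟩
  · rw [e]
    exact ((k • Q.toContinuousLinearMap).contDiff.comp
      (hX.comp (ContinuousLinearMap.id ℝ V2).contDiff)).add contDiff_const
  · intro u hu h0
    have h1 := hnorm u
    rw [h0, norm_zero] at h1
    have h2 : 0 < ‖nn X u‖ := norm_pos_iff.2 (h.imm u hu)
    have h3 : 0 < k ^ 2 * ‖nn X u‖ := by positivity
    linarith
  · intro u v hu hv huv
    apply h.inj u v hu hv
    have h1 : Q (X u - c) = Q (X v - c) := smul_right_injective V3 hk.ne' huv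
    have h2 := Q.injective h1
    exact sub_left_injective h2
  · intro u hu
    rw [hnorm, hL, hnn, real_inner_smul_left, real_inner_smul_right, Q.inner_map_map, h.cmc u hu]
    field_simp

end Pool.Agent.H99.SC
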