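import Pool.Agent.H99.SC.LA

/-!
# NRB: a rotation taking a given unit vector to `E3`

`ν` a unit vector.  Choose a unit vector `a` orthogonal to `ν` and `b = cr ν a`; then `cr a b = ν`, `cr b ν = a`
(`cr_cr`).  `Q y = (⟪a,y⟫, ⟪b,y⟫, ⟪ν,y⟫)`.  `‖Q y‖^2 = ‖y‖^2` (orthonormal basis; or `decomp`), `Q ν = E3`;
`(cr (Q y) (Q z)) 2 = ⟪a,y⟫⟪b,z⟫ - ⟪b,y⟫⟪a,z⟫ = ⟪cr a b, cr y z⟫ = ⟪ν, cr y z⟫` (`cr_lag`), the other coordinates in the same way.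
Surjectivity is not needed except `sim_circle`: `Q` is a linear isometry of a finite dimensional space, so bijective.
`sim_circle`: `y` on the circle `{⟪y - c, ν⟫ = 0, ‖y - c‖ = r}` iff `z = r⁻¹ Q (y - c)` has `z 2 = 0` and
`z 0^2 + z 1^2 = 1` (`z 2 = r⁻¹ ⟪ν, y - c⟫` because `⟪E3, Q x⟫ = ⟪Q ν, Q x⟫ = ⟪ν, x⟫`).
-/

set_option autoImplicit false

open scoped RealInnerProductSpace Topology
open Metric Filter Set

noncomputable section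

namespace Pool.Agent.H99.SC

theorem NRB_perp {ν : V3} (hν : ‖ν‖ = 1) : ∃ a : V3, ‖a‖ = 1 ∧ ⟪a, ν⟫ = 0 := by
  have h1 : ∃ a : V3, a ≠ 0 ∧ ⟪a, ν⟫ = 0 := by
    by_cases h : ν 0 ^ 2 + ν 1 ^ 2 = 0
    · have h0 : ν 0 = 0 := by nlinarith [sq_nonneg (ν 0), sq_nonneg (ν 1)]
      refine ⟨!₂[1, 0, 0], ?_, ?_⟩
      · intro h2
        have h3 := congrArg (fun v : V3 => v 0) h2
        simp at h3
      · rw [ip]
        simp [h0]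
    · refine ⟨!₂[ν 1, -ν 0, 0], ?_, ?_⟩
      · intro h2
        have h3 := congrArg (fun v : V3 => v 0) h2
        have h4 := congrArg (fun v : V3 => v 1) h2
        simp at h3 h4
        apply h
        rw [h3, h4]
        norm_num
      · rw [ip]
        simp
        ring
  obtain ⟨a, ha, ha2⟩ := h1
  refine ⟨‖a‖⁻¹ • a, ?_, ?_⟩
  · rw [norm_smul, norm_inv, norm_norm, inv_mul_cancel₀ (norm_ne_zero_iff.2 ha)]
  · rw [inner_smul_left, ha2, mul_zero]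

theorem exists_rot {ν : V3} (hν : ‖ν‖ = 1) : ∃ Q : V3 →ₗᵢ[ℝ] V3, Q ν = E3 ∧
    ∀ a b : V3, cr (Q a) (Q b) = Q (cr a b) := by
  obtain ⟨a, ha, haν⟩ := NRB_perp hν
  obtain ⟨b, hb⟩ : ∃ b, b = cr ν a := ⟨_, rfl⟩
  have hνν : ⟪ν, ν⟫ = 1 := by rw [real_inner_self_eq_norm_sq, hν]; norm_num
  have haa : ⟪a, a⟫ = 1 := by rw [real_inner_self_eq_norm_sq, ha]; norm_num
  have hνa : ⟪ν, a⟫ = 0 := by rw [real_inner_comm]; exact haν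
  have hab : cr a b = ν := by
    rw [hb, cr_cr, haa, haν, one_smul, zero_smul, sub_zero]
  have hbν : cr b ν = a := by
    rw [hb, cr_swap, cr_cr, hνa, hνν, zero_smul, one_smul, zero_sub, neg_neg]
  have hbb : ⟪b, b⟫ = 1 := by
    rw [hb, cr_lag, hνν, haa, hνa, haν]; ring
  have hbν0 : ⟪b, ν⟫ = 0 := by rw [hb]; exact cr_inner_left ν a
  have hab0 : ⟪a, b⟫ = 0 := by rw [hb, real_inner_comm]; exact cr_inner_right ν a
  have hb1 : ‖b‖ ^ 2 = 1 := by rw [← real_inner_self_eq_norm_sq, hbb]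
  have ha1 : ‖a‖ ^ 2 = 1 := by rw [ha]; norm_num
  have hnorm : ∀ y : V3, ‖y‖ ^ 2 = ⟪a, y⟫ ^ 2 + ⟪b, y⟫ ^ 2 + ⟪ν, y⟫ ^ 2 := by
    intro y
    have h1 := decomp a b y
    rw [hab, hν, hb1, ha1, hab0, one_pow, one_smul, zero_mul, zero_mul, sub_zero, sub_zero,
      one_mul, one_mul] at h1
    have h2 : ⟪y, y⟫ = ⟪y, ⟪y, ν⟫ • ν + ⟪y, a⟫ • a + ⟪y, b⟫ • b⟫ := by rw [← h1]
    rw [inner_add_right, inner_add_right, inner_smul_right, inner_smul_right, inner_smul_right,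
      real_inner_self_eq_norm_sq] at h2
    rw [h2, real_inner_comm y a, real_inner_comm y b, real_inner_comm y ν]
    ring
  let L : V3 →ₗ[ℝ] V3 :=
    { toFun := fun y => !₂[⟪a, y⟫, ⟪b, y⟫, ⟪ν, y⟫]
      map_add' := by
        intro x y
        apply ext3 <;> simp [inner_add_right]
      map_smul' := by
        intro c y
        apply ext3 <;> simp [inner_smul_right] }
  have L0 : ∀ y, (L y) 0 = ⟪a, y⟫ := fun y => by simp [L]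
  have L1 : ∀ y, (L y) 1 = ⟪b, y⟫ := fun y => by simp [L]
  have L2 : ∀ y, (L y) 2 = ⟪ν, y⟫ := fun y => by simp [L]
  have hL : ∀ y, ‖L y‖ = ‖y‖ := by
    intro y
    have h1 : ‖L y‖ ^ 2 = ‖y‖ ^ 2 := by rw [nsq, L0, L1, L2, hnorm y]
    exact (sq_eq_sq₀ (norm_nonneg _) (norm_nonneg _)).1 h1
  refine ⟨⟨L, hL⟩, ?_, ?_⟩
  · show L ν = E3
    apply ext3
    · rw [L0, haν]; simp
    · rw [L1, hbν0]; simp
    · rw [L2, hνν]; simp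
  · intro x y
    show cr (L x) (L y) = L (cr x y)
    apply ext3
    · rw [cr_0, L0, L1, L2, L1, L2, ← hbν, cr_lag]; ring
    · rw [cr_1, L1, L0, L2, L0, L2]
      have h3 : ⟪b, cr x y⟫ = ⟪cr ν a, cr x y⟫ := by rw [hb]
      rw [h3, cr_lag]; ring
    · rw [cr_2, L2, L0, L1, L0, L1, ← hab, cr_lag]; ring

theorem sim_circle {ν : V3} {Q : V3 →ₗᵢ[ℝ] V3} (hQ : Q ν = E3) {r : ℝ} (hr : 0 < r) (c y : V3) :
    (⟪y - c, ν⟫ = 0 ∧ ‖y - c‖ = r) ↔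
      ((r⁻¹ • Q (y - c)) 2 = 0 ∧ (r⁻¹ • Q (y - c)) 0 ^ 2 + (r⁻¹ • Q (y - c)) 1 ^ 2 = 1) := by
  have h2 : (Q (y - c)) 2 = ⟪y - c, ν⟫ := by
    have h1 : ⟪Q (y - c), Q ν⟫ = ⟪y - c, ν⟫ := Q.inner_map_map _ _
    rw [← h1, hQ, ip]
    simp
  have hz2 : (r⁻¹ • Q (y - c)) 2 = r⁻¹ * ⟪y - c, ν⟫ := by
    rw [← h2]; simp
  have hn : (r⁻¹ • Q (y - c)) 0 ^ 2 + (r⁻¹ • Q (y - c)) 1 ^ 2 + (r⁻¹ • Q (y - c)) 2 ^ 2
      = (r⁻¹ * ‖y - c‖) ^ 2 := by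
    rw [← nsq, norm_smul, Q.norm_map, norm_inv, Real.norm_of_nonneg hr.le]
  have hri : r⁻¹ ≠ 0 := inv_ne_zero hr.ne'
  constructor
  · rintro ⟨h3, h4⟩
    have h5 : (r⁻¹ • Q (y - c)) 2 = 0 := by rw [hz2, h3, mul_zero]
    refine ⟨h5, ?_⟩
    rw [h5, h4, inv_mul_cancel₀ hr.ne'] at hn
    linarith
  · rintro ⟨h3, h4⟩
    rw [hz2] at h3
    have h5 : ⟪y - c, ν⟫ = 0 := (mul_eq_zero.1 h3).resolve_left hri
    refine ⟨h5, ?_⟩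
    rw [h4, hz2, h5, mul_zero] at hn
    have h6 : (r⁻¹ * ‖y - c‖) ^ 2 = 1 := by linarith
    have h7 : 0 ≤ r⁻¹ * ‖y - c‖ := by positivity
    have h8 : r⁻¹ * ‖y - c‖ = 1 := by nlinarith
    calc ‖y - c‖ = r * (r⁻¹ * ‖y - c‖) := by rw [← mul_assoc, mul_inv_cancel₀ hr.ne', one_mul]
      _ = r := by rw [h8, mul_one]

end Pool.Agent.H99.SC
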