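import Pool.Agent.H99.SC.NRA
import Pool.Agent.H99.SC.NRB
import Pool.Agent.H99.SC.MSF

/-!
# NRC: nonzero mean curvature, general circle

`H > 0` first (`nrc_pos`): `Q` from `exists_rot`, `X' u = r⁻¹ Q (X u - c)`; `Raw X' (H / r⁻¹)` (`raw_sim`), `H/r⁻¹ > 0`.  `Surf`: `bd`: a
point `z` with `z 2 = 0`, `z 0^2 + z 1^2 = 1` is `r⁻¹ Q (y - c)` for some `y` (`Q` is surjective: linear isometry in finite
dimension, `LinearIsometry.toLinearIsometryEquiv` or `LinearMap.injective_iff_surjective`), `y` is on the circle (`sim_circle`)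
so `y = X u`, `‖u‖ = 1`; and conversely.  `StarAt` for `q' = r⁻¹ Q (q - c)`: `q' + s v ∈ Sig'` means
`q + s w ∈ X(closed disc)` with `w = r Q⁻¹ v ≠ 0`.  `msf`: `‖X' u - c'‖ = R'`; write `c' = r⁻¹ Q (c'' - c)`, so
`‖X u - c''‖ = r R'`.
`H < 0`: `raw_swap` (`X (sw u)`, mean curvature `-H > 0`; `sw` preserves the closed disc and the circle).
-/

set_option autoImplicit false

open scoped RealInnerProductSpace Topology
open Metric Filter Set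

noncomputable section

namespace Pool.Agent.H99.SC

theorem NRC_surj (Q : V3 →ₗᵢ[ℝ] V3) : Function.Surjective Q := by
  have h : Function.Injective Q.toLinearMap := Q.injective
  exact LinearMap.injective_iff_surjective.1 h

/-- the normalised surface -/
def NRC_surf {X : V2 → V3} {H : ℝ} (h : Raw X H) (hH : 0 < H) {ν c : V3} {r : ℝ}
    (hr : 0 < r) (hb : ∀ y : V3, (∃ u : V2, ‖u‖ = 1 ∧ X u = y) ↔ (⟪y - c, ν⟫ = 0 ∧ ‖y - c‖ = r))
    (Q : V3 →ₗᵢ[ℝ] V3) (hQ : Q ν = E3) (hc : ∀ a b : V3, cr (Q a) (Q b) = Q (cr a b)) : Surf :=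
  have hk : 0 < r⁻¹ := inv_pos.2 hr
  have hR := raw_sim h hc hk c
  { X := fun u => r⁻¹ • Q (X u - c)
    H := H / r⁻¹
    smooth := hR.smooth
    imm := hR.imm
    inj := hR.inj
    Hpos := div_pos hH hk
    bd := by
      intro y
      constructor
      · rintro ⟨u, hu, rfl⟩
        exact (sim_circle hQ hr c (X u)).1 ((hb (X u)).1 ⟨u, hu, rfl⟩)
      · intro hy
        obtain ⟨x, hx⟩ := NRC_surj Q (r • y)
        have hxy : r⁻¹ • Q ((c + x) - c) = y := by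
          rw [add_sub_cancel_left, hx, smul_smul, inv_mul_cancel₀ hr.ne', one_smul]
        have h1 : ⟪(c + x) - c, ν⟫ = 0 ∧ ‖(c + x) - c‖ = r := by
          rw [sim_circle hQ hr c (c + x), hxy]
          exact hy
        obtain ⟨u, hu, hu2⟩ := (hb (c + x)).2 h1
        refine ⟨u, hu, ?_⟩
        show r⁻¹ • Q (X u - c) = y
        rw [hu2, hxy]
    cmc := hR.cmc }

theorem nrc_pos {X : V2 → V3} {H : ℝ} (h : Raw X H) (hH : 0 < H) {ν c : V3} (hν : ‖ν‖ = 1) {r : ℝ}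
    (hr : 0 < r) (hb : ∀ y : V3, (∃ u : V2, ‖u‖ = 1 ∧ X u = y) ↔ (⟪y - c, ν⟫ = 0 ∧ ‖y - c‖ = r))
    {q : V3} (hq : ∀ v : V3, v ≠ 0 → ∀ s t : ℝ, 0 ≤ s → 0 ≤ t →
      (∃ u : V2, ‖u‖ ≤ 1 ∧ X u = q + s • v) → (∃ u : V2, ‖u‖ ≤ 1 ∧ X u = q + t • v) → s = t) :
    ∃ (a : V3) (R : ℝ), 0 < R ∧ ∀ u : V2, ‖u‖ ≤ 1 → ‖X u - a‖ = R := by
  obtain ⟨Q, hQ, hc⟩ := exists_rot hν
  have hk : 0 < r⁻¹ := inv_pos.2 hr
  have hstar : StarAt (NRC_surf h hH hr hb Q hQ hc) (r⁻¹ • Q (q - c)) := by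
    intro v hv s t hs ht h1 h2
    obtain ⟨w, hw⟩ := NRC_surj Q (r • v)
    have hw0 : w ≠ 0 := by
      rintro rfl
      rw [map_zero] at hw
      exact (smul_ne_zero hr.ne' hv) hw.symm
    have key : ∀ a : ℝ, r⁻¹ • Q (q - c) + a • v ∈ (NRC_surf h hH hr hb Q hQ hc).Sig →
        ∃ u : V2, ‖u‖ ≤ 1 ∧ X u = q + a • w := by
      rintro a ⟨u, hu, hu2⟩
      refine ⟨u, hu, ?_⟩
      have h3 : r⁻¹ • Q (X u - c) = r⁻¹ • Q (q - c) + a • v := hu2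
      have h4 : Q (X u - c) = Q (q - c + a • w) := by
        have h5 := congrArg (fun z => r • z) h3
        simp only [smul_add, smul_smul, mul_inv_cancel₀ hr.ne', one_smul] at h5
        rw [h5, map_add, map_smul, hw, smul_smul, mul_comm a r]
      have h6 := Q.injective h4
      have h7 : X u = (q - c + a • w) + c := by rw [← h6]; abel
      rw [h7]; abel
    exact hq w hw0 s t hs ht (key s h1) (key t h2)
  obtain ⟨c', hc'⟩ := msf hstar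
  obtain ⟨x, hx⟩ := NRC_surj Q (r • c')
  refine ⟨c + x, r * (H / r⁻¹)⁻¹, by positivity, ?_⟩
  intro u hu
  have h1 : ‖r⁻¹ • Q (X u - c) - c'‖ = (H / r⁻¹)⁻¹ := hc' u hu
  have h2 : r⁻¹ • Q (X u - c) - c' = r⁻¹ • Q (X u - (c + x)) := by
    have h3 : X u - (c + x) = (X u - c) - x := by abel
    rw [h3, map_sub Q (X u - c) x, hx, smul_sub, smul_smul, inv_mul_cancel₀ hr.ne', one_smul]
  rw [h2, norm_smul, Q.norm_map, Real.norm_eq_abs, abs_of_pos hk] at h1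
  rw [← h1, ← mul_assoc, mul_inv_cancel₀ hr.ne', one_mul]

theorem nrc {X : V2 → V3} {H : ℝ} (h : Raw X H) (hH : H ≠ 0) {ν c : V3} (hν : ‖ν‖ = 1) {r : ℝ}
    (hr : 0 < r) (hb : ∀ y : V3, (∃ u : V2, ‖u‖ = 1 ∧ X u = y) ↔ (⟪y - c, ν⟫ = 0 ∧ ‖y - c‖ = r))
    {q : V3} (hq : ∀ v : V3, v ≠ 0 → ∀ s t : ℝ, 0 ≤ s → 0 ≤ t →
      (∃ u : V2, ‖u‖ ≤ 1 ∧ X u = q + s • v) → (∃ u : V2, ‖u‖ ≤ 1 ∧ X u = q + t • v) → s = t) :
    ∃ (a : V3) (R : ℝ), 0 < R ∧ ∀ u : V2, ‖u‖ ≤ 1 → ‖X u - a‖ = R := by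
  rcases lt_or_gt_of_ne hH with hneg | hpos
  · have hraw := raw_swap h
    have hpos : 0 < -H := by linarith
    have hb' : ∀ y : V3, (∃ u : V2, ‖u‖ = 1 ∧ X (sw u) = y) ↔
        (⟪y - c, ν⟫ = 0 ∧ ‖y - c‖ = r) := by
      intro y
      rw [← hb y]
      constructor
      · rintro ⟨u, hu, h1⟩
        exact ⟨sw u, by rw [sw_norm, hu], h1⟩
      · rintro ⟨u, hu, h1⟩
        exact ⟨sw u, by rw [sw_norm, hu], by rw [sw_sw, h1]⟩
    have hsw : ∀ y : V3, (∃ u : V2, ‖u‖ ≤ 1 ∧ X (sw u) = y) → ∃ u : V2, ‖u‖ ≤ 1 ∧ X u = y := by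
      rintro y ⟨u, hu, h1⟩
      exact ⟨sw u, by rw [sw_norm]; exact hu, h1⟩
    obtain ⟨a, R, hR, h1⟩ := nrc_pos hraw hpos hν hr hb'
      (fun v hv s t hs ht h1 h2 => hq v hv s t hs ht (hsw _ h1) (hsw _ h2))
    refine ⟨a, R, hR, fun u hu => ?_⟩
    have h2 := h1 (sw u) (by rw [sw_norm]; exact hu)
    rwa [sw_sw] at h2
  · exact nrc_pos h hpos hν hr hb hq

end Pool.Agent.H99.SC
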