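import Pool.Agent.H99.SC.Defs

/-!
# OPM: an injective C^1 map of the plane with nonzero derivative is open at the point

`G` C^1 at `u₀`, injective near `u₀`, `DG(u₀) ≠ 0` (rank 1 is allowed).  Then the image of every ball about `u₀` is a
neighbourhood of `G u₀`.
Proof.  Choose `a` with `DG a ≠ 0` and the functional `ℓ = ⟪DG a, ·⟫` on the target; `x = ℓ ∘ G`, `Dx(u₀) ≠ 0`.
Let `b ≠ 0` be in the kernel of `Dx(u₀)` and `m = ⟪b,·⟫`.  `Ψ u = (x u, m u) : V2 → ℝ × ℝ` is C^1 and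
`DΨ(u₀)` is injective (if `Dx v = 0` then `v` is a multiple of `b`, and `m b > 0`), hence invertible (dimension 2).
Inverse function theorem: local inverse `Φ`, continuous near `(x₀,y₀) = Ψ u₀`.  Let `k = ⟪rot (DG a), ·⟫` and
`g (x,y) = k (G (Φ (x,y)))`; `ℓ (G (Φ (x,y))) = x`.  Given `ε`, choose `δ > 0` such that the closed box of size `δ` about
`(x₀,y₀)` is in the domain and `Φ` maps it into the ball of radius `min ε r` about `u₀`.  For each `x` the function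
`y ↦ g (x,y)` is injective and continuous on `[y₀-δ, y₀+δ]` (`G`, `Φ` injective).  For `x = x₀` it is strictly monotone
(`ContinuousOn.strictMonoOn_of_injOn_Icc'`), so `g(x₀,y₀-δ)` and `g(x₀,y₀+δ)` are strictly on opposite sides of `g(x₀,y₀)`; by
continuity `c` is between `g(x,y₀-δ)` and `g(x,y₀+δ)` for `(x,c)` near `(x₀, g(x₀,y₀))`, and the intermediate value theorem gives `y`
with `g(x,y) = c`.  For `z` near `G u₀` apply this to `x = ℓ z`, `c = k z`: `ℓ, k` separate points of V2, so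
`z = G (Φ (x,y))`.
-/

set_option autoImplicit false

open scoped RealInnerProductSpace Topology
open Metric Filter Set

noncomputable section

namespace Pool.Agent.H99.SC

/-- a functional complementary to a nonzero one -/
theorem opm_compl (f : V2 →L[ℝ] ℝ) (hf : f ≠ 0) :
    ∃ g : V2 →L[ℝ] ℝ, ∀ v, f v = 0 → g v = 0 → v = 0 := by
  have hexp : ∀ v : V2, f v = v 0 * f e0 + v 1 * f e1 := by
    intro v
    have h1 : v = v 0 • e0 + v 1 • e1 := by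
      ext i
      fin_cases i <;> simp [e0, e1]
    conv_lhs => rw [h1]
    simp
  let π : Fin 2 → (V2 →L[ℝ] ℝ) := fun i => EuclideanSpace.proj i
  refine ⟨(f e0) • π 1 - (f e1) • π 0, ?_⟩
  intro v h1 h2
  have h3 : f e0 * v 1 - f e1 * v 0 = 0 := by
    simpa [π] using h2
  rw [hexp v] at h1
  have h4 : f e0 ^ 2 + f e1 ^ 2 ≠ 0 := by
    intro h
    apply hf
    have h5 : f e0 = 0 := by nlinarith [sq_nonneg (f e0), sq_nonneg (f e1)]
    have h6 : f e1 = 0 := by nlinarith [sq_nonneg (f e0), sq_nonneg (f e1)]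
    ext w
    rw [hexp w, h5, h6]
    simp
  have h5 : (f e0 ^ 2 + f e1 ^ 2) * v 0 = 0 := by linear_combination f e0 * h1 - f e1 * h3
  have h6 : (f e0 ^ 2 + f e1 ^ 2) * v 1 = 0 := by linear_combination f e1 * h1 + f e0 * h3
  have h7 := (mul_eq_zero.1 h5).resolve_left h4
  have h8 := (mul_eq_zero.1 h6).resolve_left h4
  ext i
  fin_cases i
  · exact h7
  · exact h8

/-- two complementary functionals give an isomorphism -/
theorem opm_equiv (f g : V2 →L[ℝ] ℝ) (h : ∀ v, f v = 0 → g v = 0 → v = 0) :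
    ∃ E : V2 ≃L[ℝ] (ℝ × ℝ), (E : V2 →L[ℝ] (ℝ × ℝ)) = f.prod g := by
  let F : V2 →ₗ[ℝ] (ℝ × ℝ) := (f.prod g : V2 →L[ℝ] (ℝ × ℝ))
  have hinj : Function.Injective F := by
    rw [injective_iff_map_eq_zero]
    intro v hv
    have h1 : (f v, g v) = ((0 : ℝ), (0 : ℝ)) := hv
    rw [Prod.mk.injEq] at h1
    exact h v h1.1 h1.2
  have hfr : Module.finrank ℝ V2 = Module.finrank ℝ (ℝ × ℝ) := by
    rw [Module.finrank_prod, finrank_euclideanSpace]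
    simp
  let E0 := LinearEquiv.ofInjectiveOfFinrankEq F hinj hfr
  refine ⟨E0.toContinuousLinearEquiv, ?_⟩
  ext v <;> rfl

/-- The essential step: `k ∘ G ∘ Φ` covers. -/
theorem opm_core {g : ℝ → ℝ → ℝ} {x₀ y₀ δ : ℝ} (hδ : 0 < δ)
    (hcx : ∀ y ∈ Icc (y₀ - δ) (y₀ + δ), ContinuousOn (fun x => g x y) (Icc (x₀ - δ) (x₀ + δ)))
    (hcy : ∀ x ∈ Icc (x₀ - δ) (x₀ + δ), ContinuousOn (g x) (Icc (y₀ - δ) (y₀ + δ)))
    (hinj : InjOn (g x₀) (Icc (y₀ - δ) (y₀ + δ))) :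
    ∀ᶠ p : ℝ × ℝ in 𝓝 (x₀, g x₀ y₀), p.1 ∈ Icc (x₀ - δ) (x₀ + δ) ∧
      ∃ y ∈ Icc (y₀ - δ) (y₀ + δ), g p.1 y = p.2 := by
  have hx₀ : x₀ ∈ Icc (x₀ - δ) (x₀ + δ) := ⟨by linarith, by linarith⟩
  have hy₀ : y₀ ∈ Icc (y₀ - δ) (y₀ + δ) := ⟨by linarith, by linarith⟩
  have hym : y₀ - δ ∈ Icc (y₀ - δ) (y₀ + δ) := ⟨by linarith, by linarith⟩
  have hyp : y₀ + δ ∈ Icc (y₀ - δ) (y₀ + δ) := ⟨by linarith, by linarith⟩
  have hle : y₀ - δ ≤ y₀ + δ := by linarith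
  have hnx : Icc (x₀ - δ) (x₀ + δ) ∈ 𝓝 x₀ := Icc_mem_nhds (by linarith) (by linarith)
  have hc : ∀ y ∈ Icc (y₀ - δ) (y₀ + δ),
      ContinuousAt (fun p : ℝ × ℝ => g p.1 y) (x₀, g x₀ y₀) := by
    intro y hy
    have h1 : ContinuousAt (fun x => g x y) x₀ := (hcx y hy).continuousAt hnx
    exact ContinuousAt.comp (f := fun p : ℝ × ℝ => p.1) (g := fun x => g x y)
      (x := (x₀, g x₀ y₀)) h1 continuousAt_fst
  have hsnd : ContinuousAt (fun p : ℝ × ℝ => p.2) (x₀, g x₀ y₀) := continuousAt_snd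
  have hfst : ∀ᶠ p : ℝ × ℝ in 𝓝 (x₀, g x₀ y₀), p.1 ∈ Icc (x₀ - δ) (x₀ + δ) :=
    (continuousAt_fst (p := (x₀, g x₀ y₀))).eventually hnx
  rcases (hcy x₀ hx₀).strictMonoOn_of_injOn_Icc' hle hinj with hm | hm
  · have h1 : g x₀ (y₀ - δ) < g x₀ y₀ := hm hym hy₀ (by linarith)
    have h2 : g x₀ y₀ < g x₀ (y₀ + δ) := hm hy₀ hyp (by linarith)
    have e1 := (hc _ hym).eventually_lt hsnd h1
    have e2 := hsnd.eventually_lt (hc _ hyp) h2
    filter_upwards [e1, e2, hfst] with p hp1 hp2 hp3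
    refine ⟨hp3, ?_⟩
    obtain ⟨y, hy, hyy⟩ := intermediate_value_Icc hle (hcy p.1 hp3) ⟨hp1.le, hp2.le⟩
    exact ⟨y, hy, hyy⟩
  · have h1 : g x₀ y₀ < g x₀ (y₀ - δ) := hm hym hy₀ (by linarith)
    have h2 : g x₀ (y₀ + δ) < g x₀ y₀ := hm hy₀ hyp (by linarith)
    have e1 := hsnd.eventually_lt (hc _ hym) h1
    have e2 := (hc _ hyp).eventually_lt hsnd h2
    filter_upwards [e1, e2, hfst] with p hp1 hp2 hp3
    refine ⟨hp3, ?_⟩
    obtain ⟨y, hy, hyy⟩ := intermediate_value_Icc' hle (hcy p.1 hp3) ⟨hp2.le, hp1.le⟩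
    exact ⟨y, hy, hyy⟩

theorem opm {G : V2 → V2} {u₀ : V2} (hG : ContDiffAt ℝ 1 G u₀) (hD : fderiv ℝ G u₀ ≠ 0) {r : ℝ}
    (hr : 0 < r) (hinj : Set.InjOn G (ball u₀ r)) {ε : ℝ} (hε : 0 < ε) :
    G '' (ball u₀ ε) ∈ 𝓝 (G u₀) := by
  set L : V2 →L[ℝ] V2 := fderiv ℝ G u₀ with hL
  obtain ⟨a, ha⟩ : ∃ a, L a ≠ 0 := by
    by_contra h
    push Not at h
    exact hD (ContinuousLinearMap.ext h)
  -- functionals on the target
  let ℓ : V2 →L[ℝ] ℝ := innerSL ℝ (L a)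
  have hℓ : ℓ (L a) ≠ 0 := by
    show ⟪L a, L a⟫ ≠ 0
    rw [real_inner_self_eq_norm_sq]
    exact pow_ne_zero 2 (norm_ne_zero_iff.2 ha)
  have hℓ0 : ℓ ≠ 0 := fun h => hℓ (by rw [h]; rfl)
  obtain ⟨k, hk⟩ := opm_compl ℓ hℓ0
  have hℓL : ℓ.comp L ≠ 0 := fun h => hℓ (by
    have := congrArg (fun F : V2 →L[ℝ] ℝ => F a) h
    simpa using this)
  obtain ⟨m, hm⟩ := opm_compl (ℓ.comp L) hℓL
  obtain ⟨E, hE⟩ := opm_equiv _ m hm
  have hsep : ∀ z z' : V2, ℓ z = ℓ z' → k z = k z' → z = z' := by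
    intro z z' h1 h2
    have := hk (z - z') (by rw [map_sub, h1, sub_self]) (by rw [map_sub, h2, sub_self])
    exact sub_eq_zero.1 this
  -- the map `Ψ`
  let Ψ : V2 → ℝ × ℝ := fun u => (ℓ (G u), m u)
  have hΨc : ContDiffAt ℝ 1 Ψ u₀ :=
    (ℓ.contDiff.contDiffAt.comp u₀ hG).prodMk m.contDiff.contDiffAt
  have hGd : HasFDerivAt G L u₀ := (hG.differentiableAt (by norm_num)).hasFDerivAt
  have hΨd : HasFDerivAt Ψ (E : V2 →L[ℝ] (ℝ × ℝ)) u₀ := by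
    rw [hE]
    exact (ℓ.hasFDerivAt.comp u₀ hGd).prodMk m.hasFDerivAt
  let e := hΨc.toOpenPartialHomeomorph Ψ hΨd (by norm_num)
  have hsrc : u₀ ∈ e.source := hΨc.mem_toOpenPartialHomeomorph_source hΨd (by norm_num)
  have htgt : Ψ u₀ ∈ e.target := hΨc.image_mem_toOpenPartialHomeomorph_target hΨd (by norm_num)
  have heq : ∀ u, e u = Ψ u := fun _ => rfl
  let Φ : ℝ × ℝ → V2 := e.symm
  have hΦ0 : Φ (Ψ u₀) = u₀ := e.left_inv hsrc
  have hΨΦ : ∀ p ∈ e.target, Ψ (Φ p) = p := fun p hp => e.right_inv hp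
  have hΦc : ContinuousOn Φ e.target := e.continuousOn_symm
  -- the neighbourhood where `G` is continuous
  obtain ⟨r', hr', hGc⟩ : ∃ r' > 0, ContinuousOn G (ball u₀ r') := by
    have h1 : ∀ᶠ u in 𝓝 u₀, ContDiffAt ℝ 1 G u := hG.eventually (by norm_num)
    obtain ⟨r', hr', h2⟩ := Metric.eventually_nhds_iff_ball.1 h1
    exact ⟨r', hr', fun u hu => (h2 u hu).continuousAt.continuousWithinAt⟩
  set ρ : ℝ := min (min ε r) r' with hρ
  have hρ0 : 0 < ρ := lt_min (lt_min hε hr) hr'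
  -- the box
  obtain ⟨δ, hδ, hbox⟩ : ∃ δ > 0, ∀ p ∈ closedBall (Ψ u₀) δ, p ∈ e.target ∧ Φ p ∈ ball u₀ ρ := by
    have h1 : e.target ∈ 𝓝 (Ψ u₀) := e.open_target.mem_nhds htgt
    have h2 : ContinuousAt Φ (Ψ u₀) := hΦc.continuousAt h1
    have h3 : Φ ⁻¹' (ball u₀ ρ) ∈ 𝓝 (Ψ u₀) := by
      apply h2
      rw [hΦ0]
      exact ball_mem_nhds _ hρ0
    obtain ⟨δ, hδ, h4⟩ := Metric.nhds_basis_closedBall.mem_iff.1 (Filter.inter_mem h1 h3)
    exact ⟨δ, hδ, fun p hp => h4 hp⟩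
  obtain ⟨x₀, y₀, hxy⟩ : ∃ x₀ y₀ : ℝ, Ψ u₀ = (x₀, y₀) := ⟨_, _, rfl⟩
  have hmem : ∀ x ∈ Icc (x₀ - δ) (x₀ + δ), ∀ y ∈ Icc (y₀ - δ) (y₀ + δ),
      (x, y) ∈ closedBall (Ψ u₀) δ := by
    intro x hx y hy
    rw [hxy, mem_closedBall, Prod.dist_eq, max_le_iff, Real.dist_eq, Real.dist_eq, abs_le, abs_le]
    exact ⟨⟨by linarith [hx.1], by linarith [hx.2]⟩, ⟨by linarith [hy.1], by linarith [hy.2]⟩⟩
  have hρε : ball u₀ ρ ⊆ ball u₀ ε := ball_subset_ball ((min_le_left _ _).trans (min_le_left _ _))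
  have hρr : ball u₀ ρ ⊆ ball u₀ r := ball_subset_ball ((min_le_left _ _).trans (min_le_right _ _))
  have hρr' : ball u₀ ρ ⊆ ball u₀ r' := ball_subset_ball (min_le_right _ _)
  let g : ℝ → ℝ → ℝ := fun x y => k (G (Φ (x, y)))
  have hcont : ContinuousOn (fun p => k (G (Φ p))) (closedBall (Ψ u₀) δ) := by
    apply k.continuous.comp_continuousOn
    apply hGc.comp (hΦc.mono fun p hp => (hbox p hp).1)
    intro p hp
    exact hρr' (hbox p hp).2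
  have hG0 : g x₀ y₀ = k (G u₀) := by
    show k (G (Φ (x₀, y₀))) = _
    rw [← hxy, hΦ0]
  have hx₀ : x₀ = ℓ (G u₀) := by
    have : (Ψ u₀).1 = x₀ := by rw [hxy]
    exact this.symm
  have hx₀m : x₀ ∈ Icc (x₀ - δ) (x₀ + δ) := ⟨by linarith, by linarith⟩
  have hcore := opm_core (g := g) (x₀ := x₀) (y₀ := y₀) hδ
    (fun y hy => hcont.comp (by fun_prop) (fun x hx => hmem x hx y hy))
    (fun x hx => hcont.comp (by fun_prop) (fun y hy => hmem x hx y hy))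
    (by
      intro y hy y' hy' hyy
      have h1 := hbox _ (hmem x₀ hx₀m y hy)
      have h2 := hbox _ (hmem x₀ hx₀m y' hy')
      have e1 : ℓ (G (Φ (x₀, y))) = x₀ := congrArg Prod.fst (hΨΦ _ h1.1)
      have e2 : ℓ (G (Φ (x₀, y'))) = x₀ := congrArg Prod.fst (hΨΦ _ h2.1)
      have h3 := hsep _ _ (e1.trans e2.symm) hyy
      have h4 := hinj (hρr h1.2) (hρr h2.2) h3
      have h5 : Ψ (Φ (x₀, y)) = Ψ (Φ (x₀, y')) := by rw [h4]
      rw [hΨΦ _ h1.1, hΨΦ _ h2.1] at h5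
      exact congrArg Prod.snd h5)
  have hlk : ContinuousAt (fun z : V2 => (ℓ z, k z)) (G u₀) :=
    (ℓ.continuous.prodMk k.continuous).continuousAt
  have hev := hlk.eventually (p := fun p : ℝ × ℝ => p.1 ∈ Icc (x₀ - δ) (x₀ + δ) ∧
      ∃ y ∈ Icc (y₀ - δ) (y₀ + δ), g p.1 y = p.2) (by
    show ∀ᶠ p : ℝ × ℝ in 𝓝 (ℓ (G u₀), k (G u₀)), _
    rw [← hx₀, ← hG0]
    exact hcore)
  filter_upwards [hev] with z hz
  obtain ⟨hz1, y, hy, hzy⟩ := hz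
  have h1 := hbox _ (hmem _ hz1 y hy)
  refine ⟨Φ (ℓ z, y), hρε h1.2, ?_⟩
  exact hsep _ _ (congrArg Prod.fst (hΨΦ _ h1.1)) hzy

end Pool.Agent.H99.SC
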