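import Pool.Agent.H99.SC.OPM
import Pool.Agent.H99.SC.SF

/-!
# OPR: the central projection of a star-shaped surface is open

`star_not_mem`: if `q = X u`, take `v ≠ u` in the closed disc, `w = X v - q ≠ 0` (`inj`), `s = 0`, `t = 1`.
`star_unique`: `StarAt` with `s = τ`, `t = σ`; then `X u = X v` and `inj`.
`opr`: `q + τ₀ (Y₀ - q) = X u₀`, `‖u₀‖ < 1`.  `d = (X u₀ - q)/|X u₀ - q|`; choose unit vectors `a, b` with `a, b, d`
orthonormal.  `G u = !₂[⟪a, X u - q⟫/⟪d, X u - q⟫, ⟪b, X u - q⟫/⟪d, X u - q⟫]`, C^2 near `u₀` (`⟪d, X u₀ - q⟫ > 0`).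
Injective near `u₀`: `G u = G u'` means that `X u - q` and `X u' - q` are positive multiples of each other (in the basis
`a, b, d`), so `u = u'` by `star_unique`.  `DG(u₀) v = !₂[⟪a, DX v⟫, ⟪b, DX v⟫]/⟪d, X u₀ - q⟫` (`⟪a, X u₀ - q⟫ = 0`), and if
it were 0 for all `v` then all `DX v` would be multiples of `d`, against `fderiv_inj` (or `cr (X_u) (X_v) ≠ 0`).
`opm`: for `Y` near `Y₀`, `!₂[⟪a,Y-q⟫/⟪d,Y-q⟫, ⟪b,Y-q⟫/⟪d,Y-q⟫]` is near `0 = G u₀`, hence `= G u` with `u` as near `u₀` as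
we want, `‖u‖ < 1`; then `X u - q = τ (Y - q)` with `τ = ⟪d, X u - q⟫/⟪d, Y - q⟫`, near
`⟪d, X u₀ - q⟫/⟪d, Y₀ - q⟫ = τ₀`.
-/

set_option autoImplicit false

open scoped RealInnerProductSpace Topology
open Metric Filter Set

noncomputable section

namespace Pool.Agent.H99.SC

theorem star_not_mem {S : Surf} {q : V3} (hq : StarAt S q) : q ∉ S.Sig := by
  rintro ⟨u, hu, rfl⟩
  have key : ∃ v : V2, ‖v‖ ≤ 1 ∧ v ≠ u := by
    by_cases h : u = 0
    · refine ⟨e0, ?_, ?_⟩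
      · have : ‖e0‖ = 1 := by simp [e0]
        exact this.le
      · rw [h]
        intro h2
        have := congrArg (fun w : V2 => w 0) h2
        simp at this
    · exact ⟨0, by simp, fun h2 => h h2.symm⟩
  obtain ⟨v, hv, hvu⟩ := key
  have hw : S.X v - S.X u ≠ 0 := by
    intro h
    exact hvu (S.inj v u hv hu (sub_eq_zero.1 h))
  have h := hq (S.X v - S.X u) hw 0 1 le_rfl zero_le_one
    (by rw [zero_smul, add_zero]; exact S.mem_Sig hu)
    (by rw [one_smul, add_sub_cancel]; exact S.mem_Sig hv)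
  exact zero_ne_one h

theorem star_unique {S : Surf} {q : V3} (hq : StarAt S q) {u v : V2} (hu : ‖u‖ ≤ 1)
    (hv : ‖v‖ ≤ 1) {w : V3} {τ σ : ℝ} (hτ : 0 < τ) (hσ : 0 < σ) (h1 : q + τ • w = S.X u)
    (h2 : q + σ • w = S.X v) : τ = σ ∧ u = v := by
  have hw : w ≠ 0 := by
    intro hw
    rw [hw, smul_zero, add_zero] at h1
    exact star_not_mem hq (h1 ▸ S.mem_Sig hu)
  have h : τ = σ := hq w hw τ σ hτ.le hσ.le (h1 ▸ S.mem_Sig hu) (h2 ▸ S.mem_Sig hv)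
  refine ⟨h, S.inj u v hu hv ?_⟩
  rw [← h1, ← h2, h]

/-- two vectors `a`, `b` such that `a`, `b`, `d` is an orthogonal basis -/
theorem opr_basis {d : V3} (hd : d ≠ 0) : ∃ a b : V3, ⟪a, d⟫ = 0 ∧ ⟪b, d⟫ = 0 ∧
    ∀ v : V3, ⟪a, v⟫ = 0 → ⟪b, v⟫ = 0 → ∃ t : ℝ, v = t • d := by
  have key : ∃ c : V3, cr d c ≠ 0 := by
    by_contra h
    push Not at h
    have h0 := h (EuclideanSpace.single 0 1)
    have h1 := h (EuclideanSpace.single 1 1)
    apply hd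
    have a1 := congrArg (fun w : V3 => w 1) h0
    have a2 := congrArg (fun w : V3 => w 2) h0
    have a3 := congrArg (fun w : V3 => w 2) h1
    simp at a1 a2 a3
    apply ext3
    · simpa using a3
    · simpa using a2
    · simpa using a1
  obtain ⟨c, hc⟩ := key
  refine ⟨cr d c, cr d (cr d c), cr_inner_left _ _, cr_inner_left _ _, ?_⟩
  intro v h1 h2
  have hda : ⟪d, cr d c⟫ = 0 := by rw [real_inner_comm]; exact cr_inner_left _ _
  have hdec := decomp d (cr d c) v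
  have hb : ‖cr d (cr d c)‖ ^ 2 = ‖d‖ ^ 2 * ‖cr d c‖ ^ 2 := by
    rw [cr_norm_sq, hda]
    ring
  rw [real_inner_comm] at h1 h2
  rw [h1, h2, hda, hb] at hdec
  have hd' : 0 < ‖d‖ := norm_pos_iff.2 hd
  have hc' : 0 < ‖cr d c‖ := norm_pos_iff.2 hc
  have hne : ‖d‖ ^ 2 * ‖cr d c‖ ^ 2 ≠ 0 := by positivity
  refine ⟨(‖d‖ ^ 2 * ‖cr d c‖ ^ 2)⁻¹ * (‖cr d c‖ ^ 2 * ⟪v, d⟫), ?_⟩
  have h3 : v = (‖d‖ ^ 2 * ‖cr d c‖ ^ 2)⁻¹ • ((‖d‖ ^ 2 * ‖cr d c‖ ^ 2) • v) := by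
    rw [smul_smul, inv_mul_cancel₀ hne, one_smul]
  have h4 : (‖d‖ ^ 2 * ‖cr d c‖ ^ 2) • v = (‖cr d c‖ ^ 2 * ⟪v, d⟫) • d := by
    rw [hdec]
    simp only [zero_smul, mul_zero, sub_zero, zero_mul, zero_add, add_zero]
  rw [← smul_smul, ← h4]
  exact h3

/-- the central projection in coordinates -/
def opr_P (a b d q : V3) (y : V3) : V2 := !₂[⟪a, y - q⟫ / ⟪d, y - q⟫, ⟪b, y - q⟫ / ⟪d, y - q⟫]

theorem opr_P0 (a b d q y : V3) : opr_P a b d q y 0 = ⟪a, y - q⟫ / ⟪d, y - q⟫ := by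
  simp [opr_P]

theorem opr_P1 (a b d q y : V3) : opr_P a b d q y 1 = ⟪b, y - q⟫ / ⟪d, y - q⟫ := by
  simp [opr_P]

theorem opr_P_smooth (a b d q : V3) {f : V2 → V3} {u : V2} (hf : ContDiffAt ℝ 2 f u)
    (h : ⟪d, f u - q⟫ ≠ 0) : ContDiffAt ℝ 2 (fun u => opr_P a b d q (f u)) u := by
  rw [contDiffAt_euclidean]
  intro i
  have h1 : ContDiffAt ℝ 2 (fun u => f u - q) u := hf.sub contDiffAt_const
  fin_cases i
  · simp only [Fin.zero_eta, opr_P0]
    exact (contDiffAt_const.inner ℝ h1).div (contDiffAt_const.inner ℝ h1) h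
  · simp only [Fin.mk_one, opr_P1]
    exact (contDiffAt_const.inner ℝ h1).div (contDiffAt_const.inner ℝ h1) h

theorem opr_P_cont (a b d q : V3) {y : V3} (h : ⟪d, y - q⟫ ≠ 0) :
    ContinuousAt (opr_P a b d q) y := by
  have h1 : ContDiffAt ℝ 2 (opr_P a b d q) y := by
    rw [contDiffAt_euclidean]
    intro i
    have h1 : ContDiffAt ℝ 2 (fun u : V3 => u - q) y := contDiffAt_id.sub contDiffAt_const
    fin_cases i
    · simp only [Fin.zero_eta, opr_P0]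
      exact (contDiffAt_const.inner ℝ h1).div (contDiffAt_const.inner ℝ h1) h
    · simp only [Fin.mk_one, opr_P1]
      exact (contDiffAt_const.inner ℝ h1).div (contDiffAt_const.inner ℝ h1) h
  exact h1.continuousAt

/-- points with the same projection are on the same ray -/
theorem opr_ray {a b d q : V3} (hd : d ≠ 0)
    (hbas : ∀ v : V3, ⟪a, v⟫ = 0 → ⟪b, v⟫ = 0 → ∃ t : ℝ, v = t • d) {y z : V3}
    (hy : 0 < ⟪d, y - q⟫) (hz : 0 < ⟪d, z - q⟫) (h : opr_P a b d q y = opr_P a b d q z) :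
    q + (⟪d, y - q⟫ / ⟪d, z - q⟫) • (z - q) = y := by
  have h0 := congrArg (fun w : V2 => w 0) h
  have h1 := congrArg (fun w : V2 => w 1) h
  simp only [opr_P0, opr_P1] at h0 h1
  set v : V3 := (y - q) - (⟪d, y - q⟫ / ⟪d, z - q⟫) • (z - q) with hv
  have ha : ⟪a, v⟫ = 0 := by
    rw [hv, inner_sub_right, real_inner_smul_right]
    rw [div_eq_div_iff hy.ne' hz.ne'] at h0
    field_simp
    linarith
  have hb : ⟪b, v⟫ = 0 := by
    rw [hv, inner_sub_right, real_inner_smul_right]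
    rw [div_eq_div_iff hy.ne' hz.ne'] at h1
    field_simp
    linarith
  obtain ⟨t, ht⟩ := hbas v ha hb
  have hdv : ⟪d, v⟫ = 0 := by
    rw [hv, inner_sub_right, real_inner_smul_right]
    field_simp
    ring
  have hdd : ⟪d, d⟫ ≠ 0 := by
    rw [real_inner_self_eq_norm_sq]
    have : 0 < ‖d‖ := norm_pos_iff.2 hd
    positivity
  rw [ht, real_inner_smul_right] at hdv
  have ht0 : t = 0 := by
    rcases mul_eq_zero.1 hdv with h | h
    · exact h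
    · exact absurd h hdd
  rw [ht0, zero_smul] at ht
  have h2 : (⟪d, y - q⟫ / ⟪d, z - q⟫) • (z - q) = y - q := (sub_eq_zero.1 (hv ▸ ht : (y - q) - (⟪d, y - q⟫ / ⟪d, z - q⟫) • (z - q) = 0)).symm
  rw [h2, add_sub_cancel]

/-- the derivative of a projected coordinate -/
theorem opr_deriv {S : Surf} {q a d : V3} {u₀ : V2} (hD : S.X u₀ - q = d) (hd : d ≠ 0)
    (ha : ⟪a, d⟫ = 0) (v : V2) :
    HasDerivAt (fun t : ℝ => ⟪a, S.X (u₀ + t • v) - q⟫ / ⟪d, S.X (u₀ + t • v) - q⟫)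
      (⟪a, fderiv ℝ S.X u₀ v⟫ / ⟪d, d⟫) 0 := by
  have hdd : ⟪d, d⟫ ≠ 0 := by
    rw [real_inner_self_eq_norm_sq]
    have : 0 < ‖d‖ := norm_pos_iff.2 hd
    positivity
  have hX : HasFDerivAt S.X (fderiv ℝ S.X u₀) u₀ :=
    ((S.smooth.differentiable (by norm_num)) u₀).hasFDerivAt
  have hγ : HasDerivAt (fun t : ℝ => u₀ + t • v) v 0 := by
    have := ((hasDerivAt_id (0 : ℝ)).smul_const v).const_add u₀
    simpa using this
  have hX' : HasFDerivAt S.X (fderiv ℝ S.X u₀) (u₀ + (0 : ℝ) • v) := by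
    rw [zero_smul, add_zero]; exact hX
  have h1 : HasDerivAt (fun t : ℝ => S.X (u₀ + t • v)) (fderiv ℝ S.X u₀ v) 0 :=
    hX'.comp_hasDerivAt 0 hγ
  have h2 : HasDerivAt (fun t : ℝ => S.X (u₀ + t • v) - q) (fderiv ℝ S.X u₀ v) 0 := h1.sub_const q
  have h3 : ∀ c : V3, HasDerivAt (fun t : ℝ => ⟪c, S.X (u₀ + t • v) - q⟫)
      ⟪c, fderiv ℝ S.X u₀ v⟫ 0 := by
    intro c
    have := (hasDerivAt_const (0 : ℝ) c).inner ℝ h2
    simpa using this
  have h0 : S.X (u₀ + (0 : ℝ) • v) - q = d := by rw [zero_smul, add_zero, hD]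
  have h4 := (h3 a).div (h3 d) (by rw [h0]; exact hdd)
  rw [h0, ha, zero_mul, sub_zero] at h4
  have h5 : ⟪a, fderiv ℝ S.X u₀ v⟫ * ⟪d, d⟫ / ⟪d, d⟫ ^ 2 = ⟪a, fderiv ℝ S.X u₀ v⟫ / ⟪d, d⟫ := by
    field_simp
  rw [h5] at h4
  exact h4

theorem opr_fderiv {S : Surf} {q a b d : V3} {u₀ : V2} (hu₀ : ‖u₀‖ < 1) (hD : S.X u₀ - q = d)
    (hd : d ≠ 0) (ha : ⟪a, d⟫ = 0) (hb : ⟪b, d⟫ = 0)
    (hbas : ∀ v : V3, ⟪a, v⟫ = 0 → ⟪b, v⟫ = 0 → ∃ t : ℝ, v = t • d)
    (hG : DifferentiableAt ℝ (fun u => opr_P a b d q (S.X u)) u₀) :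
    fderiv ℝ (fun u => opr_P a b d q (S.X u)) u₀ ≠ 0 := by
  intro h0
  have hG' := hG.hasFDerivAt
  rw [h0] at hG'
  have hdd : ⟪d, d⟫ ≠ 0 := by
    rw [real_inner_self_eq_norm_sq]
    have : 0 < ‖d‖ := norm_pos_iff.2 hd
    positivity
  have key : ∀ v : V2, ∃ t : ℝ, fderiv ℝ S.X u₀ v = t • d := by
    intro v
    have hγ : HasDerivAt (fun t : ℝ => u₀ + t • v) v 0 := by
      have := ((hasDerivAt_id (0 : ℝ)).smul_const v).const_add u₀
      simpa using this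
    have hG2 : HasFDerivAt (fun u => opr_P a b d q (S.X u)) (0 : V2 →L[ℝ] V2)
        (u₀ + (0 : ℝ) • v) := by
      rw [zero_smul, add_zero]; exact hG'
    have h1 : HasDerivAt (fun t : ℝ => opr_P a b d q (S.X (u₀ + t • v))) 0 0 := by
      have := hG2.comp_hasDerivAt 0 hγ
      rw [_root_.zero_apply] at this
      exact this
    have h2 : ∀ i : Fin 2, HasDerivAt (fun t : ℝ => opr_P a b d q (S.X (u₀ + t • v)) i) 0 0 := by
      intro i
      have := ((EuclideanSpace.proj (𝕜 := ℝ) i).hasFDerivAt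
        (x := opr_P a b d q (S.X (u₀ + (0 : ℝ) • v)))).comp_hasDerivAt 0 h1
      rw [map_zero] at this
      exact this
    have e0' := h2 0
    have e1' := h2 1
    simp only [opr_P0, opr_P1] at e0' e1'
    have f0 := (opr_deriv (S := S) hD hd ha v).unique e0'
    have f1 := (opr_deriv (S := S) hD hd hb v).unique e1'
    apply hbas
    · rcases div_eq_zero_iff.1 f0 with h | h
      · exact h
      · exact absurd h hdd
    · rcases div_eq_zero_iff.1 f1 with h | h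
      · exact h
      · exact absurd h hdd
  obtain ⟨s, hs⟩ := key e0
  obtain ⟨t, ht⟩ := key e1
  apply S.imm u₀ hu₀.le
  unfold nn
  rw [hs, ht, cr_smul_left, cr_smul_right, cr_self, smul_zero, smul_zero]

theorem opr {S : Surf} {q : V3} (hq : StarAt S q) {u₀ : V2} (hu₀ : ‖u₀‖ < 1) {Y₀ : V3} {τ₀ : ℝ}
    (hτ₀ : 0 < τ₀) (h : q + τ₀ • (Y₀ - q) = S.X u₀) {ε : ℝ} (hε : 0 < ε) :
    ∀ᶠ Y in 𝓝 Y₀, ∃ (u : V2) (τ : ℝ), ‖u - u₀‖ < ε ∧ |τ - τ₀| < ε ∧
      q + τ • (Y - q) = S.X u := by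
  set d : V3 := S.X u₀ - q with hD
  have hd : d ≠ 0 := by
    intro h0
    have : q = S.X u₀ := (sub_eq_zero.1 h0).symm
    exact star_not_mem hq (this ▸ S.mem_Sig hu₀.le)
  obtain ⟨a, b, ha, hb, hbas⟩ := opr_basis hd
  have hdd : 0 < ⟪d, d⟫ := by
    rw [real_inner_self_eq_norm_sq]
    have : 0 < ‖d‖ := norm_pos_iff.2 hd
    positivity
  have hY₀ : Y₀ - q = τ₀⁻¹ • d := by
    have h1 : τ₀ • (Y₀ - q) = d := by rw [hD, ← h, add_sub_cancel_left]
    rw [← h1, smul_smul, inv_mul_cancel₀ hτ₀.ne', one_smul]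
  have hdY : ⟪d, Y₀ - q⟫ = τ₀⁻¹ * ⟪d, d⟫ := by rw [hY₀, real_inner_smul_right]
  have hdYpos : 0 < ⟪d, Y₀ - q⟫ := by rw [hdY]; positivity
  have hXc : Continuous S.X := S.smooth.continuous
  -- the ratio is continuous
  have hF : ContinuousAt (fun p : V2 × V3 => ⟪d, S.X p.1 - q⟫ / ⟪d, p.2 - q⟫) (u₀, Y₀) := by
    apply ContinuousAt.div
    · exact (continuous_const.inner ((hXc.comp continuous_fst).sub continuous_const)).continuousAt
    · exact (continuous_const.inner (continuous_snd.sub continuous_const)).continuousAt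
    · exact hdYpos.ne'
  have hF0 : ⟪d, S.X u₀ - q⟫ / ⟪d, Y₀ - q⟫ = τ₀ := by
    rw [← hD, hdY]
    field_simp
  have hF1 : ∀ᶠ p in 𝓝 (u₀, Y₀), |⟪d, S.X p.1 - q⟫ / ⟪d, p.2 - q⟫ - τ₀| < ε := by
    have := Metric.continuousAt_iff'.1 hF ε hε
    filter_upwards [this] with p hp
    rw [Real.dist_eq, hF0] at hp
    exact hp
  rw [nhds_prod_eq, Filter.eventually_prod_iff] at hF1
  obtain ⟨pa, hpa, pb, hpb, hpab⟩ := hF1
  have hev : ∀ᶠ u in 𝓝 u₀, pa u ∧ ‖u‖ < 1 ∧ 0 < ⟪d, S.X u - q⟫ ∧ ‖u - u₀‖ < ε := by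
    have c1 : ∀ᶠ u in 𝓝 u₀, ‖u‖ < 1 := (continuous_norm.continuousAt).eventually_lt
      continuousAt_const hu₀
    have c2 : ∀ᶠ u in 𝓝 u₀, 0 < ⟪d, S.X u - q⟫ := by
      have hc : Continuous (fun u : V2 => ⟪d, S.X u - q⟫) :=
        continuous_const.inner (hXc.sub continuous_const)
      exact continuousAt_const.eventually_lt hc.continuousAt (by rw [← hD]; exact hdd)
    have c3 : ∀ᶠ u in 𝓝 u₀, ‖u - u₀‖ < ε := by
      have := Metric.ball_mem_nhds u₀ hε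
      filter_upwards [this] with u hu
      rwa [mem_ball, dist_eq_norm] at hu
    exact hpa.and (c1.and (c2.and c3))
  obtain ⟨r, hr, hball⟩ := Metric.eventually_nhds_iff_ball.1 hev
  have hG2 : ContDiffAt ℝ 2 (fun u => opr_P a b d q (S.X u)) u₀ :=
    opr_P_smooth a b d q S.smooth.contDiffAt (by rw [← hD]; exact hdd.ne')
  have hinj : Set.InjOn (fun u => opr_P a b d q (S.X u)) (ball u₀ r) := by
    intro u hu v hv huv
    obtain ⟨-, hu1, hu2, -⟩ := hball u hu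
    obtain ⟨-, hv1, hv2, -⟩ := hball v hv
    have hray := opr_ray hd hbas hu2 hv2 huv
    exact (star_unique hq hu1.le hv1.le (w := S.X v - q) (div_pos hu2 hv2) one_pos hray
      (by rw [one_smul, add_sub_cancel])).2
  have hopm := opm (hG2.of_le (by norm_num))
    (opr_fderiv hu₀ hD.symm hd ha hb hbas (hG2.differentiableAt (by norm_num))) hr hinj hr
  have hP0 : opr_P a b d q Y₀ = opr_P a b d q (S.X u₀) := by
    apply ext2
    · rw [opr_P0, opr_P0, ← hD, hY₀, real_inner_smul_right, ha]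
      simp
    · rw [opr_P1, opr_P1, ← hD, hY₀, real_inner_smul_right, hb]
      simp
  rw [← hP0] at hopm
  have hPc := (opr_P_cont a b d q hdYpos.ne').preimage_mem_nhds hopm
  have hYpos : ∀ᶠ Y in 𝓝 Y₀, 0 < ⟪d, Y - q⟫ := by
    have hc : Continuous (fun Y : V3 => ⟪d, Y - q⟫) :=
      continuous_const.inner (continuous_id.sub continuous_const)
    exact continuousAt_const.eventually_lt hc.continuousAt hdYpos
  filter_upwards [hPc, hYpos, hpb] with Y hY1 hY2 hY3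
  obtain ⟨u, hu, huY⟩ := hY1
  obtain ⟨hu0, hu1, hu2, hu3⟩ := hball u hu
  refine ⟨u, ⟪d, S.X u - q⟫ / ⟪d, Y - q⟫, hu3, hpab hu0 hY3, opr_ray hd hbas hu2 hY2 huY⟩

end Pool.Agent.H99.SC
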