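import Pool.Agent.H99.SC.RAD
import Pool.Agent.H99.SC.CAL

/-!
# PAR: functions with a parameter

`par`: `Φ : ℝ × V2 → ℝ` C^2 at `(φ₀,u₀)`.  Near `(φ₀,u₀)`: `u ↦ Φ (φ,u)` is C^2, its derivative is
`(fderiv Φ (φ,u)).comp (inr ℝ ℝ V2)`, which is C^1 in `(φ,u)`, and its second derivative is
`a ↦ (fderiv (fderiv Φ) (φ,u) (0,a)).comp (inr ..)`, continuous in `(φ,u)`.
(`ContDiffAt.eventually`, `HasFDerivAt.comp` with `u ↦ (φ,u)` whose derivative is `inr`; for the second derivative: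
for fixed `φ` the derivative is equal near `u` to `u' ↦ L (fderiv Φ (φ,u'))`, `L = precomposition with inr`,
`ContinuousLinearMap.compL ..flip`.)
`rad_par`: `rad` of file RAD for `F φ u = Φ (φ,u)`.
-/

set_option autoImplicit false

open scoped RealInnerProductSpace Topology
open Metric Filter Set

noncomputable section

namespace Pool.Agent.H99.SC

/-- precomposition with the inclusion of the second factor -/
def PAR_L : ((ℝ × V2) →L[ℝ] ℝ) →L[ℝ] (V2 →L[ℝ] ℝ) :=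
  (ContinuousLinearMap.compL ℝ V2 (ℝ × V2) ℝ).flip (ContinuousLinearMap.inr ℝ ℝ V2)

theorem PAR_L_apply (A : (ℝ × V2) →L[ℝ] ℝ) :
    PAR_L A = A.comp (ContinuousLinearMap.inr ℝ ℝ V2) := rfl

theorem PAR_fd {Φ : ℝ × V2 → ℝ} {q : ℝ × V2} (h : DifferentiableAt ℝ Φ q) :
    fderiv ℝ (fun u => Φ (q.1, u)) q.2 = PAR_L (fderiv ℝ Φ q) := by
  have h1 : HasFDerivAt (fun u : V2 => (q.1, u)) (ContinuousLinearMap.inr ℝ ℝ V2) q.2 :=
    hasFDerivAt_prodMk_right q.1 q.2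
  have h2 : HasFDerivAt Φ (fderiv ℝ Φ q) (q.1, q.2) := h.hasFDerivAt
  have h3 : HasFDerivAt (fun u => Φ (q.1, u))
      ((fderiv ℝ Φ q).comp (ContinuousLinearMap.inr ℝ ℝ V2)) q.2 :=
    HasFDerivAt.comp (g := Φ) (f := fun u : V2 => (q.1, u)) q.2 h2 h1
  rw [h3.fderiv, PAR_L_apply]

theorem par {Φ : ℝ × V2 → ℝ} {φ₀ : ℝ} {u₀ : V2} (h : ContDiffAt ℝ 2 Φ (φ₀, u₀)) :
    (∀ᶠ q : ℝ × V2 in 𝓝 (φ₀, u₀), ContDiffAt ℝ 2 (fun u => Φ (q.1, u)) q.2) ∧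
    ContinuousAt (fun q : ℝ × V2 => fderiv ℝ (fun u => Φ (q.1, u)) q.2) (φ₀, u₀) ∧
    ContinuousAt (fun q : ℝ × V2 => fderiv ℝ (fderiv ℝ (fun u => Φ (q.1, u))) q.2) (φ₀, u₀) := by
  have hev : ∀ᶠ q : ℝ × V2 in 𝓝 (φ₀, u₀), ContDiffAt ℝ 2 Φ q := h.eventually (by simp)
  have hC1 : ContDiffAt ℝ 1 (fderiv ℝ Φ) (φ₀, u₀) := contDiffAt_fderiv h
  refine ⟨?_, ?_, ?_⟩
  · filter_upwards [hev] with q hq
    have h1 : ContDiffAt ℝ 2 (fun u : V2 => (q.1, u)) q.2 := by fun_prop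
    exact ContDiffAt.comp (g := Φ) (f := fun u : V2 => (q.1, u)) q.2 hq h1
  · have h1 : ContinuousAt (fun q : ℝ × V2 => PAR_L (fderiv ℝ Φ q)) (φ₀, u₀) :=
      PAR_L.continuous.continuousAt.comp hC1.continuousAt
    refine h1.congr ?_
    filter_upwards [hev] with q hq
    exact (PAR_fd (hq.differentiableAt (by norm_num))).symm
  · have h2 : ContinuousAt (fderiv ℝ (fderiv ℝ Φ)) (φ₀, u₀) :=
      hC1.continuousAt_fderiv one_ne_zero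
    have h1 : ContinuousAt (fun q : ℝ × V2 =>
        PAR_L.comp ((fderiv ℝ (fderiv ℝ Φ) q).comp (ContinuousLinearMap.inr ℝ ℝ V2)))
        (φ₀, u₀) :=
      continuousAt_const.clm_comp (h2.clm_comp continuousAt_const)
    refine h1.congr ?_
    filter_upwards [hev.eventually_nhds] with q hq
    have h3 : (fderiv ℝ fun u => Φ (q.1, u)) =ᶠ[𝓝 q.2] fun u => PAR_L (fderiv ℝ Φ (q.1, u)) := by
      have hc : ContinuousAt (fun u : V2 => (q.1, u)) q.2 := by fun_prop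
      have h4 : ∀ᶠ u in 𝓝 q.2, ContDiffAt ℝ 2 Φ (q.1, u) := hc.eventually hq
      filter_upwards [h4] with u hu
      exact PAR_fd (q := (q.1, u)) (hu.differentiableAt (by norm_num))
    have hq0 : ContDiffAt ℝ 2 Φ q := hq.self_of_nhds
    have h5 : HasFDerivAt (fderiv ℝ Φ) (fderiv ℝ (fderiv ℝ Φ) q) (q.1, q.2) :=
      ((contDiffAt_fderiv hq0).differentiableAt one_ne_zero).hasFDerivAt
    have h6 : HasFDerivAt (fun u : V2 => (q.1, u)) (ContinuousLinearMap.inr ℝ ℝ V2) q.2 :=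
      hasFDerivAt_prodMk_right q.1 q.2
    have h7 : HasFDerivAt (fun u => fderiv ℝ Φ (q.1, u))
        ((fderiv ℝ (fderiv ℝ Φ) q).comp (ContinuousLinearMap.inr ℝ ℝ V2)) q.2 :=
      HasFDerivAt.comp (g := fderiv ℝ Φ) (f := fun u : V2 => (q.1, u)) q.2 h5 h6
    have h8 : HasFDerivAt (fun u => PAR_L (fderiv ℝ Φ (q.1, u)))
        (PAR_L.comp ((fderiv ℝ (fderiv ℝ Φ) q).comp (ContinuousLinearMap.inr ℝ ℝ V2))) q.2 :=
      PAR_L.hasFDerivAt.comp q.2 h7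
    rw [h3.fderiv_eq, h8.fderiv]

theorem rad_par {Φ : ℝ × V2 → ℝ} {φ₀ : ℝ} {u₀ : V2} (hu₀ : ‖u₀‖ = 1)
    (h : ContDiffAt ℝ 2 Φ (φ₀, u₀)) (h0 : ∀ᶠ q : ℝ × V2 in 𝓝 (φ₀, u₀), ‖q.2‖ = 1 → Φ q = 0)
    (hr : fderiv ℝ (fun u => Φ (φ₀, u)) u₀ u₀ < 0) :
    ∀ᶠ q : ℝ × V2 in 𝓝 (φ₀, u₀), ‖q.2‖ < 1 → 0 < Φ q := by
  obtain ⟨h1, h2, -⟩ := par h
  have h3 := rad (F := fun φ u => Φ (φ, u)) hu₀
    (h1.mono fun q hq => hq.differentiableAt (by norm_num)) h2 h0 hr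
  filter_upwards [h3] with q hq
  exact hq.1

end Pool.Agent.H99.SC
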