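import Pool.Agent.H99.SC.Defs

/-!
# RAD: sign of a function vanishing on the unit circle

`rad`: `F : ℝ → V2 → ℝ` (a parameter `φ` near `φ₀`), `F φ` differentiable near `u₀` for `φ` near `φ₀`,
the derivative jointly continuous at `(φ₀, u₀)`, `F φ u = 0` for `‖u‖ = 1`, and
`D (F φ₀) u₀ u₀ < 0`.  Then near `(φ₀, u₀)`: `F > 0` inside and `F < 0` outside the unit circle.
Proof: `û = u/‖u‖`; on the segment from `û` to `u` the derivative of `F φ` in the direction `û` is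
`< 0` (joint continuity, `û` close to `u₀`); mean value theorem for `s ↦ F φ (s û)` between `‖u‖` and 1.

`rad1`: the case without parameter.
`radP`: same for a function on the horizontal plane vanishing on the unit circle
(`y ↦ y/|y|`, derivative in the direction `p` negative).
-/

set_option autoImplicit false

open scoped RealInnerProductSpace Topology
open Metric Filter Set

noncomputable section

namespace Pool.Agent.H99.SC

theorem rad {F : ℝ → V2 → ℝ} {φ₀ : ℝ} {u₀ : V2} (hu₀ : ‖u₀‖ = 1)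
    (hd : ∀ᶠ q : ℝ × V2 in 𝓝 (φ₀, u₀), DifferentiableAt ℝ (F q.1) q.2)
    (hc : ContinuousAt (fun q : ℝ × V2 => fderiv ℝ (F q.1) q.2) (φ₀, u₀))
    (h0 : ∀ᶠ q : ℝ × V2 in 𝓝 (φ₀, u₀), ‖q.2‖ = 1 → F q.1 q.2 = 0)
    (hr : fderiv ℝ (F φ₀) u₀ u₀ < 0) :
    ∀ᶠ q : ℝ × V2 in 𝓝 (φ₀, u₀), (‖q.2‖ < 1 → 0 < F q.1 q.2) ∧ (1 < ‖q.2‖ → F q.1 q.2 < 0) := by
  have hc2 : ContinuousAt (fun p : (ℝ × V2) × V2 => fderiv ℝ (F p.1.1) p.1.2 p.2)
      ((φ₀, u₀), u₀) := by
    have h1 : ContinuousAt (fun p : (ℝ × V2) × V2 => fderiv ℝ (F p.1.1) p.1.2)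
        ((φ₀, u₀), u₀) := ContinuousAt.comp (g := fun q : ℝ × V2 => fderiv ℝ (F q.1) q.2)
          (f := fun p : (ℝ × V2) × V2 => p.1) hc continuousAt_fst
    exact h1.clm_apply continuousAt_snd
  have hev : ∀ᶠ p : (ℝ × V2) × V2 in 𝓝 ((φ₀, u₀), u₀), fderiv ℝ (F p.1.1) p.1.2 p.2 < 0 :=
    hc2.eventually (gt_mem_nhds hr)
  obtain ⟨δ1, hδ1, h1⟩ := Metric.eventually_nhds_iff.1 hev
  obtain ⟨δ2, hδ2, h2⟩ := Metric.eventually_nhds_iff.1 (hd.and h0)
  set δ : ℝ := min (min δ1 δ2) 1 with hδ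
  have hδ0 : 0 < δ := by positivity
  have hδa : δ ≤ δ1 := (min_le_left _ _).trans (min_le_left _ _)
  have hδb : δ ≤ δ2 := (min_le_left _ _).trans (min_le_right _ _)
  have hδc : δ ≤ 1 := min_le_right _ _
  have hneg : ∀ φ : ℝ, ∀ v w : V2, |φ - φ₀| < δ → ‖v - u₀‖ < δ → ‖w - u₀‖ < δ →
      fderiv ℝ (F φ) v w < 0 := by
    intro φ v w ha hb hc
    refine h1 (y := ((φ, v), w)) ?_
    rw [Prod.dist_eq, Prod.dist_eq, Real.dist_eq, dist_eq_norm, dist_eq_norm]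
    exact max_lt (max_lt (ha.trans_le hδa) (hb.trans_le hδa)) (hc.trans_le hδa)
  have hdiff : ∀ φ : ℝ, ∀ v : V2, |φ - φ₀| < δ → ‖v - u₀‖ < δ →
      DifferentiableAt ℝ (F φ) v ∧ (‖v‖ = 1 → F φ v = 0) := by
    intro φ v ha hb
    refine h2 (y := (φ, v)) ?_
    rw [Prod.dist_eq, Real.dist_eq, dist_eq_norm]
    exact max_lt (ha.trans_le hδb) (hb.trans_le hδb)
  have hmain : ∀ φ : ℝ, ∀ u : V2, |φ - φ₀| < δ / 4 → ‖u - u₀‖ < δ / 4 →
      (‖u‖ < 1 → 0 < F φ u) ∧ (1 < ‖u‖ → F φ u < 0) := by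
    intro φ u hφ hu
    have hun : |‖u‖ - 1| < δ / 4 := by
      rw [← hu₀]
      exact (abs_norm_sub_norm_le _ _).trans_lt hu
    have hun' := abs_lt.1 hun
    have hupos : 0 < ‖u‖ := by linarith
    set v : V2 := ‖u‖⁻¹ • u with hv
    have huv : ‖u‖ • v = u := by
      rw [hv, smul_smul, mul_inv_cancel₀ hupos.ne', one_smul]
    have hvn : ‖v‖ = 1 := by
      rw [hv, norm_smul, norm_inv, norm_norm, inv_mul_cancel₀ hupos.ne']
    have hvu : ‖v - u₀‖ < δ / 2 := by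
      have e : v - u₀ = (1 - ‖u‖) • v + (u - u₀) := by
        rw [sub_smul, one_smul, huv]
        abel
      rw [e]
      refine (norm_add_le _ _).trans_lt ?_
      rw [norm_smul, hvn, mul_one, Real.norm_eq_abs, abs_sub_comm]
      linarith
    have hsv : ∀ s ∈ Icc (1 - δ / 4) (1 + δ / 4), ‖s • v - u₀‖ < δ := by
      intro s hs
      have e : s • v - u₀ = (s - 1) • v + (v - u₀) := by
        rw [sub_smul, one_smul]
        abel
      rw [e]
      refine (norm_add_le _ _).trans_lt ?_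
      rw [norm_smul, hvn, mul_one, Real.norm_eq_abs]
      have : |s - 1| ≤ δ / 4 := abs_le.2 ⟨by linarith [hs.1], by linarith [hs.2]⟩
      linarith
    have hφ' : |φ - φ₀| < δ := by linarith
    have hder : ∀ s ∈ Icc (1 - δ / 4) (1 + δ / 4),
        HasDerivAt (fun s : ℝ => F φ (s • v)) (fderiv ℝ (F φ) (s • v) v) s := by
      intro s hs
      have hline : HasDerivAt (fun s : ℝ => s • v) v s := by
        simpa using (hasDerivAt_id s).smul_const v
      exact (hdiff φ _ hφ' (hsv s hs)).1.hasFDerivAt.comp_hasDerivAt s hline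
    have hanti : StrictAntiOn (fun s : ℝ => F φ (s • v)) (Icc (1 - δ / 4) (1 + δ / 4)) := by
      refine strictAntiOn_of_deriv_neg (convex_Icc _ _)
        (fun s hs => (hder s hs).continuousAt.continuousWithinAt) fun s hs => ?_
      rw [interior_Icc] at hs
      have hs' : s ∈ Icc (1 - δ / 4) (1 + δ / 4) := ⟨hs.1.le, hs.2.le⟩
      rw [(hder s hs').deriv]
      exact hneg φ _ _ hφ' (hsv s hs') (by linarith)
    have hone : (1 : ℝ) ∈ Icc (1 - δ / 4) (1 + δ / 4) := ⟨by linarith, by linarith⟩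
    have hnmem : ‖u‖ ∈ Icc (1 - δ / 4) (1 + δ / 4) := ⟨by linarith, by linarith⟩
    have hF1 : F φ ((1 : ℝ) • v) = 0 := by
      rw [one_smul]
      exact (hdiff φ v hφ' (by linarith)).2 hvn
    constructor
    · intro h
      have := hanti hnmem hone h
      simp only [huv] at this
      rw [hF1] at this
      exact this
    · intro h
      have := hanti hone hnmem h
      simp only [huv] at this
      rw [hF1] at this
      exact this
  rw [Metric.eventually_nhds_iff]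
  refine ⟨δ / 4, by positivity, fun {q} hq => ?_⟩
  rw [Prod.dist_eq, Real.dist_eq, dist_eq_norm] at hq
  exact hmain q.1 q.2 (lt_of_le_of_lt (le_max_left _ _) hq) (lt_of_le_of_lt (le_max_right _ _) hq)

theorem rad1 {F : V2 → ℝ} {u₀ : V2} (hu₀ : ‖u₀‖ = 1) (hF : ContDiffAt ℝ 1 F u₀)
    (h0 : ∀ᶠ u in 𝓝 u₀, ‖u‖ = 1 → F u = 0) (hr : fderiv ℝ F u₀ u₀ < 0) :
    ∀ᶠ u in 𝓝 u₀, (‖u‖ < 1 → 0 < F u) ∧ (1 < ‖u‖ → F u < 0) := by
  have hsnd : Tendsto (fun q : ℝ × V2 => q.2) (𝓝 ((0 : ℝ), u₀)) (𝓝 u₀) := continuousAt_snd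
  have h1 : ∀ᶠ u in 𝓝 u₀, DifferentiableAt ℝ F u := by
    filter_upwards [hF.eventually (by simp)] with u hu
    exact hu.differentiableAt (by norm_num)
  have h2 : ContinuousAt (fderiv ℝ F) u₀ :=
    (hF.fderiv_right (m := 0) (by norm_num)).continuousAt
  have key := rad (F := fun _ => F) (φ₀ := 0) hu₀ (hsnd.eventually h1)
    (ContinuousAt.comp (g := fderiv ℝ F) (f := fun q : ℝ × V2 => q.2) h2 continuousAt_snd)
    (hsnd.eventually h0) hr
  have hin : Tendsto (fun u : V2 => ((0 : ℝ), u)) (𝓝 u₀) (𝓝 ((0 : ℝ), u₀)) :=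
    Continuous.tendsto (by fun_prop) _
  exact hin.eventually key

/-- the inclusion of the horizontal plane -/
def RAD_L : V2 →L[ℝ] V3 :=
  (EuclideanSpace.proj (0 : Fin 2)).smulRight (EuclideanSpace.single 0 1 : V3) +
    (EuclideanSpace.proj (1 : Fin 2)).smulRight (EuclideanSpace.single 1 1 : V3)

theorem RAD_L_0 (u : V2) : (RAD_L u) 0 = u 0 := by simp [RAD_L]
theorem RAD_L_1 (u : V2) : (RAD_L u) 1 = u 1 := by simp [RAD_L]
theorem RAD_L_2 (u : V2) : (RAD_L u) 2 = 0 := by simp [RAD_L]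

theorem radP {f : V3 → ℝ} {p : V3} (h2 : p 2 = 0) (h1 : p 0 ^ 2 + p 1 ^ 2 = 1)
    (hf : ContDiffAt ℝ 1 f p)
    (h0 : ∀ᶠ y in 𝓝 p, y 2 = 0 → y 0 ^ 2 + y 1 ^ 2 = 1 → f y = 0) (hr : fderiv ℝ f p p < 0) :
    ∀ᶠ y in 𝓝 p, y 2 = 0 → (y 0 ^ 2 + y 1 ^ 2 < 1 → 0 < f y) ∧
      (1 < y 0 ^ 2 + y 1 ^ 2 → f y < 0) := by
  set P : V3 → V2 := fun y => !₂[y 0, y 1] with hP
  have hP0 : ∀ y, P y 0 = y 0 := fun y => by simp [hP]
  have hP1 : ∀ y, P y 1 = y 1 := fun y => by simp [hP]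
  have hPc : Continuous P := by
    simp only [hP]
    fun_prop
  have hLP : ∀ y : V3, y 2 = 0 → RAD_L (P y) = y := by
    intro y hy
    apply ext3
    · rw [RAD_L_0, hP0]
    · rw [RAD_L_1, hP1]
    · rw [RAD_L_2, hy]
  have hnorm : ∀ y : V3, ‖P y‖ ^ 2 = y 0 ^ 2 + y 1 ^ 2 := fun y => by rw [nsq2, hP0, hP1]
  have hLp : RAD_L (P p) = p := hLP p h2
  have hu₀ : ‖P p‖ = 1 := by
    have := hnorm p
    rw [h1] at this
    nlinarith [norm_nonneg (P p)]
  have hf' : ContDiffAt ℝ 1 f (RAD_L (P p)) := by rwa [hLp]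
  have hF : ContDiffAt ℝ 1 (fun u => f (RAD_L u)) (P p) :=
    hf'.comp (P p) RAD_L.contDiff.contDiffAt
  have hLc : Tendsto RAD_L (𝓝 (P p)) (𝓝 p) := by
    have := RAD_L.continuous.tendsto (P p)
    rwa [hLp] at this
  have hder : fderiv ℝ (fun u => f (RAD_L u)) (P p) (P p) = fderiv ℝ f p p := by
    have e1 : HasFDerivAt (fun u => f (RAD_L u)) ((fderiv ℝ f (RAD_L (P p))).comp RAD_L) (P p) :=
      (hf'.differentiableAt (by norm_num)).hasFDerivAt.comp (P p) RAD_L.hasFDerivAt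
    rw [e1.fderiv, ContinuousLinearMap.comp_apply, hLp]
  have key := rad1 (F := fun u => f (RAD_L u)) hu₀ hF (by
    filter_upwards [hLc.eventually h0] with u hu hu1
    refine hu (RAD_L_2 u) ?_
    rw [RAD_L_0, RAD_L_1, ← nsq2, hu1]
    norm_num) (by rw [hder]; exact hr)
  have hPt : Tendsto P (𝓝 p) (𝓝 (P p)) := hPc.tendsto p
  filter_upwards [hPt.eventually key] with y hy hy2
  have e := hLP y hy2
  simp only [e] at hy
  have hn := hnorm y
  constructor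
  · intro h
    refine hy.1 ?_
    rw [← hn] at h
    nlinarith [norm_nonneg (P y)]
  · intro h
    refine hy.2 ?_
    rw [← hn] at h
    nlinarith [norm_nonneg (P y)]

end Pool.Agent.H99.SC
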