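import Pool.Agent.H99.SC.PAR

/-!
# RAD2: double mean value in polar coordinates

`Φ` C^2 and `Γ` C^2 at `(φ₀,u₀)`, `‖u₀‖ = 1`; near `(φ₀,u₀)`: `Φ = 0` where `‖u‖ = 1` and where `Γ = 0`.
`Γ (φ₀,u₀) = 0`, the derivative of `Φ (φ₀,·)` at `u₀` is 0, and
`D(Γ(φ₀,·))(u₀)(rot u₀) * D2 (Φ(φ₀,·)) u₀ u₀ (rot u₀) < 0`.  Then near `(φ₀,u₀)`: `‖u‖ < 1` and `Γ > 0` imply `Φ > 0`.
Proof.  `u₀ = cu ψ₀` (`exists_cu`, file SF; or take `ψ₀` from `u₀`), `W(φ,r,ψ) = Φ(φ, r cu ψ)`, `G(φ,r,ψ) = Γ(φ, r cu ψ)`.  Derivatives: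
`∂_ψ W = D(Φ(φ,·))(r cu ψ)(r rot (cu ψ))`,
`∂_r ∂_ψ W = D2 (Φ(φ,·)) (r cu ψ) (cu ψ) (r rot (cu ψ)) + D(Φ(φ,·))(r cu ψ)(rot (cu ψ))`, equal to
`D2 (Φ(φ₀,·)) u₀ u₀ (rot u₀)` at `(φ₀,1,ψ₀)`, hence of that sign near it (`par`).  `∂_ψ G` has the sign `s` of
`D(Γ(φ₀,·))(u₀)(rot u₀)` near it, and `|∂_ψ G| ≥ c > 0`.
Let `q = (φ,u)` near `(φ₀,u₀)`, `u = r cu ψ`, `r < 1`, `ψ` near `ψ₀`, `G(φ,r,ψ) > 0`.  Since `G(φ,r,ψ)` is
small and `|∂_ψ G| ≥ c` there is `ψ' ` near `ψ` with `G(φ,r,ψ') = 0` (intermediate value), and `s (ψ - ψ') > 0`.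
`W(φ,r,ψ') = 0`.  Mean value: `W(φ,r,ψ) = (ψ - ψ') ∂_ψ W(φ,r,ξ)`, and `∂_ψ W(φ,1,ξ) = 0` (`W(φ,1,·) = 0`), so
`∂_ψ W(φ,r,ξ) = (r - 1) ∂_r ∂_ψ W(φ,ρ,ξ)`.  So `W(φ,r,ψ) = (ψ-ψ')(r-1) ∂_r∂_ψ W`, with sign
`s · (-1) · sign(∂_r∂_ψ W) = +1`.
(Angle of `u` near `u₀`: `ψ = ψ₀ + arctan`-type function, or `Complex.arg`; simplest: for `u` near `u₀` there
is `ψ` near `ψ₀` with `u = ‖u‖ cu ψ`: `ψ = ψ₀ + arcsin (⟪u, rot u₀⟫/‖u‖)`.)
-/

set_option autoImplicit false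

open scoped RealInnerProductSpace Topology
open Metric Filter Set

noncomputable section

namespace Pool.Agent.H99.SC

/-- `rot` as a continuous linear map -/
def RAD2_R : V2 →L[ℝ] V2 :=
  (EuclideanSpace.proj (0 : Fin 2) : V2 →L[ℝ] ℝ).smulRight e1 -
    (EuclideanSpace.proj (1 : Fin 2) : V2 →L[ℝ] ℝ).smulRight e0

theorem RAD2_R_apply (u : V2) : RAD2_R u = rot u := by
  apply ext2 <;> simp [RAD2_R]

theorem RAD2_cu (θ : ℝ) : cu θ = Real.cos θ • e0 + Real.sin θ • e1 := by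
  apply ext2 <;> simp

theorem RAD2_hasDerivAt_cu (θ : ℝ) : HasDerivAt cu (rot (cu θ)) θ := by
  have h : HasDerivAt (fun θ : ℝ => Real.cos θ • e0 + Real.sin θ • e1)
      ((-Real.sin θ) • e0 + Real.cos θ • e1) θ :=
    ((Real.hasDerivAt_cos θ).smul_const e0).add ((Real.hasDerivAt_sin θ).smul_const e1)
  have h1 : cu = fun θ : ℝ => Real.cos θ • e0 + Real.sin θ • e1 := funext RAD2_cu
  have h2 : rot (cu θ) = (-Real.sin θ) • e0 + Real.cos θ • e1 := by apply ext2 <;> simp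
  rw [h2, h1]
  exact h

theorem RAD2_norm_cu (θ : ℝ) : ‖cu θ‖ = 1 := by
  have h := nsq2 (cu θ)
  rw [cu_0, cu_1, Real.cos_sq_add_sin_sq] at h
  nlinarith [norm_nonneg (cu θ)]

theorem RAD2_exists_cu {u : V2} (hu : ‖u‖ = 1) : ∃ ψ, cu ψ = u := by
  have h := nsq2 u
  rw [hu] at h
  set z : ℂ := ⟨u 0, u 1⟩ with hz0
  have hz : ‖z‖ = 1 := by
    have h1 := Complex.sq_norm z
    rw [Complex.normSq_apply] at h1
    have h2 : ‖z‖ ^ 2 = 1 := by rw [h1]; simp only [hz0]; nlinarith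
    nlinarith [norm_nonneg z]
  refine ⟨Complex.arg z, ?_⟩
  have hc := Complex.norm_mul_cos_arg z
  have hs := Complex.norm_mul_sin_arg z
  rw [hz, one_mul] at hc hs
  apply ext2
  · rw [cu_0, hc]
  · rw [cu_1, hs]

/-- the one-dimensional argument -/
theorem RAD2_one {G W G' W' : ℝ → ℝ} {T c : ℝ} (hT : 0 < T)
    (hG : ∀ t ∈ Icc 0 T, HasDerivAt G (G' t) t ∧ G' t ≤ -c)
    (hW : ∀ t ∈ Icc 0 T, HasDerivAt W (W' t) t ∧ W' t < 0)
    (h0 : ∀ t ∈ Icc 0 T, G t = 0 → W t = 0) (hG0 : 0 < G 0) (hGs : G 0 < c * T) : 0 < W 0 := by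
  have m0 : (0 : ℝ) ∈ Icc 0 T := ⟨le_rfl, hT.le⟩
  have mT : T ∈ Icc 0 T := ⟨hT.le, le_rfl⟩
  have hanti : AntitoneOn (fun t => G t + c * t) (Icc 0 T) := by
    refine antitoneOn_of_deriv_nonpos (convex_Icc _ _) ?_ ?_ ?_
    · intro t ht
      exact ((hG t ht).1.continuousAt.add (by fun_prop)).continuousWithinAt
    · intro t ht
      rw [interior_Icc] at ht
      exact ((hG t ⟨ht.1.le, ht.2.le⟩).1.differentiableAt.add
        (by fun_prop)).differentiableWithinAt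
    · intro t ht
      rw [interior_Icc] at ht
      obtain ⟨h1, h2⟩ := hG t ⟨ht.1.le, ht.2.le⟩
      have h3 : HasDerivAt (fun t => G t + c * t) (G' t + c * 1) t :=
        h1.add ((hasDerivAt_id t).const_mul c)
      rw [h3.deriv]
      linarith
  have hGT : G T < 0 := by
    have := hanti m0 mT hT.le
    simp only [mul_zero, add_zero] at this
    linarith
  have hGc : ContinuousOn G (Icc 0 T) := fun t ht => (hG t ht).1.continuousAt.continuousWithinAt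
  obtain ⟨t, ht, ht0⟩ := intermediate_value_Icc' hT.le hGc ⟨hGT.le, hG0.le⟩
  have ht1 : 0 < t := by
    rcases eq_or_lt_of_le ht.1 with h | h
    · rw [← h] at ht0
      linarith
    · exact h
  have hWa : StrictAntiOn W (Icc 0 T) := by
    refine strictAntiOn_of_deriv_neg (convex_Icc _ _)
      (fun s hs => (hW s hs).1.continuousAt.continuousWithinAt) fun s hs => ?_
    rw [interior_Icc] at hs
    obtain ⟨h1, h2⟩ := hW s ⟨hs.1.le, hs.2.le⟩
    rw [h1.deriv]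
    exact h2
  have := hWa m0 ht ht1
  rw [h0 t ht ht0] at this
  exact this

theorem exists_polar {u₀ : V2} {ψ₀ : ℝ} (h : cu ψ₀ = u₀) {ε : ℝ} (hε : 0 < ε) :
    ∀ᶠ u in 𝓝 u₀, ∃ ψ : ℝ, |ψ - ψ₀| < ε ∧ u = ‖u‖ • cu ψ := by
  set a : V2 → ℂ := fun u => ⟨u 0 * Real.cos ψ₀ + u 1 * Real.sin ψ₀,
    u 1 * Real.cos ψ₀ - u 0 * Real.sin ψ₀⟩ with ha
  have ha0 : a u₀ = 1 := by
    rw [← h]
    apply Complex.ext
    · simp only [ha, cu_0, cu_1, Complex.one_re]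
      nlinarith [Real.cos_sq_add_sin_sq ψ₀]
    · simp only [ha, cu_0, cu_1, Complex.one_im]
      ring
  have hac : Continuous a := by
    have h1 : a = fun u : V2 => ((u 0 * Real.cos ψ₀ + u 1 * Real.sin ψ₀ : ℝ) : ℂ) +
        ((u 1 * Real.cos ψ₀ - u 0 * Real.sin ψ₀ : ℝ) : ℂ) * Complex.I := by
      funext u
      apply Complex.ext
      · simp only [ha, Complex.add_re, Complex.ofReal_re, Complex.re_ofReal_mul, Complex.I_re,
          mul_zero, add_zero]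
      · simp only [ha, Complex.add_im, Complex.ofReal_im, Complex.im_ofReal_mul, Complex.I_im,
          mul_one, zero_add]
    rw [h1]
    fun_prop
  have harg : ContinuousAt (fun u => Complex.arg (a u)) u₀ := by
    refine ContinuousAt.comp (g := Complex.arg) (f := a) ?_ hac.continuousAt
    rw [ha0]
    exact Complex.continuousAt_arg (by simp)
  have hev : ∀ᶠ u in 𝓝 u₀, |Complex.arg (a u)| < ε := by
    have h1 : ContinuousAt (fun u => |Complex.arg (a u)|) u₀ := harg.abs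
    refine h1.eventually_lt_const ?_
    show |(a u₀).arg| < ε
    rw [ha0]
    simpa using hε
  filter_upwards [hev] with u hu
  refine ⟨ψ₀ + Complex.arg (a u), by simpa using hu, ?_⟩
  have hn : ‖a u‖ = ‖u‖ := by
    have h1 := Complex.sq_norm (a u)
    rw [Complex.normSq_apply] at h1
    have h2 := nsq2 u
    have h3 : ‖a u‖ ^ 2 = ‖u‖ ^ 2 := by
      rw [h1, h2]
      simp only [ha]
      linear_combination (u 0 ^ 2 + u 1 ^ 2) * Real.cos_sq_add_sin_sq ψ₀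
    exact (sq_eq_sq₀ (norm_nonneg _) (norm_nonneg _)).1 h3
  have hc := Complex.norm_mul_cos_arg (a u)
  have hs := Complex.norm_mul_sin_arg (a u)
  rw [hn] at hc hs
  simp only [ha] at hc hs
  apply ext2
  · simp only [PiLp.smul_apply, cu_0, smul_eq_mul, Real.cos_add]
    linear_combination (-Real.cos ψ₀) * hc + Real.sin ψ₀ * hs - (u 0) * Real.cos_sq_add_sin_sq ψ₀
  · simp only [PiLp.smul_apply, cu_1, smul_eq_mul, Real.sin_add]
    linear_combination (-Real.sin ψ₀) * hc - Real.cos ψ₀ * hs - (u 1) * Real.cos_sq_add_sin_sq ψ₀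

theorem RAD2_comp {f : V2 → ℝ} {v : ℝ → V2} {v' : V2} {t : ℝ} (hf : DifferentiableAt ℝ f (v t))
    (hv : HasDerivAt v v' t) : HasDerivAt (fun s => f (v s)) (fderiv ℝ f (v t) v') t :=
  hf.hasFDerivAt.comp_hasDerivAt t hv

theorem rad2 {Φ Γ : ℝ × V2 → ℝ} {φ₀ : ℝ} {u₀ : V2} (hu₀ : ‖u₀‖ = 1)
    (hΦ : ContDiffAt ℝ 2 Φ (φ₀, u₀)) (hΓ : ContDiffAt ℝ 2 Γ (φ₀, u₀))
    (h1 : ∀ᶠ q : ℝ × V2 in 𝓝 (φ₀, u₀), ‖q.2‖ = 1 → Φ q = 0)
    (h2 : ∀ᶠ q : ℝ × V2 in 𝓝 (φ₀, u₀), Γ q = 0 → Φ q = 0)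
    (hΓ0 : Γ (φ₀, u₀) = 0) (hD : fderiv ℝ (fun u => Φ (φ₀, u)) u₀ = 0)
    (hs : fderiv ℝ (fun u => Γ (φ₀, u)) u₀ (rot u₀)
      * D2 (fun u => Φ (φ₀, u)) u₀ u₀ (rot u₀) < 0) :
    ∀ᶠ q : ℝ × V2 in 𝓝 (φ₀, u₀), ‖q.2‖ < 1 → 0 < Γ q → 0 < Φ q := by
  obtain ⟨pΦ1, pΦ2, pΦ3⟩ := par hΦ
  obtain ⟨pΓ1, pΓ2, -⟩ := par hΓ
  set s : ℝ := fderiv ℝ (fun u => Γ (φ₀, u)) u₀ (rot u₀) with hsdef
  set κ : ℝ := D2 (fun u => Φ (φ₀, u)) u₀ u₀ (rot u₀) with hκ
  have hs0 : s ≠ 0 := by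
    intro h
    rw [h, zero_mul] at hs
    exact lt_irrefl _ hs
  obtain ⟨ψ₀, hψ₀⟩ := RAD2_exists_cu hu₀
  -- the angular derivative of `Φ`
  set F : ℝ → V2 → ℝ := fun φ u => s * fderiv ℝ (fun v => Φ (φ, v)) u (RAD2_R u) with hF
  have hFd : ∀ φ u, ContDiffAt ℝ 2 (fun v => Φ (φ, v)) u →
      HasFDerivAt (F φ) (s • ((fderiv ℝ (fun v => Φ (φ, v)) u).comp RAD2_R +
        (fderiv ℝ (fderiv ℝ (fun v => Φ (φ, v))) u).flip (RAD2_R u))) u := by
    intro φ u hu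
    have d1 : HasFDerivAt (fderiv ℝ (fun v => Φ (φ, v)))
        (fderiv ℝ (fderiv ℝ (fun v => Φ (φ, v))) u) u :=
      ((hu.fderiv_right (m := 1) (by norm_num)).differentiableAt (by norm_num)).hasFDerivAt
    exact (d1.clm_apply RAD2_R.hasFDerivAt).const_mul s
  have key1 : ∀ᶠ q : ℝ × V2 in 𝓝 (φ₀, u₀), (‖q.2‖ < 1 → 0 < F q.1 q.2) ∧
      (1 < ‖q.2‖ → F q.1 q.2 < 0) := by
    refine rad hu₀ ?_ ?_ ?_ ?_
    · filter_upwards [pΦ1] with q hq
      exact (hFd q.1 q.2 hq).differentiableAt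
    · have c1 : ContinuousAt (fun q : ℝ × V2 =>
          s • ((fderiv ℝ (fun v => Φ (q.1, v)) q.2).comp RAD2_R +
            (fderiv ℝ (fderiv ℝ (fun v => Φ (q.1, v))) q.2).flip (RAD2_R q.2))) (φ₀, u₀) := by
        have c2 : ContinuousAt (fun q : ℝ × V2 => (fderiv ℝ (fun v => Φ (q.1, v)) q.2).comp RAD2_R)
            (φ₀, u₀) := pΦ2.clm_comp continuousAt_const
        have c3 : ContinuousAt (fun q : ℝ × V2 =>
            (fderiv ℝ (fderiv ℝ (fun v => Φ (q.1, v))) q.2).flip) (φ₀, u₀) :=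
          ((ContinuousLinearMap.flipₗᵢ ℝ V2 V2 ℝ).continuous.continuousAt).comp pΦ3
        have c4 : ContinuousAt (fun q : ℝ × V2 => RAD2_R q.2) (φ₀, u₀) := by fun_prop
        exact (c2.add (c3.clm_apply c4)).const_smul s
      refine c1.congr ?_
      filter_upwards [pΦ1] with q hq
      exact (hFd q.1 q.2 hq).fderiv.symm
    · filter_upwards [pΦ1, h1.eventually_nhds] with q hq hq1 hq2
      obtain ⟨θ, hθ⟩ := RAD2_exists_cu hq2
      have hcu : HasDerivAt cu (RAD2_R q.2) θ := by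
        rw [RAD2_R_apply, ← hθ]
        exact RAD2_hasDerivAt_cu θ
      have d1 : HasDerivAt (fun t => Φ (q.1, cu t)) (fderiv ℝ (fun v => Φ (q.1, v)) q.2 (RAD2_R q.2))
          θ := by
        have hd : DifferentiableAt ℝ (fun v => Φ (q.1, v)) (cu θ) := by
          rw [hθ]
          exact hq.differentiableAt (by norm_num)
        have := RAD2_comp hd hcu
        rwa [hθ] at this
      have d2 : HasDerivAt (fun t => Φ (q.1, cu t)) 0 θ := by
        refine (hasDerivAt_const θ (0 : ℝ)).congr_of_eventuallyEq ?_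
        have hc : Tendsto (fun t => (q.1, cu t)) (𝓝 θ) (𝓝 q) := by
          have h3 : ContinuousAt (fun t => (q.1, cu t)) θ :=
            continuousAt_const.prodMk hcu.continuousAt
          have h4 : (q.1, cu θ) = q := by rw [hθ]
          rw [ContinuousAt, h4] at h3
          exact h3
        filter_upwards [hc.eventually hq1] with t ht
        exact ht (RAD2_norm_cu t)
      have := d1.unique d2
      simp only [hF, this, mul_zero]
    · have h3 : ContDiffAt ℝ 2 (fun v => Φ (φ₀, v)) u₀ := pΦ1.self_of_nhds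
      rw [(hFd φ₀ u₀ h3).fderiv, hD]
      simp only [ContinuousLinearMap.zero_comp, zero_add, smul_apply,
        ContinuousLinearMap.flip_apply, smul_eq_mul, RAD2_R_apply]
      exact hs
  -- the angular derivative of `Γ`
  have hsg : 0 < s * s := mul_self_pos.2 hs0
  have key2 : ∀ᶠ q : ℝ × V2 in 𝓝 (φ₀, u₀),
      s * s / 2 < s * fderiv ℝ (fun v => Γ (q.1, v)) q.2 (RAD2_R q.2) := by
    have c1 : ContinuousAt (fun q : ℝ × V2 =>
        s * fderiv ℝ (fun v => Γ (q.1, v)) q.2 (RAD2_R q.2)) (φ₀, u₀) := by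
      have c4 : ContinuousAt (fun q : ℝ × V2 => RAD2_R q.2) (φ₀, u₀) := by fun_prop
      exact (pΓ2.clm_apply c4).const_mul s
    refine c1.eventually_const_lt ?_
    show s * s / 2 < s * fderiv ℝ (fun v => Γ (φ₀, v)) u₀ (RAD2_R u₀)
    rw [RAD2_R_apply, ← hsdef]
    linarith
  obtain ⟨δ, hδ, hball⟩ := Metric.eventually_nhds_iff.1
    ((key1.and key2).and ((pΦ1.and pΓ1).and h2))
  have hcont : ContinuousAt (fun p : ℝ × ℝ => p.1 • cu p.2) (1, ψ₀) := by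
    have hc : ContinuousAt (fun p : ℝ × ℝ => cu p.2) (1, ψ₀) :=
      ContinuousAt.comp (g := cu) (f := fun p : ℝ × ℝ => p.2)
        (RAD2_hasDerivAt_cu ψ₀).continuousAt continuousAt_snd
    exact continuousAt_fst.smul hc
  obtain ⟨η, hη, hη2⟩ := Metric.continuousAt_iff.1 hcont δ hδ
  simp only [one_smul, hψ₀] at hη2
  have hsabs : 0 < |s| := abs_pos.2 hs0
  set T : ℝ := η / (2 * |s|) with hT
  have hT0 : 0 < T := by positivity
  have hsT : |s| * T = η / 2 := by rw [hT]; field_simp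
  have hΓc : ∀ᶠ q : ℝ × V2 in 𝓝 (φ₀, u₀), Γ q < s * s / 2 * T := by
    refine hΓ.continuousAt.eventually_lt_const ?_
    rw [hΓ0]
    positivity
  have hsnd : Tendsto (fun q : ℝ × V2 => q.2) (𝓝 (φ₀, u₀)) (𝓝 u₀) := continuousAt_snd
  have hfst : Tendsto (fun q : ℝ × V2 => q.1) (𝓝 (φ₀, u₀)) (𝓝 φ₀) := continuousAt_fst
  have hpol := hsnd.eventually (exists_polar hψ₀ (ε := η / 2) (by positivity))
  have hφ : ∀ᶠ q : ℝ × V2 in 𝓝 (φ₀, u₀), dist q.1 φ₀ < δ :=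
    hfst.eventually (Metric.ball_mem_nhds φ₀ hδ)
  have hnorm : ∀ᶠ q : ℝ × V2 in 𝓝 (φ₀, u₀), |‖q.2‖ - 1| < η := by
    have h3 : Tendsto (fun u : V2 => |‖u‖ - 1|) (𝓝 u₀) (𝓝 0) := by
      have h4 : ContinuousAt (fun u : V2 => |‖u‖ - 1|) u₀ := by fun_prop
      simpa [ContinuousAt, hu₀] using h4
    exact (h3.comp hsnd).eventually_lt_const hη
  filter_upwards [hΓc, hpol, hφ, hnorm] with q q1 q2 q3 q4 q5 q6
  obtain ⟨ψ, hψ, hu⟩ := q2
  -- the arc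
  set v : ℝ → V2 := fun t => ‖q.2‖ • cu (ψ - s * t) with hv
  have hv0 : v 0 = q.2 := by
    simp only [hv, mul_zero, sub_zero]
    exact hu.symm
  have hvn : ∀ t, ‖v t‖ = ‖q.2‖ := by
    intro t
    simp only [hv, norm_smul, RAD2_norm_cu, mul_one, norm_norm]
  have hvd : ∀ t, HasDerivAt v (-s • RAD2_R (v t)) t := by
    intro t
    have d1 : HasDerivAt (fun t : ℝ => ψ - s * t) (-(s * 1)) t :=
      ((hasDerivAt_id t).const_mul s).const_sub ψ
    have d2 := (HasDerivAt.scomp t (RAD2_hasDerivAt_cu (ψ - s * t)) d1).const_smul ‖q.2‖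
    have d3 : ‖q.2‖ • (-(s * 1)) • rot (cu (ψ - s * t)) = -s • RAD2_R (v t) := by
      simp only [hv, map_smul, RAD2_R_apply, mul_one]
      rw [smul_comm]
    rw [d3] at d2
    exact d2
  have hvδ : ∀ t ∈ Icc 0 T, dist (q.1, v t) (φ₀, u₀) < δ := by
    intro t ht
    rw [Prod.dist_eq]
    refine max_lt q3 ?_
    refine hη2 (x := (‖q.2‖, ψ - s * t)) ?_
    rw [Prod.dist_eq]
    refine max_lt (by rwa [Real.dist_eq]) ?_
    rw [Real.dist_eq]
    have h3 : |s * t| ≤ η / 2 := by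
      rw [abs_mul, abs_of_nonneg ht.1, ← hsT]
      exact mul_le_mul_of_nonneg_left ht.2 hsabs.le
    calc |ψ - s * t - ψ₀| = |(ψ - ψ₀) - s * t| := by congr 1; ring
      _ ≤ |ψ - ψ₀| + |s * t| := abs_sub _ _
      _ < η := by linarith
  have hfin := RAD2_one (G := fun t => Γ (q.1, v t)) (W := fun t => Φ (q.1, v t))
    (G' := fun t => fderiv ℝ (fun v => Γ (q.1, v)) (v t) (-s • RAD2_R (v t)))
    (W' := fun t => fderiv ℝ (fun v => Φ (q.1, v)) (v t) (-s • RAD2_R (v t)))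
    (T := T) (c := s * s / 2) hT0 (by
      intro t ht
      obtain ⟨⟨k1, k2⟩, ⟨k3, k4⟩, k5⟩ := hball (hvδ t ht)
      refine ⟨RAD2_comp (k4.differentiableAt (by norm_num)) (hvd t), ?_⟩
      simp only [map_smul, smul_eq_mul, neg_mul] at k2 ⊢
      linarith) (by
      intro t ht
      obtain ⟨⟨k1, k2⟩, ⟨k3, k4⟩, k5⟩ := hball (hvδ t ht)
      refine ⟨RAD2_comp (k3.differentiableAt (by norm_num)) (hvd t), ?_⟩
      have k6 := k1.1 (by rw [hvn]; exact q5)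
      simp only [hF] at k6
      simp only [map_smul, smul_eq_mul, neg_mul]
      linarith) (by
      intro t ht
      obtain ⟨⟨k1, k2⟩, ⟨k3, k4⟩, k5⟩ := hball (hvδ t ht)
      exact k5) (by
      simp only [hv0]
      exact q6) (by
      simp only [hv0]
      exact q1)
  simp only [hv0] at hfin
  exact hfin

end Pool.Agent.H99.SC
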