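import Pool.Agent.H99.SC.OPR

/-!
# RAYS: limits of rays, and connected families of rays

`ray_lim`: `‖X (uk k) - q‖ = τk ‖Yk - q‖`, `S.Sig` compact, `q ∉ S.Sig`, `Yk → Y ≠ q`: `τk` is bounded and bounded away
from 0; pass to a subsequence (`IsCompact.tendsto_subseq` for the closed disc times an interval).
`rays`: the set `{y ∈ K : hit by an interior point}` is relatively open (`opr` with small `ε`), relatively closed
(`ray_lim`; the limit point has `‖u‖ ≤ 1`, and `‖u‖ = 1` is excluded by `hC`), nonempty (`hne`, `τ = 1`):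
`K` preconnected.  (For instance `IsPreconnected.subset_of_closure_inter_subset` or two disjoint open sets: the hit set
is `K ∩ O` with `O` open by `opr`; its complement in `K` is also of this form by the closedness argument.)
`hit_open`: the two sets used later are open: `opr`.
-/

set_option autoImplicit false

open scoped RealInnerProductSpace Topology
open Metric Filter Set

noncomputable section

namespace Pool.Agent.H99.SC

theorem ray_lim {S : Surf} {q : V3} (hqS : q ∉ S.Sig) {Yk : ℕ → V3} {Y : V3}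
    (hY : Tendsto Yk atTop (𝓝 Y)) (hYq : Y ≠ q) {uk : ℕ → V2} {τk : ℕ → ℝ}
    (hu : ∀ k, ‖uk k‖ ≤ 1) (hτ : ∀ k, 0 ≤ τk k) (h : ∀ k, q + τk k • (Yk k - q) = S.X (uk k)) :
    ∃ (φ : ℕ → ℕ) (u : V2) (τ : ℝ), StrictMono φ ∧ ‖u‖ ≤ 1 ∧ 0 < τ ∧
      Tendsto (fun k => uk (φ k)) atTop (𝓝 u) ∧ Tendsto (fun k => τk (φ k)) atTop (𝓝 τ) ∧
      q + τ • (Y - q) = S.X u := by
  have hXc : Continuous S.X := S.smooth.continuous
  have hK : IsCompact (closedBall (0 : V2) 1) := isCompact_closedBall 0 1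
  have hKne : (closedBall (0 : V2) 1).Nonempty := ⟨0, by simp⟩
  have hfc : ContinuousOn (fun u => ‖S.X u - q‖) (closedBall (0 : V2) 1) := by fun_prop
  obtain ⟨um, hum, hmin⟩ := hK.exists_isMinOn hKne hfc
  obtain ⟨uM, huM, hmax⟩ := hK.exists_isMaxOn hKne hfc
  have hc : 0 < ‖S.X um - q‖ := by
    rw [norm_pos_iff, sub_ne_zero]
    intro h0
    exact hqS ⟨um, by simpa using hum, h0⟩
  set c := ‖S.X um - q‖ with hcdef
  set C := ‖S.X uM - q‖ with hCdef
  have hbd : ∀ k, c ≤ ‖S.X (uk k) - q‖ ∧ ‖S.X (uk k) - q‖ ≤ C := by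
    intro k
    have hm : uk k ∈ closedBall (0 : V2) 1 := by simpa using hu k
    exact ⟨hmin hm, hmax hm⟩
  have hL : 0 < ‖Y - q‖ := norm_pos_iff.2 (sub_ne_zero.2 hYq)
  have hnorm : Tendsto (fun k => ‖Yk k - q‖) atTop (𝓝 ‖Y - q‖) := (hY.sub_const q).norm
  have hev : ∀ᶠ k in atTop, ‖Yk k - q‖ ∈ Ioo (‖Y - q‖ / 2) (2 * ‖Y - q‖) :=
    hnorm (Ioo_mem_nhds (by linarith) (by linarith))
  have hτe : ∀ k, τk k * ‖Yk k - q‖ = ‖S.X (uk k) - q‖ := by
    intro k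
    rw [← h k, add_sub_cancel_left, norm_smul, Real.norm_of_nonneg (hτ k)]
  have hev2 : ∀ᶠ k in atTop, (uk k, τk k) ∈
      closedBall (0 : V2) 1 ×ˢ Icc (c / (2 * ‖Y - q‖)) (C / (‖Y - q‖ / 2)) := by
    filter_upwards [hev] with k hk
    refine ⟨by simpa using hu k, ?_, ?_⟩
    · change c / (2 * ‖Y - q‖) ≤ τk k
      rw [div_le_iff₀ (by positivity)]
      calc c ≤ ‖S.X (uk k) - q‖ := (hbd k).1
        _ = τk k * ‖Yk k - q‖ := (hτe k).symm
        _ ≤ τk k * (2 * ‖Y - q‖) := mul_le_mul_of_nonneg_left hk.2.le (hτ k)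
    · change τk k ≤ C / (‖Y - q‖ / 2)
      rw [le_div_iff₀ (by positivity)]
      calc τk k * (‖Y - q‖ / 2) ≤ τk k * ‖Yk k - q‖ :=
            mul_le_mul_of_nonneg_left hk.1.le (hτ k)
        _ = ‖S.X (uk k) - q‖ := hτe k
        _ ≤ C := (hbd k).2
  obtain ⟨⟨u, τ⟩, hmem, φ, hφ, hlim⟩ := (hK.prod isCompact_Icc).tendsto_subseq' hev2.frequently
  have hlu : Tendsto (fun k => uk (φ k)) atTop (𝓝 u) :=
    (continuous_fst.tendsto (u, τ)).comp hlim
  have hlτ : Tendsto (fun k => τk (φ k)) atTop (𝓝 τ) :=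
    (continuous_snd.tendsto (u, τ)).comp hlim
  have hτpos : 0 < τ := by
    have h1 : c / (2 * ‖Y - q‖) ≤ τ := hmem.2.1
    have h2 : 0 < c / (2 * ‖Y - q‖) := by positivity
    linarith
  refine ⟨φ, u, τ, hφ, by simpa using hmem.1, hτpos, hlu, hlτ, ?_⟩
  have h1 : Tendsto (fun k => q + τk (φ k) • (Yk (φ k) - q)) atTop (𝓝 (q + τ • (Y - q))) :=
    tendsto_const_nhds.add (hlτ.smul ((hY.comp hφ.tendsto_atTop).sub_const q))
  have h2 : Tendsto (fun k => S.X (uk (φ k))) atTop (𝓝 (S.X u)) :=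
    (hXc.tendsto u).comp hlu
  refine tendsto_nhds_unique h1 (h2.congr fun k => ?_)
  exact (h (φ k)).symm

theorem rays {S : Surf} {q : V3} (hq : StarAt S q) {K : Set V3} (hK : IsPreconnected K)
    (hqK : q ∉ K) (hC : ∀ y ∈ K, ∀ τ : ℝ, 0 < τ → ∀ u : V2, ‖u‖ = 1 → q + τ • (y - q) ≠ S.X u)
    (hne : ∃ u : V2, ‖u‖ < 1 ∧ S.X u ∈ K) :
    ∀ y ∈ K, ∃ u : V2, ‖u‖ < 1 ∧ ∃ τ : ℝ, 0 < τ ∧ q + τ • (y - q) = S.X u := by
  have hO : IsOpen {y : V3 | ∃ u : V2, ‖u‖ < 1 ∧ ∃ τ : ℝ, 0 < τ ∧ q + τ • (y - q) = S.X u} := by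
    rw [isOpen_iff_mem_nhds]
    rintro y ⟨u, hu, τ, hτ, hy⟩
    have hε : 0 < min (1 - ‖u‖) τ := lt_min (by linarith) hτ
    filter_upwards [opr hq hu hτ hy hε] with Y hY
    obtain ⟨u', τ', h1, h2, h3⟩ := hY
    refine ⟨u', ?_, τ', ?_, h3⟩
    · have h4 := norm_add_le (u' - u) u
      rw [sub_add_cancel] at h4
      have h5 := lt_of_lt_of_le h1 (min_le_left _ _)
      linarith
    · have h5 := lt_of_lt_of_le h2 (min_le_right _ _)
      rw [abs_lt] at h5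
      linarith [h5.1]
  have hsub := hK.subset_of_closure_inter_subset hO (by
    obtain ⟨u, hu, huK⟩ := hne
    exact ⟨S.X u, huK, u, hu, 1, one_pos, by rw [one_smul, add_sub_cancel]⟩) (by
    rintro y ⟨hy, hyK⟩
    obtain ⟨Yk, hYk, hlim⟩ := mem_closure_iff_seq_limit.1 hy
    choose uk huk τk hτk hk using hYk
    obtain ⟨φ, u, τ, -, hu, hτ, -, -, he⟩ := ray_lim (star_not_mem hq) hlim
      (fun h0 => hqK (h0 ▸ hyK)) (fun k => (huk k).le) (fun k => (hτk k).le) hk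
    refine ⟨u, lt_of_le_of_ne hu fun h1 => hC y hyK τ hτ u h1 he, τ, hτ, he⟩)
  exact fun y hy => hsub hy

theorem hit_open {S : Surf} {q : V3} (hq : StarAt S q) :
    IsOpen {y : V3 | ∃ u : V2, ‖u‖ < 1 ∧ ∃ τ : ℝ, 1 < τ ∧ q + τ • (y - q) = S.X u} ∧
    IsOpen {y : V3 | ∃ u : V2, ‖u‖ < 1 ∧ ∃ τ : ℝ, 0 < τ ∧ τ < 1 ∧ q + τ • (y - q) = S.X u} := by
  constructor
  · rw [isOpen_iff_mem_nhds]
    rintro y ⟨u, hu, τ, hτ, hy⟩
    have hε : 0 < min (1 - ‖u‖) (τ - 1) := lt_min (by linarith) (by linarith)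
    filter_upwards [opr hq hu (by linarith) hy hε] with Y hY
    obtain ⟨u', τ', h1, h2, h3⟩ := hY
    refine ⟨u', ?_, τ', ?_, h3⟩
    · have h4 := norm_add_le (u' - u) u
      rw [sub_add_cancel] at h4
      have h5 := lt_of_lt_of_le h1 (min_le_left _ _)
      linarith
    · have h5 := lt_of_lt_of_le h2 (min_le_right _ _)
      rw [abs_lt] at h5
      linarith [h5.1]
  · rw [isOpen_iff_mem_nhds]
    rintro y ⟨u, hu, τ, hτ, hτ1, hy⟩
    have hε : 0 < min (1 - ‖u‖) (min τ (1 - τ)) :=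
      lt_min (by linarith) (lt_min hτ (by linarith))
    filter_upwards [opr hq hu hτ hy hε] with Y hY
    obtain ⟨u', τ', h1, h2, h3⟩ := hY
    have h6 := lt_of_lt_of_le h2 ((min_le_right _ _).trans (min_le_left _ _))
    have h7 := lt_of_lt_of_le h2 ((min_le_right _ _).trans (min_le_right _ _))
    rw [abs_lt] at h6 h7
    refine ⟨u', ?_, τ', by linarith [h6.1], by linarith [h7.2], h3⟩
    have h4 := norm_add_le (u' - u) u
    rw [sub_add_cancel] at h4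
    have h5 := lt_of_lt_of_le h1 (min_le_left _ _)
    linarith

end Pool.Agent.H99.SC
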