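import Pool.Agent.H99.SC.RTA
import Pool.Agent.H99.SC.PAR

/-!
# ROA: no bad sequence under rotation converging to a boundary point off the plane

`v₁` = partner of `u₁` (`partner`), `k = kk u₁ > k' = kk v₁` by `rotk_le`, `rotk_eq` (not symmetric).
`‖uk k‖ < 1` (boundary points are mapped into the circle, in `S.Sig`, in the closure: `sig_closure`).  Box `B`
at `v₁` (`exists_box`, `e = N v₁`), `Φ (φ,u) = B.f (refl (nh φ) 0 (X u))` (`smooth_par`), zero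
for `‖u‖ = 1` near `(φ₀,u₁)` (`circ_zero`, `cont_par`, `refl0_2`, `refl0_r`, `bd1`).  If `1 + k k' > 0`: `drw_neg`,
`rad_par`: `Φ > 0` inside near `(φ₀,u₁)`.  `y = refl (nh φ_k) 0 (X (uk k))` has `y 2 = (X (uk k)) 2` and
tends to `X v₁`.  It is in `W` for large `k` (contradiction):
 * `k' > 0`: `k > 0`, `N_r(u₁) < 0` so `y 2 < 0` (`side_u`), `Φ > 0`: `fW` (`N_r(v₁) < 0`).
 * `k' < 0` (`N_r(v₁) > 0`): if `k > 0`: `y 2 < 0`: `loc_pos` (second part); if `k ≤ 0`: `k k' ≥ 0`,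
   `Φ > 0`: `fW`.
 * `k' = 0` (`N(v₁) = -E3`): `k > 0`: `y 2 < 0`, `Φ > 0`: `fW`.
-/

set_option autoImplicit false

open scoped RealInnerProductSpace Topology
open Metric Filter Set

noncomputable section

namespace Pool.Agent.H99.SC

theorem rotA {S : Surf} (D : Dom S) {φ₀ : ℝ} (hS : SS D (nh φ₀) 0)
    (hns : ∃ u : V2, ‖u‖ ≤ 1 ∧ refl (nh φ₀) 0 (S.X u) ∉ S.Sig) {u₁ : V2} (hu₁ : ‖u₁‖ = 1)
    (hl : 0 < ⟪nh φ₀, S.X u₁⟫) {fk : ℕ → ℝ} {uk : ℕ → V2} (hfk : Tendsto fk atTop (𝓝 φ₀))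
    (huk : Tendsto uk atTop (𝓝 u₁)) (hu1 : ∀ k, ‖uk k‖ ≤ 1)
    (hbad : ∀ k, refl (nh (fk k)) 0 (S.X (uk k)) ∉ closure D.W) : False := by
  obtain ⟨v₁, hv₁, hx⟩ := partner S φ₀ hu₁
  have hlt : S.kk v₁ < S.kk u₁ := by
    refine lt_of_le_of_ne (rotk_le D hS hu₁ hv₁ hx hl) fun heq => ?_
    obtain ⟨u, hu, hu'⟩ := hns
    exact hu' (rotk_eq D hS hu₁ hv₁ hx hl heq u hu)
  have hin : ∀ k, ‖uk k‖ < 1 := by
    intro k
    refine lt_of_le_of_ne (hu1 k) fun heq => hbad k (sig_closure D.toPreDom ?_)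
    obtain ⟨h2, h1⟩ := S.bd1 heq
    obtain ⟨v, hv, hv'⟩ := (S.bd (refl (nh (fk k)) 0 (S.X (uk k)))).mpr
      ⟨by rw [refl0_2, h2], by rw [refl0_r, h1]⟩
    exact ⟨v, hv.le, hv'⟩
  obtain ⟨B⟩ : Nonempty (Box S.X v₁ (S.N v₁)) := by
    refine exists_box S.smooth ?_
    rw [S.nn_eq hv₁.le, real_inner_smul_left, real_inner_self_eq_norm_sq, S.N_norm hv₁.le]
    have := S.nn_pos hv₁.le
    simpa using this
  have hGt : Tendsto (fun q : ℝ × V2 => refl (nh q.1) 0 (S.X q.2)) (𝓝 (φ₀, u₁)) (𝓝 (S.X v₁)) := by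
    have h1 := (cont_par S).tendsto (φ₀, u₁)
    rw [hx]
    exact h1
  have hΦ : ContDiffAt ℝ 2 (fun q : ℝ × V2 => B.f (refl (nh q.1) 0 (S.X q.2))) (φ₀, u₁) :=
    smooth_par S B (by rw [← hx]; exact B.mem_U B.hr)
  have h0 : ∀ᶠ q : ℝ × V2 in 𝓝 (φ₀, u₁), ‖q.2‖ = 1 →
      (fun q : ℝ × V2 => B.f (refl (nh q.1) 0 (S.X q.2))) q = 0 := by
    filter_upwards [hGt.eventually (circ_zero S hv₁ B)] with q hq hq1
    obtain ⟨h2, h1⟩ := S.bd1 hq1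
    exact (hq (by rw [refl0_2, h2]) (by rw [refl0_r, h1])).1
  have hseq : Tendsto (fun k => (fk k, uk k)) atTop (𝓝 (φ₀, u₁)) := hfk.prodMk_nhds huk
  have hyseq : Tendsto (fun k => refl (nh (fk k)) 0 (S.X (uk k))) atTop (𝓝 (S.X v₁)) :=
    hGt.comp hseq
  have hpos : 0 < 1 + S.kk u₁ * S.kk v₁ →
      ∀ᶠ k in atTop, 0 < B.f (refl (nh (fk k)) 0 (S.X (uk k))) := by
    intro h
    have h1 := hseq.eventually (rad_par hu₁ hΦ h0 (drw_neg D hu₁ hv₁ hx B hlt h))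
    filter_upwards [h1] with k hk
    exact hk (hin k)
  have hside : 0 < S.kk u₁ → ∀ᶠ k in atTop, (refl (nh (fk k)) 0 (S.X (uk k))) 2 < 0 := by
    intro h
    filter_upwards [huk.eventually (side_u D.toPreDom hu₁)] with k hk
    rw [refl0_2]
    exact (hk (hin k)).1 ((Surf.kk_pos D hu₁).mp h)
  have hfW := hyseq.eventually (fW D.toPreDom hv₁ B)
  rcases nE_cases D hv₁ with h | h | h
  · have hk' : 0 < S.kk v₁ := (Surf.kk_pos D hv₁).mpr h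
    have hk : 0 < S.kk u₁ := hk'.trans hlt
    obtain ⟨k, ⟨h1, h2⟩, h3⟩ := ((hfW.and (hpos (by positivity))).and (hside hk)).exists
    exact hbad k (subset_closure (h1 h2 (Or.inl ⟨h, h3⟩)))
  · have hk' : S.kk v₁ < 0 := (Surf.kk_neg D hv₁).mpr h
    rcases lt_or_ge 0 (S.kk u₁) with hk | hk
    · obtain ⟨k, h1, h2⟩ :=
        ((hyseq.eventually (loc_pos D.toPreDom hv₁ h B)).and (hside hk)).exists
      exact hbad k (subset_closure (h1.2.1 h2))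
    · have h4 : 0 < 1 + S.kk u₁ * S.kk v₁ := by
        have := mul_nonneg_of_nonpos_of_nonpos hk hk'.le
        linarith
      obtain ⟨k, h1, h2⟩ := (hfW.and (hpos h4)).exists
      exact hbad k (subset_closure (h1 h2 (Or.inr (Or.inl h))))
  · have hk' : S.kk v₁ = 0 := (Surf.kk_zero D hv₁).mpr h
    have hk : 0 < S.kk u₁ := hk' ▸ hlt
    obtain ⟨k, ⟨h1, h2⟩, h3⟩ :=
      ((hfW.and (hpos (by rw [hk']; norm_num))).and (hside hk)).exists
    exact hbad k (subset_closure (h1 h2 (Or.inr (Or.inr ⟨h, Or.inr h3⟩))))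

end Pool.Agent.H99.SC
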