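import Pool.Agent.H99.SC.RTC
import Pool.Agent.H99.SC.RAD2

/-!
# ROB: no bad sequence under rotation converging to a hinge point

Box `B` at `u₁`, `e = N u₁` (`exists_box`), `Φ (φ,u) = B.f (refl (nh φ) 0 (X u))` (`smooth_par`),
`Γ (φ,u) = ⟪nh φ, X u⟫` (smooth).  `refl (nh φ₀) 0 (X u₁) = X u₁`.  `rot_corner` gives `hD`, `hs` of `rad2`.
`h1`: `circ_zero`, `cont_par` (`refl0_2`, `refl0_r`, `bd1`).  `h2`: where `Γ = 0` the reflected point is `X u`: `f_X`.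
So `Φ > 0` where `‖u‖ < 1`, `Γ > 0`, near `(φ₀,u₁)`.  `‖uk k‖ < 1` (boundary points are mapped into the circle, in
the closure).  `fW` with `v₁ = u₁` and `side_u`, `nE_cases` (third coordinate and `y 0^2 + y 1^2` are preserved): the
reflected point is in `W` for large `k`: contradiction.
-/

set_option autoImplicit false

open scoped RealInnerProductSpace Topology
open Metric Filter Set

noncomputable section

namespace Pool.Agent.H99.SC

theorem ROB_box {S : Surf} {u : V2} (hu : ‖u‖ ≤ 1) : 0 < ⟪nn S.X u, S.N u⟫ := by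
  rw [S.nn_eq hu, inner_smul_left, real_inner_self_eq_norm_sq, S.N_norm hu]
  simpa using S.imm u hu

theorem ROB_fix {φ : ℝ} {y : V3} (h : ⟪nh φ, y⟫ = 0) : refl (nh φ) 0 y = y := by
  unfold refl
  rw [h]
  simp

theorem ROB_smooth (S : Surf) : ContDiff ℝ 2 (fun q : ℝ × V2 => ⟪nh q.1, S.X q.2⟫) := by
  have hc : ∀ i : Fin 3, ContDiff ℝ 2 (fun q : ℝ × V2 => (S.X q.2) i) := by
    intro i
    exact (EuclideanSpace.proj i : V3 →L[ℝ] ℝ).contDiff.comp (S.smooth.comp contDiff_snd)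
  have e : (fun q : ℝ × V2 => ⟪nh q.1, S.X q.2⟫) = fun q : ℝ × V2 =>
      Real.cos q.1 * (S.X q.2) 0 + Real.sin q.1 * (S.X q.2) 1 := by
    funext q
    rw [ip, nh_0, nh_1, nh_2]
    ring
  rw [e]
  exact ((Real.contDiff_cos.comp contDiff_fst).mul (hc 0)).add
    ((Real.contDiff_sin.comp contDiff_fst).mul (hc 1))

theorem rotB {S : Surf} (D : Dom S) {φ₀ : ℝ} (hS : SS D (nh φ₀) 0)
    (hns : ∃ u : V2, ‖u‖ ≤ 1 ∧ refl (nh φ₀) 0 (S.X u) ∉ S.Sig) {u₁ : V2} (hu₁ : ‖u₁‖ = 1)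
    (hl : ⟪nh φ₀, S.X u₁⟫ = 0) {fk : ℕ → ℝ} {uk : ℕ → V2} (hfk : Tendsto fk atTop (𝓝 φ₀))
    (huk : Tendsto uk atTop (𝓝 u₁)) (hu1 : ∀ k, ‖uk k‖ ≤ 1)
    (hlk : ∀ k, 0 < ⟪nh (fk k), S.X (uk k)⟫)
    (hbad : ∀ k, refl (nh (fk k)) 0 (S.X (uk k)) ∉ closure D.W) : False := by
  obtain ⟨B⟩ := exists_box S.smooth (ROB_box (S := S) hu₁.le)
  have hfix : refl (nh φ₀) 0 (S.X u₁) = S.X u₁ := ROB_fix hl
  have hU : refl (nh φ₀) 0 (S.X u₁) ∈ B.U B.r := by
    rw [hfix]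
    exact B.mem_U B.hr
  have hcont : Tendsto (fun q : ℝ × V2 => refl (nh q.1) 0 (S.X q.2)) (𝓝 (φ₀, u₁))
      (𝓝 (S.X u₁)) := by
    have := (cont_par S).tendsto (φ₀, u₁)
    simp only [hfix] at this
    exact this
  have hsnd : Tendsto (fun q : ℝ × V2 => q.2) (𝓝 (φ₀, u₁)) (𝓝 u₁) := continuousAt_snd
  obtain ⟨hc1, hc2⟩ := rot_corner D hS hns hu₁ hl B
  have key := rad2 (Φ := fun q : ℝ × V2 => B.f (refl (nh q.1) 0 (S.X q.2)))
    (Γ := fun q : ℝ × V2 => ⟪nh q.1, S.X q.2⟫) (φ₀ := φ₀) hu₁ (smooth_par S B hU)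
    (ROB_smooth S).contDiffAt
    (by
      filter_upwards [hcont.eventually (circ_zero S hu₁ B)] with q hq hq1
      obtain ⟨b1, b2⟩ := S.bd1 hq1
      exact (hq (by rw [refl0_2, b1]) (by rw [refl0_r, b2])).1)
    (by
      have hr : ∀ᶠ u in 𝓝 u₁, ‖u - u₁‖ < B.r := by
        have : Continuous fun u : V2 => ‖u - u₁‖ := by fun_prop
        refine this.continuousAt.eventually (gt_mem_nhds ?_)
        show ‖u₁ - u₁‖ < B.r
        rw [sub_self, norm_zero]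
        exact B.hr
      filter_upwards [hsnd.eventually hr] with q hq hq1
      rw [ROB_fix hq1]
      exact B.f_X hq)
    hl hc1 hc2
  have hq : Tendsto (fun k => (fk k, uk k)) atTop (𝓝 (φ₀, u₁)) := hfk.prodMk_nhds huk
  have hall := key.and ((hcont.eventually (fW D.toPreDom hu₁ B)).and
    (hsnd.eventually (side_u D.toPreDom hu₁)))
  obtain ⟨k, h1, h2, h3⟩ := (hq.eventually hall).exists
  simp only at h1 h2 h3
  have hlt : ‖uk k‖ < 1 := by
    refine lt_of_le_of_ne (hu1 k) fun h => ?_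
    obtain ⟨v, hv, hvx⟩ := partner S (fk k) h
    refine hbad k (sig_closure D.toPreDom ?_)
    rw [← hvx]
    exact S.mem_Sig hv.le
  obtain ⟨s1, s2, s3⟩ := h3 hlt
  refine hbad k (subset_closure (h2 (h1 hlt (hlk k)) ?_))
  rcases nE_cases D hu₁ with h | h | h
  · left
    exact ⟨h, by rw [refl0_2]; exact s1 h⟩
  · right
    left
    exact h
  · right
    right
    exact ⟨h, Or.inl (by rw [refl0_r]; exact s3 h)⟩

end Pool.Agent.H99.SC
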