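import Pool.Agent.H99.SC.ROA
import Pool.Agent.H99.SC.ROB

/-!
# ROT: `SS` is an open condition under rotation unless the surface is symmetric

`rot_open`: otherwise there are `φ_k → φ₀` and `u_k`, `‖u_k‖ ≤ 1`, `0 ≤ ⟪nh φ_k, X u_k⟫`, reflected point not in
`closure W` (so `0 <`, since for `= 0` it is `X u_k`, `sig_closure`).  Subsequence `u_k → u₀`; `opn`
((h1) `h1_refl0`): `‖u₀‖ = 1` or `refl (nh φ₀) 0 (X u₀) ∈ Disc`, and then `X u₀ ∈ Disc` (`refl0_Disc`), `‖u₀‖ = 1`
(`D.disj`).  `0 ≤ ⟪nh φ₀, X u₀⟫` in the limit: `rotA` or `rotB`.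
`ss_closed`: `φ_k → φ`, `SS` at `φ_k`, `0 ≤ ⟪nh φ, X u⟫`: if `= 0` the reflected point is `X u`; if `> 0` then also for
`φ_k`, `k` large, and `closure W` is closed.
-/

set_option autoImplicit false

open scoped RealInnerProductSpace Topology
open Metric Filter Set

noncomputable section

namespace Pool.Agent.H99.SC

private lemma ROT_nh_cont : Continuous nh := by
  unfold nh
  refine (PiLp.continuous_toLp 2 _).comp ?_
  refine continuous_pi fun i => ?_
  fin_cases i
  · exact Real.continuous_cos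
  · exact Real.continuous_sin
  · exact continuous_const

private lemma ROT_zero {n y : V3} (h : ⟪n, y⟫ = 0) : refl n 0 y = y := by
  unfold refl; rw [h]; simp

theorem rot_open {S : Surf} (D : Dom S) {φ₀ : ℝ} (hS : SS D (nh φ₀) 0)
    (hns : ∃ u : V2, ‖u‖ ≤ 1 ∧ refl (nh φ₀) 0 (S.X u) ∉ S.Sig) :
    ∀ᶠ φ in 𝓝 φ₀, SS D (nh φ) 0 := by
  by_contra hcon
  have hfr : ∃ᶠ φ in 𝓝 φ₀, ¬ SS D (nh φ) 0 := by
    rwa [Filter.not_eventually] at hcon
  obtain ⟨f, hf, hfS⟩ := exists_seq_forall_of_frequently hfr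
  have h1 : ∀ k, ∃ u : V2, ‖u‖ ≤ 1 ∧ 0 ≤ ⟪nh (f k), S.X u⟫ ∧
      refl (nh (f k)) 0 (S.X u) ∉ closure D.W := by
    intro k
    have := hfS k
    unfold SS at this
    push Not at this
    obtain ⟨u, hu, h2, h3⟩ := this
    exact ⟨u, hu, h2, h3⟩
  choose u hu hl hbad using h1
  obtain ⟨u₀, hu₀, θ, hθ, hlim⟩ := (isCompact_closedBall (0 : V2) 1).tendsto_subseq
    (fun n => by simpa using hu n)
  have hf' : Tendsto (f ∘ θ) atTop (𝓝 φ₀) := hf.comp hθ.tendsto_atTop
  have hnh : Tendsto (fun k => nh (f (θ k))) atTop (𝓝 (nh φ₀)) :=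
    (ROT_nh_cont.tendsto φ₀).comp hf'
  have hlpos : ∀ k, 0 < ⟪nh (f k), S.X (u k)⟫ := by
    intro k
    rcases (hl k).lt_or_eq with h | h
    · exact h
    · exfalso
      apply hbad k
      rw [ROT_zero h.symm]
      exact sig_closure D.toPreDom (S.mem_Sig (hu k))
  have hX : Tendsto (fun k => S.X (u (θ k))) atTop (𝓝 (S.X u₀)) :=
    (S.smooth.continuous.tendsto u₀).comp hlim
  have hmain := opn D (norm_nh φ₀) hS (h1_refl0 D.toPreDom φ₀) hns
    (nk := fun k => nh (f (θ k))) (tk := fun _ => 0) (uk := fun k => u (θ k))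
    (fun k => norm_nh _) hnh tendsto_const_nhds hlim (fun k => hu _) (fun k => hlpos _)
    (fun k => hbad _)
  have hu₀1 : ‖u₀‖ = 1 := by
    rcases hmain with h | h
    · exact h
    · have h2 := refl0_Disc h
      have h3 : ‖u₀‖ ≤ 1 := by simpa using hu₀
      rcases h3.lt_or_eq with h4 | h4
      · exact absurd h2 (D.disj u₀ h4)
      · exact h4
  have hin : 0 ≤ ⟪nh φ₀, S.X u₀⟫ :=
    ge_of_tendsto (hnh.inner hX) (Eventually.of_forall fun k => (hlpos _).le)
  rcases hin.lt_or_eq with h | h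
  · exact rotA D hS hns hu₀1 h hf' hlim (fun k => hu _) (fun k => hbad _)
  · exact rotB D hS hns hu₀1 h.symm hf' hlim (fun k => hu _) (fun k => hlpos _) (fun k => hbad _)

theorem ss_closed {S : Surf} (D : Dom S) : IsClosed {φ : ℝ | SS D (nh φ) 0} := by
  apply IsSeqClosed.isClosed
  intro f φ hf hlim u hu hl
  rcases hl.lt_or_eq with h | h
  · have hnh : Tendsto (fun k => nh (f k)) atTop (𝓝 (nh φ)) := (ROT_nh_cont.tendsto φ).comp hlim
    have hin : Tendsto (fun k => ⟪nh (f k), S.X u⟫) atTop (𝓝 ⟪nh φ, S.X u⟫) :=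
      hnh.inner tendsto_const_nhds
    have hev : ∀ᶠ k in atTop, 0 < ⟪nh (f k), S.X u⟫ := hin.eventually (lt_mem_nhds h)
    have hr : Tendsto (fun k => refl (nh (f k)) 0 (S.X u)) atTop (𝓝 (refl (nh φ) 0 (S.X u))) := by
      unfold refl
      exact tendsto_const_nhds.sub (((hin.sub tendsto_const_nhds).const_mul 2).smul hnh)
    refine isClosed_closure.mem_of_tendsto hr ?_
    filter_upwards [hev] with k hk
    exact hf k u hu hk.le
  · rw [ROT_zero h.symm]
    exact sig_closure D.toPreDom (S.mem_Sig hu)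

end Pool.Agent.H99.SC
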