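import Pool.Agent.H99.SC.SF

/-!
# WGT: derivatives of the unit normal

`wg1`: differentiate `⟪S.N x, fderiv ℝ S.X x b⟫ = 0` (valid for all `x`, `S.N_orth`) in the direction `a`.
`wg2`: `‖S.N x‖ = 1` for `x` near `u` (where `nn ≠ 0`).
`wg3`: let `V = cr (N_u) (X_v) - cr (N_v) (X_u)` (`N_u = fderiv N u e0` ..).  All four vectors are
orthogonal to `N`, so `cr` of any two of them is parallel to `N` (`cr_lag` or `decomp`), and
`⟪V, nn⟫ = (⟪N_u,X_u⟫ ‖X_v‖^2 - ⟪N_u,X_v⟫⟪X_v,X_u⟫) - (⟪N_v,X_u⟫⟪X_u,X_v⟫ - ⟪N_v,X_v⟫‖X_u‖^2)`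
(`cr_lag`) `= -⟪N, Lop X X u⟫ = -2 H ‖nn‖^2` by `wg1` and `cmcN'`.  So `V = -2 H nn`.
-/

set_option autoImplicit false

open scoped RealInnerProductSpace Topology
open Metric Filter Set

noncomputable section

namespace Pool.Agent.H99.SC

namespace Surf
variable (S : Surf)

theorem smoothN {u : V2} (hu : ‖u‖ ≤ 1) : ContDiffAt ℝ 1 S.N u :=
  contDiffAt_NN S.smooth (S.imm u hu)

theorem wg1 {u : V2} (hu : ‖u‖ ≤ 1) (a b : V2) :
    ⟪fderiv ℝ S.N u a, fderiv ℝ S.X u b⟫ = -⟪S.N u, D2 S.X u a b⟫ := by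
  have hN : DifferentiableAt ℝ S.N u := (S.smoothN hu).differentiableAt (by norm_num)
  have hX1 : ContDiff ℝ 1 (fderiv ℝ S.X) := S.smooth.fderiv_right (m := 1) (by norm_num)
  have hX2 : HasFDerivAt (fderiv ℝ S.X) (fderiv ℝ (fderiv ℝ S.X) u) u :=
    (hX1.differentiable (by norm_num) u).hasFDerivAt
  have hX3 := hX2.clm_apply (hasFDerivAt_const b u)
  have h1 : (fun x => ⟪S.N x, fderiv ℝ S.X x b⟫) = fun _ => (0 : ℝ) := by
    funext x
    exact S.N_orth x b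
  have h2 := hN.hasFDerivAt.inner ℝ hX3
  have h3 := h2.fderiv
  rw [h1] at h3
  have h4 := congrArg (fun T : V2 →L[ℝ] ℝ => T a) h3
  simp [fderivInnerCLM_apply] at h4
  have h5 : fderiv ℝ (fderiv ℝ S.X) u a b = D2 S.X u a b := rfl
  rw [h5] at h4
  linarith

theorem wg2 {u : V2} (hu : ‖u‖ ≤ 1) (a : V2) : ⟪fderiv ℝ S.N u a, S.N u⟫ = 0 := by
  have hN : DifferentiableAt ℝ S.N u := (S.smoothN hu).differentiableAt (by norm_num)
  have h0 : nn S.X u ≠ 0 := S.imm u hu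
  have h1 : (fun x => ⟪S.N x, S.N x⟫) =ᶠ[𝓝 u] fun _ => (1 : ℝ) := by
    have hc : ContinuousAt (nn S.X) u := (contDiff_nn S.smooth).continuous.continuousAt
    filter_upwards [hc.eventually_ne h0] with x hx
    have hp : 0 < ‖nn S.X x‖ := norm_pos_iff.2 hx
    rw [real_inner_self_eq_norm_sq]
    have : ‖S.N x‖ = 1 := by
      unfold Surf.N NN
      rw [norm_smul, norm_inv, norm_norm, inv_mul_cancel₀ hp.ne']
    rw [this]; norm_num
  have h2 := hN.hasFDerivAt.inner ℝ hN.hasFDerivAt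
  have h3 := h2.fderiv
  rw [h1.fderiv_eq] at h3
  have h4 := congrArg (fun T : V2 →L[ℝ] ℝ => T a) h3
  simp [fderivInnerCLM_apply] at h4
  have h5 := real_inner_comm (S.N u) (fderiv ℝ S.N u a)
  linarith

/-- the shape operator is symmetric -/
theorem wg_symm {u : V2} (hu : ‖u‖ ≤ 1) (a b : V2) :
    ⟪fderiv ℝ S.N u a, fderiv ℝ S.X u b⟫ = ⟪fderiv ℝ S.N u b, fderiv ℝ S.X u a⟫ := by
  rw [S.wg1 hu, S.wg1 hu, D2_symm S.smooth.contDiffAt]

theorem wg3 {u : V2} (hu : ‖u‖ ≤ 1) :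
    cr (fderiv ℝ S.N u e0) (fderiv ℝ S.X u e1) - cr (fderiv ℝ S.N u e1) (fderiv ℝ S.X u e0)
      = (-2 * S.H) • nn S.X u := by
  have hpos := S.nn_pos hu
  have key : ∀ a : V2, ⟪fderiv ℝ S.N u a, cr (fderiv ℝ S.X u e0) (fderiv ℝ S.X u e1)⟫ = 0 := by
    intro a
    have h1 : cr (fderiv ℝ S.X u e0) (fderiv ℝ S.X u e1) = nn S.X u := rfl
    rw [h1, S.nn_eq hu, real_inner_smul_right, S.wg2 hu, mul_zero]
  have hd0 := decomp (fderiv ℝ S.X u e0) (fderiv ℝ S.X u e1) (fderiv ℝ S.N u e0)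
  have hd1 := decomp (fderiv ℝ S.X u e0) (fderiv ℝ S.X u e1) (fderiv ℝ S.N u e1)
  rw [key e0, S.wg1 hu, S.wg1 hu, zero_smul, zero_add] at hd0
  rw [key e1, S.wg1 hu, S.wg1 hu, zero_smul, zero_add,
    D2_symm S.smooth.contDiffAt e1 e0] at hd1
  have hc := S.cmcN' hu
  have hn : cr (fderiv ℝ S.X u e0) (fderiv ℝ S.X u e1) = nn S.X u := rfl
  unfold Lop cA cB cC at hc
  rw [inner_add_left, inner_add_left, real_inner_smul_left, real_inner_smul_left,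
    real_inner_smul_left, real_inner_self_eq_norm_sq, real_inner_self_eq_norm_sq,
    real_inner_comm (S.N u) (D2 S.X u e0 e0), real_inner_comm (S.N u) (D2 S.X u e0 e1),
    real_inner_comm (S.N u) (D2 S.X u e1 e1)] at hc
  rw [hn] at hd0 hd1
  set P := fderiv ℝ S.X u e0 with hP
  set Q := fderiv ℝ S.X u e1 with hQ
  set A := fderiv ℝ S.N u e0 with hA
  set B := fderiv ℝ S.N u e1 with hB
  set p := ⟪S.N u, D2 S.X u e0 e0⟫ with hp
  set q := ⟪S.N u, D2 S.X u e0 e1⟫ with hq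
  set r := ⟪S.N u, D2 S.X u e1 e1⟫ with hr
  set c := ‖nn S.X u‖ with hcc
  have e1' : (c ^ 2) • cr A Q = (‖Q‖ ^ 2 * -p - ⟪P, Q⟫ * -q) • nn S.X u := by
    rw [← cr_smul_left, hd0, cr_add_left, cr_smul_left, cr_smul_left, cr_self, smul_zero,
      add_zero, hn]
  have e2' : (c ^ 2) • cr B P = -((‖P‖ ^ 2 * -r - ⟪P, Q⟫ * -q) • nn S.X u) := by
    rw [← cr_smul_left, hd1, cr_add_left, cr_smul_left, cr_smul_left, cr_self, smul_zero,
      zero_add, cr_swap P Q, hn, smul_neg]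
  have h3 : (c ^ 2) • (cr A Q - cr B P) = (c ^ 2) • ((-2 * S.H) • nn S.X u) := by
    rw [smul_sub, e1', e2', sub_neg_eq_add, ← add_smul, smul_smul]
    congr 1
    linear_combination -hc
  have h4 : (c ^ 2) ≠ 0 := by positivity
  exact smul_right_injective V3 h4 h3

end Surf

end Pool.Agent.H99.SC
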