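import Pool.Agent.H99.SC.CTA
import Pool.Agent.H99.SC.WGT
import Pool.Agent.H99.SC.RTZ

/-!
# RSA: `SS` for all vertical planes through the axis: first consequences

Hypothesis `hS : ∀ φ, SS D (nh φ) 0`.
`ax1`: `⟪N u, TT (X u)⟫ = 0` for `‖u‖ < 1`.  If the horizontal part of `X u` is 0 then `TT (X u) = 0`.
Otherwise `e = TT (X u)/|TT (X u)|` is a horizontal unit vector, `e = nh φ` (`exists_nh`), `⟪e, X u⟫ = 0`: `ct3` gives
`⟪e, N u⟫ ≤ 0`, and the same for `-e = nh (φ + π)`.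
`axis_pt`: some `‖u‖ < 1` has `X u` on the axis.  `- s E3 ∈ W` for small `s > 0` (`inD` at 0), `W` is bounded; let
`T = sup {t : ∀ s ∈ (s₀, t), - s E3 ∈ W}`: `- T E3` is in the frontier, so in `S.Sig ∪ Disc`, not in `Disc`
(`T > 0`), so it is `X u`, and `‖u‖ < 1` (`bd1`).
`wg_lin`: `cr (DN a) (DX b) - cr (DN b) (DX a) = -2H cr (DX a) (DX b)` for all `a b` (`wg3`, bilinearity,
`V2_decomp`), `DN = fderiv N u`, `DX = fderiv X u`.
`dF`: for `‖u‖ < 1`, `⟪DN a, X'⟫ + ⟪N', DX a⟫ + 2H ⟪X', DX a⟫ = 0`, where `y' = y - (y 2) E3`.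
Proof.  `⟪TT X, N⟫ = 0`, so `TT X = DX τ` (`tangent`).  Differentiate `⟪N x, TT (X x)⟫ = 0` (valid in the open disc) in the direction `a`:
`⟪DN a, TT X⟫ + ⟪N, TT (DX a)⟫ = 0`, and `⟪N, TT w⟫ = - ⟪TT N, w⟫`.  So for all `a`:
`⟪DN τ, DX a⟫ = ⟪DN a, DX τ⟫` (`wg_symm`) `= ⟪DN a, TT X⟫ = ⟪TT N, DX a⟫`; both `DN τ` and `TT N` are
orthogonal to `N` (`wg2`), so `DN τ - TT N` is tangent (`tangent`) and orthogonal to all tangent vectors: `DN τ = TT N`.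
`wg_lin` with `b = τ`: `cr (DN a) (TT X) - cr (TT N) (DX a) = -2H cr (DX a) (TT X)`.  Third coordinates: `(cr w (TT X)) 2
= w 0 X 0 + w 1 X 1` and `(cr (TT N) w) 2 = -(N 0 w 0 + N 1 w 1)`.
-/

set_option autoImplicit false

open scoped RealInnerProductSpace Topology
open Metric Filter Set

noncomputable section

namespace Pool.Agent.H99.SC

/-- horizontal part -/
def hp (y : V3) : V3 := !₂[y 0, y 1, 0]

@[simp] theorem hp_0 (y : V3) : (hp y) 0 = y 0 := by simp [hp]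
@[simp] theorem hp_1 (y : V3) : (hp y) 1 = y 1 := by simp [hp]
@[simp] theorem hp_2 (y : V3) : (hp y) 2 = 0 := by simp [hp]

theorem RSA_inner_hp (a b : V3) : ⟪a, hp b⟫ = a 0 * b 0 + a 1 * b 1 := by
  rw [ip]; simp

theorem RSA_hp_inner (a b : V3) : ⟪hp a, b⟫ = a 0 * b 0 + a 1 * b 1 := by
  rw [ip]; simp

theorem RSA_inner_TT (a b : V3) : ⟪a, TT b⟫ = a 1 * b 0 - a 0 * b 1 := by
  rw [ip]; simp; ring

theorem ax1 {S : Surf} (D : Dom S) (hS : ∀ φ : ℝ, SS D (nh φ) 0) {u : V2} (hu : ‖u‖ < 1) :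
    ⟪S.N u, TT (S.X u)⟫ = 0 := by
  by_cases h0 : TT (S.X u) = 0
  · rw [h0, inner_zero_right]
  have hc : 0 < ‖TT (S.X u)‖ := norm_pos_iff.2 h0
  have key : ∀ σ : ℝ, σ ^ 2 = 1 → σ * ⟪TT (S.X u), S.N u⟫ ≤ 0 := by
    intro σ hσ
    have hσ' : |σ| = 1 := by
      rw [← sq_eq_sq₀ (abs_nonneg _) (by norm_num), sq_abs, hσ]; norm_num
    have he : ‖(σ * ‖TT (S.X u)‖⁻¹) • TT (S.X u)‖ = 1 := by
      rw [norm_smul, Real.norm_eq_abs, abs_mul, hσ', one_mul, abs_of_pos (by positivity),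
        inv_mul_cancel₀ hc.ne']
    have he2 : ((σ * ‖TT (S.X u)‖⁻¹) • TT (S.X u)) 2 = 0 := by simp
    obtain ⟨φ, hφ⟩ := exists_nh he he2
    have hl : ⟪nh φ, S.X u⟫ = 0 := by
      rw [hφ, inner_smul_left, ip]
      simp
      right
      ring
    have h1 := ct3 D (norm_nh φ) (hS φ) hu hl
    rw [hφ, inner_smul_left] at h1
    simp only [RCLike.conj_to_real] at h1
    have h2 : σ * ⟪TT (S.X u), S.N u⟫ =
        ‖TT (S.X u)‖ * (σ * ‖TT (S.X u)‖⁻¹ * ⟪TT (S.X u), S.N u⟫) := by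
      field_simp
    rw [h2]
    exact mul_nonpos_of_nonneg_of_nonpos hc.le h1
  have h1 := key 1 (by norm_num)
  have h2 := key (-1) (by norm_num)
  rw [real_inner_comm]
  linarith

theorem axis_pt {S : Surf} (D : PreDom S) : ∃ u : V2, ‖u‖ < 1 ∧ (S.X u) 0 = 0 ∧ (S.X u) 1 = 0 := by
  obtain ⟨ε, hε, hin⟩ := D.inD 0 (by simp) (by simp)
  obtain ⟨M, hM⟩ := D.bdd.exists_norm_le
  set A : Set V3 := (fun t : ℝ => (0 : V3) - t • E3) '' Ici (ε / 2) with hA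
  have hAp : IsPreconnected A := by
    refine isPreconnected_Ici.image _ (Continuous.continuousOn ?_)
    fun_prop
  have hE3 : ‖E3‖ = 1 := by
    have h := nsq E3
    simp at h
    rcases h with h | h
    · exact h
    · have := norm_nonneg E3
      linarith
  have hne : ¬ Disjoint A (frontier D.W) := by
    intro hd
    rcases sep D.isOpen hAp hd with h | h
    · have h1 : (0 : V3) - (max (ε / 2) (M + 1)) • E3 ∈ D.W :=
        h ⟨_, Set.mem_Ici.2 (le_max_left _ _), rfl⟩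
      have h2 := hM _ h1
      rw [zero_sub, norm_neg, norm_smul, hE3, mul_one, Real.norm_eq_abs] at h2
      have h3 := le_max_right (ε / 2) (M + 1)
      have h4 := le_abs_self (max (ε / 2) (M + 1))
      linarith
    · have h1 : (0 : V3) - (ε / 2) • E3 ∈ (closure D.W)ᶜ := h ⟨_, self_mem_Ici, rfl⟩
      exact h1 (subset_closure (hin (ε / 2) (by linarith) (by linarith)).1)
  obtain ⟨y, ⟨T, hT, hTy⟩, hy⟩ := Set.not_disjoint_iff.1 hne
  have hTy' : y = (0 : V3) - T • E3 := hTy.symm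
  have y0 : y 0 = 0 := by rw [hTy']; simp
  have y1 : y 1 = 0 := by rw [hTy']; simp
  have y2 : y 2 = -T := by rw [hTy']; simp
  have hT' : ε / 2 ≤ T := hT
  rcases D.fr hy with ⟨u, hu, hXu⟩ | h
  · refine ⟨u, lt_of_le_of_ne hu fun h1 => ?_, by rw [hXu, y0], by rw [hXu, y1]⟩
    have h2 := (S.bd1 h1).2
    rw [hXu, y0, y1] at h2
    norm_num at h2
  · have h2 := h.1
    rw [y2] at h2
    linarith

theorem RSA_dec (L : V2 →L[ℝ] V3) (a : V2) : L a = a 0 • L e0 + a 1 • L e1 := by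
  rw [← map_smul, ← map_smul, ← map_add, ← V2_decomp a]

theorem wg_lin (S : Surf) {u : V2} (hu : ‖u‖ ≤ 1) (a b : V2) :
    cr (fderiv ℝ S.N u a) (fderiv ℝ S.X u b) - cr (fderiv ℝ S.N u b) (fderiv ℝ S.X u a)
      = (-2 * S.H) • cr (fderiv ℝ S.X u a) (fderiv ℝ S.X u b) := by
  have h := S.wg3 hu
  have hn : nn S.X u = cr (fderiv ℝ S.X u e0) (fderiv ℝ S.X u e1) := rfl
  rw [hn] at h
  rw [RSA_dec (fderiv ℝ S.N u) a, RSA_dec (fderiv ℝ S.N u) b, RSA_dec (fderiv ℝ S.X u) a,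
    RSA_dec (fderiv ℝ S.X u) b]
  set N0 := fderiv ℝ S.N u e0
  set N1 := fderiv ℝ S.N u e1
  set X0 := fderiv ℝ S.X u e0
  set X1 := fderiv ℝ S.X u e1
  have h0 := congrArg (fun v : V3 => v 0) h
  have h1 := congrArg (fun v : V3 => v 1) h
  have h2 := congrArg (fun v : V3 => v 2) h
  simp at h0 h1 h2
  apply ext3
  · simp
    linear_combination (a 0 * b 1 - a 1 * b 0) * h0
  · simp
    linear_combination (a 0 * b 1 - a 1 * b 0) * h1
  · simp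
    linear_combination (a 0 * b 1 - a 1 * b 0) * h2

theorem RSA_coord (i : Fin 3) {c : V2 → V3} {u : V2} (h : DifferentiableAt ℝ c u) :
    HasFDerivAt (fun x => (c x) i)
      ((EuclideanSpace.proj i : V3 →L[ℝ] ℝ).comp (fderiv ℝ c u)) u :=
  (EuclideanSpace.proj i : V3 →L[ℝ] ℝ).hasFDerivAt.comp u h.hasFDerivAt

theorem RSA_diff (S : Surf) (hax : ∀ u : V2, ‖u‖ < 1 → ⟪S.N u, TT (S.X u)⟫ = 0) {u : V2}
    (hu : ‖u‖ < 1) (a : V2) :
    ⟪fderiv ℝ S.N u a, TT (S.X u)⟫ + ⟪S.N u, TT (fderiv ℝ S.X u a)⟫ = 0 := by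
  have dN : DifferentiableAt ℝ S.N u := (S.smoothN hu.le).differentiableAt (by norm_num)
  have dX : DifferentiableAt ℝ S.X u := S.smooth.differentiable (by norm_num) u
  have h1 : (fun x => (S.N x) 1 * (S.X x) 0 - (S.N x) 0 * (S.X x) 1) =ᶠ[𝓝 u]
      fun _ => (0 : ℝ) := by
    have : ∀ᶠ x : V2 in 𝓝 u, ‖x‖ < 1 := continuous_norm.continuousAt.eventually (gt_mem_nhds hu)
    filter_upwards [this] with x hx
    rw [← RSA_inner_TT]
    exact hax x hx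
  have h2 := (((RSA_coord 1 dN).mul (RSA_coord 0 dX)).sub
    ((RSA_coord 0 dN).mul (RSA_coord 1 dX))).fderiv
  have h3 : fderiv ℝ (fun x => (S.N x) 1 * (S.X x) 0 - (S.N x) 0 * (S.X x) 1) u = _ := h2
  rw [h1.fderiv_eq] at h3
  have h4 := congrArg (fun T : V2 →L[ℝ] ℝ => T a) h3
  simp at h4
  rw [RSA_inner_TT, RSA_inner_TT]
  linarith

theorem RSA_tau (S : Surf) (hax : ∀ u : V2, ‖u‖ < 1 → ⟪S.N u, TT (S.X u)⟫ = 0) {u : V2}
    (hu : ‖u‖ < 1) {τ : V2} (hτ : fderiv ℝ S.X u τ = TT (S.X u)) :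
    fderiv ℝ S.N u τ = TT (S.N u) := by
  have h1 : ∀ a : V2, ⟪fderiv ℝ S.N u τ - TT (S.N u), fderiv ℝ S.X u a⟫ = 0 := by
    intro a
    rw [inner_sub_left, S.wg_symm hu.le, hτ]
    have h2 := RSA_diff S hax hu a
    have h3 : ⟪S.N u, TT (fderiv ℝ S.X u a)⟫ = -⟪TT (S.N u), fderiv ℝ S.X u a⟫ := by
      rw [RSA_inner_TT, ip]
      simp
      ring
    linarith
  have h4 : ⟪fderiv ℝ S.N u τ - TT (S.N u), S.N u⟫ = 0 := by
    rw [inner_sub_left, S.wg2 hu.le]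
    have : ⟪TT (S.N u), S.N u⟫ = 0 := by
      rw [ip]
      simp
      ring
    rw [this, sub_zero]
  obtain ⟨a, ha⟩ := S.tangent hu.le h4
  have h5 := h1 a
  rw [ha, real_inner_self_eq_norm_sq] at h5
  have h6 : ‖fderiv ℝ S.N u τ - TT (S.N u)‖ = 0 := by
    rcases pow_eq_zero_iff (n := 2) (by norm_num) |>.1 h5 with h
    exact h
  exact sub_eq_zero.1 (norm_eq_zero.1 h6)

theorem dF (S : Surf) (hax : ∀ u : V2, ‖u‖ < 1 → ⟪S.N u, TT (S.X u)⟫ = 0) {u : V2}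
    (hu : ‖u‖ < 1) (a : V2) :
    ⟪fderiv ℝ S.N u a, hp (S.X u)⟫ + ⟪hp (S.N u), fderiv ℝ S.X u a⟫
      + 2 * S.H * ⟪hp (S.X u), fderiv ℝ S.X u a⟫ = 0 := by
  have h0 : ⟪TT (S.X u), S.N u⟫ = 0 := by
    rw [real_inner_comm]
    exact hax u hu
  obtain ⟨τ, hτ⟩ := S.tangent hu.le h0
  have h1 := wg_lin S hu.le a τ
  rw [RSA_tau S hax hu hτ, hτ] at h1
  have h2 := congrArg (fun v : V3 => v 2) h1
  simp at h2
  rw [RSA_inner_hp, RSA_hp_inner, RSA_hp_inner]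
  linarith

end Pool.Agent.H99.SC
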