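import Pool.Agent.H99.SC.RTN
import Pool.Agent.H99.SC.DRW
import Pool.Agent.H99.SC.BIN
import Pool.Agent.H99.SC.OPN
import Pool.Agent.H99.SC.DI

/-!
# RTA: monotonicity of `kk` under a reflection with `SS` (Hopf at the boundary)

`R = refl (nh φ) 0`, `SS D (nh φ) 0`, `‖u₁‖ = ‖v₁‖ = 1`, `X v₁ = R (X u₁)`, `0 < ⟪nh φ, X u₁⟫`.
`rotk_le`: `kk v₁ ≤ kk u₁`.  Suppose `k := kk u₁ < k' := kk v₁`.  Box `B` at `v₁` with `e = N v₁`,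
`w u = B.f (R (X u))`, `w = 0` on the parameter circle near `u₁` (`circ_zero`).  For `u` near `u₁` with
`‖u‖ < 1`: `0 < ⟪nh φ, X u⟫`, so `R (X u) ∈ closure W`.  Also `(R y) 2 = y 2`.
 * `k' > 0` (`N_r(v₁) < 0`).  If `k < 0` (`N_r(u₁) > 0`): `(X u) 2 > 0` (`side_u`), contradiction (`fnW`).
   If `k ≥ 0`: `1 + k k' > 0`, `drw_pos`, `rad1` for `-w`: `w < 0` inside: contradiction (`fnW`).
 * `k' ≤ 0`: `k < 0` so `(X u) 2 > 0` inside; `k k' ≥ 0`, `drw_pos`, `w < 0` inside: contradiction (`fnW`;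
   `k' = 0` is `N(v₁) = -E3`, `k' < 0` is `N_r(v₁) > 0`).
Take any interior `u` close to `u₁`, e.g. `(1-δ) u₁`.

`rotk_eq`: if `kk v₁ = kk u₁` then `R` maps `S.Sig` into itself.  `kk_inj`: `N_r`, `N_3` agree, so
`R (N u₁) = N v₁` (`N_decomp`, `R E3 = E3`).  For `‖u‖ < 1` near `u₁`: `w u ≥ 0` by `fnn` (the side
condition for `y = R (X u)` comes from `side_u` at `u₁`, same sign of `N_r`; `N(u₁) = -E3` iff `N(v₁) = -E3`;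
`nE_cases`).  `Dw(u₁) = 0` (`fderiv_w_zero`).  `di` and `bin`: `|Lop X w u| ≤ K |Dw|` for `‖u‖ < 1` near `u₁`.
`touch` with `Ω = ball 0 1`, `x₀ = u₁`, `ν = -u₁`, `R = 1`: zeros `u` of `w` in the open disc arbitrarily near
`u₁`; there `R (X u) = X (B.b ..)` (`coord` with `f = 0`) with `‖B.b ..‖ < 1` (`bin`) and `0 < ⟪nh φ, X u⟫`: `ct1`, then `ct4`
((h1): `R (X u)` is on the circle for `‖u‖ = 1`, in `Disc`, so not an `X v` with `‖v‖ < 1`, `D.disj`).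
-/

set_option autoImplicit false

open scoped RealInnerProductSpace Topology
open Metric Filter Set

noncomputable section

namespace Pool.Agent.H99.SC

theorem RTA_exists {u₁ : V2} (hu₁ : ‖u₁‖ = 1) {P : V2 → Prop} (h : ∀ᶠ u in 𝓝 u₁, P u) :
    ∃ u : V2, ‖u‖ < 1 ∧ P u := by
  obtain ⟨ε, hε, hP⟩ := Metric.eventually_nhds_iff.1 h
  obtain ⟨u, hu, hu1⟩ := ORI_inside hu₁ hε
  exact ⟨u, hu1, hP (by rwa [dist_eq_norm])⟩

theorem h1_refl0 {S : Surf} (D : PreDom S) (φ : ℝ) : ∀ u v : V2, ‖u‖ = 1 → ‖v‖ < 1 →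
    refl (nh φ) 0 (S.X u) ≠ S.X v := by
  have _ := D
  intro u v hu hv h
  have h1 := S.bd1 hu
  have h2 : (S.X v) 2 = 0 := by rw [← h, refl0_2]; exact h1.1
  have h3 : (S.X v) 0 ^ 2 + (S.X v) 1 ^ 2 = 1 := by rw [← h, refl0_r]; exact h1.2
  have h4 := S.bd2 hv.le h2 h3
  linarith

/-- the reflected point is in the closed domain near a boundary point on the positive side -/
theorem RTA_closure {S : Surf} (D : Dom S) {φ : ℝ} (hS : SS D (nh φ) 0) {u₁ : V2}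
    (hl : 0 < ⟪nh φ, S.X u₁⟫) :
    ∀ᶠ u in 𝓝 u₁, 0 < ⟪nh φ, S.X u⟫ ∧ (‖u‖ < 1 → refl (nh φ) 0 (S.X u) ∈ closure D.W) := by
  have hc : ContinuousAt (fun u => (⟪nh φ, S.X u⟫ : ℝ)) u₁ :=
    (continuous_const.inner S.smooth.continuous).continuousAt
  have hev : ∀ᶠ u in 𝓝 u₁, 0 < ⟪nh φ, S.X u⟫ := hc.eventually (lt_mem_nhds hl)
  filter_upwards [hev] with u hu
  exact ⟨hu, fun h1 => hS u h1.le hu.le⟩

theorem RTA_y_cont (S : Surf) (φ : ℝ) : Continuous fun u => refl (nh φ) 0 (S.X u) :=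
  (OPN_cont (nh φ) 0).comp S.smooth.continuous

theorem RTA_w_circ (S : Surf) {φ : ℝ} {u₁ v₁ : V2} (hv₁ : ‖v₁‖ = 1)
    (hx : S.X v₁ = refl (nh φ) 0 (S.X u₁)) {e : V3} (B : Box S.X v₁ e) :
    ∀ᶠ u in 𝓝 u₁, ‖u‖ = 1 → B.f (refl (nh φ) 0 (S.X u)) = 0 := by
  have h1 := circ_zero S hv₁ B
  rw [hx] at h1
  have h2 : ∀ᶠ u in 𝓝 u₁, (refl (nh φ) 0 (S.X u)) 2 = 0 →
      (refl (nh φ) 0 (S.X u)) 0 ^ 2 + (refl (nh φ) 0 (S.X u)) 1 ^ 2 = 1 →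
      B.f (refl (nh φ) 0 (S.X u)) = 0 ∧ ‖B.b (refl (nh φ) 0 (S.X u))‖ = 1 :=
    ((RTA_y_cont S φ).tendsto u₁).eventually h1
  filter_upwards [h2] with u hu hu1
  have h3 := S.bd1 hu1
  refine (hu ?_ ?_).1
  · rw [refl0_2]; exact h3.1
  · rw [refl0_r]; exact h3.2

theorem RTA_w_neg {S : Surf} (D : Dom S) {φ : ℝ} {u₁ v₁ : V2} (hu₁ : ‖u₁‖ = 1)
    (hv₁ : ‖v₁‖ = 1) (hx : S.X v₁ = refl (nh φ) 0 (S.X u₁)) {e : V3} (B : Box S.X v₁ e)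
    (hk : S.kk u₁ < S.kk v₁) (hk' : 0 < 1 + S.kk u₁ * S.kk v₁) :
    ∀ᶠ u in 𝓝 u₁, ‖u‖ < 1 → B.f (refl (nh φ) 0 (S.X u)) < 0 := by
  have hU : refl (nh φ) 0 (S.X u₁) ∈ B.U B.r := by rw [← hx]; exact B.mem_U B.hr
  have h1 := drw_pos D hu₁ hv₁ hx B hk hk'
  have h2 : ContDiffAt ℝ 2 (fun u => B.f (refl (nh φ) 0 (S.X u))) u₁ :=
    contDiffAt_w S B (nh φ) 0 hU
  have h3 : ContDiffAt ℝ 1 (fun u => -B.f (refl (nh φ) 0 (S.X u))) u₁ :=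
    (h2.of_le (by norm_num)).neg
  have h4 : fderiv ℝ (fun u => -B.f (refl (nh φ) 0 (S.X u))) u₁ u₁ < 0 := by
    rw [fderiv_fun_neg, neg_apply]
    linarith
  have h5 : ∀ᶠ u in 𝓝 u₁, ‖u‖ = 1 → -B.f (refl (nh φ) 0 (S.X u)) = 0 := by
    filter_upwards [RTA_w_circ S hv₁ hx B] with u hu hu1
    rw [hu hu1, neg_zero]
  filter_upwards [rad1 hu₁ h3 h5 h4] with u hu hu1
  have := hu.1 hu1
  linarith

theorem rotk_le {S : Surf} (D : Dom S) {φ : ℝ} (hS : SS D (nh φ) 0) {u₁ v₁ : V2}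
    (hu₁ : ‖u₁‖ = 1) (hv₁ : ‖v₁‖ = 1) (hx : S.X v₁ = refl (nh φ) 0 (S.X u₁))
    (hl : 0 < ⟪nh φ, S.X u₁⟫) : S.kk v₁ ≤ S.kk u₁ := by
  by_contra hcon
  push Not at hcon
  obtain ⟨B⟩ := CTC_box S hv₁.le
  have hcl := RTA_closure D hS hl
  have hsd := side_u D.toPreDom hu₁
  have hfn : ∀ᶠ u in 𝓝 u₁,
      (S.Nr v₁ < 0 → (B.f (refl (nh φ) 0 (S.X u)) < 0 ∨ 0 < (refl (nh φ) 0 (S.X u)) 2) →
        refl (nh φ) 0 (S.X u) ∉ closure D.W) ∧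
      ((0 < S.Nr v₁ ∨ S.N v₁ = -E3) → B.f (refl (nh φ) 0 (S.X u)) < 0 →
        0 < (refl (nh φ) 0 (S.X u)) 2 → refl (nh φ) 0 (S.X u) ∉ closure D.W) := by
    have h1 := fnW D.toPreDom hv₁ B
    rw [hx] at h1
    exact ((RTA_y_cont S φ).tendsto u₁).eventually h1
  rcases lt_or_ge 0 (S.kk v₁) with hk' | hk'
  · have hNv : S.Nr v₁ < 0 := (Surf.kk_pos D hv₁).1 hk'
    rcases lt_or_ge (S.kk u₁) 0 with hk | hk
    · have hNu : 0 < S.Nr u₁ := (Surf.kk_neg D hu₁).1 hk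
      obtain ⟨u, hu1, hu2, hu3, hu4⟩ := RTA_exists hu₁ (hcl.and (hsd.and hfn))
      refine (hu4.1 hNv (Or.inr ?_)) (hu2.2 hu1)
      rw [refl0_2]
      exact (hu3 hu1).2.1 hNu
    · have hneg := RTA_w_neg D hu₁ hv₁ hx B hcon (by positivity)
      obtain ⟨u, hu1, hu2, hu3, hu4⟩ := RTA_exists hu₁ (hcl.and (hneg.and hfn))
      exact (hu4.1 hNv (Or.inl (hu3 hu1))) (hu2.2 hu1)
  · have hk : S.kk u₁ < 0 := lt_of_lt_of_le hcon hk'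
    have hNu : 0 < S.Nr u₁ := (Surf.kk_neg D hu₁).1 hk
    have hmul : 0 ≤ S.kk u₁ * S.kk v₁ := mul_nonneg_of_nonpos_of_nonpos hk.le hk'
    have hneg := RTA_w_neg D hu₁ hv₁ hx B hcon (by linarith)
    obtain ⟨u, hu1, hu2, hu3, hu4, hu5⟩ := RTA_exists hu₁ (hcl.and (hneg.and (hsd.and hfn)))
    have hcase : 0 < S.Nr v₁ ∨ S.N v₁ = -E3 := by
      rcases lt_or_eq_of_le hk' with h1 | h1
      · exact Or.inl ((Surf.kk_neg D hv₁).1 h1)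
      · exact Or.inr ((Surf.kk_zero D hv₁).1 h1)
    refine (hu5.2 hcase (hu3 hu1) ?_) (hu2.2 hu1)
    rw [refl0_2]
    exact (hu4 hu1).2.1 hNu

theorem rotk_eq {S : Surf} (D : Dom S) {φ : ℝ} (hS : SS D (nh φ) 0) {u₁ v₁ : V2}
    (hu₁ : ‖u₁‖ = 1) (hv₁ : ‖v₁‖ = 1) (hx : S.X v₁ = refl (nh φ) 0 (S.X u₁))
    (hl : 0 < ⟪nh φ, S.X u₁⟫) (hk : S.kk v₁ = S.kk u₁) :
    ∀ u : V2, ‖u‖ ≤ 1 → refl (nh φ) 0 (S.X u) ∈ S.Sig := by
  have hn : ‖nh φ‖ = 1 := norm_nh φ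
  obtain ⟨B⟩ := CTC_box S hv₁.le
  obtain ⟨hNr, hN3⟩ := Surf.kk_inj D hv₁ hu₁ hk
  -- the normals correspond
  have hNN : rl (nh φ) (S.N u₁) = S.N v₁ := by
    have h1 : rl (nh φ) (S.X u₁) = S.X v₁ := by rw [hx, refl0_eq]
    have h2 : rl (nh φ) E3 = E3 := by rw [← refl0_eq, refl0_E3]
    rw [Surf.N_decomp S hu₁, rl_add, rl_smul, rl_smul, h1, h2, Surf.N_decomp S hv₁, hNr, hN3]
  have hU : refl (nh φ) 0 (S.X u₁) ∈ B.U B.r := by rw [← hx]; exact B.mem_U B.hr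
  have hb : B.b (refl (nh φ) 0 (S.X u₁)) = v₁ := by
    rw [← hx]; exact B.b_X (by simpa using B.hr)
  have hUev : ∀ᶠ u in 𝓝 u₁, refl (nh φ) 0 (S.X u) ∈ B.U B.r :=
    (RTA_y_cont S φ).continuousAt.eventually ((B.U_open B.hr le_rfl).mem_nhds hU)
  have hcl := RTA_closure D hS hl
  have hsd := side_u D.toPreDom hu₁
  have hfn : ∀ᶠ u in 𝓝 u₁, refl (nh φ) 0 (S.X u) ∈ closure D.W →
      (S.Nr v₁ < 0 ∨ (0 < S.Nr v₁ ∧ 0 < (refl (nh φ) 0 (S.X u)) 2) ∨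
        (S.N v₁ = -E3 ∧ 1 < (refl (nh φ) 0 (S.X u)) 0 ^ 2 + (refl (nh φ) 0 (S.X u)) 1 ^ 2)) →
      0 ≤ B.f (refl (nh φ) 0 (S.X u)) := by
    have h1 := fnn D.toPreDom hv₁ B
    rw [hx] at h1
    exact ((RTA_y_cont S φ).tendsto u₁).eventually h1
  have hnn : ∀ᶠ u in 𝓝 u₁, u ∈ ball (0 : V2) 1 → 0 ≤ B.f (refl (nh φ) 0 (S.X u)) := by
    filter_upwards [hcl, hsd, hfn] with u h1 h2 h3 hu
    have hu1 : ‖u‖ < 1 := by simpa using hu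
    refine h3 (h1.2 hu1) ?_
    rcases nE_cases D hv₁ with h4 | h4 | h4
    · exact Or.inl h4
    · refine Or.inr (Or.inl ⟨h4, ?_⟩)
      rw [refl0_2]
      exact (h2 hu1).2.1 (by rw [← hNr]; exact h4)
    · refine Or.inr (Or.inr ⟨h4, ?_⟩)
      rw [refl0_r]
      refine (h2 hu1).2.2 ?_
      have h5 : S.N u₁ = rl (nh φ) (S.N v₁) := by rw [← hNN, rl_rl _ hn]
      rw [h5, h4, rl_neg, ← refl0_eq, refl0_E3]
  have hD0 : fderiv ℝ (fun u => B.f (refl (nh φ) 0 (S.X u))) u₁ = 0 :=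
    fderiv_w_zero S B hn 0 hU (by rw [hb]; exact hNN)
  have hbin := bin D.toPreDom hu₁ hv₁ hx hNN B
  obtain ⟨K, hK⟩ := di S B hn 0 hu₁.le hU (by rw [hb]; exact hv₁.le) (by
    rw [hb, hNN, real_inner_self_eq_norm_sq, S.N_norm hv₁.le]; norm_num)
  have hf0 : B.f (refl (nh φ) 0 (S.X u₁)) = 0 := by
    rw [← hx]; exact B.f_X (by simpa using B.hr)
  obtain ⟨ε, hε, hP⟩ := Metric.eventually_nhds_iff.1 (hUev.and (hbin.and hcl))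
  have hdi : ∀ᶠ x in 𝓝 u₁, x ∈ ball (0 : V2) 1 →
      Ell (cA S.X) (cB S.X) (cC S.X) (fun u => B.f (refl (nh φ) 0 (S.X u))) x ≤
        K * ‖fderiv ℝ (fun u => B.f (refl (nh φ) 0 (S.X u))) x‖ := by
    filter_upwards [hK, hbin] with x h1 h2 hx1
    have hx2 : ‖x‖ < 1 := by simpa using hx1
    rw [← Lop_eq_Ell]
    exact (le_abs_self _).trans (h1 hx2 (h2 hx2))
  obtain ⟨x, hx1, hx2, hx3⟩ := touch (A := cA S.X) (B := cB S.X) (C := cC S.X)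
    (w := fun u => B.f (refl (nh φ) 0 (S.X u))) (Ω := ball (0 : V2) 1) (x₀ := u₁) (ν := -u₁)
    (K := K) (R := 1) one_pos (by rw [norm_neg]; exact hu₁)
    (by rw [one_smul, add_neg_cancel]) (contDiffAt_w S B (nh φ) 0 hU) hf0 hnn
    (contDiff_cA S.smooth).continuous.continuousAt (contDiff_cB S.smooth).continuous.continuousAt
    (contDiff_cC S.smooth).continuous.continuousAt (cA_pos (S.imm u₁ hu₁.le))
    (cB_sq_lt (S.imm u₁ hu₁.le)) hdi (by rw [hD0]; simp) ε hε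
  have hx4 : ‖x‖ < 1 := by simpa using hx2
  obtain ⟨hxU, hxb, hxc⟩ := hP (y := x) (by rwa [dist_eq_norm])
  have hco := B.coord le_rfl hxU
  have hx5 : B.f (refl (nh φ) 0 (S.X x)) = 0 := hx3
  have hx6 : refl (nh φ) 0 (S.X x) = S.X (B.b (refl (nh φ) 0 (S.X x))) := by
    have := hco.2.2
    rw [hx5, zero_smul, add_zero] at this
    exact this.symm
  exact ct4 D hn hS (h1_refl0 D.toPreDom φ) hx4 (ct1 D hn hS hx4 hxc.1 (hxb hx4) hx6)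

end Pool.Agent.H99.SC
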