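import Pool.Agent.H99.SC.RTN
import Pool.Agent.H99.SC.BIN
import Pool.Agent.H99.SC.OPN
import Pool.Agent.H99.SC.DI
import Pool.Agent.H99.SC.CNC
import Pool.Agent.H99.SC.CND

/-!
# RTC: the corner lemma at a hinge

`SS D (nh φ) 0`, `R = refl (nh φ) 0` does not map `S.Sig` into itself, `‖u₁‖ = 1`, `⟪nh φ, X u₁⟫ = 0`,
`p = X u₁`, box `B` at `u₁` with `e = N u₁`, `w u = B.f (R (X u))`, `l u = ⟪nh φ, X u⟫`.
Claim: `Dw(u₁) = 0` and `D l(u₁)(rot u₁) * D2 w u₁ u₁ (rot u₁) < 0`.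
Proof.  `n = nh φ` is orthogonal to `p` and to `E3`, so `⟪n, N u₁⟫ = 0` (`N_decomp`), `rl n (N u₁) = N u₁`,
`R p = p`: `fderiv_w_zero` gives `Dw(u₁) = 0`.  `TT p = σ n`, `σ^2 = 1` (`TT_hinge`), so `fderiv X u₁ (rot u₁) = lam σ n`
(`rot_deriv`), `Dl(u₁)(rot u₁) = lam σ ≠ 0`.  Let `s = sign`, i.e. `s = 1` or `-1` with `s lam σ > 0`.
Corner data: `x₀ = u₁`, `ξ u = 1 - ‖u‖^2`, `η = l`; `q = s rot u₁`; `p' = -u₁ + c rot u₁` with
`c = Dl(u₁)(u₁)/(lam σ)`, so `Dη p' = 0`, `Dξ p' = 2 > 0`, `Dξ q = 0`, `Dη q > 0`.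
`A = cA X`, `B = cB X`, `C = cC X` (C^1).
 `horth`: put `τ = (1/(lam σ)) rot u₁`: `fderiv X u₁ τ = n`, so `Dη a = ⟪n, X_a⟫ = ⟪DX τ, X_a⟫`; with
 `E = |X_u|^2, F = X_u.X_v, G = |X_v|^2`: `Dη e0 = τ_0 E + τ_1 F`, `Dη e1 = τ_0 F + τ_1 G` and
 `G ξ_0 η_0 - F (ξ_0 η_1 + ξ_1 η_0) + E ξ_1 η_1 = (EG - F^2)(ξ_0 τ_0 + ξ_1 τ_1) = (EG-F^2) Dξ τ = 0`.
 `hwξ`: `‖u‖ = 1` near `u₁`: `R (X u)` is on the circle, `circ_zero`.  `hwη`: `l u = 0`: `R (X u) = X u`, `f_X`.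
 `hwp`: for `‖u‖ < 1`, `l u > 0` near `u₁`: `R (X u) ∈ closure W`, `w u ≥ 0` by `fnn` with `side_u`
 (`v₁ = u₁`; `nE_cases`).  If `w u = 0`: `R (X u) = X (B.b ..)`, `‖B.b ..‖ < 1` (`bin` with `v₁ = u₁`):
 `ct1`, `ct4`, `h1_refl0`-type argument: `R` maps `S.Sig` into itself, contradiction.
 `hdi`: `di` and `bin`, `Lop_eq_Ell`.
 `hpp`, `hqq`: `D2_zero` with `η = l` and with `ξ` (`Dξ q = 0`; `w = 0` on `ξ = 0`).
`corner`: `0 < D2 w u₁ p' q = s (-D2 w u₁ u₁ (rot u₁) + c D2 w u₁ (rot u₁) (rot u₁))` and the last term is 0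
(`hqq`, `s^2 = 1`).  So `s D2 w u₁ u₁ (rot u₁) < 0`; multiply by `s lam σ > 0`.
-/

set_option autoImplicit false

open scoped RealInnerProductSpace Topology
open Metric Filter Set

noncomputable section

namespace Pool.Agent.H99.SC

theorem RTC_nE3 (φ : ℝ) : ⟪nh φ, E3⟫ = 0 := by
  rw [ip]
  simp

theorem RTC_h1 {S : Surf} (D : PreDom S) (φ : ℝ) : ∀ u v : V2, ‖u‖ = 1 → ‖v‖ < 1 →
    refl (nh φ) 0 (S.X u) ≠ S.X v := by
  intro u v hu hv h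
  apply D.disj v hv
  rw [← h]
  obtain ⟨h2, h1⟩ := S.bd1 hu
  refine ⟨by rw [refl0_2]; exact h2, ?_⟩
  rw [refl0_r]
  exact h1.le

theorem RTC_fix {φ : ℝ} {y : V3} (h : ⟪nh φ, y⟫ = 0) : refl (nh φ) 0 y = y := by
  unfold refl
  rw [h]
  simp

theorem RTC_cont (S : Surf) (φ : ℝ) : Continuous fun u : V2 => refl (nh φ) 0 (S.X u) :=
  CTA_cont (nh φ) 0

theorem RTC_rot_perp (u : V2) : ⟪u, rot u⟫ = 0 := by
  rw [ip2]
  simp
  ring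

/-- derivative of `1 - ‖u‖²` -/
theorem RTC_xi (u : V2) :
    HasFDerivAt (fun u : V2 => 1 - ‖u‖ ^ 2) (-(2 • innerSL ℝ u)) u :=
  (hasStrictFDerivAt_norm_sq u).hasFDerivAt.const_sub 1

theorem RTC_xi_apply (u a : V2) : fderiv ℝ (fun u : V2 => 1 - ‖u‖ ^ 2) u a = -2 * ⟪u, a⟫ := by
  rw [(RTC_xi u).fderiv]
  show -((2 : ℕ) • ⟪u, a⟫) = _
  simp

theorem RTC_xi_cd : ContDiff ℝ 2 (fun u : V2 => 1 - ‖u‖ ^ 2) :=
  contDiff_const.sub (contDiff_id.norm_sq ℝ)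

theorem RTC_eta (S : Surf) (n : V3) (u : V2) :
    HasFDerivAt (fun u : V2 => ⟪n, S.X u⟫) ((innerSL ℝ n).comp (fderiv ℝ S.X u)) u := by
  have h3 : DifferentiableAt ℝ S.X u := S.smooth.contDiffAt.differentiableAt (by norm_num)
  exact (innerSL ℝ n).hasFDerivAt.comp u h3.hasFDerivAt

theorem RTC_eta_apply (S : Surf) (n : V3) (u a : V2) :
    fderiv ℝ (fun u : V2 => ⟪n, S.X u⟫) u a = ⟪n, fderiv ℝ S.X u a⟫ := by
  rw [(RTC_eta S n u).fderiv]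
  rfl

theorem RTC_eta_cd (S : Surf) (n : V3) : ContDiff ℝ 2 (fun u : V2 => ⟪n, S.X u⟫) :=
  contDiff_const.inner ℝ S.smooth

theorem RTC_horth (S : Surf) {n : V3} {u : V2} {ls : ℝ} (hls : ls ≠ 0)
    (h : fderiv ℝ S.X u (rot u) = ls • n) :
    cA S.X u * (fderiv ℝ (fun u : V2 => 1 - ‖u‖ ^ 2) u e0
        * fderiv ℝ (fun u : V2 => ⟪n, S.X u⟫) u e0)
      + cB S.X u * (fderiv ℝ (fun u : V2 => 1 - ‖u‖ ^ 2) u e0
          * fderiv ℝ (fun u : V2 => ⟪n, S.X u⟫) u e1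
        + fderiv ℝ (fun u : V2 => 1 - ‖u‖ ^ 2) u e1
          * fderiv ℝ (fun u : V2 => ⟪n, S.X u⟫) u e0)
      + cC S.X u * (fderiv ℝ (fun u : V2 => 1 - ‖u‖ ^ 2) u e1
        * fderiv ℝ (fun u : V2 => ⟪n, S.X u⟫) u e1) = 0 := by
  have h1 : fderiv ℝ S.X u (rot u) = (-(u 1)) • fderiv ℝ S.X u e0 + u 0 • fderiv ℝ S.X u e1 := by
    have h2 : rot u = (-(u 1)) • e0 + u 0 • e1 := by
      apply ext2 <;> simp
    rw [h2, map_add, map_smul, map_smul]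
  rw [h1] at h
  have h0 : ls * ⟪n, fderiv ℝ S.X u e0⟫ = -(u 1) * cC S.X u - u 0 * cB S.X u := by
    rw [← real_inner_smul_left, ← h, inner_add_left, real_inner_smul_left, real_inner_smul_left]
    unfold cC cB
    rw [real_inner_comm (fderiv ℝ S.X u e0) (fderiv ℝ S.X u e1)]
    ring
  have h3 : ls * ⟪n, fderiv ℝ S.X u e1⟫ = (u 1) * cB S.X u + u 0 * cA S.X u := by
    rw [← real_inner_smul_left, ← h, inner_add_left, real_inner_smul_left, real_inner_smul_left]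
    unfold cA cB
    ring
  have e0' : ⟪u, e0⟫ = u 0 := by rw [ip2]; simp
  have e1' : ⟪u, e1⟫ = u 1 := by rw [ip2]; simp
  rw [RTC_xi_apply, RTC_xi_apply, RTC_eta_apply, RTC_eta_apply, e0', e1']
  apply mul_left_cancel₀ hls
  linear_combination (cA S.X u * (-2 * u 0) + cB S.X u * (-2 * u 1)) * h0
    + (cB S.X u * (-2 * u 0) + cC S.X u * (-2 * u 1)) * h3

theorem rot_corner {S : Surf} (D : Dom S) {φ : ℝ} (hS : SS D (nh φ) 0)
    (hns : ∃ u : V2, ‖u‖ ≤ 1 ∧ refl (nh φ) 0 (S.X u) ∉ S.Sig) {u₁ : V2} (hu₁ : ‖u₁‖ = 1)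
    (hl : ⟪nh φ, S.X u₁⟫ = 0) (B : Box S.X u₁ (S.N u₁)) :
    fderiv ℝ (fun u => B.f (refl (nh φ) 0 (S.X u))) u₁ = 0 ∧
    fderiv ℝ (fun u => ⟪nh φ, S.X u⟫) u₁ (rot u₁)
      * D2 (fun u => B.f (refl (nh φ) 0 (S.X u))) u₁ u₁ (rot u₁) < 0 := by
  have hn : ‖nh φ‖ = 1 := norm_nh φ
  have hfix : refl (nh φ) 0 (S.X u₁) = S.X u₁ := RTC_fix hl
  have hU : refl (nh φ) 0 (S.X u₁) ∈ B.U B.r := by
    rw [hfix]
    exact B.mem_U B.hr
  have hbX : B.b (refl (nh φ) 0 (S.X u₁)) = u₁ := by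
    rw [hfix]
    exact B.b_X (by simpa using B.hr)
  obtain ⟨hX2, hX1⟩ := S.bd1 hu₁
  have hnN : ⟪nh φ, S.N u₁⟫ = 0 := by
    rw [S.N_decomp hu₁, inner_add_right, inner_smul_right, inner_smul_right, hl, RTC_nE3]
    simp
  have hrlN : rl (nh φ) (S.N u₁) = S.N u₁ := by
    unfold rl
    rw [hnN]
    simp
  have hDw : fderiv ℝ (fun u => B.f (refl (nh φ) 0 (S.X u))) u₁ = 0 := by
    apply fderiv_w_zero S B hn 0 hU
    rw [hbX, hrlN]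
  refine ⟨hDw, ?_⟩
  have hwcd : ContDiffAt ℝ 2 (fun u => B.f (refl (nh φ) 0 (S.X u))) u₁ := contDiffAt_w S B (nh φ) 0 hU
  obtain ⟨σ, hσ, hTT⟩ := TT_hinge hX2 hX1 hl
  obtain ⟨ls, hlsd⟩ : ∃ ls, ls = S.lam u₁ * σ := ⟨_, rfl⟩
  have hls : ls ≠ 0 := by
    rw [hlsd]
    apply mul_ne_zero (S.lam_ne hu₁)
    rintro rfl
    norm_num at hσ
  have hrot : fderiv ℝ S.X u₁ (rot u₁) = ls • nh φ := by
    rw [S.rot_deriv hu₁, hTT, smul_smul, hlsd]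
  have hDη : fderiv ℝ (fun u => ⟪nh φ, S.X u⟫) u₁ (rot u₁) = ls := by
    rw [RTC_eta_apply, hrot, inner_smul_right, real_inner_self_eq_norm_sq, hn]
    ring
  obtain ⟨s, hs2, hsl⟩ : ∃ s : ℝ, s ^ 2 = 1 ∧ 0 < s * ls := by
    rcases lt_or_gt_of_ne hls with h | h
    · exact ⟨-1, by norm_num, by linarith⟩
    · exact ⟨1, by norm_num, by linarith⟩
  obtain ⟨c, hc⟩ : ∃ c, c = fderiv ℝ (fun u => ⟪nh φ, S.X u⟫) u₁ u₁ / ls := ⟨_, rfl⟩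
  have hRt : Tendsto (fun u : V2 => refl (nh φ) 0 (S.X u)) (𝓝 u₁) (𝓝 (S.X u₁)) := by
    have := (RTC_cont S φ).tendsto u₁
    rwa [hfix] at this
  -- zeros on the circle
  have hwξ : ∀ᶠ x in 𝓝 u₁, 1 - ‖x‖ ^ 2 = 0 → B.f (refl (nh φ) 0 (S.X x)) = 0 := by
    filter_upwards [hRt.eventually (circ_zero S hu₁ B)] with x hx h
    have hx1 : ‖x‖ = 1 := by
      have : ‖x‖ ^ 2 = 1 := by linarith
      nlinarith [norm_nonneg x]
    obtain ⟨g2, g1⟩ := S.bd1 hx1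
    exact (hx (by rw [refl0_2]; exact g2) (by rw [refl0_r]; exact g1)).1
  have hwη : ∀ᶠ x in 𝓝 u₁, ⟪nh φ, S.X x⟫ = 0 → B.f (refl (nh φ) 0 (S.X x)) = 0 := by
    filter_upwards [ball_mem_nhds u₁ B.hr] with x hx h
    rw [RTC_fix h]
    rw [mem_ball, dist_eq_norm] at hx
    exact B.f_X hx
  have hEU : ∀ᶠ x in 𝓝 u₁, refl (nh φ) 0 (S.X x) ∈ B.U B.r :=
    hRt.eventually (B.U_nhds B.hr le_rfl)
  have hbin := bin D.toPreDom hu₁ hu₁ hfix.symm hrlN B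
  have hlt : ∀ x : V2, 0 < 1 - ‖x‖ ^ 2 → ‖x‖ < 1 := by
    intro x hx
    by_contra hcon
    push Not at hcon
    nlinarith
  have hwp : ∀ᶠ x in 𝓝 u₁, 0 < 1 - ‖x‖ ^ 2 → 0 < ⟪nh φ, S.X x⟫ →
      0 < B.f (refl (nh φ) 0 (S.X x)) := by
    filter_upwards [hRt.eventually (fnn D.toPreDom hu₁ B), side_u D.toPreDom hu₁, hbin, hEU]
      with x h1 h2 h3 h4 hξ hη
    have hx := hlt x hξ
    have hcl := hS x hx.le hη.le
    obtain ⟨s1, s2, s3⟩ := h2 hx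
    have hnn : 0 ≤ B.f (refl (nh φ) 0 (S.X x)) := by
      apply h1 hcl
      rcases nE_cases D hu₁ with h | h | h
      · exact Or.inl h
      · refine Or.inr (Or.inl ⟨h, ?_⟩)
        rw [refl0_2]
        exact s2 h
      · refine Or.inr (Or.inr ⟨h, ?_⟩)
        rw [refl0_r]
        exact s3 h
    refine lt_of_le_of_ne hnn fun h0 => ?_
    have hb := h3 hx
    have hco := (B.coord le_rfl h4).2.2
    rw [← h0, zero_smul, add_zero] at hco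
    obtain ⟨u', hu', hu''⟩ := hns
    exact hu'' (ct4 D hn hS (RTC_h1 D.toPreDom φ) hx (ct1 D hn hS hx hη hb hco.symm) u' hu')
  -- differential inequality
  obtain ⟨K, hK⟩ := di S B hn 0 hu₁.le hU (by rw [hbX, hu₁]) (by
    rw [hbX, hrlN, real_inner_self_eq_norm_sq, S.N_norm hu₁.le]
    norm_num)
  have hdi : ∀ᶠ x in 𝓝 u₁, 0 < 1 - ‖x‖ ^ 2 → 0 < ⟪nh φ, S.X x⟫ →
      Ell (cA S.X) (cB S.X) (cC S.X) (fun u => B.f (refl (nh φ) 0 (S.X u))) x ≤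
        K * ‖fderiv ℝ (fun u => B.f (refl (nh φ) 0 (S.X u))) x‖ := by
    filter_upwards [hK, hbin] with x h1 h2 hξ _
    have hx := hlt x hξ
    rw [← Lop_eq_Ell]
    exact (le_abs_self _).trans (h1 hx (h2 hx))
  have hcA := contDiff_cA S.smooth
  have hcB := contDiff_cB S.smooth
  have hcC := contDiff_cC S.smooth
  have himm : nn S.X u₁ ≠ 0 := S.imm u₁ hu₁.le
  have hξq : fderiv ℝ (fun u : V2 => 1 - ‖u‖ ^ 2) u₁ (s • rot u₁) = 0 := by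
    rw [RTC_xi_apply, inner_smul_right, RTC_rot_perp]
    ring
  have hηp : fderiv ℝ (fun u => ⟪nh φ, S.X u⟫) u₁ (-u₁ + c • rot u₁) = 0 := by
    rw [map_add, map_neg, map_smul, hDη, hc, smul_eq_mul, div_mul_cancel₀ _ hls]
    ring
  have hξp : 0 < fderiv ℝ (fun u : V2 => 1 - ‖u‖ ^ 2) u₁ (-u₁ + c • rot u₁) := by
    rw [RTC_xi_apply, inner_add_right, inner_neg_right, inner_smul_right, RTC_rot_perp,
      real_inner_self_eq_norm_sq, hu₁]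
    norm_num
  have hηq : 0 < fderiv ℝ (fun u => ⟪nh φ, S.X u⟫) u₁ (s • rot u₁) := by
    rw [map_smul, hDη]
    exact hsl
  have hpp : D2 (fun u => B.f (refl (nh φ) 0 (S.X u))) u₁ (-u₁ + c • rot u₁)
      (-u₁ + c • rot u₁) = 0 := by
    refine D2_zero (η := fun u => ⟪nh φ, S.X u⟫) ?_ hl ?_ hwcd hDw hwη hηp
    · exact (RTC_eta_cd S (nh φ)).contDiffAt.of_le (by norm_num)
    · intro h
      rw [h] at hDη
      exact hls hDη.symm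
  have hqq : D2 (fun u => B.f (refl (nh φ) 0 (S.X u))) u₁ (s • rot u₁) (s • rot u₁) = 0 := by
    refine D2_zero (η := fun u : V2 => 1 - ‖u‖ ^ 2) ?_ ?_ ?_ hwcd hDw hwξ hξq
    · exact RTC_xi_cd.contDiffAt.of_le (by norm_num)
    · rw [hu₁]
      norm_num
    · intro h
      have h1 := RTC_xi_apply u₁ u₁
      rw [h, real_inner_self_eq_norm_sq, hu₁] at h1
      norm_num at h1
  have hcor := corner (A := cA S.X) (B := cB S.X) (C := cC S.X)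
    (w := fun u => B.f (refl (nh φ) 0 (S.X u))) (ξ := fun u : V2 => 1 - ‖u‖ ^ 2)
    (η := fun u => ⟪nh φ, S.X u⟫) (x₀ := u₁) (p := -u₁ + c • rot u₁) (q := s • rot u₁) (K := K)
    RTC_xi_cd.contDiffAt (RTC_eta_cd S (nh φ)).contDiffAt (by rw [hu₁]; norm_num) hl hξp hξq hηp hηq
    (Eventually.of_forall fun x => hcA.continuous.continuousAt)
    (Eventually.of_forall fun x => hcB.continuous.continuousAt)
    (Eventually.of_forall fun x => hcC.continuous.continuousAt)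
    (hcA.contDiffAt.differentiableAt (by norm_num)) (hcB.contDiffAt.differentiableAt (by norm_num))
    (hcC.contDiffAt.differentiableAt (by norm_num)) (cA_pos himm) (cB_sq_lt himm)
    (RTC_horth S hls hrot) hwcd hDw hwp hwξ hwη hdi hpp hqq
  -- conclusion
  obtain ⟨Q, hQ⟩ : ∃ Q : V2 → V2 → ℝ, Q = D2 (fun u => B.f (refl (nh φ) 0 (S.X u))) u₁ :=
    ⟨_, rfl⟩
  have hrr : D2 (fun u => B.f (refl (nh φ) 0 (S.X u))) u₁ (rot u₁) (rot u₁) = 0 := by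
    rw [D2_smul, D2_smul', smul_eq_mul, smul_eq_mul] at hqq
    linear_combination hqq - (D2 (fun u => B.f (refl (nh φ) 0 (S.X u))) u₁ (rot u₁) (rot u₁)) * hs2
  have hneg : D2 (fun u => B.f (refl (nh φ) 0 (S.X u))) u₁ (-u₁) (s • rot u₁) =
      -(s * D2 (fun u => B.f (refl (nh φ) 0 (S.X u))) u₁ u₁ (rot u₁)) := by
    have h1 : (-u₁ : V2) = (-1 : ℝ) • u₁ := by simp
    rw [h1, D2_smul, D2_smul', smul_eq_mul, smul_eq_mul]
    ring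
  rw [D2_add, hneg, D2_smul, D2_smul', hrr] at hcor
  rw [hDη]
  simp only [smul_zero, add_zero] at hcor
  have h1 : ls * D2 (fun u => B.f (refl (nh φ) 0 (S.X u))) u₁ u₁ (rot u₁) =
      (s * ls) * (s * D2 (fun u => B.f (refl (nh φ) 0 (S.X u))) u₁ u₁ (rot u₁)) := by
    linear_combination (-(ls * D2 (fun u => B.f (refl (nh φ) 0 (S.X u))) u₁ u₁ (rot u₁))) * hs2
  rw [h1]
  exact mul_neg_of_pos_of_neg hsl (by linarith)

end Pool.Agent.H99.SC
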