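import Pool.Agent.H99.SC.RTZ
import Pool.Agent.H99.SC.LOC

/-!
# RTN: nonnegativity of the reflected defining function

`fnn` (a remark used three times).  `‖v₁‖ = 1`, `B` a box at `v₁`.  For `y` near `X v₁` in `closure W`
with the side condition: `N_r(v₁) < 0`, or `N_r(v₁) > 0` and `0 < y 2`, or `N(v₁) = -E3` and
`1 < y 0^2 + y 1^2`: then `0 ≤ B.f y` (`loc_neg`, `loc_pos`, `loc_zero`).
`side_u`: for `u` near `u₁` (`‖u₁‖ = 1`) with `‖u‖ < 1`: `N_r(u₁) < 0 → (X u) 2 < 0`;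
`N_r(u₁) > 0 → 0 < (X u) 2`; `N(u₁) = -E3 → 1 < (X u) 0^2 + (X u) 1^2` (`Xr_2`, `Xr_p`, `ori`, `h3_neg`, `h3_pos`,
`hr_out`).
`fW`: the converse direction.  `y` near `X v₁` with `0 < B.f y` and one of: `N_r(v₁) < 0` and `y 2 < 0`;
`0 < N_r(v₁)`; `N(v₁) = -E3` and (`1 < y 0^2 + y 1^2` or `y 2 < 0`): then `y ∈ W`.
`nE_cases`: for a `Dom`, one of `N_r < 0`, `N_r > 0`, `N = -E3` holds (`N_vert`, `D.nE`).
-/

set_option autoImplicit false

open scoped RealInnerProductSpace Topology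
open Metric Filter Set

noncomputable section

namespace Pool.Agent.H99.SC

theorem side_u {S : Surf} (D : PreDom S) {u₁ : V2} (hu₁ : ‖u₁‖ = 1) : ∀ᶠ u in 𝓝 u₁, ‖u‖ < 1 →
    (S.Nr u₁ < 0 → (S.X u) 2 < 0) ∧ (0 < S.Nr u₁ → 0 < (S.X u) 2) ∧
    (S.N u₁ = -E3 → 1 < (S.X u) 0 ^ 2 + (S.X u) 1 ^ 2) := by
  have hori := ori D hu₁
  have h1 : ∀ᶠ u in 𝓝 u₁, ‖u‖ < 1 → S.Nr u₁ < 0 → (S.X u) 2 < 0 := by
    by_cases h : S.Nr u₁ < 0
    · have hd : 0 < (fderiv ℝ S.X u₁ u₁) 2 := by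
        rw [S.Xr_2 hu₁]
        exact mul_pos (neg_pos.2 h) hori
      filter_upwards [h3_neg S hu₁ hd] with u hu hu1 _ using hu.1 hu1
    · exact Eventually.of_forall fun u _ h' => absurd h' h
  have h2 : ∀ᶠ u in 𝓝 u₁, ‖u‖ < 1 → 0 < S.Nr u₁ → 0 < (S.X u) 2 := by
    by_cases h : 0 < S.Nr u₁
    · have hd : (fderiv ℝ S.X u₁ u₁) 2 < 0 := by
        rw [S.Xr_2 hu₁]
        nlinarith
      filter_upwards [h3_pos S hu₁ hd] with u hu hu1 _ using hu.1 hu1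
    · exact Eventually.of_forall fun u _ h' => absurd h' h
  have h3 : ∀ᶠ u in 𝓝 u₁, ‖u‖ < 1 → S.N u₁ = -E3 →
      1 < (S.X u) 0 ^ 2 + (S.X u) 1 ^ 2 := by
    by_cases h : S.N u₁ = -E3
    · have hp := S.bd1 hu₁
      have hNr : S.Nr u₁ = 0 := by
        unfold Surf.Nr
        rw [h, ip]
        simp [hp.1]
      have hnu : S.nu u₁ = -S.X u₁ := by
        unfold Surf.nu
        rw [hNr, h]
        simp
      rw [hnu, inner_neg_right] at hori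
      filter_upwards [hr_out S hu₁ (by linarith)] with u hu hu1 _ using hu.1 hu1
    · exact Eventually.of_forall fun u _ h' => absurd h' h
  filter_upwards [h1, h2, h3] with u a1 a2 a3 hu
  exact ⟨a1 hu, a2 hu, a3 hu⟩

theorem fnn {S : Surf} (D : PreDom S) {v₁ : V2} (hv₁ : ‖v₁‖ = 1) {e : V3} (B : Box S.X v₁ e) :
    ∀ᶠ y in 𝓝 (S.X v₁), y ∈ closure D.W →
      (S.Nr v₁ < 0 ∨ (0 < S.Nr v₁ ∧ 0 < y 2) ∨ (S.N v₁ = -E3 ∧ 1 < y 0 ^ 2 + y 1 ^ 2)) →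
      0 ≤ B.f y := by
  have h1 : ∀ᶠ y in 𝓝 (S.X v₁), S.Nr v₁ < 0 → y ∈ closure D.W → 0 ≤ B.f y := by
    by_cases h : S.Nr v₁ < 0
    · filter_upwards [loc_neg D hv₁ h B] with y hy _ hc
      by_contra hf
      exact hy.2.1 (not_le.mp hf) hc
    · exact Eventually.of_forall fun u h' => absurd h' h
  have h2 : ∀ᶠ y in 𝓝 (S.X v₁), 0 < S.Nr v₁ → 0 < y 2 → y ∈ closure D.W → 0 ≤ B.f y := by
    by_cases h : 0 < S.Nr v₁
    · filter_upwards [loc_pos D hv₁ h B] with y hy _ h2 hc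
      by_contra hf
      exact hy.2.2 (not_le.mp hf) h2 hc
    · exact Eventually.of_forall fun u h' => absurd h' h
  have h3 : ∀ᶠ y in 𝓝 (S.X v₁), S.N v₁ = -E3 → 1 < y 0 ^ 2 + y 1 ^ 2 → y ∈ closure D.W →
      0 ≤ B.f y := by
    by_cases h : S.N v₁ = -E3
    · filter_upwards [loc_zero D hv₁ h B] with y hy _ h2 hc
      by_contra hf
      exact hy.2.1 h2 (not_le.mp hf) hc
    · exact Eventually.of_forall fun u h' => absurd h' h
  filter_upwards [h1, h2, h3] with y a1 a2 a3 hc hcase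
  rcases hcase with h | ⟨h, h'⟩ | ⟨h, h'⟩
  · exact a1 h hc
  · exact a2 h h' hc
  · exact a3 h h' hc

theorem fW {S : Surf} (D : PreDom S) {v₁ : V2} (hv₁ : ‖v₁‖ = 1) {e : V3} (B : Box S.X v₁ e) :
    ∀ᶠ y in 𝓝 (S.X v₁), 0 < B.f y →
      ((S.Nr v₁ < 0 ∧ y 2 < 0) ∨ 0 < S.Nr v₁ ∨
        (S.N v₁ = -E3 ∧ (1 < y 0 ^ 2 + y 1 ^ 2 ∨ y 2 < 0))) → y ∈ D.W := by
  have h1 : ∀ᶠ y in 𝓝 (S.X v₁), S.Nr v₁ < 0 → 0 < B.f y → y 2 < 0 → y ∈ D.W := by
    by_cases h : S.Nr v₁ < 0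
    · filter_upwards [loc_neg D hv₁ h B] with y hy _ hf h2 using hy.1 hf h2
    · exact Eventually.of_forall fun u h' => absurd h' h
  have h2 : ∀ᶠ y in 𝓝 (S.X v₁), 0 < S.Nr v₁ → 0 < B.f y → y ∈ D.W := by
    by_cases h : 0 < S.Nr v₁
    · filter_upwards [loc_pos D hv₁ h B] with y hy _ hf using hy.1 hf
    · exact Eventually.of_forall fun u h' => absurd h' h
  have h3 : ∀ᶠ y in 𝓝 (S.X v₁), S.N v₁ = -E3 → 0 < B.f y →
      (1 < y 0 ^ 2 + y 1 ^ 2 ∨ y 2 < 0) → y ∈ D.W := by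
    by_cases h : S.N v₁ = -E3
    · filter_upwards [loc_zero D hv₁ h B] with y hy _ hf h2
      rcases h2 with h2 | h2
      · exact hy.1 h2 hf
      · exact hy.2.2.1 hf h2
    · exact Eventually.of_forall fun u h' => absurd h' h
  filter_upwards [h1, h2, h3] with y a1 a2 a3 hf hcase
  rcases hcase with ⟨h, h'⟩ | h | ⟨h, h'⟩
  · exact a1 h hf h'
  · exact a2 h hf
  · exact a3 h hf h'

/-- points with `f < 0` on the wrong side are outside -/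
theorem fnW {S : Surf} (D : PreDom S) {v₁ : V2} (hv₁ : ‖v₁‖ = 1) {e : V3} (B : Box S.X v₁ e) :
    ∀ᶠ y in 𝓝 (S.X v₁),
      (S.Nr v₁ < 0 → (B.f y < 0 ∨ 0 < y 2) → y ∉ closure D.W) ∧
      ((0 < S.Nr v₁ ∨ S.N v₁ = -E3) → B.f y < 0 → 0 < y 2 → y ∉ closure D.W) := by
  have h1 : ∀ᶠ y in 𝓝 (S.X v₁), S.Nr v₁ < 0 → (B.f y < 0 ∨ 0 < y 2) → y ∉ closure D.W := by
    by_cases h : S.Nr v₁ < 0
    · filter_upwards [loc_neg D hv₁ h B] with y hy _ hf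
      rcases hf with hf | hf
      · exact hy.2.1 hf
      · exact hy.2.2 hf
    · exact Eventually.of_forall fun u h' => absurd h' h
  have h2 : ∀ᶠ y in 𝓝 (S.X v₁), 0 < S.Nr v₁ → B.f y < 0 → 0 < y 2 → y ∉ closure D.W := by
    by_cases h : 0 < S.Nr v₁
    · filter_upwards [loc_pos D hv₁ h B] with y hy _ hf h2 using hy.2.2 hf h2
    · exact Eventually.of_forall fun u h' => absurd h' h
  have h3 : ∀ᶠ y in 𝓝 (S.X v₁), S.N v₁ = -E3 → B.f y < 0 → 0 < y 2 → y ∉ closure D.W := by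
    by_cases h : S.N v₁ = -E3
    · filter_upwards [loc_zero D hv₁ h B] with y hy _ hf h2 using hy.2.2.2 hf h2
    · exact Eventually.of_forall fun u h' => absurd h' h
  filter_upwards [h1, h2, h3] with y a1 a2 a3
  refine ⟨a1, fun hcase hf h2 => ?_⟩
  rcases hcase with h | h
  · exact a2 h hf h2
  · exact a3 h hf h2

theorem RTN_sq {x : ℝ} (h : x ^ 2 = 1) : x = 1 ∨ x = -1 := by
  have h1 : (x - 1) * (x + 1) = 0 := by linear_combination h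
  rcases mul_eq_zero.mp h1 with h2 | h2
  · left; linarith
  · right; linarith

theorem nE_cases {S : Surf} (D : Dom S) {u : V2} (hu : ‖u‖ = 1) :
    S.Nr u < 0 ∨ 0 < S.Nr u ∨ S.N u = -E3 := by
  rcases lt_trichotomy (S.Nr u) 0 with h | h | h
  · exact Or.inl h
  · right; right
    have h1 := S.Nr_sq hu
    have h2 := S.N_decomp hu
    rw [h] at h1 h2
    have h3 : (S.N u 2) ^ 2 = 1 := by linarith [h1]
    rcases (RTN_sq h3) with h4 | h4
    · exfalso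
      apply D.nE u hu
      rw [h4] at h2
      rw [h2]
      simp
    · rw [h4] at h2
      rw [h2]
      simp
  · exact Or.inr (Or.inl h)

end Pool.Agent.H99.SC
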