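import Pool.Agent.H99.SC.RAYS
import Pool.Agent.H99.SC.CAS

/-!
# RYN: rays through points just below the disc hit the surface

`ryn`: `d` in the open disc.  Case `q 2 ≠ 0` (with `InC S q`): `K = {y : ∃ τ > 0, q + τ (y - q) in the open disc}` is convex
(`y_i = q + (1/τ_i)(d_i - q)`, a convex combination of positive multiples of `d_i - q` is a positive multiple of
`d' - q` with `d'` a convex combination of the `d_i`), hence preconnected; `q ∉ K`; a ray of `K` meets the plane `y 2 = 0`
only once (`q 2 ≠ 0`), in the open disc, so it does not hit the circle: `hC`; `hne`: `InC`.  `rays`.  For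
small `s > 0`: `y = d - s E3 ∈ K` with `τ = q 2/(q 2 + s)`: `q + τ (y - q)` has third coordinate 0 and tends to `d`
as `s → 0`.
Case `q 2 = 0` (surface below the plane): `K = {y 2 < 0}`: convex; rays of `K` do not meet the plane again.
-/

set_option autoImplicit false

open scoped RealInnerProductSpace Topology
open Metric Filter Set

noncomputable section

namespace Pool.Agent.H99.SC

/-- the open unit disc in the horizontal plane -/
def RYN_OD : Set V3 := {d : V3 | d 2 = 0} ∩ ball 0 1

theorem RYN_mem {d : V3} : d ∈ RYN_OD ↔ d 2 = 0 ∧ d 0 ^ 2 + d 1 ^ 2 < 1 := by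
  unfold RYN_OD
  rw [mem_inter_iff, mem_setOf_eq, mem_ball_zero_iff]
  constructor
  · rintro ⟨h1, h2⟩
    refine ⟨h1, ?_⟩
    have h3 := nsq d
    rw [h1] at h3
    nlinarith [norm_nonneg d]
  · rintro ⟨h1, h2⟩
    refine ⟨h1, ?_⟩
    have h3 := nsq d
    rw [h1] at h3
    by_contra hcon
    push Not at hcon
    nlinarith

theorem RYN_convex : Convex ℝ RYN_OD := by
  refine Convex.inter ?_ (convex_ball 0 1)
  intro x hx y hy a b _ _ _
  have hx' : x 2 = 0 := hx
  have hy' : y 2 = 0 := hy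
  simp [hx', hy']

theorem RYN_conn (q : V3) :
    IsPreconnected ((fun p : ℝ × V3 => q + p.1 • (p.2 - q)) '' (Ioi 0 ×ˢ RYN_OD)) := by
  refine IsPreconnected.image (isPreconnected_Ioi.prod RYN_convex.isPreconnected) _ ?_
  exact (continuous_const.add (continuous_fst.smul
    (continuous_snd.sub continuous_const))).continuousOn

theorem ryn {S : Surf} {q : V3} (hq : StarAt S q) (hI : q 2 ≠ 0 → InC S q)
    (hos : q 2 = 0 → ∀ u : V2, ‖u‖ < 1 → (S.X u) 2 < 0) {d : V3} (h2 : d 2 = 0)
    (h1 : d 0 ^ 2 + d 1 ^ 2 < 1) : ∃ ε : ℝ, 0 < ε ∧ ∀ s : ℝ, 0 < s → s < ε →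
      ∃ u : V2, ‖u‖ < 1 ∧ ∃ τ : ℝ, 0 < τ ∧ q + τ • (d - s • E3 - q) = S.X u := by
  by_cases hq2 : q 2 = 0
  · -- the half space
    have hK : IsPreconnected {y : V3 | y 2 < 0} := by
      apply Convex.isPreconnected
      intro x hx y hy a b ha hb hab
      have hx' : x 2 < 0 := hx
      have hy' : y 2 < 0 := hy
      show (a • x + b • y) 2 < 0
      simp only [PiLp.add_apply, PiLp.smul_apply, smul_eq_mul]
      rcases ha.eq_or_lt with h | h
      · have hb1 : b = 1 := by linarith
        rw [← h, hb1]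
        linarith
      · have h3 := mul_neg_of_pos_of_neg h hx'
        have h4 := mul_nonpos_of_nonneg_of_nonpos hb hy'.le
        linarith
    have hr := rays hq hK (by
      intro h
      have h3 : q 2 < 0 := h
      linarith) (by
      intro y hy τ hτ u hu heq
      have hy' : y 2 < 0 := hy
      have h3 := congrArg (fun v : V3 => v 2) heq
      simp only [PiLp.add_apply, PiLp.smul_apply, PiLp.sub_apply, smul_eq_mul, hq2,
        (S.bd1 hu).1] at h3
      nlinarith) ⟨0, by simp, hos hq2 0 (by simp)⟩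
    refine ⟨1, one_pos, fun s hs _ => ?_⟩
    apply hr (d - s • E3)
    show (d - s • E3) 2 < 0
    simp only [PiLp.smul_apply, PiLp.sub_apply, smul_eq_mul, E3_2, h2]
    linarith
  · have hr := rays hq (RYN_conn q) (by
      rintro ⟨⟨r, x⟩, ⟨hr, hx⟩, heq⟩
      have hr' : 0 < r := hr
      have hx' : x ∈ RYN_OD := hx
      have hx2 : x 2 = 0 := (RYN_mem.1 hx').1
      have h3 := congrArg (fun v : V3 => v 2) heq
      simp only [PiLp.add_apply, PiLp.smul_apply, PiLp.sub_apply, smul_eq_mul, hx2] at h3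
      have h4 : r * q 2 = 0 := by linarith
      exact hq2 ((mul_eq_zero.1 h4).resolve_left hr'.ne')) (by
      rintro y ⟨⟨r, x⟩, ⟨hr, hx⟩, heq⟩ τ hτ u hu hXu
      have hr' : 0 < r := hr
      have hx' : x ∈ RYN_OD := hx
      obtain ⟨hx2, hx1⟩ := RYN_mem.1 hx'
      obtain ⟨b2, b1⟩ := S.bd1 hu
      simp only at heq
      rw [← heq, add_sub_cancel_left, smul_smul] at hXu
      have h3 := congrArg (fun v : V3 => v 2) hXu
      simp only [PiLp.add_apply, PiLp.smul_apply, PiLp.sub_apply, smul_eq_mul, hx2, b2] at h3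
      have h4 : (1 - τ * r) * q 2 = 0 := by linarith
      have h5 : τ * r = 1 := by
        have := (mul_eq_zero.1 h4).resolve_right hq2
        linarith
      rw [h5, one_smul, add_sub_cancel] at hXu
      rw [← hXu] at b1
      linarith) (by
      obtain ⟨τ, hτ, k1, k2⟩ := hI hq2 0 (by simp)
      refine ⟨0, by simp, ⟨1 / τ, q + τ • (S.X 0 - q)⟩, ⟨?_, RYN_mem.2 ⟨k1, k2⟩⟩, ?_⟩
      · show 0 < 1 / τ
        positivity
      · simp only
        rw [add_sub_cancel_left, smul_smul, one_div, inv_mul_cancel₀ hτ.ne', one_smul,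
          add_sub_cancel])
    -- the points just below `d`
    have hφ : ∀ᶠ τ : ℝ in 𝓝 1, 0 < τ ∧
        (q 0 + τ * (d 0 - q 0)) ^ 2 + (q 1 + τ * (d 1 - q 1)) ^ 2 < 1 := by
      refine (eventually_gt_nhds one_pos).and ?_
      have hc : Continuous fun τ : ℝ =>
          (q 0 + τ * (d 0 - q 0)) ^ 2 + (q 1 + τ * (d 1 - q 1)) ^ 2 := by fun_prop
      have h0 : (fun τ : ℝ =>
          (q 0 + τ * (d 0 - q 0)) ^ 2 + (q 1 + τ * (d 1 - q 1)) ^ 2) 1 < 1 := by
        simp only
        have e : (q 0 + 1 * (d 0 - q 0)) ^ 2 + (q 1 + 1 * (d 1 - q 1)) ^ 2 =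
            d 0 ^ 2 + d 1 ^ 2 := by ring
        rw [e]
        exact h1
      exact hc.continuousAt.eventually_lt_const h0
    have ht : ContinuousAt (fun s : ℝ => q 2 / (q 2 + s)) 0 := by
      refine continuousAt_const.div (continuousAt_const.add continuousAt_id) ?_
      simpa using hq2
    have ht1 : Tendsto (fun s : ℝ => q 2 / (q 2 + s)) (𝓝 0) (𝓝 1) := by
      have := ht.tendsto
      rwa [add_zero, div_self hq2] at this
    have hne : ∀ᶠ s : ℝ in 𝓝 0, q 2 + s ≠ 0 := by
      have hc : ContinuousAt (fun s : ℝ => q 2 + s) 0 := continuousAt_const.add continuousAt_id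
      exact hc.eventually_ne (by simpa using hq2)
    obtain ⟨ε, hε, hball⟩ := Metric.eventually_nhds_iff.1 ((ht1.eventually hφ).and hne)
    refine ⟨ε, hε, fun s hs0 hs => ?_⟩
    obtain ⟨⟨a1, a2⟩, a3⟩ := hball (y := s)
      (by rw [Real.dist_eq, sub_zero, abs_of_pos hs0]; exact hs)
    set τ : ℝ := q 2 / (q 2 + s) with hτ
    apply hr (d - s • E3)
    refine ⟨⟨1 / τ, q + τ • ((d - s • E3) - q)⟩, ⟨?_, RYN_mem.2 ⟨?_, ?_⟩⟩, ?_⟩
    · show 0 < 1 / τ
      positivity
    · simp only [PiLp.add_apply, PiLp.smul_apply, PiLp.sub_apply, smul_eq_mul, E3_2, h2]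
      rw [hτ]
      field_simp
      ring
    · simp only [PiLp.add_apply, PiLp.smul_apply, PiLp.sub_apply, smul_eq_mul, E3_0, E3_1,
        mul_zero, sub_zero]
      exact a2
    · simp only
      rw [add_sub_cancel_left, smul_smul, one_div, inv_mul_cancel₀ a1.ne', one_smul,
        add_sub_cancel]

end Pool.Agent.H99.SC
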