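import Pool.Agent.H99.SC.CAL

/-!
# WHA: the analytic core of the weak hinge (pure calculus, no surface)

`taylor_symm`: `f` C^2 at `p`: `|f (m+v) - f (m-v) - 2 Df(m) v| ≤ ω |v|^2` for `m` near `p`, `v` small
(one variable `φ(s) = f (m + s v) - f (m - s v) - 2 s Df(m) v`: `φ 0 = 0`, `φ' 0 = 0`,
`|φ''(s)| = |D2 f(m+sv) v v - D2 f (m-sv) v v| ≤ ω |v|^2`; twice the mean value inequality).

`wh_core`.  Write `Q = D2 f p`, `F x = fderiv f x`.  `p` on the unit circle, `f = 0` on the unit circle near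
`p`; `F p p ≠ 0`; `F p n = 0`, `0 < n 2`; `ν = (F p E3) p - (F p p) E3`; the functional
`L v = Q v n - ς F p p ⟪v,n⟫` has `L (TT p) = 0 < L ν`.  Note `F p (TT p) = 0` (differentiate `f = 0` along
the circle), `F p v = 0` means: `v` in the span of `TT p` and `ν`, because `p, TT p, E3` is an orthonormal basis
and `F p ν = 0`.  Sequences `nk → n`, `Yk → p`, `sk → 0`, `sk > 0`, `ςk → ς`.
(2) By `taylor_symm` with `m = Yk`, `v = sk nk` and h1, h2: `2 sk F(Yk) nk ≥ - ω sk^2 |nk|^2`, so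
  (i) `F(Yk) nk ≥ - ω sk |nk|^2 / 2` for every `ω > 0` and large `k`.
(4) `c_k = (Yk 0, Yk 1, 0)/sqrt(..)` (a point of the circle, `→ p`), `y_k = Yk - c_k`, in the span of
  `c_k` and `E3`, so `⟪y_k, TT c_k⟫ = 0` and `⟪y_k, TT p⟫ = o(|y_k|)`.  `(y_k) 2 = Yk 2`, so by h3
  `|y_k| ≥ |Yk 2| ≥ sk (nk) 2`, `sk ≤ C |y_k|`, `y_k ≠ 0`.
  `f (Yk) = f(Yk + sk nk) + o(sk) = o(sk)`: mean value, `F p n = 0` and continuity of `F`.  `f (c_k) = 0`
  for large `k`.  So `F p y_k = f Yk - f c_k + o(|y_k|) = o(|y_k|)`.  Hence `y_k/|y_k|` approaches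
  the line of `ν`; and by h3 its third coordinate has the sign of `F p p`, while `ν 2 = - F p p`: so
  `y_k/|y_k| + ν/|ν| → 0`.
  (To avoid subsequences: `y_k/|y_k| - ⟪y_k/|y_k|, ν/|ν|⟫ ν/|ν| → 0` and `⟪y_k/|y_k|, ν/|ν|⟫ < 0` eventually
  (its square tends to 1 and its sign is given by the third coordinate), so it tends to -1.
  Or use compactness of the unit sphere: enough to derive False along a subsequence.)
(5) `F(Yk) nk = F(c_k) nk + Q y_k n + o(|y_k|) ≤ ςk ⟪nk, c_k - Yk⟫ F(c_k) c_k + Q y_k n + o(|y_k|)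
  = L y_k + o(|y_k|)`, and `L y_k = - |y_k| (L ν / |ν|) + o(|y_k|)`.  So `F(Yk) nk ≤ - c |y_k|` with
  `c > 0` fixed, for large `k`; with (i) and `sk ≤ C |y_k|`: `ω C |n|^2 ≥ c`-type inequality, false for `ω` small.
-/

set_option autoImplicit false

open scoped RealInnerProductSpace Topology
open Metric Filter Set

noncomputable section

namespace Pool.Agent.H99.SC

theorem taylor_symm {f : V3 → ℝ} {p : V3} (hf : ContDiffAt ℝ 2 f p) {ω : ℝ} (hω : 0 < ω) :
    ∃ δ : ℝ, 0 < δ ∧ ∀ m v : V3, ‖m - p‖ < δ → ‖v‖ < δ →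
      |f (m + v) - f (m - v) - 2 * fderiv ℝ f m v| ≤ ω * ‖v‖ ^ 2 := by
  have hFs : HasStrictFDerivAt (fderiv ℝ f) (fderiv ℝ (fderiv ℝ f) p) p :=
    (contDiffAt_fderiv hf).hasStrictFDerivAt (by norm_num)
  have h1 := (Asymptotics.isLittleO_iff.mp hFs.isLittleO) (show (0 : ℝ) < ω / 2 by positivity)
  obtain ⟨δ₁, hδ₁, h2⟩ := Metric.eventually_nhds_iff.mp h1
  have hd : ∀ᶠ y in 𝓝 p, DifferentiableAt ℝ f y := by
    have := hf.eventually (by simp)
    filter_upwards [this] with y hy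
    exact hy.differentiableAt (by norm_num)
  obtain ⟨δ₂, hδ₂, h3⟩ := Metric.eventually_nhds_iff.mp hd
  refine ⟨min δ₁ δ₂ / 2, by positivity, fun m v hm hv => ?_⟩
  have hmv : ∀ s : ℝ, |s| ≤ 1 → ‖m + s • v - p‖ < min δ₁ δ₂ := by
    intro s hs
    have e1 : m + s • v - p = (m - p) + s • v := by abel
    have e2 : ‖s • v‖ ≤ ‖v‖ := by
      rw [norm_smul, Real.norm_eq_abs]
      nlinarith [norm_nonneg v]
    calc ‖m + s • v - p‖ ≤ ‖m - p‖ + ‖s • v‖ := by rw [e1]; exact norm_add_le _ _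
      _ < min δ₁ δ₂ / 2 + min δ₁ δ₂ / 2 := by linarith
      _ = min δ₁ δ₂ := by ring
  have hdiff : ∀ s : ℝ, |s| ≤ 1 → DifferentiableAt ℝ f (m + s • v) := by
    intro s hs
    apply h3
    rw [dist_eq_norm]
    exact lt_of_lt_of_le (hmv s hs) (min_le_right _ _)
  have hball : ∀ s : ℝ, |s| ≤ 1 →
      ‖fderiv ℝ f (m + s • v) - fderiv ℝ f m - fderiv ℝ (fderiv ℝ f) p (s • v)‖ ≤
        ω / 2 * ‖s • v‖ := by
    intro s hs
    have e1 : dist ((m + s • v, m) : V3 × V3) (p, p) < δ₁ := by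
      rw [Prod.dist_eq, max_lt_iff]
      constructor
      · simp only
        rw [dist_eq_norm]
        exact lt_of_lt_of_le (hmv s hs) (min_le_left _ _)
      · simp only
        have := hmv 0 (by simp)
        rw [zero_smul, add_zero] at this
        rw [dist_eq_norm]
        exact lt_of_lt_of_le this (min_le_left _ _)
    have e2 := h2 e1
    simp only [add_sub_cancel_left] at e2
    exact e2
  set φ : ℝ → ℝ := fun s => f (m + s • v) - f (m - s • v) - 2 * (s * fderiv ℝ f m v) with hφ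
  have hder : ∀ s ∈ Icc (0 : ℝ) 1, HasDerivWithinAt φ
      (fderiv ℝ f (m + s • v) v + fderiv ℝ f (m - s • v) v - 2 * fderiv ℝ f m v) (Icc 0 1) s := by
    intro s hs
    apply HasDerivAt.hasDerivWithinAt
    have hs1 : |s| ≤ 1 := by rw [abs_of_nonneg hs.1]; exact hs.2
    have hs2 : |-s| ≤ 1 := by rw [abs_neg]; exact hs1
    have hl1 : HasDerivAt (fun s : ℝ => m + s • v) v s := by
      simpa using ((hasDerivAt_id s).smul_const v).const_add m
    have hl2 : HasDerivAt (fun s : ℝ => m - s • v) (-v) s := by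
      simpa using ((hasDerivAt_id s).smul_const v).const_sub m
    have g1 : HasDerivAt (fun s : ℝ => f (m + s • v)) (fderiv ℝ f (m + s • v) v) s :=
      (hdiff s hs1).hasFDerivAt.comp_hasDerivAt s hl1
    have hd2 : DifferentiableAt ℝ f (m - s • v) := by
      have := hdiff (-s) hs2
      rwa [neg_smul, ← sub_eq_add_neg] at this
    have g2 : HasDerivAt (fun s : ℝ => f (m - s • v)) (fderiv ℝ f (m - s • v) (-v)) s :=
      hd2.hasFDerivAt.comp_hasDerivAt s hl2
    have g3 : HasDerivAt (fun s : ℝ => 2 * (s * fderiv ℝ f m v)) (2 * (1 * fderiv ℝ f m v)) s :=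
      ((hasDerivAt_id s).mul_const _).const_mul 2
    have g4 : HasDerivAt φ (fderiv ℝ f (m + s • v) v - fderiv ℝ f (m - s • v) (-v)
        - 2 * (1 * fderiv ℝ f m v)) s := (g1.sub g2).sub g3
    refine g4.congr_deriv ?_
    rw [map_neg]
    ring
  have hbd : ∀ s ∈ Ico (0 : ℝ) 1,
      ‖fderiv ℝ f (m + s • v) v + fderiv ℝ f (m - s • v) v - 2 * fderiv ℝ f m v‖ ≤
        ω * ‖v‖ ^ 2 := by
    intro s hs
    have hs1 : |s| ≤ 1 := by rw [abs_of_nonneg hs.1]; exact hs.2.le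
    have hs2 : |-s| ≤ 1 := by rw [abs_neg]; exact hs1
    have k1 := hball s hs1
    have k2 := hball (-s) hs2
    rw [neg_smul, ← sub_eq_add_neg, map_neg, norm_neg] at k2
    set A := fderiv ℝ f (m + s • v) - fderiv ℝ f m - fderiv ℝ (fderiv ℝ f) p (s • v) with hA
    set B := fderiv ℝ f (m - s • v) - fderiv ℝ f m - -(fderiv ℝ (fderiv ℝ f) p) (s • v) with hB
    have e1 : fderiv ℝ f (m + s • v) v + fderiv ℝ f (m - s • v) v - 2 * fderiv ℝ f m v =
        (A + B) v := by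
      rw [hA, hB]
      simp only [add_apply, sub_apply, neg_apply]
      ring
    rw [e1]
    have e2 : ‖s • v‖ ≤ ‖v‖ := by
      rw [norm_smul, Real.norm_eq_abs]
      nlinarith [norm_nonneg v]
    have e3 : ‖A + B‖ ≤ ω * ‖v‖ := by
      refine (norm_add_le _ _).trans ?_
      nlinarith [norm_nonneg v]
    calc ‖(A + B) v‖ ≤ ‖A + B‖ * ‖v‖ := (A + B).le_opNorm v
      _ ≤ (ω * ‖v‖) * ‖v‖ := mul_le_mul_of_nonneg_right e3 (norm_nonneg _)
      _ = ω * ‖v‖ ^ 2 := by ring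
  have hfin := norm_image_sub_le_of_norm_deriv_le_segment_01' hder hbd
  have e0 : φ 0 = 0 := by simp [hφ]
  have e1 : φ 1 = f (m + v) - f (m - v) - 2 * fderiv ℝ f m v := by simp [hφ]
  rw [e0, e1, sub_zero, Real.norm_eq_abs] at hfin
  exact hfin

theorem WHA_apply {G : ℕ → V3 →L[ℝ] ℝ} {A : V3 →L[ℝ] ℝ} {x : ℕ → V3} {y : V3}
    (hG : Tendsto G atTop (𝓝 A)) (hx : Tendsto x atTop (𝓝 y)) :
    Tendsto (fun k => G k (x k)) atTop (𝓝 (A y)) :=
  ((continuous_fst.clm_apply continuous_snd :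
    Continuous fun q : (V3 →L[ℝ] ℝ) × V3 => q.1 q.2).tendsto (A, y)).comp (hG.prodMk_nhds hx)

/-- the elementary convergence `α/β → -b/a` -/
theorem WHA_ratio {α β : ℕ → ℝ} {a b : ℝ} (ha : a ≠ 0) (hβ : ∀ᶠ k in atTop, β k ≠ 0)
    (hA : ∀ c : ℝ, 0 < c → ∀ᶠ k in atTop, |a * α k + b * β k| ≤ c * (|α k| + |β k|)) :
    Tendsto (fun k => α k / β k) atTop (𝓝 (-b / a)) := by
  have ha' : 0 < |a| := abs_pos.mpr ha
  set C : ℝ := (2 * |b| + |a|) / |a| with hC
  have hC0 : 0 ≤ C := by positivity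
  have hbd : ∀ᶠ k in atTop, |α k| ≤ C * |β k| := by
    filter_upwards [hA (|a| / 2) (by positivity)] with k hk
    have h1 : |a| * |α k| ≤ |a * α k + b * β k| + |b| * |β k| := by
      rw [← abs_mul, ← abs_mul]
      have : a * α k = (a * α k + b * β k) - b * β k := by ring
      calc |a * α k| = |(a * α k + b * β k) - b * β k| := by rw [← this]
        _ ≤ |a * α k + b * β k| + |b * β k| := abs_sub _ _
    have h2 : |a| * |α k| ≤ (2 * |b| + |a|) * |β k| := by nlinarith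
    rw [hC, div_mul_eq_mul_div, le_div_iff₀ ha']
    linarith
  rw [Metric.tendsto_nhds]
  intro ε hε
  filter_upwards [hbd, hβ, hA (ε * |a| / (2 * (C + 1))) (by positivity)] with k h1 h2 h3
  have hβ' : 0 < |β k| := abs_pos.mpr h2
  rw [Real.dist_eq]
  have e1 : α k / β k - -b / a = (a * α k + b * β k) / (a * β k) := by
    field_simp
    ring
  rw [e1, abs_div, abs_mul, div_lt_iff₀ (by positivity)]
  calc |a * α k + b * β k| ≤ ε * |a| / (2 * (C + 1)) * (|α k| + |β k|) := h3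
    _ ≤ ε * |a| / (2 * (C + 1)) * ((C + 1) * |β k|) := by
      apply mul_le_mul_of_nonneg_left _ (by positivity)
      linarith
    _ = ε * (|a| * |β k|) / 2 := by
      field_simp
    _ < ε * (|a| * |β k|) := by
      have : 0 < ε * (|a| * |β k|) := by positivity
      linarith

theorem wh_core {f : V3 → ℝ} {p n : V3} {ς : ℝ} (hf : ContDiffAt ℝ 2 f p) (hp2 : p 2 = 0)
    (hp : p 0 ^ 2 + p 1 ^ 2 = 1)
    (hfc : ∀ᶠ y in 𝓝 p, y 2 = 0 → y 0 ^ 2 + y 1 ^ 2 = 1 → f y = 0)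
    (hr : fderiv ℝ f p p ≠ 0) (hn : fderiv ℝ f p n = 0) (hn2 : 0 < n 2)
    (hL0 : D2 f p (TT p) n - ς * fderiv ℝ f p p * ⟪TT p, n⟫ = 0)
    (hL1 : 0 < D2 f p ((fderiv ℝ f p E3) • p - (fderiv ℝ f p p) • E3) n
      - ς * fderiv ℝ f p p * ⟪(fderiv ℝ f p E3) • p - (fderiv ℝ f p p) • E3, n⟫)
    {nk Yk : ℕ → V3} {sk ςk : ℕ → ℝ} (hnk : Tendsto nk atTop (𝓝 n))
    (hYk : Tendsto Yk atTop (𝓝 p)) (hsk : Tendsto sk atTop (𝓝 0)) (hςk : Tendsto ςk atTop (𝓝 ς))
    (hs0 : ∀ k, 0 < sk k) (h1 : ∀ k, f (Yk k + sk k • nk k) = 0)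
    (h2 : ∀ k, f (Yk k - sk k • nk k) ≤ 0)
    (h3 : ∀ k, (0 < fderiv ℝ f p p → sk k * (nk k) 2 ≤ (Yk k) 2) ∧
      (fderiv ℝ f p p < 0 → (Yk k) 2 ≤ -(sk k * (nk k) 2)))
    {δ : ℝ} (hδ : 0 < δ)
    (h4 : ∀ (k : ℕ) (c : V3), ‖c - p‖ < δ → c 2 = 0 → c 0 ^ 2 + c 1 ^ 2 = 1 →
      fderiv ℝ f c (nk k) ≤ ςk k * ⟪nk k, c - Yk k⟫ * fderiv ℝ f c c) : False := by
  have hfs : HasStrictFDerivAt f (fderiv ℝ f p) p := hf.hasStrictFDerivAt (by norm_num)
  have hFs : HasStrictFDerivAt (fderiv ℝ f) (fderiv ℝ (fderiv ℝ f) p) p :=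
    (contDiffAt_fderiv hf).hasStrictFDerivAt (by norm_num)
  have hFc : ContinuousAt (fderiv ℝ f) p := hFs.continuousAt
  set F : V3 → V3 →L[ℝ] ℝ := fderiv ℝ f with hF
  set a : ℝ := F p p with ha
  set b : ℝ := F p E3 with hb
  have ha' : 0 < |a| := abs_pos.mpr hr
  -- coordinates
  have c0 : Tendsto (fun k => (Yk k) 0) atTop (𝓝 (p 0)) :=
    ((by fun_prop : Continuous fun y : V3 => y 0).tendsto p).comp hYk
  have c1 : Tendsto (fun k => (Yk k) 1) atTop (𝓝 (p 1)) :=
    ((by fun_prop : Continuous fun y : V3 => y 1).tendsto p).comp hYk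
  have c2 : Tendsto (fun k => (Yk k) 2) atTop (𝓝 0) := by
    have := ((by fun_prop : Continuous fun y : V3 => y 2).tendsto p).comp hYk
    rw [hp2] at this
    exact this
  have d2 : Tendsto (fun k => (nk k) 2) atTop (𝓝 (n 2)) :=
    ((by fun_prop : Continuous fun y : V3 => y 2).tendsto n).comp hnk
  set r : ℕ → ℝ := fun k => √((Yk k) 0 ^ 2 + (Yk k) 1 ^ 2) with hrdef
  have hr1 : Tendsto r atTop (𝓝 1) := by
    have := ((c0.pow 2).add (c1.pow 2)).sqrt
    rw [hp, Real.sqrt_one] at this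
    exact this
  have hrpos : ∀ᶠ k in atTop, 0 < r k := hr1.eventually_const_lt one_pos
  set c : ℕ → V3 := fun k => (r k)⁻¹ • (Yk k - ((Yk k) 2) • E3) with hc
  have hcp : Tendsto c atTop (𝓝 p) := by
    have := (hr1.inv₀ one_ne_zero).smul (hYk.sub (c2.smul_const E3))
    simpa using this
  have hcc : ∀ᶠ k in atTop, (c k) 2 = 0 ∧ (c k) 0 ^ 2 + (c k) 1 ^ 2 = 1 ∧
      Yk k - c k = (r k - 1) • c k + ((Yk k) 2) • E3 := by
    filter_upwards [hrpos] with k hk
    refine ⟨by simp [hc], ?_, ?_⟩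
    · have e1 : (c k) 0 = (r k)⁻¹ * (Yk k) 0 := by simp [hc]
      have e2 : (c k) 1 = (r k)⁻¹ * (Yk k) 1 := by simp [hc]
      have e3 : r k ^ 2 = (Yk k) 0 ^ 2 + (Yk k) 1 ^ 2 := Real.sq_sqrt (by positivity)
      rw [e1, e2]
      field_simp
      linarith
    · have e1 : (r k) • c k = Yk k - ((Yk k) 2) • E3 := by
        simp only [hc]
        rw [smul_smul, mul_inv_cancel₀ hk.ne', one_smul]
      rw [sub_smul, e1, one_smul]
      abel
  clear_value c
  set α : ℕ → ℝ := fun k => r k - 1 with hα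
  set β : ℕ → ℝ := fun k => (Yk k) 2 with hβ
  have hn2k : ∀ᶠ k in atTop, n 2 / 2 < (nk k) 2 := d2.eventually_const_lt (by linarith)
  -- sign and size of β
  have hβs : ∀ᶠ k in atTop, |a| * (sk k * (n 2 / 2)) ≤ a * β k ∧ sk k * (n 2 / 2) ≤ |β k| := by
    filter_upwards [hn2k] with k hk
    have hs := hs0 k
    have e1 : sk k * (n 2 / 2) ≤ sk k * (nk k) 2 := mul_le_mul_of_nonneg_left hk.le hs.le
    have e0 : 0 < sk k * (n 2 / 2) := by positivity
    rcases lt_or_gt_of_ne hr with h | h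
    · have e2 := (h3 k).2 h
      have e3 : β k ≤ -(sk k * (n 2 / 2)) := by simp only [hβ]; linarith
      constructor
      · rw [abs_of_neg h]
        nlinarith
      · rw [abs_of_neg (by linarith)]
        linarith
    · have e2 := (h3 k).1 h
      have e3 : sk k * (n 2 / 2) ≤ β k := by simp only [hβ]; linarith
      constructor
      · rw [abs_of_pos h]
        nlinarith
      · rw [abs_of_pos (by linarith)]
        exact e3
  have hβ0 : ∀ᶠ k in atTop, β k ≠ 0 := by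
    filter_upwards [hβs] with k hk
    have e0 : 0 < sk k * (n 2 / 2) := by
      have := hs0 k
      positivity
    exact abs_pos.mp (lt_of_lt_of_le e0 hk.2)
  -- boundedness of nk
  have hnb : ∀ᶠ k in atTop, ‖nk k‖ ≤ ‖n‖ + 1 := by
    have := hnk.norm
    exact (this.eventually_lt_const (by linarith : ‖n‖ < ‖n‖ + 1)).mono fun k hk => hk.le
  have hYs : Tendsto (fun k => Yk k + sk k • nk k) atTop (𝓝 p) := by
    have := hYk.add (hsk.smul hnk)
    simpa using this
  -- f(Yk) = o(β)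
  have hfY : ∀ ε : ℝ, 0 < ε → ∀ᶠ k in atTop, |f (Yk k)| ≤ ε * |β k| := by
    intro ε hε
    set ε' : ℝ := ε * (n 2 / 2) / (2 * (‖n‖ + 2)) with hε'
    have hn0 := norm_nonneg n
    have hε'0 : 0 < ε' := by positivity
    have g1 := (Asymptotics.isLittleO_iff.mp (hfs.isLittleO.comp_tendsto
      (nhds_prod_eq (x := p) (y := p) ▸ hYs.prodMk hYk))) hε'0
    have g2 : Tendsto (fun k => |F p (nk k)|) atTop (𝓝 0) := by
      have := ((F p).continuous.tendsto n).comp hnk
      rw [hn] at this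
      have := this.abs
      rwa [abs_zero] at this
    filter_upwards [g1, g2.eventually_lt_const hε'0, hβs, hnb] with k k1 k2 k3 k4
    simp only [Function.comp, add_sub_cancel_left, h1 k, Real.norm_eq_abs] at k1
    have hs := hs0 k
    rw [norm_smul, Real.norm_eq_abs, abs_of_pos hs, map_smul, smul_eq_mul] at k1
    have k5 : |f (Yk k)| ≤ ε' * (sk k * (‖n‖ + 2)) := by
      have e1 : f (Yk k) = -(0 - f (Yk k) - sk k * F p (nk k)) - sk k * F p (nk k) := by ring
      have e2 : |sk k * F p (nk k)| ≤ sk k * ε' := by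
        rw [abs_mul, abs_of_pos hs]
        exact mul_le_mul_of_nonneg_left k2.le hs.le
      have e3 : ε' * (sk k * ‖nk k‖) ≤ ε' * (sk k * (‖n‖ + 1)) := by gcongr
      calc |f (Yk k)| = |-(0 - f (Yk k) - sk k * F p (nk k)) - sk k * F p (nk k)| := by
            rw [← e1]
        _ ≤ |-(0 - f (Yk k) - sk k * F p (nk k))| + |sk k * F p (nk k)| := abs_sub _ _
        _ ≤ ε' * (sk k * (‖n‖ + 1)) + sk k * ε' := by
          rw [abs_neg]
          linarith
        _ = ε' * (sk k * (‖n‖ + 2)) := by ring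
    have k6 : ε' * (sk k * (‖n‖ + 2)) = (ε / 2) * (sk k * (n 2 / 2)) := by
      rw [hε']
      field_simp
    rw [k6] at k5
    have k7 : (ε / 2) * (sk k * (n 2 / 2)) ≤ (ε / 2) * |β k| :=
      mul_le_mul_of_nonneg_left k3.2 (by positivity)
    have k8 : 0 ≤ ε * |β k| := by positivity
    linarith
  have hpn : ‖p‖ = 1 := by
    have h := nsq p
    rw [hp2] at h
    have : ‖p‖ ^ 2 = 1 := by rw [h]; linarith
    nlinarith [norm_nonneg p]
  have hcb : ∀ᶠ k in atTop, ‖c k‖ ≤ 2 := by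
    have := hcp.norm
    rw [hpn] at this
    exact (this.eventually_lt_const (by norm_num : (1 : ℝ) < 2)).mono fun k hk => hk.le
  have hE3n : ‖E3‖ = 1 := by
    have h := nsq E3
    simp only [E3_0, E3_1, E3_2] at h
    nlinarith [norm_nonneg E3]
  have hyb : ∀ᶠ k in atTop, ‖Yk k - c k‖ ≤ 2 * (|α k| + |β k|) := by
    filter_upwards [hcc, hcb] with k hk hk2
    rw [hk.2.2]
    refine (norm_add_le _ _).trans ?_
    rw [norm_smul, norm_smul, hE3n, Real.norm_eq_abs, Real.norm_eq_abs]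
    have : |r k - 1| * ‖c k‖ ≤ |r k - 1| * 2 := mul_le_mul_of_nonneg_left hk2 (abs_nonneg _)
    have h0 := abs_nonneg ((Yk k) 2)
    simp only [hα, hβ]
    linarith
  have hpair : Tendsto (fun k => (Yk k, c k)) atTop (𝓝 (p, p)) := by
    rw [nhds_prod_eq]
    exact hYk.prodMk hcp
  have hfcc : ∀ᶠ k in atTop, f (c k) = 0 := by
    filter_upwards [hcp.eventually hfc, hcc] with k k1 k2
    exact k1 k2.1 k2.2.1
  have hq : Tendsto (fun k => α k / β k) atTop (𝓝 (-b / a)) := by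
    refine WHA_ratio hr hβ0 fun ε hε => ?_
    have g1 := (Asymptotics.isLittleO_iff.mp (hfs.isLittleO.comp_tendsto hpair))
      (show (0 : ℝ) < ε / 6 by positivity)
    have g2 : Tendsto (fun k => |F p (c k) - a|) atTop (𝓝 0) := by
      have := (((F p).continuous.tendsto p).comp hcp).sub_const a
      rw [← ha, sub_self] at this
      have := this.abs
      rwa [abs_zero] at this
    filter_upwards [g1, g2.eventually_lt_const (show (0 : ℝ) < ε / 3 by positivity),
      hfY (ε / 3) (by positivity), hfcc, hcc, hyb] with k k1 k2 k3 k4 k5 k6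
    simp only [Function.comp, k4, Real.norm_eq_abs] at k1
    have e1 : F p (Yk k - c k) = α k * F p (c k) + β k * b := by
      rw [k5.2.2, map_add, map_smul, map_smul]
      rfl
    have e2 : a * α k + b * β k = -(f (Yk k) - 0 - F p (Yk k - c k)) + f (Yk k)
        - α k * (F p (c k) - a) := by
      rw [e1]
      ring
    have e3 : |α k * (F p (c k) - a)| ≤ |α k| * (ε / 3) := by
      rw [abs_mul]
      exact mul_le_mul_of_nonneg_left k2.le (abs_nonneg _)
    have e4 : |f (Yk k) - 0 - F p (Yk k - c k)| ≤ ε / 6 * (2 * (|α k| + |β k|)) :=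
      k1.trans (mul_le_mul_of_nonneg_left k6 (by positivity))
    rw [e2]
    calc |-(f (Yk k) - 0 - F p (Yk k - c k)) + f (Yk k) - α k * (F p (c k) - a)|
        ≤ |-(f (Yk k) - 0 - F p (Yk k - c k)) + f (Yk k)| + |α k * (F p (c k) - a)| := abs_sub _ _
      _ ≤ |-(f (Yk k) - 0 - F p (Yk k - c k))| + |f (Yk k)| + |α k * (F p (c k) - a)| := by
          gcongr
          exact abs_add_le _ _
      _ ≤ ε / 6 * (2 * (|α k| + |β k|)) + ε / 3 * |β k| + |α k| * (ε / 3) := by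
          rw [abs_neg]
          gcongr
      _ ≤ ε * (|α k| + |β k|) := by
          have := abs_nonneg (α k)
          have := abs_nonneg (β k)
          nlinarith
  set w : ℕ → V3 := fun k => (α k / β k) • c k + E3 with hw
  have hwl : Tendsto w atTop (𝓝 ((-b / a) • p + E3)) := (hq.smul hcp).add_const E3
  have hyw : ∀ᶠ k in atTop, Yk k - c k = β k • w k := by
    filter_upwards [hcc, hβ0] with k k1 k2
    rw [k1.2.2]
    simp only [hw, smul_add, smul_smul]
    rw [mul_div_cancel₀ _ k2]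
  -- the derivative of F
  have hG : Tendsto (fun k => (β k)⁻¹ • (F (Yk k) - F (c k))) atTop
      (𝓝 (fderiv ℝ F p ((-b / a) • p + E3))) := by
    have g1 := hFs.isLittleO.comp_tendsto hpair
    have g2 : (fun k => (Yk k - c k)) =O[atTop] β := by
      obtain ⟨C, hC⟩ := hwl.norm.isBoundedUnder_le.eventually_le
      refine Asymptotics.IsBigO.of_bound C ?_
      filter_upwards [hyw, hC] with k k1 k2
      rw [k1, norm_smul, mul_comm]
      exact mul_le_mul_of_nonneg_right k2 (norm_nonneg _)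
    have g3 : (fun k => F (Yk k) - F (c k) - fderiv ℝ F p (Yk k - c k)) =o[atTop] β :=
      g1.trans_isBigO g2
    have g4 : Tendsto (fun k => (β k)⁻¹ • (F (Yk k) - F (c k) - fderiv ℝ F p (Yk k - c k))) atTop
        (𝓝 0) := by
      rw [tendsto_zero_iff_norm_tendsto_zero]
      have g5 := g3.norm_left.norm_right.tendsto_div_nhds_zero
      refine g5.congr fun k => ?_
      rw [norm_smul, norm_inv, div_eq_inv_mul]
    have g6 : Tendsto (fun k => fderiv ℝ F p (w k)) atTop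
        (𝓝 (fderiv ℝ F p ((-b / a) • p + E3))) := ((fderiv ℝ F p).continuous.tendsto _).comp hwl
    have g7 := g4.add g6
    rw [zero_add] at g7
    refine g7.congr' ?_
    filter_upwards [hyw, hβ0] with k k1 k2
    rw [k1, map_smul, smul_sub, smul_smul, inv_mul_cancel₀ k2, one_smul]
    abel
  set G : ℕ → V3 →L[ℝ] ℝ := fun k => (β k)⁻¹ • (F (Yk k) - F (c k)) with hGdef
  set ww : V3 := (-b / a) • p + E3 with hww
  have hM : Tendsto (fun k => (G k (nk k) - ςk k * ⟪nk k, w k⟫ * F (c k) (c k)) / a) atTop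
      (𝓝 ((fderiv ℝ F p ww n - ς * ⟪n, ww⟫ * a) / a)) := by
    apply Tendsto.div_const
    apply Tendsto.sub
    · exact WHA_apply hG hnk
    · exact (hςk.mul (hnk.inner hwl)).mul (WHA_apply (hFc.tendsto.comp hcp) hcp)
  set Lν : ℝ := D2 f p (b • p - a • E3) n - ς * a * ⟪b • p - a • E3, n⟫ with hLν
  have hlim : (fderiv ℝ F p ww n - ς * ⟪n, ww⟫ * a) / a = -(Lν / a ^ 2) := by
    have e1 : b • p - a • E3 = (-a) • ww := by
      rw [hww, smul_add, smul_smul]
      have : -a * (-b / a) = b := by field_simp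
      rw [this, neg_smul]
      abel
    have e2 : Lν = -a * (fderiv ℝ F p ww n) - ς * a * (-a * ⟪n, ww⟫) := by
      rw [hLν, e1, real_inner_smul_left, real_inner_comm]
      simp only [D2, map_smul, smul_apply, smul_eq_mul]
      rfl
    rw [e2]
    field_simp
    ring
  rw [hlim] at hM
  have hLpos : 0 < Lν := hL1
  have ha2 : 0 < a ^ 2 := by positivity
  set κ : ℝ := Lν / (2 * a ^ 2) with hκ
  have hκ0 : 0 < κ := by positivity
  have hMk : ∀ᶠ k in atTop,
      (G k (nk k) - ςk k * ⟪nk k, w k⟫ * F (c k) (c k)) / a < -κ := by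
    apply hM.eventually_lt_const
    rw [hκ]
    have : Lν / (2 * a ^ 2) = (Lν / a ^ 2) / 2 := by
      field_simp
    rw [this]
    have : 0 < Lν / a ^ 2 := by positivity
    linarith
  have hn0 := norm_nonneg n
  set ω : ℝ := |a| * n 2 * κ / (2 * (‖n‖ + 1) ^ 2) with hω
  have hω0 : 0 < ω := by positivity
  obtain ⟨δ₁, hδ₁, htay⟩ := taylor_symm hf hω0
  have hsn : Tendsto (fun k => sk k • nk k) atTop (𝓝 0) := by
    have := hsk.smul hnk
    rwa [zero_smul] at this
  have hev1 : ∀ᶠ k in atTop, ‖Yk k - p‖ < δ₁ := by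
    have := Metric.tendsto_nhds.mp hYk δ₁ hδ₁
    filter_upwards [this] with k hk
    rwa [dist_eq_norm] at hk
  have hev2 : ∀ᶠ k in atTop, ‖sk k • nk k‖ < δ₁ := by
    have := Metric.tendsto_nhds.mp hsn δ₁ hδ₁
    filter_upwards [this] with k hk
    rwa [dist_zero_right] at hk
  have hev3 : ∀ᶠ k in atTop, ‖c k - p‖ < δ := by
    have := Metric.tendsto_nhds.mp hcp δ hδ
    filter_upwards [this] with k hk
    rwa [dist_eq_norm] at hk
  obtain ⟨k, k1, k2, k3, k4, k5, k6, k7, k8, k9⟩ := (hMk.and (hev1.and (hev2.and (hev3.and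
    (hcc.and (hβs.and (hβ0.and (hyw.and hnb)))))))).exists
  have hs := hs0 k
  have t1 := htay (Yk k) (sk k • nk k) k2 k3
  rw [h1 k, norm_smul, Real.norm_eq_abs, abs_of_pos hs] at t1
  have t2 := h2 k
  have t3 : F (Yk k) (sk k • nk k) = sk k * F (Yk k) (nk k) := by
    rw [map_smul, smul_eq_mul]
  have t1' := (abs_le.mp t1).2
  -- lower bound
  have low : -(ω * (sk k * (‖n‖ + 1) ^ 2)) / 2 ≤ F (Yk k) (nk k) := by
    have e1 : 0 - f (Yk k - sk k • nk k) - 2 * F (Yk k) (sk k • nk k) ≤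
      ω * (sk k * ‖nk k‖) ^ 2 := t1'
    rw [t3] at e1
    have e2 : ‖nk k‖ ^ 2 ≤ (‖n‖ + 1) ^ 2 := pow_le_pow_left₀ (norm_nonneg _) k9 2
    have e3 : sk k * (-(ω * (sk k * (‖n‖ + 1) ^ 2))) ≤ sk k * (2 * F (Yk k) (nk k)) := by
      have e4 : ω * (sk k * ‖nk k‖) ^ 2 ≤ ω * (sk k ^ 2 * (‖n‖ + 1) ^ 2) := by
        rw [mul_pow]
        gcongr
      nlinarith
    have e5 := le_of_mul_le_mul_left e3 hs
    linarith
  -- upper bound
  have up : F (Yk k) (nk k) ≤ -(κ * (a * β k)) := by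
    have u1 := h4 k (c k) k4 k5.1 k5.2.1
    have u2 : F (Yk k) (nk k) = F (c k) (nk k) + β k * G k (nk k) := by
      simp only [hGdef, smul_apply, sub_apply, smul_eq_mul]
      rw [← mul_assoc, mul_inv_cancel₀ k7, one_mul]
      ring
    have u3 : c k - Yk k = -(β k • w k) := by rw [← k8]; abel
    rw [u3, inner_neg_right, real_inner_smul_right] at u1
    have u4 : F (Yk k) (nk k) ≤
        β k * (G k (nk k) - ςk k * ⟪nk k, w k⟫ * F (c k) (c k)) := by
      rw [u2]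
      linarith
    have u5 : β k * (G k (nk k) - ςk k * ⟪nk k, w k⟫ * F (c k) (c k)) =
        (a * β k) * ((G k (nk k) - ςk k * ⟪nk k, w k⟫ * F (c k) (c k)) / a) := by
      field_simp
    have u6 : 0 < a * β k := lt_of_lt_of_le (by positivity) k6.1
    rw [u5] at u4
    have u7 := mul_le_mul_of_nonneg_left k1.le u6.le
    linarith
  have fin1 : κ * (|a| * (sk k * (n 2 / 2))) ≤ κ * (a * β k) :=
    mul_le_mul_of_nonneg_left k6.1 hκ0.le
  have fin2 : κ * (|a| * (sk k * (n 2 / 2))) ≤ ω * (sk k * (‖n‖ + 1) ^ 2) / 2 := by linarith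
  have fin3 : ω * (sk k * (‖n‖ + 1) ^ 2) / 2 = κ * (|a| * (sk k * (n 2 / 2))) / 2 := by
    rw [hω]
    field_simp
  rw [fin3] at fin2
  have fin4 : 0 < κ * (|a| * (sk k * (n 2 / 2))) := by positivity
  linarith

end Pool.Agent.H99.SC
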