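import Pool.Agent.H99.SC.WHL
import Pool.Agent.H99.SC.WHA
import Pool.Agent.H99.SC.LOC

/-!
# WHB: no bad sequence at a weak hinge

Apply `wh_core` to `f = B.f`, `B` a box at `u₀` with `e = N u₀`, `p = X u₀`, `n = nT e T`,
`ς = 1 - a T/h`, `ςk = 1 - a Tk/h`, `nk = nT e (Tk k)`, `sk k = ⟪nk, X (uk k)⟫ - tT h a (Tk k) > 0`,
`Yk = X (uk k) - sk nk`, so `Yk + sk nk = X (uk k)`, `Yk - sk nk = refl nk tk (X (uk k))`; drop finitely many terms
(compose the sequences with `k ↦ k + K`).  Hypotheses: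
 * `hfc`: `Disc` circle points near `p` are `X v`, `‖v‖ = 1`, `v` near `u₀` (`S.bd`, `S.emb`, `f_X`).
 * `F p p = ⟪g,p⟫ = ‖g‖ N_r ≠ 0`: `⟪z - p, N⟫ = 0` reads `N_r (1 + a ⟪e,p⟫) + h N_3 = 0`, so `N_r = 0` would give
   `N_3 = 0`.  `F p n = ‖g‖ ⟪N,n⟫ = 0` by `hinge_id` with `N = N_r p + N_3 E3` (`⟪n,p⟫ = tT`, `hw`).
 * hL0, hL1: `weak_L` (`(F p E3) p - (F p p) E3 = ‖g‖ nu`).
 * `sk → 0`: continuity of `tT h a` at `T` (`h - a T > 0`), `⟪n,p⟫ = tT h a T`.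
 * h1: `f (X (uk k)) = 0` (`f_X`).  h2, h3: the reflected point `R_k → p` is not in the closure of `W`.
   If `N_r < 0`: by `loc_neg`... `X (uk k)` is in the closure (`sig_closure`) so by `loc_neg` (third part) `(X (uk k)) 2 ≤ 0`,
   `(Yk) 2 = (X (uk k)) 2 - sk (nk) 2 ≤ - sk (nk) 2`; `(R_k) 2 = (X (uk k)) 2 - 2 sk (nk) 2 < 0`, and
   if `f R_k > 0` then `R_k ∈ W` by `loc_neg`: so `f R_k ≤ 0`.
   If `N_r > 0`: `loc_pos`: `f R_k ≤ 0` and `(R_k) 2 ≥ 0` (else `R_k ∈ W`); `(Yk) 2 = (R_k) 2 + sk (nk) 2 ≥ sk (nk) 2`.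
   `(nk) 2 = Tk/sqrt(1+Tk^2) > 0` for large `k`.
 * h4: `c` on the circle near `p`: `c = X v`, `‖v‖ = 1`, `F c w = ‖g c‖ ⟪N v, w⟫`, `N v = x c + y E3`;
   `hinge_id` at `Tk` (for large `k`: `a Tk < h`): `⟪nk, N v⟫ = -(..) ⟪z - c, N v⟫ + ςk (⟪nk,c⟫ - tk) ⟪c, N v⟫
   ≤ ςk (⟪nk,c⟫ - tk) ⟪c, N v⟫` by `wst1`, and `⟪nk, Yk⟫ = tk` (`|nk| = 1`).
-/

set_option autoImplicit false

open scoped RealInnerProductSpace Topology
open Metric Filter Set

noncomputable section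

namespace Pool.Agent.H99.SC

theorem WHB_mem {S : Surf} {u₀ : V2} {e : V3} (B : Box S.X u₀ e) {v : V2}
    (hv : ‖v - u₀‖ < B.r) : S.X v ∈ B.U B.r := by
  have := B.mk_mem (ε := B.r) hv (s := 0) (by simpa using B.hr)
  simpa using this

/-- the derivative of the defining function at a point of the surface -/
theorem WHB_F {S : Surf} {u₀ : V2} {e : V3} (B : Box S.X u₀ e) {v : V2}
    (hv : ‖v - u₀‖ < B.r) (w : V3) :
    fderiv ℝ B.f (S.X v) w = ‖B.g (S.X v)‖ * ⟪S.N v, w⟫ := by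
  have hm := WHB_mem B hv
  have h1 := B.g_eq hm
  rw [B.b_X hv] at h1
  have h2 : ⟪B.g (S.X v), w⟫ = ⟪‖B.g (S.X v)‖ • S.N v, w⟫ := congrArg (fun x => ⟪x, w⟫) h1
  rw [B.fd S.smooth hm, h2, inner_smul_left]
  simp

theorem WHB_tT_cont {h a T : ℝ} (hT2 : a * T < h) : ContinuousAt (tT h a) T := by
  unfold tT
  have h1 : 0 < Real.sqrt (1 + T ^ 2) := Real.sqrt_pos.2 (by positivity)
  have h2 : 0 < h - a * T := by linarith
  apply ContinuousAt.div continuousAt_id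
  · apply ContinuousAt.mul
    · fun_prop
    · exact (Real.continuous_sqrt.comp (by fun_prop : Continuous fun T : ℝ => 1 + T ^ 2)).continuousAt
  · positivity

theorem WHB_nT2 {e : V3} (he2 : e 2 = 0) (T : ℝ) :
    (nT e T) 2 = (Real.sqrt (1 + T ^ 2))⁻¹ * T := by
  unfold nT
  simp [he2]

/-- radial component of the normal is not zero at a weak hinge -/
theorem WHB_Nr {S : Surf} {e : V3} {a h : ℝ} (hh : 0 < h) {u₀ : V2} (hu₀ : ‖u₀‖ = 1)
    (hw : ⟪zc e a h - S.X u₀, S.N u₀⟫ = 0) : S.Nr u₀ ≠ 0 := by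
  intro h0
  have h1 := S.N_decomp hu₀
  have h2 := S.Nr_sq hu₀
  obtain ⟨hp2, hp1⟩ := S.bd1 hu₀
  rw [h0, zero_smul, zero_add] at h1
  rw [h1, inner_smul_right, ip] at hw
  simp only [PiLp.sub_apply, zc_0, zc_1, zc_2, E3_0, E3_1, E3_2, hp2] at hw
  rw [h0] at h2
  have h3 : (S.N u₀) 2 = 0 := by
    have : (S.N u₀) 2 * h = 0 := by linarith
    rcases mul_eq_zero.1 this with h4 | h4
    · exact h4
    · exact absurd h4 hh.ne'
  rw [h3] at h2
  norm_num at h2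

theorem weak_hinge {S : Surf} (D : Dom S) {e : V3} (he : ‖e‖ = 1) (he2 : e 2 = 0) {a h T : ℝ}
    (ha : 0 ≤ a) (hh : 0 < h) (hT : 0 < T) (hT2 : a * T < h) (hz : WStar D (zc e a h))
    {u₀ : V2} (hu₀ : ‖u₀‖ = 1) (hl : ⟪nT e T, S.X u₀⟫ = tT h a T)
    (hw : ⟪zc e a h - S.X u₀, S.N u₀⟫ = 0) {Tk : ℕ → ℝ} {uk : ℕ → V2}
    (hTk : Tendsto Tk atTop (𝓝 T)) (huk : Tendsto uk atTop (𝓝 u₀)) (hu1 : ∀ k, ‖uk k‖ ≤ 1)
    (hlk : ∀ k, tT h a (Tk k) < ⟪nT e (Tk k), S.X (uk k)⟫)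
    (hbad : ∀ k, refl (nT e (Tk k)) (tT h a (Tk k)) (S.X (uk k)) ∉ closure D.W) : False := by
  have hX := S.smooth.continuous
  have hnn : 0 < ⟪nn S.X u₀, S.N u₀⟫ := by
    rw [S.nn_eq hu₀.le, inner_smul_left, real_inner_self_eq_norm_sq, S.N_norm hu₀.le]
    simpa using S.nn_pos hu₀.le
  obtain ⟨B⟩ := exists_box S.smooth hnn
  obtain ⟨hp2, hp1⟩ := S.bd1 hu₀
  have hu00 : ‖u₀ - u₀‖ < B.r := by simpa using B.hr
  have hmem := WHB_mem B hu00
  have hgp : 0 < ‖B.g (S.X u₀)‖ := B.g_pos hmem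
  have hNr : S.Nr u₀ ≠ 0 := WHB_Nr hh hu₀ hw
  have hFp : ∀ w, fderiv ℝ B.f (S.X u₀) w = ‖B.g (S.X u₀)‖ * ⟪S.N u₀, w⟫ := fun w =>
    WHB_F B hu00 w
  have hFpp : fderiv ℝ B.f (S.X u₀) (S.X u₀) = ‖B.g (S.X u₀)‖ * S.Nr u₀ := hFp _
  -- the functional
  obtain ⟨hL0, hL1⟩ := weak_L D he he2 ha hh hT hT2 hz hu₀ hl hw B
  rw [← B.fd S.smooth hmem] at hL0 hL1
  -- points of the circle
  obtain ⟨δ, hδ, hemb⟩ := S.emb hu₀.le B.hr
  have hcirc : ∀ y : V3, ‖y - S.X u₀‖ < δ → y 2 = 0 → y 0 ^ 2 + y 1 ^ 2 = 1 →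
      ∃ v : V2, ‖v‖ = 1 ∧ S.X v = y ∧ ‖v - u₀‖ < B.r := by
    intro y hy h2 h1
    obtain ⟨v, hv, hvy⟩ := (S.bd y).2 ⟨h2, h1⟩
    refine ⟨v, hv, hvy, hemb v hv.le ?_⟩
    rw [hvy]; exact hy
  -- the sequences
  set n' : ℕ → V3 := fun k => nT e (Tk k) with hn'
  set t' : ℕ → ℝ := fun k => tT h a (Tk k) with ht'
  set s' : ℕ → ℝ := fun k => ⟪n' k, S.X (uk k)⟫ - t' k with hs'
  set Y' : ℕ → V3 := fun k => S.X (uk k) - s' k • n' k with hY'
  have ln : Tendsto n' atTop (𝓝 (nT e T)) := ((nT_cont e).tendsto T).comp hTk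
  have lt : Tendsto t' atTop (𝓝 (tT h a T)) := (WHB_tT_cont hT2).tendsto.comp hTk
  have lX : Tendsto (fun k => S.X (uk k)) atTop (𝓝 (S.X u₀)) := (hX.tendsto u₀).comp huk
  have ls : Tendsto s' atTop (𝓝 0) := by
    have := (ln.inner lX).sub lt
    rw [hl, sub_self] at this
    exact this
  have lY : Tendsto Y' atTop (𝓝 (S.X u₀)) := by
    have := lX.sub (ls.smul ln)
    rw [zero_smul, sub_zero] at this
    exact this
  have hR : ∀ k, Y' k - s' k • n' k = refl (n' k) (t' k) (S.X (uk k)) := by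
    intro k
    simp only [hY', hs', refl]
    module
  have lR : Tendsto (fun k => refl (n' k) (t' k) (S.X (uk k))) atTop (𝓝 (S.X u₀)) := by
    have := lY.sub (ls.smul ln)
    rw [zero_smul, sub_zero] at this
    exact this.congr hR
  have hs0 : ∀ k, 0 < s' k := fun k => sub_pos.2 (hlk k)
  have hYn : ∀ k, ⟪n' k, Y' k⟫ = t' k := by
    intro k
    have h1 : ⟪n' k, n' k⟫ = 1 := by
      rw [real_inner_self_eq_norm_sq]
      simp only [hn']
      rw [nT_norm he he2]; norm_num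
    simp only [hY']
    rw [inner_sub_right, inner_smul_right, h1]
    simp only [hs']
    ring
  -- eventual facts
  have ev1 : ∀ᶠ k in atTop, ‖uk k - u₀‖ < B.r := by
    have := huk.sub_const u₀
    rw [sub_self] at this
    have h2 := this.norm
    rw [norm_zero] at h2
    exact h2.eventually_lt_const B.hr
  have ev2 : ∀ᶠ k in atTop, 0 < Tk k := hTk.eventually_const_lt hT
  have ev3 : ∀ᶠ k in atTop, a * Tk k < h := (hTk.const_mul a).eventually_lt_const hT2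
  have ev4 : ∀ᶠ k in atTop, B.f (refl (n' k) (t' k) (S.X (uk k))) ≤ 0 ∧
      ((0 < S.Nr u₀ → s' k * (n' k) 2 ≤ (Y' k) 2) ∧
        (S.Nr u₀ < 0 → (Y' k) 2 ≤ -(s' k * (n' k) 2))) := by
    have hn2 : ∀ᶠ k in atTop, 0 < (n' k) 2 := by
      filter_upwards [ev2] with k hk
      simp only [hn']
      rw [WHB_nT2 he2]
      have : 0 < Real.sqrt (1 + Tk k ^ 2) := Real.sqrt_pos.2 (by positivity)
      positivity
    have hRY : ∀ k, (refl (n' k) (t' k) (S.X (uk k))) 2 = (Y' k) 2 - s' k * (n' k) 2 := by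
      intro k
      rw [← hR k]
      simp
    have hYX : ∀ k, (Y' k) 2 = (S.X (uk k)) 2 - s' k * (n' k) 2 := by
      intro k
      simp [hY']
    rcases lt_or_gt_of_ne hNr with hneg | hpos
    · have hloc := loc_neg D.toPreDom hu₀ hneg B
      filter_upwards [lX.eventually hloc, lR.eventually hloc, hn2] with k h1 h2 h3
      have h4 : (S.X (uk k)) 2 ≤ 0 := by
        by_contra hcon
        exact h1.2.2 (not_le.1 hcon) (sig_closure D.toPreDom (S.mem_Sig (hu1 k)))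
      have h5 : 0 < s' k * (n' k) 2 := mul_pos (hs0 k) h3
      refine ⟨?_, fun h => absurd h (not_lt.2 hneg.le), fun _ => by rw [hYX k]; linarith⟩
      by_contra hcon
      have h6 : (refl (n' k) (t' k) (S.X (uk k))) 2 < 0 := by
        rw [hRY k, hYX k]; linarith
      exact hbad k (subset_closure (h2.1 (not_le.1 hcon) h6))
    · have hloc := loc_pos D.toPreDom hu₀ hpos B
      filter_upwards [lR.eventually hloc, hn2] with k h2 h3
      have h6 : 0 ≤ (refl (n' k) (t' k) (S.X (uk k))) 2 := by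
        by_contra hcon
        exact hbad k (subset_closure (h2.2.1 (not_le.1 hcon)))
      refine ⟨?_, fun _ => by rw [hRY k] at h6; linarith, fun h => absurd h (not_lt.2 hpos.le)⟩
      by_contra hcon
      exact hbad k (subset_closure (h2.1 (not_le.1 hcon)))
  obtain ⟨K, hK⟩ := eventually_atTop.1 (ev1.and (ev2.and (ev3.and ev4)))
  have hsh := tendsto_add_atTop_nat K
  refine wh_core (f := B.f) (p := S.X u₀) (n := nT e T) (ς := 1 - a * T / h)
    (nk := fun k => n' (k + K)) (Yk := fun k => Y' (k + K)) (sk := fun k => s' (k + K))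
    (ςk := fun k => 1 - a * Tk (k + K) / h) (δ := δ)
    (B.smooth_f hmem) hp2 hp1 ?_ ?_ ?_ ?_ ?_ ?_ (ln.comp hsh) (lY.comp hsh) (ls.comp hsh) ?_
    (fun k => hs0 _) ?_ ?_ ?_ hδ ?_
  · -- hfc
    have : ∀ᶠ y in 𝓝 (S.X u₀), ‖y - S.X u₀‖ < δ := by
      filter_upwards [ball_mem_nhds (S.X u₀) hδ] with y hy
      rwa [mem_ball, dist_eq_norm] at hy
    filter_upwards [this] with y hy h2 h1
    obtain ⟨v, -, hvy, hv⟩ := hcirc y hy h2 h1
    rw [← hvy]; exact B.f_X hv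
  · -- hr
    rw [hFpp]; exact mul_ne_zero hgp.ne' hNr
  · -- hn
    rw [hFp]
    have h1 := hinge_id he he2 hh hT2 hp2 hp1 (S.Nr u₀) (S.N u₀ 2)
    rw [← S.N_decomp hu₀, hw, hl] at h1
    rw [real_inner_comm, h1]
    ring
  · -- hn2
    rw [WHB_nT2 he2]
    have : 0 < Real.sqrt (1 + T ^ 2) := Real.sqrt_pos.2 (by positivity)
    positivity
  · exact hL0
  · -- hL1
    have hv : (fderiv ℝ B.f (S.X u₀) E3) • S.X u₀ - (fderiv ℝ B.f (S.X u₀) (S.X u₀)) • E3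
        = ‖B.g (S.X u₀)‖ • S.nu u₀ := by
      rw [hFpp, hFp E3]
      have : ⟪S.N u₀, E3⟫ = S.N u₀ 2 := by rw [ip]; simp
      rw [this]
      unfold Surf.nu
      module
    rw [hv, D2_smul, inner_smul_left, smul_eq_mul]
    have : ‖B.g (S.X u₀)‖ * D2 B.f (S.X u₀) (S.nu u₀) (nT e T) - (1 - a * T / h) *
        fderiv ℝ B.f (S.X u₀) (S.X u₀) * ((starRingEnd ℝ) ‖B.g (S.X u₀)‖ * ⟪S.nu u₀, nT e T⟫)
        = ‖B.g (S.X u₀)‖ * (D2 B.f (S.X u₀) (S.nu u₀) (nT e T)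
        - (1 - a * T / h) * fderiv ℝ B.f (S.X u₀) (S.X u₀) * ⟪S.nu u₀, nT e T⟫) := by
      simp only [conj_trivial]
      ring
    rw [this]
    exact mul_pos hgp hL1
  · -- ςk
    have := (tendsto_const_nhds (x := (1 : ℝ))).sub (((hTk.comp hsh).const_mul a).div_const h)
    exact this
  · -- h1
    intro k
    have : Y' (k + K) + s' (k + K) • n' (k + K) = S.X (uk (k + K)) := by
      simp only [hY']
      module
    rw [this]
    exact B.f_X (hK (k + K) (by omega)).1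
  · -- h2
    intro k
    rw [hR]
    exact (hK (k + K) (by omega)).2.2.2.1
  · -- h3
    intro k
    have h1 := (hK (k + K) (by omega)).2.2.2.2
    constructor
    · intro h2
      rw [hFpp] at h2
      exact h1.1 (pos_of_mul_pos_right h2 hgp.le)
    · intro h2
      rw [hFpp] at h2
      refine h1.2 ?_
      by_contra hcon
      exact absurd h2 (not_lt.2 (mul_nonneg hgp.le (not_lt.1 hcon)))
  · -- h4
    intro k c hc h2 h1
    obtain ⟨v, hv1, hvc, hv⟩ := hcirc c hc h2 h1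
    obtain ⟨-, hTp, hTa, -⟩ := hK (k + K) (by omega)
    have hmv := WHB_mem B hv
    have hgv : 0 < ‖B.g (S.X v)‖ := B.g_pos hmv
    subst hvc
    have h3 := hinge_id he he2 hh hTa h2 h1 (S.Nr v) (S.N v 2)
    rw [← S.N_decomp hv1] at h3
    have h4 := wst1 hz hv1.le
    rw [WHB_F B hv, WHB_F B hv, inner_sub_right, hYn]
    have h5 : 0 ≤ Tk (k + K) / Real.sqrt (1 + Tk (k + K) ^ 2) / h := by positivity
    have h6 : ⟪S.N v, n' (k + K)⟫ ≤ (1 - a * Tk (k + K) / h) * (⟪n' (k + K), S.X v⟫ - t' (k + K))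
        * ⟪S.N v, S.X v⟫ := by
      rw [real_inner_comm (n' (k + K)) (S.N v), real_inner_comm (S.X v) (S.N v)]
      simp only [hn', ht']
      rw [h3]
      have := mul_nonneg h5 h4
      linarith
    calc ‖B.g (S.X v)‖ * ⟪S.N v, n' (k + K)⟫ ≤ ‖B.g (S.X v)‖ * ((1 - a * Tk (k + K) / h)
          * (⟪n' (k + K), S.X v⟫ - t' (k + K)) * ⟪S.N v, S.X v⟫) :=
          mul_le_mul_of_nonneg_left h6 hgv.le
      _ = _ := by ring

end Pool.Agent.H99.SC
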