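import Pool.Agent.H99.SC.WST
import Pool.Agent.H99.SC.ORI

/-!
# WHL: the linear functional at a weak hinge (paper, section 6)

`z = zc e a h`, `n = nT e T`, `p = X u₀`, `N = N u₀`, `⟪n,p⟫ = tT h a T`, `⟪z - p, N⟫ = 0`,
`f = B.f`, `g = ∇f(p) = |g| N` (`fd`, `g_eq`; `b p = u₀` by `b_X`), `Q = D2 f p`, `ς = 1 - a T/h`, `L v = Q v n - ς ⟪g,p⟫ ⟪v,n⟫`.
Claim: `L (TT p) = 0` and `L (nu) > 0`.
(0) `N = N_r p + N_3 E3` (`N_decomp`); `⟪z - p, N⟫ = 0` reads `N_r (1 + a ⟪e,p⟫) + h N_3 = 0`.  Hence `N_r ≠ 0`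
  (else `N_3 = 0`).  `1 + a⟪e,p⟫` is not used.
(6) `G(x) = ⟪z - x, ∇f(x)⟫ = fderiv f x (z - x)` is C^1 near `p`, `G p = 0`; for `‖u‖ ≤ 1` near `u₀`,
  `G (X u) = |g| ⟪z - X u, N u⟫ ≥ 0` (`wst1`).  So its derivative along `ψ ↦ X (cu ψ)` is 0 at `u₀` (interior
  minimum; velocity `lam TT p`, `lam ≠ 0`) and along `s ↦ X (u₀ - s u₀)`, `s ≥ 0`, it is `≥ 0`.
  `DG(p) v = Q v (z-p) - ⟪v,g⟫`, `= Q v (z-p)` for tangent `v`.  So `Q (TT) (z-p) = 0` and
  `Q (fderiv X u₀ u₀) (z-p) ≤ 0`; with `Xr_decomp` and `ori`: `Q nu (z-p) ≤ 0`.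
  `Q TT TT = ⟪g,p⟫`: differentiate `f (cos ψ, sin ψ, 0) = 0` (near `p`; points of the circle near `p` are
  `X v`, `v` near `u₀`, by `S.bd`, `S.emb`) twice: `Q TT TT + Df(p)(-p) = 0`.
(7) `n = μ (p - z) + λ TT p` (`hinge_vec`, `μ = T/sqrt(1+T^2)/h > 0`, `λ = ς ⟪n,TT p⟫`):
  `L(TT) = μ Q TT (p-z) + λ Q TT TT - ς ⟪g,p⟫⟪TT,n⟫ = λ ⟪g,p⟫ - ς ⟪g,p⟫ ⟪TT,n⟫ = 0`.
  `p - z` is orthogonal to `N`, so `p - z = b nu + c TT` with `b = ⟪p-z,nu⟫` (`nu, TT, N` orthonormal),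
  `nu = N_3 p - N_r E3`, so `b = N_3 (1 + a⟪e,p⟫) - N_r h` and by (0) `N_r b = -h (N_3^2 + N_r^2) = -h`.
  `b L(nu) = L(p-z) = Q (p-z) n - ς⟪g,p⟫⟪p-z,n⟫`; `Q (p-z) n = μ Q (p-z)(p-z) + λ Q (p-z) TT =
  μ Q (p-z)(p-z) = μ b Q nu (p-z)`.  So
  `L(nu) = μ Q nu (p-z) - (ς ⟪g,p⟫/b) ⟪p-z,n⟫ > 0`: `Q nu (p-z) ≥ 0`, `⟪g,p⟫ = |g| N_r`,
  `-N_r/b = N_r^2/h > 0`, `ς > 0`, `⟪p-z,n⟫ = tT + (a + h T)/sqrt(1+T^2) > 0`.
-/

set_option autoImplicit false

open scoped RealInnerProductSpace Topology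
open Metric Filter Set

noncomputable section

namespace Pool.Agent.H99.SC

theorem WHL_curve {f : V3 → ℝ} {p : V3} (hf : ContDiffAt ℝ 2 f p) {y w : ℝ → V3} {y' w' : V3}
    (hy : HasDerivAt y y' 0) (hy0 : y 0 = p) (hw : HasDerivAt w w' 0) :
    HasDerivAt (fun s => fderiv ℝ f (y s) (w s)) (D2 f p y' (w 0) + fderiv ℝ f p w') 0 := by
  have h1 : HasFDerivAt (fderiv ℝ f) (fderiv ℝ (fderiv ℝ f) p) (y 0) := by
    rw [hy0]
    exact ((contDiffAt_fderiv hf).differentiableAt (by norm_num)).hasFDerivAt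
  have h2 : HasDerivAt (fun s => fderiv ℝ f (y s)) (fderiv ℝ (fderiv ℝ f) p y') 0 :=
    h1.comp_hasDerivAt 0 hy
  have := h2.clm_apply hw
  simpa [hy0, D2] using this

theorem WHL_right {φ : ℝ → ℝ} {φ' : ℝ} (h : HasDerivAt φ φ' 0) (h0 : φ 0 = 0)
    (hp : ∀ᶠ s in 𝓝[>] (0 : ℝ), 0 ≤ φ s) : 0 ≤ φ' := by
  have h1 := hasDerivAt_iff_tendsto_slope.1 h
  have h2 : Tendsto (slope φ 0) (𝓝[>] (0 : ℝ)) (𝓝 φ') :=
    h1.mono_left (nhdsWithin_mono _ fun x hx => (ne_of_gt hx : x ≠ 0))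
  refine ge_of_tendsto h2 ?_
  filter_upwards [hp, self_mem_nhdsWithin] with s hs hs0
  rw [slope_def_field, h0]
  have : (0 : ℝ) < s := hs0
  simp only [sub_zero]
  positivity

theorem WHL_circ (p : V3) (ψ : ℝ) :
    HasDerivAt (fun ψ : ℝ => Real.cos ψ • p + Real.sin ψ • TT p)
      (-(Real.sin ψ) • p + Real.cos ψ • TT p) ψ :=
  ((Real.hasDerivAt_cos ψ).smul_const p).add ((Real.hasDerivAt_sin ψ).smul_const (TT p))

theorem WHL_circ' (p : V3) (ψ : ℝ) :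
    HasDerivAt (fun ψ : ℝ => -(Real.sin ψ) • p + Real.cos ψ • TT p)
      (-(Real.cos ψ) • p + -(Real.sin ψ) • TT p) ψ :=
  ((Real.hasDerivAt_sin ψ).neg.smul_const p).add ((Real.hasDerivAt_cos ψ).smul_const (TT p))

/-- orthonormal decomposition -/
theorem WHL_basis {p : V3} (h2 : p 2 = 0) (h1 : p 0 ^ 2 + p 1 ^ 2 = 1) {x y : ℝ}
    (hxy : x ^ 2 + y ^ 2 = 1) (v : V3) :
    v = ⟪v, x • p + y • E3⟫ • (x • p + y • E3) + ⟪v, y • p - x • E3⟫ • (y • p - x • E3)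
      + ⟪v, TT p⟫ • TT p := by
  apply ext3
  · simp [ip, h2]
    linear_combination (-(v 0 * p 0 + v 1 * p 1) * p 0) * hxy - v 0 * h1
  · simp [ip, h2]
    linear_combination (-(v 0 * p 0 + v 1 * p 1) * p 1) * hxy - v 1 * h1
  · simp [ip, h2]
    linear_combination (-(v 2)) * hxy

theorem weak_L {S : Surf} (D : Dom S) {e : V3} (he : ‖e‖ = 1) (he2 : e 2 = 0) {a h T : ℝ}
    (ha : 0 ≤ a) (hh : 0 < h) (hT : 0 < T) (hT2 : a * T < h) (hz : WStar D (zc e a h))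
    {u₀ : V2} (hu₀ : ‖u₀‖ = 1) (hl : ⟪nT e T, S.X u₀⟫ = tT h a T)
    (hw : ⟪zc e a h - S.X u₀, S.N u₀⟫ = 0) (B : Box S.X u₀ (S.N u₀)) :
    D2 B.f (S.X u₀) (TT (S.X u₀)) (nT e T)
        - (1 - a * T / h) * ⟪B.g (S.X u₀), S.X u₀⟫ * ⟪TT (S.X u₀), nT e T⟫ = 0 ∧
      0 < D2 B.f (S.X u₀) (S.nu u₀) (nT e T)
        - (1 - a * T / h) * ⟪B.g (S.X u₀), S.X u₀⟫ * ⟪S.nu u₀, nT e T⟫ := by
  set p := S.X u₀ with hp
  set z := zc e a h with hzdef
  set n := nT e T with hn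
  set f := B.f with hf
  have hpU : p ∈ B.U B.r := B.mem_U B.hr
  have hfs : ContDiffAt ℝ 2 f p := B.smooth_f hpU
  obtain ⟨hp2, hp1⟩ := S.bd1 hu₀
  rw [← hp] at hp2 hp1
  -- values of the derivative of `f` along the surface
  have hfd : ∀ v : V2, ‖v - u₀‖ < B.r → ∀ w : V3,
      fderiv ℝ f (S.X v) w = ‖B.g (S.X v)‖ * ⟪S.N v, w⟫ := by
    intro v hv w
    have hU : S.X v ∈ B.U B.r := by
      have := B.mk_mem (X := S.X) (e := S.N u₀) hv (s := 0) (by simpa using B.hr)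
      simpa using this
    have hg := B.g_eq hU
    rw [B.b_X hv] at hg
    rw [hf, B.fd S.smooth hU]
    conv_lhs => rw [hg]
    rw [real_inner_smul_left]
    rfl
  have hu0r : ‖u₀ - u₀‖ < B.r := by simpa using B.hr
  set G := ‖B.g p‖ with hG
  have hGpos : 0 < G := B.g_pos hpU
  have hfp : ∀ w : V3, fderiv ℝ f p w = G * ⟪S.N u₀, w⟫ := fun w => hfd u₀ hu0r w
  have hgp : ⟪B.g p, p⟫ = G * S.Nr u₀ := by
    rw [← B.fd S.smooth hpU, ← hf, hfp]
    rfl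
  -- nonnegativity of the function `G`
  have hnonneg : ∀ v : V2, ‖v‖ ≤ 1 → ‖v - u₀‖ < B.r → 0 ≤ fderiv ℝ f (S.X v) (z - S.X v) := by
    intro v hv hv2
    rw [hfd v hv2, real_inner_comm]
    exact mul_nonneg (norm_nonneg _) (wst1 hz hv)
  -- the circle near `p`
  have hc2 : ∀ ψ : ℝ, (Real.cos ψ • p + Real.sin ψ • TT p) 2 = 0 := by
    intro ψ
    simp [hp2]
  have hc1 : ∀ ψ : ℝ, (Real.cos ψ • p + Real.sin ψ • TT p) 0 ^ 2
      + (Real.cos ψ • p + Real.sin ψ • TT p) 1 ^ 2 = 1 := by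
    intro ψ
    simp
    have := Real.sin_sq_add_cos_sq ψ
    linear_combination (Real.cos ψ ^ 2 + Real.sin ψ ^ 2) * hp1 + this
  have hc0 : Real.cos 0 • p + Real.sin 0 • TT p = p := by simp
  have hcev : ∀ᶠ ψ in 𝓝 (0 : ℝ), ∃ v : V2, ‖v‖ ≤ 1 ∧ ‖v - u₀‖ < B.r ∧
      S.X v = Real.cos ψ • p + Real.sin ψ • TT p := by
    obtain ⟨δ, hδ, hem⟩ := S.emb hu₀.le B.hr
    have hcont : Tendsto (fun ψ : ℝ => Real.cos ψ • p + Real.sin ψ • TT p) (𝓝 0) (𝓝 p) := by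
      have := (WHL_circ p 0).continuousAt.tendsto
      simpa using this
    filter_upwards [hcont.eventually (Metric.ball_mem_nhds p hδ)] with ψ hψ
    obtain ⟨v, hv, hvX⟩ := (S.bd _).2 ⟨hc2 ψ, hc1 ψ⟩
    refine ⟨v, hv.le, hem v hv.le ?_, hvX⟩
    rw [hvX, ← dist_eq_norm]
    exact hψ
  -- (a) `Q TT TT = ⟪g, p⟫`
  have hQTT : D2 f p (TT p) (TT p) = G * S.Nr u₀ := by
    have hzero : ∀ᶠ ψ in 𝓝 (0 : ℝ), f (Real.cos ψ • p + Real.sin ψ • TT p) = 0 := by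
      filter_upwards [hcev] with ψ hψ
      obtain ⟨v, hv, hv2, hvX⟩ := hψ
      rw [← hvX]
      exact B.f_X hv2
    have hUev : ∀ᶠ ψ in 𝓝 (0 : ℝ), Real.cos ψ • p + Real.sin ψ • TT p ∈ B.U B.r := by
      have hcont : Tendsto (fun ψ : ℝ => Real.cos ψ • p + Real.sin ψ • TT p) (𝓝 0) (𝓝 p) := by
        have := (WHL_circ p 0).continuousAt.tendsto
        simpa using this
      exact hcont.eventually (B.U_nhds B.hr le_rfl)
    have hder : ∀ᶠ ψ in 𝓝 (0 : ℝ), fderiv ℝ f (Real.cos ψ • p + Real.sin ψ • TT p)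
        (-(Real.sin ψ) • p + Real.cos ψ • TT p) = 0 := by
      filter_upwards [hzero.eventually_nhds, hUev] with ψ hψ hψU
      have h1 : HasDerivAt (fun ψ : ℝ => f (Real.cos ψ • p + Real.sin ψ • TT p))
          (fderiv ℝ f (Real.cos ψ • p + Real.sin ψ • TT p)
            (-(Real.sin ψ) • p + Real.cos ψ • TT p)) ψ := by
        have h2 : HasFDerivAt f (fderiv ℝ f (Real.cos ψ • p + Real.sin ψ • TT p))
            (Real.cos ψ • p + Real.sin ψ • TT p) :=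
          ((B.smooth_f hψU).differentiableAt (by norm_num)).hasFDerivAt
        exact h2.comp_hasDerivAt ψ (WHL_circ p ψ)
      have h3 : HasDerivAt (fun ψ : ℝ => f (Real.cos ψ • p + Real.sin ψ • TT p)) 0 ψ :=
        (hasDerivAt_const ψ (0 : ℝ)).congr_of_eventuallyEq hψ
      exact h1.unique h3
    have h1 := WHL_curve (f := f) (p := p) hfs (WHL_circ p 0) hc0 (WHL_circ' p 0)
    have h2 : HasDerivAt (fun ψ : ℝ => fderiv ℝ f (Real.cos ψ • p + Real.sin ψ • TT p)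
        (-(Real.sin ψ) • p + Real.cos ψ • TT p)) 0 0 :=
      (hasDerivAt_const (0 : ℝ) (0 : ℝ)).congr_of_eventuallyEq hder
    have h3 := h1.unique h2
    simp only [Real.sin_zero, Real.cos_zero, neg_zero, zero_smul, one_smul, zero_add, add_zero,
      neg_smul] at h3
    rw [map_neg, hfp] at h3
    have h4 : ⟪S.N u₀, p⟫ = S.Nr u₀ := rfl
    rw [h4] at h3
    linarith
  -- (b) `Q TT (z - p) = 0`
  have hNTT : ⟪S.N u₀, TT p⟫ = 0 := S.N_TT hu₀
  have hNz : ⟪S.N u₀, z - p⟫ = 0 := by rw [real_inner_comm]; exact hw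
  have hQTz : D2 f p (TT p) (z - p) = 0 := by
    have hw' : HasDerivAt (fun ψ : ℝ => z - (Real.cos ψ • p + Real.sin ψ • TT p))
        (-(-(Real.sin 0) • p + Real.cos 0 • TT p)) 0 := (WHL_circ p 0).const_sub z
    have h1 := WHL_curve (f := f) (p := p) hfs (WHL_circ p 0) hc0 hw'
    have hmin : IsLocalMin (fun ψ : ℝ => fderiv ℝ f (Real.cos ψ • p + Real.sin ψ • TT p)
        (z - (Real.cos ψ • p + Real.sin ψ • TT p))) 0 := by
      have e0 : fderiv ℝ f (Real.cos 0 • p + Real.sin 0 • TT p)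
          (z - (Real.cos 0 • p + Real.sin 0 • TT p)) = 0 := by
        rw [hc0, hfp, hNz, mul_zero]
      filter_upwards [hcev] with ψ hψ
      obtain ⟨v, hv, hv2, hvX⟩ := hψ
      rw [e0, ← hvX]
      exact hnonneg v hv hv2
    have h2 := hmin.hasDerivAt_eq_zero h1
    simp only [Real.sin_zero, Real.cos_zero, neg_zero, zero_smul, one_smul, zero_add, add_zero] at h2
    rw [map_neg, hfp, hNTT, mul_zero, neg_zero, add_zero] at h2
    exact h2
  -- (c) `Q nu (z - p) ≤ 0`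
  have hQnu : D2 f p (S.nu u₀) (z - p) ≤ 0 := by
    have hY : HasDerivAt (fun s : ℝ => S.X (u₀ - s • u₀)) (fderiv ℝ S.X u₀ (-u₀)) 0 := by
      have h1 : HasFDerivAt S.X (fderiv ℝ S.X u₀) (u₀ - (0 : ℝ) • u₀) := by
        rw [zero_smul, sub_zero]
        exact (S.smooth.differentiable (by norm_num)).differentiableAt.hasFDerivAt
      have h2 : HasDerivAt (fun s : ℝ => u₀ - s • u₀) (-u₀) 0 := by
        have := ((hasDerivAt_id (0 : ℝ)).smul_const u₀).const_sub u₀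
        simpa using this
      exact h1.comp_hasDerivAt 0 h2
    have hY0 : S.X (u₀ - (0 : ℝ) • u₀) = p := by rw [zero_smul, sub_zero]
    have h1 := WHL_curve (f := f) (p := p) hfs hY hY0 (hY.const_sub z)
    have h2 : 0 ≤ D2 f p (fderiv ℝ S.X u₀ (-u₀)) (z - S.X (u₀ - (0 : ℝ) • u₀))
        + fderiv ℝ f p (-(fderiv ℝ S.X u₀ (-u₀))) := by
      refine WHL_right h1 ?_ ?_
      · rw [hY0, hfp, hNz, mul_zero]
      · have hr := B.hr
        have hev : ∀ᶠ s in 𝓝[>] (0 : ℝ), s < min 1 B.r :=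
          nhdsWithin_le_nhds (eventually_lt_nhds (by positivity))
        filter_upwards [hev, self_mem_nhdsWithin] with s hs hs0
        have hs0' : (0 : ℝ) < s := hs0
        have hs1 : s < 1 := hs.trans_le (min_le_left _ _)
        have hs2 : s < B.r := hs.trans_le (min_le_right _ _)
        apply hnonneg
        · have : u₀ - s • u₀ = (1 - s) • u₀ := by module
          rw [this, norm_smul, hu₀, Real.norm_eq_abs, abs_of_pos (by linarith)]
          linarith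
        · rw [sub_sub_cancel_left, norm_neg, norm_smul, hu₀, Real.norm_eq_abs, abs_of_pos hs0']
          linarith
    rw [hY0, map_neg, neg_neg, hfp, S.N_orth, mul_zero, add_zero] at h2
    have h3 : D2 f p (-(fderiv ℝ S.X u₀ u₀)) (z - p) = -D2 f p (fderiv ℝ S.X u₀ u₀) (z - p) := by
      have := D2_smul (f := f) (x := p) (-1 : ℝ) (fderiv ℝ S.X u₀ u₀) (z - p)
      simpa using this
    rw [h3, S.Xr_decomp hu₀, D2_add, D2_smul, D2_smul, ← hp, hQTz, smul_zero, add_zero,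
      smul_eq_mul] at h2
    have hβ := ori D.toPreDom hu₀
    nlinarith
  -- algebra
  have hsym : ∀ v w : V3, D2 f p v w = D2 f p w v := fun v w => D2_symm hfs v w
  have hneg : ∀ v w w' : V3, D2 f p v (w - w') = -D2 f p v (w' - w) := by
    intro v w w'
    have := D2_smul' (f := f) (x := p) (-1 : ℝ) v (w' - w)
    rw [show (-1 : ℝ) • (w' - w) = w - w' by module] at this
    rw [this, smul_eq_mul]; ring
  set μ := T / Real.sqrt (1 + T ^ 2) / h with hμ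
  set ς := 1 - a * T / h with hς
  have hsq : 0 < Real.sqrt (1 + T ^ 2) := Real.sqrt_pos.2 (by positivity)
  have hμpos : 0 < μ := by positivity
  have hςpos : 0 < ς := by
    rw [hς, sub_pos, div_lt_one hh]
    exact hT2
  have hnv : n = μ • (p - z) + (ς * ⟪n, TT p⟫) • TT p := hinge_vec he he2 hh hT2 hp2 hp1 hl
  have hNs := S.Nr_sq hu₀
  set x := S.Nr u₀ with hx
  set y := S.N u₀ 2 with hy
  have hNd : S.N u₀ = x • p + y • E3 := S.N_decomp hu₀
  have hnud : S.nu u₀ = y • p - x • E3 := rfl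
  -- `L (TT p) = 0`
  have hL1 : D2 f p (TT p) n - ς * (G * x) * ⟪TT p, n⟫ = 0 := by
    have h1 : D2 f p (TT p) n = (ς * ⟪n, TT p⟫) * (G * x) := by
      conv_lhs => rw [hnv]
      rw [D2_add', D2_smul', D2_smul', hQTT, hneg, hQTz]
      simp
    rw [h1, real_inner_comm n (TT p)]
    ring
  refine ⟨by rw [hgp]; exact hL1, ?_⟩
  rw [hgp]
  -- the equation of the hinge
  have hee : e 0 ^ 2 + e 1 ^ 2 = 1 := by
    have := nsq e
    rw [he, he2] at this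
    linarith
  have h0 : x * (1 + a * (e 0 * p 0 + e 1 * p 1)) = -(h * y) := by
    have h1 := hNz
    rw [hNd] at h1
    simp [ip, hzdef, hp2] at h1
    linear_combination -h1 - x * hp1
  set b := ⟪p - z, S.nu u₀⟫ with hb
  have hb1 : b = y * (1 + a * (e 0 * p 0 + e 1 * p 1)) - x * h := by
    rw [hb, hnud]
    simp [ip, hzdef, hp2]
    linear_combination y * hp1
  have hxb : x * b = -h := by
    rw [hb1]
    linear_combination y * h0 - h * hNs
  have hx0 : x ≠ 0 := by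
    intro hx0
    rw [hx0, zero_mul] at hxb
    linarith
  have hb0 : b ≠ 0 := by
    intro hb0
    rw [hb0, mul_zero] at hxb
    linarith
  have hpz : p - z = b • S.nu u₀ + ⟪p - z, TT p⟫ • TT p := by
    have h1 := WHL_basis hp2 hp1 hNs (p - z)
    rw [← hNd, ← hnud] at h1
    have h2 : ⟪p - z, S.N u₀⟫ = 0 := by
      rw [← neg_sub z p, inner_neg_left, hw, neg_zero]
    rw [h2, zero_smul, zero_add] at h1
    exact h1
  have hQpzT : D2 f p (p - z) (TT p) = 0 := by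
    rw [hsym, hneg, hQTz, neg_zero]
  have hexp : ∀ w : V3, D2 f p (p - z) w = b * D2 f p (S.nu u₀) w
      + ⟪p - z, TT p⟫ * D2 f p (TT p) w := by
    intro w
    conv_lhs => rw [hpz]
    rw [D2_add, D2_smul, D2_smul]
    simp
  have hQpzpz : D2 f p (p - z) (p - z) = b * D2 f p (S.nu u₀) (p - z) := by
    rw [hexp, hneg (TT p), hQTz]
    ring
  have hQpzn : D2 f p (p - z) n = μ * (b * D2 f p (S.nu u₀) (p - z)) := by
    conv_lhs => rw [hnv]
    rw [D2_add', D2_smul', D2_smul', hQpzT, hQpzpz]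
    simp
  have hQpzn2 : D2 f p (p - z) n = b * D2 f p (S.nu u₀) n
      + ⟪p - z, TT p⟫ * D2 f p (TT p) n := hexp n
  have hin : ⟪p - z, n⟫ = b * ⟪S.nu u₀, n⟫ + ⟪p - z, TT p⟫ * ⟪TT p, n⟫ := by
    conv_lhs => rw [hpz]
    rw [inner_add_left, real_inner_smul_left, real_inner_smul_left]
  have hpn : 0 < ⟪p - z, n⟫ := by
    have h1 : ⟪p, n⟫ = tT h a T := by rw [real_inner_comm]; exact hl
    have h2 : ⟪z, n⟫ = -((a + h * T) / Real.sqrt (1 + T ^ 2)) := by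
      simp only [hzdef, hn, nT, ip]
      simp [he2]
      field_simp
      linear_combination (-a) * hee
    rw [inner_sub_left, h1, h2]
    have h3 : 0 < tT h a T := by
      unfold tT
      have : 0 < h - a * T := by linarith
      positivity
    have h4 : 0 < (a + h * T) / Real.sqrt (1 + T ^ 2) := by positivity
    linarith
  have hbL : b * (D2 f p (S.nu u₀) n - ς * (G * x) * ⟪S.nu u₀, n⟫)
      = μ * (b * D2 f p (S.nu u₀) (p - z)) - ς * (G * x) * ⟪p - z, n⟫ := by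
    linear_combination hQpzn - hQpzn2 + ς * (G * x) * hin - ⟪p - z, TT p⟫ * hL1
  have hfin : h * (D2 f p (S.nu u₀) n - ς * (G * x) * ⟪S.nu u₀, n⟫)
      = h * (μ * D2 f p (S.nu u₀) (p - z)) + ς * G * x ^ 2 * ⟪p - z, n⟫ := by
    linear_combination (-x) * hbL + (D2 f p (S.nu u₀) n - ς * (G * x) * ⟪S.nu u₀, n⟫
      - μ * D2 f p (S.nu u₀) (p - z)) * hxb
  have hQ2 : 0 ≤ D2 f p (S.nu u₀) (p - z) := by
    rw [hneg]
    linarith
  have hpos : 0 < h * (D2 f p (S.nu u₀) n - ς * (G * x) * ⟪S.nu u₀, n⟫) := by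
    rw [hfin]
    have : 0 < x ^ 2 := by positivity
    positivity
  exact (mul_pos_iff_of_pos_left hh).1 hpos

end Pool.Agent.H99.SC
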