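import Pool.Agent.H99.SC.RAYS
import Pool.Agent.H99.SC.LSIG

/-!
# WQS: the support function of a star-shaped surface has constant sign

`P = {y : hit with τ > 1}`, `Q = {y : hit with 0 < τ < 1}` (by interior points): open (`hit_open`), disjoint (`star_unique`).
Local claim at `‖u₀‖ < 1`: box `B` at `u₀`, `e = N u₀`.  For small `ε`: on `B.U ε`: `‖B.b y‖ < 1`, `y ∈ S.Sig ↔ B.f y = 0`
(`box_sig`), and every `y` is hit by an interior point with `τ > 0` (`opr` at `Y₀ = X u₀`, `τ₀ = 1`).  So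
`{f > 0} ∩ U ε` and `{f < 0} ∩ U ε` are contained in `P ∪ Q` (`τ = 1` means `y ∈ S.Sig`), and being preconnected each is in
`P` or in `Q`.  `X u₀ + s (q - X u₀) = q + (1-s)(X u₀ - q)` is in `P` and `X u₀ - s (q - X u₀)` in `Q` for small
`s > 0`; so one side is in `P` and the other in `Q`.
`A = {u : ‖u‖ < 1, ∀ᶠ s in 𝓝[>] 0, X u + s N u ∈ P}`, `A' =` same with `Q`: by the local claim both are open (for `u` near
`u₀` the points `X u + s N u`, small `s > 0`, have `f > 0`), disjoint, and cover the open disc: one of them is everything.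
If `A` is everything: suppose `⟪q - X u, N u⟫ < 0`; then `X u - s (q - X u) ∈ Q` has `f > 0` (derivative
`-⟪g, q - X u⟫ > 0`), but the side `f > 0` is in `P`: contradiction; so `0 ≤ ⟪q - X u, N u⟫` for all `u`.  Same for `A'`.
-/

set_option autoImplicit false

open scoped RealInnerProductSpace Topology
open Metric Filter Set

noncomputable section

namespace Pool.Agent.H99.SC

private def WQS_P (S : Surf) (q : V3) : Set V3 :=
  {y : V3 | ∃ u : V2, ‖u‖ < 1 ∧ ∃ τ : ℝ, 1 < τ ∧ q + τ • (y - q) = S.X u}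

private def WQS_Q (S : Surf) (q : V3) : Set V3 :=
  {y : V3 | ∃ u : V2, ‖u‖ < 1 ∧ ∃ τ : ℝ, 0 < τ ∧ τ < 1 ∧ q + τ • (y - q) = S.X u}

private theorem WQS_disj {S : Surf} {q : V3} (hq : StarAt S q) {y : V3} (h1 : y ∈ WQS_P S q)
    (h2 : y ∈ WQS_Q S q) : False := by
  obtain ⟨u, hu, τ, hτ, h1⟩ := h1
  obtain ⟨v, hv, σ, hσ, hσ1, h2⟩ := h2
  have := (star_unique hq hu.le hv.le (by linarith) hσ h1 h2).1
  linarith

private theorem WQS_deriv {S : Surf} {u₀ : V2} {e : V3} (B : Box S.X u₀ e) {u : V2}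
    (hu : ‖u - u₀‖ < B.r) (v : V3) :
    HasDerivAt (fun s : ℝ => B.f (S.X u + s • v)) ⟪B.g (S.X u), v⟫ 0 := by
  have hyU : S.X u ∈ B.U B.r := ⟨u, 0, hu, by simpa using B.hr, by simp⟩
  have hd : HasFDerivAt B.f (fderiv ℝ B.f (S.X u)) (S.X u) :=
    ((B.smooth_f hyU).differentiableAt (by norm_num)).hasFDerivAt
  have hline : HasDerivAt (fun s : ℝ => S.X u + s • v) v 0 := by
    have := ((hasDerivAt_id (0 : ℝ)).smul_const v).const_add (S.X u)
    simpa using this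
  have h1 : HasFDerivAt B.f (fderiv ℝ B.f (S.X u)) (S.X u + (0 : ℝ) • v) := by
    simpa using hd
  have h2 := h1.comp_hasDerivAt (0 : ℝ) hline
  rw [B.fd S.smooth hyU] at h2
  exact h2

private theorem WQS_pos {S : Surf} {u₀ : V2} {e : V3} (B : Box S.X u₀ e) {u : V2}
    (hu : ‖u - u₀‖ < B.r) {v : V3} (hv : 0 < ⟪S.N u, v⟫) :
    ∀ᶠ s : ℝ in 𝓝[>] 0, 0 < B.f (S.X u + s • v) := by
  have hyU : S.X u ∈ B.U B.r := ⟨u, 0, hu, by simpa using B.hr, by simp⟩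
  have hb : B.b (S.X u) = u := B.b_X hu
  have hf0 : B.f (S.X u) = 0 := B.f_X hu
  have hin : 0 < ⟪B.g (S.X u), v⟫ := by
    have h1 := B.g_eq hyU
    have h2 := B.g_pos hyU
    have h3 : NN S.X u = S.N u := rfl
    rw [h1, hb, h3, real_inner_smul_left]
    exact mul_pos h2 hv
  have hslope := hasDerivAt_iff_tendsto_slope.1 (WQS_deriv B hu v)
  have hev := hslope.eventually (lt_mem_nhds hin)
  have hev2 : ∀ᶠ s : ℝ in 𝓝[>] 0,
      0 < slope (fun s : ℝ => B.f (S.X u + s • v)) 0 s :=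
    hev.filter_mono (nhdsWithin_mono _ (fun x hx => ne_of_gt hx))
  have hgt : ∀ᶠ s : ℝ in 𝓝[>] 0, (0:ℝ) < s := self_mem_nhdsWithin
  filter_upwards [hev2, hgt] with s hs hs0
  have hz : B.f (S.X u + (0 : ℝ) • v) = 0 := by simpa using hf0
  rw [slope_def_field, hz, sub_zero, sub_zero] at hs
  exact (div_pos_iff_of_pos_right hs0).1 hs

/-- points on the segment towards `q` -/
private theorem WQS_memP {S : Surf} {q : V3} {u : V2} (hu : ‖u‖ < 1) {s : ℝ} (hs : 0 < s)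
    (hs1 : s < 1) : S.X u + s • (q - S.X u) ∈ WQS_P S q := by
  refine ⟨u, hu, (1 - s)⁻¹, ?_, ?_⟩
  · rw [one_lt_inv₀ (by linarith)]; linarith
  · have h1 : S.X u + s • (q - S.X u) - q = (1 - s) • (S.X u - q) := by
      rw [sub_smul, one_smul, smul_sub, smul_sub]; abel
    rw [h1, smul_smul, inv_mul_cancel₀ (by linarith), one_smul]
    abel

private theorem WQS_memQ {S : Surf} {q : V3} {u : V2} (hu : ‖u‖ < 1) {s : ℝ} (hs : 0 < s) :
    S.X u + s • (-(q - S.X u)) ∈ WQS_Q S q := by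
  refine ⟨u, hu, (1 + s)⁻¹, by positivity, ?_, ?_⟩
  · apply inv_lt_one_of_one_lt₀; linarith
  · have h1 : S.X u + s • (-(q - S.X u)) - q = (1 + s) • (S.X u - q) := by
      rw [add_smul, one_smul, smul_neg, smul_sub, smul_sub]; abel
    rw [h1, smul_smul, inv_mul_cancel₀ (by linarith), one_smul]
    abel

private theorem WQS_tend (x w : V3) {V : Set V3} (hV : V ∈ 𝓝 x) :
    ∀ᶠ s : ℝ in 𝓝[>] 0, x + s • w ∈ V := (lsig_tend x w).eventually hV

/-- the local claim -/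
private theorem WQS_local {S : Surf} {q : V3} (hq : StarAt S q) {u₀ : V2} (hu₀ : ‖u₀‖ < 1) :
    ∃ (B : Box S.X u₀ (S.N u₀)) (ε : ℝ), 0 < ε ∧ ε ≤ B.r ∧ ε ≤ 1 - ‖u₀‖ ∧
      (({y | y ∈ B.U ε ∧ 0 < B.f y} ⊆ WQS_P S q ∧ {y | y ∈ B.U ε ∧ B.f y < 0} ⊆ WQS_Q S q) ∨
      ({y | y ∈ B.U ε ∧ 0 < B.f y} ⊆ WQS_Q S q ∧ {y | y ∈ B.U ε ∧ B.f y < 0} ⊆ WQS_P S q)) := by
  have hnn : 0 < ⟪nn S.X u₀, S.N u₀⟫ := by
    rw [S.nn_eq hu₀.le, real_inner_smul_left, real_inner_self_eq_norm_sq, S.N_norm hu₀.le]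
    have := S.nn_pos hu₀.le
    simpa using this
  obtain ⟨B⟩ := exists_box S.smooth hnn
  obtain ⟨ε₁, hε₁, hε₁r, -, hsig⟩ := box_sig S hu₀.le B
  have hδ : 0 < min (1 - ‖u₀‖) 1 := lt_min (by linarith) one_pos
  have hopr := opr hq hu₀ (Y₀ := S.X u₀) (τ₀ := 1) one_pos (by rw [one_smul]; abel) hδ
  obtain ⟨ε₂, hε₂, -, hU₂⟩ := B.small S.smooth.continuous hopr
  obtain ⟨ε, hε, he1, he2, he3⟩ : ∃ ε : ℝ, 0 < ε ∧ ε ≤ ε₁ ∧ ε ≤ ε₂ ∧ ε ≤ 1 - ‖u₀‖ :=
    ⟨min ε₁ (min ε₂ (1 - ‖u₀‖)), lt_min hε₁ (lt_min hε₂ (by linarith)),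
      min_le_left _ _, (min_le_right _ _).trans (min_le_left _ _),
      (min_le_right _ _).trans (min_le_right _ _)⟩
  have hεr : ε ≤ B.r := he1.trans hε₁r
  have hb : ∀ y ∈ B.U ε, ‖B.b y‖ < 1 := by
    intro y hy
    have h1 := (B.coord hεr hy).1
    have h2 : ‖B.b y‖ ≤ ‖B.b y - u₀‖ + ‖u₀‖ := by
      simpa using norm_add_le (B.b y - u₀) u₀
    linarith
  have hS : ∀ y ∈ B.U ε, (y ∈ S.Sig ↔ B.f y = 0) := by
    intro y hy
    rw [hsig y (B.U_mono he1 hy)]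
    exact ⟨fun h => h.1, fun h => ⟨h, (hb y hy).le⟩⟩
  have hcov : ∀ y ∈ B.U ε, B.f y ≠ 0 → y ∈ WQS_P S q ∪ WQS_Q S q := by
    intro y hy hf
    obtain ⟨u, τ, h1, h2, h3⟩ := hU₂ (B.U_mono he2 hy)
    have hu : ‖u‖ < 1 := by
      have h4 : ‖u‖ ≤ ‖u - u₀‖ + ‖u₀‖ := by simpa using norm_add_le (u - u₀) u₀
      have h5 := h1.trans_le (min_le_left _ _)
      linarith
    have hτ : 0 < τ := by
      have h4 := (abs_lt.1 (h2.trans_le (min_le_right _ _))).1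
      linarith
    rcases lt_trichotomy τ 1 with h4 | h4 | h4
    · exact Or.inr ⟨u, hu, τ, hτ, h4, h3⟩
    · exfalso
      rw [h4, one_smul, add_sub_cancel] at h3
      exact hf ((hS y hy).1 ⟨u, hu.le, h3.symm⟩)
    · exact Or.inl ⟨u, hu, τ, h4, h3⟩
  have hnz : ∀ y ∈ B.U ε, y ∈ WQS_P S q ∪ WQS_Q S q → B.f y ≠ 0 := by
    intro y hy hPQ hf
    obtain ⟨v, hv, hvy⟩ := (hS y hy).2 hf
    have h1 : q + (1 : ℝ) • (y - q) = S.X v := by rw [one_smul, add_sub_cancel, hvy]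
    rcases hPQ with ⟨u, hu, τ, hτ, h2⟩ | ⟨u, hu, τ, hτ, hτ1, h2⟩
    · have := (star_unique hq hu.le hv (by linarith) one_pos h2 h1).1
      linarith
    · have := (star_unique hq hu.le hv hτ one_pos h2 h1).1
      linarith
  have hPo : IsOpen (WQS_P S q) := (hit_open hq).1
  have hQo : IsOpen (WQS_Q S q) := (hit_open hq).2
  have hPQ : Disjoint (WQS_P S q) (WQS_Q S q) :=
    Set.disjoint_left.2 fun y h1 h2 => WQS_disj hq h1 h2
  have hp := (B.preconn_pos S.smooth.continuous hε hεr).subset_or_subset hPo hQo hPQ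
    (fun y hy => hcov y hy.1 hy.2.ne')
  have hn := (B.preconn_neg S.smooth.continuous hε hεr).subset_or_subset hPo hQo hPQ
    (fun y hy => hcov y hy.1 hy.2.ne)
  have hnh : B.U ε ∈ 𝓝 (S.X u₀) := B.U_nhds hε hεr
  -- two test points
  obtain ⟨s, hs1, hs2, hs3, hs4⟩ := ((WQS_tend (S.X u₀) (q - S.X u₀) hnh).and
    ((WQS_tend (S.X u₀) (-(q - S.X u₀)) hnh).and (lsig_ev one_pos))).exists
  have hyP := WQS_memP (S := S) (q := q) hu₀ hs3 hs4
  have hyQ := WQS_memQ (S := S) (q := q) hu₀ hs3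
  have hfP := hnz _ hs1 (Or.inl hyP)
  have hfQ := hnz _ hs2 (Or.inr hyQ)
  refine ⟨B, ε, hε, hεr, he3, ?_⟩
  rcases hp with hp | hp <;> rcases hn with hn | hn
  · exfalso
    rcases lt_or_gt_of_ne hfQ with h | h
    · exact WQS_disj hq (hn ⟨hs2, h⟩) hyQ
    · exact WQS_disj hq (hp ⟨hs2, h⟩) hyQ
  · exact Or.inl ⟨hp, hn⟩
  · exact Or.inr ⟨hp, hn⟩
  · exfalso
    rcases lt_or_gt_of_ne hfP with h | h
    · exact WQS_disj hq hyP (hn ⟨hs1, h⟩)
    · exact WQS_disj hq hyP (hp ⟨hs1, h⟩)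

theorem wq_sign {S : Surf} {q : V3} (hq : StarAt S q) :
    (∀ u : V2, ‖u‖ < 1 → 0 ≤ ⟪q - S.X u, S.N u⟫) ∨
      (∀ u : V2, ‖u‖ < 1 → ⟪q - S.X u, S.N u⟫ ≤ 0) := by
  set A : Set V2 := {u | ‖u‖ < 1 ∧ ∀ᶠ s : ℝ in 𝓝[>] 0, S.X u + s • S.N u ∈ WQS_P S q} with hA
  set A' : Set V2 := {u | ‖u‖ < 1 ∧ ∀ᶠ s : ℝ in 𝓝[>] 0, S.X u + s • S.N u ∈ WQS_Q S q} with hA'
  -- near `u₀` all the points are on the positive side of the box
  have hside : ∀ (u₀ : V2) (B : Box S.X u₀ (S.N u₀)) (ε : ℝ), 0 < ε → ε ≤ B.r → ε ≤ 1 - ‖u₀‖ →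
      ∀ u : V2, ‖u - u₀‖ < ε → ‖u‖ < 1 ∧ ∀ᶠ s : ℝ in 𝓝[>] 0,
        S.X u + s • S.N u ∈ {y | y ∈ B.U ε ∧ 0 < B.f y} := by
    intro u₀ B ε hε hεr he u hu
    have hu1 : ‖u‖ < 1 := by
      have h4 : ‖u‖ ≤ ‖u - u₀‖ + ‖u₀‖ := by simpa using norm_add_le (u - u₀) u₀
      linarith
    have hmem : S.X u ∈ B.U ε := ⟨u, 0, hu, by simpa using hε, by simp⟩
    have hN : 0 < ⟪S.N u, S.N u⟫ := by
      rw [real_inner_self_eq_norm_sq, S.N_norm hu1.le]; norm_num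
    refine ⟨hu1, ?_⟩
    filter_upwards [WQS_tend (S.X u) (S.N u) ((B.U_open hε hεr).mem_nhds hmem),
      WQS_pos B (hu.trans_le hεr) hN] with s h1 h2
    exact ⟨h1, h2⟩
  have hball : ∀ u₀ : V2, ‖u₀‖ < 1 → (∃ ε > 0, ball u₀ ε ⊆ A) ∨ (∃ ε > 0, ball u₀ ε ⊆ A') := by
    intro u₀ hu₀
    obtain ⟨B, ε, hε, hεr, he, h | h⟩ := WQS_local hq hu₀
    · left
      refine ⟨ε, hε, fun u hu => ?_⟩
      obtain ⟨h1, h2⟩ := hside u₀ B ε hε hεr he u (by simpa [dist_eq_norm] using hu)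
      exact ⟨h1, h2.mono fun s hs => h.1 hs⟩
    · right
      refine ⟨ε, hε, fun u hu => ?_⟩
      obtain ⟨h1, h2⟩ := hside u₀ B ε hε hεr he u (by simpa [dist_eq_norm] using hu)
      exact ⟨h1, h2.mono fun s hs => h.1 hs⟩
  have hdisj : ∀ u, u ∈ A → u ∈ A' → False := by
    rintro u ⟨-, h1⟩ ⟨-, h2⟩
    obtain ⟨s, hs1, hs2⟩ := (h1.and h2).exists
    exact WQS_disj hq hs1 hs2
  have hAo : IsOpen A := by
    rw [Metric.isOpen_iff]
    intro u hu
    rcases hball u hu.1 with h | ⟨ε, hε, h⟩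
    · exact h
    · exact (hdisj u hu (h (mem_ball_self hε))).elim
  have hAo' : IsOpen A' := by
    rw [Metric.isOpen_iff]
    intro u hu
    rcases hball u hu.1 with ⟨ε, hε, h⟩ | h
    · exact (hdisj u (h (mem_ball_self hε)) hu).elim
    · exact h
  have hcov : ball (0 : V2) 1 ⊆ A ∪ A' := by
    intro u hu
    have hu1 : ‖u‖ < 1 := by simpa using hu
    rcases hball u hu1 with ⟨ε, hε, h⟩ | ⟨ε, hε, h⟩
    · exact Or.inl (h (mem_ball_self hε))
    · exact Or.inr (h (mem_ball_self hε))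
  have hpre : IsPreconnected (ball (0 : V2) 1) := (convex_ball _ _).isPreconnected
  rcases hpre.subset_or_subset hAo hAo' (Set.disjoint_left.2 fun u h1 h2 => hdisj u h1 h2) hcov
    with hall | hall
  · left
    intro u hu
    by_contra hcon
    push Not at hcon
    obtain ⟨B, ε, hε, hεr, he, hloc⟩ := WQS_local hq hu
    have huA : u ∈ A := hall (by simpa using hu)
    have hsd := (hside u B ε hε hεr he u (by simpa using hε)).2
    have hP : {y | y ∈ B.U ε ∧ 0 < B.f y} ⊆ WQS_P S q := by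
      rcases hloc with h | h
      · exact h.1
      · exfalso
        obtain ⟨s, hs1, hs2⟩ := (huA.2.and hsd).exists
        exact WQS_disj hq hs1 (h.1 hs2)
    have hv : 0 < ⟪S.N u, -(q - S.X u)⟫ := by
      rw [inner_neg_right, real_inner_comm]; linarith
    obtain ⟨s, hs1, hs2, hs3, -⟩ := ((WQS_tend (S.X u) (-(q - S.X u)) (B.U_nhds hε hεr)).and
      ((WQS_pos B (by simpa using B.hr) hv).and (lsig_ev one_pos))).exists
    exact WQS_disj hq (hP ⟨hs1, hs2⟩) (WQS_memQ hu hs3)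
  · right
    intro u hu
    by_contra hcon
    push Not at hcon
    obtain ⟨B, ε, hε, hεr, he, hloc⟩ := WQS_local hq hu
    have huA : u ∈ A' := hall (by simpa using hu)
    have hsd := (hside u B ε hε hεr he u (by simpa using hε)).2
    have hQ : {y | y ∈ B.U ε ∧ 0 < B.f y} ⊆ WQS_Q S q := by
      rcases hloc with h | h
      · exfalso
        obtain ⟨s, hs1, hs2⟩ := (huA.2.and hsd).exists
        exact WQS_disj hq (h.1 hs2) hs1
      · exact h.1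
    have hv : 0 < ⟪S.N u, q - S.X u⟫ := by
      rw [real_inner_comm]; linarith
    obtain ⟨s, hs1, hs2, hs3, hs4⟩ := ((WQS_tend (S.X u) (q - S.X u) (B.U_nhds hε hεr)).and
      ((WQS_pos B (by simpa using B.hr) hv).and (lsig_ev one_pos))).exists
    exact WQS_disj hq (WQS_memP hu hs3 hs4) (hQ ⟨hs1, hs2⟩)

end Pool.Agent.H99.SC
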